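import Mathlib
import Pool.Agent.Work.MP_913e71_al.DefsB
import Pool.Agent.Work.MP_913e71_al.Gen
import Pool.Agent.Work.MP_ccd781_gt.GR.Brouwer

-- merged part: Pool.Agent.Work.MP_913e71_al.Pos.PDefs
section
/-! Working definitions: minors, orders, types, lattices, covolumes. -/

namespace Pool.Agent.Work.MP_913e71_al.Pos

open Matrix Polynomial Module

instance factPr (l : Nat.Primes) : Fact (l : ℕ).Prime := ⟨l.2⟩

/-- The maximal minor on the rows `I`. -/
def mnr {R ρ ι : Type} [CommRing R] [Fintype ι] [DecidableEq ι] (X : Matrix ρ ι R) (I : ι → ρ) : R :=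
  (X.submatrix I id).det

variable {n : ℕ}

/-- The least order of a nonzero maximal minor of `H b`. -/
noncomputable def mu {R ι : Type} [CommRing R] [Fintype ι] [DecidableEq ι]
    (H : Matrix (Fin n) (Fin n) R[X]) (b : Matrix (Fin n) ι R) : ℕ :=
  sInf {e | ∃ I : ι → Fin n, mnr (H * b.map C) I ≠ 0 ∧ (mnr (H * b.map C) I).natTrailingDegree = e}

/-- A basis matrix of a subspace. -/
noncomputable def basMat {F : Type} [Field F] (W : Submodule F (Fin n → F)) :
    Matrix (Fin n) (Fin (finrank F W)) F := fun i j => (finBasis F W j : Fin n → F) i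

/-- The columns of `b` are a basis of `W`. -/
def IsBas {F ι : Type} [CommRing F] (W : Submodule F (Fin n → F)) (b : Matrix (Fin n) ι F) : Prop :=
  LinearIndependent F b.col ∧ Submodule.span F (Set.range b.col) = W

/-- `mu` of a subspace. -/
noncomputable def muW {F R : Type} [Field F] [CommRing R] [Algebra F R]
    (H : Matrix (Fin n) (Fin n) R[X]) (W : Submodule F (Fin n → F)) : ℕ :=
  mu H ((basMat W).map (algebraMap F R))

/-- The degree of a subspace for the weights `d`. -/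
noncomputable def dinf {F : Type} [Field F] (d : Fin n → ℕ) (W : Submodule F (Fin n → F)) : ℕ :=
  muW (Matrix.diagonal fun i => (X : F[X]) ^ d i) W

/-- The bracket with structure constants `s`. -/
def br {R : Type} [CommRing R] (s : Fin n → Fin n → Fin n → ℤ) (x y : Fin n → R) : Fin n → R :=
  fun l => ∑ i, ∑ j, x i * y j * (s i j l : R)

/-- The lattice `t ^ (-e) G O ^ n` is closed under the bracket. -/
def IsType {R : Type} [CommRing R] (s : Fin n → Fin n → Fin n → ℤ)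
    (G : Matrix (Fin n) (Fin n) R[X]) (e : ℕ) : Prop :=
  G.det ≠ 0 ∧ ∀ i j l,
    X ^ (G.det.natTrailingDegree + e) ∣ (G.adjugate *ᵥ br s (G.col i) (G.col j)) l

/-- The cost of a type. -/
noncomputable def cost {R : Type} [CommRing R] (G : Matrix (Fin n) (Fin n) R[X]) (e : ℕ) : ℤ :=
  G.det.natTrailingDegree - n * e

/-- The degree of a subspace for a type. -/
noncomputable def Dt {F R : Type} [Field F] [CommRing R] [Algebra F R]
    (G : Matrix (Fin n) (Fin n) R[X]) (e : ℕ) (W : Submodule F (Fin n → F)) : ℤ :=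
  finrank F W * G.det.natTrailingDegree - muW G.adjugate W - finrank F W * e

/-- The points of `L` in `W`. -/
def LW (L : Submodule ℤ (Fin n → ℤ)) (W : Submodule ℚ (Fin n → ℚ)) : Submodule ℤ (Fin n → ℤ) where
  carrier := {v | v ∈ L ∧ (fun i => (v i : ℚ)) ∈ W}
  zero_mem' := ⟨L.zero_mem, by convert W.zero_mem using 1; ext; simp⟩
  add_mem' := fun ha hb => ⟨L.add_mem ha.1 hb.1, by
    convert W.add_mem ha.2 hb.2 using 1; ext; simp⟩
  smul_mem' := fun c v hv => ⟨L.smul_mem c hv.1, by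
    convert W.smul_mem (c : ℚ) hv.2 using 1; ext; simp⟩

lemma mem_LW {L : Submodule ℤ (Fin n → ℤ)} {W : Submodule ℚ (Fin n → ℚ)} {v : Fin n → ℤ} :
    v ∈ LW L W ↔ v ∈ L ∧ (fun i => (v i : ℚ)) ∈ W := Iff.rfl

/-- A basis matrix of a sublattice. -/
noncomputable def zbas (M : Submodule ℤ (Fin n → ℤ)) : Matrix (Fin n) (Fin (finrank ℤ M)) ℤ :=
  fun i j => (finBasis ℤ M j : Fin n → ℤ) i

/-- The largest weighted maximal minor. -/
noncomputable def sz {ι : Type} [Fintype ι] [DecidableEq ι] (d : Fin n → ℕ) (r : ℝ)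
    (X : Matrix (Fin n) ι ℝ) : ℝ :=
  ⨆ I : ι → Fin n, |mnr X I| / r ^ (∑ i, d (I i))

/-- The weighted covolume of a sublattice. -/
noncomputable def cov (d : Fin n → ℕ) (r : ℝ) (M : Submodule ℤ (Fin n → ℤ)) : ℝ :=
  sz d r ((zbas M).map (Int.cast : ℤ → ℝ))

/-- The height of a rational subspace. -/
noncomputable def Ht (W : Submodule ℚ (Fin n → ℚ)) : ℝ := cov 0 1 (LW ⊤ W)

/-- Full rank. -/
def Full (L : Submodule ℤ (Fin n → ℤ)) : Prop := ∃ N : ℕ, 0 < N ∧ ∀ v, (N : ℤ) • v ∈ L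

/-- The box of radius `r`. -/
def InBox (d : Fin n → ℕ) (r : ℝ) (v : Fin n → ℝ) : Prop := ∀ i, |v i| ≤ r ^ d i

end Pool.Agent.Work.MP_913e71_al.Pos
end

-- merged part: Pool.Agent.Work.MP_913e71_al.Pos.GDefs
section
/-! Working definitions for the group side: bracket words, nilpotent algebras, logarithmic
coordinates. -/

namespace Pool.Agent.Work.MP_913e71_al.Pos

/-- The value of a bracket word. -/
def ev {α V : Type} (b : V → V → V) (x : α → V) : FreeMagma α → V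
  | .of a => x a
  | .mul u v => b (ev b x u) (ev b x v)

@[simp] lemma ev_of {α V : Type} (b : V → V → V) (x : α → V) (a : α) :
    ev b x (FreeMagma.of a) = x a := rfl

@[simp] lemma ev_mul {α V : Type} (b : V → V → V) (x : α → V) (u v : FreeMagma α) :
    ev b x (u * v) = b (ev b x u) (ev b x v) := rfl

section

variable {V : Type} [AddCommGroup V] [Module ℚ V]

/-- Bilinearity over the rationals. -/
structure Bil (b : V → V → V) : Prop where
  add_left : ∀ x y z, b (x + y) z = b x z + b y z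
  add_right : ∀ x y z, b x (y + z) = b x y + b x z
  smul_left : ∀ (a : ℚ) x y, b (a • x) y = a • b x y
  smul_right : ∀ (a : ℚ) x y, b x (a • y) = a • b x y

/-- The span of the bracket words of length at least `k`. -/
def TS {α : Type} (b : V → V → V) (x : α → V) (k : ℕ) : Submodule ℚ V :=
  Submodule.span ℚ {v | ∃ w : FreeMagma α, k ≤ w.length ∧ ev b x w = v}

/-- A filtration compatible with the bracket. -/
structure Filt (b : V → V → V) (F : ℕ → Submodule ℚ V) : Prop where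
  anti : Antitone F
  br_mem : ∀ i j, ∀ x ∈ F i, ∀ y ∈ F j, b x y ∈ F (i + j)

/-- The group law given by a finite combination `q` of bracket words in two letters. -/
def bch (b : V → V → V) (q : FreeMagma Bool →₀ ℚ) (x y : V) : V :=
  x + y + q.sum fun w a => a • ev b (fun t => cond t x y) w

end

/-- All words in the support have length at least two. -/
def Len2 (q : FreeMagma Bool →₀ ℚ) : Prop := ∀ w ∈ q.support, 2 ≤ w.length

section

variable {A : Type} [Ring A] [Algebra ℚ A]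

/-- The commutator. -/
def cm (x y : A) : A := x * y - y * x

/-- A subspace closed under products in which products of `c + 1` elements vanish. -/
structure NilAlg (N : Submodule ℚ A) (c : ℕ) : Prop where
  mul_mem : ∀ x ∈ N, ∀ y ∈ N, x * y ∈ N
  prod_eq : ∀ l : List A, l.length = c + 1 → (∀ x ∈ l, x ∈ N) → l.prod = 0

/-- A set whose exponential is a group. -/
structure LogGrp (N : Submodule ℚ A) (X : Set A) : Prop where
  sub : ∀ x ∈ X, x ∈ N
  zero : (0 : A) ∈ X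
  neg : ∀ x ∈ X, -x ∈ X
  mul : ∀ x ∈ X, ∀ y ∈ X, ∃ z ∈ X, IsNilpotent.exp z = IsNilpotent.exp x * IsNilpotent.exp y

end

/-- The group has a faithful unipotent representation in a rational algebra. -/
def Uni (G : Type) [Group G] : Prop :=
  ∃ (A : Type) (_ : Ring A) (_ : Algebra ℚ A) (ρ : G →* A) (M : ℕ), Function.Injective ρ ∧
    ∀ l : List G, l.length = M → (l.map fun g => ρ g - 1).prod = 0

/-- Vectors whose coordinates of weight below `k` vanish. -/
def Fil {n : ℕ} (d : Fin n → ℕ) (k : ℕ) : Submodule ℚ (Fin n → ℝ) where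
  carrier := {v | ∀ i, d i < k → v i = 0}
  zero_mem' := fun _ _ => rfl
  add_mem' := fun {a b} ha hb i hi => by simp [ha i hi, hb i hi]
  smul_mem' := fun c v hv i hi => by simp [hv i hi]

lemma mem_Fil {n : ℕ} {d : Fin n → ℕ} {k : ℕ} {v : Fin n → ℝ} :
    v ∈ Fil d k ↔ ∀ i, d i < k → v i = 0 := Iff.rfl

/-- Logarithmic coordinates on a group. -/
structure Mal (G : Type) [Group G] (n : ℕ) where
  d : Fin n → ℕ
  s : Fin n → Fin n → Fin n → ℤ
  q : FreeMagma Bool →₀ ℚ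
  lg : G → Fin n → ℝ
  N : ℕ
  hd : ∀ i, 1 ≤ d i
  graded : ∀ i j l, s i j l ≠ 0 → d i + d j ≤ d l
  alt : ∀ x : Fin n → ℝ, br s x x = 0
  len2 : Len2 q
  inj : Function.Injective lg
  mul : ∀ g h, lg (g * h) = bch (br s) q (lg g) (lg h)
  zpow : ∀ g (k : ℤ), lg (g ^ k) = k • lg g
  comm : ∀ i j g h, lg g ∈ Fil d i → lg h ∈ Fil d j →
    lg (g * h * g⁻¹ * h⁻¹) - br s (lg g) (lg h) ∈ Fil d (i + j + 1)
  hN : 0 < N
  ib_add : ∀ Λ : Subgroup G, ∀ g ∈ Λ, ∀ h ∈ Λ, ∃ z ∈ Λ, lg z = N • (lg g + lg h)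
  ib_br : ∀ Λ : Subgroup G, ∀ g ∈ Λ, ∀ h ∈ Λ, ∃ z ∈ Λ, lg z = N • br s (lg g) (lg h)

/-- The logarithms are commensurable with the integer points and the weights come from words in
the generators. -/
structure Mal.Int {G : Type} [Group G] {n : ℕ} (M : Mal G n) (S : Finset G) : Prop where
  int : ∀ g, ∃ v : Fin n → ℤ, M.N • M.lg g = fun i => (v i : ℝ)
  full : ∀ v : Fin n → ℤ, ∃ g, M.lg g = M.N • fun i => (v i : ℝ)
  gen : ∀ i, M.N • (Pi.single i 1 : Fin n → ℝ) ∈ AddSubgroup.closure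
    {v | ∃ w : FreeMagma S, M.d i ≤ w.length ∧ ev (br M.s) (fun a : S => M.lg a) w = v}

/-- The ball of radius `r`. -/
def ball {G : Type} [Group G] (S : Set G) (r : ℝ) : Set G := {x | (wordLength S x : ℝ) ≤ r}

/-- The integer points of the box of radius `r`. -/
def ZB {n : ℕ} (d : Fin n → ℕ) (r : ℝ) : Set (Fin n → ℤ) := {v | InBox d r fun i => (v i : ℝ)}

/-- Two sided estimate of the growth. -/
def GrowTwo {G : Type} [Group G] (S : Set G) (D : ℕ) : Prop :=
  ∃ C : ℝ, 1 ≤ C ∧ ∀ r : ℝ, 1 ≤ r →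
    r ^ D ≤ C * (ball S r).ncard ∧ ((ball S r).ncard : ℝ) ≤ C * r ^ D

/-- Two sided estimate of the systolic growth. -/
def SysTwo {G : Type} [Group G] (S : Set G) (β : ℝ) : Prop :=
  ∃ C : ℝ, 1 ≤ C ∧ ∀ r : ℝ, 1 ≤ r →
    (∃ Λ : Subgroup G, Λ.FiniteIndex ∧ (∀ x ∈ Λ, x ≠ 1 → r ≤ (wordLength S x : ℝ)) ∧
      (Λ.index : ℝ) ≤ C * r ^ β) ∧
    ∀ Λ : Subgroup G, Λ.FiniteIndex → (∀ x ∈ Λ, x ≠ 1 → C * r ≤ (wordLength S x : ℝ)) →
      r ^ β ≤ C * Λ.index

end Pool.Agent.Work.MP_913e71_al.Pos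
end

-- merged part: Pool.Agent.Work.MP_913e71_al.Pos.Tree
section
/-! Bracket words for a bilinear map.  All proofs are inductions on the word
(`FreeMagma.recOnMul` or `induction w`), or span inductions. -/

namespace Pool.Agent.Work.MP_913e71_al.Pos

variable {V α : Type} [AddCommGroup V] [Module ℚ V] {b : V → V → V}

/-- The bracket as a bilinear map. -/
def Tree_lin (hb : Bil b) : V →ₗ[ℚ] V →ₗ[ℚ] V :=
  LinearMap.mk₂ ℚ b hb.add_left hb.smul_left hb.add_right hb.smul_right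

omit [AddCommGroup V] [Module ℚ V] in
theorem Tree_closed {P : Set V} (hP : ∀ x ∈ P, ∀ y ∈ P, b x y ∈ P) {x : α → V}
    (hx : ∀ a, x a ∈ P) (w : FreeMagma α) : ev b x w ∈ P := by
  induction w using FreeMagma.recOnMul with
  | ih1 a => exact hx a
  | ih2 u v hu hv => exact hP _ hu _ hv

theorem Bil.zero_left (hb : Bil b) (y : V) : b 0 y = 0 := by
  exact (Tree_lin hb).map_zero₂ y

theorem Bil.zero_right (hb : Bil b) (x : V) : b x 0 = 0 := by
  exact (Tree_lin hb x).map_zero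

theorem Bil.sub_left (hb : Bil b) (x y z : V) : b (x - y) z = b x z - b y z := by
  exact (Tree_lin hb).map_sub₂ x y z

theorem Bil.sub_right (hb : Bil b) (x y z : V) : b x (y - z) = b x y - b x z := by
  exact (Tree_lin hb x).map_sub y z

theorem Bil.zsmul_left (hb : Bil b) (a : ℤ) (x y : V) : b (a • x) y = a • b x y := by
  exact map_zsmul ((Tree_lin hb).flip y) a x

theorem Bil.zsmul_right (hb : Bil b) (a : ℤ) (x y : V) : b x (a • y) = a • b x y := by
  exact map_zsmul (Tree_lin hb x) a y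

theorem Bil.nsmul_left (hb : Bil b) (a : ℕ) (x y : V) : b (a • x) y = a • b x y := by
  exact map_nsmul ((Tree_lin hb).flip y) a x

theorem Bil.nsmul_right (hb : Bil b) (a : ℕ) (x y : V) : b x (a • y) = a • b x y := by
  exact map_nsmul (Tree_lin hb x) a y

theorem ev_smul (hb : Bil b) (a : ℚ) (x : α → V) (w : FreeMagma α) :
    ev b (fun i => a • x i) w = a ^ w.length • ev b x w := by
  induction w using FreeMagma.recOnMul with
  | ih1 a => simp
  | ih2 u v hu hv =>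
    rw [ev_mul, ev_mul, hu, hv, hb.smul_left, hb.smul_right, smul_smul, ← pow_add]
    rfl

omit [Module ℚ V] in
theorem ev_mem_of_closed {M : AddSubgroup V} (hM : ∀ x ∈ M, ∀ y ∈ M, b x y ∈ M) {x : α → V}
    (hx : ∀ a, x a ∈ M) (w : FreeMagma α) : ev b x w ∈ M := by
  exact Tree_closed (P := (M : Set V)) hM hx w

omit [AddCommGroup V] [Module ℚ V] in
/-- A map that respects the brackets on a closed set respects bracket words. -/
theorem map_ev {W : Type} {b' : W → W → W} (f : V → W) {P : Set V}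
    (hP : ∀ x ∈ P, ∀ y ∈ P, b x y ∈ P) (hf : ∀ x ∈ P, ∀ y ∈ P, f (b x y) = b' (f x) (f y))
    {x : α → V} (hx : ∀ a, x a ∈ P) (w : FreeMagma α) :
    f (ev b x w) = ev b' (fun a => f (x a)) w := by
  induction w using FreeMagma.recOnMul with
  | ih1 a => rfl
  | ih2 u v hu hv =>
    rw [ev_mul, ev_mul, hf _ (Tree_closed hP hx u) _ (Tree_closed hP hx v), hu, hv]

theorem map_bch {W : Type} [AddCommGroup W] [Module ℚ W] {b' : W → W → W} (f : V →ₗ[ℚ] W)
    {P : Set V} (hP : ∀ x ∈ P, ∀ y ∈ P, b x y ∈ P)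
    (hf : ∀ x ∈ P, ∀ y ∈ P, f (b x y) = b' (f x) (f y)) (q : FreeMagma Bool →₀ ℚ) {x y : V}
    (hx : x ∈ P) (hy : y ∈ P) : f (bch b q x y) = bch b' q (f x) (f y) := by
  unfold bch Finsupp.sum
  rw [map_add, map_add, map_sum]
  refine congrArg _ (Finset.sum_congr rfl fun w _ => ?_)
  rw [map_smul, map_ev f hP hf (by rintro (_ | _); exacts [hy, hx])]
  congr 2
  funext t
  cases t <;> rfl

theorem Filt.ev_mem {F : ℕ → Submodule ℚ V} (hF : Filt b F) {k : ℕ} {x : α → V}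
    (hx : ∀ a, x a ∈ F k) (w : FreeMagma α) : ev b x w ∈ F (k * w.length) := by
  induction w using FreeMagma.recOnMul with
  | ih1 a => simpa using hx a
  | ih2 u v hu hv =>
    have := hF.br_mem _ _ _ hu _ hv
    rwa [← mul_add] at this

/-- Words of length at least two in multiples of one vector vanish. -/
theorem ev_pure (hb : Bil b) (halt : ∀ x, b x x = 0) {y : V} {x : α → V}
    (hx : ∀ a, x a ∈ Submodule.span ℚ {y}) (w : FreeMagma α) (hw : 2 ≤ w.length) :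
    ev b x w = 0 := by
  have h0 : ∀ u ∈ Submodule.span ℚ {y}, ∀ v ∈ Submodule.span ℚ {y}, b u v = 0 := by
    intro u hu v hv
    obtain ⟨a, rfl⟩ := Submodule.mem_span_singleton.1 hu
    obtain ⟨c, rfl⟩ := Submodule.mem_span_singleton.1 hv
    rw [hb.smul_left, hb.smul_right, halt, smul_zero, smul_zero]
  have h1 := Tree_closed (b := b) (P := (Submodule.span ℚ {y} : Submodule ℚ V))
    (fun u hu v hv => by rw [h0 u hu v hv]; exact Submodule.zero_mem _) hx
  cases w with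
  | of a => simp at hw
  | mul u v => exact h0 _ (h1 u) _ (h1 v)

/-- Perturbation of the letters. -/
theorem Filt.ev_sub (hb : Bil b) {F : ℕ → Submodule ℚ V} (hF : Filt b F) {m : ℕ} {x x' : α → V}
    (hx : ∀ a, x a ∈ F 1) (hx' : ∀ a, x' a ∈ F 1) (h : ∀ a, x a - x' a ∈ F (m + 1))
    (w : FreeMagma α) : ev b x w - ev b x' w ∈ F (m + w.length) := by
  induction w using FreeMagma.recOnMul with
  | ih1 a => exact h a
  | ih2 u v hu hv =>
    have h1 := hF.br_mem _ _ _ hu _ (hF.ev_mem hx v)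
    have h2 := hF.br_mem _ _ _ (hF.ev_mem hx' u) _ hv
    rw [hb.sub_left, one_mul, add_assoc] at h1
    rw [hb.sub_right, one_mul, add_left_comm] at h2
    have h3 := add_mem h1 h2
    rwa [sub_add_sub_cancel] at h3

theorem ev_mem_TS (x : α → V) (w : FreeMagma α) {k : ℕ} (hk : k ≤ w.length) :
    ev b x w ∈ TS b x k := by
  exact Submodule.subset_span ⟨w, hk, rfl⟩

theorem filt_TS (hb : Bil b) (x : α → V) : Filt b (TS b x) := by
  refine ⟨fun i j h => Submodule.span_mono fun _ ⟨w, h1, h2⟩ => ⟨w, h.trans h1, h2⟩,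
    fun i j u hu v hv => ?_⟩
  refine (?_ : Submodule.map₂ (Tree_lin hb) _ _ ≤ _) (Submodule.apply_mem_map₂ _ hu hv)
  rw [TS, TS, Submodule.map₂_span_span, Submodule.span_le]
  rintro _ ⟨_, ⟨u, h1, rfl⟩, _, ⟨v, h2, rfl⟩, rfl⟩
  exact ev_mem_TS x (u * v) (add_le_add h1 h2)

theorem TS_le {F : ℕ → Submodule ℚ V} (hF : Filt b F) {x : α → V} (hx : ∀ a, x a ∈ F 1) (k : ℕ) :
    TS b x k ≤ F k := by
  refine Submodule.span_le.2 ?_
  rintro _ ⟨w, h, rfl⟩
  exact hF.anti (h.trans_eq (one_mul _).symm) (hF.ev_mem hx w)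

theorem TS_eq_bot {x : α → V} {c : ℕ} (h : ∀ w : FreeMagma α, c < w.length → ev b x w = 0) :
    TS b x (c + 1) = ⊥ := by
  refine Submodule.span_eq_bot.2 ?_
  rintro _ ⟨w, h1, rfl⟩
  exact h w h1

theorem finite_words [Finite α] (c : ℕ) : {w : FreeMagma α | w.length ≤ c}.Finite := by
  induction c with
  | zero => exact Set.finite_empty.subset fun w hw => absurd hw (FreeMagma.length_pos w).not_ge
  | succ c ih =>
    refine ((Set.finite_range FreeMagma.of).union (ih.image2 (· * ·) ih)).subset fun w hw => ?_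
    cases w with
    | of a => exact Or.inl ⟨a, rfl⟩
    | mul u v =>
      have h1 := FreeMagma.length_pos u
      have h2 := FreeMagma.length_pos v
      have h3 : u.length + v.length ≤ c + 1 := hw
      exact Or.inr ⟨u, show u.length ≤ c by omega, v, show v.length ≤ c by omega, rfl⟩

omit [Module ℚ V] in
theorem finite_range_ev [Finite α] {x : α → V} {c : ℕ}
    (h : ∀ w : FreeMagma α, c < w.length → ev b x w = 0) : (Set.range (ev b x)).Finite := by
  refine (((finite_words c).image (ev b x)).insert 0).subset ?_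
  rintro _ ⟨w, rfl⟩
  exact (lt_or_ge c w.length).imp (h w) fun hw => ⟨w, hw, rfl⟩

theorem closure_ev_closed (hb : Bil b) (x : α → V) :
    ∀ u ∈ AddSubgroup.closure (Set.range (ev b x)),
      ∀ v ∈ AddSubgroup.closure (Set.range (ev b x)),
        b u v ∈ AddSubgroup.closure (Set.range (ev b x)) := by
  intro u hu v hv
  induction hu using AddSubgroup.closure_induction with
  | mem u hu =>
    induction hv using AddSubgroup.closure_induction with
    | mem v hv =>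
      obtain ⟨u, rfl⟩ := hu
      obtain ⟨v, rfl⟩ := hv
      exact AddSubgroup.subset_closure ⟨u * v, rfl⟩
    | zero => exact (hb.zero_right u).symm ▸ zero_mem _
    | add v w _ _ h1 h2 => exact (hb.add_right u v w).symm ▸ add_mem h1 h2
    | neg v _ h =>
      rw [show b u (-v) = -b u v from map_neg (Tree_lin hb u) v]
      exact neg_mem h
  | zero => exact (hb.zero_left v).symm ▸ zero_mem _
  | add u w _ _ h1 h2 => exact (hb.add_left u w v).symm ▸ add_mem h1 h2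
  | neg u _ h =>
    rw [show b (-u) v = -b u v from map_neg ((Tree_lin hb).flip v) u]
    exact neg_mem h

theorem Filt.bch_sub {F : ℕ → Submodule ℚ V} (hF : Filt b F) {q : FreeMagma Bool →₀ ℚ}
    (hq : Len2 q) {k : ℕ} (hk : 1 ≤ k) {x y : V} (hx : x ∈ F k) (hy : y ∈ F k) :
    bch b q x y - (x + y) ∈ F (k + 1) := by
  rw [bch, add_sub_cancel_left]
  refine Submodule.sum_mem _ fun w hw => Submodule.smul_mem _ _ (hF.anti ?_
    (hF.ev_mem (k := k) (by rintro (_ | _); exacts [hy, hx]) w))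
  nlinarith [hq w hw]

/-- A common denominator: `K • M` is closed under the group law for every Lie ring `M`.
Take `K` the product of the denominators; `q w * K ^ (length w - 1)` is an integer. -/
theorem exists_bch_den (q : FreeMagma Bool →₀ ℚ) (hq : Len2 q) :
    ∃ K : ℕ, 0 < K ∧ ∀ (V : Type) [AddCommGroup V] [Module ℚ V] (b : V → V → V), Bil b →
      ∀ M : AddSubgroup V, (∀ x ∈ M, ∀ y ∈ M, b x y ∈ M) → ∀ x ∈ M, ∀ y ∈ M,
        ∃ z ∈ M, bch b q (K • x) (K • y) = K • z := by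
  refine ⟨∏ w ∈ q.support, (q w).den, Finset.prod_pos fun w _ => (q w).den_pos, ?_⟩
  intro V _ _ b hb M hM x hx y hy
  have h1 : ∀ w ∈ q.support, (q w).den ∣ ∏ w ∈ q.support, (q w).den := fun w hw =>
    Finset.dvd_prod_of_mem _ hw
  generalize ∏ w ∈ q.support, (q w).den = K at h1
  refine ⟨x + y + ∑ w ∈ q.support, ((q w).num * (K / (q w).den * K ^ (w.length - 2) : ℕ)) •
    ev b (fun t => cond t x y) w, add_mem (add_mem hx hy) (sum_mem fun w _ => zsmul_mem
      (ev_mem_of_closed hM (by rintro (_ | _); exacts [hy, hx]) w) _), ?_⟩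
  rw [smul_add, smul_add, Finset.smul_sum]
  refine congrArg _ (Finset.sum_congr rfl fun w hw => ?_)
  have e : (fun t => cond t (K • x) (K • y)) = fun t => (K : ℚ) • cond t x y := by
    funext t
    cases t <;> exact (Nat.cast_smul_eq_nsmul ℚ _ _).symm
  obtain ⟨l, hl⟩ := Nat.exists_eq_add_of_le' (hq w hw)
  obtain ⟨m, rfl⟩ := h1 w hw
  simp only
  rw [e, ev_smul hb, smul_smul, ← Nat.cast_smul_eq_nsmul ℚ, ← Int.cast_smul_eq_zsmul ℚ, smul_smul,
    hl, Nat.add_sub_cancel, Nat.mul_div_cancel_left _ (q w).den_pos]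
  congr 1
  push_cast
  rw [← Rat.mul_den_eq_num]
  ring

theorem bil_br {n : ℕ} (s : Fin n → Fin n → Fin n → ℤ) :
    Bil (br s : (Fin n → ℝ) → (Fin n → ℝ) → Fin n → ℝ) := by
  refine ⟨fun x y z => ?_, fun x y z => ?_, fun a x y => ?_, fun a x y => ?_⟩ <;> funext l <;>
    simp [br, add_mul, mul_add, Finset.sum_add_distrib, Finset.smul_sum]

theorem filt_Fil {n : ℕ} {d : Fin n → ℕ} {s : Fin n → Fin n → Fin n → ℤ}
    (hgr : ∀ i j l, s i j l ≠ 0 → d i + d j ≤ d l) :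
    Filt (br s : (Fin n → ℝ) → (Fin n → ℝ) → Fin n → ℝ) (Fil d) := by
  refine ⟨fun i j h v hv l hl => hv l (hl.trans_le h), fun i j x hx y hy l hl => ?_⟩
  refine Finset.sum_eq_zero fun a _ => Finset.sum_eq_zero fun c _ => ?_
  by_cases h0 : s a c l = 0
  · simp [h0]
  · have := hgr a c l h0
    rcases lt_or_ge (d a) i with h | h
    · simp [hx a h]
    · simp [hy c (by omega)]

theorem mem_Fil_one {n : ℕ} {d : Fin n → ℕ} (hd : ∀ i, 1 ≤ d i) (v : Fin n → ℝ) :
    v ∈ Fil d 1 := by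
  exact fun i hi => absurd hi (hd i).not_gt

theorem br_intCast {n : ℕ} (s : Fin n → Fin n → Fin n → ℤ) (x y : Fin n → ℤ) :
    br s (fun i => (x i : ℝ)) (fun i => (y i : ℝ)) = fun i => ((br s x y i : ℤ) : ℝ) := by
  funext l
  simp [br]

end Pool.Agent.Work.MP_913e71_al.Pos
end

-- merged part: Pool.Agent.Work.MP_913e71_al.Pos.MinDet
section
/-! A set which is closed under sums up to a fixed multiple contains a uniform multiple of its span.

PLAN.  For a list of `k` elements of `X`, `N ^ k • sum ∈ X` (induction).  Among the square matrices `Y` with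
columns in `X` and `det Y ≠ 0` (there is one: `X` spans `ℚ ^ n`, extract a basis) take one with least
`natAbs (det Y)`.  For `x ∈ X` let `p = cramer Y x` (`Y *ᵥ p = det Y • x`, `p i` = determinant of `Y` with
column `i` replaced by `x`).  For integers `k`, `m` the vector `N ^ 2 • (k • x - m • Y.col i)` is in `X`, and
replacing column `i` by it gives the determinant `N ^ 2 * (k * p i - m * det Y)`.  Choose `k`, `m` with
`k * p i - m * det Y = g := gcd (p i) (det Y) > 0`: minimality gives `|det Y| ≤ N ^ 2 * g`, so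
`|det Y| / g ≤ N ^ 2` divides `(N ^ 2)!`, and `det Y ∣ (N ^ 2)! * p i`.  Hence `(N ^ 2)! • x` is an integer
combination of the columns, the same holds on the span, and `N' = N ^ n * (N ^ 2)!` works. -/

namespace Pool.Agent.Work.MP_913e71_al.Pos

open Matrix

theorem MinDet_sum {n N : ℕ} {X : Set (Fin n → ℤ)} (h0 : (0 : Fin n → ℤ) ∈ X)
    (h1 : ∀ x ∈ X, ∀ k : ℤ, k • x ∈ X) (h2 : ∀ x ∈ X, ∀ y ∈ X, N • (x + y) ∈ X)
    (f : Fin n → Fin n → ℤ) (hf : ∀ i, f i ∈ X) (s : Finset (Fin n)) :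
    N ^ s.card • ∑ i ∈ s, f i ∈ X := by
  induction s using Finset.induction_on with
  | empty => simpa using h0
  | insert a s ha ih =>
    have h3 := h1 _ (hf a) (N ^ s.card : ℕ)
    rw [natCast_zsmul] at h3
    rw [Finset.card_insert_of_notMem ha, Finset.sum_insert ha, pow_succ', mul_smul, smul_add]
    exact h2 _ h3 _ ih

theorem MinDet_self {n : ℕ} (Y : Matrix (Fin n) (Fin n) ℤ) (i : Fin n) :
    cramer Y (Y.col i) i = Y.det := by
  rw [cramer_apply]
  exact congrArg det (updateCol_eq_self Y i)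

theorem MinDet_col {n : ℕ} {X : Set (Fin n → ℤ)} {Y : Matrix (Fin n) (Fin n) ℤ} {i j : Fin n}
    {x : Fin n → ℤ} (hx : x ∈ X) (hj : j ≠ i → Y.col j ∈ X) : (Y.updateCol i x).col j ∈ X := by
  rcases eq_or_ne j i with rfl | e
  · have : (Y.updateCol j x).col j = x := funext fun l => updateCol_self
    rwa [this]
  · have : (Y.updateCol i x).col j = Y.col j := funext fun l => updateCol_ne e
    rw [this]
    exact hj e

theorem MinDet_ex {n : ℕ} {X : Set (Fin n → ℤ)} (hX : Full (Submodule.span ℤ X))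
    (s : Finset (Fin n)) : ∃ Y : Matrix (Fin n) (Fin n) ℤ, Y.det ≠ 0 ∧ ∀ i ∈ s, Y.col i ∈ X := by
  obtain ⟨M, hM, h⟩ := hX
  induction s using Finset.induction_on with
  | empty => exact ⟨1, by simp, by simp⟩
  | insert a s ha ih =>
    obtain ⟨Y, h1, h2⟩ := ih
    have h3 : ∃ x ∈ X, cramer Y x a ≠ 0 := by
      by_contra! k
      have h4 : ∀ v ∈ Submodule.span ℤ X, cramer Y v a = 0 := fun v hv => by
        induction hv using Submodule.span_induction with
        | mem x hx => exact k x hx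
        | zero => simp
        | add x y _ _ a b => rw [map_add, Pi.add_apply, a, b, add_zero]
        | smul c x _ a => rw [map_smul, Pi.smul_apply, a, smul_zero]
      have h5 := h4 _ (h (Y.col a))
      rw [map_smul, Pi.smul_apply, MinDet_self, smul_eq_mul] at h5
      exact mul_ne_zero (by exact_mod_cast hM.ne') h1 h5
    obtain ⟨x, hx, h4⟩ := h3
    exact ⟨Y.updateCol a x, h4, fun i hi =>
      MinDet_col hx fun e => h2 i ((Finset.mem_insert.1 hi).resolve_left e)⟩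

theorem MinDet_dvd {N : ℕ} {D p : ℤ} (hD : D ≠ 0) (h : D.natAbs ≤ N * Int.gcd p D) :
    D ∣ (N.factorial : ℤ) * p := by
  obtain ⟨E, hE⟩ := Int.gcd_dvd_right p D
  have h0 : 0 < Int.gcd p D := Int.gcd_pos_of_ne_zero_right _ hD
  have h1 : D.natAbs = Int.gcd p D * E.natAbs := by
    conv_lhs => rw [hE, Int.natAbs_mul, Int.natAbs_natCast]
  have h2 : E.natAbs ≤ N := by
    rw [h1, mul_comm N] at h
    exact Nat.le_of_mul_le_mul_left h h0
  have h3 : 0 < E.natAbs := Int.natAbs_pos.2 fun e => hD (by rw [hE, e, mul_zero])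
  have h4 : E ∣ (N.factorial : ℤ) := Int.dvd_natCast.2 (Nat.dvd_factorial h3 h2)
  have h5 := mul_dvd_mul h4 (Int.gcd_dvd_left p D)
  rwa [mul_comm E, ← hE] at h5

theorem min_det (n N : ℕ) (hN : 0 < N) : ∃ N' : ℕ, 0 < N' ∧ ∀ X : Set (Fin n → ℤ),
    (0 : Fin n → ℤ) ∈ X → (∀ x ∈ X, ∀ k : ℤ, k • x ∈ X) → (∀ x ∈ X, ∀ y ∈ X, N • (x + y) ∈ X) →
    Full (Submodule.span ℤ X) → ∀ v ∈ Submodule.span ℤ X, N' • v ∈ X := by
  classical
  refine ⟨N ^ n * N.factorial, Nat.mul_pos (pow_pos hN n) N.factorial_pos,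
    fun X h0 h1 h2 hX v hv => ?_⟩
  have hex : ∃ d, ∃ Y : Matrix (Fin n) (Fin n) ℤ, Y.det ≠ 0 ∧ (∀ i, Y.col i ∈ X) ∧
      Y.det.natAbs = d := by
    obtain ⟨Y, a, b⟩ := MinDet_ex hX Finset.univ
    exact ⟨_, Y, a, fun i => b i (Finset.mem_univ i), rfl⟩
  obtain ⟨Y, hD, hY, hmin⟩ := Nat.find_spec hex
  have k1 : ∀ x ∈ X, ∀ i, Y.det ∣ (N.factorial : ℤ) * cramer Y x i := fun x hx i => by
    have a1 := h2 _ (h1 x hx (Int.gcdA (cramer Y x i) Y.det)) _
      (h1 _ (hY i) (Int.gcdB (cramer Y x i) Y.det))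
    have a2 : (Y.updateCol i (N • (Int.gcdA (cramer Y x i) Y.det • x +
        Int.gcdB (cramer Y x i) Y.det • Y.col i))).det =
          ((N * Int.gcd (cramer Y x i) Y.det : ℕ) : ℤ) := by
      rw [← cramer_apply, map_nsmul, map_add, map_smul, map_smul, Pi.smul_apply, Pi.add_apply,
        Pi.smul_apply, Pi.smul_apply, MinDet_self, Nat.cast_mul, Int.gcd_eq_gcd_ab]
      simp only [smul_eq_mul, nsmul_eq_mul]
      ring
    have a3 : 0 < N * Int.gcd (cramer Y x i) Y.det :=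
      Nat.mul_pos hN (Int.gcd_pos_of_ne_zero_right _ hD)
    have a4 := Nat.find_min' hex ⟨_, by rw [a2]; exact_mod_cast a3.ne',
      fun j => MinDet_col a1 fun _ => hY j, rfl⟩
    rw [← hmin, a2, Int.natAbs_natCast] at a4
    exact MinDet_dvd hD a4
  have k2 : ∀ i, Y.det ∣ (N.factorial : ℤ) * cramer Y v i := fun i => by
    induction hv using Submodule.span_induction with
    | mem x hx => exact k1 x hx i
    | zero => simp
    | add x y _ _ a b =>
      rw [map_add, Pi.add_apply, mul_add]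
      exact dvd_add a b
    | smul c x _ a =>
      rw [map_smul, Pi.smul_apply, smul_eq_mul, mul_left_comm]
      exact a.mul_left c
  choose c hc using k2
  have k3 : Y.det • c = (N.factorial : ℤ) • cramer Y v := funext fun i => (hc i).symm
  have k4 : Y *ᵥ c = (N.factorial : ℤ) • v := by
    refine smul_right_injective _ hD ?_
    simp only
    rw [← mulVec_smul, k3, mulVec_smul, mulVec_cramer, smul_comm]
  have k5 := MinDet_sum h0 h1 h2 (fun i => c i • Y.col i) (fun i => h1 _ (hY i) _) Finset.univ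
  have k6 : ∑ i, c i • Y.col i = Y *ᵥ c := by
    funext l
    simp [mulVec, dotProduct, mul_comm]
  rwa [k6, k4, natCast_zsmul, Finset.card_univ, Fintype.card_fin, ← mul_smul] at k5

end Pool.Agent.Work.MP_913e71_al.Pos
end

-- merged part: Pool.Agent.Work.MP_913e71_al.Pos.Minor
section
/-! Identities for minors.

PLAN for the two Pluecker statements.  With `a, b, c` the numbers of columns of `B, C, C'`, let `M`
be the square matrix with rows `α ⊕ ((α ⊕ β) ⊕ γ)` and column blocks `P = (B, C)` on the rows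
`I`, `J`, and `Q = (B, C')` on the rows `J`, zero on the rows `I`.  Subtracting the third block column
from the first makes `M` block triangular: `det M = ± mnr B I * mnr (B C C') J`.  And
`(a + b)! (a + c)! det M = ∑ σ, sign σ * det (P rows σ ∘ inl) * det (Q rows σ ∘ inr)`, the sum over all
permutations of the `2 a + b + c` rows (expand both determinants and substitute
`σ ↦ σ * sumCongr α β`).  Each factor is a maximal minor of `(B C)`, resp. of `(B C')` or zero. -/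

namespace Pool.Agent.Work.MP_913e71_al.Pos

open Matrix

variable {R ρ ρ' ι α β γ : Type} [CommRing R] [Fintype ι] [DecidableEq ι]

lemma mnr_mul_right (X : Matrix ρ ι R) (Y : Matrix ι ι R) (I : ι → ρ) :
    mnr (X * Y) I = mnr X I * Y.det := by
  unfold mnr
  rw [← Matrix.det_mul]
  rfl

/-- Multilinearity in the rows. -/
lemma mnr_mul_left [Fintype ρ'] (G : Matrix ρ ρ' R) (X : Matrix ρ' ι R) (J : ι → ρ) :
    mnr (G * X) J = ∑ I : ι → ρ', (∏ i, G (J i) (I i)) * mnr X I := by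
  have h : (G * X).submatrix J id = fun i => ∑ k : ρ', G (J i) k • X k := by
    ext i j
    simp [Matrix.mul_apply, Finset.sum_apply]
  unfold mnr
  rw [h]
  change Matrix.detRowAlternating (fun i => ∑ k : ρ', G (J i) k • X k) = _
  rw [← AlternatingMap.coe_multilinearMap, MultilinearMap.map_sum]
  refine Finset.sum_congr rfl fun I _ => ?_
  rw [MultilinearMap.map_smul_univ, smul_eq_mul]
  rfl

lemma mnr_map {S : Type} [CommRing S] (f : R →+* S) (X : Matrix ρ ι R) (I : ι → ρ) :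
    mnr (X.map f) I = f (mnr X I) := by
  unfold mnr
  rw [RingHom.map_det]
  rfl

lemma mnr_eq_zero_of_not_injective (X : Matrix ρ ι R) {I : ι → ρ} (h : ¬ Function.Injective I) :
    mnr X I = 0 := by
  unfold Function.Injective at h
  push Not at h
  obtain ⟨a, b, hab, hne⟩ := h
  refine Matrix.det_zero_of_row_eq hne ?_
  ext j
  simp [hab]

lemma mnr_reindex {ι' : Type} [Fintype ι'] [DecidableEq ι'] (X : Matrix ρ ι R) (e : ι' ≃ ι)
    (I : ι → ρ) : mnr (X.submatrix id e) (I ∘ e) = mnr X I := by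
  unfold mnr
  rw [← Matrix.det_submatrix_equiv_self e (X.submatrix I id)]
  rfl

/-- Over a domain, independent columns give a nonzero maximal minor. -/
lemma exists_mnr_ne_zero [IsDomain R] [Fintype ρ] (X : Matrix ρ ι R)
    (h : LinearIndependent R X.col) : ∃ I, mnr X I ≠ 0 := by
  classical
  let K := FractionRing R
  let f := algebraMap R K
  have hf : Function.Injective f := IsFractionRing.injective R K
  have hinj : Function.Injective X.mulVec := Matrix.mulVec_injective_iff.2 h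
  have hker : LinearMap.ker (Matrix.toLin' (X.map f)) = ⊥ := by
    rw [LinearMap.ker_eq_bot']
    intro v hv
    obtain ⟨b, hb⟩ := IsLocalization.exist_integer_multiples_of_finite (nonZeroDivisors R) v
    choose w hw using hb
    have hb0 : f (b : R) ≠ 0 := fun h0 =>
      nonZeroDivisors.coe_ne_zero b (hf (by rw [h0, map_zero]))
    have hXw : X *ᵥ w = X *ᵥ 0 := by
      rw [Matrix.mulVec_zero]
      ext i
      apply hf
      have h1 := congrFun hv i
      simp only [Matrix.toLin'_apply, Matrix.mulVec, dotProduct, Matrix.map_apply,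
        Pi.zero_apply] at h1
      simp only [Matrix.mulVec, dotProduct, map_sum, map_mul, Pi.zero_apply, map_zero]
      have h2 : ∀ k, f (X i k) * f (w k) = f (b : R) * (f (X i k) * v k) := by
        intro k
        rw [hw k, Algebra.smul_def]
        ring
      rw [Finset.sum_congr rfl fun k _ => h2 k, ← Finset.mul_sum, h1, mul_zero]
    have hw0 := hinj hXw
    ext k
    have h3 := hw k
    rw [hw0, Pi.zero_apply, map_zero, Algebra.smul_def] at h3
    exact (mul_eq_zero.1 h3.symm).resolve_left hb0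
  obtain ⟨g, hg⟩ := LinearMap.exists_leftInverse_of_injective _ hker
  have hG : LinearMap.toMatrix' g * X.map f = 1 := by
    have h1 := congrArg LinearMap.toMatrix' hg
    rwa [LinearMap.toMatrix'_comp, LinearMap.toMatrix'_toLin', LinearMap.toMatrix'_id] at h1
  have h1 := mnr_mul_left (LinearMap.toMatrix' g) (X.map f) id
  rw [hG] at h1
  by_contra hall
  push Not at hall
  have h2 : mnr (1 : Matrix ι ι K) id = 1 := by simp [mnr]
  rw [h2, Finset.sum_eq_zero fun I _ => by rw [mnr_map, hall I, map_zero, mul_zero]] at h1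
  exact one_ne_zero h1

/-- Cramer: the entries of `X * adjugate (X_I)` are maximal minors. -/
lemma mul_adjugate_apply [Fintype ρ] (X : Matrix ρ ι R) (I : ι → ρ) (i : ρ) (j : ι) :
    (X * (X.submatrix I id).adjugate) i j = mnr X (Function.update I j i) := by
  have h1 : X.submatrix (Function.update I j i) id = (X.submatrix I id).updateRow j (X i) := by
    ext a b
    by_cases ha : a = j
    · subst ha
      simp
    · simp [Matrix.updateRow_ne ha, Function.update_of_ne ha]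
  unfold mnr
  rw [h1, ← Matrix.cramer_transpose_apply, Matrix.cramer_eq_adjugate_mulVec,
    ← Matrix.adjugate_transpose]
  simp [Matrix.mul_apply, Matrix.mulVec, dotProduct, mul_comm]

variable [Fintype α] [DecidableEq α] [Fintype β] [DecidableEq β] [Fintype γ] [DecidableEq γ]

/-- Symmetrised Laplace expansion along a block of columns. -/
lemma Minor_laplace (M : Matrix (α ⊕ β) (α ⊕ β) R) :
    ((Fintype.card α).factorial * (Fintype.card β).factorial : ℕ) * M.det =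
      ∑ τ : Equiv.Perm (α ⊕ β), ((Equiv.Perm.sign τ : ℤ) : R) *
        ((M.submatrix (τ ∘ Sum.inl) Sum.inl).det * (M.submatrix (τ ∘ Sum.inr) Sum.inr).det) := by
  have h1 : ∀ (a : Equiv.Perm α) (b : Equiv.Perm β), M.det =
      ∑ τ : Equiv.Perm (α ⊕ β), ((Equiv.Perm.sign τ : ℤ) : R) *
        ((((Equiv.Perm.sign a : ℤ) : R) * ∏ i, M (τ (Sum.inl (a i))) (Sum.inl i)) *
          (((Equiv.Perm.sign b : ℤ) : R) * ∏ i, M (τ (Sum.inr (b i))) (Sum.inr i))) := by
    intro a b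
    rw [Matrix.det_apply', ← Equiv.sum_comp (Equiv.mulRight (Equiv.Perm.sumCongr a b))]
    refine Finset.sum_congr rfl fun τ _ => ?_
    simp only [Equiv.coe_mulRight, Equiv.Perm.sign_mul, Equiv.Perm.sign_sumCongr,
      Fintype.prod_sum_type, Equiv.Perm.mul_apply, Equiv.Perm.sumCongr_apply, Sum.map_inl,
      Sum.map_inr, Units.val_mul, Int.cast_mul]
    ring
  have h2 : ((Fintype.card α).factorial * (Fintype.card β).factorial : ℕ) * M.det =
      ∑ _a : Equiv.Perm α, ∑ _b : Equiv.Perm β, M.det := by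
    simp only [Finset.sum_const, Finset.card_univ, Fintype.card_perm, nsmul_eq_mul, Nat.cast_mul]
    ring
  rw [h2, Finset.sum_congr rfl fun a _ => Finset.sum_congr rfl fun b _ => h1 a b]
  rw [Finset.sum_congr rfl fun a _ => Finset.sum_comm, Finset.sum_comm]
  refine Finset.sum_congr rfl fun τ _ => ?_
  rw [Matrix.det_apply', Matrix.det_apply', Finset.sum_mul_sum, Finset.mul_sum]
  refine Finset.sum_congr rfl fun a _ => ?_
  rw [Finset.mul_sum]
  rfl

/-- The column order of the plan. -/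
def Minor_equiv (α β γ : Type) : (α ⊕ β) ⊕ (α ⊕ γ) ≃ α ⊕ (α ⊕ β) ⊕ γ where
  toFun := Sum.elim (Sum.elim Sum.inl fun b => Sum.inr (Sum.inl (Sum.inr b)))
    (Sum.elim (fun a => Sum.inr (Sum.inl (Sum.inl a))) fun c => Sum.inr (Sum.inr c))
  invFun := Sum.elim (fun a => Sum.inl (Sum.inl a))
    (Sum.elim (Sum.elim (fun a => Sum.inr (Sum.inl a)) fun b => Sum.inl (Sum.inr b))
      fun c => Sum.inr (Sum.inr c))
  left_inv := by rintro ((a | b) | (a | c)) <;> rfl
  right_inv := by rintro (a | (a | b) | c) <;> rfl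

lemma Minor_key (B : Matrix ρ α R) (C : Matrix ρ β R) (C' : Matrix ρ γ R)
    (I : α → ρ) (J : (α ⊕ β) ⊕ γ → ρ) :
    ∃ (f : Equiv.Perm ((α ⊕ β) ⊕ (α ⊕ γ)) → α ⊕ β → ρ)
      (z : Equiv.Perm ((α ⊕ β) ⊕ (α ⊕ γ)) → R),
      (∀ τ, z τ = 0 ∨ ∃ I', z τ = mnr (fromCols B C') I') ∧
      ((Fintype.card (α ⊕ β)).factorial * (Fintype.card (α ⊕ γ)).factorial : ℕ) *
        (mnr B I * mnr (fromCols (fromCols B C) C') J) =
        ∑ τ : Equiv.Perm ((α ⊕ β) ⊕ (α ⊕ γ)), ((Equiv.Perm.sign τ : ℤ) : R) *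
          (mnr (fromCols B C) (f τ) * z τ) := by
  let U : Matrix α ((α ⊕ β) ⊕ γ) R := fromCols (fromCols 0 (C.submatrix I id)) 0
  let D : Matrix ((α ⊕ β) ⊕ γ) ((α ⊕ β) ⊕ γ) R := (fromCols (fromCols B C) C').submatrix J id
  let K : Matrix ((α ⊕ β) ⊕ γ) α R := fromRows (fromRows 1 0) 0
  let M : Matrix (α ⊕ (α ⊕ β) ⊕ γ) (α ⊕ (α ⊕ β) ⊕ γ) R :=
    fromBlocks (B.submatrix I id) U (B.submatrix J id) D
  have hUK : U * K = 0 := by simp [U, K, fromCols_mul_fromRows]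
  have hDK : D * K = B.submatrix J id := by
    have h1 : D * K = (fromCols (fromCols B C) C' * K).submatrix J id := rfl
    rw [h1]
    simp [K, fromCols_mul_fromRows]
  have hM : M = fromBlocks (B.submatrix I id) U 0 D * fromBlocks 1 0 K 1 := by
    rw [fromBlocks_multiply, hUK, hDK]
    simp [M]
  have hdet : M.det = mnr B I * mnr (fromCols (fromCols B C) C') J := by
    rw [hM, det_mul, det_fromBlocks_zero₂₁, det_fromBlocks_zero₁₂, det_one, det_one, mul_one,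
      mul_one]
    rfl
  let e := Minor_equiv α β γ
  refine ⟨fun τ => Sum.elim I J ∘ e ∘ τ ∘ Sum.inl,
    fun τ => ((M.submatrix e e).submatrix (τ ∘ Sum.inr) Sum.inr).det, fun τ => ?_, ?_⟩
  · by_cases h : ∃ k a, e (τ (Sum.inr k)) = Sum.inl a
    · obtain ⟨k, a, hk⟩ := h
      refine Or.inl (Matrix.det_eq_zero_of_row_eq_zero k fun j => ?_)
      simp only [submatrix_apply, Function.comp_apply, hk]
      rcases j with j | j <;> rfl
    · refine Or.inr ⟨Sum.elim I J ∘ e ∘ τ ∘ Sum.inr, ?_⟩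
      refine congrArg Matrix.det (Matrix.ext fun k j => ?_)
      simp only [submatrix_apply, Function.comp_apply, id]
      rcases hk : e (τ (Sum.inr k)) with a | t
      · exact absurd ⟨k, a, hk⟩ h
      · rcases j with j | j <;> rfl
  · rw [← hdet, ← Matrix.det_submatrix_equiv_self e M, Minor_laplace]
    refine Finset.sum_congr rfl fun τ _ => ?_
    have h1 : (M.submatrix e e).submatrix (τ ∘ Sum.inl) Sum.inl =
        (fromCols B C).submatrix (Sum.elim I J ∘ e ∘ τ ∘ Sum.inl) id := by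
      ext k j
      simp only [submatrix_apply, Function.comp_apply, id]
      rcases e (τ (Sum.inl k)) with a | t <;> rcases j with j | j <;> rfl
    rw [h1]
    rfl

theorem plucker_dvd (B : Matrix ρ α R) (C : Matrix ρ β R) (C' : Matrix ρ γ R) (x y : R)
    (hx : ∀ I, x ∣ mnr (fromCols B C) I) (hy : ∀ I, y ∣ mnr (fromCols B C') I)
    (I : α → ρ) (J : (α ⊕ β) ⊕ γ → ρ) :
    x * y ∣ ((Fintype.card (α ⊕ β)).factorial * (Fintype.card (α ⊕ γ)).factorial : ℕ) *
      (mnr B I * mnr (fromCols (fromCols B C) C') J) := by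
  obtain ⟨f, z, hz, h⟩ := Minor_key B C C' I J
  rw [h]
  refine Finset.dvd_sum fun τ _ => Dvd.dvd.mul_left (mul_dvd_mul (hx _) ?_) _
  rcases hz τ with h0 | ⟨I', h0⟩
  · rw [h0]
    exact dvd_zero y
  · rw [h0]
    exact hy I'

theorem plucker_le (B : Matrix ρ α ℝ) (C : Matrix ρ β ℝ) (C' : Matrix ρ γ ℝ) (x y : ℝ)
    (hx0 : 0 ≤ x) (hy0 : 0 ≤ y)
    (hx : ∀ I, |mnr (fromCols B C) I| ≤ x) (hy : ∀ I, |mnr (fromCols B C') I| ≤ y)
    (I : α → ρ) (J : (α ⊕ β) ⊕ γ → ρ) :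
    |mnr B I| * |mnr (fromCols (fromCols B C) C') J| ≤
      (Fintype.card (α ⊕ (α ⊕ β) ⊕ γ)).factorial * (x * y) := by
  obtain ⟨f, z, hz, h⟩ := Minor_key B C C' I J
  have h1 : (1 : ℝ) ≤
      ((Fintype.card (α ⊕ β)).factorial * (Fintype.card (α ⊕ γ)).factorial : ℕ) := by
    exact_mod_cast Nat.mul_pos (Nat.factorial_pos _) (Nat.factorial_pos _)
  have h2 : ∀ τ : Equiv.Perm ((α ⊕ β) ⊕ (α ⊕ γ)),
      |((Equiv.Perm.sign τ : ℤ) : ℝ) * (mnr (fromCols B C) (f τ) * z τ)| ≤ x * y := by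
    intro τ
    have h3 : |((Equiv.Perm.sign τ : ℤ) : ℝ)| = 1 := by
      rcases Int.units_eq_one_or (Equiv.Perm.sign τ) with h4 | h4 <;> simp [h4]
    rw [abs_mul, h3, one_mul, abs_mul]
    refine mul_le_mul (hx _) ?_ (abs_nonneg _) hx0
    rcases hz τ with h0 | ⟨I', h0⟩
    · rw [h0, abs_zero]
      exact hy0
    · rw [h0]
      exact hy I'
  have h4 : Fintype.card (Equiv.Perm ((α ⊕ β) ⊕ (α ⊕ γ))) =
      (Fintype.card (α ⊕ (α ⊕ β) ⊕ γ)).factorial := by
    rw [Fintype.card_perm]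
    congr 1
    simp only [Fintype.card_sum]
    omega
  have h5 := (Finset.abs_sum_le_sum_abs _ _).trans (Finset.sum_le_card_nsmul _ _ _ fun τ
    (_ : τ ∈ (Finset.univ : Finset (Equiv.Perm ((α ⊕ β) ⊕ (α ⊕ γ))))) => h2 τ)
  rw [← h, Finset.card_univ, h4, nsmul_eq_mul, abs_mul, abs_of_nonneg (zero_le_one.trans h1),
    abs_mul] at h5
  exact (le_mul_of_one_le_left (mul_nonneg (abs_nonneg _) (abs_nonneg _)) h1).trans h5

end Pool.Agent.Work.MP_913e71_al.Pos
end

-- merged part: Pool.Agent.Work.MP_913e71_al.Pos.Mu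
section
/-! Orders of minors: independence of the basis, supermodularity, bounds.

PLAN.  Two bases of `W` differ by a reindexing and an invertible matrix over `F`, whose determinant
is a nonzero constant (`mnr_mul_right`, `mnr_reindex`).  If `H.det ≠ 0` the columns of `H b` are
independent over the domain `R[X]`, so some minor is nonzero.  Supermodularity: extend a basis `B` of
`W ⊓ W'` to `(B C)` of `W` and `(B C')` of `W'`; `(B C C')` is a basis of `W ⊔ W'`; `plucker_dvd` with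
`x = X ^ muW W`, `y = X ^ muW W'`; factorials are nonzero constants.  `muW_adj_le`: from
`G * (adj G * b) = det G • b` and `mnr_mul_left`. -/

namespace Pool.Agent.Work.MP_913e71_al.Pos

open Matrix Polynomial Module

variable {n : ℕ} {F R ι : Type} [Field F] [CommRing R] [IsDomain R] [Algebra F R]
  [Fintype ι] [DecidableEq ι]

omit [IsDomain R] in
lemma Mu_dvd {p : R[X]} {k : ℕ} (h : k ≤ p.natTrailingDegree) : X ^ k ∣ p :=
  X_pow_dvd_iff.2 fun _ hd => coeff_eq_zero_of_lt_natTrailingDegree (hd.trans_le h)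

omit [IsDomain R] in
lemma Mu_le {p : R[X]} {k : ℕ} (hp : p ≠ 0) (h : X ^ k ∣ p) : k ≤ p.natTrailingDegree :=
  le_natTrailingDegree hp (X_pow_dvd_iff.1 h)

lemma Mu_mul_C {p : R[X]} {c : R} (hp : p ≠ 0) (hc : c ≠ 0) :
    (p * C c).natTrailingDegree = p.natTrailingDegree := by
  rw [natTrailingDegree_mul hp (C_ne_zero.2 hc), natTrailingDegree_C, add_zero]

lemma Mu_pow {p : R[X]} (hp : p ≠ 0) (k : ℕ) :
    (p ^ k).natTrailingDegree = k * p.natTrailingDegree := by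
  induction k with
  | zero => simp
  | succ k ih => rw [pow_succ, natTrailingDegree_mul (pow_ne_zero _ hp) hp, ih, add_mul, one_mul]

lemma Mu_rows {S : Type} [CommRing S] (v : Fin n → S) (B : Matrix (Fin n) ι S) (I : ι → Fin n) :
    mnr (diagonal v * B) I = (∏ i, v (I i)) * mnr B I := by
  rw [mnr, mnr, ← det_mul_column]
  exact congrArg det (Matrix.ext fun i j => by simp)

lemma Mu_smul {S : Type} [CommRing S] (c : S) (B : Matrix (Fin n) ι S) (I : ι → Fin n) :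
    mnr (c • B) I = c ^ Fintype.card ι * mnr B I := det_smul (B.submatrix I id) c

omit [IsDomain R] in
lemma Mu_map (b : Matrix (Fin n) ι F) (I : ι → Fin n) :
    mnr ((b.map (algebraMap F R)).map C) I = C (algebraMap F R (mnr b I)) := by
  rw [mnr_map, mnr_map]

lemma Mu_ne {c : F} (hc : c ≠ 0) : algebraMap F R c ≠ 0 :=
  (map_ne_zero_iff _ (algebraMap F R).injective).2 hc

lemma isBas_basMat (W : Submodule F (Fin n → F)) : IsBas W (basMat W) := by
  have e : (basMat W).col = W.subtype ∘ finBasis F W := rfl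
  refine ⟨e ▸ (finBasis F W).linearIndependent.map' W.subtype W.ker_subtype, ?_⟩
  rw [e, Set.range_comp, ← Submodule.map_span, Basis.span_eq, Submodule.map_subtype_top]

lemma IsBas.card_eq {W : Submodule F (Fin n → F)} {b : Matrix (Fin n) ι F} (hb : IsBas W b) :
    Fintype.card ι = finrank F W := by
  rw [← finrank_span_eq_card hb.1, hb.2]

lemma Mu_same (H : Matrix (Fin n) (Fin n) R[X]) {W : Submodule F (Fin n → F)}
    {b b' : Matrix (Fin n) ι F} (hb : IsBas W b) (hb' : IsBas W b') :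
    ∃ c : R, c ≠ 0 ∧ ∀ I, mnr (H * (b.map (algebraMap F R)).map C) I =
      mnr (H * (b'.map (algebraMap F R)).map C) I * C c := by
  have h : ∀ j, ∃ y : ι → F, ∑ i, y i • b'.col i = b.col j := fun j =>
    (Submodule.mem_span_range_iff_exists_fun F).1 (by
      rw [hb'.2, ← hb.2]
      exact Submodule.subset_span ⟨j, rfl⟩)
  choose y hy using h
  have e : b = b' * of fun i j => y j i := by
    ext i j
    have := congrFun (hy j) i
    simp only [Finset.sum_apply, Pi.smul_apply, col_apply, smul_eq_mul] at this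
    rw [← this, mul_apply]
    exact Finset.sum_congr rfl fun _ _ => mul_comm _ _
  obtain ⟨J, hJ⟩ := exists_mnr_ne_zero b hb.1
  generalize (of fun i j => y j i) = Y at e
  rw [e, mnr_mul_right] at hJ
  refine ⟨_, Mu_ne (right_ne_zero_of_mul hJ), fun I => ?_⟩
  rw [e, Matrix.map_mul, Matrix.map_mul, ← Matrix.mul_assoc, mnr_mul_right, RingHom.map_det,
    RingHom.map_det]
  rfl

lemma Mu_eq (H : Matrix (Fin n) (Fin n) R[X]) {W : Submodule F (Fin n → F)}
    {b : Matrix (Fin n) ι F} (hb : IsBas W b) : muW H W = mu H (b.map (algebraMap F R)) := by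
  let e : ι ≃ Fin (finrank F W) := Fintype.equivFinOfCardEq hb.card_eq
  have h0 := isBas_basMat W
  have hb' : IsBas W ((basMat W).submatrix id e) :=
    ⟨h0.1.comp e e.injective,
      (congrArg (Submodule.span F) (e.surjective.range_comp (basMat W).col)).trans h0.2⟩
  obtain ⟨c, hc, h⟩ := Mu_same H hb hb'
  have h1 : ∀ I, mnr (H * (b.map (algebraMap F R)).map C) (I ∘ e) =
      mnr (H * ((basMat W).map (algebraMap F R)).map C) I * C c := fun I => by
    rw [h, ← mnr_reindex _ e I]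
    rfl
  refine congrArg sInf (Set.ext fun k => ⟨?_, ?_⟩)
  · rintro ⟨I, h2, rfl⟩
    exact ⟨I ∘ e, h1 I ▸ mul_ne_zero h2 (C_ne_zero.2 hc), by rw [h1, Mu_mul_C h2 hc]⟩
  · rintro ⟨I, h2, rfl⟩
    have h3 := h1 (I ∘ e.symm)
    rw [Function.comp_assoc, e.symm_comp_self, Function.comp_id] at h3
    rw [h3] at h2 ⊢
    exact ⟨_, left_ne_zero_of_mul h2, (Mu_mul_C (left_ne_zero_of_mul h2) hc).symm⟩

lemma muW_exists {H : Matrix (Fin n) (Fin n) R[X]} (hH : H.det ≠ 0) {W : Submodule F (Fin n → F)}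
    {b : Matrix (Fin n) ι F} (hb : IsBas W b) :
    ∃ I, mnr (H * (b.map (algebraMap F R)).map C) I ≠ 0 ∧
      (mnr (H * (b.map (algebraMap F R)).map C) I).natTrailingDegree = muW H W := by
  obtain ⟨J, hJ⟩ := exists_mnr_ne_zero b hb.1
  have h1 : mnr (H.adjugate * (H * (b.map (algebraMap F R)).map C)) J ≠ 0 := by
    rw [← Matrix.mul_assoc, adjugate_mul, Matrix.smul_mul, Matrix.one_mul, Mu_smul, Mu_map]
    exact mul_ne_zero (pow_ne_zero _ hH) (C_ne_zero.2 (Mu_ne hJ))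
  rw [mnr_mul_left] at h1
  obtain ⟨I, -, hI⟩ := Finset.exists_ne_zero_of_sum_ne_zero h1
  rw [Mu_eq H hb]
  exact Nat.sInf_mem (s := {e | ∃ I, mnr (H * (b.map (algebraMap F R)).map C) I ≠ 0 ∧
    (mnr (H * (b.map (algebraMap F R)).map C) I).natTrailingDegree = e})
    ⟨_, I, right_ne_zero_of_mul hI, rfl⟩

lemma muW_dvd (H : Matrix (Fin n) (Fin n) R[X]) {W : Submodule F (Fin n → F)}
    {b : Matrix (Fin n) ι F} (hb : IsBas W b) (I : ι → Fin n) :
    X ^ muW H W ∣ mnr (H * (b.map (algebraMap F R)).map C) I := by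
  by_cases h : mnr (H * (b.map (algebraMap F R)).map C) I = 0
  · rw [h]
    exact dvd_zero _
  · rw [Mu_eq H hb]
    exact Mu_dvd (Nat.sInf_le ⟨I, h, rfl⟩)

lemma muW_bot (H : Matrix (Fin n) (Fin n) R[X]) : muW H (⊥ : Submodule F (Fin n → F)) = 0 := by
  have hb : IsBas (⊥ : Submodule F (Fin n → F)) (0 : Matrix (Fin n) Empty F) :=
    ⟨linearIndependent_empty_type, by rw [Set.range_eq_empty, Submodule.span_empty]⟩
  have h := muW_dvd H hb Empty.elim
  rw [mnr, det_isEmpty] at h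
  simpa using Mu_le one_ne_zero h

omit [Fintype ι] [DecidableEq ι] in
lemma Mu_sum {κ : Type} {U V : Submodule F (Fin n → F)} {b : Matrix (Fin n) ι F}
    {c : Matrix (Fin n) κ F} (hb : IsBas U b) (hc : IsBas V c) (h : Disjoint U V) :
    IsBas (U ⊔ V) (fromCols b c) := by
  have e : (fromCols b c).col = Sum.elim b.col c.col := by
    ext (j | j) i <;> rfl
  refine ⟨e ▸ hb.1.sum_type hc.1 (by rwa [hb.2, hc.2]), ?_⟩
  rw [e, Set.Sum.elim_range, Submodule.span_union, hb.2, hc.2]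

theorem muW_supermod [CharZero R] {H : Matrix (Fin n) (Fin n) R[X]} (hH : H.det ≠ 0)
    (W W' : Submodule F (Fin n → F)) :
    muW H W + muW H W' ≤ muW H (W ⊓ W') + muW H (W ⊔ W') := by
  obtain ⟨K, hK⟩ := Submodule.exists_isCompl (W ⊓ W')
  have e : ∀ U, W ⊓ W' ≤ U → W ⊓ W' ⊔ K ⊓ U = U := fun U hU => by
    rw [← sup_inf_assoc_of_le _ hU, hK.sup_eq_top, top_inf_eq]
  have hB := isBas_basMat (W ⊓ W')
  have h1 := Mu_sum hB (isBas_basMat (K ⊓ W)) (hK.disjoint.mono_right inf_le_left)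
  have h2 := Mu_sum hB (isBas_basMat (K ⊓ W')) (hK.disjoint.mono_right inf_le_left)
  have h1' := e W inf_le_left ▸ h1
  have h2' := e W' inf_le_right ▸ h2
  have h3 := Mu_sum h1' (isBas_basMat (K ⊓ W')) (by
    rw [disjoint_iff, inf_left_comm, inf_comm]
    exact hK.inf_eq_bot)
  have e3 : W ⊔ K ⊓ W' = W ⊔ W' := by
    conv_rhs => rw [← e W' inf_le_right, ← sup_assoc, sup_inf_self]
  rw [e3] at h3
  obtain ⟨I, i0, i1⟩ := muW_exists hH hB
  obtain ⟨J, j0, j1⟩ := muW_exists hH h3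
  have d1 := muW_dvd H h1'
  have d2 := muW_dvd H h2'
  simp only [fromCols_map, mul_fromCols] at d1 d2 j0 j1
  have h := plucker_dvd _ _ _ _ _ d1 d2 I J
  have c0 := Nat.cast_ne_zero (R := R[X]).2 (mul_ne_zero (Nat.factorial_ne_zero (Fintype.card
    (Fin (finrank F (W ⊓ W' :)) ⊕ Fin (finrank F (K ⊓ W :))))) (Nat.factorial_ne_zero (Fintype.card
    (Fin (finrank F (W ⊓ W' :)) ⊕ Fin (finrank F (K ⊓ W' :))))))
  rw [← pow_add] at h
  have h4 := Mu_le (mul_ne_zero c0 (mul_ne_zero i0 j0)) h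
  rwa [natTrailingDegree_mul c0 (mul_ne_zero i0 j0), natTrailingDegree_natCast, zero_add,
    natTrailingDegree_mul i0 j0, i1, j1] at h4

lemma muW_adj_le {G : Matrix (Fin n) (Fin n) R[X]} (hG : G.det ≠ 0) (W : Submodule F (Fin n → F)) :
    muW G.adjugate W ≤ finrank F W * G.det.natTrailingDegree := by
  have hb := isBas_basMat W
  obtain ⟨J, hJ⟩ := exists_mnr_ne_zero _ hb.1
  have h1 : X ^ muW G.adjugate W ∣
      mnr (G * (G.adjugate * ((basMat W).map (algebraMap F R)).map C)) J := by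
    rw [mnr_mul_left]
    exact Finset.dvd_sum fun I _ => (muW_dvd _ hb I).mul_left _
  rw [← Matrix.mul_assoc, mul_adjugate, Matrix.smul_mul, Matrix.one_mul, Mu_smul, Mu_map,
    Fintype.card_fin] at h1
  have h2 := Mu_le (mul_ne_zero (pow_ne_zero _ hG) (C_ne_zero.2 (Mu_ne hJ))) h1
  rwa [Mu_mul_C (pow_ne_zero _ hG) (Mu_ne hJ), Mu_pow hG] at h2

omit [IsDomain R] in
lemma Mu_det (G : Matrix (Fin n) (Fin n) R[X]) : G.det * G.adjugate.det = G.det ^ n := by
  rw [← det_mul, mul_adjugate, det_smul, det_one, mul_one, Fintype.card_fin]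

lemma Mu_adj {G : Matrix (Fin n) (Fin n) R[X]} (hG : G.det ≠ 0) : G.adjugate.det ≠ 0 :=
  right_ne_zero_of_mul (Mu_det G ▸ pow_ne_zero _ hG)

lemma Dt_top {G : Matrix (Fin n) (Fin n) R[X]} (hG : G.det ≠ 0) (e : ℕ) :
    Dt G e (⊤ : Submodule F (Fin n → F)) = cost G e := by
  have hb : IsBas (⊤ : Submodule F (Fin n → F)) (1 : Matrix (Fin n) (Fin n) F) := by
    have e : (1 : Matrix (Fin n) (Fin n) F).col = Pi.basisFun F (Fin n) := by
      ext i j
      simp [one_apply, Pi.single_apply]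
    exact ⟨e ▸ (Pi.basisFun F (Fin n)).linearIndependent, e ▸ Basis.span_eq _⟩
  obtain ⟨I, i0, i1⟩ := muW_exists (Mu_adj hG) hb
  rw [Matrix.map_one _ (map_zero _) (map_one _), Matrix.map_one _ (map_zero _) (map_one _),
    Matrix.mul_one] at i0 i1
  have hI : Function.Bijective I := Finite.injective_iff_bijective.1 (by
    by_contra h
    exact i0 (mnr_eq_zero_of_not_injective _ h))
  have e1 : mnr G.adjugate I = _ := det_permute (Equiv.ofBijective I hI) G.adjugate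
  rw [e1] at i0 i1
  rw [natTrailingDegree_mul (left_ne_zero_of_mul i0) (Mu_adj hG), natTrailingDegree_intCast,
    zero_add] at i1
  have e2 := congrArg natTrailingDegree (Mu_det G)
  rw [natTrailingDegree_mul hG (Mu_adj hG), Mu_pow hG, i1] at e2
  have e3 : (G.det.natTrailingDegree : ℤ) + muW G.adjugate (⊤ : Submodule F (Fin n → F)) =
      n * G.det.natTrailingDegree := by exact_mod_cast e2
  rw [Dt, cost, finrank_top, finrank_fin_fun, ← e3]
  ring

lemma Dt_bot (G : Matrix (Fin n) (Fin n) R[X]) (e : ℕ) :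
    Dt G e (⊥ : Submodule F (Fin n → F)) = 0 := by
  simp [Dt, muW_bot]

lemma Dt_submod [CharZero R] {G : Matrix (Fin n) (Fin n) R[X]} (hG : G.det ≠ 0) (e : ℕ)
    (W W' : Submodule F (Fin n → F)) : Dt G e (W ⊓ W') + Dt G e (W ⊔ W') ≤ Dt G e W + Dt G e W' := by
  have h1 : (muW G.adjugate W : ℤ) + muW G.adjugate W' ≤
      muW G.adjugate (W ⊓ W') + muW G.adjugate (W ⊔ W') := by
    exact_mod_cast muW_supermod (Mu_adj hG) W W'
  have h2 : (finrank F (W ⊔ W' :) : ℤ) + finrank F (W ⊓ W' :) = finrank F W + finrank F W' := by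
    exact_mod_cast Submodule.finrank_sup_add_finrank_inf_eq W W'
  simp only [Dt]
  linear_combination h1 + (G.det.natTrailingDegree - e : ℤ) * h2

lemma Mu_rk (W : Submodule F (Fin n → F)) : finrank F W ≤ n :=
  W.finrank_le.trans_eq (finrank_fin_fun F)

lemma abs_Dt_le {G : Matrix (Fin n) (Fin n) R[X]} (hG : G.det ≠ 0) (e : ℕ)
    (W : Submodule F (Fin n → F)) : |Dt G e W| ≤ n * (G.det.natTrailingDegree + e) := by
  have h1 : (muW G.adjugate W : ℤ) ≤ finrank F W * G.det.natTrailingDegree := by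
    exact_mod_cast muW_adj_le hG W
  have h2 : (finrank F W : ℤ) ≤ n := by exact_mod_cast Mu_rk W
  have h3 := mul_le_mul_of_nonneg_right h2 (Int.natCast_nonneg e)
  have h4 := mul_le_mul_of_nonneg_right h2 (Int.natCast_nonneg G.det.natTrailingDegree)
  have h5 : (0 : ℤ) ≤ finrank F W * e := by positivity
  have h6 : (0 : ℤ) ≤ n * e := by positivity
  have h7 : (0 : ℤ) ≤ n * G.det.natTrailingDegree := by positivity
  have h8 := Int.natCast_nonneg (muW G.adjugate W)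
  rw [Dt, abs_le, mul_add]
  constructor <;> linarith

omit [IsDomain R] in
lemma Mu_detX : ((X : R[X]) • (1 : Matrix (Fin n) (Fin n) R[X])).det = X ^ n := by
  rw [det_smul, det_one, mul_one, Fintype.card_fin]

lemma isType_X (s : Fin n → Fin n → Fin n → ℤ) :
    IsType s ((X : R[X]) • (1 : Matrix (Fin n) (Fin n) R[X])) 0 := by
  refine ⟨Mu_detX.trans_ne (pow_ne_zero _ X_ne_zero), fun i j l => ?_⟩
  have e : br s (((X : R[X]) • (1 : Matrix (Fin n) (Fin n) R[X])).col i)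
      (((X : R[X]) • (1 : Matrix (Fin n) (Fin n) R[X])).col j) l =
      X * (X * br s ((1 : Matrix (Fin n) (Fin n) R[X]).col i)
        ((1 : Matrix (Fin n) (Fin n) R[X]).col j) l) := by
    simp only [br, col_apply, Matrix.smul_apply, smul_eq_mul, Finset.mul_sum]
    exact Finset.sum_congr rfl fun _ _ => Finset.sum_congr rfl fun _ _ => by ring
  rw [Mu_detX, natTrailingDegree_X_pow, adjugate_smul, adjugate_one, smul_mulVec, one_mulVec,
    Pi.smul_apply, e, smul_eq_mul, ← mul_assoc, ← pow_succ, Fintype.card_fin]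
  exact (pow_dvd_pow _ (by omega)).mul_right _

lemma Dt_X (W : Submodule F (Fin n → F)) :
    Dt ((X : R[X]) • (1 : Matrix (Fin n) (Fin n) R[X])) 0 W = finrank F W := by
  have hG : ((X : R[X]) • (1 : Matrix (Fin n) (Fin n) R[X])).det ≠ 0 :=
    Mu_detX.trans_ne (pow_ne_zero _ X_ne_zero)
  obtain ⟨I, i0, i1⟩ := muW_exists (Mu_adj hG) (isBas_basMat W)
  rw [Dt, ← i1]
  rw [adjugate_smul, adjugate_one, Matrix.smul_mul, Matrix.one_mul, Mu_smul, Mu_map, ← pow_mul,
    Fintype.card_fin, Fintype.card_fin] at i0 ⊢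
  rw [Mu_mul_C (pow_ne_zero _ X_ne_zero) (C_ne_zero.1 (right_ne_zero_of_mul i0)), Mu_detX,
    natTrailingDegree_X_pow, natTrailingDegree_X_pow]
  have h := Mu_rk W
  generalize finrank F W = m at h
  rcases n with _ | n
  · simp [Nat.le_zero.1 h]
  · rw [Nat.add_sub_cancel]
    push_cast
    ring

lemma Mu_diag (d : Fin n → ℕ) (b : Matrix (Fin n) ι F) (I : ι → Fin n) :
    mnr ((diagonal fun i => (X : F[X]) ^ d i) * (b.map (algebraMap F F)).map C) I =
      X ^ (∑ i, d (I i)) * C (mnr b I) := by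
  rw [Mu_rows, Mu_map, Finset.prod_pow_eq_pow_sum]
  rfl

lemma Mu_diag_ne (d : Fin n → ℕ) : (diagonal fun i => (X : F[X]) ^ d i).det ≠ 0 := by
  rw [det_diagonal]
  exact Finset.prod_ne_zero_iff.2 fun _ _ => pow_ne_zero _ X_ne_zero

lemma dinf_exists (d : Fin n → ℕ) {W : Submodule F (Fin n → F)} {b : Matrix (Fin n) ι F}
    (hb : IsBas W b) : ∃ I, mnr b I ≠ 0 ∧ ∑ i, d (I i) = dinf d W := by
  obtain ⟨I, i0, i1⟩ := muW_exists (Mu_diag_ne (F := F) d) hb
  rw [Mu_diag] at i0 i1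
  have h := C_ne_zero.1 (right_ne_zero_of_mul i0)
  rw [Mu_mul_C (pow_ne_zero _ X_ne_zero) h, natTrailingDegree_X_pow] at i1
  exact ⟨I, h, i1⟩

lemma dinf_le (d : Fin n → ℕ) {W : Submodule F (Fin n → F)} {b : Matrix (Fin n) ι F}
    (hb : IsBas W b) {I : ι → Fin n} (hI : mnr b I ≠ 0) : dinf d W ≤ ∑ i, d (I i) := by
  have h := muW_dvd (diagonal fun i => (X : F[X]) ^ d i) hb I
  rw [Mu_diag] at h
  have h1 := Mu_le (mul_ne_zero (pow_ne_zero _ X_ne_zero) (C_ne_zero.2 hI)) h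
  rwa [Mu_mul_C (pow_ne_zero _ X_ne_zero) hI, natTrailingDegree_X_pow] at h1

lemma dinf_le_sum (d : Fin n → ℕ) (W : Submodule F (Fin n → F)) : dinf d W ≤ ∑ i, d i := by
  obtain ⟨I, i0, i1⟩ := dinf_exists d (isBas_basMat W)
  have hI : Function.Injective I := by
    by_contra h
    exact i0 (mnr_eq_zero_of_not_injective _ h)
  rw [← i1]
  exact (Finset.sum_map Finset.univ ⟨I, hI⟩ d).symm.trans_le
    (Finset.sum_le_sum_of_subset (Finset.subset_univ _))

lemma dinf_bot (d : Fin n → ℕ) : dinf d (⊥ : Submodule F (Fin n → F)) = 0 := by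
  exact muW_bot _

lemma dinf_supermod [CharZero F] (d : Fin n → ℕ) (W W' : Submodule F (Fin n → F)) :
    dinf d W + dinf d W' ≤ dinf d (W ⊓ W') + dinf d (W ⊔ W') := by
  exact muW_supermod (Mu_diag_ne d) W W'

end Pool.Agent.Work.MP_913e71_al.Pos
end

-- merged part: Pool.Agent.Work.MP_913e71_al.Pos.Cov
section
/-! Weighted covolumes of sublattices.

PLAN.  `sz d r X` is the largest `|mnr (diagonal (r ^ d i)⁻¹ * X) I|`.  Two bases of `M` differ by a
reindexing and a matrix of determinant `± 1`.  `cov_submod`: `LW L (W ⊓ W')` is saturated in `LW L W`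
(torsion free quotient, hence free, hence a direct summand), so a basis `B` extends to `(B C)` and
`(B C')`; for full `L` the columns of `(B C C')` are independent, lie in `M = LW L (W ⊔ W')` and
their number is the rank of `M`, so `(B C C') = b Y` with `det Y ≠ 0` an integer and
`sz (B C C') ≥ cov M`; `plucker_le`; the number of rows is at most `2 n`. -/

namespace Pool.Agent.Work.MP_913e71_al.Pos

open Matrix Module

variable {n : ℕ} {ι : Type} [Fintype ι] [DecidableEq ι]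

lemma isBas_zbas (M : Submodule ℤ (Fin n → ℤ)) : IsBas M (zbas M) := by
  have e : (zbas M).col = M.subtype ∘ finBasis ℤ M := rfl
  refine ⟨e ▸ (finBasis ℤ M).linearIndependent.map' _ M.ker_subtype, ?_⟩
  rw [e, Set.range_comp, ← Submodule.map_span, Basis.span_eq, Submodule.map_subtype_top]

lemma le_sz (d : Fin n → ℕ) (r : ℝ) (X : Matrix (Fin n) ι ℝ) (I : ι → Fin n) :
    |mnr X I| / r ^ (∑ i, d (I i)) ≤ sz d r X := by
  exact le_ciSup (f := fun I : ι → Fin n => |mnr X I| / r ^ (∑ i, d (I i)))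
    (Finite.bddAbove_range _) I

lemma sz_nonneg (d : Fin n → ℕ) {r : ℝ} (hr : 0 < r) (X : Matrix (Fin n) ι ℝ) : 0 ≤ sz d r X := by
  exact Real.iSup_nonneg fun _ => by positivity

lemma sz_le (d : Fin n → ℕ) (r : ℝ) (X : Matrix (Fin n) ι ℝ) {x : ℝ} (hx : 0 ≤ x)
    (h : ∀ I : ι → Fin n, |mnr X I| / r ^ (∑ i, d (I i)) ≤ x) : sz d r X ≤ x := by
  exact Real.iSup_le h hx

lemma sz_mul (d : Fin n → ℕ) (r : ℝ) (X : Matrix (Fin n) ι ℝ) (Y : Matrix ι ι ℝ) :
    sz d r (X * Y) = sz d r X * |Y.det| := by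
  rw [sz, sz, Real.iSup_mul_of_nonneg (abs_nonneg _)]
  refine iSup_congr fun I => ?_
  rw [mnr_mul_right, abs_mul, mul_div_right_comm]

lemma Cov_mem {R : Type} [CommRing R] (b : Matrix (Fin n) ι R) (v : Fin n → R) :
    v ∈ Submodule.span R (Set.range b.col) ↔ ∃ y, b *ᵥ y = v := by
  rw [← Matrix.range_mulVecLin]
  rfl

lemma Cov_col {R : Type} [CommRing R] {W : Submodule R (Fin n → R)} {b : Matrix (Fin n) ι R}
    (hb : IsBas W b) (j : ι) : b.col j ∈ W :=
  hb.2 ▸ Submodule.subset_span ⟨j, rfl⟩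

lemma Cov_fac {R κ : Type} [CommRing R] {W : Submodule R (Fin n → R)} {b : Matrix (Fin n) ι R}
    (hb : IsBas W b) (c : Matrix (Fin n) κ R) (hc : ∀ j, c.col j ∈ W) :
    ∃ Y : Matrix ι κ R, c = b * Y := by
  choose y hy using fun j => (Cov_mem b _).1 (hb.2 ▸ hc j)
  refine ⟨Matrix.of fun i j => y j i, ?_⟩
  ext i j
  exact (congrFun (hy j) i).symm

lemma Cov_det {W : Submodule ℤ (Fin n → ℤ)} {b : Matrix (Fin n) ι ℤ} (hb : IsBas W b)
    {c : Matrix (Fin n) ι ℤ} (hc : ∀ j, c.col j ∈ W) (hi : LinearIndependent ℤ c.col) :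
    ∃ Y : Matrix ι ι ℤ, c = b * Y ∧ Y.det ≠ 0 := by
  obtain ⟨Y, rfl⟩ := Cov_fac hb c hc
  refine ⟨Y, rfl, fun h => ?_⟩
  obtain ⟨v, v0, hv⟩ := Matrix.exists_mulVec_eq_zero_iff.2 h
  exact v0 (Matrix.mulVec_injective_iff.2 hi (by rw [← mulVec_mulVec, hv, mulVec_zero, mulVec_zero]))

lemma Cov_indep {R : Type} [CommRing R] [IsDomain R] {X : Matrix (Fin n) ι R} {I : ι → Fin n}
    (h : mnr X I ≠ 0) : LinearIndependent R X.col := by
  refine Matrix.mulVec_injective_iff.1 fun v w e => sub_eq_zero.1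
    (Matrix.eq_zero_of_mulVec_eq_zero h (funext fun i => ?_))
  have := congrFun (show X *ᵥ (v - w) = 0 by rw [mulVec_sub, e, sub_self]) (I i)
  exact this

lemma Cov_reindex {R κ : Type} [CommRing R] {W : Submodule R (Fin n → R)} {b : Matrix (Fin n) ι R}
    (hb : IsBas W b) (e : κ ≃ ι) : IsBas W (b.submatrix id e) := by
  have e1 : (b.submatrix id e).col = b.col ∘ e := rfl
  exact ⟨e1 ▸ hb.1.comp e e.injective, by rw [e1, e.surjective.range_comp, hb.2]⟩

lemma Cov_sz_reindex {κ : Type} [Fintype κ] [DecidableEq κ] (d : Fin n → ℕ) (r : ℝ)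
    (X : Matrix (Fin n) ι ℝ) (e : κ ≃ ι) : sz d r (X.submatrix id e) = sz d r X := by
  rw [sz, sz, ← (e.symm.arrowCongr (Equiv.refl (Fin n))).iSup_comp]
  refine iSup_congr fun I => ?_
  have e1 : (e.symm.arrowCongr (Equiv.refl (Fin n))) I = I ∘ e := rfl
  rw [e1, mnr_reindex]
  exact congrArg (fun m => |mnr X I| / r ^ m) (e.sum_comp fun i => d (I i))

lemma Cov_card {R : Type} [CommRing R] [Nontrivial R] {W : Submodule R (Fin n → R)}
    {b : Matrix (Fin n) ι R} (hb : IsBas W b) : Fintype.card ι = finrank R W := by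
  rw [← hb.2, finrank_span_eq_card hb.1]

lemma Cov_cast {R : Type} [CommRing R] (b : Matrix (Fin n) ι ℤ) (I : ι → Fin n) :
    mnr (b.map (Int.cast : ℤ → R)) I = (mnr b I : ℤ) :=
  mnr_map (Int.castRingHom R) b I

lemma Cov_map_mul {κ : Type} (b : Matrix (Fin n) ι ℤ) (Y : Matrix ι κ ℤ) :
    (b * Y).map (Int.cast : ℤ → ℝ) = b.map (Int.cast : ℤ → ℝ) * Y.map (Int.cast : ℤ → ℝ) :=
  Matrix.map_mul (f := Int.castRingHom ℝ)

lemma Cov_sz_mul (d : Fin n → ℕ) (r : ℝ) (b : Matrix (Fin n) ι ℤ) (Y : Matrix ι ι ℤ) :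
    sz d r ((b * Y).map (Int.cast : ℤ → ℝ)) = sz d r (b.map (Int.cast : ℤ → ℝ)) * |(Y.det : ℝ)| := by
  rw [Cov_map_mul, sz_mul, Int.cast_det]

lemma Cov_same {κ : Type} [Fintype κ] [DecidableEq κ] (d : Fin n → ℕ) (r : ℝ)
    {M : Submodule ℤ (Fin n → ℤ)} {b : Matrix (Fin n) ι ℤ} {c : Matrix (Fin n) κ ℤ} (hb : IsBas M b)
    (hc : IsBas M c) : sz d r (c.map (Int.cast : ℤ → ℝ)) = sz d r (b.map (Int.cast : ℤ → ℝ)) := by
  obtain ⟨e⟩ : Nonempty (ι ≃ κ) := ⟨Fintype.equivOfCardEq ((Cov_card hb).trans (Cov_card hc).symm)⟩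
  have hc' := Cov_reindex hc e
  obtain ⟨Y, hY⟩ := Cov_fac hb _ (Cov_col hc')
  obtain ⟨Z, hZ⟩ := Cov_fac hc' _ (Cov_col hb)
  have h1 : Y * Z = 1 := by
    refine Matrix.ext_of_mulVec_single fun j => Matrix.mulVec_injective_iff.2 hb.1 ?_
    rw [mulVec_mulVec, mulVec_mulVec, ← Matrix.mul_assoc, ← hY, ← hZ, Matrix.mul_one]
  have h2 : |(Y.det : ℝ)| = 1 := by
    rcases Int.isUnit_iff.1 (Matrix.isUnit_det_of_right_inverse h1) with h | h <;> simp [h]
  rw [← Cov_sz_reindex d r _ e, submatrix_map, hY, Cov_sz_mul, h2, mul_one]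

lemma cov_eq (d : Fin n → ℕ) (r : ℝ) {M : Submodule ℤ (Fin n → ℤ)} {b : Matrix (Fin n) ι ℤ}
    (hb : IsBas M b) : cov d r M = sz d r (b.map (Int.cast : ℤ → ℝ)) := by
  exact Cov_same d r hb (isBas_zbas M)

lemma cov_pos (d : Fin n → ℕ) {r : ℝ} (hr : 0 < r) (M : Submodule ℤ (Fin n → ℤ)) :
    0 < cov d r M := by
  obtain ⟨I, hI⟩ := exists_mnr_ne_zero _ (isBas_zbas M).1
  refine lt_of_lt_of_le (div_pos (abs_pos.2 ?_) (by positivity)) (le_sz d r _ I)
  rw [Cov_cast]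
  exact_mod_cast hI

lemma LW_bot (L : Submodule ℤ (Fin n → ℤ)) : LW L ⊥ = ⊥ := by
  refine eq_bot_iff.2 fun v hv => funext fun i => ?_
  have : (v i : ℚ) = 0 := congrFun ((Submodule.mem_bot ℚ).1 hv.2) i
  exact Int.cast_eq_zero.1 this

lemma LW_top (L : Submodule ℤ (Fin n → ℤ)) : LW L ⊤ = L := by
  ext v
  simp [mem_LW]

lemma cov_bot (d : Fin n → ℕ) (r : ℝ) : cov d r (⊥ : Submodule ℤ (Fin n → ℤ)) = 1 := by
  have h : IsBas (⊥ : Submodule ℤ (Fin n → ℤ)) (0 : Matrix (Fin n) Empty ℤ) :=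
    ⟨linearIndependent_empty_type, by simp⟩
  rw [cov_eq d r h]
  simp [sz, mnr]

lemma Cov_clear {L : Submodule ℤ (Fin n → ℤ)} (hL : Full L) (w : Fin n → ℚ) :
    ∃ (D : ℚ) (v : Fin n → ℤ), D ≠ 0 ∧ v ∈ L ∧ (fun i => (v i : ℚ)) = D • w := by
  obtain ⟨N, hN, h⟩ := hL
  obtain ⟨⟨D, hD⟩, hw⟩ := IsLocalization.exist_integer_multiples_of_finite (nonZeroDivisors ℤ) w
  choose v hv using hw
  refine ⟨N * D, (N : ℤ) • v, mul_ne_zero (by exact_mod_cast hN.ne')
    (by exact_mod_cast nonZeroDivisors.ne_zero hD), h v, funext fun i => ?_⟩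
  have : (v i : ℚ) = D * w i := by simpa using hv i
  simp [this, mul_assoc]

/-- A basis of the points of a full lattice in `W` is a rational basis of `W`. -/
lemma IsBas.rat {L : Submodule ℤ (Fin n → ℤ)} (hL : Full L) {W : Submodule ℚ (Fin n → ℚ)}
    {b : Matrix (Fin n) ι ℤ} (hb : IsBas (LW L W) b) : IsBas W (b.map (Int.cast : ℤ → ℚ)) := by
  obtain ⟨I, hI⟩ := exists_mnr_ne_zero _ hb.1
  refine ⟨Cov_indep (I := I) (by rw [Cov_cast]; exact_mod_cast hI), le_antisymm ?_ fun w hw => ?_⟩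
  · rw [Submodule.span_le]
    rintro _ ⟨j, rfl⟩
    exact (Cov_col hb j).2
  · obtain ⟨D, v, hD, hv, e⟩ := Cov_clear hL w
    obtain ⟨y, hy⟩ := (Cov_mem b v).1 (hb.2 ▸ ⟨hv, e ▸ W.smul_mem D hw⟩)
    refine (Cov_mem _ _).2 ⟨D⁻¹ • fun j => (y j : ℚ), ?_⟩
    rw [mulVec_smul, inv_smul_eq_iff₀ hD, ← e, ← hy]
    funext i
    simp [mulVec, dotProduct]

lemma Cov_idx {L : Submodule ℤ (Fin n → ℤ)} (hL : Full L) {W : Submodule ℚ (Fin n → ℚ)}
    (h : Fintype.card ι = finrank ℚ W) : ∃ b : Matrix (Fin n) ι ℤ, IsBas (LW L W) b :=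
  ⟨_, Cov_reindex (isBas_zbas _)
    (Fintype.equivOfCardEq (h.trans (Cov_card ((isBas_zbas _).rat hL)).symm))⟩

lemma full_top : Full (⊤ : Submodule ℤ (Fin n → ℤ)) := ⟨1, one_pos, fun _ => trivial⟩

lemma exists_change {L : Submodule ℤ (Fin n → ℤ)} (hL : Full L) {W : Submodule ℚ (Fin n → ℚ)}
    {b : Matrix (Fin n) ι ℤ} (hb : IsBas (LW ⊤ W) b) :
    ∃ Y : Matrix ι ι ℤ, Y.det ≠ 0 ∧ IsBas (LW L W) (b * Y) := by
  obtain ⟨c, hc⟩ := Cov_idx hL (Cov_card (hb.rat full_top))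
  obtain ⟨Y, rfl, hY⟩ := Cov_det hb (c := c) (fun j => ⟨trivial, (Cov_col hc j).2⟩) hc.1
  exact ⟨Y, hY, hc⟩

lemma index_eq_det {L : Submodule ℤ (Fin n → ℤ)} {Y : Matrix (Fin n) (Fin n) ℤ} (hY : IsBas L Y) :
    L.toAddSubgroup.index = Y.det.natAbs := by
  obtain ⟨h1, rfl⟩ := hY
  rw [AddSubgroup.index_eq_natAbs_det (Pi.basisFun ℤ (Fin n)) _ (Basis.span h1),
    Basis.det_apply]
  congr 2
  ext i j
  rw [Basis.toMatrix_apply, Pi.basisFun_repr]
  exact congrFun (congrArg Subtype.val (Basis.span_apply h1 j)) i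

lemma exists_square_basis {L : Submodule ℤ (Fin n → ℤ)} (hL : Full L) :
    ∃ Y : Matrix (Fin n) (Fin n) ℤ, Y.det ≠ 0 ∧ IsBas L Y := by
  obtain ⟨c, hc⟩ := Cov_idx (ι := Fin n) hL (W := ⊤) (by simp)
  rw [LW_top] at hc
  refine ⟨c, fun h => ?_, hc⟩
  obtain ⟨v, v0, hv⟩ := Matrix.exists_mulVec_eq_zero_iff.2 h
  exact v0 (Matrix.mulVec_injective_iff.2 hc.1 (by rw [hv, mulVec_zero]))

lemma cov_full (d : Fin n → ℕ) {r : ℝ} (hr : 0 < r) {L : Submodule ℤ (Fin n → ℤ)} (hL : Full L) :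
    cov d r L = L.toAddSubgroup.index / r ^ (∑ i, d i) := by
  obtain ⟨Y, -, hY⟩ := exists_square_basis hL
  have e : ((L.toAddSubgroup.index : ℕ) : ℝ) = |(Y.map (Int.cast : ℤ → ℝ)).det| := by
    rw [index_eq_det hY, Nat.cast_natAbs, Int.cast_abs, Int.cast_det]
  rw [cov_eq d r hY, e]
  refine le_antisymm (sz_le d r _ (by positivity) fun I => ?_)
    (le_sz d r (Y.map (Int.cast : ℤ → ℝ)) fun i => i)
  by_cases hI : Function.Injective I
  · obtain ⟨σ, rfl⟩ : ∃ σ : Equiv.Perm (Fin n), I = σ :=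
      ⟨Equiv.ofBijective I (Finite.injective_iff_bijective.1 hI), rfl⟩
    rw [Equiv.sum_comp σ d, mnr, det_permute, abs_mul]
    rcases Int.units_eq_one_or (Equiv.Perm.sign σ) with h | h <;> simp [h]
  · rw [mnr_eq_zero_of_not_injective _ hI, abs_zero, zero_div]
    positivity

/-- A basis of the points in a subspace extends to a basis of the points in a larger one. -/
lemma Cov_ext {L : Submodule ℤ (Fin n → ℤ)} {U W : Submodule ℚ (Fin n → ℚ)} (h : U ≤ W)
    {B : Matrix (Fin n) ι ℤ} (hB : IsBas (LW L U) B) :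
    ∃ (m : ℕ) (C : Matrix (Fin n) (Fin m) ℤ), IsBas (LW L W) (fromCols B C) := by
  let φ : (Fin n → ℤ) →ₗ[ℤ] (Fin n → ℚ) ⧸ U :=
    (U.mkQ.restrictScalars ℤ).comp ((Int.castAddHom ℚ).toIntLinearMap.compLeft (Fin n))
  have hφ : ∀ v, φ v = 0 ↔ (fun i => (v i : ℚ)) ∈ U := fun v => Submodule.Quotient.mk_eq_zero U
  have : IsAddTorsionFree ((Fin n → ℚ) ⧸ U) := .of_module_rat _
  let p := finBasis ℤ ((LW L W).map φ)
  choose c hc hc' using fun j => Submodule.mem_map.1 (p j).2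
  have h1 : LinearIndependent ℤ (φ ∘ c) := by
    have e : φ ∘ c = ((LW L W).map φ).subtype ∘ p := funext hc'
    exact e ▸ p.linearIndependent.map' _ (Submodule.ker_subtype _)
  have e : (fromCols B (Matrix.of fun i j => c j i)).col = Sum.elim B.col c := by
    funext j
    cases j <;> rfl
  refine ⟨_, Matrix.of fun i j => c j i, e ▸ hB.1.sum_type (h1.of_comp φ) ?_, ?_⟩
  · refine (Submodule.range_ker_disjoint h1).symm.mono_left fun v hv => ?_
    exact (hφ v).2 (hB.2 ▸ hv).2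
  · rw [e, Set.Sum.elim_range, Submodule.span_union, hB.2]
    refine le_antisymm (sup_le (fun v hv => ⟨hv.1, h hv.2⟩) ?_) fun v hv => ?_
    · rw [Submodule.span_le]
      rintro _ ⟨j, rfl⟩
      exact hc j
    · obtain ⟨y, hy⟩ : ∃ y : Fin _ → ℤ, ∑ j, y j • p j = ⟨φ v, Submodule.mem_map_of_mem hv⟩ :=
        ⟨_, p.sum_repr _⟩
      have m1 : ∑ j, y j • c j ∈ LW L W := Submodule.sum_mem _ fun j _ => (LW L W).smul_mem _ (hc j)
      refine Submodule.mem_sup.2 ⟨v - ∑ j, y j • c j, ⟨((LW L W).sub_mem hv m1).1, (hφ _).1 ?_⟩,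
        ∑ j, y j • c j, Submodule.sum_mem _ fun j _ => Submodule.smul_mem _ _
          (Submodule.subset_span ⟨j, rfl⟩), sub_add_cancel _ _⟩
      have := congrArg Subtype.val hy
      simp only [Submodule.coe_sum, Submodule.coe_smul] at this
      simp only [map_sub, map_sum, map_smul, hc', this, sub_self]

/-- The weighted matrix. -/
noncomputable def Cov_w {κ : Type} (d : Fin n → ℕ) (r : ℝ) (X : Matrix (Fin n) κ ℝ) :
    Matrix (Fin n) κ ℝ := Matrix.of fun i j => (r ^ d i)⁻¹ * X i j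

lemma Cov_w_mnr (d : Fin n → ℕ) {r : ℝ} (hr : 0 < r) (X : Matrix (Fin n) ι ℝ) (I : ι → Fin n) :
    |mnr (Cov_w d r X) I| = |mnr X I| / r ^ (∑ i, d (I i)) := by
  have := det_mul_column (fun i => (r ^ d (I i))⁻¹) (X.submatrix I id)
  change mnr (Cov_w d r X) I = _ * mnr X I at this
  rw [this, abs_mul, Finset.prod_inv_distrib, Finset.prod_pow_eq_pow_sum,
    abs_of_pos (by positivity), div_eq_inv_mul]

lemma Cov_w_cols {α β : Type} (d : Fin n → ℕ) (r : ℝ) (B : Matrix (Fin n) α ℝ)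
    (C : Matrix (Fin n) β ℝ) : fromCols (Cov_w d r B) (Cov_w d r C) = Cov_w d r (fromCols B C) := by
  ext i (j | j) <;> rfl

lemma Cov_pl {α β γ : Type} [Fintype α] [DecidableEq α] [Fintype β] [DecidableEq β] [Fintype γ]
    [DecidableEq γ] (d : Fin n → ℕ) {r : ℝ} (hr : 0 < r) (B : Matrix (Fin n) α ℝ)
    (C : Matrix (Fin n) β ℝ) (C' : Matrix (Fin n) γ ℝ) :
    sz d r B * sz d r (fromCols (fromCols B C) C') ≤ (Fintype.card (α ⊕ (α ⊕ β) ⊕ γ)).factorial *
      (sz d r (fromCols B C) * sz d r (fromCols B C')) := by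
  have x0 := sz_nonneg d hr (fromCols B C)
  have y0 := sz_nonneg d hr (fromCols B C')
  have h := plucker_le (Cov_w d r B) (Cov_w d r C) (Cov_w d r C') _ _ x0 y0
    (fun I => by rw [Cov_w_cols, Cov_w_mnr d hr]; exact le_sz d r _ I)
    (fun I => by rw [Cov_w_cols, Cov_w_mnr d hr]; exact le_sz d r _ I)
  simp only [Cov_w_cols, Cov_w_mnr d hr] at h
  rw [sz, Real.iSup_mul_of_nonneg (sz_nonneg d hr _)]
  refine Real.iSup_le (fun I => ?_) (by positivity)
  rw [sz, Real.mul_iSup_of_nonneg (by positivity)]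
  exact Real.iSup_le (h I) (by positivity)

theorem cov_submod (d : Fin n → ℕ) {r : ℝ} (hr : 0 < r) {L : Submodule ℤ (Fin n → ℤ)} (hL : Full L)
    (W W' : Submodule ℚ (Fin n → ℚ)) :
    cov d r (LW L (W ⊓ W')) * cov d r (LW L (W ⊔ W')) ≤
      (2 * n).factorial * (cov d r (LW L W) * cov d r (LW L W')) := by
  have hB := isBas_zbas (LW L (W ⊓ W'))
  generalize zbas (LW L (W ⊓ W')) = B at hB
  obtain ⟨m, C, hC⟩ := Cov_ext (inf_le_left : W ⊓ W' ≤ W) hB
  obtain ⟨m', C', hC'⟩ := Cov_ext (inf_le_right : W ⊓ W' ≤ W') hB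
  have c1 := Cov_card (hB.rat hL)
  have c2 := Cov_card (hC.rat hL)
  have c3 := Cov_card (hC'.rat hL)
  have c4 := Submodule.finrank_sup_add_finrank_inf_eq W W'
  have c5 : finrank ℚ W ≤ n := (Submodule.finrank_le W).trans_eq (by simp)
  have c6 : finrank ℚ W' ≤ n := (Submodule.finrank_le W').trans_eq (by simp)
  have c7 : Fintype.card ((Fin (finrank ℤ (LW L (W ⊓ W'))) ⊕ Fin m) ⊕ Fin m') =
      finrank ℚ (W ⊔ W' : Submodule ℚ (Fin n → ℚ)) := by
    simp only [Fintype.card_sum] at c2 c3 ⊢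
    omega
  obtain ⟨b, hb⟩ := Cov_idx hL c7
  have s1 : Submodule.span ℚ
      (Set.range ((fromCols (fromCols B C) C').map (Int.cast : ℤ → ℚ)).col) = W ⊔ W' := by
    refine le_antisymm (Submodule.span_le.2 ?_) (sup_le ?_ ?_)
    · rintro _ ⟨j | j, rfl⟩
      · exact Submodule.mem_sup_left (Cov_col hC j).2
      · exact Submodule.mem_sup_right (Cov_col hC' (Sum.inr j)).2
    · refine (hC.rat hL).2.ge.trans (Submodule.span_mono ?_)
      rintro _ ⟨j, rfl⟩
      exact ⟨Sum.inl j, rfl⟩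
    · refine (hC'.rat hL).2.ge.trans (Submodule.span_mono ?_)
      rintro _ ⟨j | j, rfl⟩
      exacts [⟨Sum.inl (Sum.inl j), rfl⟩, ⟨Sum.inr j, rfl⟩]
  have s2 : LinearIndependent ℤ (fromCols (fromCols B C) C').col := by
    obtain ⟨I, hI⟩ := exists_mnr_ne_zero _ (linearIndependent_iff_card_eq_finrank_span.2
      (c7.trans (congrArg (fun U : Submodule ℚ (Fin n → ℚ) => finrank ℚ U) s1.symm)))
    exact Cov_indep (I := I) fun e => hI (by rw [Cov_cast, e, Int.cast_zero])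
  obtain ⟨Y, hY, Y0⟩ := Cov_det hb (c := fromCols (fromCols B C) C') (by
    rintro (j | j)
    · exact ⟨(Cov_col hC j).1, Submodule.mem_sup_left (Cov_col hC j).2⟩
    · exact ⟨(Cov_col hC' (Sum.inr j)).1, Submodule.mem_sup_right (Cov_col hC' (Sum.inr j)).2⟩) s2
  have h := Cov_pl d hr (B.map (Int.cast : ℤ → ℝ)) (C.map (Int.cast : ℤ → ℝ))
    (C'.map (Int.cast : ℤ → ℝ))
  simp only [← fromCols_map] at h
  rw [hY, Cov_sz_mul, ← cov_eq d r hB, ← cov_eq d r hb, ← cov_eq d r hC, ← cov_eq d r hC'] at h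
  have y1 : (1 : ℝ) ≤ |(Y.det : ℝ)| := by exact_mod_cast Int.one_le_abs Y0
  have p1 := cov_pos d hr (LW L (W ⊓ W'))
  have p2 := cov_pos d hr (LW L (W ⊔ W'))
  have p3 := cov_pos d hr (LW L W)
  have p4 := cov_pos d hr (LW L W')
  refine (mul_le_mul_of_nonneg_left (le_mul_of_one_le_right p2.le y1) p1.le).trans (h.trans ?_)
  refine mul_le_mul_of_nonneg_right (Nat.cast_le.2 (Nat.factorial_le ?_)) (by positivity)
  simp only [Fintype.card_sum] at c2 c3 ⊢
  omega

end Pool.Agent.Work.MP_913e71_al.Pos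
end

-- merged part: Pool.Agent.Work.MP_913e71_al.Pos.CovB
section
/-! Geometry of numbers, heights and the local index formula. -/

namespace Pool.Agent.Work.MP_913e71_al.Pos

open Matrix Module

variable {n : ℕ} {ι : Type} [Fintype ι] [DecidableEq ι]

lemma CovB_mem {R ρ : Type} [CommRing R] {X : Matrix ρ ι R} {v : ρ → R} :
    v ∈ Submodule.span R (Set.range X.col) ↔ ∃ y, X *ᵥ y = v := by
  rw [← Matrix.range_mulVecLin]; rfl

lemma CovB_li {R ρ : Type} [CommRing R] [IsDomain R] {X : Matrix ρ ι R} {I : ι → ρ}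
    (h : mnr X I ≠ 0) : LinearIndependent R X.col := by
  refine Matrix.mulVec_injective_iff.1 fun y y' hy => ?_
  exact Matrix.mulVec_injective_of_det_ne_zero h (funext fun i => congrFun hy (I i))

lemma CovB_cast {S ρ : Type} [CommRing S] (X : Matrix ρ ι ℤ) (y : ι → ℤ) :
    (X.map (Int.cast : ℤ → S) *ᵥ fun j => (y j : S)) = fun i => (((X *ᵥ y) i : ℤ) : S) := by
  funext i
  simp [Matrix.mulVec, dotProduct]

lemma CovB_mnr {S ρ : Type} [CommRing S] (X : Matrix ρ ι ℤ) (I : ι → ρ) :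
    mnr (X.map (Int.cast : ℤ → S)) I = ((mnr X I : ℤ) : S) :=
  mnr_map (Int.castRingHom S) X I

lemma CovB_one_le {z : ℤ} (h : z ≠ 0) : (1 : ℝ) ≤ |(z : ℝ)| := by
  exact_mod_cast Int.one_le_abs h

lemma CovB_mink (A : Matrix ι ι ℝ) (hA : A.det ≠ 0) {c : ℝ} (hc : 0 < c)
    (h : |A.det| < c ^ Fintype.card ι) :
    ∃ y : ι → ℤ, y ≠ 0 ∧ ∀ i, |(A *ᵥ fun j => (y j : ℝ)) i| ≤ c := by
  have : Countable (Submodule.span ℤ (Set.range (Pi.basisFun ℝ ι))).toAddSubgroup :=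
    inferInstanceAs (Countable (Submodule.span ℤ (Set.range (Pi.basisFun ℝ ι))))
  obtain ⟨x, hx0, hx⟩ := MeasureTheory.exists_ne_zero_mem_lattice_of_measure_mul_two_pow_lt_measure
    (ZSpan.isAddFundamentalDomain' (Pi.basisFun ℝ ι) MeasureTheory.volume)
    (s := Matrix.toLin' A ⁻¹' Metric.closedBall 0 c) (fun x hx => by simpa [Matrix.mulVec_neg] using hx)
    ((convex_closedBall 0 c).linear_preimage _) (by
      rw [MeasureTheory.Measure.addHaar_preimage_linearMap _ (by simpa using hA),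
        Real.volume_pi_closedBall _ hc.le, ZSpan.fundamentalDomain_pi_basisFun,
        MeasureTheory.volume_pi_pi, LinearMap.det_toLin', ← ENNReal.ofReal_mul (abs_nonneg _),
        Module.finrank_fintype_fun_eq_card]
      simp only [Real.volume_Ico, sub_zero, ENNReal.ofReal_one, Finset.prod_const_one, one_mul]
      rw [← ENNReal.ofReal_ofNat 2, ← ENNReal.ofReal_pow zero_le_two,
        ENNReal.ofReal_lt_ofReal_iff (by positivity), abs_inv, mul_pow,
        lt_inv_mul_iff₀ (abs_pos.2 hA), mul_comm]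
      exact mul_lt_mul_of_pos_left h (by positivity))
  choose y hy using ((Pi.basisFun ℝ ι).mem_span_iff_repr_mem ℤ x).1 x.2
  have hxy : (fun j => (y j : ℝ)) = x := funext hy
  refine ⟨y, fun h0 => hx0 (Subtype.ext ?_), fun i => ?_⟩
  · rw [← hxy, h0]; funext j; simp
  · rw [hxy]
    exact (norm_le_pi_norm (A *ᵥ (x : ι → ℝ)) i).trans (mem_closedBall_zero_iff.1 hx)

lemma CovB_log (N : ℤ) (hN : N ≠ 0) (p : Nat.Primes) :
    -Real.log ‖(N : ℤ_[p])‖ = N.natAbs.factorization p * Real.log (p : ℕ) := by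
  rw [PadicInt.norm_eq_zpow_neg_valuation (by exact_mod_cast hN), Real.log_zpow,
    ← PadicInt.valuation_coe, PadicInt.coe_intCast, Padic.valuation_intCast,
    Nat.factorization_def _ p.2, padicValInt, Int.cast_neg, Int.cast_natCast, neg_mul, neg_neg]

lemma CovB_sum (N : ℤ) (hN : N ≠ 0) (S : Finset Nat.Primes) :
    ∑ p ∈ S, -Real.log ‖(N : ℤ_[p])‖ = ∑ q ∈ S.map ⟨Subtype.val, Subtype.val_injective⟩,
      N.natAbs.factorization q * Real.log (q : ℕ) := by
  rw [Finset.sum_map]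
  exact Finset.sum_congr rfl fun p _ => CovB_log N hN p

lemma CovB_logN (N : ℤ) : Real.log |(N : ℝ)| =
    ∑ q ∈ N.natAbs.factorization.support, N.natAbs.factorization q * Real.log (q : ℕ) := by
  rw [← Int.cast_abs, ← Nat.cast_natAbs, Real.log_nat_eq_sum_factorization]; rfl

/-- The points of `L` on the line through `v` are the multiples of one vector `b`, `v = k b` with
`|k| ≥ 1`, and the minors of `b` are its entries. -/
lemma cov_line (d : Fin n → ℕ) {r x : ℝ} (hr : 0 < r) (hx : 0 ≤ x) {L : Submodule ℤ (Fin n → ℤ)}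
    {v : Fin n → ℤ} (hv : v ∈ L) (h0 : v ≠ 0) (hb : ∀ i, |(v i : ℝ)| ≤ x * r ^ d i) :
    cov d r (LW L (Submodule.span ℚ {fun i => (v i : ℚ)})) ≤ x := by
  set M := LW L (Submodule.span ℚ {fun i => (v i : ℚ)})
  obtain ⟨i₀, hi⟩ := Function.ne_iff.1 h0
  have hinj : ∀ w ∈ M, w i₀ = 0 → w = 0 := fun w hw h => by
    obtain ⟨q, hq⟩ := Submodule.mem_span_singleton.1 hw.2
    have h1 : q * v i₀ = w i₀ := congrFun hq i₀
    rw [h, Int.cast_zero, mul_eq_zero] at h1
    rw [h1.resolve_right (Int.cast_ne_zero.2 hi), zero_smul] at hq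
    funext i
    exact Int.cast_eq_zero.1 (congrFun hq i).symm
  obtain ⟨g, hg⟩ := (IsPrincipalIdealRing.principal (M.map (LinearMap.proj i₀))).principal
  obtain ⟨b, hbM, hbg⟩ : g ∈ M.map (LinearMap.proj i₀) := hg ▸ Submodule.mem_span_singleton_self g
  have hk : ∀ w ∈ M, ∃ k : ℤ, k • b = w := fun w hw => by
    obtain ⟨k, hk⟩ := Submodule.mem_span_singleton.1 (hg ▸ Submodule.mem_map_of_mem hw)
    refine ⟨k, sub_eq_zero.1 (hinj _ (M.sub_mem (M.smul_mem k hbM) hw) ?_)⟩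
    rw [← hbg] at hk
    exact sub_eq_zero.2 hk
  obtain ⟨k, rfl⟩ := hk v ⟨hv, Submodule.mem_span_singleton_self _⟩
  have hB : IsBas M (Matrix.of fun i (_ : Unit) => b i) := by
    refine ⟨linearIndependent_unique_iff.2 (right_ne_zero_of_smul h0), le_antisymm
      (Submodule.span_le.2 (by rintro _ ⟨_, rfl⟩; exact hbM)) fun w hw => ?_⟩
    obtain ⟨l, rfl⟩ := hk w hw
    exact Submodule.smul_mem _ _ (Submodule.subset_span ⟨(), rfl⟩)
  rw [cov_eq d r hB]
  refine sz_le d r _ hx fun I => ?_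
  rw [div_le_iff₀ (by positivity), Fintype.sum_unique, mnr, Matrix.det_unique]
  refine le_trans ?_ (hb _)
  have h1 := CovB_one_le (left_ne_zero_of_smul h0)
  simp only [Matrix.submatrix_apply, Matrix.map_apply, Matrix.of_apply, Pi.smul_apply, smul_eq_mul,
    Int.cast_mul, abs_mul]
  exact le_mul_of_one_le_left (abs_nonneg _) h1

/-- Minkowski.  Let `X' = diagonal (r ^ d i)⁻¹ * X`.  Choose `I` with `|mnr X' I| = sz` maximal (it is
nonzero); `X' (X'_I)⁻¹` has entries of size at most one (`mul_adjugate_apply`); the lattice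
`X'_I ℤ ^ m` of covolume `sz` has a nonzero point in the cube of half side `1 / (n + 1)` if
`sz < (n + 1)⁻ᵐ` (`exists_ne_zero_mem_lattice_of_measure_mul_two_pow_lt_measure`, `ZSpan`), and
`m ≤ n`. -/
theorem minkowski (d : Fin n → ℕ) {r : ℝ} (hr : 0 < r) (X : Matrix (Fin n) ι ℝ)
    (hX : LinearIndependent ℝ X.col)
    (h : ∀ y : ι → ℤ, InBox d r (X *ᵥ fun j => (y j : ℝ)) → y = 0) :
    1 / ((n : ℝ) + 1) ^ n ≤ sz d r X := by
  obtain ⟨I₀, h₀⟩ := exists_mnr_ne_zero X hX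
  let X' : Matrix (Fin n) ι ℝ := Matrix.of fun i j => (r ^ d i)⁻¹ * X i j
  have hm : ∀ I, |mnr X' I| = |mnr X I| / r ^ (∑ i, d (I i)) := fun I => by
    have h1 := Matrix.det_mul_column (fun i => (r ^ d (I i))⁻¹) (X.submatrix I id)
    rw [show mnr X' I = _ from h1, Finset.prod_inv_distrib, Finset.prod_pow_eq_pow_sum, abs_mul,
      abs_of_pos (by positivity), div_eq_inv_mul, mnr]
  have : Nonempty (ι → Fin n) := ⟨I₀⟩
  obtain ⟨I, hI⟩ := Finite.exists_max fun I => |mnr X' I|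
  have hpos : 0 < |mnr X' I| := lt_of_lt_of_le (by rw [hm]; positivity) (hI I₀)
  have hcard : Fintype.card ι ≤ n := by
    have hinj : Function.Injective I := by
      by_contra hn
      exact abs_pos.1 hpos (mnr_eq_zero_of_not_injective X' hn)
    simpa using Fintype.card_le_of_injective I hinj
  refine le_trans (not_lt.1 fun hlt => ?_) ((hm I).trans_le (le_sz d r X I))
  have hn1 : (0 : ℝ) < n + 1 := by positivity
  obtain ⟨y, hy0, hy⟩ := CovB_mink (X'.submatrix I id) (abs_pos.1 hpos) (one_div_pos.2 hn1)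
    (hlt.trans_le (by
      rw [_root_.one_div_pow]
      exact one_div_le_one_div_of_le (by positivity) (pow_le_pow_right₀ (by simp) hcard)))
  refine hy0 (h y fun k => ?_)
  have e1 : (X' * (X'.submatrix I id).adjugate) *ᵥ (X'.submatrix I id *ᵥ fun j => (y j : ℝ)) =
      mnr X' I • (X' *ᵥ fun j => (y j : ℝ)) := by
    rw [Matrix.mulVec_mulVec, Matrix.mul_assoc, Matrix.adjugate_mul, Matrix.mul_smul,
      Matrix.mul_one, Matrix.smul_mulVec, mnr]
  have e2 : (X' *ᵥ fun j => (y j : ℝ)) k = (r ^ d k)⁻¹ * (X *ᵥ fun j => (y j : ℝ)) k := by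
    simp [X', Matrix.mulVec, dotProduct, Finset.mul_sum, mul_assoc]
  have e3 : |mnr X' I| * |(X' *ᵥ fun j => (y j : ℝ)) k| ≤ |mnr X' I| * 1 := by
    rw [← abs_mul, ← smul_eq_mul, ← Pi.smul_apply, ← e1, Matrix.mulVec, dotProduct]
    refine (Finset.abs_sum_le_sum_abs _ _).trans ((Finset.sum_le_card_nsmul _ _
      (|mnr X' I| * (1 / (n + 1))) fun j _ => ?_).trans ?_)
    · rw [abs_mul]
      refine mul_le_mul ?_ (hy j) (abs_nonneg _) hpos.le
      exact (congrArg abs (mul_adjugate_apply X' I k j)).trans_le (hI _)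
    · rw [nsmul_eq_mul, mul_left_comm, Finset.card_univ, mul_one_div]
      refine mul_le_mul_of_nonneg_left ((div_le_one hn1).2 ?_) hpos.le
      exact_mod_cast hcard.trans (Nat.le_succ n)
  have e4 := le_of_mul_le_mul_left e3 hpos
  rwa [e2, abs_mul, abs_of_pos (by positivity), inv_mul_le_iff₀ (by positivity), mul_one] at e4

lemma cov_minkowski (d : Fin n → ℕ) {r : ℝ} (hr : 0 < r) (M : Submodule ℤ (Fin n → ℤ))
    (h : ∀ v ∈ M, InBox d r (fun i => (v i : ℝ)) → v = 0) : 1 / ((n : ℝ) + 1) ^ n ≤ cov d r M := by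
  obtain ⟨h1, h2⟩ := isBas_zbas M
  obtain ⟨I, hI⟩ := exists_mnr_ne_zero _ h1
  refine minkowski d hr _ (CovB_li (I := I) ?_) fun y hy => ?_
  · rw [CovB_mnr]; exact_mod_cast hI
  · rw [CovB_cast] at hy
    exact Matrix.mulVec_injective_iff.2 h1
      ((h _ (h2.le (CovB_mem.2 ⟨y, rfl⟩)) hy).trans (Matrix.mulVec_zero _).symm)

lemma one_le_Ht (W : Submodule ℚ (Fin n → ℚ)) : 1 ≤ Ht W := by
  obtain ⟨I, hI⟩ := exists_mnr_ne_zero _ (isBas_zbas (LW ⊤ W)).1
  refine (CovB_one_le hI).trans (le_trans (le_of_eq ?_) (le_sz 0 1 _ I))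
  rw [CovB_mnr, one_pow, div_one]

lemma abs_mnr_le_Ht {W : Submodule ℚ (Fin n → ℚ)} {b : Matrix (Fin n) ι ℤ}
    (hb : IsBas (LW ⊤ W) b) (I : ι → Fin n) : |((mnr b I : ℤ) : ℝ)| ≤ Ht W := by
  rw [Ht, cov_eq 0 1 hb]
  refine le_trans (le_of_eq ?_) (le_sz 0 1 _ I)
  rw [CovB_mnr, one_pow, div_one]

lemma cov_top_ge (d : Fin n → ℕ) {r : ℝ} (hr : 1 ≤ r) (W : Submodule ℚ (Fin n → ℚ)) :
    1 / r ^ dinf d W ≤ cov d r (LW ⊤ W) := by
  obtain ⟨I, hI, he⟩ := dinf_exists d ((isBas_zbas (LW ⊤ W)).rat full_top)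
  refine le_trans ?_ (le_sz d r _ I)
  rw [CovB_mnr] at hI ⊢
  rw [he]
  exact div_le_div_of_nonneg_right (CovB_one_le (Int.cast_ne_zero.1 hI)) (by positivity)

lemma cov_top_ge' (d : Fin n → ℕ) {r : ℝ} (hr : 1 ≤ r) (W : Submodule ℚ (Fin n → ℚ)) :
    Ht W / r ^ (∑ i, d i) ≤ cov d r (LW ⊤ W) := by
  have h0 := (cov_pos d (zero_lt_one.trans_le hr) (LW ⊤ W)).le
  rw [div_le_iff₀ (by positivity)]
  refine sz_le 0 1 _ (by positivity) fun I => ?_
  rw [one_pow, div_one]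
  by_cases hI : Function.Injective I
  · refine ((div_le_iff₀ (by positivity)).1 (le_sz d r _ I)).trans
      (mul_le_mul_of_nonneg_left (pow_le_pow_right₀ hr ?_) h0)
    rw [← Finset.sum_image (f := d) hI.injOn]
    exact Finset.sum_le_sum_of_subset (Finset.subset_univ _)
  · rw [mnr_eq_zero_of_not_injective _ hI, abs_zero]
    positivity

lemma cov_top_le (d : Fin n → ℕ) {r : ℝ} (hr : 1 ≤ r) (W : Submodule ℚ (Fin n → ℚ)) :
    cov d r (LW ⊤ W) ≤ Ht W / r ^ dinf d W := by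
  have h0 := zero_le_one.trans (one_le_Ht W)
  refine sz_le d r _ (by positivity) fun I => ?_
  rw [CovB_mnr]
  by_cases hI : mnr (zbas (LW ⊤ W)) I = 0
  · rw [hI, Int.cast_zero, abs_zero, zero_div]
    positivity
  · refine div_le_div₀ h0 (abs_mnr_le_Ht (isBas_zbas _) I) (by positivity)
      (pow_le_pow_right₀ hr (dinf_le d ((isBas_zbas (LW ⊤ W)).rat full_top) ?_))
    rw [CovB_mnr]; exact_mod_cast hI

/-- Northcott: `W` is spanned by the columns of `b * adjugate (b_I)`, whose entries are minors. -/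
theorem northcott (T : ℝ) : {W : Submodule ℚ (Fin n → ℚ) | Ht W ≤ T}.Finite := by
  have hB : {v : Fin n → ℚ | ∀ i, v i ∈ (Int.cast : ℤ → ℚ) '' Set.Icc (-⌈T⌉) ⌈T⌉}.Finite :=
    Set.Finite.pi' fun _ => (Set.finite_Icc _ _).image _
  refine (hB.finite_subsets.image (Submodule.span ℚ)).subset fun W hW => ?_
  obtain ⟨h1, h2⟩ := (isBas_zbas (LW ⊤ W)).rat full_top
  obtain ⟨I, hI⟩ := exists_mnr_ne_zero _ h1
  set P := (zbas (LW ⊤ W)).map (Int.cast : ℤ → ℚ) with hP
  refine ⟨Set.range (P * (P.submatrix I id).adjugate).col, ?_, le_antisymm ?_ ?_⟩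
  · rintro _ ⟨j, rfl⟩ i
    refine ⟨mnr (zbas (LW ⊤ W)) (Function.update I j i), abs_le.1 ?_, ?_⟩
    · exact_mod_cast ((abs_mnr_le_Ht (isBas_zbas _) (Function.update I j i)).trans hW).trans
        (Int.le_ceil T)
    · rw [← CovB_mnr]; exact (mul_adjugate_apply P I i j).symm
  · refine Submodule.span_le.2 ?_
    rintro _ ⟨j, rfl⟩
    exact h2.le (CovB_mem.2 ⟨_, rfl⟩)
  · intro w hw
    obtain ⟨y, rfl⟩ := CovB_mem.1 (h2.ge hw)
    refine CovB_mem.2 ⟨(mnr P I)⁻¹ • (P.submatrix I id *ᵥ y), ?_⟩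
    rw [Matrix.mulVec_smul, Matrix.mulVec_mulVec, Matrix.mul_assoc, Matrix.adjugate_mul,
      Matrix.mul_smul, Matrix.mul_one, Matrix.smul_mulVec, smul_smul]
    exact (congrArg (· • _) (inv_mul_cancel₀ hI)).trans (one_smul _ _)

/-- The local index formula.  `b * Y = G * b''` with `b''` over `ℤ_[p]`; the columns of `b''` are
independent modulo `p` (by `h2` and the basis property), so some maximal minor of `b''` is a unit;
`adj G * b * Y = det G • b''`. -/
theorem local_index (p : ℕ) [Fact p.Prime] {L : Submodule ℤ (Fin n → ℤ)}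
    (G : Matrix (Fin n) (Fin n) ℤ_[p]) (hG : G.det ≠ 0)
    (h1 : ∀ v ∈ L, ∃ w, G *ᵥ w = fun i => (v i : ℤ_[p]))
    (h2 : ∀ v : Fin n → ℤ, (∃ w, G *ᵥ w = fun i => (v i : ℤ_[p])) → (p : ℤ) • v ∈ L → v ∈ L)
    {W : Submodule ℚ (Fin n → ℚ)} (b : Matrix (Fin n) ι ℤ) (Y : Matrix ι ι ℤ)
    (hY : IsBas (LW L W) (b * Y)) :
    ‖(Y.det : ℤ_[p])‖ * (⨆ I, ‖mnr (G.adjugate * b.map (Int.cast : ℤ → ℤ_[p])) I‖) =
      ‖G.det‖ ^ Fintype.card ι := by
  have hmem : ∀ y, (b * Y) *ᵥ y ∈ LW L W := fun y => hY.2.le (CovB_mem.2 ⟨y, rfl⟩)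
  choose w hw using fun j => h1 _ (hY.2.le (Submodule.subset_span ⟨j, rfl⟩)).1
  let c : Matrix (Fin n) ι ℤ_[p] := Matrix.of fun i j => w j i
  have hc : G * c = (b * Y).map (Int.cast : ℤ → ℤ_[p]) := by
    exact Matrix.ext fun i j => congrFun (hw j) i
  have hp0 : (p : ℤ_[p]) ≠ 0 := Nat.cast_ne_zero.2 (Fact.out : p.Prime).ne_zero
  have hker : ∀ x : ℤ_[p], PadicInt.toZMod x = 0 ↔ (p : ℤ_[p]) ∣ x := fun x => by
    rw [← RingHom.mem_ker, PadicInt.ker_toZMod, PadicInt.maximalIdeal_eq_span_p,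
      Ideal.mem_span_singleton]
  have hli : LinearIndependent (ZMod p) (c.map PadicInt.toZMod).col := by
    rw [← Matrix.mulVec_injective_iff, ← Matrix.coe_mulVecLin, injective_iff_map_eq_zero]
    intro a ha
    choose y hy using fun j => ZMod.intCast_surjective (a j)
    have e1 : ∀ i, (p : ℤ_[p]) ∣ (c *ᵥ fun j => (y j : ℤ_[p])) i := fun i => by
      rw [← hker, RingHom.map_mulVec]
      refine Eq.trans ?_ (congrFun ha i)
      simp [Function.comp_def, hy]
    choose u hu using e1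
    have e2 : ∀ i, ((((b * Y) *ᵥ y) i : ℤ) : ℤ_[p]) = p * (G *ᵥ u) i := fun i => by
      rw [← congrFun (CovB_cast (b * Y) y) i, ← hc, ← Matrix.mulVec_mulVec,
        show (c *ᵥ fun j => (y j : ℤ_[p])) = (p : ℤ_[p]) • u from funext hu, Matrix.mulVec_smul]
      rfl
    have e3 : ∀ i, (p : ℤ) ∣ ((b * Y) *ᵥ y) i := fun i => by
      rw [← ZMod.intCast_zmod_eq_zero_iff_dvd, ← map_intCast (PadicInt.toZMod (p := p)), hker]
      exact ⟨_, e2 i⟩
    choose v hv using e3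
    have e4 : (b * Y) *ᵥ y = (p : ℤ) • v := funext hv
    have e5 : v ∈ LW L W := by
      refine ⟨h2 v ⟨u, funext fun i => mul_left_cancel₀ hp0 ?_⟩ (e4 ▸ (hmem y).1), ?_⟩
      · rw [← e2, hv]; push_cast; rfl
      · have h3 := W.smul_mem (p : ℚ)⁻¹ (hmem y).2
        have h4 : (p : ℚ) ≠ 0 := Nat.cast_ne_zero.2 (Fact.out : p.Prime).ne_zero
        refine (congrArg (· ∈ W) (funext fun i => ?_)).mp h3
        simp [hv, h4]
    obtain ⟨y', hy'⟩ := CovB_mem.1 (hY.2.ge e5)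
    have e6 : y = (p : ℤ) • y' := Matrix.mulVec_injective_iff.2 hY.1
      (by rw [Matrix.mulVec_smul, hy', e4])
    funext j
    simp [← hy j, e6]
  obtain ⟨I₀, hI⟩ := exists_mnr_ne_zero _ hli
  rw [mnr_map, Ne, hker, ← PadicInt.norm_lt_one_iff_dvd, not_lt] at hI
  have key : ∀ I, ‖(Y.det : ℤ_[p])‖ * ‖mnr (G.adjugate * b.map (Int.cast : ℤ → ℤ_[p])) I‖ =
      ‖G.det‖ ^ Fintype.card ι * ‖mnr c I‖ := fun I => by
    have e1 : G.adjugate * b.map (Int.cast : ℤ → ℤ_[p]) * Y.map (Int.cast : ℤ → ℤ_[p]) =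
        G.det • c := by
      have e0 : G * c = b.map (Int.cast : ℤ → ℤ_[p]) * Y.map (Int.cast : ℤ → ℤ_[p]) :=
        hc.trans (Matrix.map_mul (f := Int.castRingHom ℤ_[p]))
      rw [Matrix.mul_assoc, ← e0, ← Matrix.mul_assoc, Matrix.adjugate_mul, Matrix.smul_mul,
        Matrix.one_mul]
    rw [← norm_mul, mul_comm, Int.cast_det, ← mnr_mul_right, e1, ← norm_pow, ← norm_mul]
    exact congrArg norm (Matrix.det_smul (c.submatrix I id) G.det)
  have : Nonempty (ι → Fin n) := ⟨I₀⟩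
  rw [Real.mul_iSup_of_nonneg (norm_nonneg _), funext key]
  refine le_antisymm (ciSup_le fun I => mul_le_of_le_one_right (by positivity)
    (PadicInt.norm_le_one _)) (le_trans ?_ (le_ciSup (Finite.bddAbove_range _) I₀))
  exact le_mul_of_one_le_right (by positivity) hI

lemma sum_log_norm_le (N : ℤ) (hN : N ≠ 0) (S : Finset Nat.Primes) :
    ∑ p ∈ S, -Real.log ‖(N : ℤ_[p])‖ ≤ Real.log |(N : ℝ)| := by
  rw [CovB_sum N hN, CovB_logN]
  refine (Finset.sum_le_sum_of_subset_of_nonneg (Finset.subset_union_right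
    (s₁ := N.natAbs.factorization.support)) fun q _ _ => by positivity).trans (le_of_eq ?_)
  exact (Finset.sum_subset Finset.subset_union_left fun q _ hq => by
    simp [Finsupp.notMem_support_iff.1 hq]).symm

lemma sum_log_norm_eq (N : ℤ) (hN : N ≠ 0) (S : Finset Nat.Primes)
    (hS : ∀ p : Nat.Primes, ((p : ℕ) : ℤ) ∣ N → p ∈ S) :
    ∑ p ∈ S, -Real.log ‖(N : ℤ_[p])‖ = Real.log |(N : ℝ)| := by
  rw [CovB_sum N hN, CovB_logN]
  refine (Finset.sum_subset (fun q hq => ?_) fun q _ hq => by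
    simp [Finsupp.notMem_support_iff.1 hq]).symm
  rw [Nat.support_factorization, Nat.mem_primeFactors] at hq
  exact Finset.mem_map.2 ⟨⟨q, hq.1⟩, hS _ (Int.natCast_dvd.2 hq.2.1), rfl⟩

end Pool.Agent.Work.MP_913e71_al.Pos
end

-- merged part: Pool.Agent.Work.MP_913e71_al.Pos.Gauss
section
/-! Maxima of a family of `p`-adic polynomials on discs.

PLAN.  For one polynomial `f` of degree `≤ N < p` let `g (T) = f (y + p ^ ρ T)` and `‖g‖` the largest
norm of a coefficient.  If `g ≠ 0`, `g = a h` with `‖a‖ = ‖g‖` and `h` nonzero modulo `p`; `h` has at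
most `N` roots modulo `p`, and `‖g (j + p z)‖ = ‖g‖` when `j` is not a root.  So the supremum over
the disc is `‖g‖`.  The polynomial `h (j + T)` is nonzero modulo `p`, so some coefficient of index
`i ≤ N` is a unit and `‖h (j + p T)‖ ≥ p⁻ⁱ`.  For the family take `I` with the largest `‖g I‖`. -/

namespace Pool.Agent.Work.MP_913e71_al.Pos

open Polynomial

variable {p : ℕ} [Fact p.Prime] {ι : Type} [Fintype ι]

/-- The largest norm of the values at `y`. -/
noncomputable def nrm (f : ι → ℤ_[p][X]) (y : ℤ) : ℝ := ⨆ I, ‖(f I).eval (y : ℤ_[p])‖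

/-- The supremum of `nrm` over the disc `y + p ^ ρ ℤ`. -/
noncomputable def hat (f : ι → ℤ_[p][X]) (y : ℤ) (ρ : ℕ) : ℝ :=
  ⨆ z : ℤ, nrm f (y + (p : ℤ) ^ ρ * z)

lemma Gauss_zero (x : ℤ_[p]) : PadicInt.toZMod x = 0 ↔ (p : ℤ_[p]) ∣ x := by
  rw [← RingHom.mem_ker, PadicInt.ker_toZMod, PadicInt.maximalIdeal_eq_span_p,
    Ideal.mem_span_singleton]

lemma Gauss_unit {x : ℤ_[p]} (h : PadicInt.toZMod x ≠ 0) : ‖x‖ = 1 :=
  le_antisymm x.norm_le_one (not_lt.1 fun h' =>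
    h ((Gauss_zero x).2 ((PadicInt.norm_lt_one_iff_dvd x).1 h')))

lemma Gauss_one (g : ℤ_[p][X]) {N : ℕ} (hg : g.natDegree ≤ N) : ∃ A : ℝ,
    (∀ x, ‖g.eval x‖ ≤ A) ∧ (∀ e, ‖g.coeff e‖ ≤ A) ∧ (∃ e ≤ N, A ≤ ‖g.coeff e‖) ∧
      ∃ bad : Finset ℕ, bad.card ≤ N ∧ ∀ j < p, j ∉ bad → ∀ z : ℤ_[p],
        ‖g.eval (j + p * z)‖ = A := by
  classical
  obtain ⟨i⟩ : Nonempty (NormalizedGCDMonoid ℤ_[p]) := inferInstance
  obtain ⟨a, h, rfl, h1, h2⟩ : ∃ (a : ℤ_[p]) (h : ℤ_[p][X]), g = C a * h ∧ h.IsPrimitive ∧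
      h.natDegree ≤ N := ⟨_, _, g.eq_C_content_mul_primPart, g.isPrimitive_primPart,
    g.natDegree_primPart.trans_le hg⟩
  have h3 : h.map PadicInt.toZMod ≠ 0 := fun e => PadicInt.irreducible_p.not_isUnit (h1 _
    ((C_dvd_iff_dvd_coeff _ _).2 fun i => (Gauss_zero _).1 (by rw [← coeff_map, e, coeff_zero])))
  have le : ∀ x : ℤ_[p], ‖a * x‖ ≤ ‖a‖ := fun x => by
    rw [norm_mul]
    exact mul_le_of_le_one_right (norm_nonneg _) x.norm_le_one
  refine ⟨‖a‖, fun x => ?_, fun e => ?_, ⟨(h.map PadicInt.toZMod).natDegree,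
    natDegree_map_le.trans h2, ?_⟩, (h.map PadicInt.toZMod).roots.toFinset.image ZMod.val, ?_,
    fun j hj hb z => ?_⟩
  · rw [eval_mul, eval_C]
    exact le _
  · rw [coeff_C_mul]
    exact le _
  · rw [coeff_C_mul, norm_mul, Gauss_unit (x := h.coeff _), mul_one]
    rw [← coeff_map]
    exact leadingCoeff_ne_zero.2 h3
  · exact Finset.card_image_le.trans ((Multiset.toFinset_card_le _).trans
      ((card_roots' _).trans (natDegree_map_le.trans h2)))
  · rw [eval_mul, eval_C, norm_mul, Gauss_unit (x := h.eval _), mul_one]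
    intro e
    refine hb (Finset.mem_image.2 ⟨j, ?_, ZMod.val_natCast_of_lt hj⟩)
    rw [← eval₂_at_apply, ← eval_map] at e
    simpa [h3] using e

lemma Gauss_coeff (g : ℤ_[p][X]) {N : ℕ} (hN : N < p) (hg : g.natDegree ≤ N) (e : ℕ) :
    ∃ z : ℕ, ‖g.coeff e‖ ≤ ‖g.eval (z : ℤ_[p])‖ := by
  obtain ⟨A, -, h1, -, bad, h2, h3⟩ := Gauss_one g hg
  obtain ⟨j, j1, j2⟩ := Finset.exists_mem_notMem_of_card_lt_card (s := bad) (t := Finset.range p)
    (by rw [Finset.card_range]; omega)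
  have := h3 j (Finset.mem_range.1 j1) j2 0
  rw [mul_zero, add_zero] at this
  exact ⟨j, this ▸ h1 e⟩

lemma Gauss_deg {g : ℤ_[p][X]} {N : ℕ} (hg : g.natDegree ≤ N) (a b : ℤ_[p]) :
    (g.comp (C a * X + C b)).natDegree ≤ N :=
  natDegree_comp_le.trans ((Nat.mul_le_mul hg natDegree_linear_le).trans_eq (mul_one N))

lemma Gauss_step (g : ℤ_[p][X]) {N : ℕ} (hN : N < p) (hg : g.natDegree ≤ N) (x j : ℤ_[p]) :
    ∃ z : ℕ, ‖g.eval x‖ ≤ (p : ℝ) ^ N * ‖g.eval (j + p * z)‖ := by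
  have hp : (1 : ℝ) ≤ p := by exact_mod_cast (Fact.out : p.Prime).one_le
  obtain ⟨A, h1, -, ⟨e, e1, e2⟩, -⟩ := Gauss_one _ (Gauss_deg hg 1 j)
  have d := Gauss_deg (Gauss_deg hg 1 j) p 0
  rw [C_0, add_zero] at d
  obtain ⟨z, hz⟩ := Gauss_coeff _ hN d e
  refine ⟨z, ?_⟩
  have h2 := (h1 (x - j)).trans e2
  rw [comp_C_mul_X_coeff, norm_mul, norm_pow, PadicInt.norm_p, inv_pow, ← div_eq_mul_inv,
    div_le_iff₀ (by positivity)] at hz
  simp only [eval_comp, eval_add, eval_mul, eval_C, eval_X, one_mul, sub_add_cancel] at h2 hz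
  rw [add_comm j, mul_comm ((p : ℝ) ^ N)]
  exact h2.trans (hz.trans
    (mul_le_mul_of_nonneg_left (pow_le_pow_right₀ hp e1) (norm_nonneg _)))

lemma Gauss_le_nrm (f : ι → ℤ_[p][X]) (y : ℤ) (I : ι) : ‖(f I).eval (y : ℤ_[p])‖ ≤ nrm f y :=
  le_ciSup (f := fun I => ‖(f I).eval (y : ℤ_[p])‖) (Finite.bddAbove_range _) I

lemma Gauss_le_hat (f : ι → ℤ_[p][X]) (y : ℤ) (ρ : ℕ) (z : ℤ) :
    nrm f (y + (p : ℤ) ^ ρ * z) ≤ hat f y ρ :=
  le_ciSup (f := fun z : ℤ => nrm f (y + (p : ℤ) ^ ρ * z)) ⟨1, by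
    rintro _ ⟨z, rfl⟩
    exact Real.iSup_le (fun _ => PadicInt.norm_le_one _) zero_le_one⟩ z

lemma Gauss_ev_le (f : ι → ℤ_[p][X]) (y : ℤ) (ρ : ℕ) (z : ℤ) (I : ι) :
    ‖(f I).eval ((y : ℤ_[p]) + (p : ℤ_[p]) ^ ρ * z)‖ ≤ hat f y ρ := by
  exact_mod_cast (Gauss_le_nrm f (y + (p : ℤ) ^ ρ * z) I).trans (Gauss_le_hat f y ρ z)

lemma Gauss_hat_le (f : ι → ℤ_[p][X]) (y : ℤ) (ρ : ℕ) {B : ℝ} (hB : 0 ≤ B)
    (h : ∀ I (z : ℤ), ‖(f I).eval ((y : ℤ_[p]) + (p : ℤ_[p]) ^ ρ * z)‖ ≤ B) : hat f y ρ ≤ B :=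
  ciSup_le fun z => Real.iSup_le (fun I => by exact_mod_cast h I z) hB

lemma nrm_nonneg (f : ι → ℤ_[p][X]) (y : ℤ) : 0 ≤ nrm f y := by
  exact Real.iSup_nonneg fun _ => norm_nonneg _

lemma nrm_le_hat (f : ι → ℤ_[p][X]) {y y' : ℤ} {ρ : ℕ} (h : y' ≡ y [ZMOD (p : ℤ) ^ ρ]) :
    nrm f y' ≤ hat f y ρ := by
  obtain ⟨z, hz⟩ := h.symm.dvd
  rw [eq_add_of_sub_eq' hz]
  exact Gauss_le_hat f y ρ z

lemma hat_mono (f : ι → ℤ_[p][X]) {y y' : ℤ} {ρ ρ' : ℕ} (hρ : ρ ≤ ρ')
    (h : y' ≡ y [ZMOD (p : ℤ) ^ ρ]) : hat f y' ρ' ≤ hat f y ρ := by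
  refine ciSup_le fun z => nrm_le_hat f (Int.ModEq.trans ?_ h)
  exact (Int.modEq_iff_dvd.2 (by simpa using (pow_dvd_pow (p : ℤ) hρ).mul_right z)).symm

lemma hat_good (f : ι → ℤ_[p][X]) {N : ℕ} (hN : N < p) (hf : ∀ I, (f I).natDegree ≤ N) (y : ℤ)
    (ρ : ℕ) : ∃ bad : Finset ℕ, bad.card ≤ N ∧ ∀ j < p, j ∉ bad → ∀ z : ℤ,
      nrm f (y + (p : ℤ) ^ ρ * (j + p * z)) = hat f y ρ := by
  rcases isEmpty_or_nonempty ι with h | h
  · exact ⟨∅, Nat.zero_le _, fun _ _ _ _ => by simp [hat, nrm]⟩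
  choose A h1 _ _ bad h2 h3 using fun I => Gauss_one _ (Gauss_deg (hf I) ((p : ℤ_[p]) ^ ρ) y)
  simp only [eval_comp, eval_add, eval_mul, eval_C, eval_X, add_comm _ (y : ℤ_[p])] at h1 h3
  obtain ⟨I, hI⟩ := Finite.exists_max A
  refine ⟨bad I, h2 I, fun j hj hb z => le_antisymm (Gauss_le_hat f y ρ _) ?_⟩
  have e : A I ≤ nrm f (y + (p : ℤ) ^ ρ * (j + p * z)) := by
    rw [← h3 I j hj hb z]
    exact_mod_cast Gauss_le_nrm f (y + (p : ℤ) ^ ρ * (j + p * z)) I
  exact Gauss_hat_le f y ρ (nrm_nonneg _ _) fun J w => (h1 J w).trans ((hI J).trans e)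

lemma hat_step (f : ι → ℤ_[p][X]) {N : ℕ} (hN : N < p) (hf : ∀ I, (f I).natDegree ≤ N) (y : ℤ)
    (ρ : ℕ) (j : ℤ) : hat f y ρ ≤ (p : ℝ) ^ N * hat f (y + (p : ℤ) ^ ρ * j) (ρ + 1) := by
  have h0 : 0 ≤ hat f (y + (p : ℤ) ^ ρ * j) (ρ + 1) :=
    (nrm_nonneg _ _).trans (Gauss_le_hat f _ _ 0)
  refine Gauss_hat_le f y ρ (by positivity) fun I z => ?_
  obtain ⟨w, hw⟩ := Gauss_step _ hN (Gauss_deg (hf I) ((p : ℤ_[p]) ^ ρ) y) z j
  simp only [eval_comp, eval_add, eval_mul, eval_C, eval_X, add_comm _ (y : ℤ_[p])] at hw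
  refine hw.trans (mul_le_mul_of_nonneg_left (le_of_eq_of_le ?_
    (Gauss_ev_le f (y + (p : ℤ) ^ ρ * j) (ρ + 1) w I)) (by positivity))
  push_cast
  ring_nf

lemma hat_term (f : ι → ℤ_[p][X]) {y : ℤ} {ρ : ℕ} (h : 1 / (p : ℝ) ^ ρ ≤ nrm f y) :
    hat f y ρ ≤ nrm f y := by
  refine Gauss_hat_le f y ρ (nrm_nonneg _ _) fun I z => ?_
  obtain ⟨c, hc⟩ := sub_dvd_eval_sub ((y : ℤ_[p]) + (p : ℤ_[p]) ^ ρ * z) y (f I)
  rw [eq_add_of_sub_eq' hc, add_sub_cancel_left, mul_assoc]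
  refine (PadicInt.nonarchimedean _ _).trans (max_le (Gauss_le_nrm f y I) (le_trans ?_ h))
  rw [norm_mul, norm_pow, PadicInt.norm_p, inv_pow, one_div]
  exact mul_le_of_le_one_right (by positivity) (PadicInt.norm_le_one _)

lemma coeff_le_hat (f : ι → ℤ_[p][X]) {N : ℕ} (hN : N < p) (hf : ∀ I, (f I).natDegree ≤ N)
    (a e : ℕ) (I : ι) : ‖(f I).coeff e‖ / (p : ℝ) ^ (a * e) ≤ hat f 0 a := by
  have d := Gauss_deg (hf I) ((p : ℤ_[p]) ^ a) 0
  rw [C_0, add_zero] at d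
  obtain ⟨z, hz⟩ := Gauss_coeff _ hN d e
  rw [comp_C_mul_X_coeff, ← pow_mul, norm_mul, norm_pow, PadicInt.norm_p, inv_pow,
    ← div_eq_mul_inv] at hz
  refine hz.trans ?_
  simpa using Gauss_ev_le f 0 a z I

lemma hat_le_of_dvd (f : ι → ℤ_[p][X]) {μ : ℕ} (h : ∀ I, X ^ μ ∣ f I) (a : ℕ) :
    hat f 0 a ≤ 1 / (p : ℝ) ^ (a * μ) := by
  refine Gauss_hat_le f 0 a (by positivity) fun I z => ?_
  obtain ⟨q, hq⟩ := h I
  rw [hq, eval_mul, eval_pow, eval_X, Int.cast_zero, zero_add, mul_pow, ← pow_mul, mul_assoc,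
    norm_mul, norm_pow, PadicInt.norm_p, inv_pow, one_div]
  exact mul_le_of_le_one_right (by positivity) (PadicInt.norm_le_one _)

end Pool.Agent.Work.MP_913e71_al.Pos
end

-- merged part: Pool.Agent.Work.MP_913e71_al.Pos.LDefs
section
/-! Local data at a prime and the lattice they define. -/

namespace Pool.Agent.Work.MP_913e71_al.Pos

open Matrix Polynomial Module

/-- A type specialised to the `p`-adic integers. -/
structure Loc (n : ℕ) (s : Fin n → Fin n → Fin n → ℤ) where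
  p : Nat.Primes
  G : Matrix (Fin n) (Fin n) ℤ_[p][X]
  κ : ℕ
  e : ℕ
  u : ℤ_[p][X]
  hdet : G.det = X ^ κ * u
  hu : ‖u.coeff 0‖ = 1
  hLie : ∀ i j l, X ^ (κ + e) ∣ (G.adjugate *ᵥ br s (G.col i) (G.col j)) l

variable {n : ℕ} {s : Fin n → Fin n → Fin n → ℤ}

/-- The maximal minors of `adj G * b`, `b` the chosen basis of the integer points of `W`. -/
noncomputable def Loc.fam (D : Loc n s) (W : Submodule ℚ (Fin n → ℚ)) :
    (Fin (finrank ℤ (LW ⊤ W)) → Fin n) → ℤ_[D.p][X] :=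
  fun I => mnr (D.G.adjugate * (zbas (LW ⊤ W)).map (Int.cast : ℤ → ℤ_[D.p][X])) I

/-- The local contribution at the point `y`. -/
noncomputable def Loc.del (D : Loc n s) (a : ℕ) (y : ℤ) (W : Submodule ℚ (Fin n → ℚ)) : ℝ :=
  finrank ℚ W * ((D.κ : ℝ) - D.e) * a * Real.log (D.p : ℕ) + Real.log (nrm (D.fam W) y)

/-- The local contribution at a disc. -/
noncomputable def Loc.delh (D : Loc n s) (a : ℕ) (y : ℤ) (ρ : ℕ)
    (W : Submodule ℚ (Fin n → ℚ)) : ℝ :=
  finrank ℚ W * ((D.κ : ℝ) - D.e) * a * Real.log (D.p : ℕ) + Real.log (hat (D.fam W) y ρ)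

/-- The local contribution at the starting disc `p ^ a + p ^ (a + 1) ℤ`. -/
noncomputable def Loc.top (D : Loc n s) (a : ℕ) (W : Submodule ℚ (Fin n → ℚ)) : ℝ :=
  D.delh a (((D.p : ℕ) : ℤ) ^ a) (a + 1) W

/-- The lattice cut out by a family of local data at the points `y`. -/
def lat {P : Type} (D : P → Loc n s) (y : P → ℤ) : Submodule ℤ (Fin n → ℤ) where
  carrier := {v | ∀ π, ∃ w, ((D π).G.map (eval (y π : ℤ_[(D π).p]))) *ᵥ w =
    fun i => (v i : ℤ_[(D π).p])}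
  zero_mem' := fun π => ⟨0, by ext; simp⟩
  add_mem' := fun {a b} ha hb π => by
    obtain ⟨w, hw⟩ := ha π
    obtain ⟨w', hw'⟩ := hb π
    exact ⟨w + w', by rw [Matrix.mulVec_add, hw, hw']; ext; simp⟩
  smul_mem' := fun c v hv π => by
    obtain ⟨w, hw⟩ := hv π
    exact ⟨(c : ℤ_[(D π).p]) • w, by rw [Matrix.mulVec_smul, hw]; ext; simp⟩

end Pool.Agent.Work.MP_913e71_al.Pos
end

-- merged part: Pool.Agent.Work.MP_913e71_al.Pos.Lat
section
/-! The lattice cut out by local data.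

PLAN.  For `a ≥ 1` and `y ≡ p ^ a` modulo `p ^ (a + 1)`: `‖y‖ = p⁻ᵃ`, `u (y)` is a unit,
`‖det G(y)‖ = p ^ (-a κ)`.  `∏ p ^ (a κ)` multiplies `ℤ ^ n` into the lattice.  Bracket: for
`x = G w`, `x' = G w'`, `br x x' = ∑ w i * w' j • br (G i) (G j)`; `adj G * br = y ^ (κ + e) z` gives
`u • br = y ^ e • G z`; so the integer vector `br x x'` is divisible by each `p ^ (a e)`, hence by
`Q`, and the quotient is in the lattice (`Q = p ^ (a e) * unit`).  Covolume: `exists_change`,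
`cov_eq`, `sz_mul`, `local_index` at the primes of the family (`h2` holds since `p` is a unit at the
other primes), `local_index` with `G = 1` or a direct argument at the other primes (`det Y` divides a
power of `∏ p`), `sum_log_norm_eq`; `IsBas.rat`, `IsBas.card_eq` for the rank. -/

namespace Pool.Agent.Work.MP_913e71_al.Pos

open Matrix Polynomial Module

variable {n : ℕ} {s : Fin n → Fin n → Fin n → ℤ} {P : Type} [Fintype P] (D : P → Loc n s)
  (a : P → ℕ) (y : P → ℤ)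

/-- The matrix at the point `y`. -/
noncomputable abbrev Lat_G (D : Loc n s) (y : ℤ) : Matrix (Fin n) (Fin n) ℤ_[D.p] :=
  D.G.map (eval (y : ℤ_[D.p]))

lemma Lat_y {p a : ℕ} [Fact p.Prime] {y : ℤ} (hy : y ≡ (p : ℤ) ^ a [ZMOD (p : ℤ) ^ (a + 1)]) :
    ∃ v : ℤ_[p], IsUnit v ∧ (y : ℤ_[p]) = p ^ a * v := by
  obtain ⟨z, hz⟩ := hy.dvd
  refine ⟨1 - p * z, IsLocalRing.isUnit_one_sub_self_of_mem_nonunits _
    (mul_mem_nonunits_left PadicInt.p_nonunit), ?_⟩
  have h1 : y = (p : ℤ) ^ a * (1 - p * z) := by linear_combination -hz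
  rw [h1]
  push_cast
  rfl

lemma Lat_u (D : Loc n s) {a : ℕ} (ha : 1 ≤ a) {y : ℤ}
    (hy : y ≡ ((D.p : ℕ) : ℤ) ^ a [ZMOD ((D.p : ℕ) : ℤ) ^ (a + 1)]) :
    IsUnit (D.u.eval (y : ℤ_[D.p])) := by
  obtain ⟨v, -, hv⟩ := Lat_y hy
  have h1 : D.u.coeff 0 = D.u.eval (y : ℤ_[D.p]) + -(y * D.u.divX.eval (y : ℤ_[D.p])) := by
    have h := congrArg (eval (y : ℤ_[D.p])) D.u.X_mul_divX_add
    rw [eval_add, eval_mul, eval_X, eval_C] at h
    linear_combination h
  have h2 := PadicInt.isUnit_iff.2 D.hu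
  rw [h1] at h2
  refine (IsLocalRing.isUnit_or_isUnit_of_isUnit_add h2).resolve_right fun h => ?_
  rw [IsUnit.neg_iff, hv] at h
  exact PadicInt.p_nonunit ((isUnit_pow_iff (by omega)).1
    (isUnit_of_mul_isUnit_left (isUnit_of_mul_isUnit_left h)))

lemma Lat_det0 (D : Loc n s) (y : ℤ) :
    (Lat_G D y).det = (y : ℤ_[D.p]) ^ D.κ * D.u.eval (y : ℤ_[D.p]) := by
  have h := RingHom.map_det (evalRingHom (y : ℤ_[D.p])) D.G
  rw [D.hdet] at h
  refine h.symm.trans ?_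
  simp

lemma Lat_det (D : Loc n s) {a : ℕ} (ha : 1 ≤ a) {y : ℤ}
    (hy : y ≡ ((D.p : ℕ) : ℤ) ^ a [ZMOD ((D.p : ℕ) : ℤ) ^ (a + 1)]) :
    ∃ U : ℤ_[D.p], IsUnit U ∧ (Lat_G D y).det = ((D.p : ℕ) : ℤ_[D.p]) ^ (D.κ * a) * U := by
  obtain ⟨v, h, hv⟩ := Lat_y hy
  refine ⟨v ^ D.κ * D.u.eval (y : ℤ_[D.p]), (h.pow _).mul (Lat_u D ha hy), ?_⟩
  rw [Lat_det0, ← mul_assoc, mul_comm D.κ, pow_mul, ← mul_pow, ← hv]

lemma Lat_pos (l : Nat.Primes) : (0 : ℝ) < (l : ℕ) := by exact_mod_cast l.2.pos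

lemma Lat_norm (D : Loc n s) {a : ℕ} (ha : 1 ≤ a) {y : ℤ}
    (hy : y ≡ ((D.p : ℕ) : ℤ) ^ a [ZMOD ((D.p : ℕ) : ℤ) ^ (a + 1)]) :
    ‖(Lat_G D y).det‖ = 1 / ((D.p : ℕ) : ℝ) ^ (D.κ * a) := by
  obtain ⟨U, h, hU⟩ := Lat_det D ha hy
  rw [hU, norm_mul, PadicInt.isUnit_iff.1 h, mul_one, PadicInt.norm_p_pow, _root_.zpow_neg,
    _root_.zpow_natCast, one_div]

lemma Lat_ne (D : Loc n s) {a : ℕ} (ha : 1 ≤ a) {y : ℤ}
    (hy : y ≡ ((D.p : ℕ) : ℤ) ^ a [ZMOD ((D.p : ℕ) : ℤ) ^ (a + 1)]) : (Lat_G D y).det ≠ 0 := by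
  rw [← norm_pos_iff, Lat_norm D ha hy]
  have := Lat_pos D.p
  positivity

lemma Lat_adj (D : Loc n s) (y : ℤ) :
    (Lat_G D y).adjugate = D.G.adjugate.map (evalRingHom (y : ℤ_[D.p])) :=
  (RingHom.map_adjugate (evalRingHom (y : ℤ_[D.p])) D.G).symm

lemma Lat_nrm (D : Loc n s) (y : ℤ) (W : Submodule ℚ (Fin n → ℚ)) : nrm (D.fam W) y =
    ⨆ I, ‖mnr ((Lat_G D y).adjugate * (zbas (LW ⊤ W)).map (Int.cast : ℤ → ℤ_[D.p])) I‖ := by
  refine congrArg iSup (funext fun I => congrArg norm ?_)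
  refine (mnr_map (evalRingHom (y : ℤ_[D.p])) _ I).symm.trans ?_
  rw [Matrix.map_mul, Lat_adj, Matrix.map_map]
  refine congrArg (fun M => mnr (_ * M) I) (Matrix.ext fun i j => ?_)
  simp

lemma Lat_div {R : Type} [CommRing R] {G : Matrix (Fin n) (Fin n) R} {c : R} (hc : IsUnit c)
    {v w : Fin n → R} (h : G *ᵥ w = c • v) : ∃ w, G *ᵥ w = v := by
  obtain ⟨c, rfl⟩ := hc
  exact ⟨(c⁻¹ : Rˣ).val • w, by rw [Matrix.mulVec_smul, h, smul_smul, c.inv_mul, one_smul]⟩

lemma Lat_unit {l l' : Nat.Primes} (h : l ≠ l') : IsUnit ((l : ℕ) : ℤ_[l']) :=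
  PadicInt.isUnit_iff.2 (PadicInt.norm_natCast_eq_one_iff.2
    ((Nat.coprime_primes l'.2 l.2).2 fun e => h (Subtype.ext e).symm))

omit [Fintype P] in
lemma Lat_sat {l : Nat.Primes} {v : Fin n → ℤ} (hv : ((l : ℕ) : ℤ) • v ∈ lat D y) (π : P)
    (h : l ≠ (D π).p) : ∃ w, Lat_G (D π) (y π) *ᵥ w = fun i => (v i : ℤ_[(D π).p]) := by
  obtain ⟨w, hw⟩ := hv π
  refine Lat_div (Lat_unit h) (hw.trans (funext fun i => ?_))
  simp

lemma Lat_full (ha : ∀ π, 1 ≤ a π)
    (hy : ∀ π, y π ≡ (((D π).p : ℕ) : ℤ) ^ a π [ZMOD (((D π).p : ℕ) : ℤ) ^ (a π + 1)]) :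
    Full (lat D y) := by
  refine ⟨∏ π, ((D π).p : ℕ) ^ ((D π).κ * a π),
    Finset.prod_pos fun π _ => pow_pos (D π).p.2.pos _, fun v π => ?_⟩
  obtain ⟨N, hN⟩ := Finset.dvd_prod_of_mem (fun π => ((D π).p : ℕ) ^ ((D π).κ * a π))
    (Finset.mem_univ π)
  obtain ⟨U, h, hU⟩ := Lat_det (D π) (ha π) (hy π)
  refine Lat_div h (w := (N : ℤ_[(D π).p]) •
    ((Lat_G (D π) (y π)).adjugate *ᵥ fun i => (v i : ℤ_[(D π).p]))) ?_
  rw [Matrix.mulVec_smul, Matrix.mulVec_mulVec, Matrix.mul_adjugate, Matrix.smul_mulVec,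
    Matrix.one_mulVec, hU, hN]
  funext i
  simp only [Pi.smul_apply, smul_eq_mul]
  push_cast
  ring

lemma Lat_rank (W : Submodule ℚ (Fin n → ℚ)) :
    Fintype.card (Fin (finrank ℤ (LW ⊤ W))) = finrank ℚ W :=
  (IsBas.rat full_top (isBas_zbas _)).card_eq

omit [Fintype P] in
lemma Lat_loc {ι : Type} [Fintype ι] [DecidableEq ι] (hinj : Function.Injective fun π => (D π).p)
    (ha : ∀ π, 1 ≤ a π)
    (hy : ∀ π, y π ≡ (((D π).p : ℕ) : ℤ) ^ a π [ZMOD (((D π).p : ℕ) : ℤ) ^ (a π + 1)])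
    {W : Submodule ℚ (Fin n → ℚ)} {b : Matrix (Fin n) ι ℤ} {Y : Matrix ι ι ℤ}
    (hY : IsBas (LW (lat D y) W) (b * Y)) (π : P) :
    ‖(Y.det : ℤ_[(D π).p])‖ * (⨆ I, ‖mnr ((Lat_G (D π) (y π)).adjugate *
      b.map (Int.cast : ℤ → ℤ_[(D π).p])) I‖) = ‖(Lat_G (D π) (y π)).det‖ ^ Fintype.card ι := by
  refine local_index (L := lat D y) _ _ (Lat_ne (D π) (ha π) (hy π)) (fun v hv => hv π)
    (fun v h1 h2 π' => ?_) b Y hY
  by_cases h : π = π'
  · subst h
    exact h1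
  · exact Lat_sat D y h2 π' fun e => h (hinj e)

lemma Lat_log {ι : Type} [Fintype ι] [DecidableEq ι] (hinj : Function.Injective fun π => (D π).p)
    {W : Submodule ℚ (Fin n → ℚ)} {b : Matrix (Fin n) ι ℤ} {Y : Matrix ι ι ℤ} (h0 : Y.det ≠ 0)
    (hY : IsBas (LW (lat D y) W) (b * Y)) :
    Real.log |(Y.det : ℝ)| = ∑ π, -Real.log ‖(Y.det : ℤ_[(D π).p])‖ := by
  refine (sum_log_norm_eq _ h0 (Finset.univ.map ⟨_, hinj⟩) fun l hl => ?_).symm.trans
    (Finset.sum_map _ _ _)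
  by_contra hn
  have h1 := local_index (L := lat D y) l 1 (by simp) (fun v _ => ⟨_, Matrix.one_mulVec _⟩)
    (fun v _ h2 π => Lat_sat D y h2 π fun e =>
      hn (Finset.mem_map.2 ⟨π, Finset.mem_univ _, e.symm⟩)) b Y hY
  rw [Matrix.det_one, norm_one, one_pow] at h1
  have h2 := (PadicInt.norm_int_lt_one_iff_dvd (p := l) _).2 hl
  have h3 := mul_le_of_le_one_right (norm_nonneg (Y.det : ℤ_[l])) (Real.iSup_le
    (f := fun I => ‖mnr ((1 : Matrix (Fin n) (Fin n) ℤ_[l]).adjugate *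
      b.map (Int.cast : ℤ → ℤ_[l])) I‖) (fun I => PadicInt.norm_le_one _) zero_le_one)
  linarith

lemma Lat_map {R S : Type} [CommRing R] [CommRing S] (f : R →+* S) (x x' : Fin n → R) :
    f ∘ br s x x' = br s (f ∘ x) (f ∘ x') := by
  funext l
  simp [br]

lemma Lat_cast {S : Type} [CommRing S] (x x' : Fin n → ℤ) : (fun l => ((br s x x' l : ℤ) : S)) =
    br s (fun i => (x i : S)) fun i => (x' i : S) := Lat_map (Int.castRingHom S) x x'

lemma Lat_bil {R : Type} [CommRing R] (A : Matrix (Fin n) (Fin n) R) (w w' : Fin n → R) :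
    br s (A *ᵥ w) (A *ᵥ w') = ∑ i, ∑ j, (w i * w' j) • br s (A.col i) (A.col j) := by
  let B : (Fin n → R) →ₗ[R] (Fin n → R) →ₗ[R] (Fin n → R) := LinearMap.mk₂ R (br s)
    (fun _ _ _ => funext fun l => by simp [br, add_mul, Finset.sum_add_distrib])
    (fun _ _ _ => funext fun l => by simp [br, Finset.mul_sum, mul_assoc])
    (fun _ _ _ => funext fun l => by simp [br, mul_add, add_mul, Finset.sum_add_distrib])
    (fun _ _ _ => funext fun l => by simp [br, Finset.mul_sum, mul_assoc, mul_left_comm])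
  have e : ∀ w, A *ᵥ w = ∑ i, w i • A.col i := fun w => funext fun k => by
    simp [Matrix.mulVec, dotProduct, Finset.sum_apply, mul_comm]
  change B _ _ = ∑ i, ∑ j, (w i * w' j) • B (A.col i) (A.col j)
  rw [e w, e w']
  simp only [map_sum, map_smul, LinearMap.sum_apply, LinearMap.smul_apply, Finset.smul_sum,
    smul_smul]
  rw [Finset.sum_comm]
  simp only [mul_comm]

lemma Lat_br (D : Loc n s) {a : ℕ} (ha : 1 ≤ a) {y : ℤ}
    (hy : y ≡ ((D.p : ℕ) : ℤ) ^ a [ZMOD ((D.p : ℕ) : ℤ) ^ (a + 1)]) (w w' : Fin n → ℤ_[D.p]) :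
    ∃ z, br s (Lat_G D y *ᵥ w) (Lat_G D y *ᵥ w') =
      ((D.p : ℕ) : ℤ_[D.p]) ^ (D.e * a) • (Lat_G D y *ᵥ z) := by
  have h1 : ∀ i j l, (y : ℤ_[D.p]) ^ (D.κ + D.e) ∣
      ((Lat_G D y).adjugate *ᵥ br s ((Lat_G D y).col i) ((Lat_G D y).col j)) l := fun i j l => by
    have h := map_dvd (evalRingHom (y : ℤ_[D.p])) (D.hLie i j l)
    rw [RingHom.map_mulVec, Lat_map, ← Lat_adj, map_pow, coe_evalRingHom, eval_X] at h
    exact h
  have h2 : ∀ l, (y : ℤ_[D.p]) ^ (D.κ + D.e) ∣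
      ((Lat_G D y).adjugate *ᵥ br s (Lat_G D y *ᵥ w) (Lat_G D y *ᵥ w')) l := fun l => by
    rw [Lat_bil]
    simp only [Matrix.mulVec_sum, Matrix.mulVec_smul, Finset.sum_apply, Pi.smul_apply, smul_eq_mul]
    exact Finset.dvd_sum fun i _ => Finset.dvd_sum fun j _ => (h1 i j l).mul_left _
  choose z hz using h2
  have h3 := congrArg (Lat_G D y *ᵥ ·) (funext hz : _ = (y : ℤ_[D.p]) ^ (D.κ + D.e) • z)
  simp only [Matrix.mulVec_mulVec, Matrix.mul_adjugate, Matrix.smul_mulVec, Matrix.one_mulVec,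
    Matrix.mulVec_smul] at h3
  have h4 := Lat_ne D ha hy
  rw [Lat_det0] at h3 h4
  rw [pow_add, mul_smul, mul_smul] at h3
  have h5 := smul_right_injective _ (left_ne_zero_of_mul h4) h3
  obtain ⟨v, -, hv⟩ := Lat_y hy
  obtain ⟨u, hu⟩ := Lat_u D ha hy
  refine ⟨((u⁻¹ : ℤ_[D.p]ˣ).val * v ^ D.e) • z, ?_⟩
  rw [Matrix.mulVec_smul, smul_smul, mul_left_comm, mul_comm D.e, pow_mul, ← mul_pow, ← hv,
    mul_smul, ← h5, ← hu, smul_smul, u.inv_mul, one_smul]

lemma Loc.nrm_ge (D : Loc n s) {a : ℕ} (ha : 1 ≤ a) {y : ℤ}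
    (hy : y ≡ ((D.p : ℕ) : ℤ) ^ a [ZMOD ((D.p : ℕ) : ℤ) ^ (a + 1)]) (W : Submodule ℚ (Fin n → ℚ)) :
    1 / ((D.p : ℕ) : ℝ) ^ (finrank ℚ W * D.κ * a) ≤ nrm (D.fam W) y := by
  obtain ⟨Y, -, hY⟩ := exists_change (Lat_full (fun _ : Unit => D) (fun _ => a) (fun _ => y)
    (fun _ => ha) fun _ => hy) (isBas_zbas (LW ⊤ W))
  have h := Lat_loc (fun _ : Unit => D) (fun _ => a) (fun _ => y)
    (fun _ _ _ => rfl) (fun _ => ha) (fun _ => hy) hY ()
  rw [← Lat_nrm, Lat_norm D ha hy, Lat_rank, _root_.one_div_pow, ← pow_mul] at h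
  rw [mul_assoc, mul_comm, ← h]
  exact mul_le_of_le_one_left (nrm_nonneg _ _) (PadicInt.norm_le_one _)

lemma lat_full (ha : ∀ π, 1 ≤ a π)
    (hy : ∀ π, y π ≡ (((D π).p : ℕ) : ℤ) ^ a π [ZMOD (((D π).p : ℕ) : ℤ) ^ (a π + 1)]) :
    Full (lat D y) := by
  exact Lat_full D a y ha hy

lemma lat_lie (hinj : Function.Injective fun π => (D π).p) (ha : ∀ π, 1 ≤ a π)
    (hy : ∀ π, y π ≡ (((D π).p : ℕ) : ℤ) ^ a π [ZMOD (((D π).p : ℕ) : ℤ) ^ (a π + 1)])
    {x x' : Fin n → ℤ} (hx : x ∈ lat D y) (hx' : x' ∈ lat D y) :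
    ∃ z ∈ lat D y, br s x x' = ((∏ π, ((D π).p : ℕ) ^ ((D π).e * a π) : ℕ) : ℤ) • z := by
  classical
  have h1 : ∀ π, ∃ z, (fun l => ((br s x x' l : ℤ) : ℤ_[(D π).p])) =
      (((D π).p : ℕ) : ℤ_[(D π).p]) ^ ((D π).e * a π) • (Lat_G (D π) (y π) *ᵥ z) := fun π => by
    obtain ⟨w, hw⟩ := hx π
    obtain ⟨w', hw'⟩ := hx' π
    obtain ⟨z, hz⟩ := Lat_br (D π) (ha π) (hy π) w w'
    exact ⟨z, (Lat_cast x x').trans ((congrArg₂ (br s) hw hw').symm.trans hz)⟩
  have h2 : ∀ l, ((∏ π, ((D π).p : ℕ) ^ ((D π).e * a π) : ℕ) : ℤ) ∣ br s x x' l := fun l => by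
    rw [Nat.cast_prod]
    refine Finset.prod_dvd_of_coprime (fun π _ π' _ h => ?_) fun π _ => ?_
    · have h5 : ((D π).p : ℕ).Coprime (D π').p := (Nat.coprime_primes (D π).p.2 (D π').p.2).2
        fun e => h (hinj (Subtype.ext e))
      exact Nat.isCoprime_iff_coprime.2 (Nat.Coprime.pow _ _ h5)
    · obtain ⟨z, hz⟩ := h1 π
      have h5 := congrFun hz l
      rw [Pi.smul_apply, smul_eq_mul] at h5
      rw [Nat.cast_pow]
      exact (PadicInt.pow_p_dvd_int_iff (p := (D π).p) _ _).1 ⟨_, h5⟩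
  choose z hz using h2
  refine ⟨z, fun π => ?_, funext hz⟩
  obtain ⟨w, hw⟩ := h1 π
  have h3 : IsUnit (∏ π' ∈ Finset.univ.erase π,
      (((D π').p : ℕ) : ℤ_[(D π).p]) ^ ((D π').e * a π')) :=
    IsUnit.prod_iff.2 fun π' h => (Lat_unit fun e => (Finset.mem_erase.1 h).1 (hinj e)).pow _
  have h4 : (((D π).p : ℕ) : ℤ_[(D π).p]) ^ ((D π).e * a π) ≠ 0 :=
    pow_ne_zero _ (Nat.cast_ne_zero.2 (D π).p.2.ne_zero)
  refine Lat_div h3 (smul_right_injective _ h4 (hw.symm.trans (funext fun l => ?_)))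
  rw [hz, ← Finset.mul_prod_erase _ _ (Finset.mem_univ π)]
  simp only [Pi.smul_apply, smul_eq_mul]
  push_cast
  ring

lemma lat_cov (hinj : Function.Injective fun π => (D π).p) (ha : ∀ π, 1 ≤ a π)
    (hy : ∀ π, y π ≡ (((D π).p : ℕ) : ℤ) ^ a π [ZMOD (((D π).p : ℕ) : ℤ) ^ (a π + 1)])
    (d : Fin n → ℕ) {r : ℝ} (hr : 0 < r) (W : Submodule ℚ (Fin n → ℚ)) :
    Real.log (cov d r (LW (lat D y) W)) -
        finrank ℚ W * Real.log (∏ π, ((D π).p : ℕ) ^ ((D π).e * a π) : ℕ) =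
      Real.log (cov d r (LW ⊤ W)) + ∑ π, (D π).del (a π) (y π) W := by
  obtain ⟨Y, h0, hY⟩ := exists_change (Lat_full D a y ha hy) (isBas_zbas (LW ⊤ W))
  have h1 : ∀ π, -Real.log ‖(Y.det : ℤ_[(D π).p])‖ = (D π).del (a π) (y π) W +
      finrank ℚ W * (((D π).e * a π : ℕ) * Real.log ((D π).p : ℕ)) := fun π => by
    have h := Lat_loc D a y hinj ha hy hY π
    rw [← Lat_nrm, Lat_norm (D π) (ha π) (hy π), Lat_rank] at h
    have p0 := Lat_pos (D π).p
    have h2 : ‖(Y.det : ℤ_[(D π).p])‖ * nrm ((D π).fam W) (y π) ≠ 0 := by rw [h]; positivity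
    have h3 := congrArg Real.log h
    rw [Real.log_mul (left_ne_zero_of_mul h2) (right_ne_zero_of_mul h2), Real.log_pow, one_div,
      Real.log_inv, Real.log_pow] at h3
    unfold Loc.del
    push_cast at h3 ⊢
    linear_combination -h3
  have h2 : (0 : ℝ) < |(Y.det : ℝ)| := abs_pos.2 (Int.cast_ne_zero.2 h0)
  rw [cov_eq d r hY, Cov_sz_mul, ← cov_eq d r (isBas_zbas _),
    Real.log_mul (cov_pos d hr _).ne' h2.ne', Lat_log D y hinj h0 hY, Nat.cast_prod,
    Real.log_prod fun π _ => Nat.cast_ne_zero.2 (pow_pos (D π).p.2.pos _).ne']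
  simp only [h1, Finset.sum_add_distrib, Nat.cast_pow, Real.log_pow, Finset.mul_sum]
  ring

lemma lat_index (hinj : Function.Injective fun π => (D π).p) (ha : ∀ π, 1 ≤ a π)
    (hy : ∀ π, y π ≡ (((D π).p : ℕ) : ℤ) ^ a π [ZMOD (((D π).p : ℕ) : ℤ) ^ (a π + 1)]) :
    (lat D y).toAddSubgroup.index = ∏ π, ((D π).p : ℕ) ^ ((D π).κ * a π) := by
  obtain ⟨Y, h0, hY⟩ := exists_square_basis (Lat_full D a y ha hy)
  have hY' : IsBas (LW (lat D y) ⊤) (1 * Y) := by rwa [LW_top, Matrix.one_mul]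
  have h1 : ∀ π, ‖(Y.det : ℤ_[(D π).p])‖ = 1 / (((D π).p : ℕ) : ℝ) ^ ((D π).κ * a π) := fun π => by
    have h := Lat_loc D a y hinj ha hy hY' π
    have g0 := norm_pos_iff.2 (Lat_ne (D π) (ha π) (hy π))
    rw [← Lat_norm (D π) (ha π) (hy π)]
    generalize Lat_G (D π) (y π) = G at h g0
    rw [Matrix.map_one _ Int.cast_zero Int.cast_one, Matrix.mul_one] at h
    have key : ∀ I : Fin n → Fin n, ‖mnr G.adjugate I‖ * ‖G.det‖ = ‖G.det‖ ^ Fintype.card (Fin n) *
        ‖mnr (1 : Matrix (Fin n) (Fin n) ℤ_[(D π).p]) I‖ := fun I => by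
      rw [← norm_mul, ← mnr_mul_right, Matrix.adjugate_mul, Mu_smul, norm_mul, norm_pow]
    have h2 : (⨆ I : Fin n → Fin n, ‖mnr G.adjugate I‖) * ‖G.det‖ =
        ‖G.det‖ ^ Fintype.card (Fin n) := by
      have : Nonempty (Fin n → Fin n) := ⟨id⟩
      rw [Real.iSup_mul_of_nonneg g0.le, funext key]
      refine le_antisymm (ciSup_le fun I => mul_le_of_le_one_right (by positivity)
        (PadicInt.norm_le_one _)) (le_trans ?_ (le_ciSup (Finite.bddAbove_range _) id))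
      simp [mnr]
    refine mul_right_cancel₀ (pow_pos g0 (Fintype.card (Fin n))).ne' ?_
    rw [← h2, ← mul_assoc, h, mul_comm, h2]
  have h2 : (0 : ℝ) < |(Y.det : ℝ)| := abs_pos.2 (Int.cast_ne_zero.2 h0)
  have h3 := Lat_log D y hinj h0 hY'
  simp only [h1, one_div, Real.log_inv, neg_neg] at h3
  rw [← Real.log_prod fun π _ => (pow_pos (Lat_pos (D π).p) _).ne'] at h3
  have h4 := Real.log_injOn_pos h2
    (Finset.prod_pos fun π _ => pow_pos (Lat_pos (D π).p) _) h3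
  rw [index_eq_det hY, ← Int.cast_abs, ← Nat.cast_natAbs] at *
  exact_mod_cast h4

end Pool.Agent.Work.MP_913e71_al.Pos
end

-- merged part: Pool.Agent.Work.MP_913e71_al.Pos.SubMod
section
/-! Almost submodular functions on a graded lattice: chains, tight elements, the fixed point step
and the digit descent. -/

namespace Pool.Agent.Work.MP_913e71_al.Pos

variable {α : Type} [Lattice α] [OrderBot α]

/-- Submodular up to the error `E`. -/
def ASub (E : ℝ) (Φ : α → ℝ) : Prop := ∀ A B, Φ (A ⊓ B) + Φ (A ⊔ B) ≤ Φ A + Φ B + E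

/-- A modular, strictly monotone dimension function bounded by `n`. -/
structure IsDim (dim : α → ℕ) (n : ℕ) : Prop where
  modular : ∀ A B, dim (A ⊓ B) + dim (A ⊔ B) = dim A + dim B
  strict : StrictMono dim
  le : ∀ A, dim A ≤ n

variable {dim : α → ℕ} {n : ℕ}

/-- For incomparable `A`, `B` of dimensions `a`, `b`, with `i = dim (A ⊓ B)`, `j = dim (A ⊔ B)`:
`i ^ 2 + j ^ 2 - a ^ 2 - b ^ 2 = 2 (a - i) (b - i) ≥ 2`.  So the near minimisers are pairwise
comparable, and `dim` is injective on them. -/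
theorem chain_card (hd : IsDim dim n) {E L g m : ℝ} {Φ : α → ℝ} (hΦ : ASub E Φ) (hL0 : 0 ≤ L)
    (hL : E + 2 * g ≤ 2 * L) (hm : ∀ W, m ≤ Φ W - L * (dim W : ℝ) ^ 2) :
    ∃ S : Finset α, S.card ≤ n + 1 ∧ ∀ W, Φ W - L * (dim W : ℝ) ^ 2 < m + g → W ∈ S := by
  classical
  have hinj : Set.InjOn dim {W | Φ W - L * (dim W : ℝ) ^ 2 < m + g} := by
    intro A hA B hB hAB
    by_contra hne
    have h1 : A ⊓ B < A := lt_of_le_of_ne inf_le_left fun e => by
      have h2 := hd.strict (lt_of_le_of_ne (inf_eq_left.1 e) hne)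
      omega
    have h2 : (dim (A ⊓ B) : ℝ) + 1 ≤ dim A := by exact_mod_cast hd.strict h1
    have h3 : (dim (A ⊓ B) : ℝ) + dim (A ⊔ B) = dim A + dim B := by exact_mod_cast hd.modular A B
    have h4 : (dim B : ℝ) = dim A := by rw [hAB]
    have h5 : 2 * (dim A : ℝ) ^ 2 + 2 ≤ (dim (A ⊓ B) : ℝ) ^ 2 + (dim (A ⊔ B) : ℝ) ^ 2 := by
      have h6 : (dim (A ⊔ B) : ℝ) = 2 * dim A - dim (A ⊓ B) := by linarith
      rw [h6]
      nlinarith
    have h6 := mul_le_mul_of_nonneg_left h5 hL0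
    have h7 := hΦ A B
    have h8 := hm (A ⊓ B)
    have h9 := hm (A ⊔ B)
    simp only [Set.mem_ofPred_eq] at hA hB
    rw [h4] at hB
    linarith
  have hmap : Set.MapsTo dim {W | Φ W - L * (dim W : ℝ) ^ 2 < m + g} (Finset.range (n + 1)) :=
    fun W _ => by simpa using Nat.lt_succ_of_le (hd.le W)
  have hfin : {W | Φ W - L * (dim W : ℝ) ^ 2 < m + g}.Finite :=
    Set.Finite.of_injOn hmap hinj (Finset.finite_toSet _)
  refine ⟨hfin.toFinset, ?_, fun W hW => hfin.mem_toFinset.2 hW⟩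
  have h := Finset.card_le_card_of_injOn (s := hfin.toFinset) (t := Finset.range (n + 1)) dim
    (by rw [hfin.coe_toFinset]; exact hmap) (by rw [hfin.coe_toFinset]; exact hinj)
  rwa [Finset.card_range] at h

omit [OrderBot α] in
theorem SubMod_next (hd : IsDim dim n) (Tight : α → Prop) (A : α) : ∃ A', Tight A →
    Tight A' ∧ A ≤ A' ∧ (∀ U, Tight U → A ≤ U → U ≤ A' → U = A ∨ U = A') ∧
      ∀ U, Tight U → A < U → A < A' := by
  classical
  by_cases h : ∃ k, ∃ U, Tight U ∧ A < U ∧ dim U = k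
  · obtain ⟨A', h1, h2, h3⟩ := Nat.find_spec h
    refine ⟨A', fun _ => ⟨h1, h2.le, fun U hU k1 k2 => ?_, fun _ _ _ => h2⟩⟩
    rcases k1.eq_or_lt with e | k1
    · exact Or.inl e.symm
    rcases k2.eq_or_lt with e | k2
    · exact Or.inr e
    have k3 := hd.strict k2
    have k4 := Nat.find_min' h ⟨U, hU, k1, rfl⟩
    omega
  · exact ⟨A, fun hA => ⟨hA, le_rfl, fun U _ k1 k2 => Or.inl (le_antisymm k2 k1),
      fun U hU k => absurd ⟨_, U, hU, k, rfl⟩ h⟩⟩

/-- `W 0 = ⊥`, `W (j + 1)` a tight element of least dimension strictly above `W j` if there is one,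
else `W j`.  `W n` is the largest tight element.  For tight `U`, `U ⊓ W (j + 1) ⊔ W j` is `W j` or
`W (j + 1)`; apply `ASub` to `U ⊓ W (j + 1)` and `W j`. -/
theorem tight_chain (hd : IsDim dim n) (Tight : α → Prop) (h0 : Tight ⊥)
    (hinf : ∀ A B, Tight A → Tight B → Tight (A ⊓ B))
    (hsup : ∀ A B, Tight A → Tight B → Tight (A ⊔ B)) :
    ∃ S : Finset α, (∀ W ∈ S, Tight W) ∧ ∀ (E C : ℝ) (Φ : α → ℝ), 0 ≤ E → 0 ≤ C → ASub E Φ →
      (∀ W ∈ S, |Φ W| ≤ C) → ∀ U, Tight U → -(C + n * (2 * C + E)) ≤ Φ U := by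
  classical
  choose nx hnx using SubMod_next hd Tight
  let W : ℕ → α := fun j => nx^[j] ⊥
  have hW : ∀ j, W (j + 1) = nx (W j) := fun j => Function.iterate_succ_apply' _ _ _
  have hT : ∀ j, Tight (W j) := fun j => by
    induction j with
    | zero => exact h0
    | succ j ih => rw [hW]; exact (hnx _ ih).1
  have hmax : ∀ j, j ≤ dim (W j) ∨ ∀ U, Tight U → ¬ W j < U := fun j => by
    induction j with
    | zero => exact Or.inl (Nat.zero_le _)
    | succ j ih =>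
      obtain ⟨k1, k2, -, k4⟩ := hnx _ (hT j)
      rw [hW]
      by_cases h : ∀ U, Tight U → ¬ W j < U
      · exact Or.inr fun U hU k => h U hU (lt_of_le_of_lt k2 k)
      · rcases ih with ih | ih
        · push Not at h
          obtain ⟨U, hU, k⟩ := h
          exact Or.inl (lt_of_le_of_lt ih (hd.strict (k4 U hU k)))
        · exact absurd ih h
  have htop : ∀ U, Tight U → U ⊓ W n = U := fun U hU => by
    have h1 : ¬ W n < U ⊔ W n := by
      rcases hmax n with h | h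
      · intro k
        have k1 := hd.strict k
        have k2 := hd.le (U ⊔ W n)
        omega
      · exact h _ (hsup _ _ hU (hT n))
    have h2 : W n = U ⊔ W n := (le_sup_right : W n ≤ U ⊔ W n).eq_of_not_lt h1
    exact inf_eq_left.2 (h2 ▸ le_sup_left)
  refine ⟨(Finset.range (n + 1)).image W, fun V hV => ?_, fun E C Φ hE hC hΦ hS U hU => ?_⟩
  · obtain ⟨j, -, rfl⟩ := Finset.mem_image.1 hV
    exact hT j
  have hb : ∀ j ≤ n, |Φ (W j)| ≤ C := fun j hj =>
    hS _ (Finset.mem_image_of_mem _ (Finset.mem_range.2 (Nat.lt_succ_of_le hj)))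
  have key : ∀ j ≤ n, -(C + j * (2 * C + E)) ≤ Φ (U ⊓ W j) := fun j => by
    induction j with
    | zero =>
      intro hj
      have h1 := (abs_le.1 (hb 0 hj)).1
      have h2 : U ⊓ W 0 = W 0 := inf_eq_right.2 bot_le
      rw [h2]
      simpa using h1
    | succ j ih =>
      intro hj
      obtain ⟨k1, k2, k3, -⟩ := hnx _ (hT j)
      rw [← hW] at k1 k2 k3
      have h1 := hΦ (U ⊓ W (j + 1)) (W j)
      have h2 : U ⊓ W (j + 1) ⊓ W j = U ⊓ W j := by rw [inf_assoc, inf_eq_right.2 k2]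
      have h3 := abs_le.1 (hb j (Nat.le_of_succ_le hj))
      have h4 := abs_le.1 (hb (j + 1) hj)
      have h5 : -C ≤ Φ (U ⊓ W (j + 1) ⊔ W j) := by
        rcases k3 _ (hsup _ _ (hinf _ _ hU k1) (hT j)) le_sup_right (sup_le inf_le_right k2) with
          e | e <;> rw [e]
        · exact h3.1
        · exact h4.1
      have h6 := ih (Nat.le_of_succ_le hj)
      rw [h2] at h1
      push_cast
      linarith [h3.2]
  have h := key n le_rfl
  rwa [htop U hU] at h

omit [Lattice α] [OrderBot α] in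
theorem SubMod_fix {M : ℕ} (F : Finset α) (ψ : α → (Fin M → ℝ) → ℝ)
    (hψ : ∀ W, Continuous (ψ W)) (h0 : ∀ W ∈ F, ∀ x, 0 ≤ ψ W x) (h1 : ∀ W ∈ F, ∀ x, ψ W x ≤ 1)
    (v : Finset α → Fin M) : ∃ x ∈ stdSimplex ℝ (Fin M), ∀ a, x a ≠ 0 →
      ∃ ν : Finset α, v ν = a ∧ (∀ W ∈ ν, ψ W x ≠ 0) ∧ ∀ W ∈ F, ψ W x = 1 → W ∈ ν := by
  classical
  let c : Finset α → (Fin M → ℝ) → ℝ := fun ν x =>
    (∏ W ∈ ν, ψ W x) * ∏ W ∈ F \ ν, (1 - ψ W x)
  have hc : ∀ ν, Continuous (c ν) := fun ν =>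
    (continuous_finsetProd _ fun W _ => hψ W).mul
      (continuous_finsetProd _ fun W _ => continuous_const.sub (hψ W))
  let G : (Fin M → ℝ) → Fin M → ℝ := fun x a => ∑ ν ∈ F.powerset with v ν = a, c ν x
  have hG : Continuous G := continuous_pi fun a => continuous_finsetSum _ fun ν _ => hc ν
  have hG0 : ∀ x a, 0 ≤ G x a := fun x a => Finset.sum_nonneg fun ν hν =>
    mul_nonneg (Finset.prod_nonneg fun W hW =>
        h0 W (Finset.mem_powerset.1 (Finset.mem_filter.1 hν).1 hW) x)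
      (Finset.prod_nonneg fun W hW => sub_nonneg.2 (h1 W (Finset.mem_sdiff.1 hW).1 x))
  have hG1 : ∀ x, ∑ a, G x a = 1 := fun x => by
    have e1 : ∑ a, G x a = ∑ ν ∈ F.powerset, c ν x := Finset.sum_fiberwise _ _ _
    have e2 := Finset.prod_add (fun W => ψ W x) (fun W => 1 - ψ W x) F
    rw [e1, ← e2]
    simp
  obtain ⟨x, hx⟩ := RibGR.brouwer_pi G hG 2 fun x => by
    rw [Finset.sum_congr rfl fun a _ => abs_of_nonneg (hG0 x a), hG1]
    norm_num
  refine ⟨x, hx ▸ ⟨hG0 x, hG1 x⟩, fun a ha => ?_⟩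
  rw [← hx] at ha
  obtain ⟨ν, k1, k2⟩ := Finset.exists_ne_zero_of_sum_ne_zero ha
  obtain ⟨k3, k4⟩ := mul_ne_zero_iff.1 k2
  refine ⟨ν, (Finset.mem_filter.1 k1).2, Finset.prod_ne_zero_iff.1 k3, fun W hW e => ?_⟩
  by_contra k5
  exact Finset.prod_ne_zero_iff.1 k4 W (Finset.mem_sdiff.2 ⟨hW, k5⟩) (by rw [e, sub_self])

/-- `L = E + 1`, `g = 1`, `Ψ x W = Φ x W - L dim ^ 2`; `𝓕` the finite set of the `W` with
`Φ x W ≤ T₀ + L n ^ 2 + 1` for some `x` (it contains `⊥`), `m x` the minimum of `Ψ x` over `𝓕` (the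
global minimum), `ψ W x = max 0 (m x + 1 - Ψ x W) ∈ [0, 1]`,
`c ν x = ∏ W ∈ ν, ψ W x * ∏ W ∈ 𝓕 \ ν, (1 - ψ W x)` for `ν ⊆ 𝓕` (sum one, `Finset.prod_add`),
`F x = ∑ ν, c ν x • e (v ν)` with `v ν` outside `B W` for all `W ∈ ν` when `ν` has at most `n + 1`
elements.  Compose with a continuous retraction onto the simplex and use
`Pool.Agent.RibGR.brouwer_pi`.  At a fixed point every `ν` with `c ν x ≠ 0` is a subset of the chain
(`chain_card`) containing a minimiser `W₀`. -/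
theorem brouwer_step (hd : IsDim dim n) {M K : ℕ} (hM : (n + 1) * K < M)
    (Φ : (Fin M → ℝ) → α → ℝ) (hcont : ∀ W, Continuous fun x => Φ x W) {E : ℝ} (hE : 0 ≤ E)
    (hsub : ∀ x ∈ stdSimplex ℝ (Fin M), ASub E (Φ x)) (T₀ : ℝ)
    (h0 : ∀ x ∈ stdSimplex ℝ (Fin M), Φ x ⊥ ≤ T₀)
    (hfin : ∀ T : ℝ, {W | ∃ x ∈ stdSimplex ℝ (Fin M), Φ x W ≤ T}.Finite)
    (B : α → Finset (Fin M)) (hB : ∀ W, (B W).card ≤ K) (C : ℝ)
    (hgood : ∀ x ∈ stdSimplex ℝ (Fin M), ∀ W,
      (Finset.univ.filter fun a => x a ≠ 0).card ≤ 2 ^ (n + 1) → (∀ a ∈ B W, x a = 0) →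
        -C ≤ Φ x W) :
    ∃ x ∈ stdSimplex ℝ (Fin M), ∀ W, -(C + (E + 1) * (n : ℝ) ^ 2) ≤ Φ x W := by
  classical
  have hM0 : 0 < M := by omega
  have hL : 0 ≤ E + 1 := by linarith
  have hdim : ∀ W, (E + 1) * (dim W : ℝ) ^ 2 ≤ (E + 1) * (n : ℝ) ^ 2 := fun W =>
    mul_le_mul_of_nonneg_left (pow_le_pow_left₀ (Nat.cast_nonneg _) (by exact_mod_cast hd.le W) 2) hL
  have hdim0 : ∀ W, 0 ≤ (E + 1) * (dim W : ℝ) ^ 2 := fun W => by positivity
  have hn0 : 0 ≤ (E + 1) * (n : ℝ) ^ 2 := by positivity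
  set F := (hfin (T₀ + (E + 1) * (n : ℝ) ^ 2)).toFinset with hF
  have hbot : ⊥ ∈ F := by
    have h1 := single_mem_stdSimplex ℝ (⟨0, hM0⟩ : Fin M)
    exact (hfin _).mem_toFinset.2 ⟨_, h1, by linarith [h0 _ h1]⟩
  have hne : F.Nonempty := ⟨_, hbot⟩
  let m : (Fin M → ℝ) → ℝ := fun x => F.inf' hne fun W => Φ x W - (E + 1) * (dim W : ℝ) ^ 2
  have hmc : Continuous m :=
    Continuous.finset_inf'_apply hne fun W _ => (hcont W).sub continuous_const
  have hmF : ∀ x, ∀ W ∈ F, m x ≤ Φ x W - (E + 1) * (dim W : ℝ) ^ 2 := fun x W hW =>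
    Finset.inf'_le (fun W => Φ x W - (E + 1) * (dim W : ℝ) ^ 2) hW
  have hm : ∀ x ∈ stdSimplex ℝ (Fin M), ∀ W, m x ≤ Φ x W - (E + 1) * (dim W : ℝ) ^ 2 :=
    fun x hx W => by
      by_cases hW : W ∈ F
      · exact hmF x W hW
      · have h1 : T₀ + (E + 1) * (n : ℝ) ^ 2 < Φ x W :=
          lt_of_not_ge fun h => hW ((hfin _).mem_toFinset.2 ⟨x, hx, h⟩)
        linarith [hmF x ⊥ hbot, h0 x hx, hdim W, hdim0 ⊥]
  have hv : ∀ ν : Finset α, ∃ a : Fin M, ν.card ≤ n + 1 → ∀ W ∈ ν, a ∉ B W := fun ν => by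
    by_cases h : ν.card ≤ n + 1
    · have h1 := Finset.card_biUnion_le_card_mul ν B K fun W _ => hB W
      have h2 : (ν.biUnion B).card < (Finset.univ : Finset (Fin M)).card := by
        rw [Finset.card_univ, Fintype.card_fin]
        exact lt_of_le_of_lt (h1.trans (Nat.mul_le_mul_right K h)) hM
      obtain ⟨a, -, ha⟩ := Finset.exists_mem_notMem_of_card_lt_card h2
      exact ⟨a, fun _ W hW k => ha (Finset.mem_biUnion.2 ⟨W, hW, k⟩)⟩
    · exact ⟨⟨0, hM0⟩, fun k => absurd k h⟩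
  choose v hv using hv
  obtain ⟨x, hx, hfix⟩ := SubMod_fix F
    (fun W x => max 0 (m x + 1 - (Φ x W - (E + 1) * (dim W : ℝ) ^ 2)))
    (fun W => continuous_const.max
      ((hmc.add continuous_const).sub ((hcont W).sub continuous_const)))
    (fun W _ x => le_max_left _ _)
    (fun W hW x => max_le zero_le_one (by linarith [hmF x W hW])) v
  obtain ⟨S, hS, hS'⟩ := chain_card (g := 1) hd (hsub x hx) hL (by linarith) (hm x hx)
  obtain ⟨W₀, hW₀, e₀⟩ : ∃ W₀ ∈ F, m x = Φ x W₀ - (E + 1) * (dim W₀ : ℝ) ^ 2 :=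
    Finset.exists_mem_eq_inf' hne _
  have hsupp : ∀ a, x a ≠ 0 → ∃ ν ⊆ S, v ν = a ∧ W₀ ∈ ν := fun a ha => by
    obtain ⟨ν, k1, k2, k3⟩ := hfix a ha
    refine ⟨ν, fun W hW => hS' W ?_, k1, k3 W₀ hW₀ ?_⟩
    · by_contra k
      exact k2 W hW (max_eq_left (by linarith))
    · rw [← e₀, add_sub_cancel_left, max_eq_right zero_le_one]
  have hW : -C ≤ Φ x W₀ := by
    refine hgood x hx W₀ ?_ fun a ha => ?_
    · have h1 : (Finset.univ.filter fun a => x a ≠ 0) ⊆ S.powerset.image v := fun a ha => by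
        obtain ⟨ν, k1, k2, -⟩ := hsupp a (Finset.mem_filter.1 ha).2
        exact Finset.mem_image.2 ⟨ν, Finset.mem_powerset.2 k1, k2⟩
      refine (Finset.card_le_card h1).trans (Finset.card_image_le.trans ?_)
      rw [Finset.card_powerset]
      exact Nat.pow_le_pow_right (by norm_num) hS
    · by_contra k
      obtain ⟨ν, k1, rfl, k3⟩ := hsupp a k
      exact hv ν ((Finset.card_le_card k1).trans hS) W₀ k3 ha
  refine ⟨x, hx, fun W => ?_⟩
  linarith [hm x hx W, hdim W₀, hdim0 W]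

/-- The data of the digit descent: `δ π y` is the value at the point `y`, `δh π y ρ` the value at
the disc `y + p ^ ρ ℤ`; only discs inside the starting disc are used. -/
structure Discs {P : Type} (α : Type) (p : P → ℕ) (N : ℕ) (L₀ : ℝ) (y₀ : P → ℤ) (ρ₀ : P → ℕ)
    (δ : P → ℤ → α → ℝ) (δh : P → ℤ → ℕ → α → ℝ) : Prop where
  le : ∀ π y y' ρ W, ρ₀ π ≤ ρ → y ≡ y₀ π [ZMOD (p π : ℤ) ^ ρ₀ π] → y' ≡ y [ZMOD (p π : ℤ) ^ ρ] →
    δ π y' W ≤ δh π y ρ W
  good : ∀ π y ρ W, ρ₀ π ≤ ρ → y ≡ y₀ π [ZMOD (p π : ℤ) ^ ρ₀ π] →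
    ∃ bad : Finset ℕ, bad.card ≤ N ∧ ∀ j < p π, j ∉ bad → ∀ z : ℤ,
      δ π (y + (p π : ℤ) ^ ρ * (j + p π * z)) W = δh π y ρ W
  step : ∀ π y ρ W (j : ℕ), ρ₀ π ≤ ρ → y ≡ y₀ π [ZMOD (p π : ℤ) ^ ρ₀ π] →
    δh π y ρ W - L₀ ≤ δh π (y + (p π : ℤ) ^ ρ * j) (ρ + 1) W
  term : ∀ π, ∃ ρ₁, ∀ y W, y ≡ y₀ π [ZMOD (p π : ℤ) ^ ρ₀ π] → ∀ ρ, ρ₁ ≤ ρ → δh π y ρ W ≤ δ π y W

omit [Lattice α] [OrderBot α] in
theorem SubMod_digit {P : Type} {p : P → ℕ} {N : ℕ} {L₀ : ℝ} {y₀ : P → ℤ} {ρ₀ : P → ℕ}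
    {δ : P → ℤ → α → ℝ} {δh : P → ℤ → ℕ → α → ℝ} (h : Discs α p N L₀ y₀ ρ₀ δ δh) (π : P) (y : ℤ)
    (ρ : ℕ) (hρ : ρ₀ π ≤ ρ) (hy : y ≡ y₀ π [ZMOD (p π : ℤ) ^ ρ₀ π]) (S : Finset α)
    (hS : S.card * N < p π) :
    ∃ j : ℕ, ∀ W ∈ S, δ π (y + (p π : ℤ) ^ ρ * j) W = δh π y ρ W := by
  classical
  choose bad h1 h2 using fun W => h.good π y ρ W hρ hy
  have h3 : (S.biUnion bad).card < (Finset.range (p π)).card := by
    rw [Finset.card_range]
    exact lt_of_le_of_lt (Finset.card_biUnion_le_card_mul S bad N fun W _ => h1 W) hS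
  obtain ⟨j, k1, k2⟩ := Finset.exists_mem_notMem_of_card_lt_card h3
  refine ⟨j, fun W hW => ?_⟩
  have h4 := h2 W j (Finset.mem_range.1 k1) (fun k => k2 (Finset.mem_biUnion.2 ⟨W, hW, k⟩)) 0
  rwa [mul_zero, add_zero] at h4

theorem SubMod_mod {q y y₀ : ℤ} {ρ ρ₀ : ℕ} (hρ : ρ₀ ≤ ρ) (hy : y ≡ y₀ [ZMOD q ^ ρ₀]) (j : ℤ) :
    y + q ^ ρ * j ≡ y₀ [ZMOD q ^ ρ₀] := by
  have h1 : y + q ^ ρ * j ≡ y [ZMOD q ^ ρ₀] :=
    (Int.modEq_iff_dvd.2 (by
      rw [add_sub_cancel_left]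
      exact (pow_dvd_pow q hρ).mul_right j)).symm
  exact h1.trans hy

/-- For two elements choose, at every prime, a digit that is good for both. -/
theorem Discs.asub {P : Type} [Fintype P] {p : P → ℕ} {N : ℕ} {L₀ : ℝ} {y₀ : P → ℤ} {ρ₀ : P → ℕ}
    {δ : P → ℤ → α → ℝ} {δh : P → ℤ → ℕ → α → ℝ} (h : Discs α p N L₀ y₀ ρ₀ δ δh)
    (hp : ∀ π, 2 * N < p π) (φ₀ : α → ℝ) {E : ℝ}
    (hs : ∀ y : P → ℤ, (∀ π, y π ≡ y₀ π [ZMOD (p π : ℤ) ^ ρ₀ π]) →
      ASub E fun W => φ₀ W + ∑ π, δ π (y π) W)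
    (y : P → ℤ) (ρ : P → ℕ) (hρ : ∀ π, ρ₀ π ≤ ρ π)
    (hy : ∀ π, y π ≡ y₀ π [ZMOD (p π : ℤ) ^ ρ₀ π]) :
    ASub E fun W => φ₀ W + ∑ π, δh π (y π) (ρ π) W := by
  classical
  intro A B
  choose j hj using fun π => SubMod_digit h π (y π) (ρ π) (hρ π) (hy π) {A ⊓ B, A ⊔ B}
    (lt_of_le_of_lt (Nat.mul_le_mul_right N Finset.card_le_two) (hp π))
  have h1 := hs (fun π => y π + (p π : ℤ) ^ ρ π * j π) (fun π => SubMod_mod (hρ π) (hy π) _) A B
  have h2 : ∀ W, ∑ π, δ π (y π + (p π : ℤ) ^ ρ π * j π) W ≤ ∑ π, δh π (y π) (ρ π) W := fun W =>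
    Finset.sum_le_sum fun π _ =>
      h.le π _ _ _ W (hρ π) (hy π) (SubMod_mod le_rfl (Int.ModEq.refl _) _)
  have h3 : ∀ W ∈ ({A ⊓ B, A ⊔ B} : Finset α),
      ∑ π, δ π (y π + (p π : ℤ) ^ ρ π * j π) W = ∑ π, δh π (y π) (ρ π) W := fun W hW =>
    Finset.sum_congr rfl fun π _ => hj π W hW
  simp only at h1 ⊢
  rw [h3 _ (by simp), h3 _ (by simp)] at h1
  linarith [h2 A, h2 B]

/-- Induct on `∑ π, (ρ₁ π - ρ π)`; at each step choose a digit that is good for the members of the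
chain `{Ψ < m + L₀}` (`chain_card`, `Discs.asub`). -/
theorem Discs.descent (hd : IsDim dim n) {P : Type} [Fintype P] {p : P → ℕ} {N : ℕ} {L₀ : ℝ}
    {y₀ : P → ℤ} {ρ₀ : P → ℕ} {δ : P → ℤ → α → ℝ} {δh : P → ℤ → ℕ → α → ℝ}
    (h : Discs α p N L₀ y₀ ρ₀ δ δh) (hp : ∀ π, (n + 2) * N < p π) (φ₀ : α → ℝ) {E L m : ℝ}
    (hs : ∀ y : P → ℤ, (∀ π, y π ≡ y₀ π [ZMOD (p π : ℤ) ^ ρ₀ π]) →
      ASub E fun W => φ₀ W + ∑ π, δ π (y π) W)
    (hL0 : 0 ≤ L) (hL : E + 2 * L₀ ≤ 2 * L)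
    (hm : ∀ W, m ≤ φ₀ W + ∑ π, δh π (y₀ π) (ρ₀ π) W - L * (dim W : ℝ) ^ 2) :
    ∃ y : P → ℤ, (∀ π, y π ≡ y₀ π [ZMOD (p π : ℤ) ^ ρ₀ π]) ∧
      ∀ W, m ≤ φ₀ W + ∑ π, δ π (y π) W - L * (dim W : ℝ) ^ 2 := by
  classical
  choose ρ₁ hρ₁ using h.term
  have hp2 : ∀ π, 2 * N < p π := fun π =>
    lt_of_le_of_lt (Nat.mul_le_mul_right N (Nat.le_add_left 2 n)) (hp π)
  have key : ∀ k : ℕ, ∀ (y : P → ℤ) (ρ : P → ℕ), ∑ π, (ρ₁ π - ρ π) < k → (∀ π, ρ₀ π ≤ ρ π) →
      (∀ π, y π ≡ y₀ π [ZMOD (p π : ℤ) ^ ρ₀ π]) →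
      (∀ W, m ≤ φ₀ W + ∑ π, δh π (y π) (ρ π) W - L * (dim W : ℝ) ^ 2) →
      ∃ y : P → ℤ, (∀ π, y π ≡ y₀ π [ZMOD (p π : ℤ) ^ ρ₀ π]) ∧
        ∀ W, m ≤ φ₀ W + ∑ π, δ π (y π) W - L * (dim W : ℝ) ^ 2 := by
    intro k
    induction k with
    | zero => exact fun y ρ hk => absurd hk (Nat.not_lt_zero _)
    | succ k ih =>
      intro y ρ hk hρ hy hmy
      by_cases hall : ∀ π, ρ₁ π ≤ ρ π
      · refine ⟨y, hy, fun W => ?_⟩
        have h1 : ∑ π, δh π (y π) (ρ π) W ≤ ∑ π, δ π (y π) W :=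
          Finset.sum_le_sum fun π _ => hρ₁ π _ W (hy π) _ (hall π)
        linarith [hmy W]
      push Not at hall
      obtain ⟨π, hπ⟩ := hall
      obtain ⟨S, hS, hS'⟩ := chain_card hd (h.asub hp2 φ₀ hs y ρ hρ hy) hL0 hL hmy
      obtain ⟨j, hj⟩ := SubMod_digit h π (y π) (ρ π) (hρ π) (hy π) S
        (lt_of_le_of_lt (Nat.mul_le_mul_right N (hS.trans (Nat.le_succ _))) (hp π))
      have hy' := SubMod_mod (hρ π) (hy π) j
      refine ih (Function.update y π (y π + (p π : ℤ) ^ ρ π * j)) (Function.update ρ π (ρ π + 1))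
        (lt_of_lt_of_le (Finset.sum_lt_sum (fun τ _ => ?_) ⟨π, Finset.mem_univ _, ?_⟩)
          (Nat.le_of_lt_succ hk)) (fun τ => ?_) (fun τ => ?_) fun W => ?_
      · rcases eq_or_ne τ π with rfl | e
        · rw [Function.update_self]
          omega
        · rw [Function.update_of_ne e]
      · rw [Function.update_self]
        omega
      · rcases eq_or_ne τ π with rfl | e
        · rw [Function.update_self]
          exact (hρ τ).trans (Nat.le_succ _)
        · rw [Function.update_of_ne e]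
          exact hρ τ
      · rcases eq_or_ne τ π with rfl | e
        · rw [Function.update_self]
          exact hy'
        · rw [Function.update_of_ne e]
          exact hy τ
      · have e1 := Finset.add_sum_erase Finset.univ (fun τ => δh τ (y τ) (ρ τ) W)
          (Finset.mem_univ π)
        rw [← Finset.add_sum_erase Finset.univ _ (Finset.mem_univ π), Function.update_self,
          Function.update_self, Finset.sum_congr rfl fun τ hτ => by
            rw [Function.update_of_ne (Finset.ne_of_mem_erase hτ),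
              Function.update_of_ne (Finset.ne_of_mem_erase hτ)]]
        by_cases hW : W ∈ S
        · have h1 := h.le π _ _ (ρ π + 1) W ((hρ π).trans (Nat.le_succ _)) hy' (Int.ModEq.refl _)
          rw [hj W hW] at h1
          linarith [hmy W]
        · have h1 := h.step π (y π) (ρ π) W j (hρ π) (hy π)
          have h2 : m + L₀ ≤ φ₀ W + ∑ π, δh π (y π) (ρ π) W - L * (dim W : ℝ) ^ 2 :=
            le_of_not_gt fun k => hW (hS' W k)
          linarith
  exact key _ y₀ ρ₀ (Nat.lt_succ_self _) (fun _ => le_rfl) (fun _ => Int.ModEq.refl _) hm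

end Pool.Agent.Work.MP_913e71_al.Pos
end

-- merged part: Pool.Agent.Work.MP_913e71_al.Pos.Engine
section
/-! The choice of the exponents.

PLAN.  Slack `Ψ W = ∑ c t * D t W - dd W ≥ 0` takes finitely many values; `ε > 0` is below all the
positive ones.  Tight means `Ψ = 0`; tight elements are closed under `⊓`, `⊔`.
`B' = B + B ∑ c`, `K = ⌈card T * C₀ * (1 + B') * 2 ^ (n + 1) / ε⌉`, `M = (n + 1) K + 1`.
For `x` in the simplex put `σ π x = x π.2 * c π.1 * ρ / lg π`, choose `A` above all of them, and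
`J π x W = min over a ≤ A of (Δ π (a + 1) W + L₁ |σ π x - a|)`, continuous and within `L₁` of
`Δ π (⌊σ π x⌋ + 1) W`.  `Φ x W = φ₀ W + ∑ J π x W` is almost submodular with error
`E + 4 card (T × Fin M) L₁`.  On the chain of `tight_chain` it is bounded by a constant, so it is
bounded below on tight elements (`B W = ∅`).  Always `Φ x W ≥ log Ht W - B' ρ - const`, which gives
finiteness and handles `log Ht W ≥ B' ρ` (`B W = ∅`).  Otherwise
`B W = {α | ∑ t, df (t, α) W > ε ρ / 2 ^ (n + 1)}` has at most `K` elements, and for `x` with at most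
`2 ^ (n + 1)` nonzero coordinates, none in `B W`, `Φ x W ≥ ε ρ - ε ρ - const` (outside the support
use `Δ π 1 W ≥ - B lg π`).  `brouwer_step`, then round: `a π = ⌊σ π x⌋ + 1`. -/

namespace Pool.Agent.Work.MP_913e71_al.Pos

theorem Engine_interp (f : ℕ → ℝ) {L : ℝ} (hL : 0 ≤ L) (hf : ∀ a, |f (a + 1) - f a| ≤ L) :
    ∃ g : ℝ → ℝ, Continuous g ∧ ∀ s, 0 ≤ s → |g s - f ⌊s⌋₊| ≤ L := by
  have h1 : ∀ a k : ℕ, |f (a + k) - f a| ≤ L * k := fun a k => by
    induction k with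
    | zero => simp
    | succ k ih =>
      have h := abs_sub_le (f (a + k + 1)) (f (a + k)) (f a)
      rw [Nat.cast_succ, ← add_assoc]
      linarith [hf (a + k)]
  have h2 : LipschitzOnWith L.toNNReal (fun s : ℝ => f ⌊s⌋₊) (Set.range Nat.cast) := by
    refine LipschitzOnWith.of_dist_le_mul ?_
    rintro _ ⟨a, rfl⟩ _ ⟨b, rfl⟩
    rw [Nat.floor_natCast, Nat.floor_natCast, Real.coe_toNNReal L hL, Real.dist_eq, Real.dist_eq]
    rcases le_total a b with h | h <;> obtain ⟨k, rfl⟩ := Nat.exists_eq_add_of_le h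
    · rw [abs_sub_comm]
      simpa using h1 a k
    · simpa using h1 b k
  obtain ⟨g, hg, e⟩ := h2.extend_real
  refine ⟨g, hg.continuous, fun s hs => ?_⟩
  have h3 := hg.dist_le_mul s ⌊s⌋₊
  have h4 : f ⌊((⌊s⌋₊ : ℕ) : ℝ)⌋₊ = g ⌊s⌋₊ := e ⟨_, rfl⟩
  rw [← h4, Nat.floor_natCast, Real.coe_toNNReal L hL, Real.dist_eq, Real.dist_eq] at h3
  exact h3.trans (mul_le_of_le_one_right hL (Nat.abs_sub_floor_le hs))

theorem Engine_sum {T : Type} [Fintype T] {M : ℕ} {lg : T × Fin M → ℝ} {a : T × Fin M → ℕ}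
    {c d : T → ℝ} {ρ B : ℝ} {x : Fin M → ℝ} (hx : x ∈ stdSimplex ℝ (Fin M))
    (h : ∀ π, |a π * lg π - x π.2 * c π.1 * ρ| ≤ lg π) (hd : ∀ t, |d t| ≤ B) :
    |∑ π, a π * d π.1 * lg π - (∑ t, c t * d t) * ρ| ≤ B * ∑ π, lg π := by
  have e : (∑ t, c t * d t) * ρ = ∑ π : T × Fin M, d π.1 * (x π.2 * c π.1 * ρ) := by
    rw [Fintype.sum_prod_type, Finset.sum_mul]
    refine Finset.sum_congr rfl fun t _ => ?_
    simp only [← Finset.mul_sum, ← Finset.sum_mul, hx.2]
    ring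
  rw [e, ← Finset.sum_sub_distrib, Finset.mul_sum]
  refine (Finset.abs_sum_le_sum_abs _ _).trans (Finset.sum_le_sum fun π _ => ?_)
  rw [mul_comm _ (d π.1), mul_assoc, ← mul_sub, abs_mul]
  exact mul_le_mul (hd _) (h π) (abs_nonneg _) ((abs_nonneg _).trans (hd π.1))

theorem engine {α : Type} [Lattice α] [OrderBot α] {dim : α → ℕ} {n : ℕ} (hd : IsDim dim n)
    {T : Type} [Fintype T] (D : T → α → ℤ) (dd : α → ℕ) (B : ℕ)
    (hDs : ∀ t A A', D t (A ⊓ A') + D t (A ⊔ A') ≤ D t A + D t A')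
    (hds : ∀ A A', dd A + dd A' ≤ dd (A ⊓ A') + dd (A ⊔ A'))
    (hD0 : ∀ t, D t ⊥ = 0) (hd0 : dd ⊥ = 0) (hDB : ∀ t W, |D t W| ≤ B) (hdB : ∀ W, dd W ≤ B)
    (c : T → ℝ) (hc : ∀ t, 0 ≤ c t) (hfeas : ∀ W, (dd W : ℝ) ≤ ∑ t, c t * D t W)
    (Ht : α → ℝ) (hHt : ∀ W, 1 ≤ Ht W) (hfin : ∀ x : ℝ, {W | Ht W ≤ x}.Finite) (C₀ : ℝ)
    (hC₀ : 0 ≤ C₀) :
    ∃ M : ℕ, ∀ (lg : T × Fin M → ℝ) (Δ : T × Fin M → ℕ → α → ℝ) (df : T × Fin M → α → ℝ)
      (L₁ E : ℝ), (∀ π, 0 < lg π) → 0 ≤ L₁ → 0 ≤ E → (∀ π W, 0 ≤ df π W) →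
      (∀ t W, ∑ a, df (t, a) W ≤ C₀ + C₀ * Real.log (Ht W)) →
      (∀ π a W, 1 ≤ a → |Δ π (a + 1) W - Δ π a W| ≤ L₁) →
      (∀ π a W, 1 ≤ a → Δ π a W ≤ a * D π.1 W * lg π) →
      (∀ π a W, 1 ≤ a → a * D π.1 W * lg π - df π W - L₁ ≤ Δ π a W) →
      (∀ π a W, 1 ≤ a → -(B * a * lg π) ≤ Δ π a W) →
      ∃ C : ℝ, ∀ (ρ : ℝ) (φ₀ : α → ℝ), 1 ≤ ρ → (∀ W, -(dd W * ρ) ≤ φ₀ W) →
        (∀ W, φ₀ W ≤ Real.log (Ht W) - dd W * ρ) → (∀ W, Real.log (Ht W) - B * ρ ≤ φ₀ W) →
        (∀ a : T × Fin M → ℕ, (∀ π, 1 ≤ a π) → ASub E fun W => φ₀ W + ∑ π, Δ π (a π) W) →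
        ∃ a : T × Fin M → ℕ, (∀ π, 1 ≤ a π) ∧ (∀ W, -C ≤ φ₀ W + ∑ π, Δ π (a π) W) ∧
          ∀ t, |∑ j, a (t, j) * lg (t, j) - c t * ρ| ≤ C := by
  classical
  set Ψ : α → ℝ := fun W => ∑ t, c t * D t W - dd W with hΨ
  have Ψ0 : ∀ W, 0 ≤ Ψ W := fun W => sub_nonneg.2 (hfeas W)
  obtain ⟨ε, ε0, hε⟩ : ∃ ε > 0, ∀ W, Ψ W ≠ 0 → ε ≤ Ψ W := by
    have h1 : (Set.range Ψ).Finite := by
      refine (Set.Finite.image2 (fun (f : T → ℤ) (k : ℕ) => ∑ t, c t * (f t : ℝ) - k)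
        (Set.Finite.pi' fun _ : T => Set.finite_Icc (-(B : ℤ)) B) (Set.finite_Iic B)).subset ?_
      rintro _ ⟨W, rfl⟩
      exact ⟨fun t => D t W, fun t => abs_le.1 (hDB t W), dd W, hdB W, rfl⟩
    obtain ⟨ε, h2, h3⟩ := Metric.isOpen_iff.1 (h1.sdiff (t := {0})).isClosed.isOpen_compl 0
      fun h => h.2 rfl
    refine ⟨ε, h2, fun W hW => not_lt.1 fun h => h3 ?_ ⟨⟨W, rfl⟩, hW⟩⟩
    rwa [mem_ball_zero_iff, Real.norm_of_nonneg (Ψ0 W)]
  have Ψs : ∀ A A', Ψ (A ⊓ A') + Ψ (A ⊔ A') ≤ Ψ A + Ψ A' := fun A A' => by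
    have h1 : ∑ t, (c t * D t (A ⊓ A') + c t * D t (A ⊔ A')) ≤ ∑ t, (c t * D t A + c t * D t A') :=
      Finset.sum_le_sum fun t _ => by
        rw [← mul_add, ← mul_add]
        exact mul_le_mul_of_nonneg_left (by exact_mod_cast hDs t A A') (hc t)
    have h2 : (dd A : ℝ) + dd A' ≤ dd (A ⊓ A') + dd (A ⊔ A') := by exact_mod_cast hds A A'
    rw [Finset.sum_add_distrib, Finset.sum_add_distrib] at h1
    simp only [hΨ]
    linarith
  obtain ⟨S, hS, hch⟩ := tight_chain hd (fun W => Ψ W = 0) (by simp [hΨ, hD0, hd0])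
    (fun A A' h h' => by linarith [Ψs A A', Ψ0 (A ⊓ A'), Ψ0 (A ⊔ A')])
    (fun A A' h h' => by linarith [Ψs A A', Ψ0 (A ⊓ A'), Ψ0 (A ⊔ A')])
  set B' : ℝ := B + ∑ t, c t * B with hB'
  set K := ⌈Fintype.card T * (C₀ + C₀ * B') / (ε / 2 ^ (n + 1))⌉₊ with hK
  refine ⟨(n + 1) * K + 1, fun lg Δ df L₁ E hlg hL hE hdf hdfs hΔ hup hlo hlo' => ?_⟩
  have hM : (n + 1) * K < (n + 1) * K + 1 := Nat.lt_succ_self _
  generalize (n + 1) * K + 1 = M at *
  have lH : ∀ W, 0 ≤ Real.log (Ht W) := fun W => Real.log_nonneg (hHt W)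
  have hDB' : ∀ W t, |(D t W : ℝ)| ≤ B := fun W t => by exact_mod_cast hDB t W
  have tot : ∀ W, ∑ j, ∑ t, df (t, j) W ≤ Fintype.card T * (C₀ + C₀ * Real.log (Ht W)) := fun W => by
    rw [Finset.sum_comm]
    exact (Finset.sum_le_card_nsmul _ _ _ fun t _ => hdfs t W).trans_eq (by simp [mul_add])
  set Λ : ℝ := ∑ π, lg π with hΛ
  have Λ0 : 0 ≤ Λ := Finset.sum_nonneg fun π _ => (hlg π).le
  set N : ℝ := Fintype.card (T × Fin M) * L₁ with hN
  have N0 : 0 ≤ N := by positivity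
  have BΛ : 0 ≤ B * Λ := by positivity
  set G : α → ℝ := fun W => Real.log (Ht W) + Fintype.card T * (C₀ + C₀ * Real.log (Ht W)) with hG
  have G1 : ∀ W, 0 ≤ Fintype.card T * (C₀ + C₀ * Real.log (Ht W)) := fun W => by
    have := lH W
    positivity
  have G0 : ∀ W, 0 ≤ G W := fun W => add_nonneg (lH W) (G1 W)
  set C₁ : ℝ := ∑ W ∈ S, G W + 3 * (B * Λ) + N with hC₁
  have S0 : 0 ≤ ∑ W ∈ S, G W := Finset.sum_nonneg fun W _ => G0 W
  have C0 : 0 ≤ C₁ := by linarith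
  have C1 : 0 ≤ n * (2 * C₁ + E) := by positivity
  have C2 : 0 ≤ (E + 4 * N + 1) * (n : ℝ) ^ 2 := by positivity
  choose g gc hg using fun π W =>
    Engine_interp (fun a => Δ π (a + 1) W) hL fun a => hΔ π (a + 1) W (Nat.le_add_left 1 a)
  refine ⟨C₁ + n * (2 * C₁ + E) + N + (E + 4 * N + 1) * (n : ℝ) ^ 2 + N + Λ,
    fun ρ φ₀ hρ f1 f2 f3 hsub => ?_⟩
  set σ : (Fin M → ℝ) → T × Fin M → ℝ := fun x π => x π.2 * c π.1 * ρ / lg π with hσ
  set a : (Fin M → ℝ) → T × Fin M → ℕ := fun x π => ⌊σ x π⌋₊ + 1 with ha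
  have a1 : ∀ x π, 1 ≤ a x π := fun x π => Nat.le_add_left 1 _
  set R : (Fin M → ℝ) → α → ℝ := fun x W => φ₀ W + ∑ π, Δ π (a x π) W with hR
  have σ0 : ∀ x ∈ stdSimplex ℝ (Fin M), ∀ π, 0 ≤ σ x π := fun x hx π =>
    div_nonneg (mul_nonneg (mul_nonneg (hx.1 _) (hc _)) (by linarith)) (hlg π).le
  have au : ∀ x ∈ stdSimplex ℝ (Fin M), ∀ π, |a x π * lg π - x π.2 * c π.1 * ρ| ≤ lg π :=
    fun x hx π => by
      have h1 := Nat.floor_le (σ0 x hx π)
      have h2 := Nat.lt_floor_add_one (σ x π)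
      rw [← div_mul_cancel₀ (x π.2 * c π.1 * ρ) (hlg π).ne', ← sub_mul, abs_mul, abs_of_pos (hlg π)]
      refine mul_le_of_le_one_left (hlg π).le (abs_le.2 ?_)
      simp only [ha, Nat.cast_succ]
      constructor <;> linarith
  have near : ∀ x ∈ stdSimplex ℝ (Fin M), ∀ W, |φ₀ W + ∑ π, g π W (σ x π) - R x W| ≤ N :=
    fun x hx W => by
      rw [add_sub_add_left_eq_sub, ← Finset.sum_sub_distrib]
      exact (Finset.abs_sum_le_sum_abs _ _).trans ((Finset.sum_le_card_nsmul _ _ L₁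
        fun π _ => hg π W _ (σ0 x hx π)).trans_eq (by simp [hN]))
  have up : ∀ x ∈ stdSimplex ℝ (Fin M), ∀ W, R x W ≤ Real.log (Ht W) + Ψ W * ρ + B * Λ :=
    fun x hx W => by
      have h1 := (abs_le.1 (Engine_sum hx (au x hx) (hDB' W))).2
      have h2 : ∑ π, Δ π (a x π) W ≤ _ := Finset.sum_le_sum fun π _ => hup π _ W (a1 x π)
      have h3 := f2 W
      simp only [hR, hΨ]
      linarith
  have lo : ∀ x ∈ stdSimplex ℝ (Fin M), ∀ W, Ψ W * ρ - 3 * (B * Λ) - N -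
      ∑ j with x j ≠ 0, ∑ t, df (t, j) W ≤ R x W := fun x hx W => by
    have h1 := (abs_le.1 (Engine_sum hx (au x hx) (hDB' W))).1
    have h2 : ∑ π, (a x π * D π.1 W * lg π - (if x π.2 ≠ 0 then df π W else 0) - L₁ -
        2 * B * lg π) ≤ ∑ π, Δ π (a x π) W := Finset.sum_le_sum fun π _ => by
      have h3 : 0 ≤ B * lg π := mul_nonneg (Nat.cast_nonneg B) (hlg π).le
      split_ifs with h
      · linarith [hlo π _ W (a1 x π)]
      · have h4 : a x π = 1 := by simp [ha, hσ, not_not.1 h]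
        have h5 := hlo' π 1 W le_rfl
        have h6 := mul_le_mul_of_nonneg_right (abs_le.1 (hDB' W π.1)).2 (hlg π).le
        rw [h4]
        push_cast at h5 ⊢
        linarith
    have h3 : ∑ π : T × Fin M, (if x π.2 ≠ 0 then df π W else 0) =
        ∑ j with x j ≠ 0, ∑ t, df (t, j) W := by
      rw [Fintype.sum_prod_type_right, Finset.sum_filter]
      refine Finset.sum_congr rfl fun j _ => ?_
      split_ifs <;> simp
    rw [Finset.sum_sub_distrib, Finset.sum_sub_distrib, Finset.sum_sub_distrib, h3, ← Finset.mul_sum,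
      Finset.sum_const, nsmul_eq_mul, Finset.card_univ] at h2
    have h4 := f1 W
    simp only [hR, hΨ]
    linarith
  have lo' : ∀ x ∈ stdSimplex ℝ (Fin M), ∀ W, Real.log (Ht W) - B' * ρ - B * Λ ≤ R x W :=
    fun x hx W => by
      have h1 := (abs_le.1 (Engine_sum (d := fun _ => (B : ℝ)) hx (au x hx)
        fun _ => (Nat.abs_cast B).le)).2
      have h2 : ∑ π, -(a x π * (B : ℝ) * lg π) ≤ ∑ π, Δ π (a x π) W := Finset.sum_le_sum fun π _ => by
        linarith [hlo' π _ W (a1 x π)]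
      rw [Finset.sum_neg_distrib] at h2
      have h3 := f3 W
      simp only [hR, hB']
      linarith
  have th0 : 0 < ε / 2 ^ (n + 1) := by positivity
  obtain ⟨x, hx, hfin⟩ := brouwer_step hd hM (fun x W => φ₀ W + ∑ π, g π W (σ x π))
    (fun W => continuous_const.add (continuous_finsetSum _ fun π _ => (gc π W).comp (by fun_prop)))
    (E := E + 4 * N) (by linarith)
    (fun x hx A A' => by
      have h1 := hsub (a x) (a1 x) A A'
      linarith [abs_le.1 (near x hx A), abs_le.1 (near x hx A'), abs_le.1 (near x hx (A ⊓ A')),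
        abs_le.1 (near x hx (A ⊔ A'))])
    (Real.log (Ht ⊥) + Ψ ⊥ * ρ + B * Λ + N)
    (fun x hx => by linarith [abs_le.1 (near x hx ⊥), up x hx ⊥])
    (fun t => (hfin (Real.exp (t + N + B' * ρ + B * Λ))).subset fun W ⟨x, hx, hW⟩ =>
      Real.le_exp_of_log_le (by linarith [abs_le.1 (near x hx W), lo' x hx W]))
    (fun W => if Real.log (Ht W) ≤ B' * ρ then
      Finset.univ.filter fun j => ε / 2 ^ (n + 1) * ρ < ∑ t, df (t, j) W else ∅)
    (fun W => by
      split_ifs with h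
      · have h1 := Finset.card_nsmul_le_sum _ (fun j => ∑ t, df (t, j) W) (ε / 2 ^ (n + 1) * ρ)
          fun j (hj : j ∈ Finset.univ.filter fun j => ε / 2 ^ (n + 1) * ρ < ∑ t, df (t, j) W) =>
            (Finset.mem_filter.1 hj).2.le
        have h2 := (h1.trans (Finset.sum_le_sum_of_subset_of_nonneg (Finset.subset_univ _)
          fun j _ _ => Finset.sum_nonneg fun t _ => hdf _ W)).trans (tot W)
        rw [nsmul_eq_mul, ← mul_assoc] at h2
        have h3 : C₀ + C₀ * Real.log (Ht W) ≤ (C₀ + C₀ * B') * ρ := by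
          have := mul_le_mul_of_nonneg_left h hC₀
          have := le_mul_of_one_le_right hC₀ hρ
          linarith
        have h4 := h2.trans (mul_le_mul_of_nonneg_left h3 (Nat.cast_nonneg _))
        rw [← mul_assoc] at h4
        exact Nat.cast_le.1 (((le_div_iff₀ th0).2 (le_of_mul_le_mul_right h4 (by linarith))).trans
          (Nat.le_ceil _))
      · exact Nat.zero_le _)
    (C₁ + n * (2 * C₁ + E) + N)
    (fun x hx W h1 h2 => by
      have h3 := (abs_le.1 (near x hx W)).1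
      by_cases h4 : Ψ W = 0
      · have h5 := hch E C₁ (R x) hE C0 (hsub (a x) (a1 x)) (fun U hU => by
          have u1 := up x hx U
          have u2 := lo x hx U
          have u3 : G U ≤ ∑ W ∈ S, G W := Finset.single_le_sum (fun W _ => G0 W) hU
          have u4 := (Finset.sum_le_sum_of_subset_of_nonneg (Finset.subset_univ
            (Finset.univ.filter fun j => x j ≠ 0)) fun j _ _ =>
              Finset.sum_nonneg fun t _ => hdf (t, j) U).trans (tot U)
          rw [hS U hU, zero_mul] at u1 u2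
          simp only [hG] at u3
          exact abs_le.2 ⟨by linarith [lH U], by linarith [G1 U]⟩) W h4
        linarith
      by_cases h5 : Real.log (Ht W) ≤ B' * ρ
      · have h6 := Finset.sum_le_card_nsmul (Finset.univ.filter fun j => x j ≠ 0)
          (fun j => ∑ t, df (t, j) W) (ε / 2 ^ (n + 1) * ρ) fun j hj => not_lt.1 fun h =>
            (Finset.mem_filter.1 hj).2 (h2 j (by
              rw [if_pos h5]
              exact Finset.mem_filter.2 ⟨Finset.mem_univ j, h⟩))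
        have h7 : ((Finset.univ.filter fun j => x j ≠ 0).card : ℝ) ≤ 2 ^ (n + 1) := by
          exact_mod_cast h1
        have h8 := mul_le_mul_of_nonneg_right h7 (by positivity : 0 ≤ ε / 2 ^ (n + 1) * ρ)
        rw [← mul_assoc (2 ^ (n + 1)), mul_div_cancel₀ _ (by positivity)] at h8
        rw [nsmul_eq_mul] at h6
        have h9 := mul_le_mul_of_nonneg_right (hε W h4) (by linarith : 0 ≤ ρ)
        linarith [lo x hx W]
      · linarith [lo' x hx W, not_le.1 h5])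
  refine ⟨a x, a1 x, fun W => by linarith [hfin W, (abs_le.1 (near x hx W)).2], fun t => ?_⟩
  have h1 : c t * ρ = ∑ j, x j * c t * ρ := by
    rw [← Finset.sum_mul, ← Finset.sum_mul, hx.2, one_mul]
  have h2 : ∑ j, lg (t, j) ≤ Λ := by
    rw [hΛ, Fintype.sum_prod_type]
    exact Finset.single_le_sum (f := fun t => ∑ j, lg (t, j))
      (fun t _ => Finset.sum_nonneg fun j _ => (hlg _).le) (Finset.mem_univ t)
  rw [h1, ← Finset.sum_sub_distrib]
  refine ((Finset.abs_sum_le_sum_abs _ _).trans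
    (Finset.sum_le_sum fun j _ => au x hx (t, j))).trans ?_
  linarith

end Pool.Agent.Work.MP_913e71_al.Pos
end

-- merged part: Pool.Agent.Work.MP_913e71_al.Pos.ExpLog
section
/-! The exponential on a nilpotent subalgebra.

PLAN.  Use the powers `N ^ j` of the submodule `N` (`N ^ (c + 1) = ⊥`, `Submodule.pow_induction_on_left`
or a hand made filtration: span of products of `j` elements of `N`).  Key lemma: for `x ∈ N`,
`δ ∈ N ^ j`, `1 ≤ j`, one has `exp (x + δ) - exp x - δ ∈ N ^ (j + 1)` (`exp_eq_sum` with `c + 1`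
terms; `(x + δ) ^ k - x ^ k ∈ N ^ (j + 1)` for `k ≥ 2`).  Injectivity: `y - x ∈ N ^ j` for all `j`.
Surjectivity: successive approximation.  `exp_mul_eq`: from
`x ^ m * y = ∑ k, choose m k • (cm x)^[k] y * x ^ (m - k)` or from `exp_add_of_commute`, `map_exp` for
the left and right multiplications in `Module.End ℚ A`.  `exp_conj`: conjugation by the unit `exp x`
is a ring automorphism, `map_exp`. -/

namespace Pool.Agent.Work.MP_913e71_al.Pos

open IsNilpotent

variable {A : Type} [Ring A] [Algebra ℚ A] {N : Submodule ℚ A} {c : ℕ}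

theorem bil_cm : Bil (cm : A → A → A) := by
  refine ⟨fun x y z => ?_, fun x y z => ?_, fun a x y => ?_, fun a x y => ?_⟩
  · simp only [cm]
    noncomm_ring
  · simp only [cm]
    noncomm_ring
  · simp only [cm, smul_mul_assoc, mul_smul_comm, smul_sub]
  · simp only [cm, smul_mul_assoc, mul_smul_comm, smul_sub]

omit [Algebra ℚ A] in
theorem cm_self (x : A) : cm x x = 0 := by
  exact sub_self _

theorem NilAlg.cm_mem (h : NilAlg N c) : ∀ x ∈ N, ∀ y ∈ N, cm x y ∈ N := by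
  exact fun x hx y hy => N.sub_mem (h.mul_mem x hx y hy) (h.mul_mem y hy x hx)

theorem NilAlg.pow_eq (h : NilAlg N c) {x : A} (hx : x ∈ N) : x ^ (c + 1) = 0 := by
  rw [← List.prod_replicate]
  exact h.prod_eq _ List.length_replicate fun y hy => List.eq_of_mem_replicate hy ▸ hx

theorem NilAlg.isNilpotent (h : NilAlg N c) {x : A} (hx : x ∈ N) : IsNilpotent x := by
  exact ⟨_, h.pow_eq hx⟩

theorem NilAlg.pow_succ_eq_bot (h : NilAlg N c) : N ^ (c + 1) = ⊥ := by
  rw [Submodule.pow_eq_span_pow_set, Submodule.span_eq_bot]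
  intro x hx
  obtain ⟨f, rfl⟩ := Set.mem_pow.1 hx
  refine h.prod_eq _ List.length_ofFn fun y hy => ?_
  obtain ⟨i, rfl⟩ := List.mem_ofFn.1 hy
  exact (f i).2

/-- The filtration by powers, shifted so that it is antitone. -/
theorem NilAlg.pow_anti (h : NilAlg N c) {i j : ℕ} (hi : 1 ≤ i) (hij : i ≤ j) : N ^ j ≤ N ^ i := by
  induction j, hij using Nat.le_induction with
  | base => exact le_rfl
  | succ j hj ih =>
    refine le_trans ?_ ih
    obtain ⟨k, rfl⟩ : ∃ k, j = k + 1 := ⟨j - 1, by omega⟩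
    rw [_root_.pow_succ, _root_.pow_succ, mul_assoc]
    exact mul_le_mul_right (Submodule.mul_le.2 h.mul_mem) _

theorem ExpLog_mul {i j : ℕ} {x y : A} (hx : x ∈ N ^ i) (hy : y ∈ N ^ j) : x * y ∈ N ^ (i + j) :=
  pow_add N i j ▸ Submodule.mul_mem_mul hx hy

theorem ExpLog_one {x : A} : x ∈ N ^ 1 ↔ x ∈ N := by
  rw [pow_one]

theorem ExpLog_pow (h : NilAlg N c) {x δ : A} {j : ℕ} (hx : x ∈ N) (hδ : δ ∈ N ^ (j + 1)) (k : ℕ) :
    (x + δ) ^ (k + 1) - x ^ (k + 1) ∈ N ^ (j + 1 + k) := by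
  induction k with
  | zero => simpa only [zero_add, pow_one, add_sub_cancel_left, add_zero] using hδ
  | succ k ih =>
    have e : (x + δ) ^ (k + 1 + 1) - x ^ (k + 1 + 1) =
        ((x + δ) ^ (k + 1) - x ^ (k + 1)) * (x + δ) + x ^ (k + 1) * δ := by
      rw [_root_.pow_succ (x + δ) (k + 1), _root_.pow_succ x (k + 1), sub_mul, mul_add (x ^ (k + 1))]
      abel
    rw [e]
    have h1 := ExpLog_mul ih (ExpLog_one.2 (N.add_mem hx
      (ExpLog_one.1 (h.pow_anti le_rfl (Nat.le_add_left 1 j) hδ))))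
    refine Submodule.add_mem _ h1 ?_
    rw [add_comm (j + 1)]
    exact ExpLog_mul (N.pow_mem_pow hx _) hδ

theorem ExpLog_key (h : NilAlg N c) {x δ : A} {j : ℕ} (hx : x ∈ N) (hδ : δ ∈ N ^ (j + 1)) :
    exp (x + δ) - exp x - δ ∈ N ^ (j + 1 + 1) := by
  have h1 : ∀ y ∈ N, y ^ (c + 1 + 1) = 0 := fun y hy => by
    rw [_root_.pow_succ, h.pow_eq hy, zero_mul]
  rw [exp_eq_sum (h1 x hx), exp_eq_sum (h1 _ (N.add_mem hx
    (ExpLog_one.1 (h.pow_anti le_rfl (Nat.le_add_left 1 j) hδ)))), ← Finset.sum_sub_distrib,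
    Finset.sum_range_succ', Finset.sum_range_succ']
  simp only [← smul_sub, pow_zero, sub_self, smul_zero, add_zero, zero_add, Nat.factorial_one,
    Nat.cast_one, inv_one, one_smul, pow_one, add_sub_cancel_left, add_sub_cancel_right]
  exact Submodule.sum_mem _ fun k _ => Submodule.smul_mem _ _
    (h.pow_anti (by omega) (by omega) (ExpLog_pow h hx hδ (k + 1)))

theorem NilAlg.exp_sub_one_mem (h : NilAlg N c) {x : A} (hx : x ∈ N) : exp x - 1 ∈ N := by
  have h1 := ExpLog_key (j := 0) h N.zero_mem (ExpLog_one.2 hx)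
  rw [zero_add, exp_zero] at h1
  simpa using N.add_mem (ExpLog_one.1 (h.pow_anti le_rfl (by omega) h1)) hx

theorem NilAlg.exp_inj (h : NilAlg N c) {x y : A} (hx : x ∈ N) (hy : y ∈ N)
    (e : exp x = exp y) : x = y := by
  have h1 : ∀ j, y - x ∈ N ^ (j + 1) := fun j => by
    induction j with
    | zero => exact ExpLog_one.2 (N.sub_mem hy hx)
    | succ j ih =>
      have h2 := ExpLog_key h hx ih
      rwa [add_sub_cancel, e, sub_self, zero_sub, neg_mem_iff] at h2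
  have h3 := h1 c
  rw [h.pow_succ_eq_bot, Submodule.mem_bot] at h3
  exact (sub_eq_zero.1 h3).symm

theorem NilAlg.exp_surj (h : NilAlg N c) {a : A} (ha : a ∈ N) : ∃ x ∈ N, exp x = 1 + a := by
  have h1 : ∀ j, ∃ x ∈ N, 1 + a - exp x ∈ N ^ (j + 1) := fun j => by
    induction j with
    | zero => exact ⟨0, N.zero_mem, by simpa using ha⟩
    | succ j ih =>
      obtain ⟨x, hx, h2⟩ := ih
      refine ⟨x + (1 + a - exp x), N.add_mem hx
        (ExpLog_one.1 (h.pow_anti le_rfl (Nat.le_add_left 1 j) h2)), ?_⟩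
      have h3 := neg_mem (ExpLog_key h hx h2)
      rwa [sub_sub, add_sub_cancel (exp x), neg_sub] at h3
  obtain ⟨x, hx, h3⟩ := h1 c
  rw [h.pow_succ_eq_bot, Submodule.mem_bot] at h3
  exact ⟨x, hx, (sub_eq_zero.1 h3).symm⟩

theorem NilAlg.exists_exp_mul (h : NilAlg N c) {x y : A} (hx : x ∈ N) (hy : y ∈ N) :
    ∃ z ∈ N, exp z = exp x * exp y := by
  have h1 := h.exp_sub_one_mem hx
  have h2 := h.exp_sub_one_mem hy
  obtain ⟨z, hz, e⟩ := h.exp_surj (N.add_mem (N.add_mem (h.mul_mem _ h1 _ h2) h1) h2)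
  exact ⟨z, hz, e.trans (by noncomm_ring)⟩

theorem NilAlg.exp_nsmul (h : NilAlg N c) {x : A} (hx : x ∈ N) (k : ℕ) :
    exp (k • x) = exp x ^ k := by
  induction k with
  | zero => rw [zero_smul, exp_zero, pow_zero]
  | succ k ih =>
    rw [succ_nsmul, exp_add_of_commute ((Commute.refl x).smul_left k)
      (h.isNilpotent (N.smul_of_tower_mem k hx)) (h.isNilpotent hx), ih, _root_.pow_succ]

theorem NilAlg.ev_mem {α : Type} (h : NilAlg N c) {x : α → A} (hx : ∀ a, x a ∈ N)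
    (w : FreeMagma α) : ev cm x w ∈ N ^ w.length := by
  induction w with
  | ih1 a => exact ExpLog_one.2 (hx a)
  | ih2 u v hu hv =>
    refine Submodule.sub_mem _ (ExpLog_mul hu hv) ?_
    change _ ∈ N ^ (u.length + v.length)
    rw [add_comm]
    exact ExpLog_mul hv hu

theorem NilAlg.ev_eq_zero {α : Type} (h : NilAlg N c) {x : α → A} (hx : ∀ a, x a ∈ N)
    (w : FreeMagma α) (hw : c < w.length) : ev cm x w = 0 := by
  have h1 := h.pow_anti (Nat.le_add_left 1 c) hw (h.ev_mem hx w)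
  rwa [h.pow_succ_eq_bot, Submodule.mem_bot] at h1

theorem NilAlg.TS_le {α : Type} (h : NilAlg N c) {x : α → A} (hx : ∀ a, x a ∈ N) (k : ℕ) :
    TS cm x k ≤ N := by
  refine Submodule.span_le.2 ?_
  rintro _ ⟨w, -, rfl⟩
  exact ExpLog_one.1 (h.pow_anti le_rfl w.length_pos (h.ev_mem hx w))

theorem NilAlg.exp_mul_eq (h : NilAlg N c) {x y : A} (hx : x ∈ N) (hy : y ∈ N) :
    exp x * y = (∑ k ∈ Finset.range (c + 1), ((k.factorial : ℚ)⁻¹) • (cm x)^[k] y) * exp x := by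
  have hn := h.isNilpotent hx
  have hL : IsNilpotent (LinearMap.mulLeft ℚ x) := (LinearMap.isNilpotent_mulLeft_iff ℚ x).2 hn
  have hR : IsNilpotent (LinearMap.mulRight ℚ x) := (LinearMap.isNilpotent_mulRight_iff ℚ x).2 hn
  have hc := LinearMap.commute_mulLeft_right (R := ℚ) x x
  have hD := hc.isNilpotent_sub hL hR
  have e1 : exp (LinearMap.mulLeft ℚ x) y = exp x * y :=
    (DFunLike.congr_fun (map_exp hn (Algebra.lmul ℚ A)) y).symm
  have e2 : ∀ z, exp (LinearMap.mulRight ℚ x) z = z * exp x := fun z => by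
    rw [exp_eq_sum (h.pow_eq hx), exp_eq_sum (k := c + 1) (a := LinearMap.mulRight ℚ x)
      (by rw [LinearMap.pow_mulRight, h.pow_eq hx, LinearMap.mulRight_zero_eq_zero])]
    simp only [LinearMap.pow_mulRight, LinearMap.sum_apply, LinearMap.smul_apply,
      LinearMap.mulRight_apply, Finset.mul_sum, mul_smul_comm]
  have e3 : ∀ k, ((LinearMap.mulLeft ℚ x - LinearMap.mulRight ℚ x) ^ k) • y = (cm x)^[k] y :=
    fun k => Module.End.pow_apply _ k y
  have h1 : ∀ k, (cm x)^[k] y ∈ N ^ (k + 1) := fun k => by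
    induction k with
    | zero => exact ExpLog_one.2 hy
    | succ k ih =>
      rw [Function.iterate_succ_apply']
      refine Submodule.sub_mem _ ?_ (ExpLog_mul ih (ExpLog_one.2 hx))
      rw [add_comm]
      exact ExpLog_mul (ExpLog_one.2 hx) ih
  have h2 := h.pow_anti (Nat.le_add_left 1 c) (Nat.le_succ _) (h1 (c + 1))
  rw [h.pow_succ_eq_bot, Submodule.mem_bot, ← e3] at h2
  have e4 := exp_smul_eq_sum h2 hD
  simp only [e3] at e4
  rw [← e4, ← e2, ← e1, Module.End.smul_def, ← Module.End.mul_apply,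
    ← exp_add_of_commute (hc.symm.sub_right (Commute.refl _)) hR hD, add_sub_cancel]

theorem NilAlg.exp_conj (h : NilAlg N c) {x y : A} (hx : x ∈ N) (hy : y ∈ N) :
    exp x * exp y * exp (-x) =
      exp (∑ k ∈ Finset.range (c + 1), ((k.factorial : ℚ)⁻¹) • (cm x)^[k] y) := by
  have hn := h.isNilpotent hx
  let u : Aˣ := ⟨exp x, exp (-x), exp_mul_exp_neg_self hn, exp_neg_mul_exp_self hn⟩
  have e : exp (exp x * y * exp (-x)) = exp x * exp y * exp (-x) :=
    exp_smul (ConjAct.toConjAct u) (h.isNilpotent hy)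
  rw [← e, h.exp_mul_eq hx hy, mul_assoc, exp_mul_exp_neg_self hn, mul_one]

theorem LogGrp.zsmul_mem (h : NilAlg N c) {X : Set A} (hX : LogGrp N X) {x : A} (hx : x ∈ X)
    (k : ℤ) : k • x ∈ X := by
  have h1 : ∀ m : ℕ, m • x ∈ X := fun m => by
    induction m with
    | zero => exact (zero_smul ℕ x).symm ▸ hX.zero
    | succ m ih =>
      obtain ⟨z, hz, e⟩ := hX.mul _ ih x hx
      rw [h.exp_nsmul (hX.sub x hx), ← _root_.pow_succ, ← h.exp_nsmul (hX.sub x hx)] at e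
      exact h.exp_inj (hX.sub z hz) (N.smul_of_tower_mem _ (hX.sub x hx)) e ▸ hz
  obtain ⟨m, rfl | rfl⟩ := k.eq_nat_or_neg
  · exact (natCast_zsmul x m).symm ▸ h1 m
  · rw [neg_smul, natCast_zsmul]
    exact hX.neg _ (h1 m)

/-- The product algebra. -/
theorem NilAlg.pi (h : NilAlg N c) (ι : Type) :
    NilAlg (Submodule.pi Set.univ fun _ : ι => N) c := by
  refine ⟨fun x hx y hy i hi => h.mul_mem _ (hx i hi) _ (hy i hi), fun l hl hm => funext fun i => ?_⟩
  refine (map_list_prod (Pi.evalRingHom (fun _ : ι => A) i) l).trans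
    (h.prod_eq _ ((List.length_map _).trans hl) fun y hy => ?_)
  obtain ⟨z, hz, rfl⟩ := List.mem_map.1 hy
  exact hm z hz i trivial

theorem NilAlg.exp_apply (h : NilAlg N c) {ι : Type} {x : ι → A} (hx : ∀ i, x i ∈ N) (i : ι) :
    exp x i = exp (x i) := by
  exact map_exp ((h.pi ι).isNilpotent fun i _ => hx i) (Pi.evalRingHom (fun _ : ι => A) i)

end Pool.Agent.Work.MP_913e71_al.Pos
end

-- merged part: Pool.Agent.Work.MP_913e71_al.Pos.DExp
section
/-! The derivative of the exponential.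

PLAN.  `D 1 = 0`.  By induction on `m`:
`D (Z ^ m) = ∑ k ∈ range m, choose m (k + 1) • (cm Z)^[k] (D Z) * Z ^ (m - 1 - k)`
(`Z ^ (m + 1) = Z * Z ^ m`, `Z * u = cm Z u + u * Z`, Pascal).  Then `exp_eq_sum` with `c + 1` terms;
`(cm Z)^[k] (D Z) * Z ^ j ∈ N ^ (k + 1 + j)` vanishes when `k + 1 + j > c`; reindex `m = k + 1 + j`. -/

namespace Pool.Agent.Work.MP_913e71_al.Pos

open IsNilpotent

theorem DExp_pow {B : Type} [Ring B] [Algebra ℚ B] (D : B →ₗ[ℚ] B)
    (hD : ∀ a b, D (a * b) = D a * b + a * D b) (Z : B) (m : ℕ) : D (Z ^ (m + 1)) =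
      ∑ k ∈ Finset.range (m + 1), (m + 1).choose (k + 1) • ((cm Z)^[k] (D Z) * Z ^ (m - k)) := by
  induction m with
  | zero => simp
  | succ m ih =>
    rw [pow_succ', hD, ih, Finset.mul_sum]
    simp only [Nat.choose_succ_succ' (m + 1), add_smul, Finset.sum_add_distrib]
    rw [Finset.sum_range_succ' _ (m + 1), Finset.sum_range_succ _ (m + 1), Nat.choose_succ_self,
      zero_smul, add_zero, add_right_comm, ← Finset.sum_add_distrib, Nat.choose_zero_right, one_smul,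
      add_comm]
    refine congrArg₂ _ (Finset.sum_congr rfl fun k hk => ?_) rfl
    have e : m + 1 - k = m - k + 1 := by
      have := Finset.mem_range.1 hk
      omega
    rw [Function.iterate_succ_apply', Nat.add_sub_add_right, e, pow_succ', ← smul_add, mul_smul_comm,
      cm, sub_mul, mul_assoc, mul_assoc, sub_add_cancel]

theorem DExp_zero {B : Type} [Ring B] [Algebra ℚ B] {N : Submodule ℚ B} {c : ℕ} (h : NilAlg N c)
    {Z u : B} (hZ : Z ∈ N) (hu : u ∈ N) {k j : ℕ} (hc : c ≤ k + j) : (cm Z)^[k] u * Z ^ j = 0 := by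
  have h1 : (cm Z)^[k] u ∈ N ^ (k + 1) := by
    clear hc
    induction k with
    | zero => simpa using hu
    | succ k ih =>
      rw [Function.iterate_succ_apply', cm]
      refine sub_mem ?_ ?_
      · rw [pow_succ']
        exact Submodule.mul_mem_mul hZ ih
      · rw [_root_.pow_succ]
        exact Submodule.mul_mem_mul ih hZ
  have h2 := Submodule.mul_mem_mul h1 (Submodule.pow_mem_pow N hZ j)
  have e : k + 1 + j = c + 1 + (k + j - c) := by omega
  rwa [← pow_add, e, pow_add, h.pow_succ_eq_bot, Submodule.bot_mul, Submodule.mem_bot] at h2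

theorem dexp {B : Type} [Ring B] [Algebra ℚ B] {N : Submodule ℚ B} {c : ℕ} (h : NilAlg N c)
    (D : B →ₗ[ℚ] B) (hD : ∀ a b, D (a * b) = D a * b + a * D b) {Z : B} (hZ : Z ∈ N)
    (hZ' : D Z ∈ N) :
    D (exp Z) =
      (∑ k ∈ Finset.range (c + 1), (((k + 1).factorial : ℚ)⁻¹) • (cm Z)^[k] (D Z)) * exp Z := by
  have h1 : D 1 = 0 := by simpa using hD 1 1
  have h2 : Z ^ (c + 1 + 1) = 0 := by rw [_root_.pow_succ, h.pow_eq hZ, zero_mul]
  conv_lhs => rw [exp_eq_sum h2]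
  rw [exp_eq_sum (h.pow_eq hZ), map_sum, Finset.sum_range_succ', pow_zero, map_smul, h1, smul_zero,
    add_zero, Finset.sum_mul_sum]
  have h3 := Finset.sum_range_diag_flip (c + 1) fun k j =>
    (((k + 1).factorial : ℚ)⁻¹ • (cm Z)^[k] (D Z)) * ((j.factorial : ℚ)⁻¹ • Z ^ j)
  refine Eq.trans (Finset.sum_congr rfl fun m _ => ?_) (h3.trans (Finset.sum_congr rfl fun k _ => ?_))
  · rw [map_smul, DExp_pow D hD, Finset.smul_sum]
    refine Finset.sum_congr rfl fun k hk => ?_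
    have hk' : k + 1 ≤ m + 1 := Finset.mem_range.1 hk
    rw [smul_mul_smul_comm, ← Nat.cast_smul_eq_nsmul ℚ, smul_smul, Nat.cast_choose ℚ hk',
      Nat.add_sub_add_right]
    refine congrArg (· • _) ?_
    have := Nat.factorial_ne_zero (m + 1)
    field_simp
  · refine Finset.sum_subset (Finset.range_subset_range.2 (Nat.sub_le _ _)) fun j _ hj => ?_
    rw [Finset.mem_range] at hj
    rw [smul_mul_smul_comm, DExp_zero h hZ hZ' (by omega), smul_zero]

end Pool.Agent.Work.MP_913e71_al.Pos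
end

-- merged part: Pool.Agent.Work.MP_913e71_al.Pos.Bch
section
/-! The Baker Campbell Hausdorff theorem in a nilpotent algebra.

PLAN for `bch_nonunif`.  Work in `B = A[X]` with `D = derivative` (as a `ℚ`-linear map).  The
polynomials with all coefficients in `N` form `N₁` with `NilAlg N₁ c`; those which moreover have zero
constant term form `N₀` with `NilAlg N₀ c`.  Let `a = monomial 1 x`, `b = monomial 1 y` in `N₀` and
`Z ∈ N₀` with `exp Z = exp a * exp b` (`exists_exp_mul`).  `dexp` gives `D (exp a) = C x * exp a`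
(`cm a (C x) = 0`), `D (exp b) = C y * exp b`; with `exp_mul_eq`, `dexp` for `Z` and cancelling the unit
`exp Z`:  `∑ k, (k + 1)!⁻¹ • (cm Z)^[k] (D Z) = C x + ∑ k, k!⁻¹ • (cm a)^[k] (C y)`.
Let `T k = TS cm (cond · x y) k` (`filt_TS`).  The coefficient `k` of the right side is in `T (k + 1)`
and is `x + y` for `k = 0`.  Strong induction: `coeff Z k ∈ T k`; if this holds for `i ≤ k` then the
coefficients `i ≤ k` of `(cm Z)^[j] (D Z)`, `j ≥ 1`, are in `T (i + 1)` (as `coeff Z 0 = 0`, the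
coefficient `i` of `cm Z P` only uses the coefficients `< i` of `P`), so `(k + 1) • coeff Z (k + 1)`
is in `T (k + 1)`; and `coeff Z 1 = x + y`.  Evaluate at `1` (`Polynomial.eval₂RingHom'` with
`RingHom.id A` and `1`, `map_exp`): `z = ∑ k ≥ 2, coeff Z k`.

PLAN for `exists_bch`.  Apply `bch_nonunif` in the product algebra over `ι = N × N` (`NilAlg.pi`) to the
two projections, write `z` as a finite combination (`Finsupp.mem_span_image_iff_linearCombination` or span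
induction on the statement `∃ q, Len2 q ∧ z = q.sum ..`), and project (`exp_apply`, `map_ev`). -/

namespace Pool.Agent.Work.MP_913e71_al.Pos

open IsNilpotent

variable {A : Type} [Ring A] [Algebra ℚ A] {N : Submodule ℚ A} {c : ℕ}

/-- Polynomials with coefficients in a subspace. -/
def Bch_co (M : Submodule ℚ A) : Submodule ℚ (Polynomial A) where
  carrier := {P | ∀ i, P.coeff i ∈ M}
  zero_mem' := fun _ => zero_mem M
  add_mem' := fun {a b} ha hb i => by
    rw [Polynomial.coeff_add]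
    exact add_mem (ha i) (hb i)
  smul_mem' := fun r a ha i => by
    rw [Polynomial.coeff_smul]
    exact M.smul_mem r (ha i)

theorem Bch_mul {M M' : Submodule ℚ A} {P Q : Polynomial A} (hP : P ∈ Bch_co M)
    (hQ : Q ∈ Bch_co M') : P * Q ∈ Bch_co (M * M') := fun i => by
  rw [Polynomial.coeff_mul]
  exact sum_mem fun _ _ => Submodule.mul_mem_mul (hP _) (hQ _)

theorem Bch_prod (l : List (Polynomial A)) (hl : ∀ P ∈ l, P ∈ Bch_co N) :
    l.prod ∈ Bch_co (N ^ l.length) := by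
  induction l with
  | nil =>
    intro i
    rw [List.prod_nil, Polynomial.coeff_one, List.length_nil, pow_zero]
    split_ifs
    · exact Submodule.one_le.1 le_rfl
    · exact zero_mem _
  | cons a l ih =>
    rw [List.prod_cons, List.length_cons, pow_succ']
    exact Bch_mul (hl a (by simp)) (ih fun P hP => hl P (by simp [hP]))

theorem Bch_nil (h : NilAlg N c) : NilAlg (Bch_co N) c := by
  refine ⟨fun P hP Q hQ i => ?_, fun l h1 h2 => Polynomial.ext fun i => ?_⟩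
  · rw [Polynomial.coeff_mul]
    exact sum_mem fun _ _ => h.mul_mem _ (hP _) _ (hQ _)
  · have e := Bch_prod l h2 i
    rw [h1, h.pow_succ_eq_bot] at e
    exact e

omit [Algebra ℚ A] in
theorem Bch_cm (P Q : Polynomial A) (n : ℕ) : (cm P Q).coeff n =
    ∑ k ∈ Finset.HasAntidiagonal.antidiagonal n, cm (P.coeff k.1) (Q.coeff k.2) := by
  simp only [cm]
  rw [Polynomial.coeff_sub, Polynomial.coeff_mul, Polynomial.coeff_mul, Finset.sum_sub_distrib,
    ← Finset.Nat.sum_antidiagonal_swap (f := fun k => Q.coeff k.1 * P.coeff k.2)]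
  rfl

theorem Bch_step {F : ℕ → Submodule ℚ A} (hF : Filt cm F) {Z P : Polynomial A} {n : ℕ}
    (h0 : Z.coeff 0 = 0) (hZ : ∀ i ≤ n, Z.coeff i ∈ F i) (hP : ∀ j < n, P.coeff j ∈ F (j + 1))
    (m : ℕ) (hm : m ≤ n) : (cm Z P).coeff m ∈ F (m + 1) := by
  rw [Bch_cm]
  refine sum_mem fun k hk => ?_
  obtain ⟨i, j⟩ := k
  rw [Finset.HasAntidiagonal.mem_antidiagonal] at hk
  dsimp only at hk ⊢
  rcases Nat.eq_zero_or_pos i with rfl | hi
  · rw [h0, bil_cm.zero_left]
    exact zero_mem _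
  · rw [← hk, add_assoc]
    exact hF.br_mem _ _ _ (hZ i (by omega)) _ (hP j (by omega))

theorem Bch_iter {F : ℕ → Submodule ℚ A} (hF : Filt cm F) {Z P : Polynomial A} {n : ℕ}
    (h0 : Z.coeff 0 = 0) (hZ : ∀ i ≤ n, Z.coeff i ∈ F i) (hP : ∀ j < n, P.coeff j ∈ F (j + 1))
    (k m : ℕ) (hm : m ≤ n) : ((cm Z)^[k + 1] P).coeff m ∈ F (m + 1) := by
  induction k generalizing m with
  | zero => exact Bch_step hF h0 hZ hP m hm
  | succ k ih =>
    rw [Function.iterate_succ_apply']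
    exact Bch_step hF h0 hZ (fun j hj => ih j hj.le) m hm

theorem Bch_iter0 {Z : Polynomial A} (h0 : Z.coeff 0 = 0) (P : Polynomial A) (k : ℕ) :
    ((cm Z)^[k + 1] P).coeff 0 = 0 := by
  rw [Function.iterate_succ_apply', Bch_cm, Finset.Nat.antidiagonal_zero, Finset.sum_singleton, h0,
    bil_cm.zero_left]

theorem Bch_C {M : ℕ → Submodule ℚ A} {x : A} (hx : x ∈ M 0) (i : ℕ) :
    (Polynomial.C x).coeff i ∈ M i := by
  rw [Polynomial.coeff_C]
  split_ifs with e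
  · exact e ▸ hx
  · exact zero_mem _

theorem Bch_CX {M : ℕ → Submodule ℚ A} {x : A} (hx : x ∈ M 1) (i : ℕ) :
    (Polynomial.C x * Polynomial.X).coeff i ∈ M i := by
  rw [Polynomial.coeff_C_mul_X]
  split_ifs with e
  · exact e ▸ hx
  · exact zero_mem _

theorem Bch_dlin (h : NilAlg N c) {x : A} (hx : x ∈ N) :
    Polynomial.derivative (exp (Polynomial.C x * Polynomial.X)) =
      Polynomial.C x * exp (Polynomial.C x * Polynomial.X) := by
  have e := dexp (Bch_nil h) (Polynomial.derivative.restrictScalars ℚ)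
    (fun _ _ => Polynomial.derivative_mul) (Z := Polynomial.C x * Polynomial.X)
    (Bch_CX (M := fun _ => N) hx) (by
      rw [LinearMap.restrictScalars_apply, Polynomial.derivative_C_mul_X]
      exact Bch_C (M := fun _ => N) hx)
  have e0 : cm (Polynomial.C x * Polynomial.X) (Polynomial.C x) = 0 := by
    rw [cm, mul_assoc, Polynomial.X_mul_C, sub_self]
  simp only [LinearMap.restrictScalars_apply, Polynomial.derivative_C_mul_X] at e
  rw [e, Finset.sum_range_succ', Finset.sum_eq_zero fun k _ => ?_]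
  · simp
  · rw [Function.iterate_succ_apply, e0, Function.iterate_fixed (bil_cm.zero_right _), smul_zero]

theorem Bch_ode (h : NilAlg N c) {x y : A} (hx : x ∈ N) (hy : y ∈ N) {Z : Polynomial A}
    (hZ : Z ∈ Bch_co N)
    (e : exp Z = exp (Polynomial.C x * Polynomial.X) * exp (Polynomial.C y * Polynomial.X)) (n : ℕ) :
    (n + 1) • Z.coeff (n + 1) = (Polynomial.C x).coeff n + (Polynomial.C y).coeff n +
      ∑ k ∈ Finset.range c, (((k + 1).factorial : ℚ)⁻¹) •
        ((cm (Polynomial.C x * Polynomial.X))^[k + 1] (Polynomial.C y)).coeff n -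
      ∑ k ∈ Finset.range c, (((k + 1 + 1).factorial : ℚ)⁻¹) •
        ((cm Z)^[k + 1] (Polynomial.derivative Z)).coeff n := by
  have h1 := Bch_nil h
  have d : ∀ i, (Polynomial.derivative Z).coeff i = (i + 1) • Z.coeff (i + 1) := fun i => by
    rw [Polynomial.coeff_derivative, nsmul_eq_mul', Nat.cast_succ]
  have e1 := dexp h1 (Polynomial.derivative.restrictScalars ℚ)
    (fun _ _ => Polynomial.derivative_mul) hZ (fun i => by
      rw [LinearMap.restrictScalars_apply, d]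
      exact nsmul_mem (hZ _) _)
  simp only [LinearMap.restrictScalars_apply] at e1
  have e2 := h1.exp_mul_eq (Bch_CX (M := fun _ => N) hx) (Bch_C (M := fun _ => N) hy)
  conv_lhs at e1 => rw [e, Polynomial.derivative_mul, Bch_dlin h hx, Bch_dlin h hy, ← mul_assoc, e2,
    mul_assoc, mul_assoc, ← add_mul, ← e]
  have e3 := congrArg (fun P => Polynomial.coeff P n)
    ((isUnit_exp (h1.isNilpotent hZ)).mul_right_cancel e1)
  simp only [Finset.sum_range_succ', Polynomial.coeff_add, Polynomial.finsetSum_coeff,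
    Polynomial.coeff_smul, Function.iterate_zero, id_eq, Nat.factorial_zero, zero_add,
    Nat.factorial_one, Nat.cast_one, inv_one, one_smul, d] at e3
  rw [eq_sub_iff_add_eq, add_comm, ← e3]
  abel

theorem Bch_gen (h : NilAlg N c) {F : ℕ → Submodule ℚ A} (hF : Filt cm F) {x y : A} (hx : x ∈ N)
    (hy : y ∈ N) (hx' : x ∈ F 1) (hy' : y ∈ F 1) :
    ∃ z ∈ F 2, exp x * exp y = exp (x + y + z) := by
  have h1 := Bch_nil h
  have ha : Polynomial.C x * Polynomial.X ∈ Bch_co N := Bch_CX (M := fun _ => N) hx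
  have hb : Polynomial.C y * Polynomial.X ∈ Bch_co N := Bch_CX (M := fun _ => N) hy
  obtain ⟨Z, hZ, e⟩ := h1.exists_exp_mul ha hb
  have a0 : ∀ u : A, (Polynomial.C u * Polynomial.X).coeff 0 = 0 := fun u => by simp
  have z0 : Z.coeff 0 = 0 := by
    have e1 := congrArg Polynomial.constantCoeff e
    rw [map_mul, map_exp (h1.isNilpotent hZ), map_exp (h1.isNilpotent ha),
      map_exp (h1.isNilpotent hb)] at e1
    simp only [Polynomial.constantCoeff_apply, a0, exp_zero, one_mul] at e1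
    exact h.exp_inj (hZ 0) (zero_mem N) (e1.trans exp_zero.symm)
  have z1 : Z.coeff 1 = x + y := by
    have e1 := Bch_ode h hx hy hZ e 0
    simpa [Bch_iter0 z0, Bch_iter0 (a0 x), -Function.iterate_succ] using e1
  have zn : ∀ n, ∀ i ≤ n, Z.coeff i ∈ F i := by
    intro n
    induction n with
    | zero =>
      intro i hi
      rw [Nat.le_zero.1 hi, z0]
      exact zero_mem _
    | succ n ih =>
      intro i hi
      rcases Nat.lt_or_ge i (n + 1) with hi' | hi'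
      · exact ih i (by omega)
      obtain rfl : i = n + 1 := by omega
      rw [← Submodule.smul_mem_iff _ (Nat.cast_ne_zero.2 n.succ_ne_zero : ((n + 1 : ℕ) : ℚ) ≠ 0),
        Nat.cast_smul_eq_nsmul, Bch_ode h hx hy hZ e n]
      refine sub_mem (add_mem (add_mem (Bch_C (M := fun i => F (i + 1)) hx' n)
        (Bch_C (M := fun i => F (i + 1)) hy' n)) (sum_mem fun k _ => Submodule.smul_mem _ _ ?_))
        (sum_mem fun k _ => Submodule.smul_mem _ _ ?_)
      · exact Bch_iter hF (a0 x) (fun i _ => Bch_CX hx' i)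
          (fun j _ => Bch_C (M := fun i => F (i + 1)) hy' j) k n le_rfl
      · refine Bch_iter hF z0 ih (fun j hj => ?_) k n le_rfl
        rw [Polynomial.coeff_derivative, ← Nat.cast_succ, ← nsmul_eq_mul']
        exact nsmul_mem (ih _ hj) _
  let φ : Polynomial A →+* A :=
    Polynomial.eval₂RingHom' (RingHom.id A) 1 fun a => Commute.one_right _
  have p1 : ∀ u : A, φ (Polynomial.C u * Polynomial.X) = u := fun u => by simp [φ]
  have e1 := congrArg φ e
  rw [map_mul, map_exp (h1.isNilpotent hZ), map_exp (h1.isNilpotent ha),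
    map_exp (h1.isNilpotent hb), p1, p1] at e1
  refine ⟨∑ i ∈ Finset.range Z.natDegree, Z.coeff (i + 1 + 1),
    sum_mem fun i _ => hF.anti (by omega) (zn _ _ le_rfl), ?_⟩
  rw [← e1]
  congr 1
  change Polynomial.eval₂ (RingHom.id A) 1 Z = _
  rw [Polynomial.eval₂_eq_sum_range' _ (show Z.natDegree < Z.natDegree + 1 + 1 by omega),
    Finset.sum_range_succ', Finset.sum_range_succ']
  simp only [RingHom.id_apply, one_pow, mul_one, zero_add, z0, z1, add_zero]
  exact add_comm _ _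

theorem bch_nonunif (h : NilAlg N c) {x y : A} (hx : x ∈ N) (hy : y ∈ N) :
    ∃ z ∈ TS cm (fun t => cond t x y) 2, exp x * exp y = exp (x + y + z) :=
  Bch_gen h (filt_TS bil_cm _) hx hy (ev_mem_TS (fun t => cond t x y) (FreeMagma.of true) le_rfl)
    (ev_mem_TS (fun t => cond t x y) (FreeMagma.of false) le_rfl)

theorem exists_bch (h : NilAlg N c) : ∃ q : FreeMagma Bool →₀ ℚ, Len2 q ∧
    ∀ x ∈ N, ∀ y ∈ N, exp x * exp y = exp (bch cm q x y) := by
  have h1 := h.pi (N × N)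
  have hx : (fun i : N × N => (i.1 : A)) ∈ Submodule.pi Set.univ fun _ : N × N => N :=
    fun i _ => i.1.2
  have hy : (fun i : N × N => (i.2 : A)) ∈ Submodule.pi Set.univ fun _ : N × N => N :=
    fun i _ => i.2.2
  obtain ⟨z, hz, e⟩ := bch_nonunif h1 hx hy
  have hz' := h1.TS_le (fun t => by cases t <;> assumption) 2 hz
  obtain ⟨q, q1, q2⟩ := (Finsupp.mem_span_image_iff_linearCombination ℚ
    (s := {w : FreeMagma Bool | 2 ≤ w.length})).1 hz
  refine ⟨q, fun w hw => q1 hw, fun x hx0 y hy0 => ?_⟩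
  have e1 := congrFun e (⟨x, hx0⟩, ⟨y, hy0⟩)
  rw [Pi.mul_apply, h.exp_apply fun i => hx i trivial, h.exp_apply fun i => hy i trivial,
    h.exp_apply fun i => add_mem (add_mem hx hy) hz' i trivial] at e1
  rw [e1, ← q2]
  exact congrArg exp (map_bch (b := cm) (b' := cm)
    (LinearMap.proj (R := ℚ) (φ := fun _ : N × N => A) (⟨x, hx0⟩, ⟨y, hy0⟩)) (P := Set.univ)
    (fun _ _ _ _ => trivial) (fun _ _ _ _ => rfl) q trivial trivial)

theorem NilAlg.bch_mem (h : NilAlg N c) (q : FreeMagma Bool →₀ ℚ) {x y : A} (hx : x ∈ N)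
    (hy : y ∈ N) : bch cm q x y ∈ N :=
  add_mem (add_mem hx hy) (sum_mem fun w _ => N.smul_mem _
    (h.TS_le (fun t => by cases t <;> assumption) 0 (ev_mem_TS _ w (Nat.zero_le _))))

theorem Bch_succ (h : NilAlg N c) : NilAlg N (c + 1) := by
  refine ⟨h.mul_mem, fun l h1 h2 => ?_⟩
  rcases l with _ | ⟨a, l⟩
  · simp at h1
  · rw [List.prod_cons, h.prod_eq l (by simpa using h1) fun x hx => h2 x (by simp [hx]), mul_zero]

/-- The logarithm of a commutator.  By `exp_conj`, `exp x * exp y * exp (-x) = exp (y + δ)` with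
`δ - cm x y ∈ F (i + j + 1)`, `δ ∈ F (i + j)`.  So `z = bch cm q (y + δ) (-y)` (`exp_inj`), and each word
of length `≥ 2` in `(y + δ, -y)` is congruent modulo `F (i + j + 1)` to the word in `(y, -y)`
(`Filt.ev_sub` with `m + 1 = i + j`), which is zero (`ev_pure`). -/
theorem comm_cong (h : NilAlg N c) {F : ℕ → Submodule ℚ A} (hF : Filt cm F) (hF1 : F 1 ≤ N)
    {i j : ℕ} (hi : 1 ≤ i) (hj : 1 ≤ j) {x y z : A} (hx : x ∈ F i) (hy : y ∈ F j) (hz : z ∈ N)
    (e : exp z = exp x * exp y * exp (-x) * exp (-y)) : z - cm x y ∈ F (i + j + 1) := by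
  have hx1 : x ∈ F 1 := hF.anti hi hx
  have hy1 : y ∈ F 1 := hF.anti hj hy
  have it : ∀ k, (cm x)^[k] y ∈ F (k * i + j) := fun k => by
    induction k with
    | zero => simpa using hy
    | succ k ih =>
      rw [Function.iterate_succ_apply', show (k + 1) * i + j = i + (k * i + j) by ring]
      exact hF.br_mem _ _ _ hx _ ih
  obtain ⟨ε, he, e1⟩ : ∃ ε ∈ F (i + j + 1), exp x * exp y * exp (-x) = exp (ε + cm x y + y) := by
    refine ⟨∑ k ∈ Finset.range c, (((k + 1 + 1).factorial : ℚ)⁻¹) • (cm x)^[k + 1 + 1] y,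
      sum_mem fun k _ => Submodule.smul_mem _ _ (hF.anti (by nlinarith [Nat.zero_le (k * i)]) (it _)), ?_⟩
    rw [(Bch_succ h).exp_conj (hF1 hx1) (hF1 hy1), Finset.sum_range_succ', Finset.sum_range_succ']
    simp
  have hd : ε + cm x y ∈ F (i + j) := add_mem (hF.anti (by omega) he) (hF.br_mem _ _ _ hx _ hy)
  have hu : ε + cm x y + y ∈ F 1 := add_mem (hF.anti (by omega) hd) hy1
  obtain ⟨q, q1, q2⟩ := exists_bch h
  rw [e1, q2 _ (hF1 hu) _ (neg_mem (hF1 hy1))] at e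
  rw [h.exp_inj hz (h.bch_mem q (hF1 hu) (neg_mem (hF1 hy1))) e, bch,
    add_neg_cancel_right, add_right_comm ε, add_sub_cancel_right]
  refine add_mem he (sum_mem fun w hw => Submodule.smul_mem _ _ ?_)
  obtain ⟨m, hm⟩ : ∃ m, i + j = m + 1 := ⟨i + j - 1, by omega⟩
  have l2 := q1 w hw
  have s := hF.ev_sub bil_cm (m := m) (x := fun t => cond t (ε + cm x y + y) (-y))
    (x' := fun t => cond t y (-y)) (fun t => by cases t; exacts [neg_mem hy1, hu])
    (fun t => by cases t; exacts [neg_mem hy1, hy1]) (fun t => by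
      cases t
      · simp
      · simpa [← hm] using hd) w
  rw [ev_pure bil_cm cm_self (y := y) (x := fun t => cond t y (-y)) (fun t => by
    cases t
    exacts [neg_mem (Submodule.mem_span_singleton_self y), Submodule.mem_span_singleton_self y])
    w l2, sub_zero] at s
  exact hF.anti (by omega) s

end Pool.Agent.Work.MP_913e71_al.Pos
end
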