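import Pool.Agent.Work.MP_913e71_al.Pos.MalEx
import Pool.Agent.Work.MP_913e71_al.Pos.Bch

-- merged part: Pool.Agent.Work.MP_913e71_al.Pos.FinInd
section
/-! Passing to a finite index subgroup, and the final comparison.

PLAN.  `wordLength_sub`: first inequality by induction on words in `T`.  Second: choose `ρ : G → G` with
finite range, `g * (ρ g)⁻¹ ∈ H`, `ρ (h * g) = ρ g` for `h ∈ H`, `ρ 1 = 1`; by induction on the word `l`
from the right, the element `l.prod * (ρ l.prod)⁻¹` of `H` has length `≤ C * length l`, since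
`p * a * (ρ (p * a))⁻¹ = (p * (ρ p)⁻¹) * (ρ p * a * (ρ (ρ p * a))⁻¹)` and the last factor takes finitely many values.
`GrowTwo.of_sub`: `ball_le_index_mul` with `Λ = H`.  `SysTwo.of_sub`: `Λ.map H.subtype`
(`Subgroup.index_map_subtype`) and `Λ.subgroupOf H` (`Subgroup.relIndex_le..`, `index_comap`); `(C r) ^ β = C ^ β r ^ β`.
`le_of_two`: if all nontrivial elements of `Λ` have length `≥ 2 r + 1` then `ball r` injects into
`G ⧸ Λ` (`card_mul_ncard_le` or `ball_le_index_mul` with `ball (2 r) ∩ Λ = {1}`), so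
`r ^ D ≤ C * (2 r + 1) ^ β ≤ C' * r ^ β` for all `r ≥ 1` (`Gen_aux` in `Gen.lean`).
`dom_final`: `ballCard S r = ncard (ball S r)` (`ball_finite`); for `r < 1` use monotonicity in `r` and the
additive constant. -/

namespace Pool.Agent.Work.MP_913e71_al.Pos

open scoped ENNReal

variable {G : Type} [Group G] {S : Finset G}

theorem FinInd_rep (H : Subgroup G) [H.FiniteIndex] : ∃ (ρ : G → G) (k : G → H),
    (Set.range ρ).Finite ∧ (∀ h : H, k h = h) ∧ ∀ a p, k (a * p) = k (a * ρ p) * k p := by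
  classical
  obtain ⟨σ, σ1, σ2⟩ : ∃ σ : G ⧸ H → G, (∀ g : G, (σ g)⁻¹ * g ∈ H) ∧ σ (1 : G) = 1 := by
    refine ⟨fun q => if q = ((1 : G) : G ⧸ H) then 1 else q.out, fun g => ?_, if_pos rfl⟩
    refine QuotientGroup.eq.1 ?_
    dsimp only
    split_ifs with h
    · exact h.symm
    · exact QuotientGroup.out_eq' _
  refine ⟨fun g => σ g, fun g => ⟨(σ g)⁻¹ * g, σ1 g⟩, (Set.finite_range σ).subset ?_,
    fun h => Subtype.ext ?_, fun a p => Subtype.ext ?_⟩
  · rintro _ ⟨g, rfl⟩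
    exact ⟨_, rfl⟩
  · have e : ((h : G) : G ⧸ H) = ((1 : G) : G ⧸ H) :=
      (QuotientGroup.eq.2 (by rw [inv_one, one_mul]; exact h.2)).symm
    show (σ (h : G))⁻¹ * (h : G) = h
    rw [e, σ2, inv_one, one_mul]
  · have e : ((a * σ p : G) : G ⧸ H) = ((a * p : G) : G ⧸ H) :=
      QuotientGroup.eq.2 (by rw [mul_inv_rev, mul_assoc, inv_mul_cancel_left]; exact σ1 p)
    show (σ (a * p : G))⁻¹ * (a * p) = (σ (a * σ p : G))⁻¹ * (a * σ p) * ((σ p)⁻¹ * p)
    rw [e]
    group

theorem wordLength_sub (hS : Subgroup.closure (S : Set G) = ⊤) (H : Subgroup G) [H.FiniteIndex]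
    {T : Finset H} (hT : Subgroup.closure (T : Set H) = ⊤) : ∃ C : ℕ, 1 ≤ C ∧ ∀ h : H,
      wordLength (S : Set G) (h : G) ≤ C * wordLength (T : Set H) h ∧
      wordLength (T : Set H) h ≤ C * wordLength (S : Set G) (h : G) := by
  obtain ⟨ρ, k, hρ, k1, k2⟩ := FinInd_rep H
  have f1 : ((T : Set H) ∪ (T : Set H)⁻¹).Finite := T.finite_toSet.union T.finite_toSet.inv
  have f2 : (((S : Set G) ∪ (S : Set G)⁻¹) ×ˢ Set.range ρ).Finite :=
    (S.finite_toSet.union S.finite_toSet.inv).prod hρ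
  obtain ⟨C1, h1⟩ := (f1.image fun t : H => wordLength (S : Set G) (t : G)).bddAbove
  obtain ⟨C2, h2⟩ := (f2.image fun z => wordLength (T : Set H) (k (z.1 * z.2))).bddAbove
  have a : ∀ l : List H, (∀ s ∈ l, s ∈ (T : Set H) ∨ s⁻¹ ∈ (T : Set H)) →
      wordLength (S : Set G) (l.prod : H) ≤ C1 * l.length := fun l => by
    induction l with
    | nil => exact fun _ => wordLength_one.le
    | cons x l ih =>
      intro hl
      rw [List.prod_cons, List.length_cons, Subgroup.coe_mul, mul_add, mul_one, add_comm]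
      exact (wordLength_mul_le hS _ _).trans (add_le_add (h1 ⟨x, hl x List.mem_cons_self, rfl⟩)
        (ih fun s hs => hl s (List.mem_cons_of_mem x hs)))
  have b : ∀ l : List G, (∀ s ∈ l, s ∈ (S : Set G) ∨ s⁻¹ ∈ (S : Set G)) →
      wordLength (T : Set H) (k l.prod) ≤ C2 * l.length := fun l => by
    induction l with
    | nil => exact fun _ => ((congrArg _ (k1 1)).trans wordLength_one).le
    | cons x l ih =>
      intro hl
      rw [List.prod_cons, List.length_cons, k2, mul_add, mul_one, add_comm]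
      exact (wordLength_mul_le hT _ _).trans (add_le_add
        (h2 ⟨(x, ρ l.prod), ⟨hl x List.mem_cons_self, _, rfl⟩, rfl⟩)
        (ih fun s hs => hl s (List.mem_cons_of_mem x hs)))
  refine ⟨C1 + C2 + 1, by omega, fun h => ⟨?_, ?_⟩⟩
  · obtain ⟨l, e, hl, rfl⟩ := exists_word hT h
    rw [← e]
    exact (a l hl).trans (Nat.mul_le_mul_right _ (by omega))
  · obtain ⟨l, e, hl, e'⟩ := exists_word hS (h : G)
    have c := b l hl
    rw [e', k1] at c
    rw [← e]
    exact c.trans (Nat.mul_le_mul_right _ (by omega))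

theorem GrowTwo.of_sub (hS : Subgroup.closure (S : Set G) = ⊤) (H : Subgroup G) [H.FiniteIndex]
    {T : Finset H} (hT : Subgroup.closure (T : Set H) = ⊤) {D : ℕ} (h : GrowTwo (T : Set H) D) :
    GrowTwo (S : Set G) D := by
  obtain ⟨C0, hC0, hw⟩ := wordLength_sub hS H hT
  obtain ⟨C1, hC1, h⟩ := h
  have c0 : (1 : ℝ) ≤ C0 := by exact_mod_cast hC0
  have c1 : (1 : ℝ) ≤ H.index := by
    exact_mod_cast Nat.one_le_iff_ne_zero.2 Subgroup.FiniteIndex.index_ne_zero
  have c2 : (C0 : ℝ) ^ D ≤ (2 * C0) ^ D := pow_le_pow_left₀ (by linarith) (by linarith) D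
  have c3 : (1 : ℝ) ≤ C0 ^ D := one_le_pow₀ c0
  have c4 : C1 * C0 ^ D ≤ H.index * (C1 * (2 * C0) ^ D) :=
    (mul_le_mul_of_nonneg_left c2 (by linarith)).trans (le_mul_of_one_le_left (by positivity) c1)
  have c5 : (C0 : ℝ) ^ D ≤ C1 * C0 ^ D := le_mul_of_one_le_left (by positivity) hC1
  refine ⟨H.index * (C1 * (2 * C0) ^ D), by linarith, fun r hr => ⟨?_, ?_⟩⟩
  · refine le_trans ?_ (mul_le_mul_of_nonneg_right c4 (Nat.cast_nonneg _))
    rcases le_total r C0 with k | k
    · have a : (1 : ℝ) ≤ (ball (S : Set G) r).ncard := by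
        exact_mod_cast (Set.ncard_pos (ball_finite hS r)).2
          ⟨1, show ((wordLength (S : Set G) 1 : ℕ) : ℝ) ≤ r by
            rw [wordLength_one, Nat.cast_zero]; linarith⟩
      exact ((pow_le_pow_left₀ (by linarith) k D).trans c5).trans
        (le_mul_of_one_le_right (by positivity) a)
    · have a := (h (r / C0) ((one_le_div (by linarith)).2 k)).1
      have b : (ball (T : Set H) (r / C0)).ncard ≤ (ball (S : Set G) r).ncard := by
        refine Set.ncard_le_ncard_of_injOn (fun x : H => (x : G)) (fun x hx => ?_)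
          Subtype.val_injective.injOn (ball_finite hS r)
        have e : ((wordLength (S : Set G) (x : G) : ℕ) : ℝ) ≤ C0 * wordLength (T : Set H) x := by
          exact_mod_cast (hw x).1
        have e' := (le_div_iff₀' (by linarith : (0 : ℝ) < C0)).1 hx
        exact e.trans e'
      rw [div_pow, div_le_iff₀ (by positivity)] at a
      have b' : ((ball (T : Set H) (r / C0)).ncard : ℝ) ≤ (ball (S : Set G) r).ncard := by
        exact_mod_cast b
      calc r ^ D ≤ C1 * C0 ^ D * (ball (T : Set H) (r / C0)).ncard := by linarith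
        _ ≤ _ := by gcongr
  · have a : ((ball (S : Set G) r).ncard : ℝ) ≤
        H.index * (ball (S : Set G) (2 * r) ∩ H).ncard := by
      exact_mod_cast ball_le_index_mul hS H r
    have b : (ball (S : Set G) (2 * r) ∩ H).ncard ≤ (ball (T : Set H) (2 * C0 * r)).ncard := by
      refine le_trans (Set.ncard_le_ncard ?_ ((ball_finite hT _).image Subtype.val))
        (Set.ncard_image_le (ball_finite hT _))
      rintro x ⟨hx, hx'⟩
      refine ⟨⟨x, hx'⟩, ?_, rfl⟩
      have e : ((wordLength (T : Set H) ⟨x, hx'⟩ : ℕ) : ℝ) ≤ C0 * wordLength (S : Set G) x := by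
        exact_mod_cast (hw ⟨x, hx'⟩).2
      have e' := mul_le_mul_of_nonneg_left (show ((wordLength (S : Set G) x : ℕ) : ℝ) ≤ 2 * r from hx)
        (by linarith : (0 : ℝ) ≤ C0)
      show ((wordLength (T : Set H) ⟨x, hx'⟩ : ℕ) : ℝ) ≤ 2 * C0 * r
      linarith
    have b' : ((ball (S : Set G) (2 * r) ∩ H).ncard : ℝ) ≤
        (ball (T : Set H) (2 * C0 * r)).ncard := by exact_mod_cast b
    have c := (h (2 * C0 * r) (by nlinarith)).2
    rw [mul_pow] at c
    calc _ ≤ _ := a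
      _ ≤ H.index * (C1 * ((2 * C0) ^ D * r ^ D)) := by gcongr; exact b'.trans c
      _ = _ := by ring

theorem SysTwo.of_sub (hS : Subgroup.closure (S : Set G) = ⊤) (H : Subgroup G) [H.FiniteIndex]
    {T : Finset H} (hT : Subgroup.closure (T : Set H) = ⊤) {β : ℝ} (h : SysTwo (T : Set H) β) :
    SysTwo (S : Set G) β := by
  obtain ⟨C0, hC0, hw⟩ := wordLength_sub hS H hT
  obtain ⟨C1, hC1, h⟩ := h
  have i0 : H.index ≠ 0 := Subgroup.FiniteIndex.index_ne_zero
  have c0 : (1 : ℝ) ≤ C0 := by exact_mod_cast hC0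
  have c1 : (1 : ℝ) ≤ H.index := by exact_mod_cast Nat.one_le_iff_ne_zero.2 i0
  have c2 : (0 : ℝ) < C0 ^ β := Real.rpow_pos_of_pos (by linarith) β
  obtain ⟨C, a1, a2⟩ : ∃ C : ℝ, C0 * C1 ≤ C ∧ C1 * C0 ^ β * H.index ≤ C :=
    ⟨_, le_max_left _ _, le_max_right _ _⟩
  have a3 : C1 ≤ C := (le_mul_of_one_le_left (by linarith) c0).trans a1
  refine ⟨C, hC1.trans a3, fun r hr => ⟨?_, fun Λ hΛ hs => ?_⟩⟩
  · obtain ⟨Λ, hΛ, hs, hi⟩ := (h (C0 * r) (by nlinarith)).1
    refine ⟨Λ.map H.subtype, ⟨?_⟩, ?_, ?_⟩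
    · rw [Subgroup.index_map_subtype]
      exact mul_ne_zero hΛ.index_ne_zero i0
    · rintro _ ⟨x, hx, rfl⟩ h1
      have e : ((wordLength (T : Set H) x : ℕ) : ℝ) ≤ C0 * wordLength (S : Set G) (x : G) := by
        exact_mod_cast (hw x).2
      exact le_of_mul_le_mul_left ((hs x hx fun e1 => h1 (by rw [e1, map_one])).trans e)
        (by linarith)
    · rw [Subgroup.index_map_subtype, Nat.cast_mul]
      rw [Real.mul_rpow (by linarith) (by linarith)] at hi
      have b : 0 < r ^ β := Real.rpow_pos_of_pos (by linarith) β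
      calc _ ≤ C1 * (C0 ^ β * r ^ β) * H.index := by gcongr
        _ = C1 * C0 ^ β * H.index * r ^ β := by ring
        _ ≤ _ := by gcongr
  · have b := (h r hr).2 (Λ.subgroupOf H) inferInstance fun x hx h1 => by
      have e : ((wordLength (S : Set G) (x : G) : ℕ) : ℝ) ≤ C0 * wordLength (T : Set H) x := by
        exact_mod_cast (hw x).1
      have e' := hs x hx fun e1 => h1 (Subtype.ext e1)
      have e'' := mul_le_mul_of_nonneg_right a1 (by linarith : 0 ≤ r)
      exact le_of_mul_le_mul_left (a := (C0 : ℝ)) (by linarith) (by linarith)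
    have c : (Λ.subgroupOf H).index ≤ Λ.index := by
      have := Subgroup.relIndex_le_of_le_right (H := Λ) (le_top : H ≤ ⊤)
        (by rw [Subgroup.relIndex_top_right]; exact hΛ.index_ne_zero)
      rwa [Subgroup.relIndex_top_right] at this
    refine b.trans (mul_le_mul a3 (by exact_mod_cast c) (Nat.cast_nonneg _) (by linarith))

theorem le_of_two (hS : Subgroup.closure (S : Set G) = ⊤) {D : ℕ} {β : ℝ}
    (hD : GrowTwo (S : Set G) D) (hβ : SysTwo (S : Set G) β) : (D : ℝ) ≤ β := by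
  obtain ⟨C1, hC1, h1⟩ := hD
  obtain ⟨C2, hC2, h2⟩ := hβ
  by_contra hb
  refine Gen_aux tendsto_natCast_atTop_atTop (p := D) (q := β) (a := 1) (K := C1 * (C2 * 3 ^ β))
    (not_le.1 hb) one_pos fun n hn => ?_
  obtain ⟨Λ, hΛ, hs, hi⟩ := (h2 (3 * n) (by linarith)).1
  have a : (ball (S : Set G) (2 * n) ∩ Λ).ncard ≤ 1 := by
    refine (Set.ncard_le_ncard (fun x hx => ?_) (Set.finite_singleton 1)).trans_eq
      (Set.ncard_singleton 1)
    by_contra hx1
    have e := hs x hx.2 hx1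
    have e' : ((wordLength (S : Set G) x : ℕ) : ℝ) ≤ 2 * n := hx.1
    linarith
  have b : ((ball (S : Set G) n).ncard : ℝ) ≤ Λ.index := by
    exact_mod_cast (ball_le_index_mul hS Λ n).trans
      ((Nat.mul_le_mul_left _ a).trans_eq (mul_one _))
  rw [Real.mul_rpow (by norm_num) (by linarith)] at hi
  rw [one_mul, Real.rpow_natCast]
  calc _ ≤ _ := (h1 n hn).1
    _ ≤ C1 * (C2 * (3 ^ β * (n : ℝ) ^ β)) := by gcongr; exact b.trans hi
    _ = _ := by ring

theorem dom_grow (hS : Subgroup.closure (S : Set G) = ⊤) {D : ℕ} (hD : GrowTwo (S : Set G) D) :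
    Dom (ballCard (S : Set G)) (fun r => ENNReal.ofReal (r ^ D)) ∧
      Dom (fun r => ENNReal.ofReal (r ^ D)) (ballCard (S : Set G)) := by
  obtain ⟨C, hC, h⟩ := hD
  have e : ∀ r, ballCard (S : Set G) r = ENNReal.ofReal (ball (S : Set G) r).ncard := fun r => by
    rw [ENNReal.ofReal_natCast, ← ENat.toENNReal_coe, (ball_finite hS r).cast_ncard_eq]
    rfl
  refine ⟨⟨C, 1, C, by linarith, one_pos, by linarith, fun r hr => ?_⟩,
    ⟨C, 1, 1, by linarith, one_pos, one_pos, fun r hr => ?_⟩⟩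
  · rw [e, one_mul, ← ENNReal.ofReal_mul (by linarith)]
    rcases le_total 1 r with k | k
    · exact (ENNReal.ofReal_le_ofReal (h r k).2).trans le_self_add
    · refine (ENNReal.ofReal_le_ofReal ?_).trans le_add_self
      have a := (h 1 le_rfl).2
      rw [one_pow, mul_one] at a
      refine le_trans ?_ a
      exact_mod_cast Set.ncard_le_ncard (fun x hx => le_trans hx k) (ball_finite hS 1)
  · rw [e, one_mul, ← ENNReal.ofReal_mul (by linarith)]
    rcases le_total 1 r with k | k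
    · exact (ENNReal.ofReal_le_ofReal (h r k).1).trans le_self_add
    · exact (ENNReal.ofReal_le_ofReal (pow_le_one₀ hr.le k)).trans le_add_self

theorem dom_sys {β : ℝ} (h0 : 0 ≤ β) (hβ : SysTwo (S : Set G) β) :
    Dom (sysIndex (S : Set G)) (fun r => ENNReal.ofReal (r ^ β)) ∧
      Dom (fun r => ENNReal.ofReal (r ^ β)) (sysIndex (S : Set G)) := by
  obtain ⟨C, hC, h⟩ := hβ
  have e : ∀ (r a : ℝ) (Λ : Subgroup G), Λ.FiniteIndex →
      (∀ x ∈ Λ, x ≠ 1 → r ≤ (wordLength (S : Set G) x : ℝ)) → (Λ.index : ℝ) ≤ a →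
      sysIndex (S : Set G) r ≤ ENNReal.ofReal a := fun r a Λ h1 h2 h3 => by
    refine (iInf_le_of_le Λ (iInf_le_of_le h1 (iInf_le _ h2))).trans ?_
    rw [← ENNReal.ofReal_natCast]
    exact ENNReal.ofReal_le_ofReal h3
  refine ⟨⟨C, 1, C, by linarith, one_pos, by linarith, fun r hr => ?_⟩,
    ⟨C, C, 1, by linarith, by linarith, one_pos, fun r hr => ?_⟩⟩
  · rw [one_mul, ← ENNReal.ofReal_mul (by linarith)]
    rcases le_total 1 r with k | k
    · obtain ⟨Λ, h1, h2, h3⟩ := (h r k).1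
      exact (e r _ Λ h1 h2 h3).trans le_self_add
    · obtain ⟨Λ, h1, h2, h3⟩ := (h 1 le_rfl).1
      rw [Real.one_rpow, mul_one] at h3
      exact (e r _ Λ h1 (fun x hx h1 => k.trans (h2 x hx h1)) h3).trans le_add_self
  · rcases le_total 1 r with k | k
    · refine le_trans ?_ le_self_add
      have a : ENNReal.ofReal (r ^ β / C) ≤ sysIndex (S : Set G) (C * r) := by
        refine le_iInf fun Λ => le_iInf fun h1 => le_iInf fun h2 => ?_
        rw [← ENNReal.ofReal_natCast]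
        exact ENNReal.ofReal_le_ofReal ((div_le_iff₀' (by linarith)).2 ((h r k).2 Λ h1 h2))
      refine le_trans (le_of_eq ?_) (mul_le_mul_right a _)
      rw [← ENNReal.ofReal_mul (by linarith), mul_div_cancel₀ _ (by linarith)]
    · exact (ENNReal.ofReal_le_ofReal (Real.rpow_le_one hr.le k h0)).trans le_add_self

end Pool.Agent.Work.MP_913e71_al.Pos
end

-- merged part: Pool.Agent.Work.MP_913e71_al.Pos.Swan
section
/-! Unipotent representations of an extension by an infinite cyclic group.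

PLAN for `tau_prod`.  Let `P i = map (θ ^ i) P`, `Q j` likewise (`θ = τ - 1`); they are stable under `τ`.
`θ (a * b) = θ a * τ b + a * θ b`, so `θ ^ k` maps `P * Q` into `⨆ i + j = k, P i * Q j`; if `i + j = K₁ + K₂`
then `i ≥ K₁` or `j ≥ K₂`.
PLAN for `swan_tau`.  `j = 0`: let `U i = span {φ n - 1 | n ∈ H ⊓ lowerCentralSeries i} ⊔ Δ ^ 2`;
`θ (φ n - 1) = (φ m - 1) * φ n` with `m = t * n * t⁻¹ * n⁻¹`, which is `φ m - 1` modulo `Δ ^ 2`; so `θ` maps
`U i` to `U (i + 1)`.  Induction on `j` with `tau_prod` (`Δ ^ (j + 2) = Δ ^ (j + 1) * Δ`).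
PLAN for `uni_of_rep`.  `A = Module.End ℚ (U ⧸ W.submoduleOf U)` (`LinearMap.restrict`, `Submodule.mapQ`,
or `Representation.subrepresentation`, `Representation.quotient`) times `TrivSqZeroExt ℚ ℚ`, where `g` acts
by `1 + κ g * ε`; take `M + 2`.
PLAN for `swan_step`.  `κ : G →* Multiplicative ℤ` with `g * t ^ (- κ g) ∈ H`.  `R = MonoidAlgebra ℚ G`,
`φ = of`, `σ g a = φ g * a * φ (t ^ (- κ g))`, `U = span {φ n | n ∈ H}`, `W = Δ ^ (m + 1)`, `m` the number in
`Uni H`.  `σ g - 1` maps `U` to `Δ`.  On `Δ ^ (j + 1)` put `P i = map (θ ^ i) (Δ ^ (j + 1)) ⊔ Δ ^ (j + 2)`.  For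
`g = n * t ^ k`: `σ g a = φ n * τ ^ k a ≡ τ ^ k a` modulo `Δ ^ (j + 2)`, and `τ ^ k - 1` maps `P i` to `P (i + 1)`
(induction on `k : ℤ`, `τ⁻¹` also preserves `P i`).  So products of `K` factors `σ g - 1` map `Δ ^ (j + 1)` to
`Δ ^ (j + 2)`; add up the `K`.  Faithfulness: the linear map `π : R → A`, `π (φ g) = ρ g` for `g ∈ H` and `0`
otherwise, has `π (φ n * a) = ρ n * π a`, so it kills `Δ ^ (m + 1)`; apply it to `σ n 1 - 1 = φ n - 1`. -/

namespace Pool.Agent.Work.MP_913e71_al.Pos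

theorem Uni.of_injective {G G' : Type} [Group G] [Group G'] (h : Uni G) (f : G' →* G)
    (hf : Function.Injective f) : Uni G' := by
  obtain ⟨A, _, _, ρ, M, hi, hM⟩ := h
  refine ⟨A, _, inferInstance, ρ.comp f, M, hi.comp hf, fun l hl => ?_⟩
  rw [← hM (l.map f) (by rwa [List.length_map]), List.map_map]
  rfl

theorem uni_of_subsingleton {G : Type} [Group G] [Subsingleton G] : Uni G := by
  refine ⟨ℚ, _, inferInstance, 1, 1, fun _ _ _ => Subsingleton.elim _ _, fun l hl => ?_⟩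
  obtain ⟨g, rfl⟩ := List.length_eq_one_iff.1 hl
  simp

theorem Swan_pow {V : Type} [AddCommGroup V] [Module ℚ V] {f : Module.End ℚ V}
    {P : Submodule ℚ V} (h : ∀ a ∈ P, f a ∈ P) (n : ℕ) : ∀ a ∈ P, ((f - 1) ^ n) a ∈ P := by
  induction n with
  | zero => exact fun a ha => ha
  | succ n ih => exact fun a ha => pow_succ (f - 1) n ▸ ih _ (P.sub_mem (h a ha) ha)

theorem Swan_mul {R : Type} [Ring R] [Algebra ℚ R] (τ : R →ₐ[ℚ] R) {P Q : Submodule ℚ R}
    (hP : ∀ a ∈ P, τ a ∈ P) (hQ : ∀ a ∈ Q, τ a ∈ Q) : ∀ a ∈ P * Q, τ a ∈ P * Q := fun _ ha =>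
  Submodule.mul_induction_on ha
    (fun x hx y hy => map_mul τ x y ▸ Submodule.mul_mem_mul (hP x hx) (hQ y hy))
    fun x y hx hy => map_add τ x y ▸ Submodule.add_mem _ hx hy

theorem Swan_npow {R : Type} [Ring R] [Algebra ℚ R] (τ : R →ₐ[ℚ] R) {P : Submodule ℚ R}
    (hP : ∀ a ∈ P, τ a ∈ P) (j : ℕ) : ∀ a ∈ P ^ (j + 1), τ a ∈ P ^ (j + 1) := by
  induction j with
  | zero => rwa [zero_add, pow_one]
  | succ j ih => exact pow_succ P (j + 1) ▸ Swan_mul τ ih hP

theorem tau_prod {R : Type} [Ring R] [Algebra ℚ R] (τ : R →ₐ[ℚ] R) {P P' Q Q' : Submodule ℚ R}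
    (hP : ∀ a ∈ P, τ a ∈ P) (hP' : ∀ a ∈ P', τ a ∈ P') (hQ : ∀ a ∈ Q, τ a ∈ Q)
    (hQ' : ∀ a ∈ Q', τ a ∈ Q') {K₁ K₂ : ℕ}
    (h₁ : ∀ a ∈ P, ((τ.toLinearMap - 1 : Module.End ℚ R) ^ K₁) a ∈ P')
    (h₂ : ∀ a ∈ Q, ((τ.toLinearMap - 1 : Module.End ℚ R) ^ K₂) a ∈ Q') :
    ∀ a ∈ P * Q, ((τ.toLinearMap - 1 : Module.End ℚ R) ^ (K₁ + K₂)) a ∈ P' * Q ⊔ P * Q' := by
  set θ : Module.End ℚ R := τ.toLinearMap - 1 with hθ
  have hZ : ∀ a ∈ P' * Q ⊔ P * Q', τ.toLinearMap a ∈ P' * Q ⊔ P * Q' := fun a ha => by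
    obtain ⟨x, hx, y, hy, rfl⟩ := Submodule.mem_sup.1 ha
    exact map_add τ.toLinearMap x y ▸
      Submodule.add_mem_sup (Swan_mul τ hP' hQ x hx) (Swan_mul τ hP hQ' y hy)
  have key : ∀ n K₁ K₂ : ℕ, K₁ + K₂ = n → ∀ a ∈ P, ∀ b ∈ Q, (θ ^ K₁) a ∈ P' → (θ ^ K₂) b ∈ Q' →
      (θ ^ n) (a * b) ∈ P' * Q ⊔ P * Q' := by
    intro n
    induction n with
    | zero =>
      intro K₁ K₂ h a _ b hb h1 _
      obtain rfl : K₁ = 0 := by omega
      exact Submodule.mem_sup_left (Submodule.mul_mem_mul h1 hb)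
    | succ n ih =>
      intro K₁ K₂ h a ha b hb h1 h2
      rcases K₁ with _ | K₁
      · exact Swan_pow hZ _ _ (Submodule.mem_sup_left (Submodule.mul_mem_mul h1 hb))
      rcases K₂ with _ | K₂
      · exact Swan_pow hZ _ _ (Submodule.mem_sup_right (Submodule.mul_mem_mul ha h2))
      have e : θ (a * b) = θ a * τ b + a * θ b := by
        show τ (a * b) - a * b = (τ a - a) * τ b + a * (τ b - b)
        rw [map_mul]
        noncomm_ring
      have c : Commute (θ ^ (K₂ + 1)) τ.toLinearMap :=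
        ((Commute.refl _).sub_left (Commute.one_left _)).pow_left _
      rw [pow_succ, Module.End.mul_apply, e, map_add]
      refine Submodule.add_mem _
        (ih K₁ (K₂ + 1) (by omega) _ (P.sub_mem (hP a ha) ha) _ (hQ b hb) (by rwa [pow_succ] at h1) ?_)
        (ih (K₁ + 1) K₂ (by omega) _ ha _ (Q.sub_mem (hQ b hb) hb) h1 (by rwa [pow_succ] at h2))
      exact (LinearMap.congr_fun c.eq b).symm ▸ hQ' _ h2
  exact fun a ha => Submodule.mul_induction_on ha
    (fun x hx y hy => key _ _ _ rfl x hx y hy (h₁ x hx) (h₂ y hy))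
    fun x y hx hy => map_add (θ ^ (K₁ + K₂)) x y ▸ Submodule.add_mem _ hx hy

theorem Swan_conj {G R : Type} [Group G] [Ring R] [Algebra ℚ R] (φ : G →* R)
    (H : Subgroup G) [hH : H.Normal] (t : G) (τ : R →ₐ[ℚ] R) (hτ : ∀ a, τ a = φ t * a * φ t⁻¹)
    (Δ : Submodule ℚ R) (hΔ : Δ = Submodule.span ℚ {a | ∃ n ∈ H, φ n - 1 = a}) :
    ∀ a ∈ Δ, τ a ∈ Δ := by
  subst hΔ
  refine fun a ha => Submodule.mem_comap.1
    ((Submodule.span_le (p := Submodule.comap τ.toLinearMap _)).2 ?_ ha)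
  rintro _ ⟨n, hn, rfl⟩
  refine Submodule.subset_span ⟨_, hH.conj_mem n hn t, ?_⟩
  show _ = τ _
  rw [map_sub, map_one, hτ, map_mul, map_mul]

theorem swan_tau {G R : Type} [Group G] [Group.IsNilpotent G] [Ring R] [Algebra ℚ R] (φ : G →* R)
    (H : Subgroup G) [H.Normal] (t : G) (τ : R →ₐ[ℚ] R) (hτ : ∀ a, τ a = φ t * a * φ t⁻¹)
    (Δ : Submodule ℚ R) (hΔ : Δ = Submodule.span ℚ {a | ∃ n ∈ H, φ n - 1 = a}) (j : ℕ) :
    ∃ K : ℕ, ∀ a ∈ Δ ^ (j + 1), ((τ.toLinearMap - 1 : Module.End ℚ R) ^ K) a ∈ Δ ^ (j + 2) := by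
  have h0 := Swan_conj φ H t τ hτ Δ hΔ
  have h1 : ∀ n ∈ H, φ n - 1 ∈ Δ := fun n hn => hΔ ▸ Submodule.subset_span ⟨n, hn, rfl⟩
  obtain ⟨c, hc⟩ := Group.IsNilpotent.nilpotent G
  have h2 : ∀ k, ∀ n ∈ H, n ∈ Subgroup.upperCentralSeries G k →
      ((τ.toLinearMap - 1 : Module.End ℚ R) ^ k) (φ n - 1) ∈ Δ ^ 2 := by
    intro k
    induction k with
    | zero =>
      intro n _ hn
      obtain rfl : n = 1 := by simpa using hn
      simp
    | succ k ih =>
      intro n hn hk
      have h3 : (n⁻¹ * t * n⁻¹⁻¹ * t⁻¹) ∈ H := by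
        rw [mul_assoc, mul_assoc, ← mul_assoc t]
        exact H.mul_mem (H.inv_mem hn) (Subgroup.Normal.conj_mem ‹_› _ (by simpa using hn) t)
      have e : (τ.toLinearMap - 1 : Module.End ℚ R) (φ n - 1) =
          (φ n - 1) * (φ (n⁻¹ * t * n⁻¹⁻¹ * t⁻¹) - 1) + (φ (n⁻¹ * t * n⁻¹⁻¹ * t⁻¹) - 1) := by
        show τ (φ n - 1) - (φ n - 1) = _
        have e' : φ t * φ n * φ t⁻¹ = φ n * φ (n⁻¹ * t * n⁻¹⁻¹ * t⁻¹) := by
          simp only [← map_mul]
          congr 1
          group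
        rw [map_sub, map_one, hτ, e']
        noncomm_ring
      rw [pow_succ _ k, Module.End.mul_apply, e, map_add]
      exact Submodule.add_mem _ (Swan_pow (Swan_npow τ h0 1) _ _
        (pow_two Δ ▸ Submodule.mul_mem_mul (h1 n hn) (h1 _ h3)))
        (ih _ h3 (Subgroup.mem_upperCentralSeries_succ_iff.1 (Subgroup.inv_mem _ hk) t))
  have h3 : ∀ a ∈ Δ, ((τ.toLinearMap - 1 : Module.End ℚ R) ^ c) a ∈ Δ ^ 2 := fun a ha => by
    rw [hΔ] at ha
    refine Submodule.mem_comap.1 ((Submodule.span_le (p := Submodule.comap _ (Δ ^ 2))).2 ?_ ha)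
    rintro _ ⟨n, hn, rfl⟩
    exact h2 c n hn (hc ▸ Subgroup.mem_top n)
  induction j with
  | zero => exact ⟨c, by rwa [zero_add, pow_one]⟩
  | succ j ih =>
    obtain ⟨K, hK⟩ := ih
    refine ⟨K + c, fun a ha => ?_⟩
    have h4 := tau_prod τ (Swan_npow τ h0 j) (Swan_npow τ h0 (j + 1)) h0 (Swan_npow τ h0 1) hK h3 a
      (pow_succ Δ (j + 1) ▸ ha)
    rwa [← pow_succ, ← pow_add, sup_idem] at h4

theorem uni_of_rep {G V : Type} [Group G] [AddCommGroup V] [Module ℚ V]
    (σ : G →* Module.End ℚ V) (U W : Submodule ℚ V) (hU : ∀ g, ∀ v ∈ U, σ g v ∈ U)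
    (hW : ∀ g, ∀ v ∈ W, σ g v ∈ W) (M : ℕ)
    (hM : ∀ l : List G, l.length = M → ∀ v ∈ U, (l.map fun g => σ g - 1).prod v ∈ W)
    (κ : G →* Multiplicative ℤ)
    (hf : ∀ g, κ g = 1 → (∀ v ∈ U, σ g v - v ∈ W) → g = 1) : Uni G := by
  let ρ : G →* Module.End ℚ (U ⧸ W.submoduleOf U) :=
    Representation.quotient (Representation.subrepresentation σ U hU) (W.submoduleOf U)
      fun g v hv => hW g v hv
  let ε : G →* DualNumber ℚ :=
    { toFun := fun g => 1 + ((κ g).toAdd : ℚ) • DualNumber.eps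
      map_one' := by simp
      map_mul' := fun g h => by ext <;> simp [add_comm] }
  have h1 : ∀ (l : List G) (v : U), ∃ w : U, (w : V) = (l.map fun g => σ g - 1).prod v ∧
      (l.map fun g => ρ g - 1).prod (Submodule.Quotient.mk v) = Submodule.Quotient.mk w := by
    intro l v
    induction l with
    | nil => exact ⟨v, rfl, rfl⟩
    | cons g l ih =>
      obtain ⟨w, h1, h2⟩ := ih
      refine ⟨⟨σ g w, hU g w w.2⟩ - w, ?_, ?_⟩
      · rw [List.map_cons, List.prod_cons, Module.End.mul_apply, ← h1]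
        rfl
      · rw [List.map_cons, List.prod_cons, Module.End.mul_apply, h2]
        rfl
  refine ⟨_, _, inferInstance, ρ.prod ε, M + 2, (injective_iff_map_eq_one _).2 fun g hg =>
    hf g ?_ fun v hv => ?_, fun l hl => ?_⟩
  · simpa [ε] using congrArg (fun x => TrivSqZeroExt.snd x.2) hg
  · exact (Submodule.Quotient.eq (W.submoduleOf U)).1
      (LinearMap.congr_fun (congrArg Prod.fst hg) (Submodule.Quotient.mk ⟨v, hv⟩))
  · match l, hl with
    | a :: b :: l, hl =>
      have h2 : (l.map fun g => ρ g - 1).prod = 0 := LinearMap.ext fun x => by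
        obtain ⟨v, rfl⟩ := Submodule.Quotient.mk_surjective _ x
        obtain ⟨w, h2, h3⟩ := h1 l v
        exact h3.trans ((Submodule.Quotient.mk_eq_zero _).2
          (show (w : V) ∈ W from h2 ▸ hM l (by simpa using hl) v v.2))
      have h3 : ((l.map fun g => ρ.prod ε g - 1).prod).1 = 0 := by
        rw [← h2]
        exact (map_list_prod (RingHom.fst _ _) _).trans (by rw [List.map_map]; rfl)
      have h4 : (ε a - 1) * (ε b - 1) = 0 := by ext <;> simp [ε]
      simp only [List.map_cons, List.prod_cons]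
      refine Prod.ext ?_ ?_
      · rw [Prod.fst_mul, Prod.fst_mul, h3, mul_zero, mul_zero, Prod.fst_zero]
      · rw [← mul_assoc, Prod.snd_mul, Prod.snd_zero]
        exact mul_eq_zero_of_left h4 _

theorem Swan_kap {G : Type} [Group G] (H : Subgroup G) [H.Normal] (t : G)
    (hgen : ∀ g : G, ∃ n ∈ H, ∃ k : ℤ, g = n * t ^ k) (hinf : ∀ k : ℤ, t ^ k ∈ H → k = 0) :
    ∃ κ : G →* Multiplicative ℤ, ∀ g, g * (t ^ (κ g).toAdd)⁻¹ ∈ H := by
  have h : Function.Bijective (zpowersHom (G ⧸ H) (t : G ⧸ H)) := by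
    refine ⟨(injective_iff_map_eq_one _).2 fun k hk => hinf k.toAdd ?_, fun x => ?_⟩
    · rw [← QuotientGroup.eq_one_iff, QuotientGroup.mk_zpow]
      exact hk
    · obtain ⟨g, rfl⟩ := QuotientGroup.mk_surjective x
      obtain ⟨n, hn, k, rfl⟩ := hgen g
      refine ⟨Multiplicative.ofAdd k, ?_⟩
      rw [QuotientGroup.mk_mul, (QuotientGroup.eq_one_iff n).2 hn, one_mul, QuotientGroup.mk_zpow]
      rfl
  refine ⟨(MulEquiv.ofBijective _ h).symm.toMonoidHom.comp (QuotientGroup.mk' H), fun g => ?_⟩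
  rw [← QuotientGroup.eq_one_iff, QuotientGroup.mk_mul, QuotientGroup.mk_inv, mul_inv_eq_one,
    QuotientGroup.mk_zpow]
  exact ((MulEquiv.ofBijective _ h).apply_symm_apply _).symm

theorem swan_step {G : Type} [Group G] [Group.IsNilpotent G] (H : Subgroup G) [H.Normal] (t : G)
    (hgen : ∀ g : G, ∃ n ∈ H, ∃ k : ℤ, g = n * t ^ k) (hinf : ∀ k : ℤ, t ^ k ∈ H → k = 0)
    (hH : Uni H) : Uni G := by
  classical
  obtain ⟨A, _, _, ρ, m, hρ, hm⟩ := hH
  obtain ⟨κ, hκ⟩ := Swan_kap H t hgen hinf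
  let φ := MonoidAlgebra.of ℚ G
  let C : G →* Module.End ℚ (MonoidAlgebra ℚ G) :=
    { toFun := fun g => LinearMap.mulRight ℚ (φ g⁻¹) * LinearMap.mulLeft ℚ (φ g)
      map_one' := LinearMap.ext fun a => by
        show φ 1 * a * φ 1⁻¹ = a
        rw [inv_one, map_one, mul_one, one_mul]
      map_mul' := fun g h => LinearMap.ext fun a => by
        show φ (g * h) * a * φ (g * h)⁻¹ = φ g * (φ h * a * φ h⁻¹) * φ g⁻¹
        simp only [mul_inv_rev, map_mul, mul_assoc] }
  let T : G → MonoidAlgebra ℚ G →ₐ[ℚ] MonoidAlgebra ℚ G := fun g => AlgHom.ofLinearMap (C g)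
    (by
      show φ g * 1 * φ g⁻¹ = 1
      rw [mul_one, ← map_mul, mul_inv_cancel, map_one])
    fun a b => by
      show φ g * (a * b) * φ g⁻¹ = φ g * a * φ g⁻¹ * (φ g * b * φ g⁻¹)
      simp only [mul_assoc]
      rw [← mul_assoc (φ g⁻¹), ← map_mul, inv_mul_cancel, map_one, one_mul]
  let σ : G →* Module.End ℚ (MonoidAlgebra ℚ G) :=
    { toFun := fun g => LinearMap.mulRight ℚ (φ (t ^ (κ g).toAdd)⁻¹) * LinearMap.mulLeft ℚ (φ g)
      map_one' := LinearMap.ext fun a => by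
        show φ 1 * a * φ (t ^ (κ 1).toAdd)⁻¹ = a
        rw [map_one κ, toAdd_one, zpow_zero, inv_one, map_one, mul_one, one_mul]
      map_mul' := fun g h => LinearMap.ext fun a => by
        show φ (g * h) * a * φ (t ^ (κ (g * h)).toAdd)⁻¹ =
          φ g * (φ h * a * φ (t ^ (κ h).toAdd)⁻¹) * φ (t ^ (κ g).toAdd)⁻¹
        simp only [toAdd_mul, zpow_add, mul_inv_rev, map_mul, mul_assoc] }
  have hσ : ∀ g a, σ g a = φ g * a * φ (t ^ (κ g).toAdd)⁻¹ := fun _ _ => rfl
  obtain ⟨Δ, hΔ⟩ : ∃ Δ, Δ = Submodule.span ℚ {a | ∃ n ∈ H, φ n - 1 = a} := ⟨_, rfl⟩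
  have h1 : ∀ n ∈ H, φ n - 1 ∈ Δ := fun n hn => hΔ ▸ Submodule.subset_span ⟨n, hn, rfl⟩
  have hC : ∀ g j, ∀ a ∈ Δ ^ (j + 1), C g a ∈ Δ ^ (j + 1) := fun g =>
    Swan_npow (T g) (Swan_conj φ H g (T g) (fun _ => rfl) Δ hΔ)
  have h2 : Δ * Δ ≤ Δ := by
    conv_lhs => rw [hΔ, Submodule.span_mul_span]
    rw [Submodule.span_le]
    rintro _ ⟨_, ⟨n, hn, rfl⟩, _, ⟨n', hn', rfl⟩, rfl⟩
    show (φ n - 1) * (φ n' - 1) ∈ Δ
    have e : (φ n - 1) * (φ n' - 1) = φ (n * n') - 1 - (φ n - 1) - (φ n' - 1) := by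
      rw [map_mul]
      noncomm_ring
    exact e.symm ▸ Δ.sub_mem (Δ.sub_mem (h1 _ (H.mul_mem hn hn')) (h1 n hn)) (h1 n' hn')
  have h3 : ∀ j, Δ ^ (j + 2) ≤ Δ ^ (j + 1) := fun j => by
    rw [pow_add, pow_two, pow_succ]
    exact mul_le_mul' le_rfl h2
  have h4 : ∀ g j, ∀ a ∈ Δ ^ (j + 1), σ g a - C (t ^ (κ g).toAdd) a ∈ Δ ^ (j + 2) := by
    intro g j a ha
    have e : σ g a = φ (g * (t ^ (κ g).toAdd)⁻¹) * C (t ^ (κ g).toAdd) a := by
      show _ = _ * (φ _ * a * φ _)
      rw [hσ, ← mul_assoc, ← mul_assoc, ← map_mul, inv_mul_cancel_right]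
    rw [e, ← sub_one_mul, pow_succ']
    exact Submodule.mul_mem_mul (h1 _ (hκ g)) (hC _ j a ha)
  have hW : ∀ g j, ∀ a ∈ Δ ^ (j + 1), σ g a ∈ Δ ^ (j + 1) := fun g j a ha => by
    simpa using Submodule.add_mem _ (h3 j (h4 g j a ha)) (hC (t ^ (κ g).toAdd) j a ha)
  have h5 : ∀ j (k : ℤ) w, C t w - w ∈ Δ ^ (j + 1) → C (t ^ k) w - w ∈ Δ ^ (j + 1) := by
    intro j k w hw
    let S : Subgroup G :=
      { carrier := {g | C g w - w ∈ Δ ^ (j + 1)}
        one_mem' := by simp
        mul_mem' := fun {g h} hg hh => by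
          simpa using Submodule.add_mem _ (hC g j _ hh) hg
        inv_mem' := fun {g} hg => by
          have := Submodule.neg_mem _ (hC g⁻¹ j _ hg)
          rwa [map_sub, ← Module.End.mul_apply, ← map_mul, inv_mul_cancel, map_one, neg_sub] at this }
    exact S.zpow_mem hw k
  have h6 : ∀ j (l : List G) (K : ℕ), ∀ v ∈ Δ ^ (j + 1),
      ((C t - 1) ^ (K + l.length)) v ∈ Δ ^ (j + 2) →
      (l.map fun g => σ g - 1).prod v ∈ Δ ^ (j + 1) ∧
        ((C t - 1) ^ K) ((l.map fun g => σ g - 1).prod v) ∈ Δ ^ (j + 2) := by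
    intro j l
    induction l with
    | nil => exact fun K v hv h => ⟨hv, h⟩
    | cons g l ih =>
      intro K v hv h
      obtain ⟨h6, h7⟩ := ih (K + 1) v hv (by rwa [add_assoc, add_comm 1])
      rw [List.map_cons, List.prod_cons, Module.End.mul_apply]
      generalize (l.map fun g => σ g - 1).prod v = w at h6 h7
      refine ⟨Submodule.sub_mem _ (hW g j w h6) h6, ?_⟩
      have c : Commute ((C t - 1) ^ K) (C (t ^ (κ g).toAdd)) :=
        (((Commute.self_zpow t _).map C).sub_left (Commute.one_left _)).pow_left _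
      have e : (σ g - 1) w = σ g w - C (t ^ (κ g).toAdd) w + (C (t ^ (κ g).toAdd) w - w) :=
        (sub_add_sub_cancel _ _ _).symm
      rw [e, map_add]
      refine Submodule.add_mem _ (Swan_pow (hC t (j + 1)) K _ (h4 g j w h6)) ?_
      rw [map_sub, ← Module.End.mul_apply, c.eq, Module.End.mul_apply]
      exact h5 (j + 1) _ _ (by rwa [pow_succ' _ K] at h7)
  have h7 : ∀ g, ∀ n ∈ H, ∃ n' ∈ H, σ g (φ n) = φ n' := fun g n hn =>
    ⟨g * n * g⁻¹ * (g * (t ^ (κ g).toAdd)⁻¹),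
      H.mul_mem (Subgroup.Normal.conj_mem ‹_› n hn g) (hκ g), by
        rw [hσ, ← map_mul, ← map_mul]
        congr 1
        group⟩
  have h8 : ∀ j, ∃ M : ℕ, ∀ l : List G, l.length = M →
      ∀ v ∈ Submodule.span ℚ {a | ∃ n ∈ H, φ n = a},
        (l.map fun g => σ g - 1).prod v ∈ Δ ^ (j + 1) := by
    intro j
    induction j with
    | zero =>
      refine ⟨1, fun l hl v hv => Submodule.mem_comap.1
        ((Submodule.span_le (p := Submodule.comap _ _)).2 ?_ hv)⟩
      obtain ⟨g, rfl⟩ := List.length_eq_one_iff.1 hl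
      rintro _ ⟨n, hn, rfl⟩
      obtain ⟨n', hn', e⟩ := h7 g n hn
      simpa [e] using Δ.sub_mem (h1 n' hn') (h1 n hn)
    | succ j ih =>
      obtain ⟨M, hM⟩ := ih
      obtain ⟨K, hK⟩ := swan_tau φ H t (T t) (fun _ => rfl) Δ hΔ j
      refine ⟨K + M, fun l hl v hv => ?_⟩
      have h9 := hM (l.drop K) (by rw [List.length_drop]; omega) v hv
      rw [← List.take_append_drop K l, List.map_append, List.prod_append, Module.End.mul_apply]
      refine (h6 j (l.take K) 0 _ h9 ?_).2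
      rw [zero_add, List.length_take, min_eq_left (by omega)]
      exact hK _ h9
  obtain ⟨M, hM⟩ := h8 m
  refine uni_of_rep σ _ (Δ ^ (m + 1)) (fun g v hv => ?_) (fun g => hW g m) M hM κ fun g hg h => ?_
  · refine Submodule.mem_comap.1 ((Submodule.span_le (p := Submodule.comap (σ g) _)).2 ?_ hv)
    rintro _ ⟨n, hn, rfl⟩
    obtain ⟨n', hn', e⟩ := h7 g n hn
    exact Submodule.subset_span ⟨n', hn', e.symm⟩
  let π : MonoidAlgebra ℚ G →ₗ[ℚ] A :=
    (MonoidAlgebra.basis G ℚ).constr ℚ fun g => if h : g ∈ H then ρ ⟨g, h⟩ else 0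
  have p1 : ∀ g, π (φ g) = if h : g ∈ H then ρ ⟨g, h⟩ else 0 := fun g =>
    (MonoidAlgebra.basis G ℚ).constr_basis ℚ _ g
  have p2 : ∀ (n : H) a, π (φ n * a) = ρ n * π a := fun n a => by
    induction a using MonoidAlgebra.induction_on with
    | of x =>
      rw [← map_mul, p1, p1]
      by_cases hx : x ∈ H
      · rw [dif_pos hx, dif_pos (H.mul_mem n.2 hx), ← map_mul]
        rfl
      · rw [dif_neg hx, dif_neg fun h => hx ((H.mul_mem_cancel_left n.2).1 h), mul_zero]
    | add x y hx hy => rw [mul_add, map_add, map_add, hx, hy, mul_add]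
    | smul r x hx => rw [mul_smul_comm, map_smul, map_smul, hx, mul_smul_comm]
  have p3 : ∀ j, ∀ a ∈ Δ ^ j, ∀ l : List H, m ≤ l.length + j →
      (l.map fun g => ρ g - 1).prod * π a = 0 := by
    intro j
    induction j with
    | zero =>
      intro a _ l hl
      rw [← List.take_append_drop m l, List.map_append, List.prod_append,
        hm _ (by rw [List.length_take]; omega), zero_mul, zero_mul]
    | succ j ih =>
      intro a ha l hl
      rw [pow_succ'] at ha
      refine Submodule.mul_induction_on ha (fun x hx y hy => ?_) fun x y hx hy => by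
        rw [map_add, mul_add, hx, hy, add_zero]
      rw [hΔ] at hx
      induction hx using Submodule.span_induction with
      | mem x hx =>
        obtain ⟨n, hn, rfl⟩ := hx
        rw [sub_one_mul, map_sub, p2 ⟨n, hn⟩, ← sub_one_mul, ← mul_assoc,
          ← ih y hy (l ++ [⟨n, hn⟩]) (by simp; omega)]
        simp
      | zero => simp
      | add x x' _ _ h h' => rw [add_mul, map_add, mul_add, h, h', add_zero]
      | smul r x _ h => rw [smul_mul_assoc, map_smul, mul_smul_comm, h, smul_zero]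
  have hg' : g ∈ H := by simpa [hg] using hκ g
  have p4 := p3 _ _ (h (φ 1) (Submodule.subset_span ⟨1, H.one_mem, rfl⟩)) [] (by simp)
  rw [hσ, hg, toAdd_one, zpow_zero, inv_one, ← map_mul, ← map_mul, mul_one, mul_one, map_sub, p1, p1,
    dif_pos hg', dif_pos H.one_mem, List.map_nil, List.prod_nil, one_mul, sub_eq_zero] at p4
  exact congrArg Subtype.val (hρ p4)

end Pool.Agent.Work.MP_913e71_al.Pos
end

-- merged part: Pool.Agent.Work.MP_913e71_al.Pos.VUni
section
/-! A finitely generated nilpotent group is virtually unipotent.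

PLAN for `nil_chain`.  Let `γ j = (⊤ : Subgroup G).lowerCentralSeries j`, `S` a finite generating set.  For each
`j` there is a finite `T ⊆ γ j` with `γ j = closure T ⊔ γ (j + 1)`: pass from `T` to the commutators of elements of
`T` and `S`; modulo the normal subgroup `γ (j + 2)` the commutator map `γ j × G → G` is multiplicative in each
variable (its values are central there) and kills `γ (j + 1) × G`.  Every subgroup between `γ (j + 1)` and
`γ j` is normal.  Descending induction on `j`, adding the elements of `T` one at a time.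
PLAN for `exists_invariant`.  The homomorphisms from `H` to the finite group `Equiv.Perm (H ⧸ H₁.subgroupOf H)`
are finite in number (determined by the values on a finite generating set, `MonoidHom.eq_of_eqOn_dense`); let
`H₂` be the image in `G` of the intersection of their kernels.  Conjugation by `g` permutes the homomorphisms.
PLAN for `virt_uni`.  `nil_chain` with `P H = H.FG ∧ ∃ H₁ ≤ H, H₁.relIndex H ≠ 0 ∧ Uni H₁`.  Elements of
`H ⊔ zpowers t` are `n * t ^ k` (`Subgroup.normal_mul`, `mem_sup_of_normal_left`).  If `t ^ k ∈ H` with `k ≠ 0` then `H`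
has finite index in `H ⊔ zpowers t`.  Otherwise apply `swan_step` to the group `H₂ ⊔ zpowers t` and its normal
subgroup `H₂.subgroupOf _`; the cosets of `H₂ ⊔ zpowers t` in `H ⊔ zpowers t` are represented by elements of
`H`, and the map factors through the cosets of `H₂` in `H`. -/

namespace Pool.Agent.Work.MP_913e71_al.Pos

open Subgroup
open scoped commutatorElement

theorem VUni_normal {G : Type} [Group G] {j : ℕ} {K : Subgroup G}
    (h1 : (⊤ : Subgroup G).lowerCentralSeries (j + 1) ≤ K)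
    (h2 : K ≤ (⊤ : Subgroup G).lowerCentralSeries j) : K.Normal := ⟨fun n hn g => by
  rw [show g * n * g⁻¹ = ⁅n, g⁆⁻¹ * n by rw [commutatorElement_def]; group]
  exact mul_mem (inv_mem (h1 (commutator_mem_commutator (h2 hn) (mem_top g)))) hn⟩

theorem VUni_gen {G : Type} [Group G] [Group.FG G] (j : ℕ) : ∃ T : Set G, T.Finite ∧
    (⊤ : Subgroup G).lowerCentralSeries j =
      Subgroup.closure T ⊔ (⊤ : Subgroup G).lowerCentralSeries (j + 1) := by
  obtain ⟨S, hS, fS⟩ := Group.fg_iff.1 ‹Group.FG G›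
  induction j with
  | zero => exact ⟨S, fS, by rw [hS, top_sup_eq, Subgroup.lowerCentralSeries_zero]⟩
  | succ j ih =>
    obtain ⟨T, fT, e⟩ := ih
    have h1 : Subgroup.closure (Set.image2 (⁅·, ·⁆) T S) ⊔ (⊤ : Subgroup G).lowerCentralSeries (j + 1 + 1) ≤
        (⊤ : Subgroup G).lowerCentralSeries (j + 1) := by
      refine sup_le ((closure_le _).2 ?_) (Subgroup.lowerCentralSeries_antitone _ (Nat.le_succ _))
      rintro _ ⟨x, hx, g, -, rfl⟩
      exact commutator_mem_commutator (e.ge (mem_sup_left (subset_closure hx))) (mem_top g)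
    have hN := VUni_normal le_sup_right h1
    refine ⟨_, fT.image2 _ fS, le_antisymm (commutator_le.2 fun x hx g _ => ?_) h1⟩
    refine (Subgroup.mem_upperCentralSeriesStep _ x).1 (e.le.trans (sup_le ((closure_le _).2 ?_) ?_) hx) g
    · refine fun y hy => (Subgroup.mem_upperCentralSeriesStep _ y).2 fun a => ?_
      induction (hS.ge (mem_top a)) using closure_induction with
      | mem a ha => exact mem_sup_left (subset_closure (Set.mem_image2_of_mem hy ha))
      | one => simp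
      | mul a b _ _ ha hb =>
        rw [commutatorElement_mul_right_eq_mul_conj, mul_assoc, mul_assoc, ← mul_assoc a]
        exact mul_mem ha (hN.conj_mem _ hb a)
      | inv a _ ha =>
        rw [commutatorElement_inv_right, ← commutatorElement_inv]
        exact hN.conj_mem' _ (inv_mem ha) a
    · exact fun y hy => (Subgroup.mem_upperCentralSeriesStep _ y).2 fun a =>
        mem_sup_right (commutator_mem_commutator hy (mem_top a))

theorem nil_chain {G : Type} [Group G] [Group.IsNilpotent G] [Group.FG G] (P : Subgroup G → Prop)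
    (h0 : P ⊥) (hstep : ∀ (H : Subgroup G) (t : G), H.Normal → P H → P (H ⊔ Subgroup.zpowers t)) :
    P ⊤ := by
  have step : ∀ j, P ((⊤ : Subgroup G).lowerCentralSeries (j + 1)) →
      P ((⊤ : Subgroup G).lowerCentralSeries j) := fun j h => by
    obtain ⟨T, fT, e⟩ := VUni_gen (G := G) j
    have hT : Subgroup.closure T ≤ (⊤ : Subgroup G).lowerCentralSeries j := le_sup_left.trans e.ge
    rw [e]
    clear e
    induction T, fT using Set.Finite.induction_on with
    | empty => rwa [Subgroup.closure_empty, bot_sup_eq]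
    | @insert t T _ _ ih =>
      have h1 := (Subgroup.closure_mono (Set.subset_insert t T)).trans hT
      rw [Set.insert_eq, Subgroup.closure_union, ← zpowers_eq_closure, sup_assoc, sup_comm]
      exact hstep _ t (VUni_normal le_sup_right
        (sup_le h1 (Subgroup.lowerCentralSeries_antitone _ (Nat.le_succ _)))) (ih h1)
  obtain ⟨n, hn⟩ := Subgroup.nilpotent_iff_lowerCentralSeries.1 ‹Group.IsNilpotent G›
  rw [← hn] at h0
  clear hn
  induction n with
  | zero => exact h0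
  | succ n ih => exact ih (step n h0)

theorem exists_invariant {G : Type} [Group G] (H H₁ : Subgroup G) [H.Normal] (hH : H.FG)
    (h₁ : H₁.relIndex H ≠ 0) : ∃ H₂ : Subgroup G, H₂.Normal ∧ H₂ ≤ H₁ ∧ H₂ ≤ H ∧
      H₂.relIndex H ≠ 0 := by
  obtain ⟨S, hS, fS⟩ := Group.fg_iff.1 ((Group.fg_iff_subgroup_fg H).2 hH)
  have : Finite S := fS
  have : Finite (H ⧸ H₁.subgroupOf H) := index_ne_zero_iff_finite.1 h₁
  have : Finite (H →* Equiv.Perm (H ⧸ H₁.subgroupOf H)) :=
    Finite.of_injective (fun f (s : S) => f s) fun f g e =>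
      MonoidHom.eq_of_eqOn_dense hS fun x hx => congrFun e ⟨x, hx⟩
  have : (⨅ f : H →* Equiv.Perm (H ⧸ H₁.subgroupOf H), f.ker).Characteristic :=
    characteristic_iff_le_comap.2 fun φ x hx => mem_iInf.2 fun f =>
      mem_iInf.1 hx (f.comp φ.toMonoidHom)
  refine ⟨(⨅ f : H →* Equiv.Perm (H ⧸ H₁.subgroupOf H), f.ker).map H.subtype, inferInstance,
    map_le_iff_le_comap.2 ((iInf_le _ _).trans
      ((normalCore_eq_ker _).ge.trans (normalCore_le _))), map_subtype_le _, ?_⟩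
  rw [relIndex, subgroupOf, comap_map_eq_self_of_injective H.subtype_injective]
  exact index_iInf_ne_zero fun f => FiniteIndex.index_ne_zero

theorem virt_uni {G : Type} [Group G] [Group.IsNilpotent G] [Group.FG G] :
    ∃ H : Subgroup G, H.FiniteIndex ∧ Uni H := by
  obtain ⟨-, H, -, h1, h2⟩ := nil_chain (G := G)
    (fun H => H.FG ∧ ∃ H₁ ≤ H, H₁.relIndex H ≠ 0 ∧ Uni H₁)
    ⟨FG.bot, ⊥, le_rfl, by simp, uni_of_subsingleton⟩ (by
      rintro H t hN ⟨fH, H₁, h1, h2, h3⟩
      refine ⟨fH.sup ((fg_iff _).2 ⟨{t}, (zpowers_eq_closure t).symm, Set.finite_singleton t⟩), ?_⟩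
      by_cases h : ∀ k : ℤ, t ^ k ∈ H → k = 0
      · obtain ⟨H₂, hN₂, a1, a2, a3⟩ := exists_invariant H H₁ fH h2
        refine ⟨H₂ ⊔ zpowers t, sup_le_sup_right a2 _, ?_,
          swan_step (H₂.subgroupOf _) ⟨t, mem_sup_right (mem_zpowers t)⟩ (fun g => ?_)
            (fun k hk => h k (a2 hk)) (h3.of_injective ((inclusion a1).comp
              (subgroupOfEquivOfLe le_sup_left).toMonoidHom)
              ((inclusion_injective a1).comp (MulEquiv.injective _)))⟩
        · have : Finite (H ⧸ (H₂ ⊔ zpowers t).subgroupOf H) := index_ne_zero_iff_finite.1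
            fun e => a3 (relIndex_eq_zero_of_le_left le_sup_left e)
          refine index_ne_zero_iff_finite.2 (Finite.of_surjective
            (quotientSubgroupOfEmbeddingOfLE _ (le_sup_left (a := H))) fun q => ?_)
          obtain ⟨⟨g, hg⟩, rfl⟩ := QuotientGroup.mk_surjective q
          obtain ⟨n, hn, z, hz, rfl⟩ := mem_sup_of_normal_left.1 hg
          refine ⟨QuotientGroup.mk ⟨n, hn⟩, QuotientGroup.eq.2 (mem_subgroupOf.2 ?_)⟩
          exact mem_sup_right ((inv_mul_cancel_left n z).symm ▸ hz : n⁻¹ * (n * z) ∈ zpowers t)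
        · obtain ⟨n, hn, _, ⟨k, rfl⟩, e⟩ := mem_sup_of_normal_left.1 g.2
          exact ⟨⟨n, mem_sup_left hn⟩, hn, k, Subtype.ext e.symm⟩
      · push Not at h
        obtain ⟨k, k1, k2⟩ := h
        refine ⟨H₁, h1.trans le_sup_left, relIndex_ne_zero_trans h2 ?_, h3⟩
        rw [relIndex_sup_left, ← QuotientGroup.ker_mk' H, relIndex_ker, MonoidHom.map_zpowers,
          Nat.card_zpowers, orderOf_ne_zero_iff, isOfFinOrder_iff_zpow_eq_one]
        exact ⟨k, k2, by rw [← map_zpow]; exact (QuotientGroup.eq_one_iff _).2 k1⟩)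
  exact ⟨H, ⟨by rwa [relIndex_top_right] at h1⟩, h2⟩

theorem virt_uni' {G : Type} [Group G] [Group.FG G] (h : Group.IsVirtuallyNilpotent G) :
    ∃ H : Subgroup G, H.FiniteIndex ∧ Uni H := by
  obtain ⟨N, h1, h2⟩ := h
  obtain ⟨H, h3, h4⟩ := virt_uni (G := N)
  exact ⟨H.map N.subtype, ⟨(index_map_subtype H).trans_ne (mul_ne_zero h3.1 h2.1)⟩,
    h4.of_injective (H.equivMapOfInjective N.subtype N.subtype_injective).symm.toMonoidHom
      (MulEquiv.injective _)⟩

end Pool.Agent.Work.MP_913e71_al.Pos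
end

-- merged part: Pool.Agent.Work.MP_913e71_al.Pos.MainB
section
/-! The discrete case. -/

namespace Pool.Agent.Work.MP_913e71_al.Pos

theorem main_discrete (G : Type) [Group G] (hG : Group.IsVirtuallyNilpotent G) (S : Finset G)
    (hS : Subgroup.closure (S : Set G) = ⊤) :
    ∃ (D : ℕ) (h : ℚ), 0 ≤ h ∧
      (Dom (ballCard (S : Set G)) (fun r => ENNReal.ofReal (r ^ D)) ∧
        Dom (fun r => ENNReal.ofReal (r ^ D)) (ballCard (S : Set G))) ∧
      (Dom (sysIndex (S : Set G)) (fun r => ENNReal.ofReal (r ^ ((D : ℝ) + h))) ∧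
        Dom (fun r => ENNReal.ofReal (r ^ ((D : ℝ) + h))) (sysIndex (S : Set G))) := by
  haveI : Group.FG G := Group.fg_iff.2 ⟨S, hS, S.finite_toSet⟩
  obtain ⟨H, hH, hU⟩ := virt_uni' hG
  have hfg : Group.FG H := inferInstance
  obtain ⟨T, hT⟩ := Group.fg_def.1 hfg
  obtain ⟨n, M, hI⟩ := exists_malInt hU T hT
  obtain ⟨β, hβ⟩ := M.sysTwo hT hI
  have h1 := (M.grow hT hI).of_sub hS H hT
  have h2 := hβ.of_sub hS H hT
  have h3 := le_of_two hS h1 h2
  refine ⟨∑ i, M.d i, β - (∑ i, M.d i : ℕ), ?_, dom_grow hS h1, ?_⟩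
  · have : ((∑ i, M.d i : ℕ) : ℚ) ≤ β := by exact_mod_cast h3
    linarith
  · have e : (((∑ i, M.d i : ℕ) : ℝ) + ((β - (∑ i, M.d i : ℕ) : ℚ) : ℝ)) = β := by
      push_cast; ring
    rw [e]
    exact dom_sys (le_trans (Nat.cast_nonneg _) h3) h2

end Pool.Agent.Work.MP_913e71_al.Pos
end
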