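import Mathlib
import Pool.Agent.Work.MP_913e71_al.Pos.Bch

-- merged part: Pool.Agent.Work.MP_913e71_al.Pos.FD
section
-- merged part: Pool.Agent.Work.MP_913e71_al.Pos.Cone
section
/-! Finitely many generators for a rational polyhedral cone, valid over every ordered rational
vector space (double description method).

PLAN.  Induction on `A`.  For `A = ∅` take `L = {± Pi.single i 1}`.  Adding a constraint `a`: the new
set consists of the `l ∈ L` with `a · l ≥ 0` and of the vectors `|a · l₂| l₁ + (a · l₁) l₂` for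
`a · l₁ > 0 > a · l₂`.  Given `γ = ∑ g l • l` with `a · γ ≥ 0`, write it as a list (or multiset) of
pairs `(g, l)`; while there are a term `(g₁, l₁)` with `m₁ = a · l₁ > 0` and a term `(g₂, l₂)` with
`-m₂ = a · l₂ < 0`, compare `m₁ g₁` and `m₂ g₂`: if `m₂ g₂ ≤ m₁ g₁` then
`g₁ l₁ + g₂ l₂ = (g₂ / m₁) (m₂ l₁ + m₁ l₂) + (g₁ - m₂ g₂ / m₁) l₁`, and symmetrically; the number
of terms with `a · l ≠ 0` drops.  If only negative terms are left their coefficients vanish. -/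

namespace Pool.Agent.Work.MP_913e71_al.Pos

section
variable {Γ κ : Type} [AddCommGroup Γ] [LinearOrder Γ] [IsOrderedAddMonoid Γ]

theorem Cone_one (P : Finset κ) {x : κ → Γ} (hx : ∀ i, 0 ≤ x i) {y : Γ} (h0 : 0 ≤ y)
    (h : y ≤ ∑ i ∈ P, x i) : ∃ z : κ → Γ, (∀ i, 0 ≤ z i ∧ z i ≤ x i) ∧ ∑ i ∈ P, z i = y := by
  classical
  induction P using Finset.induction_on generalizing y with
  | empty => exact ⟨0, fun i => ⟨le_rfl, hx i⟩, le_antisymm h0 h⟩
  | insert j P hj ih =>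
    rw [Finset.sum_insert hj] at h
    obtain ⟨z, h1, h2⟩ := ih (sub_nonneg.2 (min_le_right (x j) y)) (by
      rcases le_total (x j) y with k | k
      · rwa [min_eq_left k, sub_le_iff_le_add']
      · rw [min_eq_right k, sub_self]
        exact Finset.sum_nonneg fun i _ => hx i)
    refine ⟨Function.update z j (min (x j) y), fun i => ?_, ?_⟩
    · rcases eq_or_ne i j with rfl | k
      · rw [Function.update_self]
        exact ⟨le_min (hx i) h0, min_le_left _ _⟩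
      · rw [Function.update_of_ne k]
        exact h1 i
    · rw [Finset.sum_insert hj, Function.update_self, Finset.sum_update_of_notMem hj, h2,
        add_sub_cancel]

theorem Cone_two [Fintype κ] (N : Finset κ) {x y : κ → Γ} (hx : ∀ i, 0 ≤ x i) (hy : ∀ i, 0 ≤ y i)
    (h : ∑ j ∈ N, y j ≤ ∑ i, x i) : ∃ z : κ → κ → Γ, (∀ j i, 0 ≤ z j i) ∧
      (∀ j ∈ N, ∑ i, z j i = y j) ∧ ∀ i, ∑ j ∈ N, z j i ≤ x i := by
  classical
  induction N using Finset.induction_on generalizing x with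
  | empty => exact ⟨0, fun _ _ => le_rfl, by simp, by simpa using hx⟩
  | insert j N hj ih =>
    rw [Finset.sum_insert hj] at h
    obtain ⟨u, h1, h2⟩ := Cone_one Finset.univ hx (hy j)
      (le_trans (le_add_of_nonneg_right (Finset.sum_nonneg fun i _ => hy i)) h)
    obtain ⟨z, k1, k2, k3⟩ := ih (x := fun i => x i - u i) (fun i => sub_nonneg.2 (h1 i).2)
      (by rwa [Finset.sum_sub_distrib, h2, le_sub_iff_add_le'])
    refine ⟨Function.update z j u, fun l i => ?_, fun l hl => ?_, fun i => ?_⟩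
    · rcases eq_or_ne l j with rfl | k
      · rw [Function.update_self]
        exact (h1 i).1
      · rw [Function.update_of_ne k]
        exact k1 l i
    · rcases eq_or_ne l j with rfl | k
      · rwa [Function.update_self]
      · rw [Function.update_of_ne k]
        exact k2 l ((Finset.mem_insert.1 hl).resolve_left k)
    · rw [Finset.sum_insert hj, Function.update_self, Finset.sum_congr rfl fun l hl => by
        rw [Function.update_of_ne (ne_of_mem_of_not_mem hl hj)]]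
      exact le_sub_iff_add_le'.1 (k3 i)

theorem Cone_step [Fintype κ] [Module ℚ Γ] [PosSMulMono ℚ Γ] (m : κ → ℤ) {g : κ → Γ}
    (hg : ∀ k, 0 ≤ g k) (h : 0 ≤ ∑ k, m k • g k) : ∃ (u : κ → Γ) (w : κ × κ → Γ),
      (∀ k, 0 ≤ u k) ∧ (∀ k, 0 ≤ w k) ∧ ∀ v : κ → ℤ, ∑ k, v k • g k =
        ∑ k, (if 0 ≤ m k then v k else 0) • u k + ∑ k : κ × κ,
          (if 0 < m k.1 ∧ m k.2 < 0 then -m k.2 * v k.1 + m k.1 * v k.2 else 0) • w k := by
  obtain ⟨z, z0, z1, z2⟩ := Cone_two Finset.univ (x := fun k => (m k)⁺ • g k)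
    (y := fun k => (m k)⁻ • g k) (fun k => zsmul_nonneg (hg k) (posPart_nonneg _))
    (fun k => zsmul_nonneg (hg k) (negPart_nonneg _)) (by
      simpa only [← sub_nonneg (b := ∑ _, _), ← Finset.sum_sub_distrib, ← sub_smul,
        posPart_sub_negPart] using h)
  have a1 : ∀ j i, m i ≤ 0 → z j i = 0 := fun j i hi => le_antisymm
    ((Finset.single_le_sum (f := fun j => z j i) (fun j _ => z0 j i) (Finset.mem_univ j)).trans
      ((z2 i).trans_eq (by rw [posPart_eq_zero.2 hi, zero_smul]))) (z0 j i)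
  have a2 : ∀ j i, 0 ≤ m j → z j i = 0 := fun j i hj => le_antisymm
    ((Finset.single_le_sum (fun i _ => z0 j i) (Finset.mem_univ i)).trans_eq
      ((z1 j (Finset.mem_univ j)).trans (by rw [negPart_eq_zero.2 hj, zero_smul]))) (z0 j i)
  refine ⟨fun k => g k - (m k : ℚ)⁻¹ • ∑ j, z j k,
    fun k => |(m k.1 : ℚ) * m k.2|⁻¹ • z k.2 k.1, fun k => ?_,
    fun k => smul_nonneg (by positivity) (z0 _ _), fun v => ?_⟩
  · rcases le_or_gt (m k) 0 with q | q
    · simpa [fun j => a1 j k q] using hg k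
    · have q' : (0 : ℚ) < m k := by exact_mod_cast q
      have := smul_le_smul_of_nonneg_left (z2 k) (inv_pos.2 q').le
      rwa [posPart_eq_self.2 q.le, ← Int.cast_smul_eq_zsmul ℚ, inv_smul_smul₀ q'.ne',
        ← sub_nonneg] at this
  have e : ∀ i j, (if 0 < m i ∧ m j < 0 then -m j * v i + m i * v j else 0) •
      |(m i : ℚ) * m j|⁻¹ • z j i = (v i / m i : ℚ) • z j i + (v j / -m j : ℚ) • z j i :=
    fun i j => by
      split_ifs with q
      · have q1 : (0 : ℚ) < m i := by exact_mod_cast q.1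
        have q2 : (m j : ℚ) < 0 := by exact_mod_cast q.2
        rw [← Int.cast_smul_eq_zsmul ℚ, smul_smul, ← add_smul,
          abs_of_neg (mul_neg_of_pos_of_neg q1 q2)]
        refine congrArg (· • z j i) ?_
        have := q2.ne
        push_cast
        field_simp
        ring
      · rw [(not_and_or.1 q).elim (fun k => a1 j i (not_lt.1 k)) fun k => a2 j i (not_lt.1 k)]
        simp
  simp only [Fintype.sum_prod_type, e, Finset.sum_add_distrib]
  rw [Finset.sum_comm (f := fun i j => (v j / -m j : ℚ) • z j i)]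
  simp only [← Finset.smul_sum, z1 _ (Finset.mem_univ _), ← Finset.sum_add_distrib]
  refine Finset.sum_congr rfl fun k _ => ?_
  split_ifs with q
  · rw [negPart_eq_zero.2 q, ← Int.cast_smul_eq_zsmul ℚ (v k), ← Int.cast_smul_eq_zsmul ℚ (v k),
      div_eq_mul_inv, mul_smul, smul_sub]
    simp
  · have q' : (m k : ℚ) ≠ 0 := by exact_mod_cast (not_le.1 q).ne
    rw [negPart_eq_neg.2 (not_le.1 q).le, ← Int.cast_smul_eq_zsmul ℚ (-m k), smul_smul,
      Int.cast_neg, div_mul_cancel₀ _ (neg_ne_zero.2 q')]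
    simp [fun j => a1 j k (not_le.1 q).le, Int.cast_smul_eq_zsmul]

end

theorem Cone_fam {ι : Type} [Fintype ι] [DecidableEq ι] (A : Finset (ι → ℤ)) :
    ∃ (κ : Type) (_ : Fintype κ) (v : κ → ι → ℤ), (∀ k, ∀ a ∈ A, 0 ≤ ∑ i, a i * v k i) ∧
      ∀ (Γ : Type) [AddCommGroup Γ] [LinearOrder Γ] [IsOrderedAddMonoid Γ] [Module ℚ Γ]
        [PosSMulMono ℚ Γ] (γ : ι → Γ), (∀ a ∈ A, 0 ≤ ∑ i, a i • γ i) →
        ∃ g : κ → Γ, (∀ k, 0 ≤ g k) ∧ ∀ i, γ i = ∑ k, v k i • g k := by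
  induction A using Finset.induction_on with
  | empty =>
    refine ⟨ι ⊕ ι, inferInstance, Sum.elim (Pi.single · 1) (Pi.single · (-1)), by simp,
      fun Γ _ _ _ _ _ γ _ => ⟨Sum.elim (fun i => (γ i)⁺) fun i => (γ i)⁻, ?_, fun i => ?_⟩⟩
    · rintro (i | i)
      exacts [posPart_nonneg _, negPart_nonneg _]
    · simp [Pi.single_apply, ← sub_eq_add_neg]
  | insert a A _ ih =>
    obtain ⟨κ, _, v, h1, h2⟩ := ih
    obtain ⟨m, hm⟩ : ∃ m : κ → ℤ, ∀ k, ∑ i, a i * v k i = m k := ⟨_, fun _ => rfl⟩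
    refine ⟨κ ⊕ κ × κ, inferInstance, Sum.elim (fun k i => if 0 ≤ m k then v k i else 0)
      fun k i => if 0 < m k.1 ∧ m k.2 < 0 then -m k.2 * v k.1 i + m k.1 * v k.2 i else 0, ?_,
      fun Γ _ _ _ _ _ γ hγ => ?_⟩
    · rintro (k | k) b hb <;> simp only [Sum.elim_inl, Sum.elim_inr] <;> split_ifs with q
      · rcases Finset.mem_insert.1 hb with rfl | hb
        exacts [hm k ▸ q, h1 k b hb]
      · simp
      · simp only [mul_add, mul_left_comm (b _), Finset.sum_add_distrib, ← Finset.mul_sum]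
        rcases Finset.mem_insert.1 hb with rfl | hb
        · rw [hm, hm]
          linarith
        · exact add_nonneg (mul_nonneg (neg_nonneg.2 q.2.le) (h1 _ b hb))
            (mul_nonneg q.1.le (h1 _ b hb))
      · simp
    · obtain ⟨g, g0, g1⟩ := h2 Γ γ fun b hb => hγ b (Finset.mem_insert_of_mem hb)
      obtain ⟨u, w, u0, w0, e⟩ := Cone_step m g0 (by
        have := hγ a (Finset.mem_insert_self a A)
        simp only [g1, Finset.smul_sum, smul_smul] at this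
        rw [Finset.sum_comm] at this
        simpa only [← Finset.sum_smul, hm] using this)
      exact ⟨Sum.elim u w, fun k => k.rec u0 w0, fun i => by
        rw [g1, e, Fintype.sum_sum_type]; rfl⟩

theorem cone_gen {ι : Type} [Fintype ι] [DecidableEq ι] (A : Finset (ι → ℤ)) :
    ∃ L : Finset (ι → ℤ), (∀ l ∈ L, ∀ a ∈ A, 0 ≤ ∑ i, a i * l i) ∧
      ∀ (Γ : Type) [AddCommGroup Γ] [LinearOrder Γ] [IsOrderedAddMonoid Γ] [Module ℚ Γ]
        [PosSMulMono ℚ Γ] (γ : ι → Γ), (∀ a ∈ A, 0 ≤ ∑ i, a i • γ i) →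
        ∃ g : (ι → ℤ) → Γ, (∀ l, 0 ≤ g l) ∧ ∀ i, γ i = ∑ l ∈ L, l i • g l := by
  obtain ⟨κ, _, v, h1, h2⟩ := Cone_fam A
  refine ⟨Finset.univ.image v, fun l hl => ?_, fun Γ _ _ _ _ _ γ hγ => ?_⟩
  · obtain ⟨k, -, rfl⟩ := Finset.mem_image.1 hl
    exact h1 k
  · obtain ⟨g, g0, g1⟩ := h2 Γ γ hγ
    refine ⟨fun l => ∑ k with v k = l, g k, fun l => Finset.sum_nonneg fun k _ => g0 k,
      fun i => ?_⟩
    rw [g1, ← Finset.sum_fiberwise_of_maps_to fun k hk => Finset.mem_image_of_mem v hk]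
    refine Finset.sum_congr rfl fun l _ => ?_
    rw [Finset.smul_sum]
    exact Finset.sum_congr rfl fun k hk => by rw [(Finset.mem_filter.1 hk).2]

/-- The linear program.  There are finitely many patterns `(D W, d W)`; `S` is a set of
representatives.  Apply `cone_gen` on `Option T` to the cone of `(c, s)` with `c ≥ 0`, `s ≥ 0`,
`∑ D W t * c t ≥ d W * s`; `β` is the least value of `cost l / s l` over the generators with
`s l > 0` (there is one: `B • τ₀` is feasible); generators with `s l = 0` have cost `≥ 0` by `hrec`.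
For the last part apply the bound to `c + C₀ τ₀` and `s = ρ`. -/
theorem lp_min {T 𝒲 : Type} [Fintype T] [DecidableEq T] (D : 𝒲 → T → ℤ) (d : 𝒲 → ℕ) (κ : T → ℤ)
    (B : ℕ) (hD : ∀ W t, |D W t| ≤ B) (hd : ∀ W, d W ≤ B) (t₀ : T)
    (h₀ : ∀ W, 1 ≤ D W t₀ ∨ (d W = 0 ∧ ∀ t, D W t = 0))
    (hrec : ∀ c : T → ℝ, (∀ t, 0 ≤ c t) → (∀ W, 0 ≤ ∑ t, c t * D W t) → 0 ≤ ∑ t, c t * κ t) :
    ∃ (β : ℚ) (c : T → ℝ) (S : Finset 𝒲), (∀ t, 0 ≤ c t) ∧ (∀ W, (d W : ℝ) ≤ ∑ t, c t * D W t) ∧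
      ∑ t, c t * κ t = β ∧
      ∀ C₀ : ℝ, ∃ C₁ : ℝ, ∀ ρ : ℝ, 0 ≤ ρ → ∀ c' : T → ℝ, (∀ t, 0 ≤ c' t) →
        (∀ W ∈ S, d W * ρ - C₀ ≤ ∑ t, c' t * D W t) → β * ρ - C₁ ≤ ∑ t, c' t * κ t := by
  classical
  obtain ⟨a, ha⟩ : ∃ a : 𝒲 → Option T → ℤ, ∀ W, a W none = -d W ∧ ∀ t, a W (some t) = D W t :=
    ⟨fun W o => o.elim (-d W) (D W), fun _ => ⟨rfl, fun _ => rfl⟩⟩
  have fin : (Set.range a).Finite :=
    (Fintype.piFinset fun _ => Finset.Icc (-B : ℤ) B).finite_toSet.subset (by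
      rintro _ ⟨W, rfl⟩
      refine Fintype.mem_piFinset.2 fun o => Finset.mem_Icc.2 ?_
      rcases o with _ | t
      · have := hd W
        rw [(ha W).1]
        omega
      · rw [(ha W).2]
        exact abs_le.1 (hD W t))
  obtain ⟨S, -, hS⟩ := Finset.subset_set_image_iff.1
    (fin.coe_toFinset.trans Set.image_univ.symm).subset
  obtain ⟨L, l1, l2⟩ := cone_gen (S.image a ∪ Finset.univ.image fun o => Pi.single o 1)
  have l0 : ∀ l ∈ L, ∀ o, 0 ≤ l o := fun l hl o => by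
    simpa [Pi.single_apply] using l1 l hl _
      (Finset.mem_union_right _ (Finset.mem_image_of_mem _ (Finset.mem_univ o)))
  have l3 : ∀ l ∈ L, ∀ W, (d W : ℝ) * l none ≤ ∑ t, (l (some t) : ℝ) * D W t := fun l hl W => by
    have := l1 l hl (a W) (Finset.mem_union_left _ (hS ▸ fin.mem_toFinset.2 ⟨W, rfl⟩))
    simp only [Fintype.sum_option, ha, neg_mul, le_neg_add_iff_le, mul_comm (D W _)] at this
    exact_mod_cast this
  have gen : ∀ (c : T → ℝ) (s : ℝ), (∀ t, 0 ≤ c t) → 0 ≤ s →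
      (∀ W ∈ S, d W * s ≤ ∑ t, c t * D W t) → ∃ g : (Option T → ℤ) → ℝ, (∀ l, 0 ≤ g l) ∧
        s = ∑ l ∈ L, l none * g l ∧ ∀ t, c t = ∑ l ∈ L, l (some t) * g l := fun c s c0 s0 h => by
    obtain ⟨g, g0, g1⟩ := l2 ℝ (fun o => o.elim s c) fun b hb => by
      rcases Finset.mem_union.1 hb with hb | hb <;> obtain ⟨W, hW, rfl⟩ := Finset.mem_image.1 hb
      · simpa [Fintype.sum_option, ha, mul_comm (c _)] using h W hW
      · rcases W with _ | t <;> simp [Pi.single_apply, s0, c0]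
    simp only [zsmul_eq_mul] at g1
    exact ⟨g, g0, g1 none, fun t => g1 (some t)⟩
  have sh : ∀ (c : T → ℝ) (x : ℝ) (u : T → ℤ),
      ∑ t, (c t + (Pi.single t₀ x : T → ℝ) t) * u t = ∑ t, c t * u t + x * u t₀ := fun c x u => by
    simp [add_mul, Finset.sum_add_distrib, Pi.single_apply]
  have up : ∀ (c : T → ℝ) (ρ C : ℝ), (∀ t, 0 ≤ c t) → 0 ≤ ρ → 0 ≤ C →
      (∀ W ∈ S, d W * ρ - C ≤ ∑ t, c t * D W t) → ∃ g : (Option T → ℤ) → ℝ, (∀ l, 0 ≤ g l) ∧
        ρ = ∑ l ∈ L, l none * g l ∧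
        ∀ t, c t + (Pi.single t₀ C : T → ℝ) t = ∑ l ∈ L, l (some t) * g l :=
    fun c ρ C c0 ρ0 C0 h => gen _ ρ (fun t => add_nonneg (c0 t) (by rw [Pi.single_apply]; positivity)) ρ0
      fun W hW => by
        rcases h₀ W with k | k
        · have : (1 : ℝ) ≤ D W t₀ := by exact_mod_cast k
          rw [sh]
          nlinarith [h W hW]
        · simp [k.1, k.2]
  obtain ⟨l₀, m₀, hmin⟩ := (L.filter fun l => 0 < l none).exists_min_image
    (fun l => (∑ t, l (some t) * κ t : ℚ) / l none) (by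
      obtain ⟨g, -, g1, -⟩ := up 0 1 B (fun _ => le_rfl) zero_le_one B.cast_nonneg fun W _ => by
        simpa using hd W
      obtain ⟨l, hl, h⟩ := Finset.exists_ne_zero_of_sum_ne_zero (g1.symm.trans_ne one_ne_zero)
      exact ⟨l, Finset.mem_filter.2 ⟨hl, (l0 l hl none).lt_of_ne' fun e => h (by simp [e])⟩⟩)
  obtain ⟨m₁, m₂⟩ := Finset.mem_filter.1 m₀
  have m₃ : (0 : ℝ) < l₀ none := by exact_mod_cast m₂
  refine ⟨(∑ t, l₀ (some t) * κ t : ℚ) / l₀ none, fun t => l₀ (some t) / l₀ none, S,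
    fun t => div_nonneg (by exact_mod_cast l0 _ m₁ _) m₃.le, fun W => ?_, ?_, fun C₀ =>
      ⟨max C₀ 0 * κ t₀, fun ρ ρ0 c c0 h => ?_⟩⟩
  · simp only [div_mul_eq_mul_div, ← Finset.sum_div]
    exact (le_div_iff₀ m₃).2 (l3 _ m₁ W)
  · simp only [div_mul_eq_mul_div, ← Finset.sum_div]
    norm_cast
  obtain ⟨g, g0, g1, g2⟩ := up c ρ _ c0 ρ0 (le_max_right C₀ 0) fun W hW =>
    (sub_le_sub_left (le_max_left _ _) _).trans (h W hW)
  rw [sub_le_iff_le_add, ← sh, g1, Finset.mul_sum]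
  simp only [g2, Finset.sum_mul]
  rw [Finset.sum_comm]
  refine Finset.sum_le_sum fun l hl => ?_
  simp only [mul_right_comm _ (g l), ← Finset.sum_mul, ← mul_assoc]
  refine mul_le_mul_of_nonneg_right ?_ (g0 l)
  rcases (l0 l hl none).eq_or_lt with e | e
  · rw [← e, Int.cast_zero, mul_zero]
    exact hrec _ (fun t => by exact_mod_cast l0 l hl _) fun W => by simpa [← e] using l3 l hl W
  · have := (le_div_iff₀ (by exact_mod_cast e)).1 (hmin l (Finset.mem_filter.2 ⟨hl, e⟩))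
    exact_mod_cast this

end Pool.Agent.Work.MP_913e71_al.Pos
end

-- merged part: Pool.Agent.Work.MP_913e71_al.Pos.Orth
section
/-! Orthogonal bases for a valuation-like function that is invariant under nonzero scalars.

PLAN.  Elements with pairwise different values (not `⊤`) are linearly independent, so `ν` takes
finitely many values on `U`.  Induct on `finrank U`: if `ν` is not constantly `⊤` on `U`, let `w` be
its least value, `U' = {x ∈ U | w < ν x}` (a proper subspace), take a family for a hyperplane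
`U'' ⊇ U'` of `U` (or for `U'` and a basis of a complement) and add vectors of value `w`. -/

namespace Pool.Agent.Work.MP_913e71_al.Pos

variable {F V Γ : Type} [Field F] [AddCommGroup V] [Module F V] [LinearOrder Γ] [OrderTop Γ]

theorem Orth_sub (ν : V → Γ) (hadd : ∀ x y, min (ν x) (ν y) ≤ ν (x + y))
    (hsmul : ∀ (c : F) x, c ≠ 0 → ν (c • x) = ν x) (h0 : ν 0 = ⊤) :
    ∃ S : Γ → Submodule F V, ∀ w ≠ ⊤, ∀ x, x ∈ S w ↔ w < ν x := by
  refine ⟨fun w =>
    { carrier := {x | w ≠ ⊤ → w < ν x}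
      add_mem' := fun hx hy hw => (lt_min (hx hw) (hy hw)).trans_le (hadd _ _)
      zero_mem' := fun hw => h0 ▸ lt_top_iff_ne_top.2 hw
      smul_mem' := fun c x hx hw => ?_ }, fun w hw x => ⟨fun h => h hw, fun h _ => h⟩⟩
  rcases eq_or_ne c 0 with rfl | hc
  · rw [zero_smul, h0]
    exact lt_top_iff_ne_top.2 hw
  · rw [hsmul c x hc]
    exact hx hw

theorem finite_values (U : Submodule F V) [Module.Finite F U] (ν : V → Γ)
    (hadd : ∀ x y, min (ν x) (ν y) ≤ ν (x + y)) (hsmul : ∀ (c : F) x, c ≠ 0 → ν (c • x) = ν x)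
    (h0 : ν 0 = ⊤) : (ν '' (U : Set V)).Finite := by
  obtain ⟨S, hS⟩ := Orth_sub ν hadd hsmul h0
  have key : ∀ x ∈ U, ∀ y ∈ U, ν x < ν y → ν y ≠ ⊤ →
      Module.finrank F (U ⊓ S (ν y) :) < Module.finrank F (U ⊓ S (ν x) :) := by
    intro x hx y hy hxy hy'
    have : Module.Finite F (U ⊓ S (ν x) :) := Submodule.finiteDimensional_of_le inf_le_left
    refine Submodule.finrank_lt_finrank_of_lt (lt_of_le_of_ne (fun z hz =>
      ⟨hz.1, (hS _ hxy.ne_top z).2 (hxy.trans ((hS _ hy' z).1 hz.2))⟩) fun h => ?_)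
    have h1 : y ∈ U ⊓ S (ν x) := ⟨hy, (hS _ hxy.ne_top y).2 hxy⟩
    exact lt_irrefl _ ((hS _ hy' y).1 (h ▸ h1 : y ∈ U ⊓ S (ν y)).2)
  refine ((Set.Finite.of_injOn (s := ν '' (U : Set V) \ {⊤})
    (f := fun w => Module.finrank F (U ⊓ S w :)) (t := Set.Iic (Module.finrank F U))
    (fun w _ => Set.mem_Iic.2 (Submodule.finrank_mono inf_le_left)) ?_
    (Set.finite_Iic (Module.finrank F U))).insert ⊤).subset fun w hw => ?_
  · rintro _ ⟨⟨x, hx, rfl⟩, hx'⟩ _ ⟨⟨y, hy, rfl⟩, hy'⟩ h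
    rcases lt_trichotomy (ν x) (ν y) with h1 | h1 | h1
    · exact absurd h (key x hx y hy h1 hy').ne'
    · exact h1
    · exact absurd h (key y hy x hx h1 hx').ne
  · by_cases h : w = ⊤
    · exact Or.inl h
    · exact Or.inr ⟨hw, h⟩

theorem exists_orth (U : Submodule F V) [Module.Finite F U] (ν : V → Γ)
    (hadd : ∀ x y, min (ν x) (ν y) ≤ ν (x + y)) (hsmul : ∀ (c : F) x, c ≠ 0 → ν (c • x) = ν x)
    (h0 : ν 0 = ⊤) :
    ∃ (s : ℕ) (f : Fin s → V), (∀ j, f j ∈ U) ∧ (∀ j, ν (f j) ≠ ⊤) ∧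
      (∀ x ∈ U, ∃ q : Fin s → F, ν (x - ∑ j, q j • f j) = ⊤) ∧
      ∀ (q : Fin s → F) (j : Fin s), q j ≠ 0 → ν (∑ i, q i • f i) ≤ ν (f j) := by
  obtain ⟨S, hS⟩ := Orth_sub ν hadd hsmul h0
  induction hn : Module.finrank F U using Nat.strong_induction_on generalizing U with
  | _ n ih =>
  obtain ⟨_, ⟨x0, hx0, rfl⟩, hmin⟩ := Set.exists_min_image _ id (finite_values U ν hadd hsmul h0)
    ⟨_, 0, U.zero_mem, rfl⟩
  replace hmin : ∀ x ∈ U, ν x0 ≤ ν x := fun x hx => hmin _ ⟨x, hx, rfl⟩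
  by_cases hw : ν x0 = ⊤
  · exact ⟨0, Fin.elim0, fun j => j.elim0, fun j => j.elim0,
      fun x hx => ⟨Fin.elim0, by simpa [hw] using hmin x hx⟩, fun _ j => j.elim0⟩
  obtain ⟨φ, h1, h2⟩ := Submodule.exists_le_ker_of_notMem (p := S (ν x0)) (v := x0)
    fun h => lt_irrefl _ ((hS _ hw x0).1 h)
  have : Module.Finite F (U ⊓ LinearMap.ker φ :) := Submodule.finiteDimensional_of_le inf_le_left
  obtain ⟨s, f, hf, hf', hq, hq'⟩ := ih _ (hn ▸ Submodule.finrank_lt_finrank_of_lt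
    (lt_of_le_of_ne inf_le_left fun h => h1 (h.ge hx0).2)) (U ⊓ LinearMap.ker φ) rfl
  refine ⟨s + 1, Fin.cons x0 f, Fin.cases hx0 fun j => (hf j).1, Fin.cases hw hf', fun x hx => ?_,
    fun q j hj => ?_⟩
  · obtain ⟨q, h3⟩ := hq (x - (φ x / φ x0) • x0) ⟨U.sub_mem hx (U.smul_mem _ hx0), by simp [h1]⟩
    exact ⟨Fin.cons (φ x / φ x0) q, by simpa [Fin.sum_univ_succ, sub_sub] using h3⟩
  · rw [Fin.sum_univ_succ]
    simp only [Fin.cons_zero, Fin.cons_succ]
    by_cases h3 : q 0 = 0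
    · rw [h3, zero_smul, zero_add]
      revert hj
      exact Fin.cases (fun h => absurd h3 h) (fun j h => hq' (fun i => q i.succ) j h) j
    · refine le_trans (not_lt.1 fun h => ?_) (hmin _ (Fin.cases hx0 (fun j => (hf j).1) j))
      have h4 := h2 ((hS _ hw _).2 h)
      have h5 : ∀ i, φ (f i) = 0 := fun i => (hf i).2
      simp [h5, h1, h3] at h4

end Pool.Agent.Work.MP_913e71_al.Pos
end

-- merged part: Pool.Agent.Work.MP_913e71_al.Pos.Init
section
/-! The Groebner step.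

PLAN.  For `F ≠ 0` let `w F` be the least `γ`-weight of a monomial of `F`, `inγ F` the sum of these
terms (`weightedHomogeneousComponent γ (w F) F`); `ν F ≥ w F`.  `I d` = homogeneous `F` of degree `d`
with `ν F = ⊤`.  `S = {h ≠ 0 | ν h ≤ w h}` is a submonoid (`w (h h') ≥ w h + w h'`).  The span of the
`inγ F` (`F ∈ I d`, all `d`) is an ideal; by Hilbert's basis theorem it is generated by finitely many
`inγ g`, `g ∈ 𝒢`.  `A` = the vectors `α' - α`, `g ∈ 𝒢`, `α` a `γ`-minimal monomial of `g`, `α'` any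
monomial of `g`.  Fix `lam`.  Call `F` good if its `γ`-minimal monomials are `lam`-minimal, so that
`inγ (inlam F) = inγ F`; the products `m g` (`m` a monomial) are good, and in degree `d` their
`inγ` span `inγ (I d)`.  Choose `F 1, …, F r` among them with `inγ (F l)` a basis of that span.
(O1) if the initial forms of a family are linearly independent, the initial form of a nonzero
combination is the combination of the initial forms of least weight.  (O2) the `F l` span `I d`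
(subtract, the weight goes up, finitely many weights in degree `d`).  The `inlam (F l)` are
independent (their `inγ` are), so by (O1) they span the `inlam F`, `F ∈ I d`, and for a nonzero
combination `h`: `w h = min w (F l)`, while `ν (inlam (F l)) > w (F l)` (since `ν (inγ F) > w F`
when `ν F = ⊤`); so `ν h > w h`.  Summing over `d` (disjoint supports) the ideal spanned by the
`inlam F` misses `S`; `Ideal.exists_le_prime_disjoint`. -/

namespace Pool.Agent.Work.MP_913e71_al.Pos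

open MvPolynomial

section

variable {k ι M : Type} [Field k] [AddCommMonoid M] [LinearOrder M]

/-- the polynomials all of whose monomials have weight at least `t` -/
def Init_lo (k : Type) [Field k] (w : ι → M) (t : M) : Submodule k (MvPolynomial ι k) where
  carrier := {F | ∀ α, Finsupp.weight w α < t → coeff α F = 0}
  add_mem' ha hb α h := by rw [coeff_add, ha α h, hb α h, add_zero]
  zero_mem' _ _ := rfl
  smul_mem' c F hF α h := by rw [coeff_smul, hF α h, smul_zero]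

theorem Init_mem {w : ι → M} {t : M} {F : MvPolynomial ι k} :
    F ∈ Init_lo k w t ↔ ∀ α ∈ F.support, t ≤ Finsupp.weight w α :=
  forall_congr' fun _ => by rw [mem_support_iff, not_imp_comm, not_le]

theorem Init_lt {w : ι → M} {s t : M} {F : MvPolynomial ι k} (hF : F ∈ Init_lo k w t) (h : s < t) :
    weightedHomogeneousComponent w s F = 0 :=
  weightedHomogeneousComponent_eq_zero' _ _ fun α hα e => (Init_mem.1 hF α hα).not_gt (e ▸ h)

theorem Init_lead {L : Type} {w : ι → M} {G : L → MvPolynomial ι k} {t : L → M}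
    (hG : ∀ l, G l ∈ Init_lo k w (t l))
    (hi : LinearIndependent k fun l => weightedHomogeneousComponent w (t l) (G l)) {c : L →₀ k}
    (hc : c ≠ 0) : ∃ s, Finsupp.linearCombination k G c ∈ Init_lo k w s ∧
      weightedHomogeneousComponent w s (Finsupp.linearCombination k G c) ≠ 0 ∧
      weightedHomogeneousComponent w s (Finsupp.linearCombination k G c) ∈
        Submodule.span k (Set.range fun l => weightedHomogeneousComponent w (t l) (G l)) := by
  obtain ⟨l0, h0, hm⟩ := c.support.exists_min_image t (Finsupp.support_nonempty_iff.2 hc)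
  have e : weightedHomogeneousComponent w (t l0) (Finsupp.linearCombination k G c) =
      ∑ l ∈ c.support, (if t l = t l0 then c l else 0) •
        weightedHomogeneousComponent w (t l) (G l) := by
    rw [Finsupp.linearCombination_apply, Finsupp.sum, map_sum]
    refine Finset.sum_congr rfl fun l hl => ?_
    split_ifs with q
    · rw [map_smul, q]
    · rw [map_smul, Init_lt (hG l) ((hm l hl).lt_of_ne' q), smul_zero, zero_smul]
  refine ⟨t l0, Submodule.sum_mem _ fun l hl => Submodule.smul_mem _ _ fun α h =>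
    hG l α (h.trans_le (hm l hl)), fun z => Finsupp.mem_support_iff.1 h0 ?_, ?_⟩
  · simpa using linearIndependent_iff'.1 hi _ _ (e.symm.trans z) l0 h0
  · rw [e]
    exact Submodule.sum_mem _ fun l _ => Submodule.smul_mem _ _ (Submodule.subset_span ⟨l, rfl⟩)

theorem Init_indep {L : Type} {w : ι → M} {G : L → MvPolynomial ι k} {t : L → M}
    (hG : ∀ l, G l ∈ Init_lo k w (t l))
    (hi : LinearIndependent k fun l => weightedHomogeneousComponent w (t l) (G l)) :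
    LinearIndependent k G :=
  linearIndependent_iff.2 fun c hc => by_contra fun c0 => by
    obtain ⟨s, -, h, -⟩ := Init_lead hG hi c0
    exact h (by rw [hc, map_zero])

theorem Init_span {L : Type} {w : ι → M} {G : L → MvPolynomial ι k} {t : L → M}
    (hG : ∀ l, G l ∈ Init_lo k w (t l))
    (hi : LinearIndependent k fun l => weightedHomogeneousComponent w (t l) (G l))
    {F : MvPolynomial ι k} {s : M} (hF : F ∈ Submodule.span k (Set.range G))
    (hs : F ∈ Init_lo k w s) : weightedHomogeneousComponent w s F ∈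
      Submodule.span k (Set.range fun l => weightedHomogeneousComponent w (t l) (G l)) := by
  rw [← Finsupp.range_linearCombination] at hF
  obtain ⟨c, rfl⟩ := hF
  by_cases c0 : c = 0
  · simp [c0]
  obtain ⟨s', h1, h2, h3⟩ := Init_lead hG hi c0
  rcases lt_trichotomy s s' with q | rfl | q
  · simp [Init_lt h1 q]
  · exact h3
  · exact absurd (Init_lt hs q) h2

theorem Init_comm {M' : Type} [AddCommMonoid M'] (w : ι → M) (w' : ι → M') (s : M) (s' : M')
    (F : MvPolynomial ι k) : weightedHomogeneousComponent w s (weightedHomogeneousComponent w' s' F) =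
      weightedHomogeneousComponent w' s' (weightedHomogeneousComponent w s F) := by
  classical
  ext α
  simp only [coeff_weightedHomogeneousComponent]
  split_ifs <;> rfl

theorem Init_gen [Finite ι] {L : Type} {w : ι → M} {N : Submodule k (MvPolynomial ι k)}
    {G : L → MvPolynomial ι k} {d : L → ℕ} {t : L → M} (h1 : ∀ l, G l ∈ N)
    (h2 : ∀ l, (G l).IsHomogeneous (d l)) (h3 : ∀ l, G l ∈ Init_lo k w (t l))
    (h : ∀ e s, ∀ F ∈ N, F.IsHomogeneous e → F ∈ Init_lo k w s → weightedHomogeneousComponent w s F ∈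
      Submodule.span k (Set.range fun l => weightedHomogeneousComponent w (t l) (G l)))
    (e : ℕ) : ∀ F ∈ N, F.IsHomogeneous e → F ∈ Submodule.span k (Set.range G) := by
  have key : ∀ s, ∀ x ∈ Submodule.span k
      (Set.range fun l => weightedHomogeneousComponent w (t l) (G l)),
      ∃ F ∈ Submodule.span k (Set.range G) ⊓ N ⊓ homogeneousSubmodule ι k e ⊓ Init_lo k w s,
        weightedHomogeneousComponent w s F =
          weightedHomogeneousComponent w s (weightedHomogeneousComponent 1 e x) := fun s x hx => by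
    induction hx using Submodule.span_induction with
    | zero => exact ⟨0, zero_mem _, by simp⟩
    | add a b _ _ ha hb =>
      obtain ⟨A, a1, a2⟩ := ha
      obtain ⟨B, b1, b2⟩ := hb
      exact ⟨A + B, add_mem a1 b1, by simp only [map_add, a2, b2]⟩
    | smul c a _ ha =>
      obtain ⟨A, a1, a2⟩ := ha
      exact ⟨c • A, Submodule.smul_mem _ c a1, by simp only [map_smul, a2]⟩
    | mem x hx =>
      obtain ⟨l, rfl⟩ := hx
      beta_reduce
      rw [← Init_comm w 1 (t l), weightedHomogeneousComponent_of_mem (h2 l),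
        weightedHomogeneousComponent_of_mem (weightedHomogeneousComponent_mem _ _ _)]
      split_ifs with q q'
      · subst q q'
        exact ⟨G l, ⟨⟨⟨Submodule.subset_span ⟨l, rfl⟩, h1 l⟩, h2 l⟩, h3 l⟩, rfl⟩
      · exact ⟨0, zero_mem _, by simp⟩
      · exact ⟨0, zero_mem _, by simp⟩
  have deg : ∀ {F : MvPolynomial ι k}, F.IsHomogeneous e → ∀ α ∈ F.support, α.degree = e :=
    fun hF α hα => by_contra fun q => mem_support_iff.1 hα (hF.coeff_eq_zero q)
  have main : ∀ T : Finset M, (∀ α : ι →₀ ℕ, α.degree = e → ∀ s ∈ T, s ≤ Finsupp.weight w α →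
      Finsupp.weight w α ∈ T) → ∀ F ∈ N, F.IsHomogeneous e →
      (∀ α ∈ F.support, Finsupp.weight w α ∈ T) → F ∈ Submodule.span k (Set.range G) := fun T => by
    induction T using Finset.induction_on_min with
    | empty =>
      intro _ F _ _ q
      rw [support_eq_empty.1 (Finset.eq_empty_of_forall_notMem fun α hα =>
        Finset.notMem_empty _ (q α hα))]
      exact zero_mem _
    | insert a T ha ih =>
      intro up F n1 n2 q
      have lo : F ∈ Init_lo k w a := Init_mem.2 fun α hα =>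
        (Finset.mem_insert.1 (q α hα)).elim (fun z => z.ge) fun z => (ha _ z).le
      obtain ⟨F1, ⟨⟨⟨a1, a2⟩, a3⟩, a4⟩, a5⟩ := key a _ (h e a F n1 n2 lo)
      rw [← Init_comm w 1 a, weightedHomogeneousComponent_eq_self n2,
        weightedHomogeneousComponent_eq_self (weightedHomogeneousComponent_isWeightedHomogeneous _ _),
        eq_comm, ← sub_eq_zero, ← map_sub] at a5
      rw [← sub_add_cancel F F1]
      refine add_mem (ih (fun α hα s hs le => (Finset.mem_insert.1 (up α hα s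
        (Finset.mem_insert_of_mem hs) le)).resolve_left ((ha s hs).trans_le le).ne') _
        (sub_mem n1 a2) (n2.sub a3) fun α hα => (Finset.mem_insert.1 (up α (deg (n2.sub a3) α hα) a
          (Finset.mem_insert_self _ _) (Init_mem.1 (sub_mem lo a4) α hα))).resolve_left fun z => ?_) a1
      have := congrArg (coeff α) a5
      rw [coeff_weightedHomogeneousComponent, if_pos z] at this
      exact mem_support_iff.1 hα this
  intro F n1 n2
  have m : ∀ α : ι →₀ ℕ, α.degree = e → Finsupp.weight w α ∈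
      (Finsupp.finite_of_degree_eq e).toFinset.image (Finsupp.weight w) := fun α hα =>
    Finset.mem_image_of_mem _ ((Set.Finite.mem_toFinset _).2 hα)
  exact main _ (fun α hα _ _ _ => m α hα) F n1 n2 fun α hα => m α (deg n2 α hα)

theorem Init_ideal {S : Set (MvPolynomial ι k)} (h : ∀ i, ∀ x ∈ S, X i * x ∈ S) :
    ∀ x ∈ Ideal.span S, x ∈ Submodule.span k S := by
  have key : ∀ p, ∀ x ∈ Submodule.span k S, p * x ∈ Submodule.span k S := fun p => by
    induction p using MvPolynomial.induction_on with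
    | C a => exact fun x hx => smul_eq_C_mul x a ▸ Submodule.smul_mem _ a hx
    | add p q hp hq => exact fun x hx => add_mul p q x ▸ add_mem (hp x hx) (hq x hx)
    | mul_X p i hp =>
      exact fun x hx => mul_assoc p (X i) x ▸ hp _ ((Submodule.span_le (p := (Submodule.span k
        S).comap (LinearMap.mulLeft k (X i)))).2 (fun y hy => Submodule.subset_span (h i y hy)) hx)
  intro x hx
  induction hx using Submodule.span_induction with
  | mem x hx => exact Submodule.subset_span hx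
  | zero => exact zero_mem _
  | add a b _ _ ha hb => exact add_mem ha hb
  | smul c a _ ha => exact key c a ha

variable [IsOrderedCancelAddMonoid M]

theorem Init_loX {w : ι → M} {t : M} {F : MvPolynomial ι k} (hF : F ∈ Init_lo k w t) (i : ι) :
    X i * F ∈ Init_lo k w (w i + t) := Init_mem.2 fun α hα => by
  rw [support_X_mul] at hα
  obtain ⟨β, hβ, rfl⟩ := Finset.mem_map.1 hα
  rw [addLeftEmbedding_apply, map_add, Finsupp.weight_single, one_smul]
  exact add_le_add_right (Init_mem.1 hF β hβ) _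

theorem Init_cX (w : ι → M) (t : M) (F : MvPolynomial ι k) (i : ι) :
    X i * weightedHomogeneousComponent w t F = weightedHomogeneousComponent w (w i + t) (X i * F) := by
  classical
  ext α
  rw [coeff_weightedHomogeneousComponent]
  by_cases hi : i ∈ α.support
  · obtain ⟨β, rfl⟩ := exists_add_of_le (Finsupp.single_le_iff.2
      (Nat.one_le_iff_ne_zero.2 (Finsupp.mem_support_iff.1 hi)))
    simp only [coeff_X_mul, coeff_weightedHomogeneousComponent, map_add, Finsupp.weight_single,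
      one_smul, add_right_inj]
  · simp only [coeff_X_mul', if_neg hi, ite_self]

end

theorem Init_val {k ι Γ : Type} [Field k] [AddCommGroup Γ] [LinearOrder Γ] [IsOrderedAddMonoid Γ]
    {γ : ι → Γ} {ν : AddValuation (MvPolynomial ι k) (WithTop Γ)}
    (hC : ∀ a : k, a ≠ 0 → ν (C a) = 0) (hX : ∀ i, ν (X i) = γ i) {t : Γ} {F : MvPolynomial ι k}
    (hF : F ∈ Init_lo k γ t) : (t : WithTop Γ) < ν (F - weightedHomogeneousComponent γ t F) := by
  have mo : ∀ (α : ι →₀ ℕ) (a : k), a ≠ 0 → ν (monomial α a) = (Finsupp.weight γ α : Γ) :=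
    fun α a ha => by
      induction α using Finsupp.induction with
      | zero => exact hC a ha
      | single_add i n β _ _ ih =>
        rw [monomial_single_add, ν.map_mul, ν.map_pow, hX, ih, map_add, Finsupp.weight_single,
          WithTop.coe_add, WithTop.coe_nsmul]
  rw [(F - weightedHomogeneousComponent γ t F).as_sum]
  refine ν.map_lt_sum WithTop.coe_ne_top fun α hα => ?_
  have q := mem_support_iff.1 hα
  rw [mo _ _ q, WithTop.coe_lt_coe]
  rw [coeff_sub, coeff_weightedHomogeneousComponent] at q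
  refine (Init_mem.1 hF α (mem_support_iff.2 fun z => q (by simp [z]))).lt_of_ne fun z => q ?_
  rw [if_pos z.symm, sub_self]

theorem groebner_step {k ι Γ : Type} [Field k] [Fintype ι] [DecidableEq ι] [AddCommGroup Γ]
    [LinearOrder Γ] [IsOrderedAddMonoid Γ] (γ : ι → Γ)
    (ν : AddValuation (MvPolynomial ι k) (WithTop Γ)) (hC : ∀ a : k, a ≠ 0 → ν (C a) = 0)
    (hX : ∀ i, ν (X i) = γ i) :
    ∃ A : Finset (ι → ℤ), (∀ a ∈ A, 0 ≤ ∑ i, a i • γ i) ∧
      ∀ lam : ι → ℕ, (∀ a ∈ A, 0 ≤ ∑ i, a i * lam i) →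
        ∃ J : Ideal (MvPolynomial ι k), J.IsPrime ∧
          (∀ (d w : ℕ) (F : MvPolynomial ι k), F.IsHomogeneous d → ν F = ⊤ →
            (∀ α ∈ F.support, w ≤ Finsupp.weight lam α) →
              weightedHomogeneousComponent lam w F ∈ J) ∧
          ∀ h : MvPolynomial ι k, h ≠ 0 →
            (∀ α ∈ h.support, ν h ≤ (Finsupp.weight γ α : Γ)) → h ∉ J := by
  classical
  obtain ⟨s', sub, e0⟩ := (Submodule.fg_span_iff_fg_span_finset_subset (R := MvPolynomial ι k)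
    {f | ∃ d t F, F.IsHomogeneous d ∧ ν F = ⊤ ∧ F ∈ Init_lo k γ t ∧
      f = weightedHomogeneousComponent γ t F}).1 (IsNoetherian.noetherian _)
  choose! d0 t0 g g1 g2 g3 g4 using fun f (hf : f ∈ s') => sub (Finset.mem_coe.2 hf)
  refine ⟨s'.biUnion fun f => (f.support ×ˢ (g f).support).image fun p i => (p.2 i : ℤ) - p.1 i,
    fun a ha => ?_, fun lam hl => ?_⟩
  · simp only [Finset.mem_biUnion, Finset.mem_image, Finset.mem_product] at ha
    obtain ⟨f, hf, p, ⟨p1, p2⟩, rfl⟩ := ha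
    rw [g4 f hf, support_weightedHomogeneousComponent] at p1
    simp only [sub_smul, natCast_zsmul, Finset.sum_sub_distrib, ← Finsupp.weight_eq_sum, sub_nonneg]
    exact (Finset.mem_filter.1 p1).2.trans_le (Init_mem.1 (g3 f hf) _ p2)
  have hl' : ∀ f ∈ s', ∀ α ∈ f.support, ∀ β ∈ (g f).support,
      Finsupp.weight lam α ≤ Finsupp.weight lam β := fun f hf α hα β hβ => by
    have := hl _ (Finset.mem_biUnion.2 ⟨f, hf, Finset.mem_image_of_mem _
      (Finset.mk_mem_product hα hβ)⟩)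
    simp only [sub_mul, Finset.sum_sub_distrib, sub_nonneg] at this
    simp only [Finsupp.weight_eq_sum, smul_eq_mul]
    exact_mod_cast this
  have top : ∀ (i : ι) {F : MvPolynomial ι k}, ν F = ⊤ → ν (X i * F) = ⊤ := fun i F h => by
    rw [ν.map_mul, h, add_top]
  obtain ⟨b, b1, b2, b3⟩ := exists_linearIndependent k {f : MvPolynomial ι k | ∃ d t s F,
    F.IsHomogeneous d ∧ ν F = ⊤ ∧ F ∈ Init_lo k γ t ∧ F ∈ Init_lo k lam s ∧
      f = weightedHomogeneousComponent γ t F ∧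
      f = weightedHomogeneousComponent γ t (weightedHomogeneousComponent lam s F)}
  choose d t s G c1 c2 c3 c4 c5 c6 using fun l : b => b1 l.2
  have c7 : ∀ l, weightedHomogeneousComponent lam (s l) (G l) ∈ Init_lo k γ (t l) := fun l α hα => by
    rw [coeff_weightedHomogeneousComponent, c3 l α hα, ite_self]
  have i2 := funext c6 ▸ b3
  have sp : ∀ e, ∀ F ∈ ν.supp.restrictScalars k, F.IsHomogeneous e →
      F ∈ Submodule.span k (Set.range G) := Init_gen c2 c1 c3 fun e u F n1 n2 n3 => by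
    rw [← funext c5, Subtype.range_coe, b2]
    refine Init_ideal ?_ _ (Ideal.span_mono (fun f hf => ?_)
      (e0.le (Submodule.subset_span ⟨e, u, F, n2, n1, n3, rfl⟩)))
    · rintro i _ ⟨d, t, s, F, a1, a2, a3, a4, rfl, a6⟩
      exact ⟨_, _, _, X i * F, (isHomogeneous_X k i).mul a1, top i a2, Init_loX a3 i, Init_loX a4 i,
        Init_cX _ _ _ _, by rw [a6, Init_cX, Init_cX]⟩
    by_cases f0 : f = 0
    · exact ⟨0, 0, 0, 0, isHomogeneous_zero _ _ _, ν.map_zero, zero_mem _, zero_mem _,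
        by simp [f0], by simp [f0]⟩
    obtain ⟨α, hα⟩ := support_nonempty.2 f0
    have ss : f.support ⊆ (g f).support := fun β hβ => by
      rw [g4 f hf, support_weightedHomogeneousComponent] at hβ
      exact (Finset.mem_filter.1 hβ).1
    refine ⟨_, _, Finsupp.weight lam α, g f, g1 f hf, g2 f hf, g3 f hf, Init_mem.2 (hl' f hf α hα),
      g4 f hf, ?_⟩
    rw [Init_comm, ← g4 f hf, weightedHomogeneousComponent_eq_self fun β hβ => ?_]
    exact (hl' f hf β (mem_support_iff.2 hβ) α (ss hα)).antisymm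
      (hl' f hf α hα β (ss (mem_support_iff.2 hβ)))
  let S : Submonoid (MvPolynomial ι k) :=
    { carrier := {h | h ≠ 0 ∧ ∀ α ∈ h.support, ν h ≤ (Finsupp.weight γ α : Γ)}
      one_mem' := ⟨one_ne_zero, fun α hα => by
        rw [Finset.mem_singleton.1 (support_monomial_subset hα), ν.map_one, map_zero]
        rfl⟩
      mul_mem' := fun ha hb => ⟨mul_ne_zero ha.1 hb.1, fun α hα => by
        obtain ⟨β, hβ, β', hβ', rfl⟩ := Finset.mem_add.1 (support_mul _ _ hα)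
        rw [ν.map_mul, map_add, WithTop.coe_add]
        exact add_le_add (ha.2 β hβ) (hb.2 β' hβ')⟩ }
  refine (Ideal.exists_le_prime_disjoint (Ideal.span {f : MvPolynomial ι k |
    ∃ d w F, F.IsHomogeneous d ∧ ν F = ⊤ ∧ F ∈ Init_lo k lam w ∧
      f = weightedHomogeneousComponent lam w F}) S (Set.disjoint_left.2 fun h hh hS => ?_)).imp
    fun J hJ => ⟨hJ.1, fun d w F a1 a2 a3 => hJ.2.1 (Ideal.subset_span
      ⟨d, w, F, a1, a2, Init_mem.2 a3, rfl⟩), fun h h0 h1 q =>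
      Set.disjoint_left.1 hJ.2.2 q (And.intro h0 h1)⟩
  have m1 : h ∈ Submodule.span k (Set.range fun l => weightedHomogeneousComponent lam (s l) (G l)) := by
    refine Submodule.span_le.2 ?_ (Init_ideal ?_ h hh)
    · rintro _ ⟨d, w, F, a1, a2, a3, rfl⟩
      exact Init_span c4 (Init_indep c7 i2) (sp d F a2 a1) a3
    · rintro i _ ⟨d, w, F, a1, a2, a3, rfl⟩
      exact ⟨_, _, X i * F, (isHomogeneous_X k i).mul a1, top i a2, Init_loX a3 i, Init_cX _ _ _ _⟩
  obtain ⟨α, hα, hm⟩ := h.support.exists_min_image (Finsupp.weight γ) (support_nonempty.2 hS.1)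
  have key : ∀ x ∈ Submodule.span k (Set.range fun l => weightedHomogeneousComponent γ (t l)
      (weightedHomogeneousComponent lam (s l) (G l))), ((Finsupp.weight γ α : Γ) : WithTop Γ) <
        ν (weightedHomogeneousComponent γ (Finsupp.weight γ α) x) := fun x hx => by
    induction hx using Submodule.span_induction with
    | zero => simp
    | add a b _ _ ha hb => exact map_add (weightedHomogeneousComponent γ _) a b ▸ ν.map_lt_add ha hb
    | smul c a _ ha =>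
      by_cases c0 : c = 0
      · simp [c0]
      · rwa [map_smul, smul_eq_C_mul, ν.map_mul, hC c c0, zero_add]
    | mem x hx =>
      obtain ⟨l, rfl⟩ := hx
      beta_reduce
      rw [← c6 l, c5 l, weightedHomogeneousComponent_of_mem (weightedHomogeneousComponent_mem _ _ _)]
      split_ifs with q
      · have := ν.map_lt_add (x := G l) ((c2 l).symm ▸ WithTop.coe_lt_top _)
          ((Init_val hC hX (c3 l)).trans_eq (ν.map_neg _).symm)
        rw [neg_sub, add_sub_cancel] at this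
        rwa [q]
      · simp
  have a1 := key _ (Init_span c7 i2 m1 (Init_mem.2 hm))
  rw [weightedHomogeneousComponent_eq_self
    (weightedHomogeneousComponent_isWeightedHomogeneous _ _)] at a1
  have a2 := ν.map_lt_add (Init_val hC hX (Init_mem.2 hm)) a1
  rw [sub_add_cancel] at a2
  exact a2.not_ge (hS.2 α hα)

end Pool.Agent.Work.MP_913e71_al.Pos
end

-- merged part: Pool.Agent.Work.MP_913e71_al.Pos.Kron
section
/-! A point over the algebraic numbers that keeps rational linear independence.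

PLAN.  Noether normalisation `kk[z] → D` finite and injective
(`exists_finite_inj_algHom_of_fg`).  Take `b 1 = 1, …, b r ∈ D` a basis of `Frac D` over `kk(z)` (or
any finite family with `b 1 = 1`, independent over `kk[z]` and maximal), and `Δ ≠ 0` in `kk[z]`,
matrices `M i` over `kk[z]` with `Δ (e i) b = M i b`.  For `u = ∑ q i • e i ≠ 0` put
`M = ∑ q i • M i`; `det M ≠ 0` (`u Δ` is a non zero divisor and the `b` are independent) and
`det M ∈ u D` (adjugate, `b 1 = 1`).  `det M` has degree less than some `N` in each variable and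
coefficients in the number field `F₀` generated by the coefficients of the `M i`.  Take `θ` of
degree at least `N ^ s` over `F₀` (for instance: the degree over `ℚ` of a primitive `p`-th root of
unity, or of a root of `X ^ m - 2`, is unbounded) and `z₀ i = θ ^ (N ^ i)`; a nonzero polynomial of
that shape does not vanish at `z₀` (distinct monomials give distinct exponents below `N ^ s`).
Extend evaluation at `z₀` to `D` by lying over (`D / 𝔪` is integral over `kk`, which is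
algebraically closed). -/

namespace Pool.Agent.Work.MP_913e71_al.Pos

/-- The field of algebraic numbers. -/
abbrev kk : Type := AlgebraicClosure ℚ

theorem Kron_int (x : kk) : IsIntegral ℚ x :=
  ((AlgebraicClosure.isAlgebraic ℚ).isAlgebraic x).isIntegral

open Polynomial in
theorem Kron_theta (F : IntermediateField ℚ kk) [FiniteDimensional ℚ F] (N : ℕ) :
    ∃ θ : kk, ∀ Q : kk[X], Q ≠ 0 → (∀ i, Q.coeff i ∈ F) → Q.natDegree ≤ N → Q.eval θ ≠ 0 := by
  obtain ⟨p, hp1, hp⟩ := Nat.exists_infinite_primes (Module.finrank ℚ F * N + 2)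
  have hd : (cyclotomic p ℚ).natDegree = p - 1 := by
    rw [natDegree_cyclotomic, Nat.totient_prime hp]
  obtain ⟨θ, hθ⟩ := IsAlgClosed.exists_aeval_eq_zero kk (cyclotomic p ℚ)
    (natDegree_pos_iff_degree_pos.1 (by omega)).ne'
  have hm := minpoly.eq_of_irreducible_of_monic (cyclotomic.irreducible_rat hp.pos) hθ
    (cyclotomic.monic p ℚ)
  refine ⟨θ, fun Q h0 hF hN hQ => ?_⟩
  have hl : Q ∈ lifts (algebraMap F kk) :=
    (lifts_iff_coeff_lifts Q).2 fun i => ⟨⟨_, hF i⟩, rfl⟩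
  obtain ⟨Q', rfl, hdeg⟩ := exists_degree_eq_of_mem_lifts hl
  have h1 : Q' ≠ 0 := fun hc => h0 (by rw [hc, Polynomial.map_zero])
  have h2 : aeval θ Q' = 0 := by rwa [eval_map_algebraMap] at hQ
  have h3 : (minpoly F θ).natDegree ≤ N := by
    refine (natDegree_le_natDegree (minpoly.degree_le_of_ne_zero F θ h1 h2)).trans ?_
    rwa [natDegree_map] at hN
  have hi : IsIntegral F θ := (Kron_int θ).tower_top
  have hfd := IntermediateField.adjoin.finiteDimensional hi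
  have hfd' : Module.Finite ℚ (IntermediateField.adjoin F {θ}) := Module.Finite.trans F _
  have h4 := minpoly.natDegree_le (A := ℚ) (IntermediateField.AdjoinSimple.gen F θ)
  rw [← minpoly.algebraMap_eq (algebraMap (IntermediateField.adjoin F {θ}) kk).injective,
    IntermediateField.AdjoinSimple.algebraMap_gen, ← hm, hd,
    ← Module.finrank_mul_finrank ℚ F, IntermediateField.adjoin.finrank hi] at h4
  have h5 := h4.trans (Nat.mul_le_mul_left _ h3)
  omega

theorem exists_generic_point {s : ℕ} (F₀ : IntermediateField ℚ kk) [FiniteDimensional ℚ F₀]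
    (N : ℕ) : ∃ z : Fin s → kk, ∀ P : MvPolynomial (Fin s) kk, P ≠ 0 →
      (∀ α, P.coeff α ∈ F₀) → P.totalDegree ≤ N → MvPolynomial.eval z P ≠ 0 := by
  induction s with
  | zero =>
    refine ⟨fun _ => 0, fun P h0 _ _ hc => h0 ?_⟩
    rw [MvPolynomial.eq_C_of_isEmpty P] at hc ⊢
    rw [MvPolynomial.eval_C] at hc
    rw [hc, map_zero]
  | succ s ih =>
    obtain ⟨z, hz⟩ := ih
    have hfd : FiniteDimensional ℚ (IntermediateField.adjoin ℚ (Set.range z)) :=
      IntermediateField.finiteDimensional_adjoin fun x _ => Kron_int x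
    obtain ⟨θ, hθ⟩ := Kron_theta (F₀ ⊔ IntermediateField.adjoin ℚ (Set.range z)) N
    refine ⟨Fin.cons θ z, fun P h0 hF hN => ?_⟩
    rw [MvPolynomial.eval_eq_eval_mv_eval']
    have h1 : MvPolynomial.finSuccEquiv kk s P ≠ 0 := by
      simpa using h0
    have h2 := Polynomial.leadingCoeff_ne_zero.2 h1
    refine hθ _ (fun hc => hz _ h2 (fun α => ?_) ?_ ?_) (fun i => ?_) ?_
    · rw [Polynomial.leadingCoeff, MvPolynomial.finSuccEquiv_coeff_coeff]
      exact hF _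
    · exact (Nat.le_add_right _ _).trans
        ((MvPolynomial.totalDegree_coeff_finSuccEquiv_add_le P _ h2).trans hN)
    · rw [Polynomial.leadingCoeff, ← Polynomial.coeff_map, hc, Polynomial.coeff_zero]
    · rw [Polynomial.coeff_map, MvPolynomial.eval_eq']
      refine sum_mem fun α _ => mul_mem ?_ (prod_mem fun j _ => pow_mem ?_ _)
      · rw [MvPolynomial.finSuccEquiv_coeff_coeff]
        exact (le_sup_left : F₀ ≤ _) (hF _)
      · exact (le_sup_right : IntermediateField.adjoin ℚ (Set.range z) ≤ _)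
          (IntermediateField.subset_adjoin _ _ ⟨j, rfl⟩)
    · refine Polynomial.natDegree_map_le.trans ?_
      rw [MvPolynomial.natDegree_finSuccEquiv]
      exact (MvPolynomial.degreeOf_le_totalDegree P 0).trans hN

theorem Kron_span {s : ℕ} (T : Set (MvPolynomial (Fin s) kk)) (hT : T.Finite) :
    ∃ z : Fin s → kk, ∀ P ∈ Submodule.span ℚ T, P ≠ 0 → MvPolynomial.eval z P ≠ 0 := by
  have h1 : (⋃ P ∈ T, (P.coeffs : Set kk)).Finite := hT.biUnion fun P _ => P.coeffs.finite_toSet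
  have := h1.to_subtype
  have hfd : FiniteDimensional ℚ (IntermediateField.adjoin ℚ (⋃ P ∈ T, (P.coeffs : Set kk))) :=
    IntermediateField.finiteDimensional_adjoin fun x _ => Kron_int x
  obtain ⟨N, hN⟩ := (hT.image MvPolynomial.totalDegree).bddAbove
  obtain ⟨z, hz⟩ := exists_generic_point (s := s)
    (IntermediateField.adjoin ℚ (⋃ P ∈ T, (P.coeffs : Set kk))) N
  refine ⟨z, fun P hP h0 => hz P h0 ?_ ?_⟩
  · clear h0
    induction hP using Submodule.span_induction with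
    | mem P hP =>
      intro α
      by_cases h : P.coeff α = 0
      · rw [h]
        exact zero_mem _
      · exact IntermediateField.subset_adjoin _ _
          (Set.mem_biUnion hP (MvPolynomial.coeff_mem_coeffs α h))
    | zero => exact fun α => zero_mem _
    | add P Q _ _ hP hQ =>
      intro α
      rw [MvPolynomial.coeff_add]
      exact add_mem (hP α) (hQ α)
    | smul q P _ hP =>
      intro α
      rw [MvPolynomial.coeff_smul]
      exact IntermediateField.smul_mem _ (hP α)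
  · clear h0
    induction hP using Submodule.span_induction with
    | mem P hP => exact hN ⟨P, hP, rfl⟩
    | zero => simp
    | add P Q _ _ hP hQ => exact (MvPolynomial.totalDegree_add P Q).trans (max_le hP hQ)
    | smul q P _ hP => exact (MvPolynomial.totalDegree_smul_le q P).trans hP

open Polynomial in
theorem Kron_low {A D : Type} [CommRing A] [CommRing D] [IsDomain D] (f : A →+* D) {χ : A[X]}
    (h0 : χ ≠ 0) {u : D} (hu : u ≠ 0) (h : χ.eval₂ f u = 0) :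
    ∃ k, χ.coeff k ≠ 0 ∧ u ∣ f (χ.coeff k) := by
  obtain ⟨q, h1, h2⟩ := exists_eq_pow_rootMultiplicity_mul_and_not_dvd χ h0 0
  generalize rootMultiplicity 0 χ = n at h1
  rw [C_0, sub_zero] at h1 h2
  have h3 : χ.coeff n = q.coeff 0 := by
    have := coeff_X_pow_mul q n 0
    rwa [zero_add, ← h1] at this
  refine ⟨n, h3 ▸ fun hc => h2 (X_dvd_iff.2 hc), ?_⟩
  rw [h1, eval₂_mul, eval₂_X_pow] at h
  have h4 := (mul_eq_zero.1 h).resolve_left (pow_ne_zero _ hu)
  rw [← X_mul_divX_add q, eval₂_add, eval₂_mul, eval₂_X, eval₂_C] at h4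
  exact ⟨-q.divX.eval₂ f u, by rw [h3]; linear_combination h4⟩

theorem Kron_gen {A D ι : Type} [CommRing A] [CommRing D] [Fintype ι] (f : A →+* D)
    (hf : f.IsIntegral) (e : ι → D) : ∃ χ : Polynomial (MvPolynomial ι A), χ.Monic ∧
      ∀ c : ι → A, (χ.map (MvPolynomial.eval c)).eval₂ f (∑ i, f (c i) * e i) = 0 := by
  have h1 : (MvPolynomial.map f : MvPolynomial ι A →+* MvPolynomial ι D).IsIntegralElem
      (∑ i, MvPolynomial.X i * MvPolynomial.C (e i)) := by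
    refine Finset.sum_induction _ _ (fun a b ha hb => ha.add _ hb)
      (RingHom.isIntegralElem_zero _) fun i _ => RingHom.IsIntegralElem.mul _ ?_ ?_
    · rw [← MvPolynomial.map_X f]
      exact RingHom.isIntegralElem_map _
    · refine RingHom.IsIntegralElem.of_comp (f := MvPolynomial.C) ?_
      rw [MvPolynomial.map_comp_C]
      exact (hf (e i)).map _
  obtain ⟨χ, hm, h2⟩ := h1
  refine ⟨χ, hm, fun c => ?_⟩
  have h3 := congrArg (MvPolynomial.eval fun i => f (c i)) h2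
  have h4 : (MvPolynomial.eval fun i => f (c i)).comp (MvPolynomial.map f) =
      f.comp (MvPolynomial.eval c) := MvPolynomial.ringHom_ext (by simp) (by simp)
  rw [Polynomial.hom_eval₂, map_zero, h4] at h3
  rw [Polynomial.eval₂_map]
  simpa using h3

theorem exists_point_inj {D ι : Type} [CommRing D] [IsDomain D] [Algebra kk D]
    [Algebra.FiniteType kk D] [Fintype ι] (e : ι → D) :
    ∃ φ : D →ₐ[kk] kk, ∀ q : ι → ℚ, ∑ i, (q i : kk) • e i ≠ 0 → φ (∑ i, (q i : kk) • e i) ≠ 0 := by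
  obtain ⟨s, g, hinj, hint⟩ := exists_integral_inj_algHom_of_fg kk D
  obtain ⟨χ, hm, hχ⟩ := Kron_gen g.toRingHom hint e
  obtain ⟨z, hz⟩ := Kron_span (⋃ c ∈ χ.coeffs, (c.coeffs : Set (MvPolynomial (Fin s) kk)))
    (χ.coeffs.finite_toSet.biUnion fun c _ => c.coeffs.finite_toSet)
  have hsurj : Function.Surjective (MvPolynomial.eval z) := fun a =>
    ⟨MvPolynomial.C a, MvPolynomial.eval_C a⟩
  have hmax := RingHom.ker_isMaximal_of_surjective _ hsurj
  obtain ⟨𝔪, h𝔪, hc⟩ : ∃ 𝔪 : Ideal D, 𝔪.IsMaximal ∧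
      𝔪.comap g.toRingHom = RingHom.ker (MvPolynomial.eval z) := by
    algebraize [g.toRingHom]
    refine Ideal.exists_ideal_over_maximal_of_isIntegral _ ?_
    exact ((RingHom.injective_iff_ker_eq_bot g.toRingHom).1 hinj).le.trans bot_le
  let _ := Ideal.Quotient.field 𝔪
  have hfin : Module.Finite kk (D ⧸ 𝔪) := finite_of_finite_type_of_isJacobsonRing _ _
  let ψ := AlgEquiv.ofBijective (Algebra.ofId kk (D ⧸ 𝔪))
    IsAlgClosed.algebraMap_bijective_of_isIntegral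
  refine ⟨ψ.symm.toAlgHom.comp (Ideal.Quotient.mkₐ kk 𝔪), fun q h0 h1 => ?_⟩
  have h2 : ∑ i, (q i : kk) • e i ∈ 𝔪 :=
    Ideal.Quotient.eq_zero_iff_mem.1 ((map_eq_zero_iff _ ψ.symm.injective).1 h1)
  have h3 := hχ fun i => algebraMap kk _ (q i)
  have h4 : ∑ i, g.toRingHom (algebraMap kk _ (q i : kk)) * e i = ∑ i, (q i : kk) • e i :=
    Finset.sum_congr rfl fun i _ => by
      rw [Algebra.smul_def]
      exact congrArg (· * e i) (g.commutes _)
  rw [h4] at h3
  obtain ⟨k, h5, h6⟩ := Kron_low _ (hm.map _).ne_zero h0 h3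
  refine hz _ ?_ h5 ?_
  · rw [Polynomial.coeff_map] at h5 ⊢
    have h7 : χ.coeff k ≠ 0 := fun hc => h5 (by rw [hc, map_zero])
    rw [MvPolynomial.eval_eq']
    refine sum_mem fun α hα => ?_
    have h8 : (χ.coeff k).coeff α * ∏ i, algebraMap kk (MvPolynomial (Fin s) kk) (q i) ^ α i =
        (∏ i, q i ^ α i) • (χ.coeff k).coeff α := by
      rw [← algebraMap_smul kk, Algebra.smul_def, mul_comm]
      simp
    rw [h8]
    exact Submodule.smul_mem _ _ (Submodule.subset_span (Set.mem_biUnion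
      (Polynomial.coeff_mem_coeffs h7)
      (MvPolynomial.coeff_mem_coeffs α (MvPolynomial.mem_support_iff.1 hα))))
  · rw [← RingHom.mem_ker, ← hc]
    exact Ideal.mem_comap.2 (Ideal.mem_of_dvd 𝔪 h6 h2)

end Pool.Agent.Work.MP_913e71_al.Pos
end

-- merged part: Pool.Agent.Work.MP_913e71_al.Pos.Curve
section
/-! Curve selection.

PLAN.  Noether normalisation `i : k[z] → A`, finite and injective.  There is `P ≠ 0` in `k[z]` with
`i P ∈ t A` (`t ≠ 0` is integral).  `z₀ = φ (i z)`; `P z₀ = 0`.  Choose `v` with `P (z₀ + v) ≠ 0`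
(`MvPolynomial.funext`), so `v ≠ 0` and the line map `ℓ : k[z] → k[s]`, `z ↦ z₀ + s v`, is onto and
`ℓ P ≠ 0`.  `ker ℓ ≤ ker (φ ∘ i)`; going down (instance `Algebra.HasGoingDown` for an integral
extension of an integrally closed domain) gives a prime `𝔭 ≤ ker φ` over `ker ℓ`, `t ∉ 𝔭`.  `A / 𝔭`
is a domain finite over `k[s]`.  Let `B₀` be the integral closure of `k[s]` in its fraction field
(`IsIntegralClosure.isDedekindDomain`, characteristic zero gives separability), `𝔪` a maximal ideal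
over `ker φ`, `B` the localisation at `𝔪` (a discrete valuation ring as `t ∈ 𝔪`, `t ≠ 0`);
`B₀ / 𝔪` is integral over `k`, hence `k`. -/

namespace Pool.Agent.Work.MP_913e71_al.Pos

open Polynomial

/-- The conclusion of the curve selection lemma. -/
def Curve_P {k A : Type} [Field k] [CommRing A] [Algebra k A] (φ : A →ₐ[k] k) (t : A) : Prop :=
  ∃ (B : Type) (_ : CommRing B) (_ : IsDomain B) (_ : Algebra k B) (π : B) (ρ : B →ₐ[k] k)
    (ψ : A →ₐ[k] B), π ≠ 0 ∧ ρ π = 0 ∧ (∀ b, ρ b = 0 → π ∣ b) ∧ (∀ b, ρ b ≠ 0 → IsUnit b) ∧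
      (∀ a, ρ (ψ a) = φ a) ∧ ∃ (e : ℕ) (u : B), IsUnit u ∧ ψ t = π ^ e * u

theorem Curve_comp {k A C : Type} [Field k] [CommRing A] [Algebra k A] [CommRing C] [Algebra k C]
    (j : A →ₐ[k] C) {φ : A →ₐ[k] k} {φ' : C →ₐ[k] k} (h : ∀ a, φ' (j a) = φ a) {t : A}
    (hP : Curve_P φ' (j t)) : Curve_P φ t := by
  obtain ⟨B, i1, i2, i3, π, ρ, ψ, h1, h2, h3, h4, h5, h6⟩ := hP
  exact ⟨B, i1, i2, i3, π, ρ, ψ.comp j, h1, h2, h3, h4, fun a => (h5 _).trans (h a), h6⟩

theorem Curve_max {k A : Type} [Field k] [CommRing A] [Algebra k A] (φ : A →ₐ[k] k) :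
    (RingHom.ker φ).IsMaximal :=
  RingHom.ker_isMaximal_of_surjective φ fun c => ⟨algebraMap k A c, φ.commutes c⟩

theorem Curve_dvr {k C : Type} [Field k] [CommRing C] [IsDedekindDomain C] [Algebra k C]
    (φ : C →ₐ[k] k) {t : C} (ht : t ≠ 0) (hφ : φ t = 0) : Curve_P φ t := by
  have hm := Curve_max φ
  have h0 : RingHom.ker φ ≠ ⊥ := fun h => ht (Ideal.mem_bot.1 (h ▸ RingHom.mem_ker.2 hφ))
  let B := Localization.AtPrime (RingHom.ker φ)
  have hd : IsDiscreteValuationRing B :=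
    IsLocalization.AtPrime.isDiscreteValuationRing_of_dedekind_domain C h0 B
  let ρ : B →ₐ[k] k := IsLocalization.liftAlgHom (M := (RingHom.ker φ).primeCompl) (f := φ)
    fun y => isUnit_iff_ne_zero.2 y.2
  have hρ : ∀ a, ρ (algebraMap C B a) = φ a := fun a => IsLocalization.lift_eq _ a
  obtain ⟨π, hπ⟩ := IsDiscreteValuationRing.exists_irreducible B
  have hk : RingHom.ker ρ = IsLocalRing.maximalIdeal B := IsLocalRing.eq_maximalIdeal (Curve_max ρ)
  have hd' : ∀ b, ρ b = 0 ↔ π ∣ b := fun b => by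
    rw [← RingHom.mem_ker, hk, hπ.maximalIdeal_eq, Ideal.mem_span_singleton]
  have h1 : algebraMap C B t ≠ 0 := fun h => ht
    (IsLocalization.injective B (RingHom.ker φ).primeCompl_le_nonZeroDivisors
      (h.trans (map_zero _).symm))
  obtain ⟨e, u, hu⟩ := IsDiscreteValuationRing.eq_unit_mul_pow_irreducible h1 hπ
  refine ⟨B, inferInstance, inferInstance, inferInstance, π, ρ, IsScalarTower.toAlgHom k C B,
    hπ.ne_zero, (hd' π).2 dvd_rfl, fun b => (hd' b).1, fun b hb => ?_, hρ, e, u, u.isUnit,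
    hu.trans (mul_comm _ _)⟩
  by_contra hn
  exact hb (RingHom.mem_ker.1 (hk ▸ (IsLocalRing.mem_maximalIdeal b).2 hn))

theorem Curve_ext {k A C : Type} [Field k] [IsAlgClosed k] [CommRing A] [CommRing C] [Algebra k A]
    [Algebra k C] [Algebra A C] [IsScalarTower k A C] [Algebra.IsIntegral A C]
    (hinj : Function.Injective (algebraMap A C)) (φ : A →ₐ[k] k) :
    ∃ ρ : C →ₐ[k] k, ∀ a, ρ (algebraMap A C a) = φ a := by
  have hm := Curve_max φ
  obtain ⟨Q, hQ, e⟩ := Ideal.exists_ideal_over_maximal_of_isIntegral (S := C) (RingHom.ker φ)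
    (((RingHom.injective_iff_ker_eq_bot _).1 hinj).le.trans bot_le)
  have key : ∀ a, Ideal.Quotient.mk Q (algebraMap A C a) = algebraMap k (C ⧸ Q) (φ a) := by
    intro a
    have h1 : a - algebraMap k A (φ a) ∈ Q.comap (algebraMap A C) := by
      rw [e, RingHom.mem_ker, map_sub, φ.commutes]
      exact sub_self _
    rw [Ideal.mem_comap, map_sub, ← IsScalarTower.algebraMap_apply] at h1
    exact Ideal.Quotient.eq.2 h1
  have hint : Algebra.IsIntegral k (C ⧸ Q) := ⟨fun x => by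
    obtain ⟨c, rfl⟩ := Ideal.Quotient.mk_surjective x
    obtain ⟨p, hp, h⟩ := Algebra.IsIntegral.isIntegral (R := A) c
    refine ⟨p.map (φ : A →+* k), hp.map _, ?_⟩
    have h1 : (algebraMap k (C ⧸ Q)).comp (φ : A →+* k) =
        (Ideal.Quotient.mk Q).comp (algebraMap A C) := RingHom.ext fun a => (key a).symm
    rw [eval₂_map, h1, ← hom_eval₂, h, map_zero]⟩
  let ε : k ≃ₐ[k] C ⧸ Q := AlgEquiv.ofBijective (Algebra.ofId k (C ⧸ Q))
    IsAlgClosed.algebraMap_bijective_of_isIntegral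
  refine ⟨(ε.symm : (C ⧸ Q) →ₐ[k] k).comp (Ideal.Quotient.mkₐ k Q), fun a => ?_⟩
  exact (congrArg ε.symm (key a)).trans (ε.symm.commutes _)

theorem Curve_dim1 {k A : Type} [Field k] [IsAlgClosed k] [CharZero k] [CommRing A] [IsDomain A]
    [Algebra k A] (g : k[X] →ₐ[k] A) (hg : Function.Injective g) (hf : g.Finite) (φ : A →ₐ[k] k)
    {t : A} (ht : t ≠ 0) (hφ : φ t = 0) : Curve_P φ t := by
  let _ : Algebra k[X] A := g.toRingHom.toAlgebra
  have _ : IsScalarTower k k[X] A := IsScalarTower.of_algebraMap_eq fun c => (g.commutes c).symm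
  have _ : Module.Finite k[X] A := hf
  have _ : FaithfulSMul k[X] A := (faithfulSMul_iff_algebraMap_injective _ _).2 hg
  let L := FractionRing A
  let _ : Algebra (FractionRing k[X]) L := FractionRing.liftAlgebra _ _
  have _ : FiniteDimensional (FractionRing k[X]) L := .of_isLocalization k[X] A (nonZeroDivisors _)
  let C := integralClosure k[X] L
  have hC : IsDedekindDomain C := integralClosure.isDedekindDomain k[X] (FractionRing k[X]) L
  let j₀ : A →ₐ[k[X]] C := (IsScalarTower.toAlgHom k[X] A L).codRestrict C fun a =>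
    (Algebra.IsIntegral.isIntegral (R := k[X]) a).map (IsScalarTower.toAlgHom k[X] A L)
  have hj : Function.Injective j₀ := fun a b h =>
    IsFractionRing.injective A L (congrArg Subtype.val h)
  let _ : Algebra A C := j₀.toRingHom.toAlgebra
  have _ : IsScalarTower k[X] A C := IsScalarTower.of_algebraMap_eq fun c => (j₀.commutes c).symm
  have _ : IsScalarTower k A C := IsScalarTower.of_algebraMap_eq fun c =>
    ((j₀.restrictScalars k).commutes c).symm
  have _ : Algebra.IsIntegral A C := Algebra.IsIntegral.tower_top k[X]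
  obtain ⟨ρ, hρ⟩ := Curve_ext (C := C) hj φ
  exact Curve_comp (j₀.restrictScalars k) hρ
    (Curve_dvr ρ (fun h => ht (hj (h.trans (map_zero _).symm))) ((hρ t).trans hφ))

/-- A line through `z₀` on which `P` does not vanish identically. -/
theorem Curve_line {k : Type} [Field k] [Infinite k] {n : ℕ} (z : MvPolynomial (Fin n) k →ₐ[k] k)
    {P : MvPolynomial (Fin n) k} (hP : P ≠ 0) (h0 : z P = 0) :
    ∃ (l : MvPolynomial (Fin n) k →ₐ[k] k[X]) (σ : k[X] →ₐ[k] MvPolynomial (Fin n) k),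
      (∀ x, l (σ x) = x) ∧ l P ≠ 0 ∧ ∀ f, l f = 0 → z f = 0 := by
  obtain ⟨w, hw⟩ : ∃ w : Fin n → k, MvPolynomial.eval w P ≠ 0 := by
    by_contra h
    exact hP (MvPolynomial.funext fun w => by simpa using not_exists.1 h w)
  let l : MvPolynomial (Fin n) k →ₐ[k] k[X] := MvPolynomial.aeval fun i =>
    C (z (MvPolynomial.X i)) + C (w i - z (MvPolynomial.X i)) * X
  have e0 : (aeval (0 : k)).comp l = z := MvPolynomial.algHom_ext fun i => by simp [l]
  have e1 : (aeval (1 : k)).comp l = MvPolynomial.aeval w :=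
    MvPolynomial.algHom_ext fun i => by simp [l]
  obtain ⟨i, hi⟩ : ∃ i, w i - z (MvPolynomial.X i) ≠ 0 := by
    by_contra h
    have h1 : MvPolynomial.aeval w = z := MvPolynomial.algHom_ext fun i => by
      simpa [sub_eq_zero] using not_exists.1 h i
    exact hw ((DFunLike.congr_fun h1 P).trans h0)
  let σ : k[X] →ₐ[k] MvPolynomial (Fin n) k := aeval (MvPolynomial.C (w i - z (MvPolynomial.X i))⁻¹ *
    (MvPolynomial.X i - MvPolynomial.C (z (MvPolynomial.X i))))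
  have e2 : l.comp σ = AlgHom.id k _ := algHom_ext (by
    simp only [l, σ, AlgHom.comp_apply, aeval_X, map_mul, map_sub, MvPolynomial.aeval_X,
      MvPolynomial.aeval_C, algebraMap_eq, add_sub_cancel_left, AlgHom.id_apply]
    rw [← C_sub, ← mul_assoc, ← C_mul, inv_mul_cancel₀ hi, C_1, one_mul])
  refine ⟨l, σ, DFunLike.congr_fun e2, fun h => hw ?_, fun f h => ?_⟩
  · have h1 := DFunLike.congr_fun e1 P
    rw [AlgHom.comp_apply, h, map_zero] at h1
    exact h1.symm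
  · rw [← e0, AlgHom.comp_apply, h, map_zero]

theorem exists_curve {k A : Type} [Field k] [IsAlgClosed k] [CharZero k] [CommRing A] [IsDomain A]
    [Algebra k A] [Algebra.FiniteType k A] (φ : A →ₐ[k] k) (t : A) (ht : t ≠ 0) (hφ : φ t = 0) :
    ∃ (B : Type) (_ : CommRing B) (_ : IsDomain B) (_ : Algebra k B) (π : B) (ρ : B →ₐ[k] k)
      (ψ : A →ₐ[k] B), π ≠ 0 ∧ ρ π = 0 ∧ (∀ b, ρ b = 0 → π ∣ b) ∧ (∀ b, ρ b ≠ 0 → IsUnit b) ∧
        (∀ a, ρ (ψ a) = φ a) ∧ ∃ (e : ℕ) (u : B), IsUnit u ∧ ψ t = π ^ e * u := by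
  obtain ⟨n, i, hi, hf⟩ := exists_finite_inj_algHom_of_fg k A
  let _ : Algebra (MvPolynomial (Fin n) k) A := i.toRingHom.toAlgebra
  have _ : Module.Finite (MvPolynomial (Fin n) k) A := hf
  have _ : FaithfulSMul (MvPolynomial (Fin n) k) A :=
    (faithfulSMul_iff_algebraMap_injective _ _).2 hi
  obtain ⟨P, hP, c, hc⟩ := (Algebra.IsIntegral.isIntegral (R := MvPolynomial (Fin n) k)
    t).isAlgebraic.exists_nonzero_dvd (mem_nonZeroDivisors_of_ne_zero ht)
  have hc' : i P = t * c := hc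
  obtain ⟨l, σ, h1, h2, h3⟩ := Curve_line (φ.comp i) hP
    (by rw [AlgHom.comp_apply, hc', map_mul, hφ, zero_mul])
  have hp : (RingHom.ker l).IsPrime := RingHom.ker_isPrime l
  have hq : (RingHom.ker φ).IsPrime := RingHom.ker_isPrime φ
  obtain ⟨𝔭, hle, hpr, hov⟩ := Ideal.exists_ideal_le_liesOver_of_le (p := RingHom.ker l)
    (q := (RingHom.ker φ).under (MvPolynomial (Fin n) k)) (RingHom.ker φ) fun f h => h3 f h
  have hmem : ∀ f, i f ∈ 𝔭 ↔ l f = 0 := fun f => by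
    rw [← RingHom.mem_ker, hov.over]
    rfl
  let j := Ideal.Quotient.mkₐ k 𝔭
  have hj : ∀ a, j a = 0 ↔ a ∈ 𝔭 := fun a => Ideal.Quotient.eq_zero_iff_mem
  let g : k[X] →ₐ[k] A ⧸ 𝔭 := (j.comp i).comp σ
  have hg : g.comp l = j.comp i := AlgHom.ext fun f => by
    change j (i (σ (l f))) = j (i f)
    rw [← sub_eq_zero, ← map_sub, ← map_sub, hj, hmem, map_sub, h1, sub_self]
  refine Curve_comp j (φ' := Ideal.Quotient.liftₐ 𝔭 φ fun a ha => hle ha) (fun a => rfl)
    (Curve_dim1 g ((injective_iff_map_eq_zero g).2 fun x hx => ?_) ?_ _ (fun h => h2 ?_) hφ)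
  · exact (h1 x).symm.trans ((hmem _).1 ((hj _).1 hx))
  · refine AlgHom.Finite.of_comp_finite (f := l) ?_
    rw [hg]
    exact (AlgHom.Finite.of_surjective j (Ideal.Quotient.mkₐ_surjective k 𝔭)).comp hf
  · rw [← hmem, hc']
    exact 𝔭.mul_mem_right _ ((hj t).1 h)

end Pool.Agent.Work.MP_913e71_al.Pos
end

-- merged part: Pool.Agent.Work.MP_913e71_al.Pos.Rees
section
/-! Lifting a point of the initial ideal to an arc.

PLAN.  `R = MvPolynomial ι k`, `Ih` the ideal spanned by the homogeneous elements of `I` (each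
homogeneous component of an element of `Ih` lies in `I`), `L ≥ lam i` for all `i`.  Let
`Ψ : R[t] → (R / Ih)[t]`, `t ↦ t`, `Y i ↦ t ^ (L - lam i) Y i`, and `𝔞 = ker Ψ`.
(a) If `F = ∑ F a t ^ a ∈ 𝔞` then `φ (F 0) = 0`: the coefficient of `t ^ e` gives `g e ∈ Ih`, the sum
of the terms of `F` with `a + L |α| - lam · α = e`; its degree `d` component lies in `I`, has all
`lam`-weights at least `L d - e`, and its component of weight `L d - e` is the part of `F 0` of
degree `d` and that weight.  (b) For `F ∈ I` homogeneous of degree `d`, `F (t ^ lam Y)` maps to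
`t ^ (L d) F = 0`.  (c) `t F ∈ 𝔞 → F ∈ 𝔞`.  So `𝔞` misses the submonoid of the `t ^ e G` with
`φ (G 0) ≠ 0`; take a prime `𝔭 ⊇ 𝔞` missing it (`Ideal.exists_le_prime_disjoint`) and apply
`exists_curve` to `R[t] / 𝔭`. -/

namespace Pool.Agent.Work.MP_913e71_al.Pos

open MvPolynomial

/-- The map `t ↦ T`, `Y i ↦ T ^ (-lam i) Y i`. -/
noncomputable def Rees_psi {k ι Q : Type} [Field k] [CommRing Q] (lam : ι → ℕ)
    (q : MvPolynomial ι k →+* Q) : Polynomial (MvPolynomial ι k) →+* LaurentPolynomial Q :=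
  Polynomial.eval₂RingHom (eval₂Hom (LaurentPolynomial.C.comp (q.comp C))
    fun i => LaurentPolynomial.C (q (X i)) * LaurentPolynomial.T (-(lam i : ℤ)))
    (LaurentPolynomial.T 1)

theorem Rees_mono {k ι Q : Type} [Field k] [CommRing Q] (lam : ι → ℕ)
    (q : MvPolynomial ι k →+* Q) (α : ι →₀ ℕ) (c : k) :
    Rees_psi lam q (Polynomial.C (monomial α c)) =
      LaurentPolynomial.C (q (monomial α c)) * LaurentPolynomial.T (-(Finsupp.weight lam α : ℕ)) := by
  induction α using Finsupp.induction_linear generalizing c with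
  | zero => simp [Rees_psi]
  | add a b ha hb =>
    rw [← mul_one c, ← monomial_mul, map_mul, map_mul, ha, hb, map_mul, map_mul, map_add,
      Nat.cast_add, neg_add, LaurentPolynomial.T_add]
    ring
  | single i n =>
    rw [← C_mul_X_pow_eq_monomial]
    simp only [map_mul, map_pow]
    simp [Rees_psi, Finsupp.weight_single, mul_pow, mul_assoc]

theorem Rees_coef {k ι Q : Type} [Field k] [CommRing Q] (lam : ι → ℕ)
    (q : MvPolynomial ι k →+* Q) (w : ℕ) (G : Polynomial (MvPolynomial ι k)) :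
    (Rees_psi lam q G).coeff (-(w : ℤ)) =
      q (G.sum fun j a => weightedHomogeneousComponent lam (j + w) a) := by
  induction G using Polynomial.induction_on' with
  | add a b ha hb =>
    rw [Polynomial.sum_add_index _ _ _ (fun _ => map_zero _) (fun _ _ _ => map_add _ _ _), map_add,
      map_add, ← ha, ← hb]
    rfl
  | monomial j F =>
    rw [Polynomial.sum_monomial_index F
      (fun j a => weightedHomogeneousComponent lam (j + w) a) (map_zero _)]
    induction F using MvPolynomial.induction_on' with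
    | add a b ha hb =>
      rw [map_add, map_add, map_add, map_add, ← ha, ← hb]
      rfl
    | monomial α c =>
      have h1 : Rees_psi lam q Polynomial.X = LaurentPolynomial.T 1 := by simp [Rees_psi]
      rw [← Polynomial.C_mul_X_pow_eq_monomial, map_mul, map_pow, Rees_mono, h1,
        LaurentPolynomial.T_pow, LaurentPolynomial.mul_T_assoc,
        ← LaurentPolynomial.single_eq_C_mul_T, AddMonoidAlgebra.coeff_single, Finsupp.single_apply,
        weightedHomogeneousComponent_of_mem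
          (isWeightedHomogeneous_monomial lam α c (m := Finsupp.weight lam α) rfl)]
      by_cases h : j + w = Finsupp.weight lam α
      · rw [if_pos h, if_pos (by omega)]
      · rw [if_neg h, if_neg (by omega), map_zero]

theorem Rees_key {k ι : Type} [Field k] (I : Ideal (MvPolynomial ι k)) (lam : ι → ℕ)
    (φ : MvPolynomial ι k →ₐ[k] k)
    (hφ : ∀ (d w : ℕ) (F : MvPolynomial ι k), F.IsHomogeneous d → F ∈ I →
      (∀ α ∈ F.support, w ≤ Finsupp.weight lam α) → φ (weightedHomogeneousComponent lam w F) = 0)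
    (G : Polynomial (MvPolynomial ι k))
    (h : ∀ w d, homogeneousComponent d
      (G.sum fun j a => weightedHomogeneousComponent lam (j + w) a) ∈ I) : φ (G.coeff 0) = 0 := by
  classical
  rw [← sum_weightedHomogeneousComponent lam (G.coeff 0),
    finsum_eq_sum _ (weightedHomogeneousComponent_finsupp _), map_sum]
  refine Finset.sum_eq_zero fun w _ => ?_
  rw [← sum_homogeneousComponent (weightedHomogeneousComponent lam w (G.coeff 0)), map_sum]
  refine Finset.sum_eq_zero fun d _ => ?_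
  rw [← hφ d w _ (homogeneousComponent_isHomogeneous d _) (h w d) fun α hα => ?_]
  · congr 1
    ext α
    simp only [coeff_homogeneousComponent, coeff_weightedHomogeneousComponent, Polynomial.sum_def,
      coeff_sum]
    by_cases h1 : Finsupp.weight lam α = w
    · rw [if_pos h1, if_pos h1, Finset.sum_eq_single 0 (fun j _ hj => if_neg (by omega))
        (fun h0 => by simp [Polynomial.notMem_support_iff.1 h0]), zero_add, if_pos h1]
    · simp [h1]
  · by_contra hlt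
    apply mem_support_iff.1 hα
    simp only [coeff_homogeneousComponent, coeff_weightedHomogeneousComponent, Polynomial.sum_def,
      coeff_sum]
    rw [Finset.sum_eq_zero fun j _ => if_neg (by omega), ite_self]

theorem exists_arc {k ι : Type} [Field k] [IsAlgClosed k] [CharZero k] [Fintype ι] [DecidableEq ι]
    (I : Ideal (MvPolynomial ι k)) (lam : ι → ℕ) (φ : MvPolynomial ι k →ₐ[k] k)
    (hφ : ∀ (d w : ℕ) (F : MvPolynomial ι k), F.IsHomogeneous d → F ∈ I →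
      (∀ α ∈ F.support, w ≤ Finsupp.weight lam α) → φ (weightedHomogeneousComponent lam w F) = 0) :
    ∃ (B : Type) (_ : CommRing B) (_ : IsDomain B) (_ : Algebra k B) (π : B) (ρ : B →ₐ[k] k)
      (e : ℕ) (u : B) (y : ι → B), π ≠ 0 ∧ ρ π = 0 ∧ (∀ b, ρ b = 0 → π ∣ b) ∧
        (∀ b, ρ b ≠ 0 → IsUnit b) ∧ 0 < e ∧ IsUnit u ∧ (∀ i, ρ (y i) = φ (X i)) ∧
        ∀ (d : ℕ) (F : MvPolynomial ι k), F.IsHomogeneous d → F ∈ I →
          aeval (fun i => (π ^ e * u) ^ lam i * y i) F = 0 := by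
  let gr := MvPolynomial.gradedAlgebra (σ := ι) (R := k)
  let Ih := I.homogeneousCore (homogeneousSubmodule ι k)
  let Ψ := Rees_psi lam (Ideal.Quotient.mk Ih.toIdeal)
  let φ' : Polynomial (MvPolynomial ι k) →ₐ[k] k := Polynomial.aevalTower φ 0
  have h0 : ∀ G, φ' G = φ (G.coeff 0) := fun G => Polynomial.eval₂_at_zero _
  have hX : Ψ Polynomial.X = LaurentPolynomial.T 1 := by simp [Ψ, Rees_psi]
  have hk : ∀ G, Ψ G = 0 → φ' G = 0 := fun G hG => by
    rw [h0]
    refine Rees_key I lam φ hφ G fun w d => Ideal.toIdeal_homogeneousCore_le _ I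
      (homogeneousComponent_mem_of_mem Ih.isHomogeneous (Ideal.Quotient.eq_zero_iff_mem.1 ?_) d)
    rw [← Rees_coef]
    exact congrArg (fun x : LaurentPolynomial _ => x.coeff (-(w : ℤ))) hG
  let M : Submonoid (Polynomial (MvPolynomial ι k)) :=
    { carrier := {H | ∃ e G, φ' G ≠ 0 ∧ H = Polynomial.X ^ e * G}
      one_mem' := ⟨0, 1, by simp, by simp⟩
      mul_mem' := by
        rintro _ _ ⟨e, G, hG, rfl⟩ ⟨e', G', hG', rfl⟩
        exact ⟨e + e', G * G', by rw [map_mul]; exact mul_ne_zero hG hG', by ring⟩ }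
  obtain ⟨P, hP, hle, hd⟩ := Ideal.exists_le_prime_disjoint (RingHom.ker Ψ) M
    (Set.disjoint_left.2 (by
      rintro _ hH ⟨e, G, hG, rfl⟩
      have h1 : Ψ (Polynomial.X ^ e * G) = 0 := hH
      rw [map_mul, map_pow, hX] at h1
      exact hG (hk G (((LaurentPolynomial.isUnit_T 1).pow e).mul_right_eq_zero.1 h1))))
  have hP0 : ∀ G ∈ P, φ' G = 0 := fun G hG => by
    by_contra hne
    exact Set.disjoint_left.1 hd hG ⟨0, G, hne, by simp⟩
  have hft : Algebra.FiniteType k (Polynomial (MvPolynomial ι k)) :=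
    Algebra.FiniteType.trans (S := MvPolynomial ι k) inferInstance inferInstance
  obtain ⟨B, _, _, _, π, ρ, ψ, h1, h2, h3, h4, h5, e, u, hu, he⟩ :=
    exists_curve (Ideal.Quotient.liftₐ P φ' hP0) (Ideal.Quotient.mkₐ k P Polynomial.X)
      (fun h => Set.disjoint_left.1 hd (Ideal.Quotient.eq_zero_iff_mem.1 h)
        ⟨1, 1, by simp, by simp⟩) (Polynomial.aevalTower_X φ 0)
  refine ⟨B, _, inferInstance, _, π, ρ, e, u,
    fun i => ψ (Ideal.Quotient.mkₐ k P (Polynomial.C (X i))), h1, h2, h3, h4, ?_, hu,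
    fun i => (h5 _).trans (Polynomial.aevalTower_C φ 0 _), fun d F hF hFI => ?_⟩
  · refine Nat.pos_of_ne_zero fun h => (hu.map ρ).ne_zero ?_
    rw [h, pow_zero, one_mul] at he
    rw [← he, h5]
    exact Polynomial.aevalTower_X φ 0
  · let θ : MvPolynomial ι k →ₐ[k] Polynomial (MvPolynomial ι k) :=
      aeval fun i => Polynomial.X ^ lam i * Polynomial.C (X i)
    have e1 : Ψ.comp θ.toRingHom = LaurentPolynomial.C.comp (Ideal.Quotient.mk Ih.toIdeal) := by
      refine ringHom_ext (fun c => ?_) fun i => ?_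
      · simp [Ψ, θ, Rees_psi]
      · simp only [RingHom.comp_apply, θ, AlgHom.toRingHom_eq_coe, RingHom.coe_coe, aeval_X,
          map_mul, map_pow, hX]
        rw [mul_comm]
        simp [Ψ, Rees_psi]
    have e2 : θ F ∈ P := hle (by
      have h := RingHom.congr_fun e1 F
      rw [RingHom.comp_apply, RingHom.comp_apply, Ideal.Quotient.eq_zero_iff_mem.2
        (Ideal.mem_homogeneousCore_of_homogeneous_of_mem ⟨d, hF⟩ hFI), map_zero] at h
      exact h)
    have e3 : aeval (fun i => (π ^ e * u) ^ lam i *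
        ψ (Ideal.Quotient.mkₐ k P (Polynomial.C (X i)))) =
        (ψ.comp (Ideal.Quotient.mkₐ k P)).comp θ := by
      ext i
      simp only [θ, aeval_X, AlgHom.comp_apply, map_mul, map_pow, he]
    rw [e3, AlgHom.comp_apply, AlgHom.comp_apply, Ideal.Quotient.mkₐ_eq_mk,
      Ideal.Quotient.eq_zero_iff_mem.2 e2, map_zero]

/-- Truncation: every element is a polynomial in `π` modulo `π ^ M`, and the order of a polynomial
is read off from its value at `π`. -/
theorem trunc_exists {k B : Type} [Field k] [CommRing B] [Algebra k B] (π : B) (ρ : B →ₐ[k] k)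
    (h : ∀ b, ρ b = 0 → π ∣ b) (M : ℕ) (b : B) :
    ∃ x : Polynomial k, π ^ M ∣ Polynomial.aeval π x - b := by
  induction M with
  | zero => exact ⟨0, by simp⟩
  | succ M ih =>
    obtain ⟨x, c, hc⟩ := ih
    obtain ⟨c', hc'⟩ := h (c - algebraMap k B (ρ c)) (by simp)
    refine ⟨x - Polynomial.C (ρ c) * Polynomial.X ^ M, c', ?_⟩
    simp only [map_sub, map_mul, map_pow, Polynomial.aeval_C, Polynomial.aeval_X]
    linear_combination hc + π ^ M * hc'

theorem Rees_ev {k B : Type} [Field k] [CommRing B] [Algebra k B] {π : B} (ρ : B →ₐ[k] k)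
    (h1 : ρ π = 0) (x : Polynomial k) : ρ (Polynomial.aeval π x) = x.coeff 0 := by
  rw [← Polynomial.aeval_algHom_apply, h1, Polynomial.coeff_zero_eq_aeval_zero]

theorem Rees_dvd {k B : Type} [Field k] [CommRing B] [IsDomain B] [Algebra k B] {π : B}
    (ρ : B →ₐ[k] k) (h0 : π ≠ 0) (h1 : ρ π = 0) (M : ℕ) (x : Polynomial k)
    (h : π ^ M ∣ Polynomial.aeval π x) : Polynomial.X ^ M ∣ x := by
  induction M generalizing x with
  | zero => simp
  | succ M ih =>
    obtain ⟨x', rfl⟩ : Polynomial.X ∣ x := by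
      obtain ⟨c, hc⟩ := h
      rw [Polynomial.X_dvd_iff, ← Rees_ev ρ h1, hc]
      simp [h1]
    rw [map_mul, Polynomial.aeval_X, pow_succ', mul_dvd_mul_iff_left h0] at h
    rw [pow_succ']
    exact mul_dvd_mul_left _ (ih _ h)

theorem trunc_ord {k B : Type} [Field k] [CommRing B] [IsDomain B] [Algebra k B] (π : B)
    (ρ : B →ₐ[k] k) (h0 : π ≠ 0) (h1 : ρ π = 0) (x : Polynomial k) (a M : ℕ) (u : B) (hu : IsUnit u)
    (haM : a < M) (h : π ^ M ∣ Polynomial.aeval π x - π ^ a * u) :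
    x ≠ 0 ∧ x.natTrailingDegree = a := by
  obtain ⟨x', rfl⟩ := Rees_dvd ρ h0 h1 a x (by
    simpa using ((pow_dvd_pow π haM.le).trans h).add (dvd_mul_right _ u))
  have h2 := (pow_dvd_pow π haM).trans h
  rw [map_mul, map_pow, Polynomial.aeval_X, ← mul_sub, pow_succ,
    mul_dvd_mul_iff_left (pow_ne_zero _ h0)] at h2
  obtain ⟨c, hc⟩ := h2
  have h3 : x'.coeff 0 ≠ 0 := by
    have h4 := congrArg ρ hc
    rw [map_sub, map_mul, h1, zero_mul, sub_eq_zero, Rees_ev ρ h1] at h4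
    rw [h4]
    exact (hu.map ρ).ne_zero
  have h5 : x' ≠ 0 := fun h => h3 (by simp [h])
  refine ⟨mul_ne_zero (pow_ne_zero _ Polynomial.X_ne_zero) h5, ?_⟩
  rw [mul_comm, Polynomial.natTrailingDegree_mul_X_pow h5,
    Polynomial.natTrailingDegree_eq_zero.2 (Or.inr h3), zero_add]

theorem trunc_dvd {k B : Type} [Field k] [CommRing B] [IsDomain B] [Algebra k B] (π : B)
    (ρ : B →ₐ[k] k) (h0 : π ≠ 0) (h1 : ρ π = 0) (x : Polynomial k) (M : ℕ)
    (h : π ^ M ∣ Polynomial.aeval π x) : Polynomial.X ^ M ∣ x :=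
  Rees_dvd ρ h0 h1 M x h

end Pool.Agent.Work.MP_913e71_al.Pos
end

-- merged part: Pool.Agent.Work.MP_913e71_al.Pos.Key
section
/-! From a valuation to finitely many polynomial arcs.

PLAN for `one_arc` (variables `Y i ↦ z i`, `z i₀ = 1`).  Let `ν' = ν.comap (aeval z)`,
`I = {ν' = ⊤}` (an ideal).  `exists_point_inj` for `D = R / J` and the family of the classes of the
`Y i` gives `φ` with `φ (∑ q i Y i) ≠ 0` whenever `∑ q i Y i ∉ J`.  `exists_arc` gives `B, π, e, u, y`;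
`η i = (π ^ e u) ^ lam i * y i`, `y i` units.  `χ' (Y i) = η i / η i₀` kills `I`: homogenise with
`Y i₀` (`∑ j ≤ d, Y i₀ ^ (d - j) * homogeneousComponent j F`).  `til (X s) = Y i` if `X s = z i`, and
`0` if `ν (X s) = ⊤`; `ν (aeval z (til f) - f) = ⊤`; `χ = χ' ∘ til` kills `{ν = ⊤}` and
`χ (z i) = η i / η i₀`.  For `f = ∑ q i z i + f₀`, with `lam*` the least `lam i`, `q i ≠ 0`,
`χ f = π ^ (e lam*) * unit`, because the form `∑ (lam i = lam*) q i Y i` is not in `J`.  Truncate the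
`χ (X s)` modulo `π ^ M`, `M > e max lam` (`trunc_exists`, `trunc_ord`, `trunc_dvd`).

PLAN for `key`.  All values of `ν` are `≥ 0`.  `exists_orth` over `ℚ` gives `f j`.  Variables: the
finite set `Z` of the elements of finite value among `1`, `X s`, `T`, `f j` (index type `↥Z`;
`O ⊆ ι` the indices of the `f j`, which are pairwise different), `γ i` their values.
`groebner_step` gives `A`; add the constraints `± e i₀` and `e i - e i'` for `γ i' ≤ γ i`;
`cone_gen` writes `γ = ∑ g l • l`, each `l ≥ 0` with `l i₀ = 0`; `one_arc` for each `l`;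
`c l = (e l)⁻¹ • g l`. -/

namespace Pool.Agent.Work.MP_913e71_al.Pos

open MvPolynomial

variable {σ Γ : Type} [Fintype σ] [AddCommGroup Γ] [LinearOrder Γ] [IsOrderedAddMonoid Γ]

theorem Key_scale {k ι B : Type} [Field k] [CommRing B] [Algebra k B] (η : ι → B) (v : B) {d : ℕ}
    {F : MvPolynomial ι k} (h : F.IsHomogeneous d) :
    aeval (fun i => η i * v) F = aeval η F * v ^ d := by
  rw [aeval_def, aeval_def, eval₂_eq, eval₂_eq, Finset.sum_mul]
  refine Finset.sum_congr rfl fun α hα => ?_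
  simp only [mul_pow, Finset.prod_mul_distrib, Finset.prod_pow_eq_pow_sum, mul_assoc,
    ← h.degree_eq_sum_deg_support hα]

theorem Key_hom {k ι : Type} [Field k] (i₀ : ι) (F : MvPolynomial ι k) :
    ∃ (d : ℕ) (G : MvPolynomial ι k), G.IsHomogeneous d ∧
      ∀ (B : Type) [CommRing B] [Algebra k B] (a : ι → B), a i₀ = 1 → aeval a G = aeval a F := by
  refine ⟨F.totalDegree, ∑ j ∈ Finset.range (F.totalDegree + 1),
    X i₀ ^ (F.totalDegree - j) * homogeneousComponent j F,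
    IsHomogeneous.sum _ _ _ fun j hj => ?_, fun B _ _ a ha => ?_⟩
  · have := (isHomogeneous_X_pow (R := k) i₀ (F.totalDegree - j)).mul
      (homogeneousComponent_isHomogeneous j F)
    rwa [Nat.sub_add_cancel (Nat.lt_succ_iff.1 (Finset.mem_range.1 hj))] at this
  · conv_rhs => rw [← sum_homogeneousComponent F]
    simp only [map_sum, map_mul, map_pow, aeval_X, ha, one_pow, one_mul]

theorem Key_mod {k σ B : Type} [Field k] [CommRing B] [Algebra k B] (I : Ideal B)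
    (a b : MvPolynomial σ k →ₐ[k] B) (h : ∀ s, a (X s) - b (X s) ∈ I) (f : MvPolynomial σ k) :
    a f - b f ∈ I :=
  Ideal.Quotient.eq.1 (DFunLike.congr_fun (algHom_ext (f := (Ideal.Quotient.mkₐ k I).comp a)
    (g := (Ideal.Quotient.mkₐ k I).comp b) fun s => Ideal.Quotient.eq.2 (h s)) f)

theorem one_arc (ν : AddValuation (MvPolynomial σ kk) (WithTop Γ))
    (hC : ∀ a : kk, a ≠ 0 → ν (C a) = 0) {ι : Type} [Fintype ι] [DecidableEq ι]
    (z : ι → MvPolynomial σ kk) (i₀ : ι) (hz₀ : z i₀ = 1) (hzX : ∀ s, ν (X s) = ⊤ ∨ ∃ i, z i = X s)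
    (lam : ι → ℕ) (hlam : lam i₀ = 0) (J : Ideal (MvPolynomial ι kk)) (hJ : J.IsPrime)
    (hJI : ∀ (d w : ℕ) (F : MvPolynomial ι kk), F.IsHomogeneous d → ν (aeval z F) = ⊤ →
      (∀ α ∈ F.support, w ≤ Finsupp.weight lam α) → weightedHomogeneousComponent lam w F ∈ J)
    (hJX : ∀ i, X i ∉ J) (O : Finset ι)
    (hJO : ∀ q : ι → ℚ, (∃ i ∈ O, q i ≠ 0) → ∑ i ∈ O, (q i : kk) • X i ∉ J) :
    ∃ (x : σ → Polynomial kk) (e : ℕ), 0 < e ∧
      (∀ i, aeval x (z i) ≠ 0 ∧ (aeval x (z i)).natTrailingDegree = e * lam i) ∧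
      (∀ f i, ν f = ⊤ → Polynomial.X ^ (e * lam i) ∣ aeval x f) ∧
      ∀ (q : ι → ℚ) (f : MvPolynomial σ kk), ν (f - ∑ i ∈ O, q i • z i) = ⊤ → ∀ i ∈ O, q i ≠ 0 →
        aeval x f ≠ 0 ∧ (aeval x f).natTrailingDegree ≤ e * lam i := by
  classical
  obtain ⟨φ₀, h₀⟩ := exists_point_inj fun i => Ideal.Quotient.mkₐ kk J (X i)
  let φ := φ₀.comp (Ideal.Quotient.mkₐ kk J)
  have hφ : ∀ q : ι → ℚ, ∑ i, (q i : kk) • X i ∉ J → φ (∑ i, (q i : kk) • X i) ≠ 0 := fun q hq => by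
    have e : Ideal.Quotient.mkₐ kk J (∑ i, (q i : kk) • X i) =
        ∑ i, (q i : kk) • Ideal.Quotient.mkₐ kk J (X i) := by simp only [map_sum, map_smul]
    rw [AlgHom.comp_apply, e]
    exact h₀ q fun h => hq (Ideal.Quotient.eq_zero_iff_mem.1 (e.trans h))
  have hφX : ∀ i, φ (X i) ≠ 0 := fun i => by
    have e : ∑ j, (((Pi.single i 1 : ι → ℚ) j : ℚ) : kk) • (X j : MvPolynomial ι kk) = X i := by
      simp [Pi.single_apply, apply_ite (Rat.cast : ℚ → kk)]
    exact e ▸ hφ _ (e.symm ▸ hJX i)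
  have hφO : ∀ q : ι → ℚ, (∃ i ∈ O, q i ≠ 0) → φ (∑ i ∈ O, (q i : kk) • X i) ≠ 0 := fun q hq => by
    have e : ∑ j, (((if j ∈ O then q j else 0 : ℚ)) : kk) • (X j : MvPolynomial ι kk) =
        ∑ i ∈ O, (q i : kk) • X i := by
      simp [apply_ite (Rat.cast : ℚ → kk)]
    exact e ▸ hφ _ (e.symm ▸ hJO q hq)
  obtain ⟨B, _, _, _, π, ρ, e, u, y, p0, p1, p2, p3, he, hu, hy, hk⟩ :=
    exists_arc (ν.supp.comap (aeval z : MvPolynomial ι kk →ₐ[kk] _)) lam φ fun d w F h1 h2 h3 => by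
      rw [AlgHom.comp_apply, Ideal.Quotient.mkₐ_eq_mk,
        Ideal.Quotient.eq_zero_iff_mem.2 (hJI d w F h1 h2 h3), map_zero]
  have hyu : ∀ i, IsUnit (y i) := fun i => p3 _ (hy i ▸ hφX i)
  obtain ⟨v, hv⟩ := (hyu i₀).exists_right_inv
  have hvu : IsUnit v := IsUnit.of_mul_eq_one_right _ hv
  let χ' : MvPolynomial ι kk →ₐ[kk] B := aeval fun i => (π ^ e * u) ^ lam i * y i * v
  have h1 : ∀ F, aeval z F ∈ ν.supp → χ' F = 0 := fun F hF => by
    obtain ⟨d, G, g1, g2⟩ := Key_hom i₀ F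
    rw [← g2 _ _ hz₀] at hF
    refine (g2 _ _ (by rw [hlam, pow_zero, one_mul, hv])).symm.trans ?_
    rw [Key_scale _ v g1, hk d G g1 hF, zero_mul]
  have ht : ∀ s, ∃ G : MvPolynomial ι kk, aeval z G - X s ∈ ν.supp := fun s =>
    (hzX s).elim (fun h => ⟨0, by rwa [map_zero, zero_sub, neg_mem_iff]⟩) fun ⟨i, h⟩ =>
      ⟨X i, by rw [aeval_X, h, sub_self]; exact zero_mem _⟩
  choose til ht using ht
  have h2 : ∀ f, aeval z (aeval til f) - f ∈ ν.supp :=
    Key_mod _ ((aeval z).comp (aeval til)) (AlgHom.id kk _) fun s => by simpa using ht s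
  let χ := χ'.comp (aeval til)
  have h3 : ∀ f, ν f = ⊤ → χ f = 0 := fun f hf =>
    h1 _ (by simpa using add_mem (h2 f) ((ν.mem_supp_iff f).2 hf))
  have h4 : ∀ i, χ (z i) = (π ^ e * u) ^ lam i * y i * v := fun i => by
    have := h1 (aeval til (z i) - X i) (by rw [map_sub, aeval_X]; exact h2 _)
    rw [map_sub, sub_eq_zero] at this
    exact this.trans (aeval_X _ _)
  have hM : ∀ i, e * lam i < e * Finset.univ.sup lam + 1 := fun i =>
    Nat.lt_succ_of_le (Nat.mul_le_mul_left e (Finset.le_sup (Finset.mem_univ i)))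
  generalize e * Finset.univ.sup lam + 1 = M at hM
  choose x hx using fun s => trunc_exists π ρ p2 M (χ (X s))
  have h5 : ∀ f, π ^ M ∣ Polynomial.aeval π (aeval x f) - χ f := fun f =>
    Ideal.mem_span_singleton.1 (Key_mod _ ((Polynomial.aeval π).comp (aeval x)) χ
      (fun s => Ideal.mem_span_singleton.2 (by simpa using hx s)) f)
  refine ⟨x, e, he, fun i => trunc_ord π ρ p0 p1 _ _ M (u ^ lam i * y i * v)
    (((hu.pow _).mul (hyu i)).mul hvu) (hM i) ?_, fun f i hf => (pow_dvd_pow _ (hM i).le).trans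
      (trunc_dvd π ρ p0 p1 _ M (by simpa [h3 f hf] using h5 f)), fun q f hf i hi hq => ?_⟩
  · have := h5 (z i)
    rwa [h4, mul_pow, ← pow_mul, mul_assoc, mul_assoc, ← mul_assoc (u ^ _)] at this
  obtain ⟨j, hj, hj'⟩ := (O.filter (q · ≠ 0)).exists_min_image lam ⟨i, Finset.mem_filter.2 ⟨hi, hq⟩⟩
  obtain ⟨j1, j2⟩ := Finset.mem_filter.1 hj
  have h6 := h3 _ hf
  rw [map_sub, sub_eq_zero, map_sum] at h6
  have h7 : IsUnit (∑ i ∈ O, (q i : kk) • ((π ^ e * u) ^ (lam i - lam j) * y i)) := by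
    refine p3 _ fun h => hφO (fun i => q i * 0 ^ (lam i - lam j)) ⟨j, j1, by simpa using j2⟩ ?_
    rw [← h, map_sum, map_sum]
    refine Finset.sum_congr rfl fun i _ => ?_
    simp [p1, he.ne', hy, mul_assoc]
  have h8 : χ f = π ^ (e * lam j) * (u ^ lam j * v *
      ∑ i ∈ O, (q i : kk) • ((π ^ e * u) ^ (lam i - lam j) * y i)) := by
    rw [h6, Finset.mul_sum, Finset.mul_sum]
    refine Finset.sum_congr rfl fun i hi => ?_
    rw [← Rat.cast_smul_eq_qsmul kk, map_smul, h4, mul_smul_comm, mul_smul_comm]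
    by_cases h : q i = 0
    · rw [h, Rat.cast_zero, zero_smul, zero_smul]
    · obtain ⟨n, hn⟩ := Nat.exists_eq_add_of_le (hj' i (Finset.mem_filter.2 ⟨hi, h⟩))
      rw [hn, Nat.add_sub_cancel_left]
      exact congrArg _ (by ring)
  obtain ⟨a1, a2⟩ := trunc_ord π ρ p0 p1 _ _ M _ (((hu.pow _).mul hvu).mul h7) (hM j) (h8 ▸ h5 f)
  exact ⟨a1, a2 ▸ Nat.mul_le_mul_left e (hj' i (Finset.mem_filter.2 ⟨hi, hq⟩))⟩

theorem Key_cone [Module ℚ Γ] [PosSMulMono ℚ Γ] {ι : Type} [Fintype ι] [DecidableEq ι] (γ : ι → Γ)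
    (i₀ : ι) (h0 : γ i₀ = 0) (hγ : ∀ i, 0 ≤ γ i) (A : Finset (ι → ℤ))
    (hA : ∀ a ∈ A, 0 ≤ ∑ i, a i • γ i) :
    ∃ (m : ℕ) (lam : Fin m → ι → ℕ) (g : Fin m → Γ), (∀ l, 0 ≤ g l) ∧
      (∀ i, ∑ l, lam l i • g l = γ i) ∧ (∀ l, lam l i₀ = 0) ∧
      (∀ l i j, γ i ≤ γ j → lam l i ≤ lam l j) ∧ ∀ l, ∀ a ∈ A, 0 ≤ ∑ i, a i * lam l i := by
  obtain ⟨L, hL, hg⟩ := cone_gen (A ∪ (insert (Pi.single i₀ 1) (insert (-Pi.single i₀ 1)
    ((Finset.univ.filter fun p : ι × ι => γ p.1 ≤ γ p.2).image fun p : ι × ι =>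
      (Pi.single p.2 1 - Pi.single p.1 1 : ι → ℤ)))))
  obtain ⟨g, g0, hg⟩ := hg Γ γ fun a ha => by
    simp only [Finset.mem_union, Finset.mem_insert, Finset.mem_image, Finset.mem_filter] at ha
    rcases ha with ha | rfl | rfl | ⟨p, ⟨-, hp⟩, rfl⟩
    · exact hA a ha
    · simp [Pi.single_apply, h0]
    · simp [Pi.single_apply, apply_ite, h0]
    · simpa [Pi.single_apply, sub_smul] using hp
  have l0 : ∀ l ∈ L, l i₀ = 0 := fun l hl => le_antisymm
    (by simpa [Pi.single_apply] using hL l hl (-Pi.single i₀ 1) (by simp))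
    (by simpa [Pi.single_apply] using hL l hl (Pi.single i₀ 1) (by simp))
  have l1 : ∀ l ∈ L, ∀ i j, γ i ≤ γ j → l i ≤ l j := fun l hl i j h => by
    simpa [Pi.single_apply, sub_mul] using hL l hl (Pi.single j 1 - Pi.single i 1)
      (Finset.mem_union_right _ (Finset.mem_insert_of_mem (Finset.mem_insert_of_mem
        (Finset.mem_image.2 ⟨(i, j), Finset.mem_filter.2 ⟨Finset.mem_univ _, h⟩, rfl⟩))))
  have l2 : ∀ l ∈ L, ∀ i, ((l i).toNat : ℤ) = l i := fun l hl i => Int.toNat_of_nonneg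
    (l0 l hl ▸ l1 l hl i₀ i (h0 ▸ hγ i))
  refine ⟨_, fun l i => ((L.equivFin.symm l).1 i).toNat, fun l => g (L.equivFin.symm l),
    fun l => g0 _, fun i => ?_, fun l => congrArg Int.toNat (l0 _ (L.equivFin.symm l).2),
    fun l i j h => Int.toNat_le_toNat (l1 _ (L.equivFin.symm l).2 i j h), fun l a ha => ?_⟩
  · rw [L.equivFin.symm.sum_comp fun l => (l.1 i).toNat • g l, hg i, ← Finset.sum_coe_sort L]
    exact Finset.sum_congr rfl fun l _ => by rw [← natCast_zsmul, l2 l.1 l.2]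
  · simpa only [l2 _ (L.equivFin.symm l).2] using
      hL _ (L.equivFin.symm l).2 a (Finset.mem_union_left _ ha)

theorem key [Module ℚ Γ] [PosSMulMono ℚ Γ] (ν : AddValuation (MvPolynomial σ kk) (WithTop Γ))
    (hC : ∀ a : kk, a ≠ 0 → ν (C a) = 0) (hX : ∀ s, 0 ≤ ν (X s))
    (T U : Finset (MvPolynomial σ kk)) :
    ∃ (m : ℕ) (x : Fin m → σ → Polynomial kk) (c : Fin m → Γ), (∀ l, 0 ≤ c l) ∧
      (∀ f ∈ Submodule.span ℚ (U : Set (MvPolynomial σ kk)), ν f ≠ ⊤ →
        (∀ l, aeval (x l) f ≠ 0) ∧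
          ((∑ l, (aeval (x l) f).natTrailingDegree • c l : Γ) : WithTop Γ) ≤ ν f) ∧
      (∀ f ∈ T, ν f ≠ ⊤ → (∀ l, aeval (x l) f ≠ 0) ∧
          ((∑ l, (aeval (x l) f).natTrailingDegree • c l : Γ) : WithTop Γ) = ν f) ∧
      ∀ f ∈ T, ∀ g ∈ T, ν f ≠ ⊤ → ν f ≤ ν g → ∀ l,
        Polynomial.X ^ (aeval (x l) f).natTrailingDegree ∣ aeval (x l) g := by
  classical
  have hsm : ∀ (c : ℚ) (x : MvPolynomial σ kk), c ≠ 0 → ν (c • x) = ν x := fun c x hc => by
    rw [← Rat.cast_smul_eq_qsmul kk, smul_eq_C_mul, ν.map_mul, hC _ (Rat.cast_ne_zero.2 hc),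
      zero_add]
  have hnn : ∀ f, 0 ≤ ν f := fun f => by
    refine f.induction_on (motive := fun f => 0 ≤ ν f) (fun a => ?_)
      (fun _ _ h h' => ν.map_le_add h h') fun p n h => ?_
    · by_cases h : a = 0
      · rw [h, C_0, ν.map_zero]
        exact le_top
      · exact (hC a h).ge
    · rw [ν.map_mul]
      exact add_nonneg h (hX n)
  obtain ⟨s, f, -, f1, f2, f3⟩ := exists_orth (Submodule.span ℚ (U : Set (MvPolynomial σ kk))) ν
    ν.map_add hsm ν.map_zero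
  let Z := (insert 1 (T ∪ Finset.univ.image X)).filter (ν · ≠ ⊤)
  let z : Fin s ⊕ Z → MvPolynomial σ kk := Sum.elim f (↑)
  have hz : ∀ i, ∃ g : Γ, (g : WithTop Γ) = ν (z i) := fun i => WithTop.ne_top_iff_exists.1 (by
    rcases i with i | i
    exacts [f1 i, (Finset.mem_filter.1 i.2).2])
  choose γ hγ using hz
  have hZ : ∀ g ∈ insert 1 (T ∪ Finset.univ.image X), ν g ≠ ⊤ → ∃ i, z i = g := fun g h h' =>
    ⟨Sum.inr ⟨g, Finset.mem_filter.2 ⟨h, h'⟩⟩, rfl⟩
  have hT : ∀ g ∈ T, ν g ≠ ⊤ → ∃ i, z i = g := fun g h =>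
    hZ g (Finset.mem_insert_of_mem (Finset.mem_union_left _ h))
  obtain ⟨i₀, h₀⟩ := hZ 1 (Finset.mem_insert_self _ _) (by rw [ν.map_one]; exact WithTop.zero_ne_top)
  let ν' := ν.comap (aeval z : MvPolynomial (Fin s ⊕ Z) kk →ₐ[kk] _).toRingHom
  have e' : ∀ F, ν' F = ν (aeval z F) := fun _ => rfl
  obtain ⟨A, hA, hJ⟩ := groebner_step γ ν' (fun a ha => by rw [e', aeval_C]; exact hC a ha)
    fun i => by rw [e', aeval_X, hγ]
  obtain ⟨m, lam, g, g0, hg, l0, l1, l2⟩ := Key_cone γ i₀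
    (WithTop.coe_injective (by rw [hγ, h₀, ν.map_one, WithTop.coe_zero]))
    (fun i => WithTop.coe_le_coe.1 (hγ i ▸ hnn _)) A hA
  choose J j1 j2 j3 using fun l => hJ (lam l) (l2 l)
  let O : Finset (Fin s ⊕ Z) := Finset.univ.map Function.Embedding.inl
  have k : ∀ q : Fin s ⊕ Z → ℚ, ∀ i ∈ O, q i ≠ 0 → ν' (∑ i ∈ O, (q i : kk) • X i) ≤ γ i :=
    fun q i hi hq => by
      obtain ⟨j, -, rfl⟩ := Finset.mem_map.1 hi
      rw [e', hγ, Finset.sum_map, map_sum]
      refine (congrArg ν (Finset.sum_congr rfl fun i _ => ?_)).trans_le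
        (f3 (fun j => q (Sum.inl j)) j hq)
      rw [map_smul, aeval_X, Rat.cast_smul_eq_qsmul]
      rfl
  choose x e e0 m1 m2 m3 using fun l => one_arc ν hC z i₀ h₀ (fun s => or_iff_not_imp_left.2 (hZ _
    (Finset.mem_insert_of_mem (Finset.mem_union_right _
      (Finset.mem_image_of_mem _ (Finset.mem_univ s)))))) (lam l) (l0 l) (J l) (j1 l) (j2 l)
    (fun i => j3 l _ (X_ne_zero i) fun α hα => by
      rw [support_X, Finset.mem_singleton] at hα
      rw [hα, Finsupp.weight_single, one_smul, hγ, e', aeval_X]) O fun q ⟨i, hi, hq⟩ => by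
    refine j3 l _ (fun h => ?_) fun α hα => ?_
    · have := k q i hi hq
      rw [h, ν'.map_zero] at this
      exact WithTop.not_top_le_coe _ this
    · obtain ⟨j, hj, hα⟩ := Finset.mem_biUnion.1 (support_sum hα)
      have hq : q j ≠ 0 := fun h => by simp [h] at hα
      have := support_smul hα
      rw [support_X, Finset.mem_singleton] at this
      rw [this, Finsupp.weight_single, one_smul]
      exact k q j hj hq
  have c0 : ∀ l, 0 ≤ (e l : ℚ)⁻¹ • g l := fun l => smul_nonneg (by positivity) (g0 l)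
  have c1 : ∀ i, ∑ l, (e l * lam l i) • (e l : ℚ)⁻¹ • g l = γ i := fun i => by
    refine Eq.trans (Finset.sum_congr rfl fun l _ => ?_) (hg i)
    rw [mul_comm, mul_smul, ← Nat.cast_smul_eq_nsmul ℚ (e l),
      smul_inv_smul₀ (Nat.cast_ne_zero.2 (e0 l).ne')]
  refine ⟨m, x, _, c0, fun u hu hu' => ?_, fun u hu hu' => ?_, fun u hu w hw hu' h l => ?_⟩
  · obtain ⟨q, hq⟩ := f2 u hu
    obtain ⟨j, hj, hj'⟩ := (Finset.univ.filter (q · ≠ 0)).exists_min_image (fun j => ν (f j)) (by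
      by_contra h
      have : ∀ j, q j = 0 := by simpa using h
      exact hu' (by simpa [this] using hq))
    have k := fun l => m3 l (Sum.elim q 0) u (by rw [Finset.sum_map]; exact hq) (Sum.inl j)
      (Finset.mem_map_of_mem _ (Finset.mem_univ j)) (Finset.mem_filter.1 hj).2
    refine ⟨fun l => (k l).1, (WithTop.coe_le_coe.2 ((Finset.sum_le_sum fun l _ =>
      nsmul_le_nsmul_left (c0 l) (k l).2).trans_eq (c1 _))).trans ?_⟩
    rw [hγ, ← sub_add_cancel u (∑ j, q j • f j)]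
    refine ν.map_le_add (hq ▸ le_top) (ν.map_le_sum fun i _ => ?_)
    by_cases h : q i = 0
    · rw [h, zero_smul, ν.map_zero]
      exact le_top
    · rw [hsm _ _ h]
      exact hj' i (Finset.mem_filter.2 ⟨Finset.mem_univ _, h⟩)
  · obtain ⟨i, rfl⟩ := hT u hu hu'
    refine ⟨fun l => (m1 l i).1, ?_⟩
    simp only [fun l => (m1 l i).2, c1, hγ]
  · obtain ⟨i, rfl⟩ := hT u hu hu'
    rw [(m1 l i).2]
    by_cases h' : ν w = ⊤
    · exact m2 l w i h'
    obtain ⟨j, rfl⟩ := hT w hw h'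
    rw [← hγ, ← hγ, WithTop.coe_le_coe] at h
    refine Polynomial.X_pow_dvd_iff.2 fun d hd =>
      Polynomial.coeff_eq_zero_of_lt_natTrailingDegree (hd.trans_le ?_)
    rw [(m1 l j).2]
    exact Nat.mul_le_mul_left _ (l1 l i j h)

end Pool.Agent.Work.MP_913e71_al.Pos
end

-- merged part: Pool.Agent.Work.MP_913e71_al.Pos.Ultra
section
/-! The ordered vector space of real sequences modulo the gauge-bounded ones.

PLAN.  `Δ = {x | ∃ m, ∀ᶠ N in 𝒰, |x N| ≤ ε N m}` is a `ℚ`-submodule of `𝕀 → ℝ` (iterate `hadd`: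
for all `a`, `j` there is `c` with `j * ε N a ≤ ε N c`).  `Γ` is the quotient; the order is total
because `𝒰` is an ultrafilter. -/

namespace Pool.Agent.Work.MP_913e71_al.Pos

theorem Ultra_mul {𝕀 : Type} (ε : 𝕀 → ℕ → ℝ) (h0 : ∀ N j, 0 ≤ ε N j)
    (hadd : ∀ a b, ∃ c, ∀ N, ε N a + ε N b ≤ ε N c) (a j : ℕ) :
    ∃ c, ∀ N, (j : ℝ) * ε N a ≤ ε N c := by
  induction j with
  | zero => exact ⟨0, fun N => by simpa using h0 N 0⟩
  | succ j ih =>
    obtain ⟨c, hc⟩ := ih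
    obtain ⟨d, hd⟩ := hadd c a
    refine ⟨d, fun N => ?_⟩
    have h1 := hc N
    have h2 := hd N
    push_cast
    linarith

/-- The gauge-bounded sequences. -/
def Ultra_sub {𝕀 : Type} (𝒰 : Ultrafilter 𝕀) (ε : 𝕀 → ℕ → ℝ) (h0 : ∀ N j, 0 ≤ ε N j)
    (hadd : ∀ a b, ∃ c, ∀ N, ε N a + ε N b ≤ ε N c) : Submodule ℚ (𝕀 → ℝ) where
  carrier := {x | ∃ m, ∀ᶠ N in (𝒰 : Filter 𝕀), |x N| ≤ ε N m}
  zero_mem' := ⟨0, Filter.Eventually.of_forall fun N => by simpa using h0 N 0⟩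
  add_mem' := by
    rintro x y ⟨a, ha⟩ ⟨b, hb⟩
    obtain ⟨c, hc⟩ := hadd a b
    refine ⟨c, ?_⟩
    filter_upwards [ha, hb] with N h1 h2
    have h3 := hc N
    have h4 := abs_add_le (x N) (y N)
    simp only [Pi.add_apply]
    linarith
  smul_mem' := by
    rintro q x ⟨a, ha⟩
    obtain ⟨c, hc⟩ := Ultra_mul ε h0 hadd a ⌈|(q : ℝ)|⌉₊
    refine ⟨c, ?_⟩
    filter_upwards [ha] with N h1
    have h2 := hc N
    have h3 : |(q : ℝ)| ≤ (⌈|(q : ℝ)|⌉₊ : ℝ) := Nat.le_ceil _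
    simp only [Pi.smul_apply, Rat.smul_def, abs_mul]
    calc |(q : ℝ)| * |x N| ≤ (⌈|(q : ℝ)|⌉₊ : ℝ) * ε N a :=
          mul_le_mul h3 h1 (abs_nonneg _) (Nat.cast_nonneg _)
      _ ≤ ε N c := h2

theorem Ultra_trans {𝕀 : Type} (𝒰 : Ultrafilter 𝕀) (ε : 𝕀 → ℕ → ℝ)
    (hadd : ∀ a b, ∃ c, ∀ N, ε N a + ε N b ≤ ε N c) {x y z : 𝕀 → ℝ}
    (h1 : ∃ m, ∀ᶠ N in (𝒰 : Filter 𝕀), x N ≤ y N + ε N m)
    (h2 : ∃ m, ∀ᶠ N in (𝒰 : Filter 𝕀), y N ≤ z N + ε N m) :
    ∃ m, ∀ᶠ N in (𝒰 : Filter 𝕀), x N ≤ z N + ε N m := by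
  obtain ⟨a, ha⟩ := h1
  obtain ⟨b, hb⟩ := h2
  obtain ⟨c, hc⟩ := hadd a b
  refine ⟨c, ?_⟩
  filter_upwards [ha, hb] with N h3 h4
  have h5 := hc N
  linarith

theorem Ultra_eq_iff {𝕀 : Type} (𝒰 : Ultrafilter 𝕀) (ε : 𝕀 → ℕ → ℝ) (h0 : ∀ N j, 0 ≤ ε N j)
    (hadd : ∀ a b, ∃ c, ∀ N, ε N a + ε N b ≤ ε N c) (x y : 𝕀 → ℝ) :
    (Ultra_sub 𝒰 ε h0 hadd).mkQ x = (Ultra_sub 𝒰 ε h0 hadd).mkQ y ↔
      (∃ m, ∀ᶠ N in (𝒰 : Filter 𝕀), x N ≤ y N + ε N m) ∧
        ∃ m, ∀ᶠ N in (𝒰 : Filter 𝕀), y N ≤ x N + ε N m := by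
  rw [Submodule.mkQ_apply, Submodule.mkQ_apply, Submodule.Quotient.eq]
  constructor
  · rintro ⟨m, hm⟩
    refine ⟨⟨m, ?_⟩, ⟨m, ?_⟩⟩
    · filter_upwards [hm] with N h
      have h1 := (abs_le.1 h).2
      simp only [Pi.sub_apply] at h1
      linarith
    · filter_upwards [hm] with N h
      have h1 := (abs_le.1 h).1
      simp only [Pi.sub_apply] at h1
      linarith
  · rintro ⟨⟨a, ha⟩, ⟨b, hb⟩⟩
    obtain ⟨c, hc⟩ := hadd a b
    refine ⟨c, ?_⟩
    filter_upwards [ha, hb] with N h1 h2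
    have h3 := hc N
    have h4 := h0 N a
    have h5 := h0 N b
    simp only [Pi.sub_apply]
    rw [abs_le]
    constructor <;> linarith

theorem exists_ultra_group {𝕀 : Type} (𝒰 : Ultrafilter 𝕀) (ε : 𝕀 → ℕ → ℝ)
    (h0 : ∀ N j, 0 ≤ ε N j) (hadd : ∀ a b, ∃ c, ∀ N, ε N a + ε N b ≤ ε N c) :
    ∃ (Γ : Type) (_ : AddCommGroup Γ) (_ : LinearOrder Γ) (_ : IsOrderedAddMonoid Γ)
      (_ : Module ℚ Γ) (_ : PosSMulMono ℚ Γ) (mk : (𝕀 → ℝ) →ₗ[ℚ] Γ), Function.Surjective mk ∧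
        ∀ x y, mk x ≤ mk y ↔ ∃ m, ∀ᶠ N in (𝒰 : Filter 𝕀), x N ≤ y N + ε N m := by
  classical
  let Δ := Ultra_sub 𝒰 ε h0 hadd
  let R : (𝕀 → ℝ) → (𝕀 → ℝ) → Prop := fun x y =>
    ∃ m, ∀ᶠ N in (𝒰 : Filter 𝕀), x N ≤ y N + ε N m
  let le : ((𝕀 → ℝ) ⧸ Δ) → ((𝕀 → ℝ) ⧸ Δ) → Prop := fun g h =>
    ∃ x y, Δ.mkQ x = g ∧ Δ.mkQ y = h ∧ R x y
  have hsurj : Function.Surjective Δ.mkQ := Δ.mkQ_surjective
  have key : ∀ x y, le (Δ.mkQ x) (Δ.mkQ y) ↔ R x y := by
    intro x y
    constructor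
    · rintro ⟨x', y', hx, hy, h⟩
      have h1 := (Ultra_eq_iff 𝒰 ε h0 hadd x' x).1 hx
      have h2 := (Ultra_eq_iff 𝒰 ε h0 hadd y' y).1 hy
      exact Ultra_trans 𝒰 ε hadd (Ultra_trans 𝒰 ε hadd h1.2 h) h2.1
    · intro h
      exact ⟨x, y, rfl, rfl, h⟩
  let lo : LinearOrder ((𝕀 → ℝ) ⧸ Δ) :=
    { le := le
      lt := fun g h => le g h ∧ ¬ le h g
      lt_iff_le_not_ge := fun _ _ => Iff.rfl
      le_refl := fun g => by
        obtain ⟨x, rfl⟩ := hsurj g
        exact (key x x).2 ⟨0, Filter.Eventually.of_forall fun N => by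
          have := h0 N 0
          linarith⟩
      le_trans := fun g h k h1 h2 => by
        obtain ⟨x, rfl⟩ := hsurj g
        obtain ⟨y, rfl⟩ := hsurj h
        obtain ⟨z, rfl⟩ := hsurj k
        exact (key x z).2 (Ultra_trans 𝒰 ε hadd ((key x y).1 h1) ((key y z).1 h2))
      le_antisymm := fun g h h1 h2 => by
        obtain ⟨x, rfl⟩ := hsurj g
        obtain ⟨y, rfl⟩ := hsurj h
        exact (Ultra_eq_iff 𝒰 ε h0 hadd x y).2 ⟨(key x y).1 h1, (key y x).1 h2⟩
      le_total := fun g h => by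
        obtain ⟨x, rfl⟩ := hsurj g
        obtain ⟨y, rfl⟩ := hsurj h
        by_cases hxy : ∀ᶠ N in (𝒰 : Filter 𝕀), x N ≤ y N
        · refine Or.inl ((key x y).2 ⟨0, ?_⟩)
          filter_upwards [hxy] with N h1
          have := h0 N 0
          linarith
        · refine Or.inr ((key y x).2 ⟨0, ?_⟩)
          filter_upwards [Ultrafilter.eventually_not.2 hxy] with N h1
          have := h0 N 0
          linarith [not_le.1 h1]
      toDecidableLE := Classical.decRel _ }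
  have key' : ∀ x y, Δ.mkQ x ≤ Δ.mkQ y ↔ R x y := key
  have hord : IsOrderedAddMonoid ((𝕀 → ℝ) ⧸ Δ) := by
    constructor
    all_goals
      intro g h hgh k
      obtain ⟨x, rfl⟩ := hsurj g
      obtain ⟨y, rfl⟩ := hsurj h
      obtain ⟨z, rfl⟩ := hsurj k
      rw [← map_add, ← map_add, key']
      obtain ⟨m, hm⟩ := (key' x y).1 hgh
      refine ⟨m, ?_⟩
      filter_upwards [hm] with N h1
      simp only [Pi.add_apply]
      linarith
  have hsm : PosSMulMono ℚ ((𝕀 → ℝ) ⧸ Δ) := by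
    constructor
    intro q hq g h hgh
    obtain ⟨x, rfl⟩ := hsurj g
    obtain ⟨y, rfl⟩ := hsurj h
    rw [← map_smul, ← map_smul, key']
    obtain ⟨m, hm⟩ := (key' x y).1 hgh
    obtain ⟨c, hc⟩ := Ultra_mul ε h0 hadd m ⌈(q : ℝ)⌉₊
    refine ⟨c, ?_⟩
    filter_upwards [hm] with N h1
    have h2 := hc N
    have h3 : (q : ℝ) ≤ (⌈(q : ℝ)⌉₊ : ℝ) := Nat.le_ceil _
    have h4 : (0 : ℝ) ≤ q := by exact_mod_cast hq
    have h5 := mul_le_mul_of_nonneg_left h1 h4
    have h6 := mul_le_mul_of_nonneg_right h3 (h0 N m)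
    simp only [Pi.smul_apply, Rat.smul_def]
    linarith
  exact ⟨(𝕀 → ℝ) ⧸ Δ, inferInstance, lo, hord, inferInstance, hsm, Δ.mkQ, hsurj, key'⟩

end Pool.Agent.Work.MP_913e71_al.Pos
end

-- merged part: Pool.Agent.Work.MP_913e71_al.Pos.FD
section
/-! Finite domination.

PLAN.  Suppose not.  Index set `𝕀` = pairs (finite set of arcs respecting `Ps`, function
`MvPolynomial σ kk → ℕ`), directed for the product order; choose a bad object `o N` for each `N`, and
`𝒰 = Ultrafilter.of atTop`.  `exists_ultra_group` for `ε (o N)`.  `ultra_val`: `ν f = ⊤` if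
`Nm (o N) f = 0` for almost all `N`, and the class of `N ↦ - log (Nm (o N) f)` otherwise.  `key` gives
arcs `x l` (they respect `Ps`) and `c l`; lift `c l` to sequences and replace them by their positive
parts.  The patterns `l ↦ (aeval (x l) f).trailingDegree ∈ ℕ∞` take finitely many values on the span
of `U` (`finite_values`); for a pattern `π` the `f` of pattern `≥ π` form a finite dimensional
`ℚ`-subspace `E π`; for almost all `N` the inequality with `∑ c l π l` holds for a finite spanning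
family of each `E π` (and `Nm` vanishes on it if some `π l = ⊤`), hence for every `f ∈ E π` with an
error `ε (m₀ f)` depending only on the rational coefficients of `f`.  Sum the `c l` over the fibres
of `l ↦ x l`; for almost all `N` the index `N` is above `(image x, m₀)`, contradiction. -/

namespace Pool.Agent.Work.MP_913e71_al.Pos

open MvPolynomial

theorem FD_le {𝕀 Γ : Type} [AddCommGroup Γ] [LinearOrder Γ] [Module ℚ Γ] {𝒰 : Ultrafilter 𝕀}
    {ε : 𝕀 → ℕ → ℝ} {mk : (𝕀 → ℝ) →ₗ[ℚ] Γ}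
    (hmk : ∀ x y, mk x ≤ mk y ↔ ∃ m, ∀ᶠ N in (𝒰 : Filter 𝕀), x N ≤ y N + ε N m)
    {a b : 𝕀 → ℝ} {u v : WithTop Γ} (a0 : ∀ N, 0 ≤ a N)
    (ha : ((∀ᶠ N in (𝒰 : Filter 𝕀), a N = 0) ∧ u = ⊤) ∨
      ((∀ᶠ N in (𝒰 : Filter 𝕀), a N ≠ 0) ∧ u = mk fun N => -Real.log (a N)))
    (hb : ((∀ᶠ N in (𝒰 : Filter 𝕀), b N = 0) ∧ v = ⊤) ∨
      ((∀ᶠ N in (𝒰 : Filter 𝕀), b N ≠ 0) ∧ v = mk fun N => -Real.log (b N)))
    (m : ℕ) (h : ∀ᶠ N in (𝒰 : Filter 𝕀), a N ≤ Real.exp (ε N m) * b N) : v ≤ u := by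
  rcases ha with ⟨-, rfl⟩ | ⟨a1, rfl⟩
  · exact le_top
  rcases hb with ⟨b1, -⟩ | ⟨b1, rfl⟩
  · obtain ⟨N, ⟨h1, h2⟩, h3⟩ := ((a1.and b1).and h).exists
    rw [h2, mul_zero] at h3
    exact absurd (le_antisymm h3 (a0 N)) h1
  · refine WithTop.coe_le_coe.2 ((hmk _ _).2 ⟨m, ?_⟩)
    filter_upwards [a1, b1, h] with N h1 h2 h3
    have h4 := Real.log_le_log (lt_of_le_of_ne (a0 N) h1.symm) h3
    rw [Real.log_mul (Real.exp_ne_zero _) h2, Real.log_exp] at h4
    linarith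

theorem ultra_val {σ 𝕀 Γ : Type} [AddCommGroup Γ] [LinearOrder Γ] [IsOrderedAddMonoid Γ]
    [Module ℚ Γ] (𝒰 : Ultrafilter 𝕀) (ε : 𝕀 → ℕ → ℝ) (h0 : ∀ N j, 0 ≤ ε N j)
    (mk : (𝕀 → ℝ) →ₗ[ℚ] Γ)
    (hmk : ∀ x y, mk x ≤ mk y ↔ ∃ m, ∀ᶠ N in (𝒰 : Filter 𝕀), x N ≤ y N + ε N m)
    (Nm : 𝕀 → MvPolynomial σ kk → ℝ) (hN0 : ∀ o f, 0 ≤ Nm o f) (hzero : ∀ o, Nm o 0 = 0)
    (hone : ∀ o, Nm o 1 = 1) (hmul : ∀ o f g, Nm o (f * g) = Nm o f * Nm o g) (m₀ : ℕ)
    (hadd : ∀ o f g, Nm o (f + g) ≤ Real.exp (ε o m₀) * max (Nm o f) (Nm o g)) :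
    ∃ ν : AddValuation (MvPolynomial σ kk) (WithTop Γ), ∀ f,
      ((∀ᶠ N in (𝒰 : Filter 𝕀), Nm N f = 0) ∧ ν f = ⊤) ∨
      ((∀ᶠ N in (𝒰 : Filter 𝕀), Nm N f ≠ 0) ∧ ν f = mk fun N => -Real.log (Nm N f)) := by
  classical
  have key : ∀ a : 𝕀 → ℝ, ((∀ᶠ N in (𝒰 : Filter 𝕀), a N = 0) ∧
      (if ∀ᶠ N in (𝒰 : Filter 𝕀), a N = 0 then (⊤ : WithTop Γ)
        else mk fun N => -Real.log (a N)) = ⊤) ∨
      ((∀ᶠ N in (𝒰 : Filter 𝕀), a N ≠ 0) ∧ (if ∀ᶠ N in (𝒰 : Filter 𝕀), a N = 0 then (⊤ : WithTop Γ)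
        else mk fun N => -Real.log (a N)) = mk fun N => -Real.log (a N)) := fun a => by
    by_cases h : ∀ᶠ N in (𝒰 : Filter 𝕀), a N = 0
    · exact Or.inl ⟨h, if_pos h⟩
    · exact Or.inr ⟨Ultrafilter.eventually_not.2 h, if_neg h⟩
  have hcongr : ∀ x y : 𝕀 → ℝ, (∀ᶠ N in (𝒰 : Filter 𝕀), x N = y N) → mk x = mk y := fun x y h =>
    le_antisymm ((hmk _ _).2 ⟨0, h.mono fun N e => by linarith [h0 N 0]⟩)
      ((hmk _ _).2 ⟨0, h.mono fun N e => by linarith [h0 N 0]⟩)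
  refine ⟨AddValuation.of (fun f => if ∀ᶠ N in (𝒰 : Filter 𝕀), Nm N f = 0 then (⊤ : WithTop Γ)
    else mk fun N => -Real.log (Nm N f)) (if_pos (Filter.Eventually.of_forall hzero)) ?_
    (fun f g => ?_) (fun f g => ?_), fun f => key _⟩
  · simp only [hone, Real.log_one, neg_zero]
    rw [if_neg fun h => h.exists.elim fun _ => one_ne_zero]
    exact congrArg _ (map_zero mk)
  · rcases (Ultrafilter.eventually_or (f := 𝒰)).1 (Filter.Eventually.of_forall fun N =>
      le_total (Nm N f) (Nm N g)) with h | h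
    · refine (min_le_right _ _).trans (FD_le hmk (fun N => hN0 N _) (key _) (key _) m₀ ?_)
      exact h.mono fun N e => (hadd N f g).trans_eq (by rw [max_eq_right e])
    · refine (min_le_left _ _).trans (FD_le hmk (fun N => hN0 N _) (key _) (key _) m₀ ?_)
      exact h.mono fun N e => (hadd N f g).trans_eq (by rw [max_eq_left e])
  · rcases key fun N => Nm N f with ⟨a1, a2⟩ | ⟨a1, a2⟩
    · rw [a2, top_add]
      exact if_pos (a1.mono fun N e => by rw [hmul, e, zero_mul])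
    rcases key fun N => Nm N g with ⟨b1, b2⟩ | ⟨b1, b2⟩
    · rw [b2, add_top]
      exact if_pos (b1.mono fun N e => by rw [hmul, e, mul_zero])
    rw [a2, b2, if_neg (Ultrafilter.eventually_not.1 ((a1.and b1).mono fun N e => by
      rw [hmul]; exact mul_ne_zero e.1 e.2)), ← WithTop.coe_add, ← map_add]
    refine congrArg _ (hcongr _ _ ((a1.and b1).mono fun N e => ?_))
    rw [hmul, Real.log_mul e.1 e.2, Pi.add_apply, neg_add]

theorem FD_td_le (p : Polynomial kk) (w : ℕ∞) :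
    w ≤ p.trailingDegree ↔ ∀ n : ℕ, (n : ℕ∞) < w → p.coeff n = 0 := by
  refine ⟨fun h n hn => Polynomial.coeff_eq_zero_of_lt_trailingDegree (hn.trans_le h), fun h => ?_⟩
  by_cases hp : p = 0
  · rw [hp, Polynomial.trailingDegree_zero]
    exact le_top
  · rw [Polynomial.trailingDegree_eq_natTrailingDegree hp]
    exact not_lt.1 fun h1 => Polynomial.trailingCoeff_nonzero_iff_nonzero.2 hp (h _ h1)

theorem FD_smul {σ : Type} (q : ℚ) (f : MvPolynomial σ kk) : q • f = C (q : kk) * f := by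
  rw [← smul_eq_C_mul, Rat.cast_smul_eq_qsmul]

theorem FD_td_add {σ : Type} (x : σ → Polynomial kk) {w : ℕ∞} {f g : MvPolynomial σ kk}
    (hf : w ≤ (aeval x f).trailingDegree) (hg : w ≤ (aeval x g).trailingDegree) :
    w ≤ (aeval x (f + g)).trailingDegree := by
  rw [FD_td_le] at hf hg ⊢
  intro n hn
  rw [map_add, Polynomial.coeff_add, hf n hn, hg n hn, add_zero]

theorem FD_td_smul {σ : Type} (x : σ → Polynomial kk) {w : ℕ∞} (q : ℚ) {f : MvPolynomial σ kk}
    (hf : w ≤ (aeval x f).trailingDegree) : w ≤ (aeval x (q • f)).trailingDegree := by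
  rw [FD_td_le] at hf ⊢
  intro n hn
  rw [← Rat.cast_smul_eq_qsmul kk, map_smul, Polynomial.coeff_smul, hf n hn, smul_zero]

/-- the elements of `V` whose pattern is at least `π` -/
def FD_E {σ L : Type} (x : L → σ → Polynomial kk) (V : Submodule ℚ (MvPolynomial σ kk))
    (π : L → ℕ∞) : Submodule ℚ (MvPolynomial σ kk) where
  carrier := {f | f ∈ V ∧ ∀ l, π l ≤ (aeval (x l) f).trailingDegree}
  add_mem' hf hg := ⟨V.add_mem hf.1 hg.1, fun l => FD_td_add _ (hf.2 l) (hg.2 l)⟩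
  zero_mem' := ⟨V.zero_mem, fun l => by rw [map_zero, Polynomial.trailingDegree_zero]; exact le_top⟩
  smul_mem' q _ hf := ⟨V.smul_mem q hf.1, fun l => FD_td_smul _ q (hf.2 l)⟩

theorem FD_fin {σ : Type} (x : σ → Polynomial kk) (V : Submodule ℚ (MvPolynomial σ kk))
    [Module.Finite ℚ V] :
    ((fun f => (aeval x f).trailingDegree) '' (V : Set (MvPolynomial σ kk))).Finite := by
  refine finite_values V _ (fun f g => FD_td_add x (min_le_left _ _) (min_le_right _ _))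
    (fun q f hq => le_antisymm ?_ (FD_td_smul x q le_rfl)) (by simp)
  have h := FD_td_smul x q⁻¹ (le_refl (aeval x (q • f)).trailingDegree)
  rwa [inv_smul_smul₀ hq] at h

theorem FD_span {σ Ω : Type} {Nm : Ω → MvPolynomial σ kk → ℝ} {ε : Ω → ℕ → ℝ}
    (hεm : ∀ o, Monotone (ε o)) (hεa : ∀ a b, ∃ c, ∀ o, ε o a + ε o b ≤ ε o c)
    (hN0 : ∀ o f, 0 ≤ Nm o f) (hzero : ∀ o, Nm o 0 = 0)
    (hmul : ∀ o f g, Nm o (f * g) = Nm o f * Nm o g) {m₀ : ℕ}
    (hadd : ∀ o f g, Nm o (f + g) ≤ Real.exp (ε o m₀) * max (Nm o f) (Nm o g))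
    (hC : ∀ a : kk, ∃ m, ∀ o, Nm o (C a) ≤ Real.exp (ε o m)) (S : Set (MvPolynomial σ kk))
    (μ : MvPolynomial σ kk → ℕ) (f : MvPolynomial σ kk) (hf : f ∈ Submodule.span ℚ S) :
    ∃ n, ∀ o b, 0 ≤ b → (∀ g ∈ S, Nm o g ≤ Real.exp (ε o (μ g)) * b) →
      Nm o f ≤ Real.exp (ε o n) * b := by
  induction hf using Submodule.span_induction with
  | mem g hg => exact ⟨μ g, fun o b _ h => h g hg⟩
  | zero => exact ⟨0, fun o b hb _ => by rw [hzero]; positivity⟩
  | add f g _ _ h1 h2 =>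
    obtain ⟨n1, h1⟩ := h1
    obtain ⟨n2, h2⟩ := h2
    obtain ⟨n, hn⟩ := hεa m₀ (max n1 n2)
    refine ⟨n, fun o b hb h => (hadd o f g).trans ?_⟩
    have h3 : max (Nm o f) (Nm o g) ≤ Real.exp (ε o (max n1 n2)) * b := max_le
      ((h1 o b hb h).trans (mul_le_mul_of_nonneg_right
        (Real.exp_le_exp.2 (hεm o (le_max_left _ _))) hb))
      ((h2 o b hb h).trans (mul_le_mul_of_nonneg_right
        (Real.exp_le_exp.2 (hεm o (le_max_right _ _))) hb))
    refine (mul_le_mul_of_nonneg_left h3 (Real.exp_pos _).le).trans ?_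
    rw [← mul_assoc, ← Real.exp_add]
    exact mul_le_mul_of_nonneg_right (Real.exp_le_exp.2 (hn o)) hb
  | smul q f _ h1 =>
    obtain ⟨n1, h1⟩ := h1
    obtain ⟨n2, h2⟩ := hC (q : kk)
    obtain ⟨n, hn⟩ := hεa n2 n1
    refine ⟨n, fun o b hb h => ?_⟩
    rw [FD_smul, hmul]
    refine (mul_le_mul (h2 o) (h1 o b hb h) (hN0 o f) (Real.exp_pos _).le).trans ?_
    rw [← mul_assoc, ← Real.exp_add]
    exact mul_le_mul_of_nonneg_right (Real.exp_le_exp.2 (hn o)) hb

/-- from the inequality for each element of the span to an inequality for all of them at once -/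
theorem FD_unif {σ 𝕀 L : Type} [Fintype L] (𝓕 : Filter 𝕀) {Nm : 𝕀 → MvPolynomial σ kk → ℝ}
    {ε : 𝕀 → ℕ → ℝ} (hεm : ∀ o, Monotone (ε o)) (hεa : ∀ a b, ∃ c, ∀ o, ε o a + ε o b ≤ ε o c)
    (hN0 : ∀ o f, 0 ≤ Nm o f) (hzero : ∀ o, Nm o 0 = 0)
    (hmul : ∀ o f g, Nm o (f * g) = Nm o f * Nm o g) {m₀ : ℕ}
    (hadd : ∀ o f g, Nm o (f + g) ≤ Real.exp (ε o m₀) * max (Nm o f) (Nm o g))
    (hC : ∀ a : kk, ∃ m, ∀ o, Nm o (C a) ≤ Real.exp (ε o m))
    (V : Submodule ℚ (MvPolynomial σ kk)) [Module.Finite ℚ V] (x : L → σ → Polynomial kk)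
    (c : L → 𝕀 → ℝ) (hc : ∀ l N, 0 ≤ c l N)
    (h : ∀ f ∈ V, ∃ n, ∀ᶠ N in 𝓕, Nm N f ≠ 0 → (∀ l, aeval (x l) f ≠ 0) ∧
      ∑ l, c l N * (aeval (x l) f).natTrailingDegree ≤ -Real.log (Nm N f) + ε N n) :
    ∃ μ : MvPolynomial σ kk → ℕ, ∀ᶠ N in 𝓕, ∀ f ∈ V, Nm N f ≠ 0 → (∀ l, aeval (x l) f ≠ 0) ∧
      ∑ l, c l N * (aeval (x l) f).natTrailingDegree ≤ -Real.log (Nm N f) + ε N (μ f) := by
  classical
  choose! n hn using h
  have hS : ∀ π : L → ℕ∞, ∃ S : Finset (MvPolynomial σ kk),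
      Submodule.span ℚ (S : Set (MvPolynomial σ kk)) = FD_E x V π := fun π =>
    (Submodule.fg_iff_finiteDimensional _).2
      (Submodule.finiteDimensional_of_le (S₂ := V) fun f hf => hf.1)
  choose S hS using hS
  have h1 := fun π => FD_span hεm hεa hN0 hzero hmul hadd hC (S π : Set (MvPolynomial σ kk)) n
  choose! μ hμ using h1
  refine ⟨fun f => μ (fun l => (aeval (x l) f).trailingDegree) f, ?_⟩
  have h2 : ∀ᶠ N in 𝓕, ∀ π ∈ {π : L → ℕ∞ | ∀ l, π l ∈
      (fun f => (aeval (x l) f).trailingDegree) '' (V : Set (MvPolynomial σ kk))}, ∀ g ∈ S π,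
      Nm N g ≠ 0 → (∀ l, aeval (x l) g ≠ 0) ∧
        ∑ l, c l N * (aeval (x l) g).natTrailingDegree ≤ -Real.log (Nm N g) + ε N (n g) := by
    refine (Filter.eventually_all_finite (Set.Finite.pi' fun l => FD_fin (x l) V)).2 fun π _ => ?_
    refine (Filter.eventually_all_finset _).2 fun g hg => hn g ?_
    exact ((hS π).le (Submodule.subset_span hg)).1
  filter_upwards [h2] with N hN f hf hf0
  have hN := hN (fun l => (aeval (x l) f).trailingDegree) fun l => ⟨f, hf, rfl⟩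
  have hE : ∀ g ∈ S fun l => (aeval (x l) f).trailingDegree, ∀ l,
      (aeval (x l) f).trailingDegree ≤ (aeval (x l) g).trailingDegree := fun g hg =>
    ((hS _).le (Submodule.subset_span hg)).2
  have hμ := hμ (fun l => (aeval (x l) f).trailingDegree) f ((hS _).ge ⟨hf, fun l => le_rfl⟩) N
  have hpos := lt_of_le_of_ne (hN0 N f) hf0.symm
  have h3 : ∀ l, aeval (x l) f ≠ 0 := fun l hl => by
    refine absurd (hμ 0 le_rfl fun g hg => ?_) (by rw [mul_zero]; exact not_le.2 hpos)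
    rw [mul_zero]
    refine le_of_eq (by_contra fun h0 => (hN g hg h0).1 l ?_)
    have h4 := hE g hg l
    rwa [hl, Polynomial.trailingDegree_zero, top_le_iff, Polynomial.trailingDegree_eq_top] at h4
  refine ⟨h3, ?_⟩
  have h4 := hμ (Real.exp (-∑ l, c l N * (aeval (x l) f).natTrailingDegree)) (Real.exp_pos _).le
    fun g hg => by
      by_cases h0 : Nm N g = 0
      · rw [h0]
        positivity
      obtain ⟨h5, h6⟩ := hN g hg h0
      rw [← Real.exp_add, ← Real.log_le_iff_le_exp (lt_of_le_of_ne (hN0 N g) (Ne.symm h0))]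
      have h7 : ∑ l, c l N * (aeval (x l) f).natTrailingDegree ≤
          ∑ l, c l N * (aeval (x l) g).natTrailingDegree := Finset.sum_le_sum fun l _ =>
        mul_le_mul_of_nonneg_left (Nat.cast_le.2
          (Polynomial.natTrailingDegree_le_natTrailingDegree (h5 l) (hE g hg l))) (hc l N)
      linarith
  rw [← Real.exp_add, ← Real.log_le_iff_le_exp hpos] at h4
  linarith

theorem FD_main {σ 𝕀 : Type} [Fintype σ] (𝒰 : Ultrafilter 𝕀) (Nm : 𝕀 → MvPolynomial σ kk → ℝ)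
    (ε : 𝕀 → ℕ → ℝ) (hε0 : ∀ o j, 0 ≤ ε o j) (hεm : ∀ o, Monotone (ε o))
    (hεa : ∀ a b, ∃ c, ∀ o, ε o a + ε o b ≤ ε o c)
    (hN0 : ∀ o f, 0 ≤ Nm o f) (hzero : ∀ o, Nm o 0 = 0) (hone : ∀ o, Nm o 1 = 1)
    (hmul : ∀ o f g, Nm o (f * g) = Nm o f * Nm o g) (m₀ : ℕ)
    (hadd : ∀ o f g, Nm o (f + g) ≤ Real.exp (ε o m₀) * max (Nm o f) (Nm o g))
    (hC : ∀ a : kk, ∃ m, ∀ o, Nm o (C a) ≤ Real.exp (ε o m))
    (hX : ∀ o s, Nm o (X s) ≤ Real.exp (ε o m₀))
    (T U : Finset (MvPolynomial σ kk)) (Ps : Finset (MvPolynomial σ kk × MvPolynomial σ kk))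
    (hP : ∀ o, ∀ P ∈ Ps, Nm o P.1 ≠ 0 ∧ Nm o P.2 ≤ Real.exp (ε o m₀) * Nm o P.1) :
    ∃ (m : ℕ) (x : Fin m → σ → Polynomial kk) (c : Fin m → 𝕀 → ℝ) (μ : MvPolynomial σ kk → ℕ),
      (∀ l, ∀ P ∈ Ps, aeval (x l) P.1 ≠ 0 ∧
        Polynomial.X ^ (aeval (x l) P.1).natTrailingDegree ∣ aeval (x l) P.2) ∧
      (∀ l N, 0 ≤ c l N) ∧ ∀ᶠ N in (𝒰 : Filter 𝕀),
        (∀ f ∈ Submodule.span ℚ (U : Set (MvPolynomial σ kk)), Nm N f ≠ 0 →
          (∀ l, aeval (x l) f ≠ 0) ∧
          ∑ l, c l N * (aeval (x l) f).natTrailingDegree ≤ -Real.log (Nm N f) + ε N (μ f)) ∧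
        ∀ f ∈ T, Nm N f ≠ 0 →
          |∑ l, c l N * (aeval (x l) f).natTrailingDegree + Real.log (Nm N f)| ≤ ε N (μ f) := by
  classical
  obtain ⟨Γ, _, _, _, _, _, mk, hsurj, hmk⟩ := exists_ultra_group 𝒰 ε hε0 hεa
  obtain ⟨ν, hν⟩ := ultra_val 𝒰 ε hε0 mk hmk Nm hN0 hzero hone hmul m₀ hadd
  have hle : ∀ (f g : MvPolynomial σ kk) (m : ℕ),
      (∀ N, Nm N f ≤ Real.exp (ε N m) * Nm N g) → ν g ≤ ν f := fun f g m h =>
    FD_le hmk (fun N => hN0 N f) (hν f) (hν g) m (Filter.Eventually.of_forall h)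
  have h1 : ∀ (f : MvPolynomial σ kk) (m : ℕ), (∀ N, Nm N f ≤ Real.exp (ε N m)) → 0 ≤ ν f :=
    fun f m h => ν.map_one.ge.trans (hle f 1 m fun N => by rw [hone, mul_one]; exact h N)
  have h2 : ∀ a : kk, 0 ≤ ν (C a) := fun a => (hC a).elim (h1 _)
  obtain ⟨m, x, c, hc, kU, kT, kP⟩ := key ν (fun a ha => le_antisymm (by
      have h3 : ν (C a) + ν (C a⁻¹) = 0 := by
        rw [← ν.map_mul, ← C_mul, mul_inv_cancel₀ ha, C_1, ν.map_one]
      exact (le_add_of_nonneg_right (h2 a⁻¹)).trans h3.le) (h2 a))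
    (fun s => h1 _ m₀ fun N => hX N s) (T ∪ (Ps.image Prod.fst ∪ Ps.image Prod.snd)) U
  have h3 : ∀ l, ∃ d : 𝕀 → ℝ, (∀ N, 0 ≤ d N) ∧ mk d = c l := fun l => by
    obtain ⟨d, hd⟩ := hsurj (c l)
    obtain ⟨j, hj⟩ := (hmk 0 d).1 (by rw [map_zero, hd]; exact hc l)
    refine ⟨fun N => max (d N) 0, fun N => le_max_right _ _, hd ▸ le_antisymm ((hmk _ _).2
      ⟨j, hj.mono fun N e => max_le (le_add_of_nonneg_right (hε0 _ _)) e⟩) ((hmk _ _).2
      ⟨0, Filter.Eventually.of_forall fun N => (le_max_left _ _).trans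
        (le_add_of_nonneg_right (hε0 _ _))⟩)⟩
  choose d hd0 hd using h3
  have h4 : ∀ n : Fin m → ℕ, ∑ l, n l • c l = mk fun N => ∑ l, d l N * n l := fun n => by
    rw [show (fun N => ∑ l, d l N * n l) = ∑ l, n l • d l from funext fun N => by
      rw [Finset.sum_apply]
      exact Finset.sum_congr rfl fun l _ => by rw [Pi.smul_apply, nsmul_eq_mul, mul_comm], map_sum]
    simp only [map_nsmul, hd]
  obtain ⟨μ₁, hμ₁⟩ := FD_unif (𝒰 : Filter 𝕀) hεm hεa hN0 hzero hmul hadd hC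
    (Submodule.span ℚ (U : Set (MvPolynomial σ kk))) x d hd0 fun f hf => by
      rcases hν f with ⟨a1, -⟩ | ⟨-, a2⟩
      · exact ⟨0, a1.mono fun N e e' => absurd e e'⟩
      · obtain ⟨b1, b2⟩ := kU f hf (by rw [a2]; exact WithTop.coe_ne_top)
        rw [a2, h4, WithTop.coe_le_coe, hmk] at b2
        exact b2.imp fun j hj => hj.mono fun N e _ => ⟨b1, e⟩
  have h5 : ∀ f ∈ T, ∃ j, ∀ᶠ N in (𝒰 : Filter 𝕀), Nm N f ≠ 0 →
      |∑ l, d l N * (aeval (x l) f).natTrailingDegree + Real.log (Nm N f)| ≤ ε N j := by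
    intro f hf
    rcases hν f with ⟨a1, -⟩ | ⟨-, a2⟩
    · exact ⟨0, a1.mono fun N e e' => absurd e e'⟩
    · obtain ⟨-, b2⟩ := kT f (Finset.mem_union_left _ hf) (by rw [a2]; exact WithTop.coe_ne_top)
      rw [a2, h4, WithTop.coe_eq_coe] at b2
      obtain ⟨i, hi⟩ := (hmk _ _).1 b2.le
      obtain ⟨j, hj⟩ := (hmk _ _).1 b2.ge
      refine ⟨max i j, ?_⟩
      filter_upwards [hi, hj] with N e1 e2 _
      have e3 := hεm N (le_max_left i j)
      have e4 := hεm N (le_max_right i j)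
      rw [abs_le]
      constructor <;> linarith
  choose! μ₂ hμ₂ using h5
  refine ⟨m, x, d, fun f => max (μ₁ f) (μ₂ f), fun l P hP' => ?_, hd0, ?_⟩
  · have a1 : P.1 ∈ T ∪ (Ps.image Prod.fst ∪ Ps.image Prod.snd) :=
      Finset.mem_union_right _ (Finset.mem_union_left _ (Finset.mem_image_of_mem _ hP'))
    have a2 : P.2 ∈ T ∪ (Ps.image Prod.fst ∪ Ps.image Prod.snd) :=
      Finset.mem_union_right _ (Finset.mem_union_right _ (Finset.mem_image_of_mem _ hP'))
    have a3 : ν P.1 ≠ ⊤ := by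
      rcases hν P.1 with ⟨b1, -⟩ | ⟨-, b2⟩
      · obtain ⟨N, hN⟩ := b1.exists
        exact absurd hN (hP N P hP').1
      · rw [b2]
        exact WithTop.coe_ne_top
    exact ⟨(kT _ a1 a3).1 l, kP _ a1 _ a2 a3 (hle _ _ m₀ fun N => (hP N P hP').2) l⟩
  · filter_upwards [hμ₁, (Filter.eventually_all_finset T).2 hμ₂] with N e1 e2
    refine ⟨fun f hf h0 => ⟨(e1 f hf h0).1, (e1 f hf h0).2.trans ?_⟩, fun f hf h0 =>
      (e2 f hf h0).trans (hεm N (le_max_right _ _))⟩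
    exact add_le_add le_rfl (hεm N (le_max_left _ _))

theorem finite_domination {σ Ω : Type} [Fintype σ] (Nm : Ω → MvPolynomial σ kk → ℝ)
    (ε : Ω → ℕ → ℝ) (hε0 : ∀ o j, 0 ≤ ε o j) (hεm : ∀ o, Monotone (ε o))
    (hεa : ∀ a b, ∃ c, ∀ o, ε o a + ε o b ≤ ε o c)
    (hN0 : ∀ o f, 0 ≤ Nm o f) (hzero : ∀ o, Nm o 0 = 0) (hone : ∀ o, Nm o 1 = 1)
    (hmul : ∀ o f g, Nm o (f * g) = Nm o f * Nm o g) (m₀ : ℕ)
    (hadd : ∀ o f g, Nm o (f + g) ≤ Real.exp (ε o m₀) * max (Nm o f) (Nm o g))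
    (hC : ∀ a : kk, ∃ m, ∀ o, Nm o (C a) ≤ Real.exp (ε o m))
    (hX : ∀ o s, Nm o (X s) ≤ Real.exp (ε o m₀))
    (T U : Finset (MvPolynomial σ kk)) (Ps : Finset (MvPolynomial σ kk × MvPolynomial σ kk))
    (hP : ∀ o, ∀ P ∈ Ps, Nm o P.1 ≠ 0 ∧ Nm o P.2 ≤ Real.exp (ε o m₀) * Nm o P.1) :
    ∃ (𝒯 : Finset (σ → Polynomial kk)) (m : MvPolynomial σ kk → ℕ),
      (∀ x ∈ 𝒯, ∀ P ∈ Ps, aeval x P.1 ≠ 0 ∧
        Polynomial.X ^ (aeval x P.1).natTrailingDegree ∣ aeval x P.2) ∧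
      ∀ o, ∃ c : (σ → Polynomial kk) → ℝ, (∀ x, 0 ≤ c x) ∧
        (∀ f ∈ Submodule.span ℚ (U : Set (MvPolynomial σ kk)), Nm o f ≠ 0 →
          (∀ x ∈ 𝒯, c x ≠ 0 → aeval x f ≠ 0) ∧
          ∑ x ∈ 𝒯, c x * (aeval x f).natTrailingDegree ≤ -Real.log (Nm o f) + ε o (m f)) ∧
        ∀ f ∈ T, Nm o f ≠ 0 →
          |∑ x ∈ 𝒯, c x * (aeval x f).natTrailingDegree + Real.log (Nm o f)| ≤ ε o (m f) := by
  classical
  by_contra hcon
  have hbad := fun N : Finset (σ → Polynomial kk) × (MvPolynomial σ kk → ℕ) =>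
    not_forall.1 fun h => hcon ⟨N.1.filter fun x => ∀ P ∈ Ps, aeval x P.1 ≠ 0 ∧
      Polynomial.X ^ (aeval x P.1).natTrailingDegree ∣ aeval x P.2, N.2,
      fun x hx => (Finset.mem_filter.1 hx).2, h⟩
  choose o ho using hbad
  obtain ⟨m, x, c, μ, hR, hc, hev⟩ := FD_main (Ultrafilter.of Filter.atTop) (fun N => Nm (o N))
    (fun N => ε (o N)) (fun N => hε0 _) (fun N => hεm _)
    (fun a b => (hεa a b).imp fun c h N => h _) (fun N => hN0 _) (fun N => hzero _)
    (fun N => hone _) (fun N => hmul _) m₀ (fun N => hadd _)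
    (fun a => (hC a).imp fun c h N => h _) (fun N => hX _) T U Ps fun N => hP _
  obtain ⟨N, ⟨h1, h2⟩, h3, h4⟩ := (hev.and (Ultrafilter.of_le Filter.atTop
    (Filter.eventually_ge_atTop (Finset.univ.image x, μ)))).exists
  have h5 : ∀ g : (σ → Polynomial kk) → ℝ, ∑ y ∈ N.1.filter (fun x => ∀ P ∈ Ps, aeval x P.1 ≠ 0 ∧
      Polynomial.X ^ (aeval x P.1).natTrailingDegree ∣ aeval x P.2),
      (∑ l with x l = y, c l N) * g y = ∑ l, c l N * g (x l) := fun g => by
    refine Eq.trans (Finset.sum_congr rfl fun y _ => ?_) (Finset.sum_fiberwise_of_maps_to (g := x)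
      (fun l _ => Finset.mem_filter.2 ⟨h3 (Finset.mem_image_of_mem x (Finset.mem_univ l)), hR l⟩)
      fun l => c l N * g (x l))
    rw [Finset.sum_mul]
    exact Finset.sum_congr rfl fun l hl => by rw [(Finset.mem_filter.1 hl).2]
  refine ho N ⟨fun y => ∑ l with x l = y, c l N, fun y => Finset.sum_nonneg fun l _ => hc l N,
    fun f hf h0 => ⟨fun y _ hy => ?_, ?_⟩, fun f hf h0 => ?_⟩
  · obtain ⟨l, hl, -⟩ := Finset.exists_ne_zero_of_sum_ne_zero hy
    rw [← (Finset.mem_filter.1 hl).2]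
    exact (h1 f hf h0).1 l
  · rw [h5 fun y => (aeval y f).natTrailingDegree]
    exact (h1 f hf h0).2.trans (add_le_add le_rfl (hεm _ (h4 f)))
  · rw [h5 fun y => (aeval y f).natTrailingDegree]
    exact (h2 f hf h0).trans (hεm _ (h4 f))

end Pool.Agent.Work.MP_913e71_al.Pos
end
end

-- merged part: Pool.Agent.Work.MP_913e71_al.Pos.InvBch
section
/-! Inverse formula: sums and brackets of logarithms, up to a uniform multiple.

PLAN.  `F = TS cm x`, `q` from `exists_bch`, `x * y := bch cm q x y`; a `LogGrp` is closed under `*`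
(`exp_inj`).
`tree_log`: induction on `w` with `comm_cong` (the group commutator of `γ₁`, `γ₂` has its logarithm in
`X`), `cm γ₁ γ₂ - cm (ev w₁) (ev w₂) ∈ F (k₁ + k₂ + 1)`.
`span_log`: span induction; sums by `γ * γ'` and `Filt.bch_sub` after passing to a common multiple
(`LogGrp.zsmul_mem`), scalars by numerator and denominator; words of length `> k` by `γ = 0`.
`inv_bch_fg`: descending induction on `k` from `c + 1` (`TS_eq_bot`) to `1` of: for all finite `T ⊆ F k`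
there is `K`.  Step: common `M` and `γ a ∈ X` for `a ∈ T` with `γ a - M • a ∈ F (k + 1)`.  Let `𝓜` be the
closure of the range of `ev cm` on the finite family of the `a` and `γ a` (finitely generated:
`finite_range_ev`, closed: `closure_ev_closed`).  `𝓜 ⊓ F (k + 1)` is finitely generated (`ℤ` is
noetherian), so there is `K₂` with `K₂ • (𝓜 ⊓ F (k + 1)) ⊆ X`.  With `K₁` from `exists_bch_den` applied
to the Lie ring `K₂ • 𝓜`, the set `E = (K₁ * K₂) • 𝓜` is closed under `*` and negation.  Closure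
induction: each `a ∈ closure T` has `γ ∈ X ∩ E` with `γ - (K₁ * K₂ * M) • a ∈ F (k + 1)`.  Then
`δ = (-γ) * ((K₁ * K₂ * M) • a) ∈ E ∩ F (k + 1)`, so `δ = (K₁ * K₂) • μ` with `μ ∈ 𝓜 ⊓ F (k + 1)`, `δ ∈ X`,
and `exp ((K₁ * K₂ * M) • a) = exp γ * exp δ`.
`inv_bch`: product algebra over `ι = {p : Set A × A × A // LogGrp N p.1 ∧ p.2.1 ∈ p.1 ∧ p.2.2 ∈ p.1}`,
`X` = the product of the sets `p.1`, `α = Bool`, `T = {x + y, cm x y}`. -/

namespace Pool.Agent.Work.MP_913e71_al.Pos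

open IsNilpotent

variable {A : Type} [Ring A] [Algebra ℚ A] {N : Submodule ℚ A} {c : ℕ}

theorem InvBch_mul (h : NilAlg N c) {X : Set A} (hX : LogGrp N X) {x y z : A} (hx : x ∈ X)
    (hy : y ∈ X) (hz : z ∈ N) (e : exp x * exp y = exp z) : z ∈ X := by
  obtain ⟨w, hw, e'⟩ := hX.mul x hx y hy
  exact h.exp_inj (hX.sub w hw) hz (e'.trans e) ▸ hw

theorem InvBch_nsmul (h : NilAlg N c) {X : Set A} (hX : LogGrp N X) {x : A} (hx : x ∈ X) (k : ℕ) :
    k • x ∈ X :=
  natCast_zsmul x k ▸ hX.zsmul_mem h hx k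

omit [Algebra ℚ A] in
theorem InvBch_fg {S S' : AddSubgroup A} (h : S.FG) (h' : S' ≤ S) : S'.FG :=
  (Submodule.fg_iff_addSubgroup_fg S'.toIntSubmodule).1
    (((Submodule.fg_iff_addSubgroup_fg S.toIntSubmodule).2 h).of_le h')

theorem tree_log {α : Type} (h : NilAlg N c) {X : Set A} (hX : LogGrp N X) {x : α → A}
    (hx : ∀ a, x a ∈ X) (w : FreeMagma α) :
    ∃ γ ∈ X, γ - ev cm x w ∈ TS cm x (w.length + 1) := by
  have hF := filt_TS bil_cm x
  induction w using FreeMagma.recOnMul with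
  | ih1 a => exact ⟨x a, hx a, by simp⟩
  | ih2 u v iu iv =>
    obtain ⟨γ, g1, g2⟩ := iu
    obtain ⟨δ, d1, d2⟩ := iv
    have eu := ev_mem_TS (b := cm) x u le_rfl
    have g3 := add_mem (hF.anti (Nat.le_succ _) g2) eu
    have d3 := add_mem (hF.anti (Nat.le_succ _) d2) (ev_mem_TS (b := cm) x v le_rfl)
    rw [sub_add_cancel] at g3 d3
    obtain ⟨z₁, a1, b1⟩ := hX.mul γ g1 δ d1
    obtain ⟨z₂, a2, b2⟩ := hX.mul z₁ a1 _ (hX.neg γ g1)
    obtain ⟨z, a3, b3⟩ := hX.mul z₂ a2 _ (hX.neg δ d1)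
    have m1 := comm_cong h hF (h.TS_le (fun a => hX.sub _ (hx a)) 1) u.length_pos v.length_pos g3 d3
      (hX.sub z a3) (by rw [b3, b2, b1])
    have m2 := hF.br_mem _ _ _ g2 _ d3
    have m3 := hF.br_mem _ _ _ eu _ d2
    rw [bil_cm.sub_left, add_right_comm] at m2
    rw [bil_cm.sub_right] at m3
    have := add_mem (add_mem m1 m2) m3
    rw [sub_add_sub_cancel, sub_add_sub_cancel] at this
    exact ⟨z, a3, this⟩

theorem span_log {α : Type} (h : NilAlg N c) {X : Set A} (hX : LogGrp N X) {x : α → A}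
    (hx : ∀ a, x a ∈ X) {k : ℕ} (hk : 1 ≤ k) {v : A} (hv : v ∈ TS cm x k) :
    ∃ M : ℕ, 0 < M ∧ ∃ γ ∈ X, γ - M • v ∈ TS cm x (k + 1) := by
  have hF := filt_TS bil_cm x
  obtain ⟨q, hq, e⟩ := exists_bch h
  induction hv using Submodule.span_induction with
  | mem v hv =>
    obtain ⟨w, hw, rfl⟩ := hv
    obtain ⟨γ, g1, g2⟩ := tree_log h hX hx w
    exact ⟨1, one_pos, γ, g1, by rw [one_smul]; exact hF.anti (Nat.succ_le_succ hw) g2⟩
  | zero => exact ⟨1, one_pos, 0, hX.zero, by simp⟩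
  | add u v hu hv iu iv =>
    obtain ⟨M, M0, γ, g1, g2⟩ := iu
    obtain ⟨M', M1, δ, d1, d2⟩ := iv
    have g3 := add_mem (hF.anti (Nat.le_succ _) g2) (nsmul_mem hu M)
    have d3 := add_mem (hF.anti (Nat.le_succ _) d2) (nsmul_mem hv M')
    rw [sub_add_cancel] at g3 d3
    have g4 := InvBch_nsmul h hX g1 M'
    have d4 := InvBch_nsmul h hX d1 M
    have := add_mem (add_mem (hF.bch_sub hq hk (nsmul_mem g3 M') (nsmul_mem d3 M)) (nsmul_mem g2 M'))
      (nsmul_mem d2 M)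
    refine ⟨M * M', mul_pos M0 M1, _, InvBch_mul h hX g4 d4
      (h.bch_mem q (hX.sub _ g4) (hX.sub _ d4)) (e _ (hX.sub _ g4) _ (hX.sub _ d4)), ?_⟩
    exact (congrArg (· ∈ TS cm x (k + 1)) (by module)).mp this
  | smul a v _ iv =>
    obtain ⟨M, M0, γ, g1, g2⟩ := iv
    refine ⟨M * a.den, mul_pos M0 a.den_pos, _, hX.zsmul_mem h g1 a.num, ?_⟩
    rw [mul_smul, ← Nat.cast_smul_eq_nsmul ℚ a.den, smul_smul (a.den : ℚ), Rat.den_mul_eq_num,
      Int.cast_smul_eq_zsmul, smul_comm M, ← smul_sub]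
    exact zsmul_mem g2 _

theorem inv_bch_fg {α : Type} (h : NilAlg N c) {X : Set A} (hX : LogGrp N X) {x : α → A}
    (hx : ∀ a, x a ∈ X) (T : Finset A) (hT : ∀ v ∈ T, v ∈ TS cm x 1) :
    ∃ K : ℕ, 0 < K ∧ ∀ v ∈ AddSubgroup.closure (T : Set A), K • v ∈ X := by
  classical
  have hF := filt_TS bil_cm x
  have hN := h.TS_le fun a => hX.sub _ (hx a)
  obtain ⟨q, hq, e⟩ := exists_bch h
  obtain ⟨K₁, k1, hK⟩ := exists_bch_den q hq
  suffices H : ∀ d k, 1 ≤ k → k + d = c + 1 → ∀ T : Finset A, (∀ v ∈ T, v ∈ TS cm x k) →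
      ∃ K : ℕ, 0 < K ∧ ∀ v ∈ AddSubgroup.closure (T : Set A), K • v ∈ X from
    H c 1 le_rfl (add_comm _ _) T hT
  intro d
  induction d with
  | zero =>
    rintro k - rfl T hT
    refine ⟨1, one_pos, fun v hv => ?_⟩
    have : v ∈ TS cm x (c + 1) :=
      (AddSubgroup.closure_le (TS cm x (c + 1)).toAddSubgroup).2 hT hv
    rw [TS_eq_bot (h.ev_eq_zero fun a => hX.sub _ (hx a)), Submodule.mem_bot] at this
    rw [this, smul_zero]
    exact hX.zero
  | succ d ih =>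
    intro k hk hd T hT
    choose m m0 g g1 g2 using fun a : T => span_log h hX hx hk (hT a a.2)
    choose m' hm using fun a : T => Finset.dvd_prod_of_mem m (Finset.mem_univ a)
    have M0 : 0 < ∏ a, m a := Finset.prod_pos fun a _ => m0 a
    generalize ∏ a, m a = M at hm M0
    have g3 := fun a => InvBch_nsmul h hX (g1 a) (m' a)
    have g4 : ∀ a : T, m' a • g a - M • a.1 ∈ TS cm x (k + 1) := fun a => by
      rw [hm a, mul_nsmul, ← smul_sub]
      exact nsmul_mem (g2 a) _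
    let y : T ⊕ T → A := Sum.elim Subtype.val fun a => m' a • g a
    have hy : ∀ i, y i ∈ N := by
      rintro (a | a)
      exacts [hN k (hT a a.2), hX.sub _ (g3 a)]
    have cl := closure_ev_closed bil_cm y
    have my : ∀ i, y i ∈ AddSubgroup.closure (Set.range (ev cm y)) := fun i =>
      AddSubgroup.subset_closure ⟨.of i, rfl⟩
    have fg := (AddSubgroup.fg_iff _).2 ⟨_, rfl, finite_range_ev (h.ev_eq_zero hy)⟩
    generalize AddSubgroup.closure (Set.range (ev cm y)) = S at cl my fg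
    obtain ⟨T', hT'⟩ := InvBch_fg fg (inf_le_left (b := (TS cm x (k + 1)).toAddSubgroup))
    obtain ⟨K₂, k2, h2⟩ := ih (k + 1) (by omega) (by omega) T' fun v hv =>
      (hT'.le (AddSubgroup.subset_closure hv)).2
    have hE : ∀ u ∈ S, ∀ v ∈ S, ∃ z ∈ S, bch cm q (K₁ • K₂ • u) (K₁ • K₂ • v) = K₁ • K₂ • z := by
      intro u hu v hv
      obtain ⟨_, ⟨z, hz, rfl⟩, ez⟩ := hK A cm bil_cm (S.map (nsmulAddMonoidHom K₂)) (by
        rintro _ ⟨u, hu, rfl⟩ _ ⟨v, hv, rfl⟩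
        exact ⟨K₂ • cm u v, nsmul_mem (cl u hu v hv) _,
          ((bil_cm.nsmul_left _ _ _).trans (congrArg _ (bil_cm.nsmul_right _ _ _))).symm⟩)
        _ ⟨u, hu, rfl⟩ _ ⟨v, hv, rfl⟩
      exact ⟨z, hz, ez⟩
    have up : ∀ {a μ : A}, a ∈ TS cm x k → μ - K₁ • K₂ • M • a ∈ TS cm x (k + 1) → μ ∈ TS cm x k :=
      fun ha hμ => by
        simpa only [sub_add_cancel] using
          add_mem (hF.anti (Nat.le_succ _) hμ) (nsmul_mem (nsmul_mem (nsmul_mem ha M) K₂) K₁)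
    have key : ∀ a ∈ AddSubgroup.closure (T : Set A), a ∈ S ∧ a ∈ TS cm x k ∧ ∃ μ ∈ S,
        K₁ • K₂ • μ ∈ X ∧ K₁ • K₂ • μ - K₁ • K₂ • M • a ∈ TS cm x (k + 1) := fun a ha => by
      induction ha using AddSubgroup.closure_induction with
      | mem a ha =>
        refine ⟨my (.inl ⟨a, ha⟩), hT a ha, _, my (.inr ⟨a, ha⟩),
          InvBch_nsmul h hX (InvBch_nsmul h hX (g3 _) _) _, ?_⟩
        rw [← smul_sub, ← smul_sub]
        exact nsmul_mem (nsmul_mem (g4 ⟨a, ha⟩) _) _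
      | zero => exact ⟨zero_mem _, zero_mem _, 0, zero_mem _, by simpa using hX.zero, by simp⟩
      | add a b _ _ ia ib =>
        obtain ⟨a1, a2, μ, a3, a4, a5⟩ := ia
        obtain ⟨b1, b2, ν, b3, b4, b5⟩ := ib
        obtain ⟨z, z1, z2⟩ := hE μ a3 ν b3
        have := add_mem (add_mem (hF.bch_sub hq hk (up a2 a5) (up b2 b5)) a5) b5
        rw [z2] at this
        exact ⟨add_mem a1 b1, add_mem a2 b2, z, z1, z2 ▸ InvBch_mul h hX a4 b4
          (h.bch_mem q (hX.sub _ a4) (hX.sub _ b4)) (e _ (hX.sub _ a4) _ (hX.sub _ b4)),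
          (congrArg (· ∈ TS cm x (k + 1)) (by module)).mp this⟩
      | neg a _ ia =>
        obtain ⟨a1, a2, μ, a3, a4, a5⟩ := ia
        exact ⟨neg_mem a1, neg_mem a2, -μ, neg_mem a3, by simpa only [smul_neg] using hX.neg _ a4,
          (congrArg (· ∈ TS cm x (k + 1)) (by module)).mp (neg_mem a5)⟩
    refine ⟨K₁ * K₂ * M, by positivity, fun a ha => ?_⟩
    obtain ⟨a1, a2, μ, a3, a4, a5⟩ := key a ha
    obtain ⟨z, z1, z2⟩ := hE _ (neg_mem a3) _ (nsmul_mem a1 M)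
    have n1 := up a2 a5
    have n2 := nsmul_mem (nsmul_mem (nsmul_mem a2 M) K₂) K₁
    rw [smul_neg, smul_neg] at z2
    have n3 := sub_mem (hF.bch_sub hq hk (neg_mem n1) n2) a5
    rw [z2] at n3
    have n4 : z ∈ TS cm x (k + 1) := by
      refine (congrArg (· ∈ TS cm x (k + 1)) ?_).mp (Submodule.smul_mem _ ((K₁ : ℚ) * K₂)⁻¹ n3)
      rw [inv_smul_eq_iff₀ (by positivity)]
      module
    rw [mul_smul, mul_smul]
    refine InvBch_mul h hX a4 (InvBch_nsmul h hX (h2 z (hT'.ge ⟨z1, n4⟩)) K₁) (hN k n2) ?_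
    rw [← z2, ← e _ (hN k (neg_mem n1)) _ (hN k n2), ← mul_assoc,
      exp_mul_exp_neg_self (h.isNilpotent (hN k n1)), one_mul]

theorem inv_bch (h : NilAlg N c) : ∃ K : ℕ, 0 < K ∧ ∀ X : Set A, LogGrp N X →
    ∀ x ∈ X, ∀ y ∈ X, K • (x + y) ∈ X ∧ K • cm x y ∈ X := by
  classical
  let ι := {p : Set A × A × A // LogGrp N p.1 ∧ p.2.1 ∈ p.1 ∧ p.2.2 ∈ p.1}
  have hX : LogGrp (Submodule.pi Set.univ fun _ : ι => N) (Set.univ.pi fun p : ι => p.1.1) :=
    ⟨fun x hx i hi => i.2.1.sub _ (hx i hi), fun i _ => i.2.1.zero,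
      fun x hx i hi => i.2.1.neg _ (hx i hi), fun x hx y hy => by
        choose z h1 h2 using fun i : ι => i.2.1.mul _ (hx i trivial) _ (hy i trivial)
        refine ⟨z, fun i _ => h1 i, funext fun i => ?_⟩
        rw [Pi.mul_apply, h.exp_apply fun i => i.2.1.sub _ (h1 i),
          h.exp_apply fun i => i.2.1.sub _ (hx i trivial),
          h.exp_apply fun i => i.2.1.sub _ (hy i trivial), h2]⟩
  let x : Bool → ι → A := fun t => cond t (fun p => p.1.2.1) fun p => p.1.2.2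
  obtain ⟨K, K0, hK⟩ := inv_bch_fg (h.pi ι) hX (x := x)
    (by rintro (_ | _) i -; exacts [i.2.2.2, i.2.2.1]) {x true + x false, cm (x true) (x false)} (by
      simp only [Finset.mem_insert, Finset.mem_singleton, forall_eq_or_imp, forall_eq]
      exact ⟨add_mem (ev_mem_TS x (.of true) le_rfl) (ev_mem_TS x (.of false) le_rfl),
        ev_mem_TS x (.of true * .of false) one_le_two⟩)
  exact ⟨K, K0, fun X h1 a h2 b h3 =>
    ⟨hK (x true + x false) (AddSubgroup.subset_closure (by simp)) ⟨(X, a, b), h1, h2, h3⟩ trivial,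
      hK (cm (x true) (x false)) (AddSubgroup.subset_closure (by simp)) ⟨(X, a, b), h1, h2, h3⟩
        trivial⟩⟩

end Pool.Agent.Work.MP_913e71_al.Pos
end

-- merged part: Pool.Agent.Work.MP_913e71_al.Pos.MalEx
section
-- merged part: Pool.Agent.Work.MP_913e71_al.Pos.Box
section
/-! Balls are contained in boxes.

PLAN.  `ev_box`: induction on the word, `|br s u v l| ≤ ∑ i j, |s i j l| * |u i| * |v j|` and
`ρ ^ (d i + d j) ≤ ρ ^ d l` when `s i j l ≠ 0`.  `ev_box_step`: prove together: every word is bounded by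
`K * ρ ^ d l`, and a word which contains the letter `false` by `K * ρ ^ (d l - 1)`; a word of length
`≥ 2` without the letter `false` is zero (`ev_pure`).  `box_step`:
`ρ ^ e + K * ρ ^ (e - 1) ≤ (ρ + K) ^ e` for `e ≥ 1`.  `ball_box`: induction on words (`exists_word`,
`List.reverseRecOn`): `lg l.prod` is in the box of radius `1 + K * length l`; `lg a⁻¹ = - lg a`. -/

namespace Pool.Agent.Work.MP_913e71_al.Pos

variable {n : ℕ} {d : Fin n → ℕ} {s : Fin n → Fin n → Fin n → ℤ}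

theorem InBox.mono {r r' : ℝ} (hr : 0 ≤ r) (h : r ≤ r') {v : Fin n → ℝ} (hv : InBox d r v) :
    InBox d r' v := by
  exact fun i => (hv i).trans (pow_le_pow_left₀ hr h _)

theorem InBox.neg {r : ℝ} {v : Fin n → ℝ} (hv : InBox d r v) : InBox d r (-v) := by
  intro i
  rw [Pi.neg_apply, abs_neg]
  exact hv i

theorem InBox.add (hd : ∀ i, 1 ≤ d i) {r r' : ℝ} (hr : 0 ≤ r) (hr' : 0 ≤ r') {v v' : Fin n → ℝ}
    (hv : InBox d r v) (hv' : InBox d r' v') : InBox d (r + r') (v + v') := by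
  intro i
  refine (abs_add_le _ _).trans ((add_le_add (hv i) (hv' i)).trans ?_)
  exact pow_add_pow_le hr hr' (Nat.one_le_iff_ne_zero.1 (hd i))

theorem InBox.nsmul (hd : ∀ i, 1 ≤ d i) {r : ℝ} (hr : 0 ≤ r) {v : Fin n → ℝ} (hv : InBox d r v)
    {K : ℕ} (hK : 0 < K) : InBox d (K * r) (K • v) := by
  intro i
  have h1 : (1 : ℝ) ≤ K := by exact_mod_cast hK
  rw [Pi.smul_apply, nsmul_eq_mul, abs_mul, Nat.abs_cast, mul_pow]
  exact mul_le_mul (le_self_pow₀ h1 (Nat.one_le_iff_ne_zero.1 (hd i))) (hv i) (abs_nonneg _)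
    (by positivity)

theorem InBox.of_nsmul {r : ℝ} {v : Fin n → ℝ} {K : ℕ} (hK : 0 < K) (hv : InBox d r (K • v)) :
    InBox d r v := by
  intro i
  have h1 : (1 : ℝ) ≤ K := by exact_mod_cast hK
  have h2 := hv i
  rw [Pi.smul_apply, nsmul_eq_mul, abs_mul, Nat.abs_cast] at h2
  exact (le_mul_of_one_le_left (abs_nonneg _) h1).trans h2

/-- The total size of the structure constants. -/
noncomputable def Box_sz (s : Fin n → Fin n → Fin n → ℤ) : ℝ :=
  ∑ l, ∑ i, ∑ j, |(s i j l : ℝ)|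

lemma Box_sz_nonneg (s : Fin n → Fin n → Fin n → ℤ) : 0 ≤ Box_sz s :=
  Finset.sum_nonneg fun _ _ => Finset.sum_nonneg fun _ _ => Finset.sum_nonneg fun _ _ =>
    abs_nonneg _

lemma Box_br {e f g : Fin n → ℕ} (h : ∀ i j l, s i j l ≠ 0 → e i + f j ≤ g l) {A C ρ : ℝ}
    (hA : 0 ≤ A) (hC : 0 ≤ C) (hρ : 1 ≤ ρ) {u v : Fin n → ℝ} (hu : ∀ i, |u i| ≤ A * ρ ^ e i)
    (hv : ∀ j, |v j| ≤ C * ρ ^ f j) (l : Fin n) :
    |br s u v l| ≤ A * C * Box_sz s * ρ ^ g l := by
  have h0 : 0 ≤ ρ := zero_le_one.trans hρ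
  have h1 : ∀ i j, |u i * v j * (s i j l : ℝ)| ≤ A * C * ρ ^ g l * |(s i j l : ℝ)| := by
    intro i j
    by_cases hs : s i j l = 0
    · simp [hs]
    rw [abs_mul, abs_mul]
    refine mul_le_mul_of_nonneg_right ?_ (abs_nonneg _)
    calc |u i| * |v j| ≤ (A * ρ ^ e i) * (C * ρ ^ f j) :=
          mul_le_mul (hu i) (hv j) (abs_nonneg _) (by positivity)
      _ = A * C * ρ ^ (e i + f j) := by ring
      _ ≤ A * C * ρ ^ g l :=
          mul_le_mul_of_nonneg_left (pow_le_pow_right₀ hρ (h i j l hs)) (by positivity)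
  have h2 : ∑ i, ∑ j, |(s i j l : ℝ)| ≤ Box_sz s :=
    Finset.single_le_sum (f := fun l => ∑ i, ∑ j, |(s i j l : ℝ)|)
      (fun _ _ => Finset.sum_nonneg fun _ _ => Finset.sum_nonneg fun _ _ => abs_nonneg _)
      (Finset.mem_univ l)
  calc |br s u v l| ≤ ∑ i, ∑ j, |u i * v j * (s i j l : ℝ)| :=
        (Finset.abs_sum_le_sum_abs _ _).trans
          (Finset.sum_le_sum fun i _ => Finset.abs_sum_le_sum_abs _ _)
    _ ≤ ∑ i, ∑ j, A * C * ρ ^ g l * |(s i j l : ℝ)| :=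
        Finset.sum_le_sum fun i _ => Finset.sum_le_sum fun j _ => h1 i j
    _ = A * C * ρ ^ g l * ∑ i, ∑ j, |(s i j l : ℝ)| := by
        simp only [Finset.mul_sum]
    _ ≤ A * C * ρ ^ g l * Box_sz s := mul_le_mul_of_nonneg_left h2 (by positivity)
    _ = _ := by ring

theorem ev_box {α : Type} (hgr : ∀ i j l, s i j l ≠ 0 → d i + d j ≤ d l) (w : FreeMagma α) :
    ∃ K : ℝ, 0 ≤ K ∧ ∀ ρ : ℝ, 1 ≤ ρ → ∀ x : α → Fin n → ℝ, (∀ a, InBox d ρ (x a)) →
      ∀ l, |ev (br s) x w l| ≤ K * ρ ^ d l := by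
  induction w using FreeMagma.recOnMul with
  | ih1 a => exact ⟨1, zero_le_one, fun ρ _ x hx l => by simpa using hx a l⟩
  | ih2 u v hu hv =>
    obtain ⟨A, hA, hu⟩ := hu
    obtain ⟨C, hC, hv⟩ := hv
    have := Box_sz_nonneg s
    exact ⟨A * C * Box_sz s, by positivity, fun ρ hρ x hx l =>
      Box_br hgr hA hC hρ (hu ρ hρ x hx) (hv ρ hρ x hx) l⟩

/-- The bound with exponents `e`, uniformly in the letters. -/
def Box_bd (d e : Fin n → ℕ) (s : Fin n → Fin n → Fin n → ℤ) (B : ℝ) (w : FreeMagma Bool) : Prop :=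
  ∃ K : ℝ, 0 ≤ K ∧ ∀ ρ : ℝ, 1 ≤ ρ → ∀ x y : Fin n → ℝ, InBox d ρ x → (∀ i, |y i| ≤ B) →
    ∀ l, |ev (br s) (fun t => cond t x y) w l| ≤ K * ρ ^ e l

lemma Box_bd_big {B : ℝ} {w : FreeMagma Bool}
    (h : w = FreeMagma.of true ∨ Box_bd d (fun l => d l - 1) s B w) : Box_bd d d s B w := by
  rcases h with rfl | ⟨K, hK, h⟩
  · exact ⟨1, zero_le_one, fun ρ _ x y hx _ l => by simpa using hx l⟩
  · exact ⟨K, hK, fun ρ hρ x y hx hy l => (h ρ hρ x y hx hy l).trans
      (mul_le_mul_of_nonneg_left (pow_le_pow_right₀ hρ (Nat.sub_le _ _)) hK)⟩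

lemma Box_bd_mul {e f g : Fin n → ℕ} (h : ∀ i j l, s i j l ≠ 0 → e i + f j ≤ g l) {B : ℝ}
    {u v : FreeMagma Bool} (hu : Box_bd d e s B u) (hv : Box_bd d f s B v) :
    Box_bd d g s B (u * v) := by
  obtain ⟨A, hA, hu⟩ := hu
  obtain ⟨C, hC, hv⟩ := hv
  have := Box_sz_nonneg s
  exact ⟨A * C * Box_sz s, by positivity, fun ρ hρ x y hx hy l =>
    Box_br h hA hC hρ (hu ρ hρ x y hx hy) (hv ρ hρ x y hx hy) l⟩

lemma Box_bd_small (hd : ∀ i, 1 ≤ d i) (hgr : ∀ i j l, s i j l ≠ 0 → d i + d j ≤ d l)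
    (halt : ∀ x : Fin n → ℝ, br s x x = 0) (B : ℝ) (w : FreeMagma Bool) :
    w = FreeMagma.of true ∨ Box_bd d (fun l => d l - 1) s B w := by
  induction w using FreeMagma.recOnMul with
  | ih1 a =>
    cases a
    · refine Or.inr ⟨|B|, abs_nonneg _, fun ρ hρ x y _ hy l => ?_⟩
      exact ((hy l).trans (le_abs_self B)).trans
        (le_mul_of_one_le_right (abs_nonneg _) (one_le_pow₀ hρ))
    · exact Or.inl rfl
  | ih2 u v hu hv =>
    right
    rcases hu with rfl | hu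
    · rcases hv with rfl | hv
      · exact ⟨0, le_rfl, fun ρ _ x y _ _ l => by simp [halt]⟩
      · refine Box_bd_mul (fun i j l hs => ?_) (Box_bd_big (Or.inl rfl)) hv
        have := hgr i j l hs
        have := hd j
        omega
    · refine Box_bd_mul (fun i j l hs => ?_) hu (Box_bd_big hv)
      have := hgr i j l hs
      have := hd i
      omega

theorem ev_box_step (hd : ∀ i, 1 ≤ d i) (hgr : ∀ i j l, s i j l ≠ 0 → d i + d j ≤ d l)
    (halt : ∀ x : Fin n → ℝ, br s x x = 0) (B : ℝ) (w : FreeMagma Bool) (hw : 2 ≤ w.length) :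
    ∃ K : ℝ, 0 ≤ K ∧ ∀ ρ : ℝ, 1 ≤ ρ → ∀ x y : Fin n → ℝ, InBox d ρ x → (∀ i, |y i| ≤ B) →
      ∀ l, |ev (br s) (fun t => cond t x y) w l| ≤ K * ρ ^ (d l - 1) := by
  rcases Box_bd_small hd hgr halt B w with rfl | h
  · simp at hw
  · exact h

variable {G : Type} [Group G] (M : Mal G n)

theorem Mal.lg_one : M.lg 1 = 0 := by
  simpa using M.zpow 1 0

theorem Mal.lg_inv (g : G) : M.lg g⁻¹ = -M.lg g := by
  simpa using M.zpow g (-1)

theorem Mal.lg_pow (g : G) (k : ℕ) : M.lg (g ^ k) = k • M.lg g := by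
  simpa using M.zpow g k

theorem Mal.mul_sub {k : ℕ} (hk : 1 ≤ k) {g h : G} (hg : M.lg g ∈ Fil M.d k)
    (hh : M.lg h ∈ Fil M.d k) : M.lg (g * h) - (M.lg g + M.lg h) ∈ Fil M.d (k + 1) := by
  rw [M.mul]
  exact (filt_Fil M.graded).bch_sub M.len2 hk hg hh

lemma Box_bch {q : FreeMagma Bool →₀ ℚ} {K : FreeMagma Bool → ℝ} {x y : Fin n → ℝ} {l : Fin n}
    {T : ℝ} (h : ∀ w ∈ q.support, |ev (br s) (fun t => cond t x y) w l| ≤ K w * T) :
    |bch (br s) q x y l| ≤ |x l| + |y l| + (∑ w ∈ q.support, |(q w : ℝ)| * K w) * T := by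
  unfold bch Finsupp.sum
  rw [Pi.add_apply, Pi.add_apply, Finset.sum_apply, Finset.sum_mul]
  refine (abs_add_le _ _).trans (add_le_add (abs_add_le _ _)
    ((Finset.abs_sum_le_sum_abs _ _).trans (Finset.sum_le_sum fun w hw => ?_)))
  beta_reduce
  rw [Pi.smul_apply, Rat.smul_def, abs_mul, mul_assoc]
  exact mul_le_mul_of_nonneg_left (h w hw) (abs_nonneg _)

theorem Mal.box_mul : ∃ K : ℝ, 1 ≤ K ∧ ∀ ρ : ℝ, 1 ≤ ρ → ∀ g h : G, InBox M.d ρ (M.lg g) →
    InBox M.d ρ (M.lg h) → InBox M.d (K * ρ) (M.lg (g * h)) := by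
  choose K hK h using fun w : FreeMagma Bool => ev_box M.graded w
  have h0 : 0 ≤ ∑ w ∈ M.q.support, |(M.q w : ℝ)| * K w :=
    Finset.sum_nonneg fun w _ => mul_nonneg (abs_nonneg _) (hK w)
  refine ⟨2 + ∑ w ∈ M.q.support, |(M.q w : ℝ)| * K w, by linarith, fun ρ hρ a b ha hb l => ?_⟩
  rw [M.mul]
  refine (Box_bch (K := K) (T := ρ ^ M.d l) fun w _ =>
    h w ρ hρ _ (by rintro (_ | _); exacts [hb, ha]) l).trans ?_
  have h1 : 0 ≤ ρ ^ M.d l := pow_nonneg (zero_le_one.trans hρ) _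
  have h2 := le_self_pow₀ (show (1 : ℝ) ≤ 2 + ∑ w ∈ M.q.support, |(M.q w : ℝ)| * K w by linarith)
    (Nat.one_le_iff_ne_zero.1 (M.hd l))
  rw [mul_pow]
  refine le_trans ?_ (mul_le_mul_of_nonneg_right h2 h1)
  have := ha l
  have := hb l
  linarith

theorem Mal.box_step (B : ℝ) : ∃ K : ℝ, 1 ≤ K ∧ ∀ ρ : ℝ, 1 ≤ ρ → ∀ g h : G,
    InBox M.d ρ (M.lg g) → (∀ i, |M.lg h i| ≤ B) → InBox M.d (ρ + K) (M.lg (g * h)) := by
  have h : ∀ w : FreeMagma Bool, ∃ K : ℝ, 0 ≤ K ∧ (2 ≤ w.length → ∀ ρ : ℝ, 1 ≤ ρ →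
      ∀ x y : Fin n → ℝ, InBox M.d ρ x → (∀ i, |y i| ≤ B) →
      ∀ l, |ev (br M.s) (fun t => cond t x y) w l| ≤ K * ρ ^ (M.d l - 1)) := by
    intro w
    by_cases hw : 2 ≤ w.length
    · obtain ⟨K, hK, h⟩ := ev_box_step M.hd M.graded M.alt B w hw
      exact ⟨K, hK, fun _ => h⟩
    · exact ⟨0, le_rfl, fun h => absurd h hw⟩
  choose K hK h using h
  have h0 : 0 ≤ ∑ w ∈ M.q.support, |(M.q w : ℝ)| * K w :=
    Finset.sum_nonneg fun w _ => mul_nonneg (abs_nonneg _) (hK w)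
  have hB := abs_nonneg B
  refine ⟨1 + |B| + ∑ w ∈ M.q.support, |(M.q w : ℝ)| * K w, by linarith,
    fun ρ hρ a b ha hb l => ?_⟩
  rw [M.mul]
  refine (Box_bch (K := K) (T := ρ ^ (M.d l - 1)) fun w hw =>
    h w (M.len2 w hw) ρ hρ _ _ ha hb l).trans ?_
  generalize ∑ w ∈ M.q.support, |(M.q w : ℝ)| * K w = T at h0
  have h1 := ha l
  have h2 := (hb l).trans (le_abs_self B)
  obtain ⟨e, he⟩ := Nat.exists_eq_add_of_le' (M.hd l)
  rw [he] at h1 ⊢
  rw [Nat.add_sub_cancel, pow_succ]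
  rw [pow_succ] at h1
  have h3 : (1 : ℝ) ≤ ρ ^ e := one_le_pow₀ hρ
  have h4 : ρ ^ e ≤ (ρ + (1 + |B| + T)) ^ e := pow_le_pow_left₀ (by linarith) (by linarith) _
  refine le_trans ?_ (mul_le_mul_of_nonneg_right h4 (by linarith))
  nlinarith

theorem Mal.ball_box {S : Set G} (hS : Subgroup.closure S = ⊤) (B : ℝ)
    (hB : ∀ a ∈ S, ∀ i, |M.lg a i| ≤ B) : ∃ C : ℝ, 1 ≤ C ∧ ∀ (g : G) (r : ℝ), 1 ≤ r →
      (wordLength S g : ℝ) ≤ r → InBox M.d (C * r) (M.lg g) := by
  obtain ⟨K, hK, h⟩ := M.box_step B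
  have key : ∀ l : List G, (∀ a ∈ l, a ∈ S ∨ a⁻¹ ∈ S) →
      InBox M.d (1 + K * l.length) (M.lg l.prod) := by
    intro l
    induction l using List.reverseRecOn with
    | nil => intro _ i; simp [M.lg_one]
    | append_singleton l a ih =>
      intro hl
      have h1 := ih fun b hb => hl b (List.mem_append_left _ hb)
      have h2 : ∀ i, |M.lg a i| ≤ B := by
        intro i
        rcases hl a (by simp) with ha | ha
        · exact hB a ha i
        · have := hB _ ha i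
          rwa [M.lg_inv, Pi.neg_apply, abs_neg] at this
      have h3 := h _ (le_add_of_nonneg_right (by positivity)) _ _ h1 h2
      rw [List.prod_append, List.prod_singleton, List.length_append, List.length_singleton]
      convert h3 using 1
      push_cast
      ring
  refine ⟨1 + K, by linarith, fun g r hr hg => ?_⟩
  obtain ⟨l, e, hl, rfl⟩ := exists_word hS g
  refine (key l hl).mono (by positivity) ?_
  rw [e]
  nlinarith

theorem Mal.ball_box_fin {S : Finset G} (hS : Subgroup.closure (S : Set G) = ⊤) :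
    ∃ C : ℝ, 1 ≤ C ∧ ∀ (g : G) (r : ℝ), 1 ≤ r →
      (wordLength (S : Set G) g : ℝ) ≤ r → InBox M.d (C * r) (M.lg g) := by
  refine M.ball_box hS (∑ a ∈ S, ∑ i, |M.lg a i|) fun a ha i => ?_
  exact (Finset.single_le_sum (f := fun i => |M.lg a i|) (fun _ _ => abs_nonneg _)
    (Finset.mem_univ i)).trans (Finset.single_le_sum (f := fun a => ∑ i, |M.lg a i|)
      (fun _ _ => Finset.sum_nonneg fun _ _ => abs_nonneg _) ha)

end Pool.Agent.Work.MP_913e71_al.Pos
end

-- merged part: Pool.Agent.Work.MP_913e71_al.Pos.BoxBall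
section
/-! Boxes are contained in balls.

PLAN.  `tree_word`: induction on `w`.  A letter `a₀`: `γ = a₀ ^ a`.  For `w = w₁ * w₂` of lengths `k₁`,
`k₂` write `a = a₁ * ρ ^ k₂ + a₂` (`a₁ = a / ρ ^ k₂`, `a₂ = a % ρ ^ k₂`, `|a₁| ≤ ρ ^ k₁`, `|a₂| ≤ ρ ^ k₂`) and
take the product of the group commutators of `γ₁ a₁`, `γ₂ (ρ ^ k₂)` and of `γ₁ 1`, `γ₂ a₂`; use `M.comm`,
`M.mul_sub`, `Filt.ev_mem`, `filt_Fil`, bilinearity.
`gen_word`: closure induction on `hI.gen i` for the property `v ∈ Fil k ∧ ∃ C, ∀ ρ a, ..`; words of length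
`> k` use `γ = 1`.
`box_ball`: descending induction on `k` from `sup d + 1` (then `lg g = 0`, `g = 1`) to `1` of the statement
for the `g` with `lg g ∈ Fil k`.  Step: `N • lg g = v` integral, for `d i = k` write
`v i = N ^ 2 * b i + c i`, `0 ≤ c i < N ^ 2`, `|b i| ≤ ρ ^ k` with `ρ = ⌈r⌉₊ + 1`.  Let `h` be the product of
the `γ i (b i)` over the `i` with `d i = k` (induction on a finset of indices), `g' = h⁻¹ * g`: `lg g' ∈ Fil k`
and its coordinates of weight `k` are `c i / N`.  For each of the finitely many `c` choose (if there is one)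
`g c` with `lg (g c) ∈ Fil k` and these coordinates; `g'' = (g c)⁻¹ * g'` has `lg g'' ∈ Fil (k + 1)` and lies
in a box of radius `C' * r` (`ball_box_fin`, `box_mul` twice). -/

namespace Pool.Agent.Work.MP_913e71_al.Pos

variable {G : Type} [Group G] {n : ℕ} (M : Mal G n) {S : Finset G}

theorem BoxBall_zpow {S : Set G} (hS : Subgroup.closure S = ⊤) (g : G) (a : ℤ) :
    wordLength S (g ^ a) ≤ a.natAbs * wordLength S g := by
  have h : ∀ m : ℕ, wordLength S (g ^ m) ≤ m * wordLength S g := fun m => by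
    induction m with
    | zero => simp [wordLength_one]
    | succ m ih =>
      rw [pow_succ, add_mul, one_mul]
      exact (wordLength_mul_le hS _ _).trans (Nat.add_le_add_right ih _)
  obtain ⟨m, rfl | rfl⟩ := a.eq_nat_or_neg
  · simpa using h m
  · simpa [wordLength_inv hS] using h m

theorem BoxBall_div {a x y : ℤ} (hy : 0 < y) (h : |a| ≤ x * y) : |a / y| ≤ x := by
  rw [abs_le] at h ⊢
  exact ⟨Int.le_ediv_of_mul_le hy (by linarith [h.1]), Int.ediv_le_of_le_mul hy h.2⟩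

/-- The leading part of the logarithm. -/
def Mal.BoxBall_Ap (k : ℕ) (g : G) (v : Fin n → ℝ) : Prop :=
  v ∈ Fil M.d k ∧ M.lg g - v ∈ Fil M.d (k + 1)

section
variable {M} {i j k : ℕ} {g h : G} {v v' : Fin n → ℝ}

theorem Mal.BoxBall_Ap.mem (a : M.BoxBall_Ap k g v) : M.lg g ∈ Fil M.d k := by
  simpa using add_mem ((filt_Fil M.graded).anti k.le_succ a.2) a.1

theorem Mal.BoxBall_Ap.mul (hk : 1 ≤ k) (a : M.BoxBall_Ap k g v) (b : M.BoxBall_Ap k h v') :
    M.BoxBall_Ap k (g * h) (v + v') :=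
  ⟨add_mem a.1 b.1, by
    have := add_mem (add_mem (M.mul_sub hk a.mem b.mem) a.2) b.2
    rwa [show ∀ x y z : Fin n → ℝ, x - (y + z) + (y - v) + (z - v') = x - (v + v') from
      fun x y z => by abel] at this⟩

theorem Mal.BoxBall_Ap.inv (a : M.BoxBall_Ap k g v) : M.BoxBall_Ap k g⁻¹ (-v) :=
  ⟨neg_mem a.1, by
    rw [M.lg_inv, ← neg_sub']
    exact neg_mem a.2⟩

theorem Mal.BoxBall_Ap.comm (a : M.BoxBall_Ap i g v) (b : M.BoxBall_Ap j h v') :
    M.BoxBall_Ap (i + j) (g * h * g⁻¹ * h⁻¹) (br M.s v v') := by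
  have F := filt_Fil M.graded
  have h1 := F.br_mem _ _ _ a.2 _ b.mem
  have h2 := F.br_mem _ _ _ a.1 _ b.2
  rw [(bil_br M.s).sub_left, add_right_comm] at h1
  rw [(bil_br M.s).sub_right, ← add_assoc] at h2
  have := add_mem (add_mem (M.comm i j g h a.mem b.mem) h1) h2
  rw [sub_add_sub_cancel, sub_add_sub_cancel] at this
  exact ⟨F.br_mem _ _ _ a.1 _ b.1, this⟩

end

theorem BoxBall_comm {S : Set G} (hS : Subgroup.closure S = ⊤) (g h : G) :
    wordLength S (g * h * g⁻¹ * h⁻¹) ≤ 2 * (wordLength S g + wordLength S h) := by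
  have h1 := wordLength_mul_le hS (g * h * g⁻¹) h⁻¹
  have h2 := wordLength_mul_le hS (g * h) g⁻¹
  have h3 := wordLength_mul_le hS g h
  rw [wordLength_inv hS] at h1 h2
  omega

theorem Mal.BoxBall_ev (w : FreeMagma S) :
    ev (br M.s) (fun a : S => M.lg a) w ∈ Fil M.d w.length := by
  simpa using (filt_Fil M.graded).ev_mem (fun a : S => mem_Fil_one M.hd (M.lg a)) w

theorem Mal.tree_word (hS : Subgroup.closure (S : Set G) = ⊤) (w : FreeMagma S) :
    ∃ C : ℕ, ∀ ρ : ℕ, 1 ≤ ρ → ∀ a : ℤ, |a| ≤ (ρ : ℤ) ^ w.length → ∃ γ : G,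
      wordLength (S : Set G) γ ≤ C * ρ ∧
      M.lg γ - a • ev (br M.s) (fun a : S => M.lg a) w ∈ Fil M.d (w.length + 1) := by
  induction w using FreeMagma.recOnMul with
  | ih1 x =>
    refine ⟨wordLength (S : Set G) x, fun ρ _ a ha => ⟨x ^ a, (BoxBall_zpow hS _ a).trans ?_, ?_⟩⟩
    · rw [mul_comm]
      refine Nat.mul_le_mul_left _ ?_
      rw [← Nat.cast_le (α := ℤ), Int.natCast_natAbs]
      simpa using ha
    · rw [M.zpow, ev_of, sub_self]
      exact zero_mem _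
  | ih2 u v hu hv =>
    obtain ⟨C, hu⟩ := hu
    obtain ⟨C', hv⟩ := hv
    refine ⟨4 * (C + C'), fun ρ hρ a ha => ?_⟩
    have h0 : ∀ m, (1 : ℤ) ≤ ρ ^ m := fun m => one_le_pow₀ (by exact_mod_cast hρ)
    have h1 : (0 : ℤ) < ρ ^ v.length := h0 _
    obtain ⟨g₁, a1, b1⟩ := hu ρ hρ _ (BoxBall_div h1 (ha.trans_eq (pow_add _ _ _)))
    obtain ⟨g₂, a2, b2⟩ := hv ρ hρ _ (abs_of_pos h1).le
    obtain ⟨g₃, a3, b3⟩ := hu ρ hρ 1 (h0 _)
    obtain ⟨g₄, a4, b4⟩ := hv ρ hρ (a % ρ ^ v.length) 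
      ((abs_of_nonneg (Int.emod_nonneg _ h1.ne')).trans_le (Int.emod_lt_of_pos _ h1).le)
    have := (Mal.BoxBall_Ap.comm ⟨zsmul_mem (M.BoxBall_ev u) _, b1⟩
      ⟨zsmul_mem (M.BoxBall_ev v) _, b2⟩).mul (Nat.le_add_right_of_le u.length_pos)
      (Mal.BoxBall_Ap.comm ⟨zsmul_mem (M.BoxBall_ev u) _, b3⟩ ⟨zsmul_mem (M.BoxBall_ev v) _, b4⟩)
    simp only [(bil_br M.s).zsmul_left, (bil_br M.s).zsmul_right, smul_smul, ← add_smul, one_mul,
      Int.ediv_mul_add_emod] at this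
    refine ⟨_, (wordLength_mul_le hS _ _).trans ?_, this.2⟩
    linarith [BoxBall_comm hS g₁ g₂, BoxBall_comm hS g₃ g₄]

theorem Mal.gen_word (hS : Subgroup.closure (S : Set G) = ⊤) (hI : M.Int S) (i : Fin n) :
    ∃ C : ℕ, ∀ ρ : ℕ, 1 ≤ ρ → ∀ a : ℤ, |a| ≤ (ρ : ℤ) ^ M.d i → ∃ γ : G,
      wordLength (S : Set G) γ ≤ C * ρ ∧
      M.lg γ - a • M.N • (Pi.single i 1 : Fin n → ℝ) ∈ Fil M.d (M.d i + 1) := by
  have key : ∀ v ∈ AddSubgroup.closure {v | ∃ w : FreeMagma S, M.d i ≤ w.length ∧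
      ev (br M.s) (fun a : S => M.lg a) w = v}, v ∈ Fil M.d (M.d i) ∧ ∃ C : ℕ, ∀ ρ : ℕ, 1 ≤ ρ →
        ∀ a : ℤ, |a| ≤ (ρ : ℤ) ^ M.d i → ∃ γ : G, wordLength (S : Set G) γ ≤ C * ρ ∧
          M.lg γ - a • v ∈ Fil M.d (M.d i + 1) := fun v hv => by
    induction hv using AddSubgroup.closure_induction with
    | mem v hv =>
      obtain ⟨w, h, rfl⟩ := hv
      refine ⟨(filt_Fil M.graded).anti h (M.BoxBall_ev w), ?_⟩
      rcases h.eq_or_lt with h | h
      · exact h ▸ M.tree_word hS w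
      · refine ⟨0, fun ρ _ a _ => ⟨1, by simp [wordLength_one], ?_⟩⟩
        rw [M.lg_one, zero_sub]
        exact neg_mem (zsmul_mem ((filt_Fil M.graded).anti h (M.BoxBall_ev w)) _)
    | zero => exact ⟨zero_mem _, 0, fun ρ _ a _ => ⟨1, by simp [wordLength_one], by simp [M.lg_one]⟩⟩
    | add v w _ _ h1 h2 =>
      obtain ⟨a1, C, h1⟩ := h1
      obtain ⟨a2, C', h2⟩ := h2
      refine ⟨add_mem a1 a2, C + C', fun ρ hρ a ha => ?_⟩
      obtain ⟨g, b1, b2⟩ := h1 ρ hρ a ha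
      obtain ⟨h, b3, b4⟩ := h2 ρ hρ a ha
      exact ⟨g * h, (wordLength_mul_le hS _ _).trans (by linarith), smul_add a v w ▸
        (Mal.BoxBall_Ap.mul (M.hd i) ⟨zsmul_mem a1 a, b2⟩ ⟨zsmul_mem a2 a, b4⟩).2⟩
    | neg v _ h =>
      obtain ⟨a1, C, h⟩ := h
      refine ⟨neg_mem a1, C, fun ρ hρ a ha => ?_⟩
      simpa only [neg_smul, smul_neg] using h ρ hρ (-a) (by rwa [abs_neg])
  exact (key _ (hI.gen i)).2

theorem Mal.BoxBall_prod (hS : Subgroup.closure (S : Set G) = ⊤) (hI : M.Int S) {k : ℕ} (hk : 1 ≤ k)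
    (t : Finset (Fin n)) (ht : ∀ i ∈ t, M.d i = k) : ∃ C : ℕ, ∀ ρ : ℕ, 1 ≤ ρ → ∀ b : Fin n → ℤ,
      (∀ i ∈ t, |b i| ≤ (ρ : ℤ) ^ k) → ∃ γ : G, wordLength (S : Set G) γ ≤ C * ρ ∧
        M.BoxBall_Ap k γ (∑ i ∈ t, b i • M.N • (Pi.single i 1 : Fin n → ℝ)) := by
  induction t using Finset.induction_on with
  | empty => exact ⟨0, fun ρ _ b _ => ⟨1, by simp [wordLength_one], zero_mem _, by simp [M.lg_one]⟩⟩
  | insert i t hi ih =>
    obtain ⟨C, h1⟩ := ih fun j hj => ht j (Finset.mem_insert_of_mem hj)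
    obtain ⟨C', h2⟩ := M.gen_word hS hI i
    rw [ht i (Finset.mem_insert_self _ _)] at h2
    refine ⟨C' + C, fun ρ hρ b hb => ?_⟩
    obtain ⟨g, b1, b2⟩ := h2 ρ hρ _ (hb i (Finset.mem_insert_self _ _))
    obtain ⟨h, b3, b4⟩ := h1 ρ hρ b fun j hj => hb j (Finset.mem_insert_of_mem hj)
    refine ⟨g * h, (wordLength_mul_le hS _ _).trans (by linarith), ?_⟩
    rw [Finset.sum_insert hi]
    refine Mal.BoxBall_Ap.mul hk ⟨zsmul_mem (nsmul_mem
      (mem_Fil.2 fun j hj => Pi.single_eq_of_ne ?_ _) _) _, b2⟩ b4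
    rintro rfl
    exact hj.ne (ht j (Finset.mem_insert_self _ _))

theorem Mal.BoxBall_step (hS : Subgroup.closure (S : Set G) = ⊤) (hI : M.Int S) {k : ℕ} (hk : 1 ≤ k)
    (h : ∃ C : ℝ, 1 ≤ C ∧ ∀ (g : G) (r : ℝ), 1 ≤ r → M.lg g ∈ Fil M.d (k + 1) →
      InBox M.d r (M.lg g) → (wordLength (S : Set G) g : ℝ) ≤ C * r) :
    ∃ C : ℝ, 1 ≤ C ∧ ∀ (g : G) (r : ℝ), 1 ≤ r → M.lg g ∈ Fil M.d k →
      InBox M.d r (M.lg g) → (wordLength (S : Set G) g : ℝ) ≤ C * r := by
  obtain ⟨C₀, c0, h0⟩ := h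
  obtain ⟨C₁, c1, h1⟩ := M.ball_box_fin hS
  obtain ⟨K, c2, h2⟩ := M.box_mul
  obtain ⟨C, h3⟩ := M.BoxBall_prod hS hI hk (Finset.univ.filter (M.d · = k))
    fun i hi => (Finset.mem_filter.1 hi).2
  have hz : ∀ v, ∃ z : G, ∀ g, M.BoxBall_Ap k g v → M.BoxBall_Ap k z v := fun v =>
    (em (∃ g, M.BoxBall_Ap k g v)).elim (fun ⟨z, hz⟩ => ⟨z, fun _ _ => hz⟩)
      fun h => ⟨1, fun g hg => (h ⟨g, hg⟩).elim⟩
  choose z hz using hz
  let e : (Fin n → ℤ) → Fin n → ℝ := fun c i => if M.d i = k then c i / M.N else 0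
  obtain ⟨B, hB⟩ := ((Fintype.piFinset fun _ => Finset.Ico (0 : ℤ) (M.N ^ 2)).image
    fun c => wordLength (S : Set G) (z (e c))).bddAbove
  have c3 : (1 : ℝ) ≤ 2 * C + B + 1 := le_add_of_nonneg_left (by positivity)
  have c4 := one_le_mul_of_one_le_of_one_le c1 c3
  refine ⟨2 * C + B + 1 + C₀ * (K * (C₁ * (2 * C + B + 1))), le_add_of_le_of_nonneg c3
    (by positivity), fun g r hr hg hb => ?_⟩
  obtain ⟨v, hv⟩ := hI.int g
  have hN : (1 : ℝ) ≤ M.N := Nat.one_le_cast.2 M.hN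
  have hN' : (0 : ℤ) < M.N ^ 2 := pow_pos (Nat.cast_pos.2 M.hN) 2
  have hv' : ∀ i, (v i : ℝ) = M.N * M.lg g i := fun i => by simpa using (congrFun hv i).symm
  obtain ⟨γ, a1, a2⟩ := h3 ⌈r⌉₊ (Nat.one_le_ceil_iff.2 (one_pos.trans_le hr))
    (fun i => v i / M.N ^ 2) fun i hi => BoxBall_div hN' (by
      have h4 := (hb i).trans (pow_le_pow_left₀ (zero_le_one.trans hr) (Nat.le_ceil r) _)
      rw [(Finset.mem_filter.1 hi).2] at h4
      rw [← Int.cast_le (R := ℝ)]
      push_cast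
      rw [hv', abs_mul, Nat.abs_cast, mul_comm]
      exact mul_le_mul h4 (le_self_pow₀ hN two_ne_zero) (by positivity) (by positivity))
  have a3 := a2.inv.mul hk (⟨hg, by simp⟩ : M.BoxBall_Ap k g (M.lg g))
  have a4 : M.BoxBall_Ap k (γ⁻¹ * g) (e fun i => v i % M.N ^ 2) := by
    refine ⟨fun i hi => if_neg hi.ne, fun i hi => ?_⟩
    have := a3.2 i hi
    rw [Pi.sub_apply, sub_eq_zero] at this ⊢
    rw [this]
    by_cases h : M.d i = k
    · have e1 := congrArg (Int.cast : ℤ → ℝ) (Int.mul_ediv_add_emod (v i) (M.N ^ 2))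
      push_cast at e1
      simp [e, h, Finset.sum_apply, Pi.single_apply]
      rw [eq_div_iff (by positivity)]
      linear_combination -e1 - hv' i
    · simp [e, h, Finset.sum_apply, Pi.single_apply, hg i (by omega)]
  have a5 := ((hz _ _ a4).inv.mul hk a4).2
  have a6 := hB (Finset.mem_coe.2 (Finset.mem_image_of_mem _ (Fintype.mem_piFinset.2 fun i =>
    Finset.mem_Ico.2 ⟨Int.emod_nonneg (v i) hN'.ne', Int.emod_lt_of_pos _ hN'⟩)))
  generalize z (e fun i => v i % M.N ^ 2) = y at a5 a6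
  rw [neg_add_cancel, sub_zero, ← mul_assoc, ← mul_inv_rev] at a5
  have a7 : (wordLength (S : Set G) (γ * y) : ℝ) ≤ (2 * C + B + 1) * r := by
    have b1 : (wordLength (S : Set G) (γ * y) : ℝ) ≤ C * ⌈r⌉₊ + B := by
      exact_mod_cast (wordLength_mul_le hS γ y).trans (Nat.add_le_add a1 a6)
    have b2 := mul_le_mul_of_nonneg_left (Nat.ceil_lt_add_one (zero_le_one.trans hr)).le C.cast_nonneg
    nlinarith [mul_le_mul_of_nonneg_left hr C.cast_nonneg, mul_le_mul_of_nonneg_left hr B.cast_nonneg]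
  have c5 := one_le_mul_of_one_le_of_one_le c3 hr
  have c6 := one_le_mul_of_one_le_of_one_le c1 c5
  have a8 := h0 _ _ (one_le_mul_of_one_le_of_one_le c2 c6) a5 (h2 _ c6 _ g
    (h1 _ _ c5 (by rwa [wordLength_inv hS])) (hb.mono (zero_le_one.trans hr)
      (mul_assoc C₁ _ r ▸ le_mul_of_one_le_left (zero_le_one.trans hr) c4)))
  have a9 : (wordLength (S : Set G) g : ℝ) ≤ wordLength (S : Set G) (γ * y) +
      wordLength (S : Set G) ((γ * y)⁻¹ * g) := by
    exact_mod_cast (congrArg _ (mul_inv_cancel_left (γ * y) g).symm).trans_le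
      (wordLength_mul_le hS _ _)
  linarith

theorem Mal.box_ball (hS : Subgroup.closure (S : Set G) = ⊤) (hI : M.Int S) :
    ∃ C : ℝ, 1 ≤ C ∧ ∀ (g : G) (r : ℝ), 1 ≤ r → InBox M.d r (M.lg g) →
      (wordLength (S : Set G) g : ℝ) ≤ C * r := by
  have key : ∀ k, k ≤ Finset.univ.sup M.d → ∃ C : ℝ, 1 ≤ C ∧ ∀ (g : G) (r : ℝ), 1 ≤ r →
      M.lg g ∈ Fil M.d (k + 1) → InBox M.d r (M.lg g) →
        (wordLength (S : Set G) g : ℝ) ≤ C * r := fun k hk => by
    induction hk using Nat.decreasingInduction with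
    | of_succ k _ ih => exact M.BoxBall_step hS hI k.succ_pos ih
    | self =>
      refine ⟨1, le_rfl, fun g r hr hg _ => ?_⟩
      rw [show g = 1 from M.inj (Eq.trans (funext fun i => hg i (Nat.lt_succ_of_le
        (Finset.le_sup (Finset.mem_univ i)))) M.lg_one.symm), wordLength_one]
      simpa using zero_le_one.trans hr
  obtain ⟨C, h1, h2⟩ := key 0 (Nat.zero_le _)
  exact ⟨C, h1, fun g r hr => h2 g r hr (mem_Fil_one M.hd _)⟩

end Pool.Agent.Work.MP_913e71_al.Pos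
end

-- merged part: Pool.Agent.Work.MP_913e71_al.Pos.Count
section
/-! Indices by counting points.

PLAN.  `ncard_le_index_mul`: `B` is the union of its fibres over `G ⧸ Λ`; a nonempty fibre through `x`
injects into `B' ∩ Λ` by `y ↦ x⁻¹ * y`.  `card_mul_ncard_le`: `(t, b) ↦ t * b` is injective on
`T × (B ∩ Λ)`.  For `ℤ ^ n` use these through `Multiplicative` (`AddSubgroup.toSubgroup`,
`AddSubgroup.index_toSubgroup`) or prove additive copies.  `ZB d r` is the product of the intervals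
`Icc (-⌊r ^ d i⌋) ⌊r ^ d i⌋`, each with between `r ^ d i` and `3 * r ^ d i` points. -/

namespace Pool.Agent.Work.MP_913e71_al.Pos

section

variable {G : Type} [Group G]

theorem ncard_le_index_mul (Λ : Subgroup G) [Λ.FiniteIndex] {B B' : Set G} (hB' : B'.Finite)
    (h : ∀ x ∈ B, ∀ y ∈ B, x⁻¹ * y ∈ B') : B.ncard ≤ Λ.index * (B' ∩ Λ).ncard := by
  classical
  have h1 : ∀ q : G ⧸ Λ, ∃ x : G, (∃ y ∈ B, (y : G ⧸ Λ) = q) → x ∈ B ∧ (x : G ⧸ Λ) = q := by
    intro q
    by_cases hq : ∃ y ∈ B, (y : G ⧸ Λ) = q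
    · obtain ⟨y, hy⟩ := hq
      exact ⟨y, fun _ => hy⟩
    · exact ⟨1, fun h => absurd h hq⟩
  choose rep hrep using h1
  have hfin : ((Set.univ : Set (G ⧸ Λ)) ×ˢ (B' ∩ Λ)).Finite :=
    Set.finite_univ.prod (hB'.inter_of_left _)
  have h2 := Set.ncard_le_ncard_of_injOn (s := B)
    (t := (Set.univ : Set (G ⧸ Λ)) ×ˢ (B' ∩ Λ))
    (fun y => ((y : G ⧸ Λ), (rep (y : G ⧸ Λ))⁻¹ * y)) (fun y hy => by
      obtain ⟨a, b⟩ := hrep y ⟨y, hy, rfl⟩
      exact ⟨trivial, h _ a _ hy, QuotientGroup.eq.1 b⟩)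
    (fun x _ y _ e => by
      obtain ⟨e1, e2⟩ := Prod.ext_iff.1 e
      simp only at e1 e2
      rw [e1] at e2
      exact mul_left_cancel e2) hfin
  rwa [Set.ncard_prod, Set.ncard_univ] at h2

theorem card_mul_ncard_le (Λ : Subgroup G) (T : Finset G)
    (hT : ∀ x ∈ T, ∀ y ∈ T, x⁻¹ * y ∈ Λ → x = y) {B B' : Set G} (hB' : B'.Finite)
    (h : ∀ t ∈ T, ∀ b ∈ B, t * b ∈ B') : T.card * (B ∩ Λ).ncard ≤ B'.ncard := by
  have h2 := Set.ncard_le_ncard_of_injOn (s := (T : Set G) ×ˢ (B ∩ Λ)) (t := B')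
    (fun p => p.1 * p.2) (fun p hp => h _ hp.1 _ hp.2.1)
    (fun p hp q hq e => by
      simp only at e
      have e1 : p.1 = q.1 := by
        refine hT _ hp.1 _ hq.1 ?_
        have e2 : p.1⁻¹ * q.1 = p.2 * q.2⁻¹ := by
          rw [inv_mul_eq_iff_eq_mul, ← mul_assoc, e, mul_inv_cancel_right]
        rw [e2]
        exact Λ.mul_mem hp.2.2 (Λ.inv_mem hq.2.2)
      rw [e1] at e
      exact Prod.ext e1 (mul_left_cancel e)) hB'
  rwa [Set.ncard_prod, Set.ncard_coe_finset] at h2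

theorem exists_transversal (Λ : Subgroup G) (m : ℕ) (hm : Λ.index = 0 ∨ m ≤ Λ.index) :
    ∃ T : Finset G, T.card = m ∧ ∀ x ∈ T, ∀ y ∈ T, x⁻¹ * y ∈ Λ → x = y := by
  classical
  have h1 : ∃ U : Finset (G ⧸ Λ), U.card = m := by
    rcases finite_or_infinite (G ⧸ Λ) with hf | hf
    · have := Fintype.ofFinite (G ⧸ Λ)
      have h2 : m ≤ (Finset.univ : Finset (G ⧸ Λ)).card := by
        rw [Finset.card_univ, ← Nat.card_eq_fintype_card]
        exact hm.resolve_left Nat.card_pos.ne'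
      obtain ⟨U, -, hU⟩ := Finset.exists_subset_card_eq h2
      exact ⟨U, hU⟩
    · exact Infinite.exists_subset_card_eq _ m
  obtain ⟨U, hU⟩ := h1
  refine ⟨U.image Quotient.out, ?_, ?_⟩
  · rw [Finset.card_image_of_injective _ Quotient.out_injective, hU]
  · intro x hx y hy e
    obtain ⟨a, -, rfl⟩ := Finset.mem_image.1 hx
    obtain ⟨b, -, rfl⟩ := Finset.mem_image.1 hy
    have e1 := QuotientGroup.eq.2 e
    rw [QuotientGroup.out_eq', QuotientGroup.out_eq'] at e1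
    rw [e1]

variable {S : Finset G}

theorem ball_finite (hS : Subgroup.closure (S : Set G) = ⊤) (r : ℝ) :
    (ball (S : Set G) r).Finite := by
  have h1 : ∀ k : ℕ,
      {l : List G | l.length = k ∧ ∀ s ∈ l, s ∈ (S : Set G) ∨ s⁻¹ ∈ (S : Set G)}.Finite := by
    intro k
    induction k with
    | zero => exact (Set.finite_singleton []).subset fun l hl => List.length_eq_zero_iff.1 hl.1
    | succ k ih =>
      refine ((S.finite_toSet.union S.finite_toSet.inv).image2 List.cons ih).subset ?_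
      rintro (_ | ⟨a, l⟩) ⟨h1, h2⟩
      · simp at h1
      · exact ⟨a, h2 a (by simp), l, ⟨by simpa using h1, fun s hs => h2 s (by simp [hs])⟩, rfl⟩
  refine ((Set.finite_le_nat ⌊r⌋₊).biUnion fun k _ => (h1 k).image List.prod).subset ?_
  intro x hx
  obtain ⟨l, e, hl, rfl⟩ := exists_word hS x
  exact Set.mem_biUnion (x := l.length) (Nat.le_floor (e ▸ hx)) ⟨l, ⟨rfl, hl⟩, rfl⟩

theorem ball_le_index_mul (hS : Subgroup.closure (S : Set G) = ⊤) (Λ : Subgroup G)
    [Λ.FiniteIndex] (r : ℝ) :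
    (ball (S : Set G) r).ncard ≤ Λ.index * (ball (S : Set G) (2 * r) ∩ Λ).ncard := by
  refine ncard_le_index_mul Λ (ball_finite hS _) fun x hx y hy => ?_
  have h1 := wordLength_mul_le hS x⁻¹ y
  rw [wordLength_inv hS] at h1
  have h2 : (wordLength (S : Set G) (x⁻¹ * y) : ℝ) ≤
      wordLength (S : Set G) x + wordLength (S : Set G) y := by exact_mod_cast h1
  have h3 : (wordLength (S : Set G) x : ℝ) ≤ r := hx
  have h4 : (wordLength (S : Set G) y : ℝ) ≤ r := hy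
  change (wordLength (S : Set G) (x⁻¹ * y) : ℝ) ≤ 2 * r
  linarith

theorem index_mul_le_ball (hS : Subgroup.closure (S : Set G) = ⊤) (Λ : Subgroup G) (m : ℕ)
    (hm : Λ.index = 0 ∨ m ≤ Λ.index) : ∃ R₀ : ℝ, ∀ r : ℝ, R₀ ≤ r →
      m * (ball (S : Set G) r ∩ Λ).ncard ≤ (ball (S : Set G) (2 * r)).ncard := by
  obtain ⟨T, rfl, hT⟩ := exists_transversal Λ m hm
  refine ⟨(T.sup (wordLength (S : Set G)) : ℕ), fun r hr => ?_⟩
  refine card_mul_ncard_le Λ T hT (ball_finite hS _) fun t ht b hb => ?_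
  have h2 : (wordLength (S : Set G) (t * b) : ℝ) ≤
      wordLength (S : Set G) t + wordLength (S : Set G) b := by
    exact_mod_cast wordLength_mul_le hS t b
  have h3 : (wordLength (S : Set G) t : ℝ) ≤ (T.sup (wordLength (S : Set G)) : ℕ) := by
    exact_mod_cast Finset.le_sup (f := wordLength (S : Set G)) ht
  have h4 : (wordLength (S : Set G) b : ℝ) ≤ r := hb
  change (wordLength (S : Set G) (t * b) : ℝ) ≤ 2 * r
  linarith

end

variable {n : ℕ} {d : Fin n → ℕ}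

theorem Count_ZB_eq (d : Fin n → ℕ) (r : ℝ) :
    ZB d r = ↑(Fintype.piFinset fun i => Finset.Icc (-⌊r ^ d i⌋) ⌊r ^ d i⌋) := by
  ext v
  simp only [ZB, InBox, Set.mem_ofPred_eq, Finset.mem_coe, Fintype.mem_piFinset, Finset.mem_Icc]
  refine forall_congr' fun i => ?_
  rw [← abs_le, Int.le_floor, Int.cast_abs]

theorem ZB_finite (d : Fin n → ℕ) (r : ℝ) : (ZB d r).Finite := by
  rw [Count_ZB_eq]
  exact Finset.finite_toSet _

theorem ZB_count (d : Fin n → ℕ) {r : ℝ} (hr : 1 ≤ r) :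
    r ^ (∑ i, d i) ≤ (ZB d r).ncard ∧ ((ZB d r).ncard : ℝ) ≤ 3 ^ n * r ^ (∑ i, d i) := by
  have h1 : ∀ x : ℝ, 1 ≤ x → x ≤ ((Finset.Icc (-⌊x⌋) ⌊x⌋).card : ℝ) ∧
      ((Finset.Icc (-⌊x⌋) ⌊x⌋).card : ℝ) ≤ 3 * x := by
    intro x hx
    have h0 : 0 ≤ ⌊x⌋ := Int.floor_nonneg.2 (by linarith)
    have h2 : ((Finset.Icc (-⌊x⌋) ⌊x⌋).card : ℤ) = ⌊x⌋ + 1 - -⌊x⌋ :=
      Int.card_Icc_of_le _ _ (by omega)
    have h3 : ((Finset.Icc (-⌊x⌋) ⌊x⌋).card : ℝ) = (⌊x⌋ : ℝ) + 1 - -(⌊x⌋ : ℝ) := by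
      exact_mod_cast h2
    have h4 := Int.floor_le x
    have h5 := Int.lt_floor_add_one x
    have h6 : (0 : ℝ) ≤ ⌊x⌋ := by exact_mod_cast h0
    rw [h3]
    constructor <;> linarith
  rw [Count_ZB_eq, Set.ncard_coe_finset, Fintype.card_piFinset, Nat.cast_prod,
    ← Finset.prod_pow_eq_pow_sum]
  have h2 : ∀ i, 1 ≤ r ^ d i := fun i => one_le_pow₀ hr
  refine ⟨Finset.prod_le_prod (fun i _ => (zero_le_one.trans (h2 i)))
    fun i _ => (h1 _ (h2 i)).1, ?_⟩
  refine (Finset.prod_le_prod (fun i _ => Nat.cast_nonneg _) fun i _ => (h1 _ (h2 i)).2).trans ?_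
  rw [Finset.prod_mul_distrib, Finset.prod_const, Finset.card_univ, Fintype.card_fin]

theorem Full.finiteIndex {L : Submodule ℤ (Fin n → ℤ)} (hL : Full L) :
    L.toAddSubgroup.FiniteIndex := by
  obtain ⟨N, hN, hL⟩ := hL
  have h1 : Finite ((Fin n → ℤ) ⧸ L) := by
    refine Module.finite_of_fg_torsion _ fun x => ?_
    obtain ⟨v, rfl⟩ := L.mkQ_surjective x
    refine ⟨⟨(N : ℤ), mem_nonZeroDivisors_of_ne_zero (by exact_mod_cast hN.ne')⟩, ?_⟩
    change (N : ℤ) • L.mkQ v = 0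
    rw [← map_smul]
    exact (Submodule.Quotient.mk_eq_zero L).2 (hL v)
  exact @AddSubgroup.finiteIndex_of_finite_quotient _ _ L.toAddSubgroup h1

theorem Count_add_le {A : Type} [AddGroup A] (Λ : AddSubgroup A) [Λ.FiniteIndex] {B B' : Set A}
    (hB' : B'.Finite) (h : ∀ x ∈ B, ∀ y ∈ B, -x + y ∈ B') :
    B.ncard ≤ Λ.index * (B' ∩ Λ).ncard := by
  have : (AddSubgroup.toSubgroup Λ).FiniteIndex :=
    ⟨by rw [AddSubgroup.index_toSubgroup]; exact AddSubgroup.FiniteIndex.index_ne_zero⟩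
  have h1 := ncard_le_index_mul (G := Multiplicative A) (AddSubgroup.toSubgroup Λ)
    (B := B) (B' := B') hB' h
  rwa [AddSubgroup.index_toSubgroup] at h1

theorem Count_add_ge {A : Type} [AddGroup A] (Λ : AddSubgroup A) : ∃ T : Finset A,
    ∀ B B' : Set A, B'.Finite → (∀ t ∈ T, ∀ b ∈ B, t + b ∈ B') →
      Λ.index * (B ∩ Λ).ncard ≤ B'.ncard := by
  obtain ⟨T, h1, hT⟩ := exists_transversal (G := Multiplicative A) (AddSubgroup.toSubgroup Λ) _
    (Or.inr le_rfl)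
  refine ⟨T, fun B B' hB' h => ?_⟩
  have h2 := card_mul_ncard_le (G := Multiplicative A) (AddSubgroup.toSubgroup Λ) T hT
    (B := B) (B' := B') hB' h
  rwa [h1, AddSubgroup.index_toSubgroup] at h2

theorem Count_ZB_add (hd : ∀ i, 1 ≤ d i) {r r' : ℝ} (hr : 0 ≤ r) (hr' : 0 ≤ r') {v w : Fin n → ℤ}
    (hv : v ∈ ZB d r) (hw : w ∈ ZB d r') : v + w ∈ ZB d (r + r') := by
  intro i
  have h1 : |(v i : ℝ)| ≤ r ^ d i := hv i
  have h2 : |(w i : ℝ)| ≤ r' ^ d i := hw i
  have h3 := pow_add_pow_le hr hr' (Nat.one_le_iff_ne_zero.1 (hd i))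
  have h4 := abs_add_le (v i : ℝ) (w i)
  simp only [Pi.add_apply, Int.cast_add]
  linarith

theorem Count_ZB_neg {r : ℝ} {v : Fin n → ℤ} (hv : v ∈ ZB d r) : -v ∈ ZB d r := by
  intro i
  have h1 : |(v i : ℝ)| ≤ r ^ d i := hv i
  simpa using h1

theorem lat_count (hd : ∀ i, 1 ≤ d i) : ∃ C : ℝ, 1 ≤ C ∧ ∀ L : Submodule ℤ (Fin n → ℤ), Full L →
    ∃ R₀ : ℝ, ∀ r : ℝ, R₀ ≤ r →
      r ^ (∑ i, d i) ≤ C * L.toAddSubgroup.index * (ZB d r ∩ L).ncard ∧
      (L.toAddSubgroup.index : ℝ) * (ZB d r ∩ L).ncard ≤ C * r ^ (∑ i, d i) := by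
  have h3 : (1 : ℝ) ≤ 3 ^ n := one_le_pow₀ (by norm_num)
  have h2 : (1 : ℝ) ≤ 2 ^ (∑ i, d i) := one_le_pow₀ (by norm_num)
  refine ⟨3 ^ n * 2 ^ (∑ i, d i), one_le_mul_of_one_le_of_one_le h3 h2, fun L hL => ?_⟩
  have := hL.finiteIndex
  obtain ⟨T, hT⟩ := Count_add_ge L.toAddSubgroup
  refine ⟨2 + ∑ t ∈ T, ∑ i, |(t i : ℝ)|, fun r hr => ?_⟩
  have h0 : 0 ≤ ∑ t ∈ T, ∑ i, |(t i : ℝ)| :=
    Finset.sum_nonneg fun t _ => Finset.sum_nonneg fun i _ => abs_nonneg _
  constructor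
  · have h4 := Count_add_le L.toAddSubgroup (B := ZB d (r / 2)) (ZB_finite d r) fun x hx y hy => by
      have h5 := Count_ZB_add hd (by linarith) (by linarith) (Count_ZB_neg hx) hy
      rwa [add_halves] at h5
    have h5 : ((ZB d (r / 2)).ncard : ℝ) ≤ L.toAddSubgroup.index * (ZB d r ∩ L).ncard := by
      exact_mod_cast h4
    have h6 := (ZB_count d (r := r / 2) (by linarith)).1.trans h5
    rw [div_pow, div_le_iff₀ (by positivity)] at h6
    refine h6.trans ?_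
    have h7 : (0 : ℝ) ≤ L.toAddSubgroup.index * (ZB d r ∩ L).ncard * 2 ^ (∑ i, d i) := by
      positivity
    nlinarith
  · have h4 := hT (ZB d r) (ZB d (2 * r)) (ZB_finite d _) fun t ht b hb => by
      rw [two_mul]
      refine Count_ZB_add hd (by linarith) (by linarith) (fun i => ?_) hb
      have h5 : |(t i : ℝ)| ≤ ∑ i, |(t i : ℝ)| :=
        Finset.single_le_sum (f := fun i => |(t i : ℝ)|) (fun i _ => abs_nonneg _)
          (Finset.mem_univ i)
      have h6 : ∑ i, |(t i : ℝ)| ≤ ∑ t ∈ T, ∑ i, |(t i : ℝ)| :=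
        Finset.single_le_sum (f := fun t : Fin n → ℤ => ∑ i, |(t i : ℝ)|)
          (fun t _ => Finset.sum_nonneg fun i _ => abs_nonneg _) ht
      have h7 : r ≤ r ^ d i := le_self_pow₀ (by linarith) (Nat.one_le_iff_ne_zero.1 (hd i))
      change |(t i : ℝ)| ≤ r ^ d i
      linarith
    have h5 : (L.toAddSubgroup.index : ℝ) * (ZB d r ∩ L).ncard ≤ (ZB d (2 * r)).ncard := by
      exact_mod_cast h4
    refine h5.trans ((ZB_count d (r := 2 * r) (by linarith)).2.trans_eq ?_)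
    rw [mul_pow, mul_assoc]

end Pool.Agent.Work.MP_913e71_al.Pos
end

-- merged part: Pool.Agent.Work.MP_913e71_al.Pos.TypeFD
section
/-! Finite domination for matrices.

PLAN.  `finite_domination` with `σ = Option (Fin n × Fin n)` (`none` is the variable `z`),
`Nm o f = v o (aeval (point of o) f)`.  Let `𝕏` be the matrix of variables.  Pairs:
`(det 𝕏 * z, (adj 𝕏 *ᵥ br s (𝕏.col i) (𝕏.col j)) l)`, and also `(z, 1)` when all `z o = 1`.
`T = {det 𝕏, z}`; `U` = all monomials of total degree at most `n * n` (the polynomial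
`mnr (adj 𝕏 * b) I` has rational coefficients and that degree bound; alternatively `U` = the products
`∏ i, adj 𝕏 (I i) (J i)` for all `m ≤ n`, using `mnr_mul_left`).  The index type is `↥𝒯`, `Gt x` the
matrix of the arc `x`, `e x` the order of `x none`.  When `c x ≠ 0` the minor is nonzero at the arc,
so its order is at least `muW` (`muW_dvd`).  The errors (finitely many `I`, `m` copies of the errors
for `det` and `z`) are merged with `hεa`, `hεm`. -/

namespace Pool.Agent.Work.MP_913e71_al.Pos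

open Matrix Polynomial Module

/-- The matrix of a point. -/
def TypeFD_M {n : ℕ} {B : Type} (x : Option (Fin n × Fin n) → B) : Matrix (Fin n) (Fin n) B :=
  Matrix.of fun i j => x (some (i, j))

/-- The matrix of variables. -/
noncomputable def TypeFD_X (n : ℕ) :
    Matrix (Fin n) (Fin n) (MvPolynomial (Option (Fin n × Fin n)) kk) :=
  TypeFD_M MvPolynomial.X

/-- The minor of the adjugate times `b`, as a polynomial. -/
noncomputable def TypeFD_f {n m : ℕ} (b : Matrix (Fin n) (Fin m) ℚ) (I : Fin m → Fin n) :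
    MvPolynomial (Option (Fin n × Fin n)) kk :=
  ∑ J : Fin m → Fin n, mnr b J • ∏ i, (TypeFD_X n).adjugate (I i) (J i)

section aux

variable {n : ℕ} {B : Type} [CommRing B] [Algebra kk B] (x : Option (Fin n × Fin n) → B)

lemma TypeFD_map :
    (MvPolynomial.aeval x : MvPolynomial _ kk →ₐ[kk] B).mapMatrix (TypeFD_X n) = TypeFD_M x := by
  ext i j
  simp [TypeFD_M, TypeFD_X]

lemma TypeFD_ent (i j : Fin n) : MvPolynomial.aeval x (TypeFD_X n i j) = TypeFD_M x i j := by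
  simp [TypeFD_M, TypeFD_X]

lemma TypeFD_det : MvPolynomial.aeval x (TypeFD_X n).det = (TypeFD_M x).det := by
  rw [AlgHom.map_det, TypeFD_map]

lemma TypeFD_adj (i j : Fin n) :
    MvPolynomial.aeval x ((TypeFD_X n).adjugate i j) = (TypeFD_M x).adjugate i j := by
  rw [← TypeFD_map x, ← AlgHom.map_adjugate]
  rfl

lemma TypeFD_br (s : Fin n → Fin n → Fin n → ℤ) (i j l : Fin n) :
    MvPolynomial.aeval x (((TypeFD_X n).adjugate *ᵥ
      br s ((TypeFD_X n).col i) ((TypeFD_X n).col j)) l) =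
    ((TypeFD_M x).adjugate *ᵥ br s ((TypeFD_M x).col i) ((TypeFD_M x).col j)) l := by
  simp only [mulVec, dotProduct, br, map_sum, map_mul, TypeFD_adj, map_intCast, Matrix.col_apply,
    TypeFD_ent]

lemma TypeFD_mnr {m : ℕ} (b : Matrix (Fin n) (Fin m) ℚ) (I : Fin m → Fin n) :
    MvPolynomial.aeval x (TypeFD_f b I) =
      mnr ((TypeFD_M x).adjugate * b.map fun q => algebraMap kk B (q : kk)) I := by
  rw [mnr_mul_left, TypeFD_f, map_sum]
  refine Finset.sum_congr rfl fun J _ => ?_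
  have h := mnr_map ((algebraMap kk B).comp (Rat.castHom kk)) b J
  have e : b.map ((algebraMap kk B).comp (Rat.castHom kk)) =
      b.map fun q => algebraMap kk B (q : kk) := rfl
  rw [e] at h
  rw [h, FD_smul, map_mul, map_prod, MvPolynomial.aeval_C, mul_comm]
  simp only [TypeFD_adj]
  rfl

end aux

lemma TypeFD_mulε {Ω : Type} {ε : Ω → ℕ → ℝ} (hε0 : ∀ o j, 0 ≤ ε o j)
    (hεa : ∀ a b, ∃ c, ∀ o, ε o a + ε o b ≤ ε o c) (a k : ℕ) : ∃ c, ∀ o, k * ε o a ≤ ε o c := by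
  induction k with
  | zero => exact ⟨0, fun o => by simpa using hε0 o 0⟩
  | succ k ih =>
    obtain ⟨c, hc⟩ := ih
    obtain ⟨d, hd⟩ := hεa c a
    refine ⟨d, fun o => ?_⟩
    have h1 := hc o
    have h2 := hd o
    push_cast
    linarith

lemma TypeFD_three {Ω : Type} {ε : Ω → ℕ → ℝ} (hε0 : ∀ o j, 0 ≤ ε o j)
    (hεa : ∀ a b, ∃ c, ∀ o, ε o a + ε o b ≤ ε o c) (a b d k : ℕ) :
    ∃ c, ∀ o, k * ε o a + k * ε o b + ε o d ≤ ε o c := by
  obtain ⟨c1, h1⟩ := TypeFD_mulε hε0 hεa a k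
  obtain ⟨c2, h2⟩ := TypeFD_mulε hε0 hεa b k
  obtain ⟨c3, h3⟩ := hεa c1 c2
  obtain ⟨c4, h4⟩ := hεa c3 d
  exact ⟨c4, fun o => by linarith [h1 o, h2 o, h3 o, h4 o]⟩

theorem type_fd {n : ℕ} (s : Fin n → Fin n → Fin n → ℤ) {L Ω : Type} [Field L] [Algebra kk L]
    (v : Ω → AbsoluteValue L ℝ) (ε : Ω → ℕ → ℝ) (hε0 : ∀ o j, 0 ≤ ε o j)
    (hεm : ∀ o, Monotone (ε o)) (hεa : ∀ a b, ∃ c, ∀ o, ε o a + ε o b ≤ ε o c) (m₀ : ℕ)
    (hadd : ∀ o x y, v o (x + y) ≤ Real.exp (ε o m₀) * max (v o x) (v o y))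
    (hC : ∀ a : kk, ∃ m, ∀ o, v o (algebraMap kk L a) ≤ Real.exp (ε o m))
    (G : Ω → Matrix (Fin n) (Fin n) L) (z : Ω → L) (hG : ∀ o i j, v o (G o i j) ≤ 1)
    (hz : ∀ o, v o (z o) ≤ 1) (hz0 : ∀ o, z o ≠ 0) (hdet : ∀ o, (G o).det ≠ 0)
    (hLie : ∀ o i j l, v o (((G o).adjugate *ᵥ br s ((G o).col i) ((G o).col j)) l) ≤
      Real.exp (ε o m₀) * v o ((G o).det * z o)) :
    ∃ (T : Type) (_ : Fintype T) (Gt : T → Matrix (Fin n) (Fin n) kk[X]) (e : T → ℕ),
      (∀ t, IsType s (Gt t) (e t)) ∧ ((∀ o, z o = 1) → ∀ t, e t = 0) ∧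
      ∃ (m₁ : ℕ) (mb : (m : ℕ) → Matrix (Fin n) (Fin m) ℚ → ℕ), ∀ o, ∃ c : T → ℝ,
        (∀ t, 0 ≤ c t) ∧
        ∑ t, c t * cost (Gt t) (e t) ≤
          -Real.log (v o (G o).det) + n * Real.log (v o (z o)) + ε o m₁ ∧
        ∀ (m : ℕ) (b : Matrix (Fin n) (Fin m) ℚ) (W : Submodule ℚ (Fin n → ℚ)), IsBas W b →
          ∀ I, mnr ((G o).adjugate * b.map (fun q => algebraMap kk L (q : kk))) I ≠ 0 →
            m * -Real.log (v o (G o).det) +
              Real.log (v o (mnr ((G o).adjugate * b.map (fun q => algebraMap kk L (q : kk))) I)) +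
              m * Real.log (v o (z o)) ≤ ∑ t, c t * Dt (Gt t) (e t) W + ε o (mb m b) := by
  classical
  let pt : Ω → Option (Fin n × Fin n) → L := fun o t => t.elim (z o) fun p => G o p.1 p.2
  have hpt : ∀ o, TypeFD_M (pt o) = G o := fun o => rfl
  let Z : MvPolynomial (Option (Fin n × Fin n)) kk := MvPolynomial.X none
  have hZ : ∀ o, MvPolynomial.aeval (pt o) Z = z o := fun o => MvPolynomial.aeval_X _ _
  have hD : ∀ o, MvPolynomial.aeval (pt o) (TypeFD_X n).det = (G o).det := fun o =>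
    TypeFD_det (pt o)
  have hDZ : ∀ o, MvPolynomial.aeval (pt o) ((TypeFD_X n).det * Z) = (G o).det * z o := fun o => by
    rw [map_mul, hD, hZ]
  have he : ∀ o, 1 ≤ Real.exp (ε o m₀) := fun o => Real.one_le_exp (hε0 o m₀)
  obtain ⟨𝒯, μ, hP, hc⟩ := finite_domination
    (fun o f => v o (MvPolynomial.aeval (pt o) f)) ε hε0 hεm hεa
    (fun o f => (v o).nonneg _) (fun o => by simp) (fun o => by simp)
    (fun o f g => by simp only [map_mul]) m₀ (fun o f g => by rw [map_add]; exact hadd o _ _)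
    (fun a => by simpa only [MvPolynomial.aeval_C] using hC a)
    (fun o t => by
      rw [MvPolynomial.aeval_X]
      cases t with
      | none => exact (hz o).trans (he o)
      | some p => exact (hG o p.1 p.2).trans (he o))
    {(TypeFD_X n).det, Z}
    (Finset.univ.image fun p : Σ m : Fin (n + 1), (Fin m → Fin n) × (Fin m → Fin n) =>
      ∏ i, (TypeFD_X n).adjugate (p.2.1 i) (p.2.2 i))
    (insert ((TypeFD_X n).det * Z, 0) (insert (if ∀ o, z o = 1 then Z else 1, 1)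
      (Finset.univ.image fun p : Fin n × Fin n × Fin n => ((TypeFD_X n).det * Z,
        ((TypeFD_X n).adjugate *ᵥ br s ((TypeFD_X n).col p.1) ((TypeFD_X n).col p.2.1)) p.2.2))))
    (fun o P hP => by
      have h0 : v o (MvPolynomial.aeval (pt o) ((TypeFD_X n).det * Z)) ≠ 0 := by
        rw [hDZ]
        exact (v o).ne_zero (mul_ne_zero (hdet o) (hz0 o))
      simp only [Finset.mem_insert, Finset.mem_image, Finset.mem_univ, true_and] at hP
      rcases hP with rfl | rfl | ⟨p, rfl⟩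
      · refine ⟨h0, ?_⟩
        simp only [map_zero]
        positivity
      · have h1 : MvPolynomial.aeval (pt o) (if ∀ o, z o = 1 then Z else 1) = 1 := by
          split_ifs with h
          · rw [hZ, h]
          · exact map_one _
        simp only [h1, map_one, mul_one]
        exact ⟨one_ne_zero, he o⟩
      · refine ⟨h0, ?_⟩
        simp only [hDZ, TypeFD_br, hpt]
        exact hLie o _ _ _)
  have hxZ : ∀ x : Option (Fin n × Fin n) → kk[X], MvPolynomial.aeval x Z = x none := fun x =>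
    MvPolynomial.aeval_X _ _
  have hne : ∀ x ∈ 𝒯, (TypeFD_M x).det ≠ 0 ∧ x none ≠ 0 := fun x hx => by
    have h := (hP x hx _ (Finset.mem_insert_self _ _)).1
    rw [map_mul, TypeFD_det, hxZ] at h
    exact mul_ne_zero_iff.1 h
  choose m3 hm3 using TypeFD_three hε0 hεa (μ (TypeFD_X n).det) (μ Z)
  obtain ⟨c1, hc1⟩ := TypeFD_mulε hε0 hεa (μ Z) n
  obtain ⟨m₁, hm₁⟩ := hεa (μ (TypeFD_X n).det) c1
  refine ⟨↥𝒯, inferInstance, fun t => TypeFD_M t.1, fun t => (t.1 none).natTrailingDegree,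
    fun t => ⟨(hne t.1 t.2).1, fun i j l => ?_⟩, fun h t => ?_, m₁,
    fun m b => m3 (Finset.univ.sup fun I => μ (TypeFD_f b I)) m, fun o => ?_⟩
  · have h := (hP t.1 t.2 _ (Finset.mem_insert_of_mem (Finset.mem_insert_of_mem
      (Finset.mem_image_of_mem _ (Finset.mem_univ (i, j, l)))))).2
    rw [map_mul, TypeFD_det, hxZ, TypeFD_br,
      natTrailingDegree_mul (hne t.1 t.2).1 (hne t.1 t.2).2] at h
    exact h
  · have h1 := (hP t.1 t.2 _ (Finset.mem_insert_of_mem (Finset.mem_insert_self _ _))).2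
    rw [if_pos h, hxZ, map_one] at h1
    have h2 := Mu_le one_ne_zero h1
    rw [natTrailingDegree_one] at h2
    exact Nat.le_zero.1 h2
  obtain ⟨c, hc0, hcU, hcT⟩ := hc o
  have a1 := hcT _ (Finset.mem_insert_self _ _) (by rw [hD]; exact (v o).ne_zero (hdet o))
  have a2 := hcT Z (Finset.mem_insert_of_mem (Finset.mem_singleton_self _))
    (by rw [hZ]; exact (v o).ne_zero (hz0 o))
  simp only [TypeFD_det, hpt] at a1
  simp only [hxZ, hZ] at a2
  rw [abs_le] at a1 a2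
  refine ⟨fun t => c t.1, fun t => hc0 _, ?_, fun m b W hb I hI => ?_⟩
  · have e1 : ∑ t : ↥𝒯, c t.1 * (cost (TypeFD_M t.1) (t.1 none).natTrailingDegree : ℝ) =
        ∑ x ∈ 𝒯, c x * ((TypeFD_M x).det.natTrailingDegree : ℝ) -
          n * ∑ x ∈ 𝒯, c x * ((x none).natTrailingDegree : ℝ) := by
      rw [Finset.sum_coe_sort 𝒯
        (fun x => c x * (cost (TypeFD_M x) (x none).natTrailingDegree : ℝ)), Finset.mul_sum,
        ← Finset.sum_sub_distrib]
      refine Finset.sum_congr rfl fun x _ => ?_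
      rw [cost]
      push_cast
      ring
    rw [e1]
    have h1 := mul_le_mul_of_nonneg_left a2.1 (Nat.cast_nonneg (α := ℝ) n)
    linarith [hc1 o, hm₁ o, a1.2]
  · have hm : m = finrank ℚ W := by simpa using hb.card_eq
    have hmn : m < n + 1 := by
      have := Mu_rk W
      omega
    have hf : MvPolynomial.aeval (pt o) (TypeFD_f b I) =
        mnr ((G o).adjugate * b.map (fun q => algebraMap kk L (q : kk))) I := TypeFD_mnr _ b I
    obtain ⟨b1, b2⟩ := hcU (TypeFD_f b I)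
      (Submodule.sum_mem _ fun J _ => Submodule.smul_mem _ _ (Submodule.subset_span
        (Finset.mem_coe.2 (Finset.mem_image_of_mem _
          (Finset.mem_univ (⟨⟨m, hmn⟩, I, J⟩ :
            Σ m : Fin (n + 1), (Fin m → Fin n) × (Fin m → Fin n)))))))
      (by rw [hf]; exact (v o).ne_zero hI)
    rw [hf] at b2
    have b3 : ∑ x ∈ 𝒯, c x * (muW (TypeFD_M x).adjugate W : ℝ) ≤
        ∑ x ∈ 𝒯, c x * ((MvPolynomial.aeval x (TypeFD_f b I)).natTrailingDegree : ℝ) := by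
      refine Finset.sum_le_sum fun x hx => ?_
      by_cases h : c x = 0
      · rw [h, zero_mul, zero_mul]
      refine mul_le_mul_of_nonneg_left (Nat.cast_le.2 (Mu_le (b1 x hx h) ?_)) (hc0 x)
      have e : (b.map (algebraMap ℚ kk)).map C = b.map fun q => algebraMap kk kk[X] (q : kk) := by
        ext1 i j
        simp only [Matrix.map_apply, eq_ratCast, Polynomial.algebraMap_eq]
      rw [TypeFD_mnr, ← e]
      exact muW_dvd _ hb I
    have e1 : ∑ t : ↥𝒯, c t.1 * (Dt (TypeFD_M t.1) (t.1 none).natTrailingDegree W : ℝ) =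
        m * ∑ x ∈ 𝒯, c x * ((TypeFD_M x).det.natTrailingDegree : ℝ) -
          ∑ x ∈ 𝒯, c x * (muW (TypeFD_M x).adjugate W : ℝ) -
          m * ∑ x ∈ 𝒯, c x * ((x none).natTrailingDegree : ℝ) := by
      rw [Finset.sum_coe_sort 𝒯
        (fun x => c x * (Dt (TypeFD_M x) (x none).natTrailingDegree W : ℝ)), Finset.mul_sum,
        Finset.mul_sum, ← Finset.sum_sub_distrib, ← Finset.sum_sub_distrib]
      refine Finset.sum_congr rfl fun x _ => ?_
      rw [Dt, ← hm]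
      push_cast
      ring
    rw [e1]
    have h1 := mul_le_mul_of_nonneg_left a1.1 (Nat.cast_nonneg (α := ℝ) m)
    have h2 := mul_le_mul_of_nonneg_left a2.2 (Nat.cast_nonneg (α := ℝ) m)
    have h3 := hm3 (Finset.univ.sup fun I => μ (TypeFD_f b I)) m o
    have h4 := hεm o (Finset.le_sup (f := fun I => μ (TypeFD_f b I)) (Finset.mem_univ I))
    linarith

end Pool.Agent.Work.MP_913e71_al.Pos
end

-- merged part: Pool.Agent.Work.MP_913e71_al.Pos.Abs
section
/-! `p`-adic absolute values on the algebraic numbers.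

PLAN.  Pull back the norm of `PadicAlgCl p` along an embedding `kk → PadicAlgCl p`
(`IsAlgClosed.lift`).  For `a ∈ kk` some positive multiple `m a` is integral over `ℤ`, and integral
elements have absolute value at most one for a nonarchimedean absolute value; `m ∣ m !`. -/

namespace Pool.Agent.Work.MP_913e71_al.Pos

/-- The `p`-adic gauge `v_p (j !) log p`. -/
noncomputable def peps (p : Nat.Primes) (j : ℕ) : ℝ := -Real.log ‖((j.factorial : ℕ) : ℤ_[p])‖

lemma Abs_pos (p : Nat.Primes) {n : ℕ} (h : n ≠ 0) : 0 < ‖(n : ℤ_[p])‖ :=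
  norm_pos_iff.2 (Nat.cast_ne_zero.2 h)

lemma Abs_dvd (p : Nat.Primes) {a b : ℕ} (h : a ∣ b) : ‖(b : ℤ_[p])‖ ≤ ‖(a : ℤ_[p])‖ := by
  obtain ⟨c, rfl⟩ := h
  rw [Nat.cast_mul, norm_mul]
  exact mul_le_of_le_one_right (norm_nonneg _) (PadicInt.norm_le_one _)

lemma peps_nonneg (p : Nat.Primes) (j : ℕ) : 0 ≤ peps p j := by
  exact neg_nonneg.2 (Real.log_nonpos (norm_nonneg _) (PadicInt.norm_le_one _))

lemma peps_mono (p : Nat.Primes) : Monotone (peps p) := by
  exact fun a b h => neg_le_neg (Real.log_le_log (Abs_pos p b.factorial_ne_zero)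
    (Abs_dvd p (Nat.factorial_dvd_factorial h)))

lemma peps_add (p : Nat.Primes) (a b : ℕ) : peps p a + peps p b ≤ peps p (a + b) := by
  have := Real.log_le_log (Abs_pos p (a + b).factorial_ne_zero)
    (Abs_dvd p (Nat.factorial_mul_factorial_dvd_factorial_add a b))
  rw [Nat.cast_mul, norm_mul, Real.log_mul (Abs_pos p a.factorial_ne_zero).ne'
    (Abs_pos p b.factorial_ne_zero).ne'] at this
  unfold peps
  linarith

lemma sum_peps_le (S : Finset Nat.Primes) (j : ℕ) : ∑ p ∈ S, peps p j ≤ Real.log j.factorial := by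
  have := sum_log_norm_le (j.factorial : ℤ) (Nat.cast_ne_zero.2 j.factorial_ne_zero) S
  simp only [Int.cast_natCast, Nat.abs_cast] at this
  exact this

lemma Abs_int (p : Nat.Primes) {x : PadicAlgCl p} (h : IsIntegral ℤ x) : ‖x‖ ≤ 1 := by
  have := (Valuation.integer.integers (Valued.v : Valuation (PadicAlgCl p) NNReal)).mem_of_integral
    h.tower_top
  exact this

lemma Abs_cast (p : Nat.Primes) (z : ℤ) : ‖(z : PadicAlgCl p)‖ = ‖(z : ℤ_[p])‖ := by
  rw [← map_intCast (algebraMap ℚ_[p] (PadicAlgCl p)), norm_algebraMap', PadicInt.norm_def,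
    PadicInt.coe_intCast]

theorem exists_padic_abs : ∃ v : Nat.Primes → AbsoluteValue kk ℝ,
    (∀ p x y, v p (x + y) ≤ max (v p x) (v p y)) ∧
    (∀ (p : Nat.Primes) (z : ℤ), v p (z : kk) = ‖(z : ℤ_[p])‖) ∧
    ∀ a : kk, ∃ m : ℕ, ∀ p, v p a ≤ Real.exp (peps p m) := by
  have : Algebra.IsAlgebraic ℚ kk := AlgebraicClosure.isAlgebraic ℚ
  let φ : ∀ p : Nat.Primes, kk →+* PadicAlgCl p := fun p =>
    (IsAlgClosed.lift : kk →ₐ[ℚ] PadicAlgCl p).toRingHom
  refine ⟨fun p => (NormedField.toAbsoluteValue (PadicAlgCl p)).comp (φ p).injective,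
    fun p x y => ?_, fun p z => ?_, fun a => ?_⟩
  · change ‖φ p (x + y)‖ ≤ max ‖φ p x‖ ‖φ p y‖
    rw [map_add]
    exact PadicAlgCl.isNonarchimedean p _ _
  · change ‖φ p z‖ = _
    rw [map_intCast, Abs_cast]
  obtain ⟨y, hy, hi⟩ :=
    ((IsFractionRing.isAlgebraic_iff ℤ ℚ kk).2 (Kron_int a).isAlgebraic).exists_integral_multiple
  refine ⟨y.natAbs, fun p => ?_⟩
  change ‖φ p a‖ ≤ _
  have h1 := Abs_int p (hi.map (φ p).toIntAlgHom)
  have h2 := Abs_dvd p (Nat.dvd_factorial (Int.natAbs_pos.2 hy) le_rfl)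
  have h3 : ‖((y.natAbs : ℕ) : ℤ_[p])‖ = ‖(y : ℤ_[p])‖ := by
    rcases Int.natAbs_eq y with e | e
    · rw [e, Int.natAbs_natCast, Int.cast_natCast]
    · rw [e, Int.natAbs_neg, Int.natAbs_natCast, Int.cast_neg, Int.cast_natCast, norm_neg]
  rw [map_zsmul, zsmul_eq_mul, norm_mul, Abs_cast, ← h3] at h1
  rw [peps, Real.exp_neg, Real.exp_log (Abs_pos p (Nat.factorial_ne_zero _)), ← one_div,
    le_div_iff₀' (Abs_pos p (Nat.factorial_ne_zero _))]
  exact (mul_le_mul_of_nonneg_right h2 (norm_nonneg _)).trans h1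

end Pool.Agent.Work.MP_913e71_al.Pos
end

-- merged part: Pool.Agent.Work.MP_913e71_al.Pos.Top
section
/-! The starting discs.

PLAN.  `Loc.discs` from the lemmas of `Gauss` and `Loc.nrm_ge` (all `nrm`, `hat` that occur are
positive); `L₀ = N log p`.  `hat f (p ^ a) (a + 1)` lies between `p ^ (-N) hat f 0 a` and
`hat f 0 a`, and `hat f 0 (a + 1) ≤ hat f 0 a ≤ p ^ N hat f 0 (a + 1)`.  The point functions are almost
submodular by `lat_cov`, `cov_submod` and the dimension formula. -/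

namespace Pool.Agent.Work.MP_913e71_al.Pos

open Matrix Polynomial Module

variable {n : ℕ} {s : Fin n → Fin n → Fin n → ℤ}

lemma isDim_finrank (F : Type) [Field F] :
    IsDim (fun W : Submodule F (Fin n → F) => finrank F W) n := by
  exact ⟨fun A B => by rw [add_comm]; exact Submodule.finrank_sup_add_finrank_inf_eq A B,
    Submodule.finrank_strictMono, fun A => Mu_rk A⟩

lemma Top_p1 (D : Loc n s) : (1 : ℝ) < ((D.p : ℕ) : ℝ) := by
  exact_mod_cast D.p.2.one_lt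

lemma Top_log0 (D : Loc n s) : 0 ≤ Real.log (D.p : ℕ) := Real.log_nonneg (Top_p1 D).le

lemma Top_nrm_pos (D : Loc n s) {a : ℕ} (ha : 1 ≤ a) {y : ℤ}
    (hy : y ≡ ((D.p : ℕ) : ℤ) ^ a [ZMOD ((D.p : ℕ) : ℤ) ^ (a + 1)]) (W : Submodule ℚ (Fin n → ℚ)) :
    0 < nrm (D.fam W) y := by
  have := Top_p1 D
  exact lt_of_lt_of_le (by positivity) (D.nrm_ge ha hy W)

lemma Top_hat_pos (D : Loc n s) {a : ℕ} (ha : 1 ≤ a) {y : ℤ}
    (hy : y ≡ ((D.p : ℕ) : ℤ) ^ a [ZMOD ((D.p : ℕ) : ℤ) ^ (a + 1)]) (W : Submodule ℚ (Fin n → ℚ))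
    (ρ : ℕ) : 0 < hat (D.fam W) y ρ :=
  (Top_nrm_pos D ha hy W).trans_le (nrm_le_hat _ (Int.ModEq.refl _))

lemma Top_up {p : ℕ} [Fact p.Prime] {ι : Type} [Fintype ι] (f : ι → ℤ_[p][X]) (a : ℕ) :
    hat f ((p : ℤ) ^ a) (a + 1) ≤ hat f 0 a :=
  hat_mono f (Nat.le_succ a) (Int.modEq_zero_iff_dvd.2 dvd_rfl)

lemma Top_down {p : ℕ} [Fact p.Prime] {ι : Type} [Fintype ι] (f : ι → ℤ_[p][X]) {N : ℕ}
    (hN : N < p) (hf : ∀ I, (f I).natDegree ≤ N) (a : ℕ) :
    hat f 0 a ≤ (p : ℝ) ^ N * hat f ((p : ℤ) ^ a) (a + 1) := by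
  simpa using hat_step f hN hf 0 a 1

lemma Top_log {x y q : ℝ} {k : ℕ} (hx : 0 < x) (hq : 0 < q) (h : x ≤ q ^ k * y) :
    Real.log x ≤ k * Real.log q + Real.log y := by
  have hy : 0 < y := by
    by_contra hy
    have := mul_nonpos_of_nonneg_of_nonpos (pow_pos hq k).le (not_lt.1 hy)
    linarith
  have := Real.log_le_log hx h
  rwa [Real.log_mul (pow_pos hq k).ne' hy.ne', Real.log_pow] at this

lemma Top_rk (W : Submodule ℚ (Fin n → ℚ)) : (finrank ℚ W : ℝ) ≤ n := by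
  exact_mod_cast Mu_rk W

lemma Loc.top_lip (D : Loc n s) {N : ℕ} (hN : N < D.p) (hf : ∀ W I, (D.fam W I).natDegree ≤ N)
    {a : ℕ} (ha : 1 ≤ a) (W : Submodule ℚ (Fin n → ℚ)) :
    |D.top (a + 1) W - D.top a W| ≤ (n * (D.κ + D.e) + 2 * N) * Real.log (D.p : ℕ) := by
  have hp := Top_p1 D
  have hl := Top_log0 D
  have hm := Top_rk W
  have hm0 : (0 : ℝ) ≤ finrank ℚ W := Nat.cast_nonneg _
  have h0 := Top_hat_pos D ha (Int.ModEq.refl _) W (a + 1)
  have h1 := Top_hat_pos D (Nat.le_succ_of_le ha) (Int.ModEq.refl _) W (a + 1 + 1)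
  have e1 : hat (D.fam W) 0 (a + 1) ≤ hat (D.fam W) 0 a :=
    hat_mono _ (Nat.le_succ a) (Int.ModEq.refl _)
  have e2 : hat (D.fam W) 0 a ≤ ((D.p : ℕ) : ℝ) ^ N * hat (D.fam W) 0 (a + 1) := by
    simpa using hat_step (D.fam W) hN (hf W) 0 a 0
  have a1 := Top_log h1 (zero_lt_one.trans hp)
    (((Top_up (D.fam W) (a + 1)).trans e1).trans (Top_down (D.fam W) hN (hf W) a))
  have a2 : hat (D.fam W) (((D.p : ℕ) : ℤ) ^ a) (a + 1) ≤ ((D.p : ℕ) : ℝ) ^ (N + N) *
      hat (D.fam W) (((D.p : ℕ) : ℤ) ^ (a + 1)) (a + 1 + 1) := by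
    rw [pow_add, mul_assoc]
    exact ((Top_up (D.fam W) a).trans e2).trans
      (mul_le_mul_of_nonneg_left (Top_down (D.fam W) hN (hf W) (a + 1)) (by positivity))
  have a3 := Top_log h0 (zero_lt_one.trans hp) a2
  have k0 : (0 : ℝ) ≤ D.κ * Real.log (D.p : ℕ) := by positivity
  have k1 : (0 : ℝ) ≤ D.e * Real.log (D.p : ℕ) := by positivity
  have k2 : (0 : ℝ) ≤ N * Real.log (D.p : ℕ) := by positivity
  have b1 := mul_le_mul_of_nonneg_right hm k0
  have b2 := mul_le_mul_of_nonneg_right hm k1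
  have b3 := mul_nonneg hm0 k0
  have b4 := mul_nonneg hm0 k1
  simp only [Loc.top, Loc.delh]
  push_cast at a3 ⊢
  rw [abs_le]
  constructor <;> nlinarith

lemma Loc.top_le (D : Loc n s) {a : ℕ} (ha : 1 ≤ a) (W : Submodule ℚ (Fin n → ℚ)) {μ : ℕ}
    (h : ∀ I, X ^ μ ∣ D.fam W I) :
    D.top a W ≤ a * (finrank ℚ W * (D.κ : ℝ) - μ - finrank ℚ W * D.e) * Real.log (D.p : ℕ) := by
  have hp := Top_p1 D
  have h0 := Top_hat_pos D ha (Int.ModEq.refl _) W (a + 1)
  have h1 := Real.log_le_log h0 ((Top_up (D.fam W) a).trans (hat_le_of_dvd _ h a))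
  rw [one_div, Real.log_inv, Real.log_pow] at h1
  simp only [Loc.top, Loc.delh]
  push_cast at h1
  linarith

lemma Loc.top_ge (D : Loc n s) {N : ℕ} (hN : N < D.p) (hf : ∀ W I, (D.fam W I).natDegree ≤ N)
    (a : ℕ) (W : Submodule ℚ (Fin n → ℚ)) {μ : ℕ} {I} {x : ℝ}
    (h : ‖(D.fam W I).coeff μ‖ = Real.exp (-x)) :
    a * (finrank ℚ W * (D.κ : ℝ) - μ - finrank ℚ W * D.e) * Real.log (D.p : ℕ) - x -
      N * Real.log (D.p : ℕ) ≤ D.top a W := by
  have hp := Top_p1 D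
  have h1 := (coeff_le_hat (D.fam W) hN (hf W) a μ I).trans (Top_down (D.fam W) hN (hf W) a)
  rw [h] at h1
  have h2 := Top_log (by positivity) (zero_lt_one.trans hp) h1
  rw [Real.log_div (Real.exp_pos _).ne' (by positivity), Real.log_exp, Real.log_pow] at h2
  simp only [Loc.top, Loc.delh]
  push_cast at h2
  linarith

lemma Loc.top_ge' (D : Loc n s) {a : ℕ} (ha : 1 ≤ a) (W : Submodule ℚ (Fin n → ℚ)) :
    -(n * D.e * a * Real.log (D.p : ℕ)) ≤ D.top a W := by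
  have hp := Top_p1 D
  have hl := Top_log0 D
  have h1 := Real.log_le_log (by positivity) ((D.nrm_ge ha (Int.ModEq.refl _) W).trans
    (nrm_le_hat (ρ := a + 1) _ (Int.ModEq.refl _)))
  rw [one_div, Real.log_inv, Real.log_pow] at h1
  have k1 : (0 : ℝ) ≤ D.e * a * Real.log (D.p : ℕ) := by positivity
  have b1 := mul_le_mul_of_nonneg_right (Top_rk W) k1
  simp only [Loc.top, Loc.delh]
  push_cast at h1
  linarith

variable {P : Type} [Fintype P] (D : P → Loc n s)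

lemma Top_discs {N : ℕ} (hN : ∀ π, N < (D π).p) (hf : ∀ π W I, ((D π).fam W I).natDegree ≤ N)
    (a : P → ℕ) (ha : ∀ π, 1 ≤ a π) :
    Discs (Submodule ℚ (Fin n → ℚ)) (fun π => ((D π).p : ℕ)) N
      (∑ π, N * Real.log ((D π).p : ℕ)) (fun π => (((D π).p : ℕ) : ℤ) ^ a π) (fun π => a π + 1)
      (fun π y W => (D π).del (a π) y W) (fun π y ρ W => (D π).delh (a π) y ρ W) := by
  refine ⟨fun π y y' ρ W hρ hy hy' => ?_, fun π y ρ W hρ hy => ?_, fun π y ρ W j hρ hy => ?_,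
    fun π => ⟨n * (D π).κ * a π, fun y W hy ρ hρ => ?_⟩⟩
  · have h1 := (hy'.of_dvd (pow_dvd_pow _ hρ)).trans hy
    have h2 := Real.log_le_log (Top_nrm_pos (D π) (ha π) h1 W) (nrm_le_hat _ hy')
    simp only [Loc.del, Loc.delh]
    linarith
  · obtain ⟨bad, hb, h⟩ := hat_good ((D π).fam W) (hN π) (hf π W) y ρ
    refine ⟨bad, hb, fun j hj hjb z => ?_⟩
    simp only [Loc.del, Loc.delh]
    rw [h j hj hjb z]
  · have h1 := Top_log (Top_hat_pos (D π) (ha π) hy W ρ) (zero_lt_one.trans (Top_p1 (D π)))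
      (hat_step ((D π).fam W) (hN π) (hf π W) y ρ j)
    have h2 : N * Real.log ((D π).p : ℕ) ≤ ∑ π, N * Real.log ((D π).p : ℕ) :=
      Finset.single_le_sum (f := fun π => N * Real.log ((D π).p : ℕ))
        (fun π _ => mul_nonneg (Nat.cast_nonneg _) (Top_log0 (D π))) (Finset.mem_univ π)
    simp only [Loc.delh]
    linarith
  · have hp := Top_p1 (D π)
    have h1 : finrank ℚ W * (D π).κ * a π ≤ ρ :=
      (Nat.mul_le_mul_right _ (Nat.mul_le_mul_right _ (Mu_rk W))).trans hρ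
    have h2 : 1 / (((D π).p : ℕ) : ℝ) ^ ρ ≤ nrm ((D π).fam W) y :=
      (one_div_le_one_div_of_le (by positivity) (pow_le_pow_right₀ hp.le h1)).trans
        ((D π).nrm_ge (ha π) hy W)
    have h3 := Real.log_le_log (Top_hat_pos (D π) (ha π) hy W ρ) (hat_term _ h2)
    simp only [Loc.del, Loc.delh]
    linarith

lemma Top_point (hinj : Function.Injective fun π => (D π).p) (d : Fin n → ℕ) {r : ℝ} (hr : 0 < r)
    (a : P → ℕ) (ha : ∀ π, 1 ≤ a π) (y : P → ℤ)
    (hy : ∀ π, y π ≡ (((D π).p : ℕ) : ℤ) ^ a π [ZMOD (((D π).p : ℕ) : ℤ) ^ (a π + 1)]) :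
    ASub (Real.log (2 * n).factorial)
      fun W => Real.log (cov d r (LW ⊤ W)) + ∑ π, (D π).del (a π) (y π) W := by
  intro A B
  simp only [← lat_cov D a y hinj ha hy d hr]
  have c := fun W => cov_pos d hr (LW (lat D y) W)
  have f0 : (0 : ℝ) < (2 * n).factorial := by exact_mod_cast Nat.factorial_pos _
  have h1 := Real.log_le_log (mul_pos (c _) (c _)) (cov_submod d hr (lat_full D a y ha hy) A B)
  rw [Real.log_mul (c _).ne' (c _).ne', Real.log_mul f0.ne' (mul_pos (c _) (c _)).ne',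
    Real.log_mul (c _).ne' (c _).ne'] at h1
  have h2 : (finrank ℚ (A ⊓ B :) : ℝ) + finrank ℚ (A ⊔ B :) = finrank ℚ A + finrank ℚ B := by
    exact_mod_cast (isDim_finrank ℚ).modular A B
  generalize Real.log (∏ π, ((D π).p : ℕ) ^ ((D π).e * a π) : ℕ) = q
  have h3 : (finrank ℚ (A ⊓ B :) : ℝ) * q + finrank ℚ (A ⊔ B :) * q =
      finrank ℚ A * q + finrank ℚ B * q := by rw [← add_mul, h2, add_mul]
  linarith

lemma top_asub (hinj : Function.Injective fun π => (D π).p) {N : ℕ}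
    (hN : ∀ π, (n + 2) * N < (D π).p) (hf : ∀ π W I, ((D π).fam W I).natDegree ≤ N)
    (d : Fin n → ℕ) {r : ℝ} (hr : 0 < r) (a : P → ℕ) (ha : ∀ π, 1 ≤ a π) :
    ASub (Real.log (2 * n).factorial)
      fun W => Real.log (cov d r (LW ⊤ W)) + ∑ π, (D π).top (a π) W := by
  have h1 : ∀ π, N < (D π).p := fun π => lt_of_le_of_lt (by nlinarith) (hN π)
  have h2 : ∀ π, 2 * N < (D π).p := fun π => lt_of_le_of_lt (by nlinarith) (hN π)
  exact (Top_discs D h1 hf a ha).asub h2 _ (Top_point D hinj d hr a ha) _ _ (fun _ => le_rfl)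
    fun _ => Int.ModEq.refl _

theorem top_descent (hinj : Function.Injective fun π => (D π).p) {N : ℕ}
    (hN : ∀ π, (n + 2) * N < (D π).p) (hf : ∀ π W I, ((D π).fam W I).natDegree ≤ N) (C : ℝ) :
    ∃ C' : ℝ, ∀ (d : Fin n → ℕ) (r : ℝ), 0 < r → ∀ a : P → ℕ, (∀ π, 1 ≤ a π) →
      (∀ W, -C ≤ Real.log (cov d r (LW ⊤ W)) + ∑ π, (D π).top (a π) W) →
      ∃ y : P → ℤ,
        (∀ π, y π ≡ (((D π).p : ℕ) : ℤ) ^ a π [ZMOD (((D π).p : ℕ) : ℤ) ^ (a π + 1)]) ∧
        ∀ W, -C' ≤ Real.log (cov d r (LW ⊤ W)) + ∑ π, (D π).del (a π) (y π) W := by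
  have h1 : ∀ π, N < (D π).p := fun π => lt_of_le_of_lt (by nlinarith) (hN π)
  have hE : 0 ≤ Real.log (2 * n).factorial := Real.log_natCast_nonneg _
  have hL : 0 ≤ ∑ π, N * Real.log ((D π).p : ℕ) :=
    Finset.sum_nonneg fun π _ => mul_nonneg (Nat.cast_nonneg _) (Top_log0 (D π))
  set L := Real.log (2 * n).factorial + ∑ π, N * Real.log ((D π).p : ℕ) with hLd
  have hL0 : 0 ≤ L := add_nonneg hE hL
  refine ⟨C + L * (n : ℝ) ^ 2, fun d r hr a ha h => ?_⟩
  obtain ⟨y, hy, h2⟩ := (Top_discs D h1 hf a ha).descent (isDim_finrank ℚ) hN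
    (fun W => Real.log (cov d r (LW ⊤ W))) (L := L) (m := -(C + L * (n : ℝ) ^ 2))
    (Top_point D hinj d hr a ha) hL0 (by linarith) fun W => by
      have h3 := mul_le_mul_of_nonneg_left
        (pow_le_pow_left₀ (Nat.cast_nonneg _) (Top_rk W) 2) hL0
      have h4 := h W
      simp only [Loc.top] at h4
      linarith
  refine ⟨y, hy, fun W => ?_⟩
  have h3 := h2 W
  have h4 : 0 ≤ L * (finrank ℚ W : ℝ) ^ 2 := by positivity
  linarith

end Pool.Agent.Work.MP_913e71_al.Pos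
end

-- merged part: Pool.Agent.Work.MP_913e71_al.Pos.Split
section
/-! Rings of algebraic integers with many maps to rings of `p`-adic integers.

PLAN.  `F` = the number field generated by the `α j`, `O` the image of `𝓞 F` in `kk` (or the
integral closure of `ℤ` in `F`).  Primes: take a primitive element `θ`, integral, with minimal
polynomial `g ∈ ℤ[X]`; `g` is separable, so `a g + b g' = Δ ≠ 0` with `a, b ∈ ℤ[X]`.  Schur: infinitely
many primes divide a value of `g` (if `g 0 = c ≠ 0`, `g (c m x) = c (1 + m x …)`; degree one and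
`c = 0` apart).  For `p ∤ Δ` Hensel (`hensels_lemma`) gives a root in `ℤ_[p]`, hence `F → ℚ_[p]`
(`PowerBasis.lift` or `AdjoinRoot.lift`), and integral elements land in `ℤ_[p]`.  Norms: for an
integral basis, the matrix of multiplication by `∑ n j • β j` is `∑ n j • M j`; its determinant `N`
is nonzero, bounded by `C H ^ e`, and divisible by the element (adjugate, or `Ideal.absNorm_mem`). -/

namespace Pool.Agent.Work.MP_913e71_al.Pos

open Polynomial in
theorem Split_clear (u : ℚ[X]) : ∃ (a : ℤ[X]) (b : ℤ), b ≠ 0 ∧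
    a.map (Int.castRingHom ℚ) = C (b : ℚ) * u := by
  obtain ⟨b, hb, e⟩ := IsLocalization.integerNormalization_spec (nonZeroDivisors ℤ) u
  refine ⟨_, b, nonZeroDivisors.ne_zero hb, e.trans ?_⟩
  rw [zsmul_eq_mul, map_intCast]

open Polynomial in
theorem Split_bez (g : ℤ[X]) (hs : (g.map (Int.castRingHom ℚ)).Separable) :
    ∃ (a b : ℤ[X]) (Δ : ℤ), Δ ≠ 0 ∧ a * g + b * derivative g = C Δ := by
  obtain ⟨u, v, h⟩ := hs
  obtain ⟨a, m, hm, ha⟩ := Split_clear u
  obtain ⟨b, n, hn, hb⟩ := Split_clear v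
  refine ⟨C n * a, C m * b, m * n, mul_ne_zero hm hn,
    map_injective (Int.castRingHom ℚ) Int.cast_injective ?_⟩
  rw [derivative_map] at h
  simp only [Polynomial.map_add, Polynomial.map_mul, ha, hb, eq_intCast, Int.cast_mul,
    Polynomial.map_intCast, map_intCast]
  linear_combination ((m : ℚ[X]) * (n : ℚ[X])) * h

open Polynomial in
theorem Split_schur (g : ℤ[X]) (hg : 0 < g.natDegree) (h0 : g.eval 0 ≠ 0) {n : ℤ} (hn : n ≠ 0) :
    ∃ (p : ℕ) (y : ℤ), p.Prime ∧ ¬(p : ℤ) ∣ n ∧ (p : ℤ) ∣ g.eval y := by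
  have h1 : g ^ 2 - C (g.eval 0 ^ 2) ≠ 0 := fun h => by
    have := congrArg natDegree (sub_eq_zero.mp h)
    rw [natDegree_pow, natDegree_C] at this
    omega
  obtain ⟨_, ⟨x, rfl⟩, hx⟩ := (Set.infinite_range_of_injective
    (mul_right_injective₀ (mul_ne_zero h0 hn))).exists_notMem_finite (finite_setOfPred_isRoot h1)
  obtain ⟨k, hk⟩ := sub_dvd_eval_sub (g.eval 0 * n * x) 0 g
  have e : g.eval (g.eval 0 * n * x) = g.eval 0 * (1 + n * x * k) := by linear_combination hk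
  have h2 : (1 + n * x * k).natAbs ≠ 1 := fun h => hx <| by
    simp only [Set.mem_ofPred_eq, IsRoot.def, eval_sub, eval_pow, eval_C, e]
    rw [mul_pow, ← Int.natAbs_sq (1 + n * x * k), h]
    simp
  obtain ⟨p, hp, hd⟩ := Nat.exists_prime_and_dvd h2
  have hd' := Int.natCast_dvd.mpr hd
  refine ⟨p, _, hp, fun h => hp.one_lt.ne' ?_, e ▸ hd'.mul_left _⟩
  exact Int.natCast_dvd_ofNat.mp ((dvd_add_left ((h.mul_right x).mul_right k)).mp hd') |>
    Nat.dvd_one.mp

theorem exists_root_padic (g : Polynomial ℤ) (hg : 0 < g.natDegree)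
    (hs : (g.map (Int.castRingHom ℚ)).Separable) (M : ℕ) :
    ∃ (p : ℕ) (_ : Fact p.Prime), M < p ∧ ∃ x : ℤ_[p], Polynomial.aeval x g = 0 := by
  by_cases h0 : g.eval 0 = 0
  · obtain ⟨p, h1, hp⟩ := Nat.exists_infinite_primes (M + 1)
    refine ⟨p, ⟨hp⟩, h1, algebraMap ℤ _ 0, ?_⟩
    rw [Polynomial.aeval_algebraMap_apply_eq_algebraMap_eval, h0, map_zero]
  obtain ⟨a, b, Δ, hΔ, e⟩ := Split_bez g hs
  obtain ⟨p, y, hp, h1, h2⟩ := Split_schur g hg h0
    (mul_ne_zero hΔ (Int.natCast_ne_zero.mpr M.factorial_ne_zero))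
  have : Fact p.Prime := ⟨hp⟩
  refine ⟨p, this, lt_of_not_ge fun h => h1 ?_, ?_⟩
  · exact (Int.natCast_dvd_natCast.mpr (Nat.dvd_factorial hp.pos h)).mul_left _
  have h3 : ¬(p : ℤ) ∣ g.derivative.eval y := fun h => h1 <| by
    have := congrArg (Polynomial.eval y) e
    rw [Polynomial.eval_add, Polynomial.eval_mul, Polynomial.eval_mul, Polynomial.eval_C] at this
    exact (this ▸ (h2.mul_left _).add (h.mul_left _)).mul_right _
  have h4 : ‖g.aeval (algebraMap ℤ ℤ_[p] y)‖ < ‖g.derivative.aeval (algebraMap ℤ ℤ_[p] y)‖ ^ 2 := by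
    rw [Polynomial.aeval_algebraMap_apply_eq_algebraMap_eval,
      Polynomial.aeval_algebraMap_apply_eq_algebraMap_eval, eq_intCast, eq_intCast,
      le_antisymm (PadicInt.norm_le_one _)
        (not_lt.mp fun h => h3 ((PadicInt.norm_int_lt_one_iff_dvd _).mp h)), one_pow]
    exact (PadicInt.norm_int_lt_one_iff_dvd _).mpr h2
  obtain ⟨z, hz, -⟩ := hensels_lemma h4
  exact ⟨z, hz⟩

open Polynomial in
theorem Split_hom (F : Type) [Field F] [NumberField F] (M : ℕ) :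
    ∃ (p : ℕ) (_ : Fact p.Prime), M < p ∧ Nonempty (F →+* ℚ_[p]) := by
  let pb := Field.powerBasisOfFiniteOfSeparable ℚ F
  obtain ⟨g, b, hb, e⟩ := Split_clear (minpoly ℚ pb.gen)
  have hb' : (b : ℚ) ≠ 0 := Int.cast_ne_zero.mpr hb
  obtain ⟨p, hp, h1, x, hx⟩ := exists_root_padic g
    (by
      rw [← natDegree_map_eq_of_injective (f := Int.castRingHom ℚ) Int.cast_injective, e,
        natDegree_C_mul hb']
      exact minpoly.natDegree_pos pb.isIntegral_gen)
    (e ▸ Separable.unit_mul (isUnit_C.mpr hb'.isUnit) (Algebra.IsSeparable.isSeparable ℚ pb.gen)) M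
  refine ⟨p, hp, h1, ⟨(pb.lift (x : ℚ_[p]) ?_).toRingHom⟩⟩
  have h2 : aeval (x : ℚ_[p]) (g.map (algebraMap ℤ ℚ)) = 0 := by
    rw [aeval_map_algebraMap]
    exact (aeval_algebraMap_apply ℚ_[p] x g).trans (by rw [hx, map_zero])
  rw [show algebraMap ℤ ℚ = Int.castRingHom ℚ from rfl, e, map_mul, aeval_C] at h2
  exact (mul_eq_zero.mp h2).resolve_left ((_root_.map_ne_zero _).mpr hb')

theorem Split_norm {F : Type} [Field F] [NumberField F] (ι : F →+* kk) (x : F)
    (hx : IsIntegral ℤ x) (h0 : x ≠ 0) : ∃ N : ℤ, N ≠ 0 ∧ (N : ℂ) = ∏ σ : F →ₐ[ℚ] ℂ, σ x ∧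
      IsIntegral ℤ ((N : kk) / ι x) := by
  classical
  obtain ⟨N, hN⟩ := IsIntegrallyClosed.isIntegral_iff.mp (Algebra.isIntegral_norm ℚ hx)
  rw [eq_intCast] at hN
  refine ⟨N, fun h => Algebra.norm_ne_zero_iff.mpr h0 (by rw [← hN, h, Int.cast_zero]), ?_, ?_⟩
  · rw [← Algebra.norm_eq_prod_embeddings, ← hN, map_intCast]
  · have e := Algebra.norm_eq_prod_embeddings ℚ kk x
    rw [← hN, map_intCast] at e
    rw [e.trans (Finset.mul_prod_erase _ _ (Finset.mem_univ ι.toRatAlgHom)).symm,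
      RingHom.toRatAlgHom_apply, mul_div_cancel_left₀ _ ((map_ne_zero ι).mpr h0)]
    exact IsIntegral.prod _ fun σ _ => map_isIntegral_int σ hx

theorem exists_split {J : Type} [Fintype J] (α : J → kk) :
    ∃ (O : Subring kk) (N₀ : ℕ), 0 < N₀ ∧ (∀ j, (N₀ : kk) * α j ∈ O) ∧
      (∀ M : ℕ, ∃ (p : ℕ) (_ : Fact p.Prime), M < p ∧ Nonempty (O →+* ℤ_[p])) ∧
      ∀ (J' : Type) [Fintype J'] (β : J' → O), ∃ (C : ℝ) (e : ℕ), 1 ≤ C ∧
        ∀ (m : J' → ℤ) (H : ℝ), 1 ≤ H → (∀ j, |(m j : ℝ)| ≤ H) → ∑ j, m j • β j ≠ 0 →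
          ∃ N : ℤ, N ≠ 0 ∧ |(N : ℝ)| ≤ C * H ^ e ∧ ∑ j, m j • β j ∣ (N : O) := by
  classical
  set F := IntermediateField.adjoin ℚ (Set.range α) with hF
  have hfd : FiniteDimensional ℚ F :=
    IntermediateField.finiteDimensional_adjoin fun x _ => Kron_int x
  have : NumberField F := ⟨⟩
  have hint : ∀ x : F, IsIntegral ℤ (x : kk) → IsIntegral ℤ x := fun x h =>
    (isIntegral_algHom_iff (F.val.restrictScalars ℤ) Subtype.val_injective).mp h
  obtain ⟨y, hy, hy'⟩ := exists_integral_multiples ℤ ℚ (L := F)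
    (Finset.univ.image fun j => ⟨α j, IntermediateField.subset_adjoin _ _ ⟨j, rfl⟩⟩)
  refine ⟨F.toSubring ⊓ (integralClosure ℤ kk).toSubring, (y * y).toNat, ?_, fun j => ?_,
    fun M => ?_, fun J' _ β => ?_⟩
  · exact Int.lt_toNat.mpr (mul_self_pos.mpr hy)
  · have hj : α j ∈ F := IntermediateField.subset_adjoin _ _ ⟨j, rfl⟩
    refine ⟨F.mul_mem (natCast_mem F _) hj, ?_⟩
    have h1 := map_isIntegral_int F.val (hy' _ (Finset.mem_image_of_mem _ (Finset.mem_univ j)))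
    rw [← Int.cast_natCast, Int.toNat_of_nonneg (mul_self_nonneg y), Int.cast_mul, mul_assoc]
    refine IsIntegral.mul isIntegral_algebraMap ?_
    rwa [map_zsmul, zsmul_eq_mul] at h1
  · obtain ⟨p, hp, h1, ⟨φ⟩⟩ := Split_hom F M
    refine ⟨p, hp, h1, ⟨RingHom.codRestrict (φ.comp (Subring.inclusion inf_le_left))
      (PadicInt.subring p) fun x => ?_⟩⟩
    have h2 : IsIntegral ℤ_[p] (φ ⟨x, x.2.1⟩) :=
      (map_isIntegral_int φ (hint ⟨x, x.2.1⟩ x.2.2)).tower_top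
    obtain ⟨w, hw⟩ := IsIntegrallyClosed.isIntegral_iff.mp h2
    exact hw ▸ w.2
  · set b : J' → F := fun j => ⟨β j, (β j).2.1⟩ with hb
    refine ⟨1 + ∏ σ : F →ₐ[ℚ] ℂ, ∑ j, ‖σ (b j)‖, Fintype.card (F →ₐ[ℚ] ℂ),
      le_add_of_nonneg_right (by positivity), fun m H hH hm h0 => ?_⟩
    set u := ∑ j, m j • β j with hu
    have e : ((∑ j, m j • b j : F) : kk) = u := by simp [hu, hb]
    have hu0 : (u : kk) ≠ 0 := ZeroMemClass.coe_eq_zero.not.mpr h0
    obtain ⟨N, h1, h2, h3⟩ := Split_norm (algebraMap F kk) (∑ j, m j • b j) (hint _ (e ▸ u.2.2))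
      fun h => hu0 (by rw [← e, h]; rfl)
    rw [IntermediateField.algebraMap_apply, e] at h3
    refine ⟨N, h1, ?_, ⟨⟨(N : kk) / u, F.div_mem (intCast_mem F N) u.2.1, h3⟩, Subtype.ext ?_⟩⟩
    · rw [← Complex.norm_intCast, h2, norm_prod]
      refine (Finset.prod_le_prod (fun σ _ => norm_nonneg _) (g := fun σ => (∑ j, ‖σ (b j)‖) * H)
        fun σ _ => ?_).trans ?_
      · rw [map_sum, Finset.sum_mul]
        refine norm_sum_le_of_le _ fun j _ => ?_
        rw [map_zsmul, zsmul_eq_mul, norm_mul, Complex.norm_intCast, mul_comm]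
        exact mul_le_mul_of_nonneg_left (hm j) (norm_nonneg _)
      · rw [Finset.prod_mul_distrib, Finset.prod_const, Finset.card_univ]
        exact mul_le_mul_of_nonneg_right (le_add_of_nonneg_left zero_le_one) (by positivity)
    · exact (mul_div_cancel₀ (N : kk) hu0).symm

end Pool.Agent.Work.MP_913e71_al.Pos
end

-- merged part: Pool.Agent.Work.MP_913e71_al.Pos.LocFam
section
/-! Specialising a finite family of types at many primes.

PLAN.  `exists_split` for all the coefficients of the `G t`: `N₀ • G t` is the image of a matrix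
`G' t` over `O[X]`; `det G' = X ^ κ u` and the divisibility in `IsType` hold over `O` (the low
coefficients vanish since `O → kk` is injective), `u.coeff 0 ≠ 0` divides a nonzero integer, so it
maps to a unit for large `p`.  Choose the primes one after the other, all different and large.
`N` bounds the degrees of the minors (`n` times the largest degree of an entry of `adj G'`).  For `W`
with `b = zbas (LW ⊤ W)` (`IsBas.rat`, `muW_dvd`, `muW_exists`; the minors over `O` map to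
`N₀ ^ ((n - 1) m)` times the minors over `kk`) take `I` with order `μ = muW`; by `mnr_mul_left` the
coefficient of `X ^ μ` is `∑ J, mnr b J • β J` with `β` depending only on `(t, m, I, μ)`, finitely
many possibilities (`m ≤ n`, `μ ≤ n κ`); `abs_mnr_le_Ht`; it divides a nonzero integer `N'` of size at
most `C Ht ^ e`, so its image has norm at least `‖N'‖`; `sum_log_norm_le`. -/

namespace Pool.Agent.Work.MP_913e71_al.Pos

open Matrix Polynomial Module

section
variable {n : ℕ} {s : Fin n → Fin n → Fin n → ℤ} {R S ι : Type} [CommRing R] [CommRing S]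
  [Fintype ι] [DecidableEq ι]

lemma LocFam_adj (f : R →+* S) (A : Matrix (Fin n) (Fin n) R) :
    A.adjugate.map f = (A.map f).adjugate := f.map_adjugate A

lemma LocFam_lie (f : R →+* S) (A : Matrix (Fin n) (Fin n) R) (i j l : Fin n) :
    f ((A.adjugate *ᵥ br s (A.col i) (A.col j)) l) =
      ((A.map f).adjugate *ᵥ br s ((A.map f).col i) ((A.map f).col j)) l := by
  rw [f.map_mulVec, LocFam_adj]
  congr 1
  funext k
  simp [br]

lemma LocFam_lie_smul (c : R) (A : Matrix (Fin n) (Fin n) R) (i j l : Fin n) :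
    ((c • A).adjugate *ᵥ br s ((c • A).col i) ((c • A).col j)) l =
      c ^ (n - 1) * c ^ 2 * (A.adjugate *ᵥ br s (A.col i) (A.col j)) l := by
  have h : br s ((c • A).col i) ((c • A).col j) = c ^ 2 • br s (A.col i) (A.col j) := by
    funext k
    simp only [br, Matrix.col_apply, Matrix.smul_apply, smul_eq_mul, Pi.smul_apply, Finset.mul_sum]
    refine Finset.sum_congr rfl fun _ _ => Finset.sum_congr rfl fun _ _ => ?_
    ring
  rw [h, adjugate_smul, Matrix.mulVec_smul, Matrix.smul_mulVec, Fintype.card_fin]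
  simp only [Pi.smul_apply, smul_eq_mul]
  ring

lemma LocFam_fam (f : R →+* S) (A : Matrix (Fin n) (Fin n) R) (b : Matrix (Fin n) ι ℤ)
    (I : ι → Fin n) : f (mnr (A.adjugate * b.map (Int.cast : ℤ → R)) I) =
      mnr ((A.map f).adjugate * b.map (Int.cast : ℤ → S)) I := by
  rw [← mnr_map, Matrix.map_mul, LocFam_adj]
  congr 2
  ext i j
  simp

lemma LocFam_exp (A : Matrix (Fin n) (Fin n) R) (b : Matrix (Fin n) ι ℤ) (I : ι → Fin n) :
    mnr (A * b.map (Int.cast : ℤ → R)) I = ∑ J : ι → Fin n, mnr b J • ∏ i, A (I i) (J i) := by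
  rw [mnr_mul_left]
  refine Finset.sum_congr rfl fun J _ => ?_
  rw [Cov_cast, zsmul_eq_mul, mul_comm]

lemma LocFam_deg (A : Matrix (Fin n) (Fin n) R[X]) {d : ℕ} (h : ∀ i j, (A i j).natDegree ≤ d)
    (b : Matrix (Fin n) ι ℤ) (I : ι → Fin n) :
    (mnr (A * b.map (Int.cast : ℤ → R[X])) I).natDegree ≤ Fintype.card ι * d := by
  rw [LocFam_exp]
  refine natDegree_sum_le_of_forall_le _ _ fun J _ => (natDegree_smul_le _ _).trans
    ((natDegree_prod_le _ _).trans ?_)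
  simpa using Finset.sum_le_card_nsmul Finset.univ (fun i => (A (I i) (J i)).natDegree) d
    fun i _ => h _ _

lemma LocFam_dvd {f : R →+* S} (hf : Function.Injective f) {k : ℕ} {q : R[X]}
    (h : X ^ k ∣ q.map f) : X ^ k ∣ q := by
  rw [← map_dvd_map f hf (monic_X_pow k)]
  simpa using h

lemma LocFam_norm {p : ℕ} [Fact p.Prime] (ψ : R →+* ℤ_[p]) {x : R} {N : ℤ} (h : x ∣ (N : R)) :
    ‖(N : ℤ_[p])‖ ≤ ‖ψ x‖ := by
  obtain ⟨c, hc⟩ := h
  have h1 : (N : ℤ_[p]) = ψ x * ψ c := by rw [← map_mul, ← hc, map_intCast]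
  rw [h1, norm_mul]
  exact mul_le_of_le_one_right (norm_nonneg _) (PadicInt.norm_le_one _)

lemma LocFam_bdd {T : Type} [Finite T] (f : T → Fin n → Fin n → ℕ) :
    ∃ d : ℕ, ∀ t i j, f t i j ≤ d := by
  obtain ⟨d, hd⟩ := (Set.finite_range fun x : T × Fin n × Fin n => f x.1 x.2.1 x.2.2).bddAbove
  exact ⟨d, fun t i j => hd ⟨(t, i, j), rfl⟩⟩

lemma LocFam_bddR {T : Type} [Fintype T] (c : T → (m : ℕ) → (Fin m → Fin n) → ℕ → ℝ)
    (h : ∀ t m I μ, 0 ≤ c t m I μ) (B : ℕ) :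
    ∃ C₀ : ℝ, 0 ≤ C₀ ∧ ∀ t, ∀ m ≤ n, ∀ I, ∀ μ ≤ B, c t m I μ ≤ C₀ := by
  have p1 : ∀ t m I, 0 ≤ ∑ μ ∈ Finset.range (B + 1), c t m I μ := fun t m I =>
    Finset.sum_nonneg fun _ _ => h _ _ _ _
  have p2 : ∀ t m, 0 ≤ ∑ I, ∑ μ ∈ Finset.range (B + 1), c t m I μ := fun t m =>
    Finset.sum_nonneg fun _ _ => p1 _ _ _
  have p3 : ∀ t, 0 ≤ ∑ m ∈ Finset.range (n + 1), ∑ I, ∑ μ ∈ Finset.range (B + 1), c t m I μ :=
    fun t => Finset.sum_nonneg fun _ _ => p2 _ _
  refine ⟨∑ t, ∑ m ∈ Finset.range (n + 1), ∑ I, ∑ μ ∈ Finset.range (B + 1), c t m I μ,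
    Finset.sum_nonneg fun _ _ => p3 _, fun t m hm I μ hμ => ?_⟩
  exact (Finset.single_le_sum (fun x _ => h t m I x)
    (Finset.mem_range.2 (Nat.lt_succ_of_le hμ))).trans
    ((Finset.single_le_sum (fun x _ => p1 t m x) (Finset.mem_univ I)).trans
      ((Finset.single_le_sum (fun x _ => p2 t x) (Finset.mem_range.2 (Nat.lt_succ_of_le hm))).trans
        (Finset.single_le_sum (fun x _ => p3 x) (Finset.mem_univ t))))

lemma LocFam_rk (W : Submodule ℚ (Fin n → ℚ)) : finrank ℤ (LW ⊤ W) ≤ n := by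
  have h := ((isBas_zbas (LW ⊤ W)).rat full_top).card_eq
  rw [Fintype.card_fin] at h
  exact h.trans_le (Mu_rk W)

lemma LocFam_primes {P : Type} [Fintype P] (O : Subring kk) (B : ℕ)
    (h : ∀ M : ℕ, ∃ (p : ℕ) (_ : Fact p.Prime), M < p ∧ Nonempty (O →+* ℤ_[p])) :
    ∃ q : P → Nat.Primes, Function.Injective q ∧
      ∀ π, B < (q π : ℕ) ∧ Nonempty (O →+* ℤ_[q π]) := by
  have h1 : {p : Nat.Primes | B < (p : ℕ) ∧ Nonempty (O →+* ℤ_[p])}.Infinite := by
    refine Set.Infinite.of_image Subtype.val (Set.infinite_of_forall_exists_gt fun a => ?_)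
    obtain ⟨p, hp, h1, h2⟩ := h (max a B)
    exact ⟨p, ⟨⟨p, hp.out⟩, ⟨(le_max_right _ _).trans_lt h1, h2⟩, rfl⟩,
      (le_max_left _ _).trans_lt h1⟩
  refine ⟨fun π => h1.natEmbedding _ (Fintype.equivFin P π), fun a b e => ?_,
    fun π => (h1.natEmbedding _ _).2⟩
  exact (Fintype.equivFin P).injective
    (Fin.val_injective ((h1.natEmbedding _).injective (Subtype.val_injective e)))

/-- The minors over `O` and over `kk`. -/
lemma LocFam_kk {O : Subring kk} {G' : Matrix (Fin n) (Fin n) O[X]}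
    {G : Matrix (Fin n) (Fin n) kk[X]} {c : kk}
    (h : G'.map (mapRingHom O.subtype) = (C c : kk[X]) • G) (b : Matrix (Fin n) ι ℤ)
    (I : ι → Fin n) : (mnr (G'.adjugate * b.map (Int.cast : ℤ → O[X])) I).map O.subtype =
      C ((c ^ (n - 1)) ^ Fintype.card ι) *
        mnr (G.adjugate * ((b.map (Int.cast : ℤ → ℚ)).map (algebraMap ℚ kk)).map C) I := by
  have h1 := LocFam_fam (mapRingHom O.subtype) G' b I
  rw [h, adjugate_smul, Matrix.smul_mul, Mu_smul, Fintype.card_fin] at h1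
  refine h1.trans ?_
  rw [map_pow, map_pow]
  congr 3

end

theorem exists_loc_family {n : ℕ} {s : Fin n → Fin n → Fin n → ℤ} {T : Type} [Fintype T]
    (G : T → Matrix (Fin n) (Fin n) kk[X]) (e : T → ℕ) (hG : ∀ t, IsType s (G t) (e t)) :
    ∃ (C₀ : ℝ) (N : ℕ), 0 ≤ C₀ ∧ ∀ M : ℕ, ∃ (D : T × Fin M → Loc n s)
      (df : T × Fin M → Submodule ℚ (Fin n → ℚ) → ℝ),
      (Function.Injective fun π => (D π).p) ∧ (∀ π, (n + 2) * N < (D π).p) ∧
      (∀ π W I, ((D π).fam W I).natDegree ≤ N) ∧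
      (∀ π, (D π).κ = (G π.1).det.natTrailingDegree ∧ (D π).e = e π.1) ∧
      (∀ π W I, X ^ muW (G π.1).adjugate W ∣ (D π).fam W I) ∧
      (∀ π W, ∃ I, ‖((D π).fam W I).coeff (muW (G π.1).adjugate W)‖ = Real.exp (-df π W)) ∧
      (∀ π W, 0 ≤ df π W) ∧ ∀ t W, ∑ a, df (t, a) W ≤ C₀ + C₀ * Real.log (Ht W) := by
  classical
  obtain ⟨O, N₀, hN₀, hO, hpr, hnm⟩ := exists_split
    (J := Σ x : T × Fin n × Fin n, (G x.1 x.2.1 x.2.2).support)
    fun y => (G y.1.1 y.1.2.1 y.1.2.2).coeff y.2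
  have hinj : Function.Injective O.subtype := Subtype.val_injective
  have hc0 : (N₀ : kk) ≠ 0 := Nat.cast_ne_zero.2 hN₀.ne'
  have hlift : ∀ t i j, ∃ q : O[X], q.map O.subtype = C (N₀ : kk) * G t i j := by
    intro t i j
    refine (mem_lifts _).1 ((lifts_iff_coeff_lifts _).2 fun k => ?_)
    rw [coeff_C_mul]
    by_cases hk : k ∈ (G t i j).support
    · exact ⟨⟨_, hO ⟨(t, i, j), ⟨k, hk⟩⟩⟩, rfl⟩
    · rw [notMem_support_iff.1 hk, mul_zero]
      exact ⟨0, rfl⟩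
  choose G₀ hG₀ using hlift
  obtain ⟨G', hG'⟩ : ∃ G' : T → Matrix (Fin n) (Fin n) O[X],
      ∀ t, (G' t).map (mapRingHom O.subtype) = (C (N₀ : kk) : kk[X]) • G t :=
    ⟨fun t => Matrix.of (G₀ t), fun t => Matrix.ext fun i j => hG₀ t i j⟩
  have hdet : ∀ t, ∃ u : O[X], (G' t).det = X ^ (G t).det.natTrailingDegree * u ∧ u.coeff 0 ≠ 0 := by
    intro t
    have h1 : ((G' t).det).map O.subtype = C ((N₀ : kk) ^ n) * (G t).det := by
      have h2 := (mapRingHom O.subtype).map_det (G' t)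
      rw [RingHom.mapMatrix_apply, hG', det_smul, Fintype.card_fin, ← map_pow] at h2
      exact h2
    obtain ⟨u, hu⟩ := LocFam_dvd hinj (k := (G t).det.natTrailingDegree) (q := (G' t).det)
      (h1 ▸ (Mu_dvd le_rfl).mul_left _)
    refine ⟨u, hu, fun h0 => ?_⟩
    have h2 := congrArg (fun q => coeff q (0 + (G t).det.natTrailingDegree)) h1
    simp only [coeff_map, hu, coeff_X_pow_mul, h0, coeff_C_mul, map_zero] at h2
    rw [zero_add] at h2
    exact mul_ne_zero (pow_ne_zero _ hc0) (trailingCoeff_nonzero_iff_nonzero.2 (hG t).1) h2.symm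
  choose u hu hu0 using hdet
  have hlie : ∀ t i j l, X ^ ((G t).det.natTrailingDegree + e t) ∣
      ((G' t).adjugate *ᵥ br s ((G' t).col i) ((G' t).col j)) l := by
    intro t i j l
    have h1 := LocFam_lie (s := s) (mapRingHom O.subtype) (G' t) i j l
    rw [hG', LocFam_lie_smul] at h1
    exact LocFam_dvd hinj (((hG t).2 i j l).mul_left _ |>.trans (dvd_of_eq h1.symm))
  have hNu : ∀ t, ∃ N : ℤ, N ≠ 0 ∧ (u t).coeff 0 ∣ (N : O) := by
    intro t
    obtain ⟨c, k, -, h⟩ := hnm Unit fun _ => (u t).coeff 0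
    obtain ⟨N, h1, -, h2⟩ := h (fun _ => 1) 1 le_rfl (by simp) (by simpa using hu0 t)
    exact ⟨N, h1, by simpa using h2⟩
  choose Nu hNu0 hNu using hNu
  obtain ⟨d, hd⟩ := LocFam_bdd fun t i j => ((G' t).adjugate i j).natDegree
  obtain ⟨fam, hfam⟩ : ∃ fam : T → (W : Submodule ℚ (Fin n → ℚ)) →
      (Fin (finrank ℤ (LW ⊤ W)) → Fin n) → O[X], ∀ t W I, fam t W I =
        mnr ((G' t).adjugate * (zbas (LW ⊤ W)).map (Int.cast : ℤ → O[X])) I :=
    ⟨_, fun _ _ _ => rfl⟩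
  have hdeg : ∀ t W I, (fam t W I).natDegree ≤ n * d := fun t W I => by
    rw [hfam]
    refine (LocFam_deg _ (hd t) _ I).trans ?_
    rw [Fintype.card_fin]
    exact Nat.mul_le_mul_right _ (LocFam_rk W)
  have hmu : ∀ t W I, X ^ muW (G t).adjugate W ∣ fam t W I := fun t W I => by
    refine LocFam_dvd hinj ?_
    rw [hfam, LocFam_kk (hG' t)]
    exact (muW_dvd _ ((isBas_zbas _).rat full_top) I).mul_left _
  have hex : ∀ t W, ∃ I, (fam t W I).coeff (muW (G t).adjugate W) ≠ 0 := fun t W => by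
    obtain ⟨I, h1, h2⟩ := muW_exists (Mu_adj (hG t).1) ((isBas_zbas (LW ⊤ W)).rat full_top)
    refine ⟨I, fun h0 => ?_⟩
    have h3 := congrArg (fun q => coeff q (muW (G t).adjugate W))
      (LocFam_kk (hG' t) (zbas (LW ⊤ W)) I)
    simp only [coeff_map, ← hfam, h0, map_zero, coeff_C_mul] at h3
    rw [← h2] at h3
    exact mul_ne_zero (pow_ne_zero _ (pow_ne_zero _ hc0))
      (trailingCoeff_nonzero_iff_nonzero.2 h1) h3.symm
  choose I₀ hI₀ using hex
  have hc : ∀ (t : T) (m : ℕ) (I : Fin m → Fin n) (μ : ℕ), ∃ c : ℝ, 0 ≤ c ∧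
      ∀ (b : Matrix (Fin n) (Fin m) ℤ) (H : ℝ), 1 ≤ H → (∀ J, |((mnr b J : ℤ) : ℝ)| ≤ H) →
        (mnr ((G' t).adjugate * b.map (Int.cast : ℤ → O[X])) I).coeff μ ≠ 0 →
        ∃ N : ℤ, N ≠ 0 ∧ Real.log |(N : ℝ)| ≤ c + c * Real.log H ∧
          (mnr ((G' t).adjugate * b.map (Int.cast : ℤ → O[X])) I).coeff μ ∣ (N : O) := by
    intro t m I μ
    obtain ⟨c, k, hc1, h⟩ := hnm (Fin m → Fin n)
      fun J => (∏ i, (G' t).adjugate (I i) (J i)).coeff μ
    have hl : 0 ≤ Real.log c := Real.log_nonneg hc1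
    refine ⟨Real.log c + k, by positivity, fun b H hH hb h0 => ?_⟩
    have e1 : (mnr ((G' t).adjugate * b.map (Int.cast : ℤ → O[X])) I).coeff μ =
        ∑ J : Fin m → Fin n, mnr b J • (∏ i, (G' t).adjugate (I i) (J i)).coeff μ := by
      rw [LocFam_exp, finsetSum_coeff]
      simp only [coeff_smul]
    rw [e1] at h0 ⊢
    obtain ⟨N, h1, h2, h3⟩ := h (mnr b) H hH hb h0
    refine ⟨N, h1, ?_, h3⟩
    have h4 : 0 ≤ Real.log H := Real.log_nonneg hH
    have h5 := Real.log_le_log (abs_pos.2 (Int.cast_ne_zero.2 h1)) h2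
    rw [Real.log_mul (by positivity) (by positivity), Real.log_pow] at h5
    have h6 : (0 : ℝ) ≤ k := Nat.cast_nonneg k
    nlinarith [mul_nonneg hl h4]
  choose c hc0' hc using hc
  obtain ⟨C₀, hC₀, hC⟩ := LocFam_bddR c hc0' (n * d)
  have hN : ∀ t W, ∃ N : ℤ, N ≠ 0 ∧ Real.log |(N : ℝ)| ≤ C₀ + C₀ * Real.log (Ht W) ∧
      (fam t W (I₀ t W)).coeff (muW (G t).adjugate W) ∣ (N : O) := by
    intro t W
    obtain ⟨N, h1, h2, h3⟩ := hc t _ (I₀ t W) (muW (G t).adjugate W) (zbas (LW ⊤ W)) (Ht W)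
      (one_le_Ht W) (abs_mnr_le_Ht (isBas_zbas _)) (hfam t W _ ▸ hI₀ t W)
    have h4 := hC t _ (LocFam_rk W) (I₀ t W) _
      ((le_natDegree_of_ne_zero (hI₀ t W)).trans (hdeg t W _))
    refine ⟨N, h1, h2.trans (add_le_add h4
      (mul_le_mul_of_nonneg_right h4 (Real.log_nonneg (one_le_Ht W)))), hfam t W _ ▸ h3⟩
  choose N' hN0 hN1 hN2 using hN
  refine ⟨C₀, n * d, hC₀, fun M => ?_⟩
  obtain ⟨q, hq, hq'⟩ := LocFam_primes (P := T × Fin M) O
    ((n + 2) * (n * d) + ∑ t, (Nu t).natAbs) hpr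
  have ψ := fun π => (hq' π).2.some
  have hun : ∀ π, ‖((u π.1).map (ψ π)).coeff 0‖ = 1 := fun π => by
    rw [coeff_map]
    refine le_antisymm (PadicInt.norm_le_one _) (le_trans (not_lt.1 fun h => ?_)
      (LocFam_norm (ψ π) (hNu π.1)))
    have h1 := Int.natAbs_le_of_dvd_ne_zero ((PadicInt.norm_int_lt_one_iff_dvd _).1 h) (hNu0 π.1)
    have h2 := Finset.single_le_sum (f := fun t => (Nu t).natAbs) (fun _ _ => Nat.zero_le _)
      (Finset.mem_univ π.1)
    have h3 := (hq' π).1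
    rw [Int.natAbs_natCast] at h1
    omega
  let D : T × Fin M → Loc n s := fun π =>
    { p := q π
      G := (G' π.1).map (mapRingHom (ψ π))
      κ := (G π.1).det.natTrailingDegree
      e := e π.1
      u := (u π.1).map (ψ π)
      hdet := by
        have h2 := (mapRingHom (ψ π)).map_det (G' π.1)
        rw [RingHom.mapMatrix_apply, hu] at h2
        rw [← h2]
        simp
      hu := hun π
      hLie := fun i j l => by
        rw [← LocFam_lie]
        simpa using map_dvd (mapRingHom (ψ π)) (hlie π.1 i j l) }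
  have hD : ∀ π W I, (D π).fam W I = (fam π.1 W I).map (ψ π) := fun π W I => by
    rw [hfam]
    exact (LocFam_fam (mapRingHom (ψ π)) _ _ I).symm
  have hpos : ∀ π W, 0 < ‖(N' π.1 W : ℤ_[q π])‖ := fun π W =>
    norm_pos_iff.2 (Int.cast_ne_zero.2 (hN0 _ _))
  have hle := fun π W => LocFam_norm (ψ π) (hN2 π.1 W)
  refine ⟨D, fun π W =>
    -Real.log ‖ψ π ((fam π.1 W (I₀ π.1 W)).coeff (muW (G π.1).adjugate W))‖, hq,
    fun π => (Nat.le_add_right _ _).trans_lt (hq' π).1, fun π W I => ?_, fun π => ⟨rfl, rfl⟩,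
    fun π W I => ?_, fun π W => ⟨I₀ π.1 W, ?_⟩, fun π W => ?_, fun t W => ?_⟩
  · rw [hD]
    exact natDegree_map_le.trans (hdeg _ _ _)
  · rw [hD]
    simpa using map_dvd (mapRingHom (ψ π)) (hmu π.1 W I)
  · rw [hD, coeff_map, neg_neg, Real.exp_log ((hpos π W).trans_le (hle π W))]
  · exact neg_nonneg.2 (Real.log_nonpos (norm_nonneg _) (PadicInt.norm_le_one _))
  · have h1 := sum_log_norm_le (N' t W) (hN0 t W) (Finset.univ.map
      ⟨fun a : Fin M => q (t, a), fun a b h => (Prod.ext_iff.1 (hq h)).2⟩)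
    rw [Finset.sum_map] at h1
    refine le_trans (Finset.sum_le_sum fun a _ => ?_) (h1.trans (hN1 t W))
    exact neg_le_neg (Real.log_le_log (hpos (t, a) W) (hle (t, a) W))

end Pool.Agent.Work.MP_913e71_al.Pos
end

-- merged part: Pool.Agent.Work.MP_913e71_al.Pos.UpperLR
section
/-! The upper bound for lattices closed under a bracket.

PLAN.  `exists_loc_family`, `engine` with `D t = Dt (G t) (e t)`, `dd = dinf d`, `Δ π = (D π).top`,
`lg π = log p`, `φ₀ W = log (cov d r (LW ⊤ W))`, `ρ = log r` (for `r ≥ exp 1`; for smaller `r` use the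
lattice of `r' = exp 1` and adjust the constant), `top_descent`, `lat_cov`.  With
`Q = ∏ p ^ (e a)`: `cov (LW L W) ≥ exp (-C') Q ^ dim W`.  If `v ∈ L`, `v ≠ 0`,
`|v i| ≤ Q (r / C) ^ d i ≤ (Q / C) r ^ d i`, then `cov_line` gives `cov ≤ Q / C`, a contradiction for
`C > exp C'`.  `log index - n log Q = ∑ (κ - n e) a log p ≤ cost * ρ + const`. -/

namespace Pool.Agent.Work.MP_913e71_al.Pos

open Matrix Polynomial Module

lemma UpperLR_lg (p : Nat.Primes) : 0 < Real.log (p : ℕ) :=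
  Real.log_pos (by exact_mod_cast p.2.one_lt)

lemma UpperLR_log {P : Type} [Fintype P] (p : P → Nat.Primes) (k a : P → ℕ) :
    Real.log ((∏ π, (p π : ℕ) ^ (k π * a π) : ℕ) : ℝ) =
      ∑ π, (k π : ℝ) * (a π * Real.log (p π : ℕ)) := by
  rw [Nat.cast_prod, Real.log_prod fun π _ => by exact_mod_cast (pow_pos (p π).2.pos _).ne']
  refine Finset.sum_congr rfl fun π _ => ?_
  rw [Nat.cast_pow, Real.log_pow, Nat.cast_mul, mul_assoc]

/-- A lower bound for the covolumes of lines empties a box. -/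
lemma UpperLR_box {n : ℕ} {d : Fin n → ℕ} (hd : ∀ i, 1 ≤ d i) {L : Submodule ℤ (Fin n → ℤ)}
    {r r' Q K C' : ℝ} (hr : 0 < r) (hrr : r ≤ r') (hQ : 0 < Q) (hK : 0 ≤ K) (hKC : C' < K)
    (h : ∀ W : Submodule ℚ (Fin n → ℚ),
      -C' ≤ Real.log (cov d r' (LW L W)) - finrank ℚ W * Real.log Q) :
    ∀ v ∈ L, InBox d (r / Real.exp K) (fun i => (v i : ℝ) / Q) → v = 0 := by
  intro v hv hb
  by_contra h0
  have hC : 1 ≤ Real.exp K := Real.one_le_exp hK
  have hr' : 0 < r' := hr.trans_le hrr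
  have h1 := cov_line d hr' (x := Q / Real.exp K) (by positivity) hv h0 fun i => by
    have h2 := hb i
    simp only [abs_div, abs_of_pos hQ, div_le_iff₀ hQ, div_pow] at h2
    refine h2.trans ?_
    rw [div_mul_eq_mul_div, div_mul_eq_mul_div, mul_comm Q]
    exact div_le_div₀ (by positivity)
      (mul_le_mul_of_nonneg_right (pow_le_pow_left₀ hr.le hrr _) hQ.le) (by positivity)
      (le_self_pow₀ hC (by have := hd i; omega))
  have h2 := Real.log_le_log (cov_pos d hr' _) h1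
  have h3 := h (Submodule.span ℚ {fun i => (v i : ℚ)})
  rw [finrank_span_singleton fun e => h0 (funext fun i =>
    Int.cast_eq_zero (α := ℚ).1 (congrFun e i))] at h3
  rw [Real.log_div hQ.ne' (by positivity), Real.log_exp] at h2
  rw [Nat.cast_one, one_mul] at h3
  linarith

theorem upper_lr {n : ℕ} (d : Fin n → ℕ) (hd : ∀ i, 1 ≤ d i) (s : Fin n → Fin n → Fin n → ℤ)
    {T : Type} [Fintype T] (G : T → Matrix (Fin n) (Fin n) kk[X]) (e : T → ℕ)
    (hG : ∀ t, IsType s (G t) (e t)) (c : T → ℝ) (hc : ∀ t, 0 ≤ c t)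
    (hfeas : ∀ W : Submodule ℚ (Fin n → ℚ), (dinf d W : ℝ) ≤ ∑ t, c t * Dt (G t) (e t) W) :
    ∃ C : ℝ, 1 ≤ C ∧ ∀ r : ℝ, 1 ≤ r → ∃ (L : Submodule ℤ (Fin n → ℤ)) (Q : ℕ), Full L ∧ 0 < Q ∧
      ((∀ t, e t = 0) → Q = 1) ∧ (∀ x ∈ L, ∀ y ∈ L, ∃ z ∈ L, br s x y = (Q : ℤ) • z) ∧
      (∀ v ∈ L, InBox d (r / C) (fun i => (v i : ℝ) / Q) → v = 0) ∧
      (L.toAddSubgroup.index : ℝ) ≤ C * (Q : ℝ) ^ n * r ^ (∑ t, c t * cost (G t) (e t)) := by
  obtain ⟨B, hB1, hB2⟩ : ∃ B : ℕ, ∑ i, d i ≤ B ∧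
      ∀ t, n * ((G t).det.natTrailingDegree + e t) ≤ B :=
    ⟨∑ i, d i + ∑ t, n * ((G t).det.natTrailingDegree + e t), Nat.le_add_right _ _, fun t =>
      (Finset.single_le_sum (f := fun t => n * ((G t).det.natTrailingDegree + e t))
        (fun _ _ => Nat.zero_le _) (Finset.mem_univ t)).trans (Nat.le_add_left _ _)⟩
  obtain ⟨C₀, N, hC₀, hfam⟩ := exists_loc_family G e hG
  obtain ⟨M, hM⟩ := engine (isDim_finrank (n := n) ℚ) (fun t W => Dt (G t) (e t) W) (dinf d) B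
    (fun t => Dt_submod (hG t).1 (e t)) (dinf_supermod d) (fun t => Dt_bot _ _) (dinf_bot d)
    (fun t W => (abs_Dt_le (hG t).1 _ W).trans (by exact_mod_cast hB2 t))
    (fun W => (dinf_le_sum d W).trans hB1) c hc hfeas Ht one_le_Ht northcott C₀ hC₀
  obtain ⟨D, df, hinj, hN, hf, hκ, hdvd, hco, hdf0, hdf⟩ := hfam M
  have hlg : ∀ π, 0 < Real.log ((D π).p : ℕ) := fun π => UpperLR_lg _
  have hN' : ∀ π, N < (D π).p := fun π =>
    (Nat.le_mul_of_pos_left N (Nat.succ_pos _)).trans_lt (hN π)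
  obtain ⟨L₁, hL₁, hL⟩ : ∃ L₁ : ℝ, 0 ≤ L₁ ∧
      ∀ π, (n * ((D π).κ + (D π).e) + 2 * N) * Real.log ((D π).p : ℕ) ≤ L₁ := by
    have h : ∀ π ∈ Finset.univ,
        0 ≤ (n * ((D π).κ + (D π).e) + 2 * N : ℝ) * Real.log ((D π).p : ℕ) :=
      fun π _ => mul_nonneg (by positivity) (hlg π).le
    exact ⟨_, Finset.sum_nonneg h, fun π => Finset.single_le_sum h (Finset.mem_univ π)⟩
  have hDt : ∀ π (W : Submodule ℚ (Fin n → ℚ)), (Dt (G π.1) (e π.1) W : ℝ) =
      finrank ℚ W * ((D π).κ : ℝ) - muW (G π.1).adjugate W - finrank ℚ W * (D π).e := by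
    intro π W
    rw [Dt, (hκ π).1, (hκ π).2]
    push_cast
    rfl
  obtain ⟨C1, hC1⟩ := hM (fun π => Real.log ((D π).p : ℕ)) (fun π => (D π).top) df L₁
    (Real.log (2 * n).factorial) hlg hL₁ (Real.log_natCast_nonneg _) hdf0 hdf
    (fun π a W ha => ((D π).top_lip (hN' π) (hf π) ha W).trans (hL π))
    (fun π a W ha => by
      rw [hDt]
      exact (D π).top_le ha W (hdvd π W))
    (fun π a W ha => by
      obtain ⟨I, hI⟩ := hco π W
      refine le_trans ?_ ((D π).top_ge (hN' π) (hf π) a W hI)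
      have h1 : (N : ℝ) ≤ n * ((D π).κ + (D π).e) + 2 * N := by
        have : (0 : ℝ) ≤ n * ((D π).κ + (D π).e) + N := by positivity
        linarith
      have h2 := (mul_le_mul_of_nonneg_right h1 (hlg π).le).trans (hL π)
      rw [hDt]
      linarith)
    (fun π a W ha => by
      refine le_trans (neg_le_neg ?_) ((D π).top_ge' ha W)
      have h1 : (n : ℝ) * (D π).e ≤ B := by
        rw [(hκ π).2]
        exact_mod_cast (Nat.mul_le_mul_left n (Nat.le_add_left _ _)).trans (hB2 π.1)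
      exact mul_le_mul_of_nonneg_right (mul_le_mul_of_nonneg_right h1 (Nat.cast_nonneg a))
        (hlg π).le)
  obtain ⟨C', hC'⟩ := top_descent D hinj hN hf C1
  obtain ⟨β, hβ⟩ : ∃ β : ℝ, β = ∑ t, c t * cost (G t) (e t) := ⟨_, rfl⟩
  obtain ⟨S, hS⟩ : ∃ S : ℝ, S = ∑ t, |(cost (G t) (e t) : ℝ)| * |C1| := ⟨_, rfl⟩
  have hS0 : 0 ≤ S := hS ▸ Finset.sum_nonneg fun _ _ => by positivity
  have hK : 0 ≤ |C'| + 1 + S + |β| := by positivity
  refine ⟨Real.exp (|C'| + 1 + S + |β|), Real.one_le_exp hK, fun r hr => ?_⟩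
  have hr0 : 0 < r := one_pos.trans_le hr
  obtain ⟨r', hrr, hρ, hρ'⟩ : ∃ r' : ℝ, r ≤ r' ∧ 1 ≤ Real.log r' ∧ Real.log r' ≤ Real.log r + 1 := by
    refine ⟨r * Real.exp 1, le_mul_of_one_le_right hr0.le (Real.one_le_exp zero_le_one), ?_⟩
    rw [Real.log_mul hr0.ne' (Real.exp_pos 1).ne', Real.log_exp]
    exact ⟨by linarith [Real.log_nonneg hr], le_rfl⟩
  have hr1 : 1 ≤ r' := hr.trans hrr
  have hr' : 0 < r' := one_pos.trans_le hr1
  have hHt : ∀ W : Submodule ℚ (Fin n → ℚ), 0 < Ht W := fun W => one_pos.trans_le (one_le_Ht W)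
  obtain ⟨a, ha, ha1, ha2⟩ := hC1 (Real.log r') (fun W => Real.log (cov d r' (LW ⊤ W))) hρ
    (fun W => by
      have := Real.log_le_log (by positivity) (cov_top_ge d hr1 W)
      rwa [one_div, Real.log_inv, Real.log_pow] at this)
    (fun W => by
      have := Real.log_le_log (cov_pos d hr' _) (cov_top_le d hr1 W)
      rwa [Real.log_div (hHt W).ne' (by positivity), Real.log_pow] at this)
    (fun W => by
      have h1 := Real.log_le_log (div_pos (hHt W) (by positivity)) (cov_top_ge' d hr1 W)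
      rw [Real.log_div (hHt W).ne' (by positivity), Real.log_pow] at h1
      have h2 : ((∑ i, d i : ℕ) : ℝ) ≤ B := by exact_mod_cast hB1
      have h3 := mul_le_mul_of_nonneg_right h2 (zero_le_one.trans hρ)
      linarith)
    (top_asub D hinj hN hf d hr')
  obtain ⟨y, hy, hy1⟩ := hC' d r' hr' a ha ha1
  have hQ : 0 < ∏ π, ((D π).p : ℕ) ^ ((D π).e * a π) :=
    Finset.prod_pos fun π _ => pow_pos (D π).p.2.pos _
  have hI : 0 < ∏ π, ((D π).p : ℕ) ^ ((D π).κ * a π) :=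
    Finset.prod_pos fun π _ => pow_pos (D π).p.2.pos _
  have hQ' : (0 : ℝ) < (∏ π, ((D π).p : ℕ) ^ ((D π).e * a π) : ℕ) := Nat.cast_pos.2 hQ
  refine ⟨lat D y, _, lat_full D a y ha hy, hQ, fun he => Finset.prod_eq_one fun π _ => ?_,
    fun x hx x' hx' => lat_lie D a y hinj ha hy hx hx',
    UpperLR_box hd hr0 hrr hQ' hK (C' := C') (by linarith [le_abs_self C', abs_nonneg β])
      fun W => ?_, ?_⟩
  · rw [(hκ π).2, he, zero_mul, pow_zero]
  · rw [lat_cov D a y hinj ha hy d hr' W]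
    exact hy1 W
  rw [lat_index D a y hinj ha hy, ← hβ,
    ← Real.log_le_log_iff (Nat.cast_pos.2 hI) (by positivity),
    Real.log_mul (by positivity) (by positivity), Real.log_mul (by positivity) (by positivity),
    Real.log_exp, Real.log_pow, Real.log_rpow hr0, UpperLR_log, UpperLR_log]
  have e1 : ∑ π, ((D π).κ : ℝ) * (a π * Real.log ((D π).p : ℕ)) -
      n * ∑ π, ((D π).e : ℝ) * (a π * Real.log ((D π).p : ℕ)) =
      ∑ t, cost (G t) (e t) * ∑ j, a (t, j) * Real.log ((D (t, j)).p : ℕ) := by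
    rw [Finset.mul_sum, ← Finset.sum_sub_distrib, Fintype.sum_prod_type]
    refine Finset.sum_congr rfl fun t _ => ?_
    rw [Finset.mul_sum]
    refine Finset.sum_congr rfl fun j _ => ?_
    rw [(hκ (t, j)).1, (hκ (t, j)).2, cost]
    push_cast
    ring
  have e2 : ∑ t, cost (G t) (e t) * ∑ j, a (t, j) * Real.log ((D (t, j)).p : ℕ) ≤
      β * Real.log r' + S := by
    rw [hβ, hS, Finset.sum_mul, ← Finset.sum_add_distrib]
    refine Finset.sum_le_sum fun t _ => ?_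
    have h1 := mul_le_mul_of_nonneg_left ((ha2 t).trans (le_abs_self C1))
      (abs_nonneg (cost (G t) (e t) : ℝ))
    rw [← abs_mul] at h1
    linarith [le_of_abs_le h1]
  have e3 : β * (Real.log r' - Real.log r) ≤ |β| :=
    (mul_le_mul_of_nonneg_right (le_abs_self β) (sub_nonneg.2 (Real.log_le_log hr0 hrr))).trans
      (mul_le_of_le_one_right (abs_nonneg β) (by linarith))
  linarith [abs_nonneg C']

end Pool.Agent.Work.MP_913e71_al.Pos
end

-- merged part: Pool.Agent.Work.MP_913e71_al.Pos.LowerLR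
section
/-! The two sided estimate for sublattices of `ℤ ^ n` closed under a bracket.

PLAN for `lr_types`.  `type_fd` with `L = kk`, `Ω` = pairs of a prime `p` and an integer matrix `Y`
with `det Y ≠ 0` whose column span is closed under the bracket, `z = 1`, `ε = peps p`, `m₀ = 0`
(`adj Y *ᵥ br (Y i) (Y j) = det Y • (integer vector)`).  For `L` with basis `Y`
(`exists_square_basis`) let `c = ∑ p ∣ det Y, c (p, Y)`.  For `W` take `b = zbas (LW ⊤ W)`, `Y'` from
`exists_change`; `cov_eq`, `sz_mul` give the left side `log |det Y'|`; `local_index` with `G = Y` cast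
to `ℤ_[p]` gives `- log ‖det Y'‖ = m (- log ‖det Y‖) + log (sup ‖mnr‖)` (the supremum is attained and
nonzero), in particular every prime factor of `det Y'` divides `det Y`; `sum_log_norm_eq`,
`sum_peps_le`, `index_eq_det`.

PLAN for `lr_main`.  Add the type `X • 1` (`isType_X`, `Dt_X`): index type `Option T`.  `lp_min` with
`D W t = Dt ..`, `d W = dinf d W` (`abs_Dt_le`, `dinf_le_sum`, `Dt_bot`, `dinf_bot`; `hrec` from
`Dt_top`).  Upper bound: `upper_lr` (`Q = 1`).  Lower bound: `cov_minkowski`, `cov_top_le` give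
`dinf W * log r - log Ht W - n log (n + 1) ≤ log cov (LW L W) - log cov (LW ⊤ W)`. -/

namespace Pool.Agent.Work.MP_913e71_al.Pos

open Matrix Polynomial Module

lemma LowerLR_primes {N : ℤ} (hN : N ≠ 0) :
    ∃ S : Finset Nat.Primes, ∀ p : Nat.Primes, ((p : ℕ) : ℤ) ∣ N → p ∈ S :=
  ⟨N.natAbs.primeFactors.subtype Nat.Prime, fun p h => Finset.mem_subtype.2
    (Nat.mem_primeFactors.2 ⟨p.2, Int.natCast_dvd.1 h, Int.natAbs_ne_zero.2 hN⟩)⟩

section
variable {n : ℕ} {R ι : Type} [CommRing R] [Fintype ι] [DecidableEq ι]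

lemma LowerLR_det (Y : Matrix ι ι ℤ) : (Y.map (Int.cast : ℤ → R)).det = (Y.det : ℤ) :=
  ((Int.castRingHom R).map_det Y).symm

lemma LowerLR_adj (Y : Matrix ι ι ℤ) :
    (Y.map (Int.cast : ℤ → R)).adjugate = Y.adjugate.map (Int.cast : ℤ → R) :=
  ((Int.castRingHom R).map_adjugate Y).symm

lemma LowerLR_mnr (Y : Matrix (Fin n) (Fin n) ℤ) (b : Matrix (Fin n) ι ℤ) (I : ι → Fin n) :
    mnr ((Y.map (Int.cast : ℤ → R)).adjugate * b.map (Int.cast : ℤ → R)) I =
      (mnr (Y.adjugate * b) I : ℤ) := by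
  rw [LowerLR_adj, ← CovB_mnr]
  exact congrArg (mnr · I) (Matrix.map_mul (f := Int.castRingHom R)).symm

lemma LowerLR_lie (s : Fin n → Fin n → Fin n → ℤ) {Y : Matrix (Fin n) (Fin n) ℤ} {i j : Fin n}
    {z : Fin n → ℤ} (h : Y *ᵥ z = br s (Y.col i) (Y.col j)) (l : Fin n) :
    ((Y.map (Int.cast : ℤ → R)).adjugate *ᵥ br s ((Y.map (Int.cast : ℤ → R)).col i)
      ((Y.map (Int.cast : ℤ → R)).col j)) l = (Y.det : ℤ) * (z l : ℤ) := by
  have e : br s ((Y.map (Int.cast : ℤ → R)).col i) ((Y.map (Int.cast : ℤ → R)).col j) =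
      fun k => ((br s (Y.col i) (Y.col j) k : ℤ) : R) := funext fun k => by simp [br]
  rw [e, LowerLR_adj, CovB_cast, ← h, mulVec_mulVec, adjugate_mul, smul_mulVec, one_mulVec]
  simp

lemma LowerLR_loc (p : Nat.Primes) {L : Submodule ℤ (Fin n → ℤ)} {Y : Matrix (Fin n) (Fin n) ℤ}
    (h0 : Y.det ≠ 0) (hY : IsBas L Y) {W : Submodule ℚ (Fin n → ℚ)} {b : Matrix (Fin n) ι ℤ}
    (hb : IsBas (LW ⊤ W) b) {Y' : Matrix ι ι ℤ} (h' : IsBas (LW L W) (b * Y')) :
    ∃ I, mnr (Y.adjugate * b) I ≠ 0 ∧ -Real.log ‖(Y'.det : ℤ_[p])‖ =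
      Fintype.card ι * -Real.log ‖(Y.det : ℤ_[p])‖ + Real.log ‖((mnr (Y.adjugate * b) I : ℤ) : ℤ_[p])‖ := by
  have d0 : (Y.map (Int.cast : ℤ → ℤ_[p])).det ≠ 0 := by
    rw [LowerLR_det]
    exact Int.cast_ne_zero.2 h0
  have h := local_index p (L := L) _ d0 (fun v hv => ?_) (fun v ⟨w, hw⟩ hv => ?_) b Y' h'
  · have : Nonempty (ι → Fin n) := ⟨(exists_mnr_ne_zero b hb.1).choose⟩
    obtain ⟨I, hI⟩ := exists_eq_ciSup_of_finite
      (f := fun I => ‖mnr ((Y.map (Int.cast : ℤ → ℤ_[p])).adjugate * b.map (Int.cast : ℤ → ℤ_[p])) I‖)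
    rw [← hI, LowerLR_mnr, LowerLR_det] at h
    have h1 := mul_ne_zero_iff.1 (h.trans_ne (pow_ne_zero _ (norm_ne_zero_iff.2 (Int.cast_ne_zero.2 h0))))
    have h2 := congrArg Real.log h
    rw [Real.log_mul h1.1 h1.2, Real.log_pow] at h2
    exact ⟨I, Int.cast_ne_zero.1 (norm_ne_zero_iff.1 h1.2), by linarith⟩
  · obtain ⟨y, rfl⟩ := CovB_mem.1 (hY.2.ge hv)
    exact ⟨_, CovB_cast Y y⟩
  · obtain ⟨y, hy⟩ := CovB_mem.1 (hY.2.ge hv)
    have e : (fun j => (y j : ℤ_[p])) = ((p : ℕ) : ℤ_[p]) • w :=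
      mulVec_injective_of_det_ne_zero d0 (by
        rw [CovB_cast, mulVec_smul, hw, hy]
        funext i
        simp)
    choose u hu using fun j => (PadicInt.pow_p_dvd_int_iff (p := p) 1 (y j)).1
      ⟨w j, by rw [pow_one]; exact congrFun e j⟩
    refine hY.2.le (CovB_mem.2 ⟨u, smul_right_injective _ (Int.natCast_ne_zero.2 p.2.ne_zero) ?_⟩)
    refine Eq.trans ?_ hy
    rw [show y = ((p : ℕ) : ℤ) • u from funext fun j => (hu j).trans (by rw [pow_one]; rfl),
      mulVec_smul]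

end

theorem lr_types {n : ℕ} (s : Fin n → Fin n → Fin n → ℤ) :
    ∃ (T : Type) (_ : Fintype T) (Gt : T → Matrix (Fin n) (Fin n) kk[X]),
      (∀ t, IsType s (Gt t) 0) ∧ ∀ S : Finset (Submodule ℚ (Fin n → ℚ)), ∃ C₀ : ℝ,
        ∀ L : Submodule ℤ (Fin n → ℤ), Full L → (∀ x ∈ L, ∀ y ∈ L, br s x y ∈ L) →
          ∃ c : T → ℝ, (∀ t, 0 ≤ c t) ∧
            ∑ t, c t * cost (Gt t) 0 ≤ Real.log L.toAddSubgroup.index + C₀ ∧
            ∀ W ∈ S, ∀ (d : Fin n → ℕ) (r : ℝ), 0 < r →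
              Real.log (cov d r (LW L W)) - Real.log (cov d r (LW ⊤ W)) ≤
                ∑ t, c t * Dt (Gt t) 0 W + C₀ := by
  obtain ⟨v, v1, v2, v3⟩ := exists_padic_abs
  have k : ∀ (p : Nat.Primes) (x : ℝ), 0 ≤ x → x ≤ Real.exp (peps p 0) * x := fun p x hx =>
    le_mul_of_one_le_left hx (Real.one_le_exp (peps_nonneg p 0))
  have v4 : ∀ p (z : ℤ), v p (z : kk) ≤ 1 := fun p z => (v2 p z).trans_le (PadicInt.norm_le_one _)
  obtain ⟨T, _, Gt, e, h1, h2, m₁, mb, h3⟩ := type_fd s (L := kk)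
    (Ω := Nat.Primes × {Y : Matrix (Fin n) (Fin n) ℤ //
      Y.det ≠ 0 ∧ ∀ i j, ∃ z, Y *ᵥ z = br s (Y.col i) (Y.col j)})
    (fun o => v o.1) (fun o => peps o.1) (fun o => peps_nonneg o.1) (fun o => peps_mono o.1)
    (fun a b => ⟨a + b, fun o => peps_add o.1 a b⟩) 0
    (fun o x y => (v1 o.1 x y).trans (k _ _ (le_max_of_le_left ((v o.1).nonneg x))))
    (fun a => (v3 a).imp fun m h o => h o.1) (fun o => o.2.1.map Int.cast) (fun _ => 1)
    (fun o i j => v4 _ _) (fun o => (map_one _).le) (fun _ => one_ne_zero)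
    (fun o => by rw [LowerLR_det]; exact Int.cast_ne_zero.2 o.2.2.1)
    (fun o i j l => by
      obtain ⟨z, hz⟩ := o.2.2.2 i j
      rw [LowerLR_lie s hz, LowerLR_det, mul_one, map_mul]
      exact (mul_le_of_le_one_right ((v o.1).nonneg _) (v4 _ _)).trans (k _ _ ((v o.1).nonneg _)))
  obtain rfl : e = fun _ => 0 := funext (h2 fun _ => rfl)
  choose c c0 c1 c2 using h3
  obtain ⟨μ, hμ⟩ : ∃ μ : Submodule ℚ (Fin n → ℚ) → ℝ,
    ∀ W, μ W = Real.log (mb _ ((zbas (LW ⊤ W)).map Int.cast)).factorial := ⟨_, fun _ => rfl⟩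
  have μ0 : ∀ W, 0 ≤ μ W := fun W => hμ W ▸ Real.log_natCast_nonneg _
  refine ⟨T, inferInstance, Gt, h1, fun S => ⟨Real.log m₁.factorial + ∑ W ∈ S, μ W,
    fun L hL hl => ?_⟩⟩
  obtain ⟨Y, y0, y1⟩ := exists_square_basis hL
  choose Y' a0 a1 using fun W => exists_change hL (isBas_zbas (LW ⊤ W))
  obtain ⟨P, hP⟩ := LowerLR_primes (mul_ne_zero y0
    (Finset.prod_ne_zero_iff.2 fun W (_ : W ∈ S) => a0 W))
  obtain ⟨o, rfl⟩ : ∃ o : {Y : Matrix (Fin n) (Fin n) ℤ //
      Y.det ≠ 0 ∧ ∀ i j, ∃ z, Y *ᵥ z = br s (Y.col i) (Y.col j)}, o.1 = Y :=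
    ⟨⟨Y, y0, fun i j => CovB_mem.1 (y1.2.ge (hl _ (Cov_col y1 i) _ (Cov_col y1 j)))⟩, rfl⟩
  refine ⟨fun t => ∑ p ∈ P, c (p, o) t, fun t => Finset.sum_nonneg fun p _ => c0 _ t, ?_,
    fun W hW d r hr => ?_⟩
  · simp only [Finset.sum_mul]
    rw [Finset.sum_comm]
    refine (Finset.sum_le_sum fun p _ => c1 (p, o)).trans ?_
    simp only [map_one, Real.log_one, mul_zero, add_zero, LowerLR_det, v2]
    rw [Finset.sum_add_distrib, sum_log_norm_eq _ y0 P fun p h => hP p (h.mul_right _),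
      index_eq_det y1, Nat.cast_natAbs, Int.cast_abs]
    linarith [sum_peps_le P m₁, Finset.sum_nonneg fun W (_ : W ∈ S) => μ0 W]
  · rw [cov_eq d r (a1 W), Cov_sz_mul, ← cov_eq d r (isBas_zbas _), Real.log_mul (cov_pos d hr _).ne'
      (abs_ne_zero.2 (Int.cast_ne_zero.2 (a0 W))), add_sub_cancel_left, ← sum_log_norm_eq _ (a0 W) P
        fun p h => hP p ((h.trans (Finset.dvd_prod_of_mem (fun W => (Y' W).det) hW)).mul_left _)]
    simp only [Finset.sum_mul]
    rw [Finset.sum_comm]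
    refine (Finset.sum_le_sum (g := fun p => ∑ t, c (p, o) t * Dt (Gt t) 0 W +
      peps p (mb _ ((zbas (LW ⊤ W)).map Int.cast))) fun p _ => ?_).trans ?_
    · obtain ⟨I, i0, i1⟩ := LowerLR_loc p y0 y1 (isBas_zbas _) (a1 W)
      have h := c2 (p, o) _ _ W ((isBas_zbas _).rat full_top) I
      rw [show ((zbas (LW ⊤ W)).map (Int.cast : ℤ → ℚ)).map (fun q => algebraMap kk kk (q : kk)) =
        (zbas (LW ⊤ W)).map Int.cast from Matrix.ext fun i j => by simp, LowerLR_mnr] at h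
      have h := h (Int.cast_ne_zero.2 i0)
      simp only [map_one, Real.log_one, mul_zero, add_zero, LowerLR_det, v2] at h
      rwa [i1, Fintype.card_fin]
    · rw [Finset.sum_add_distrib]
      linarith [(sum_peps_le P _).trans_eq (hμ W).symm, Real.log_natCast_nonneg m₁.factorial,
        Finset.single_le_sum (fun W _ => μ0 W) hW]

theorem lr_main {n : ℕ} (d : Fin n → ℕ) (hd : ∀ i, 1 ≤ d i) (s : Fin n → Fin n → Fin n → ℤ) :
    ∃ (β : ℚ) (C : ℝ), 1 ≤ C ∧ ∀ r : ℝ, 1 ≤ r →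
      (∃ L : Submodule ℤ (Fin n → ℤ), Full L ∧ (∀ x ∈ L, ∀ y ∈ L, br s x y ∈ L) ∧
        (∀ v ∈ L, InBox d (r / C) (fun i => (v i : ℝ)) → v = 0) ∧
        (L.toAddSubgroup.index : ℝ) ≤ C * r ^ (β : ℝ)) ∧
      ∀ L : Submodule ℤ (Fin n → ℤ), Full L → (∀ x ∈ L, ∀ y ∈ L, br s x y ∈ L) →
        (∀ v ∈ L, InBox d r (fun i => (v i : ℝ)) → v = 0) →
        r ^ (β : ℝ) ≤ C * L.toAddSubgroup.index := by
  classical
  obtain ⟨T, _, Gt, h1, h2⟩ := lr_types s
  obtain ⟨G, g0, g1⟩ : ∃ G : Option T → Matrix (Fin n) (Fin n) kk[X],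
    G none = (X : kk[X]) • 1 ∧ ∀ t, G (some t) = Gt t := ⟨fun o => o.elim _ Gt, rfl, fun _ => rfl⟩
  have hG : ∀ t, IsType s (G t) 0 := by
    rintro (_ | t)
    · exact g0 ▸ isType_X s
    · exact g1 t ▸ h1 t
  obtain ⟨β, c, S, c0, c1, c2, c3⟩ := lp_min (fun (W : Submodule ℚ (Fin n → ℚ)) t => Dt (G t) 0 W)
    (dinf d) (fun t => cost (G t) 0) (∑ t, n * (G t).det.natTrailingDegree + ∑ i, d i)
    (fun W t => (abs_Dt_le (hG t).1 0 W).trans (by
      exact_mod_cast (Finset.single_le_sum (f := fun t => n * (G t).det.natTrailingDegree)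
        (fun _ _ => Nat.zero_le _) (Finset.mem_univ t)).trans (Nat.le_add_right _ _)))
    (fun W => (dinf_le_sum d W).trans (Nat.le_add_left _ _)) none
    (fun W => (ne_or_eq W ⊥).imp (fun h => by
      rw [g0, Dt_X]
      exact_mod_cast Submodule.one_le_finrank_iff.2 h)
      fun h : W = ⊥ => h ▸ ⟨dinf_bot d, fun t => Dt_bot _ _⟩)
    fun c _ h => by simpa only [Dt_top (hG _).1] using h ⊤
  obtain ⟨C, C1, hU⟩ := upper_lr d hd s G (fun _ => 0) hG c c0 c1
  obtain ⟨C₀, h3⟩ := h2 S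
  obtain ⟨C₁, h4⟩ := c3 (C₀ + ∑ W ∈ S, Real.log (Ht W) + n * Real.log (n + 1))
  refine ⟨β, max C (Real.exp (C₁ + C₀)), le_max_of_le_left C1, fun r hr => ⟨?_, fun L hL hl hb => ?_⟩⟩
  · obtain ⟨L, Q, l1, -, l2, l3, l4, l5⟩ := hU r hr
    obtain rfl := l2 fun _ => rfl
    refine ⟨L, l1, fun x hx y hy => ?_, fun v hv hb => l4 v hv fun i => ?_, ?_⟩
    · obtain ⟨z, z1, z2⟩ := l3 x hx y hy
      exact z2 ▸ L.smul_mem _ z1
    · simp only [Nat.cast_one, div_one]
      exact (hb i).trans (pow_le_pow_left₀ (by positivity)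
        (div_le_div_of_nonneg_left (by positivity) (by positivity) (le_max_left _ _)) _)
    · rw [c2, Nat.cast_one, one_pow, mul_one] at l5
      exact l5.trans (mul_le_mul_of_nonneg_right (le_max_left _ _) (by positivity))
  · have r0 : 0 < r := one_pos.trans_le hr
    obtain ⟨c', e0, e1, e2⟩ := h3 L hL hl
    have h5 := h4 _ (Real.log_nonneg hr) (fun o => o.elim 0 c') (fun o => o.rec le_rfl e0) fun W hW => by
      have k1 := Real.log_le_log (by positivity)
        (cov_minkowski d r0 (LW L W) fun v hv => hb v hv.1)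
      have k2 := Real.log_le_log (cov_pos d r0 _) (cov_top_le d hr W)
      rw [Real.log_div (one_pos.trans_le (one_le_Ht W)).ne' (by positivity), Real.log_pow] at k2
      rw [one_div, Real.log_inv, Real.log_pow] at k1
      simp only [Fintype.sum_option, Option.elim, zero_mul, zero_add, g1]
      linarith [e2 W hW d r r0, Finset.single_le_sum (fun W _ => Real.log_nonneg (one_le_Ht W)) hW]
    simp only [Fintype.sum_option, Option.elim, zero_mul, zero_add, g1] at h5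
    obtain ⟨Y, y0, y1⟩ := exists_square_basis hL
    have i0 : (0 : ℝ) < L.toAddSubgroup.index := by
      rw [index_eq_det y1]
      exact_mod_cast Int.natAbs_pos.2 y0
    refine le_trans ?_ (mul_le_mul_of_nonneg_right (le_max_right _ _) i0.le)
    rw [Real.rpow_def_of_pos r0, ← Real.exp_log i0, ← Real.exp_add]
    exact Real.exp_le_exp.2 (by linarith)

end Pool.Agent.Work.MP_913e71_al.Pos
end

-- merged part: Pool.Agent.Work.MP_913e71_al.Pos.MalSys
section
/-! Subgroups and Lie rings.  `D = ∑ i, d i`.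

PLAN.  `grow`: `g ↦ N • lg g` injects `ball r` into `ZB (N * C * r)`; `v ↦` an element with
`lg g = N • v` injects `ZB (r / (C * N))` into `ball r` (for `r < C * N` use `1 ∈ ball r`); `ZB_count`.
`up`: `K` from `exists_bch_den`; `Λ = {g | lg g ∈ (K * N) • L}` is a subgroup (apply `exists_bch_den` to the
image of `N • L` in `ℝ ^ n`, `br_intCast`), and each `(K * N) • v`, `v ∈ L`, is a logarithm (`hI.full`).
For each `m` with `Λ.index = 0 ∨ m ≤ Λ.index` and large `R`: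
`m * ncard (ZB (R / (C K N)) ∩ L) ≤ m * ncard (ball R ∩ Λ) ≤ ncard (ball (2 R)) ≤ C (2 R) ^ D`
(`index_mul_le_ball`, `grow`) and `lat_count` give `m ≤ C' * index L`.  So the index is not zero.
`low`: `X = {v | ∃ g ∈ Λ, N • lg g = v}`; `min_det` (`ib_add`; the span is full since some fixed power of
every element lies in `Λ`: `Subgroup.normalCore`, `pow_index_mem`, and `hI.full`); `br s x y ∈ X` for
`x y ∈ X` (`ib_br`), so the span is a Lie ring; `L = N' • span X ⊆ X`.  Index: `g ↦ N' • N • lg g` injects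
`ball (2 R) ∩ Λ` into `ZB (N' N C 2 R) ∩ L`; `ball_le_index_mul`, `grow`, `lat_count`.
`sysTwo`: `lr_main` with `up` (at the radius `C₀ * C * r`) and `low`. -/

namespace Pool.Agent.Work.MP_913e71_al.Pos

variable {G : Type} [Group G] {n : ℕ} (M : Mal G n) {S : Finset G}

/-- The inclusion of the integer points. -/
def MalSys_c (n : ℕ) : (Fin n → ℤ) →+ (Fin n → ℝ) := (Int.castAddHom ℝ).compLeft (Fin n)

theorem MalSys_eq (v : Fin n → ℤ) : (fun i => (v i : ℝ)) = MalSys_c n v := rfl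

theorem MalSys_inj : Function.Injective (MalSys_c n) := fun _ _ h =>
  funext fun i => Int.cast_injective (α := ℝ) (congrFun h i)

theorem MalSys_br (s : Fin n → Fin n → Fin n → ℤ) (x y : Fin n → ℤ) :
    MalSys_c n (br s x y) = br s (MalSys_c n x) (MalSys_c n y) := (br_intCast s x y).symm

theorem MalSys_A (hS : Subgroup.closure (S : Set G) = ⊤) : ∃ C : ℝ, 1 ≤ C ∧ ∀ K : ℕ, 0 < K →
    ∀ (Λ : Set G) (L : Set (Fin n → ℤ)), (∀ g ∈ Λ, ∃ v ∈ L, K • M.lg g = MalSys_c n v) →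
      ∀ r : ℝ, 1 ≤ r → (ball (S : Set G) r ∩ Λ).ncard ≤ (ZB M.d (K * (C * r)) ∩ L).ncard := by
  obtain ⟨C, h1, h2⟩ := M.ball_box_fin hS
  refine ⟨C, h1, fun K hK Λ L h r hr => ?_⟩
  choose! f h3 h4 using h
  refine Set.ncard_le_ncard_of_injOn f (fun g hg => ⟨?_, h3 g hg.2⟩) (fun g hg g' hg' e => M.inj ?_)
    ((ZB_finite _ _).inter_of_left _)
  · have := (h2 g r hr hg.1).nsmul M.hd (by positivity) hK
    rwa [h4 g hg.2] at this
  · exact nsmul_right_injective hK.ne' ((h4 g hg.2).trans (e ▸ (h4 g' hg'.2).symm))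

theorem MalSys_B (hS : Subgroup.closure (S : Set G) = ⊤) (hI : M.Int S) : ∃ C : ℝ, 1 ≤ C ∧
    ∀ K : ℕ, 0 < K → ∀ (Λ : Set G) (L : Set (Fin n → ℤ)),
      (∀ v ∈ L, ∃ g ∈ Λ, M.lg g = K • MalSys_c n v) →
      ∀ r : ℝ, 1 ≤ r → (ZB M.d r ∩ L).ncard ≤ (ball (S : Set G) (C * (K * r)) ∩ Λ).ncard := by
  obtain ⟨C, h1, h2⟩ := M.box_ball hS hI
  refine ⟨C, h1, fun K hK Λ L h r hr => ?_⟩
  choose! f h3 h4 using h
  refine Set.ncard_le_ncard_of_injOn f (fun v hv => ⟨h2 _ _ ?_ ?_, h3 v hv.2⟩)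
    (fun v hv v' hv' e => MalSys_inj ?_) ((ball_finite hS _).inter_of_left _)
  · exact one_le_mul_of_one_le_of_one_le (Nat.one_le_cast.2 hK) hr
  · rw [h4 v hv.2]
    exact InBox.nsmul M.hd (by positivity) hv.1 hK
  · exact nsmul_right_injective hK.ne' ((h4 v hv.2).symm.trans (e ▸ h4 v' hv'.2))

theorem Mal.grow (hS : Subgroup.closure (S : Set G) = ⊤) (hI : M.Int S) :
    GrowTwo (S : Set G) (∑ i, M.d i) := by
  obtain ⟨C1, h1, h2⟩ := MalSys_A M hS
  obtain ⟨C2, h3, h4⟩ := MalSys_B M hS hI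
  have hN : (1 : ℝ) ≤ M.N := Nat.one_le_cast.2 M.hN
  have h5 := one_le_mul_of_one_le_of_one_le hN h1
  have h6 := one_le_mul_of_one_le_of_one_le h3 hN
  generalize hD : ∑ i, M.d i = D
  have h7 : 1 ≤ (C2 * M.N) ^ D := one_le_pow₀ h6
  refine ⟨3 ^ n * (M.N * C1) ^ D + (C2 * M.N) ^ D, le_add_of_nonneg_of_le (by positivity) h7,
    fun r hr => ⟨?_, ?_⟩⟩
  · refine le_trans ?_ (mul_le_mul_of_nonneg_right (le_add_of_nonneg_left (by positivity))
      (Nat.cast_nonneg _))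
    rcases le_total r (C2 * M.N) with h | h
    · refine (pow_le_pow_left₀ (by positivity) h D).trans (le_mul_of_one_le_right (by positivity) ?_)
      refine Nat.one_le_cast.2 ((Set.ncard_pos (ball_finite hS r)).2 ⟨1, ?_⟩)
      rw [ball, Set.mem_setOf_eq, wordLength_one, Nat.cast_zero]
      positivity
    · have h8 : 1 ≤ r / (C2 * M.N) := (one_le_div (by positivity)).2 h
      have h9 := h4 M.N M.hN Set.univ Set.univ (fun v _ => (hI.full v).imp fun g hg => ⟨trivial, hg⟩) _ h8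
      have e : C2 * M.N * (r / (C2 * M.N)) = r := by field_simp
      rw [Set.inter_univ, Set.inter_univ, ← mul_assoc, e] at h9
      have h10 := (ZB_count M.d h8).1.trans (Nat.cast_le.2 h9)
      rw [hD] at h10
      conv_lhs => rw [← e, mul_pow]
      exact mul_le_mul_of_nonneg_left h10 (by positivity)
  · have h9 := h2 M.N M.hN Set.univ Set.univ (fun g _ => (hI.int g).imp fun g hg => ⟨trivial, hg⟩) _ hr
    rw [Set.inter_univ, Set.inter_univ, ← mul_assoc] at h9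
    have h10 := (Nat.cast_le.2 h9).trans (ZB_count M.d (one_le_mul_of_one_le_of_one_le h5 hr)).2
    rw [hD, mul_pow, ← mul_assoc] at h10
    exact h10.trans (mul_le_mul_of_nonneg_right (le_add_of_nonneg_right (by positivity))
      (by positivity))

theorem Mal.up (hS : Subgroup.closure (S : Set G) = ⊤) (hI : M.Int S) :
    ∃ C : ℝ, 1 ≤ C ∧ ∀ L : Submodule ℤ (Fin n → ℤ), Full L →
      (∀ x ∈ L, ∀ y ∈ L, br M.s x y ∈ L) → ∃ Λ : Subgroup G, Λ.FiniteIndex ∧
        (Λ.index : ℝ) ≤ C * L.toAddSubgroup.index ∧ ∀ r : ℝ, 1 ≤ r →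
          (∀ v ∈ L, InBox M.d (C * r) (fun i => (v i : ℝ)) → v = 0) →
          ∀ x ∈ Λ, x ≠ 1 → r ≤ (wordLength (S : Set G) x : ℝ) := by
  obtain ⟨C1, h1, h2⟩ := M.ball_box_fin hS
  obtain ⟨C2, h3, h4⟩ := MalSys_B M hS hI
  obtain ⟨Cg, h5, h6⟩ := M.grow hS hI
  obtain ⟨Cl, h7, h8⟩ := lat_count M.hd
  obtain ⟨K, hK, h9⟩ := exists_bch_den M.q M.len2
  have hb := bil_br M.s
  have hK' := Nat.mul_pos hK M.hN
  have hC := one_le_mul_of_one_le_of_one_le h3 (Nat.one_le_cast.2 hK')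
  generalize ∑ i, M.d i = D at h6 h8
  refine ⟨C1 + Cl * Cg * (2 * (C2 * (K * M.N : ℕ))) ^ D, le_add_of_le_of_nonneg h1 (by positivity),
    fun L hL hlie => ?_⟩
  let Λ : Subgroup G :=
    { carrier := {g | ∃ v ∈ L, M.lg g = K • M.N • MalSys_c n v}
      one_mem' := ⟨0, L.zero_mem, by rw [M.lg_one, map_zero, smul_zero, smul_zero]⟩
      inv_mem' := fun ⟨v, hv, e⟩ => ⟨-v, L.neg_mem hv, by rw [M.lg_inv, e, map_neg, smul_neg, smul_neg]⟩
      mul_mem' := fun ⟨v, hv, e⟩ ⟨v', hv', e'⟩ => by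
        obtain ⟨_, ⟨z, hz, rfl⟩, e2⟩ := h9 _ _ hb (L.toAddSubgroup.map (M.N • MalSys_c n)) (by
          rintro _ ⟨x, hx, rfl⟩ _ ⟨y, hy, rfl⟩
          refine ⟨M.N • br M.s x y, nsmul_mem (hlie x hx y hy) _, ?_⟩
          simp only [AddMonoidHom.nsmul_apply, map_nsmul, hb.nsmul_left, hb.nsmul_right, MalSys_br])
          _ ⟨v, hv, rfl⟩ _ ⟨v', hv', rfl⟩
        exact ⟨z, hz, by rw [M.mul, e, e']; exact e2⟩ }
  have key : ∀ m : ℕ, Λ.index = 0 ∨ m ≤ Λ.index →
      (m : ℝ) ≤ Cl * Cg * (2 * (C2 * (K * M.N : ℕ))) ^ D * L.toAddSubgroup.index := fun m hm => by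
    obtain ⟨R0, a1⟩ := index_mul_le_ball hS Λ m hm
    obtain ⟨R1, a2⟩ := h8 L hL
    obtain ⟨ρ, r0, r1, r2⟩ : ∃ ρ : ℝ, R0 ≤ ρ ∧ R1 ≤ ρ ∧ 1 ≤ ρ :=
      ⟨max R0 (max R1 1), by simp, by simp, by simp⟩
    have a3 := h4 _ hK' Λ L (fun v hv => (hI.full (K • v)).imp fun g hg => by
      rw [MalSys_eq, map_nsmul, smul_comm] at hg
      exact ⟨⟨v, hv, hg⟩, by rw [hg, mul_smul]⟩) ρ r2
    rw [← mul_assoc] at a3
    have a4 : ρ ≤ C2 * (K * M.N : ℕ) * ρ := le_mul_of_one_le_left (by positivity) hC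
    have a6 := (Nat.cast_le.2 ((Nat.mul_le_mul_left m a3).trans (a1 _ (r0.trans a4)))).trans
      (h6 _ (by linarith)).2
    rw [Nat.cast_mul] at a6
    refine le_of_mul_le_mul_right ?_ (by positivity : 0 < ρ ^ D)
    refine (mul_le_mul_of_nonneg_left (a2 ρ r1).1 (Nat.cast_nonneg m)).trans ?_
    rw [mul_left_comm]
    refine (mul_le_mul_of_nonneg_left a6 (by positivity)).trans_eq ?_
    rw [← mul_assoc 2, mul_pow _ ρ]
    ring
  refine ⟨Λ, ⟨fun h0 => ?_⟩, (key _ (Or.inr le_rfl)).trans (mul_le_mul_of_nonneg_right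
    (le_add_of_nonneg_left (by positivity)) (Nat.cast_nonneg _)), fun r hr h x ⟨v, hv, e⟩ hx => ?_⟩
  · obtain ⟨m, hm⟩ := exists_nat_gt (Cl * Cg * (2 * (C2 * (K * M.N : ℕ))) ^ D * L.toAddSubgroup.index)
    exact (key m (Or.inl h0)).not_gt hm
  · refine le_of_not_ge fun hl => hx (M.inj ?_)
    have b1 := h2 x r hr hl
    rw [e] at b1
    have b2 := h v hv (((b1.of_nsmul hK).of_nsmul M.hN).mono (by positivity)
      (mul_le_mul_of_nonneg_right (le_add_of_nonneg_right (by positivity)) (by positivity)))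
    rw [e, b2, M.lg_one, map_zero, smul_zero, smul_zero]

theorem Mal.low (hS : Subgroup.closure (S : Set G) = ⊤) (hI : M.Int S) :
    ∃ C : ℝ, 1 ≤ C ∧ ∀ Λ : Subgroup G, Λ.FiniteIndex → ∃ L : Submodule ℤ (Fin n → ℤ), Full L ∧
      (∀ x ∈ L, ∀ y ∈ L, br M.s x y ∈ L) ∧ (L.toAddSubgroup.index : ℝ) ≤ C * Λ.index ∧
        ∀ r : ℝ, 1 ≤ r → (∀ x ∈ Λ, x ≠ 1 → C * r ≤ (wordLength (S : Set G) x : ℝ)) →
          ∀ v ∈ L, InBox M.d r (fun i => (v i : ℝ)) → v = 0 := by
  obtain ⟨C1, h1, h2⟩ := MalSys_A M hS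
  obtain ⟨C2, h3, h4⟩ := M.box_ball hS hI
  obtain ⟨Cg, h5, h6⟩ := M.grow hS hI
  obtain ⟨Cl, h7, h8⟩ := lat_count M.hd
  obtain ⟨K, hK, h9⟩ := min_det n M.N M.hN
  have hb := bil_br M.s
  have hK' := Nat.mul_pos hK M.hN
  have hC := one_le_mul_of_one_le_of_one_le (Nat.one_le_cast.2 hK') h1
  generalize ∑ i, M.d i = D at h6 h8
  refine ⟨C2 + Cl * Cg * ((K * M.N : ℕ) * (C1 * 2)) ^ D, le_add_of_le_of_nonneg h3 (by positivity),
    fun Λ hΛ => ?_⟩
  obtain ⟨X, hX⟩ : ∃ X : Set (Fin n → ℤ), ∀ v, v ∈ X ↔ ∃ g ∈ Λ, M.N • M.lg g = MalSys_c n v :=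
    ⟨{v | ∃ g ∈ Λ, M.N • M.lg g = MalSys_c n v}, fun _ => Iff.rfl⟩
  have hF : Full (Submodule.span ℤ X) := by
    refine ⟨M.N * (Λ.index.factorial * M.N),
      Nat.mul_pos M.hN (Nat.mul_pos (Nat.factorial_pos _) M.hN), fun v => Submodule.subset_span ?_⟩
    obtain ⟨g, hg⟩ := hI.full v
    refine (hX _).2 ⟨g ^ Λ.index.factorial, Subgroup.pow_mem_of_index_ne_zero_of_dvd
      hΛ.index_ne_zero g fun m a b => Nat.dvd_factorial a b, ?_⟩
    rw [M.lg_pow, hg, natCast_zsmul, map_nsmul, mul_smul, mul_smul, MalSys_eq]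
  have hm := h9 X ((hX _).2 ⟨1, Λ.one_mem, by rw [M.lg_one, smul_zero, map_zero]⟩) (fun x hx k => by
    obtain ⟨g, hg, e⟩ := (hX _).1 hx
    exact (hX _).2 ⟨g ^ k, Λ.zpow_mem hg k, by rw [M.zpow, map_zsmul, ← e, smul_comm]⟩)
    (fun x hx y hy => by
      obtain ⟨g, hg, e⟩ := (hX _).1 hx
      obtain ⟨g', hg', e'⟩ := (hX _).1 hy
      obtain ⟨z, hz, e2⟩ := M.ib_add Λ g hg g' hg'
      exact (hX _).2 ⟨z, hz, by rw [e2, map_nsmul, map_add, ← e, ← e', ← smul_add]⟩) hF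
  let b : (Fin n → ℤ) →ₗ[ℤ] (Fin n → ℤ) →ₗ[ℤ] (Fin n → ℤ) := LinearMap.mk₂ ℤ (br M.s)
    (fun x y z => MalSys_inj (by simp only [MalSys_br, map_add, hb.add_left]))
    (fun a x y => MalSys_inj (by simp only [MalSys_br, map_zsmul, hb.zsmul_left]))
    (fun x y z => MalSys_inj (by simp only [MalSys_br, map_add, hb.add_right]))
    (fun a x y => MalSys_inj (by simp only [MalSys_br, map_zsmul, hb.zsmul_right]))
  have hl : Submodule.map₂ b (Submodule.span ℤ X) (Submodule.span ℤ X) ≤ Submodule.span ℤ X := by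
    rw [Submodule.map₂_span_span]
    refine Submodule.span_mono ?_
    rintro _ ⟨x, hx, y, hy, rfl⟩
    obtain ⟨g, hg, e⟩ := (hX _).1 hx
    obtain ⟨g', hg', e'⟩ := (hX _).1 hy
    obtain ⟨z, hz, e2⟩ := M.ib_br Λ g hg g' hg'
    refine (hX _).2 ⟨z, hz, ?_⟩
    rw [e2, ← hb.nsmul_right, ← hb.nsmul_left, e, e']
    exact (MalSys_br _ _ _).symm
  have hF' : Full ((Submodule.span ℤ X).map ((K : ℤ) • LinearMap.id)) := by
    obtain ⟨N0, a1, a2⟩ := hF
    exact ⟨K * N0, Nat.mul_pos hK a1, fun v => ⟨_, a2 v, by rw [Nat.cast_mul, mul_smul]; rfl⟩⟩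
  refine ⟨_, hF', ?_, ?_, ?_⟩
  · rintro _ ⟨x, hx, rfl⟩ _ ⟨y, hy, rfl⟩
    exact ⟨_, hl (Submodule.apply_mem_map₂ b hx (Submodule.smul_mem _ (K : ℤ) hy)),
      (LinearMap.map_smul₂ b (K : ℤ) x _).symm⟩
  · obtain ⟨R1, a2⟩ := h8 _ hF'
    obtain ⟨ρ, r1, r2⟩ : ∃ ρ : ℝ, R1 ≤ ρ ∧ 1 ≤ ρ := ⟨max R1 1, by simp, by simp⟩
    have a3 := h2 _ hK' Λ ((Submodule.span ℤ X).map ((K : ℤ) • LinearMap.id)) (fun g hg => by
      obtain ⟨v, hv⟩ := hI.int g
      refine ⟨_, ⟨v, Submodule.subset_span ((hX _).2 ⟨g, hg, hv⟩), rfl⟩, ?_⟩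
      rw [mul_smul, hv, MalSys_eq, ← map_nsmul, ← natCast_zsmul]
      rfl) (2 * ρ) (by linarith)
    have a4 : ρ ≤ (K * M.N : ℕ) * (C1 * (2 * ρ)) := by
      rw [← mul_assoc]
      exact le_trans (by linarith) (le_mul_of_one_le_left (by positivity) hC)
    have a5 := (a2 _ (r1.trans a4)).2
    have a6 := (Nat.cast_le (α := ℝ)).2 ((ball_le_index_mul hS Λ ρ).trans (Nat.mul_le_mul_left _ a3))
    rw [Nat.cast_mul] at a6
    refine le_trans ?_ (mul_le_mul_of_nonneg_right (le_add_of_nonneg_left (by positivity))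
      (Nat.cast_nonneg _))
    refine le_of_mul_le_mul_right ?_ (by positivity : 0 < ρ ^ D)
    refine (mul_le_mul_of_nonneg_left ((h6 ρ r2).1.trans (mul_le_mul_of_nonneg_left a6
      (by positivity))) (Nat.cast_nonneg _)).trans ?_
    rw [← mul_assoc Cg, mul_left_comm]
    refine (mul_le_mul_of_nonneg_left a5 (by positivity)).trans_eq ?_
    rw [← mul_assoc C1, ← mul_assoc _ _ ρ, mul_pow _ ρ]
    ring
  · rintro r hr h _ ⟨v, hv, rfl⟩ hw
    obtain ⟨g, hg, e⟩ := (hX _).1 (hm v hv)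
    rw [← natCast_zsmul v] at e
    have b1 := h4 g r hr (InBox.of_nsmul M.hN (e ▸ hw))
    have b2 : g = 1 := by
      by_contra h0
      have b3 := (h g hg h0).trans b1
      have b4 : 0 < Cl * Cg * ((K * M.N : ℕ) * (C1 * 2)) ^ D * r := by positivity
      linarith
    rw [b2, M.lg_one, smul_zero] at e
    exact MalSys_inj (e.symm.trans (map_zero _).symm)

theorem Mal.sysTwo (hS : Subgroup.closure (S : Set G) = ⊤) (hI : M.Int S) :
    ∃ β : ℚ, SysTwo (S : Set G) (β : ℝ) := by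
  obtain ⟨β, C0, h0, h1⟩ := lr_main M.d M.hd M.s
  obtain ⟨Cu, h2, h3⟩ := M.up hS hI
  obtain ⟨Cw, h4, h5⟩ := M.low hS hI
  have h6 : Cw ≤ C0 * Cw := le_mul_of_one_le_left (by positivity) h0
  have h7 : C0 * Cw ≤ Cu * C0 * (C0 * Cu) ^ (β : ℝ) + C0 * Cw := le_add_of_nonneg_left (by positivity)
  refine ⟨β, _, h4.trans (h6.trans h7), fun r hr => ⟨?_, fun Λ hΛ h => ?_⟩⟩
  · obtain ⟨L, a1, a2, a3, a4⟩ := (h1 (C0 * (Cu * r)) (one_le_mul_of_one_le_of_one_le h0
      (one_le_mul_of_one_le_of_one_le h2 hr))).1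
    obtain ⟨Λ, b1, b2, b3⟩ := h3 L a1 a2
    rw [mul_div_cancel_left₀ _ (by positivity)] at a3
    refine ⟨Λ, b1, b3 r hr a3, b2.trans ((mul_le_mul_of_nonneg_left a4 (by positivity)).trans ?_)⟩
    rw [← mul_assoc C0 Cu, Real.mul_rpow (by positivity) (by positivity), ← mul_assoc, ← mul_assoc]
    exact mul_le_mul_of_nonneg_right (le_add_of_nonneg_right (by positivity)) (by positivity)
  · obtain ⟨L, a1, a2, a3, a4⟩ := h5 Λ hΛ
    refine ((h1 r hr).2 L a1 a2 (a4 r hr fun x hx e => le_trans ?_ (h x hx e))).trans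
      ((mul_le_mul_of_nonneg_left a3 (by positivity)).trans ?_)
    · exact mul_le_mul_of_nonneg_right (h6.trans h7) (by positivity)
    · rw [← mul_assoc]
      exact mul_le_mul_of_nonneg_right h7 (Nat.cast_nonneg _)

end Pool.Agent.Work.MP_913e71_al.Pos
end

-- merged part: Pool.Agent.Work.MP_913e71_al.Pos.Adapt
section
/-! A basis adapted to a finite filtration, with integer structure constants.

PLAN.  `exists_flag_basis`: descending induction on `k` from `c + 1` to `1`: a finite linearly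
independent set with weights spanning `F k` is extended to one spanning `F (k - 1)`
(`exists_linearIndependent_extension` / `LinearIndependent.extend`, new vectors get weight `k - 1`);
finally reindex by `Fin n`.  `exists_adapted`: `b (e i) (e j) ∈ F (d i + d j)` gives rational constants
supported on `d i + d j ≤ d l`; multiply all `e i` by a common denominator. -/

namespace Pool.Agent.Work.MP_913e71_al.Pos

variable {V : Type} [AddCommGroup V] [Module ℚ V]

theorem Adapt_set {F : ℕ → Submodule ℚ V} (hF : Antitone F) {c : ℕ} (hc : F (c + 1) = ⊥)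
    (j : ℕ) : ∀ m, m + j = c + 1 → ∃ (B : Set V) (w : V → ℕ), LinearIndepOn ℚ id B ∧
      (∀ x ∈ B, m ≤ w x) ∧ ∀ k, m ≤ k → F k = Submodule.span ℚ {x | x ∈ B ∧ k ≤ w x} := by
  classical
  induction j with
  | zero =>
    intro m hm
    refine ⟨∅, fun _ => 0, linearIndepOn_empty _ _, fun x hx => hx.elim, fun k hk => ?_⟩
    have h1 : F k = ⊥ := le_bot_iff.1 (hc ▸ hF (by omega : c + 1 ≤ k))
    rw [h1]
    simp
  | succ j ih =>
    intro m hm
    obtain ⟨B, w, hB, hw, hk⟩ := ih (m + 1) (by omega)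
    have hBF : B ⊆ (F m : Set V) := fun x hx => by
      refine hF (Nat.le_succ m) ?_
      rw [hk (m + 1) le_rfl]
      exact Submodule.subset_span ⟨hx, hw x hx⟩
    obtain ⟨B', h1, h2, h3, h4⟩ := exists_linearIndepOn_id_extension hB hBF
    have hw' : ∀ x ∈ B', m ≤ if x ∈ B then w x else m := fun x _ => by
      split_ifs with hx
      · exact (Nat.le_succ m).trans (hw x hx)
      · exact le_rfl
    refine ⟨B', fun x => if x ∈ B then w x else m, h4, hw', fun k hmk => ?_⟩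
    rcases hmk.eq_or_lt with rfl | hlt
    · refine le_antisymm (fun x hx => ?_) (Submodule.span_le.2 fun x hx => h1 hx.1)
      refine Submodule.span_mono ?_ (h3 hx)
      intro y hy
      exact ⟨hy, hw' y hy⟩
    · rw [hk k hlt]
      congr 1
      ext x
      simp only [Set.mem_ofPred_eq]
      constructor
      · rintro ⟨hx, hx'⟩
        exact ⟨h2 hx, by rw [if_pos hx]; exact hx'⟩
      · rintro ⟨_, hx'⟩
        by_cases hxB : x ∈ B
        · rw [if_pos hxB] at hx'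
          exact ⟨hxB, hx'⟩
        · rw [if_neg hxB] at hx'
          omega

theorem exists_flag_basis {F : ℕ → Submodule ℚ V} (hF : Antitone F) (hfin : (F 1).FG) {c : ℕ}
    (hc : F (c + 1) = ⊥) :
    ∃ (n : ℕ) (e : Fin n → V) (d : Fin n → ℕ), LinearIndependent ℚ e ∧ (∀ i, 1 ≤ d i) ∧
      ∀ k, 1 ≤ k → F k = Submodule.span ℚ (e '' {i | k ≤ d i}) := by
  obtain ⟨B, w, hB, hw, hk⟩ := Adapt_set hF hc c 1 (by omega)
  obtain ⟨t, ht⟩ := hfin
  have hBt : B ⊆ Submodule.span ℚ (t : Set V) := fun x hx => by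
    rw [ht, hk 1 le_rfl]
    exact Submodule.subset_span ⟨hx, hw x hx⟩
  obtain ⟨hfB, -⟩ := exists_finite_card_le_of_finite_of_linearIndependent_of_span t.finite_toSet
    hB hBt
  have : Finite B := hfB
  let E := (Finite.equivFin B).symm
  refine ⟨Nat.card B, fun i => (E i : V), fun i => w (E i), ?_, fun i => hw _ (E i).2,
    fun k h1 => ?_⟩
  · exact LinearIndependent.comp hB E E.injective
  · rw [hk k h1]
    congr 1
    ext x
    constructor
    · rintro ⟨hx, hx'⟩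
      refine ⟨E.symm ⟨x, hx⟩, ?_, ?_⟩
      · show k ≤ w (E (E.symm ⟨x, hx⟩))
        rw [Equiv.apply_symm_apply]
        exact hx'
      · show ((E (E.symm ⟨x, hx⟩) : B) : V) = x
        rw [Equiv.apply_symm_apply]
    · rintro ⟨i, hi, rfl⟩
      exact ⟨(E i).2, hi⟩

theorem exists_adapted {b : V → V → V} (hb : Bil b) {F : ℕ → Submodule ℚ V} (hF : Filt b F)
    (hfin : (F 1).FG) {c : ℕ} (hc : F (c + 1) = ⊥) :
    ∃ (n : ℕ) (e : Fin n → V) (d : Fin n → ℕ) (s : Fin n → Fin n → Fin n → ℤ),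
      LinearIndependent ℚ e ∧ (∀ i, 1 ≤ d i) ∧
      (∀ k, 1 ≤ k → F k = Submodule.span ℚ (e '' {i | k ≤ d i})) ∧
      (∀ i j, b (e i) (e j) = ∑ l, s i j l • e l) ∧
      ∀ i j l, s i j l ≠ 0 → d i + d j ≤ d l := by
  obtain ⟨n, e, d, he, hd, hk⟩ := exists_flag_basis hF.anti hfin hc
  have hmem : ∀ i, e i ∈ F (d i) := fun i => by
    rw [hk _ (hd i)]
    exact Submodule.subset_span ⟨i, le_refl (d i), rfl⟩
  have hq : ∀ i j, ∃ q : Fin n →₀ ℚ, (∀ l, q l ≠ 0 → d i + d j ≤ d l) ∧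
      b (e i) (e j) = ∑ l, q l • e l := fun i j => by
    have h1 := hF.br_mem _ _ _ (hmem i) _ (hmem j)
    rw [hk _ ((hd i).trans (Nat.le_add_right _ _)),
      Finsupp.mem_span_image_iff_linearCombination] at h1
    obtain ⟨q, hq, hq'⟩ := h1
    refine ⟨q, fun l hl => ?_, ?_⟩
    · exact (Finsupp.mem_supported _ _).1 hq (Finset.mem_coe.2 (Finsupp.mem_support_iff.2 hl))
    · rw [← hq', Finsupp.linearCombination_apply, Finsupp.sum_fintype]
      intro l
      simp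
  choose q hq0 hq1 using hq
  obtain ⟨N, hN⟩ := IsLocalization.exist_integer_multiples_of_finite (nonZeroDivisors ℤ)
    (S := ℚ) fun x : Fin n × Fin n × Fin n => q x.1 x.2.1 x.2.2
  have hN0 : ((N : ℤ) : ℚ) ≠ 0 := Int.cast_ne_zero.2 (nonZeroDivisors.coe_ne_zero N)
  have hs : ∀ i j l, ∃ s : ℤ, (s : ℚ) = ((N : ℤ) : ℚ) * q i j l := fun i j l => by
    obtain ⟨s, hs⟩ := hN (i, j, l)
    refine ⟨s, ?_⟩
    simpa using hs
  choose s hs using hs
  refine ⟨n, fun i => ((N : ℤ) : ℚ) • e i, d, s, ?_, hd, fun k h1 => ?_, fun i j => ?_,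
    fun i j l h => hq0 i j l fun h0 => h ?_⟩
  · exact he.units_smul fun _ => Units.mk0 _ hN0
  · rw [hk k h1]
    refine le_antisymm (Submodule.span_le.2 ?_) (Submodule.span_le.2 ?_)
    · rintro _ ⟨i, hi, rfl⟩
      have h2 : ((N : ℤ) : ℚ) • e i ∈ Submodule.span ℚ
          ((fun i => ((N : ℤ) : ℚ) • e i) '' {i | k ≤ d i}) := Submodule.subset_span ⟨i, hi, rfl⟩
      have h3 := Submodule.smul_mem _ ((N : ℤ) : ℚ)⁻¹ h2
      rw [inv_smul_smul₀ hN0] at h3
      exact h3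
    · rintro _ ⟨i, hi, rfl⟩
      exact Submodule.smul_mem _ _ (Submodule.subset_span ⟨i, hi, rfl⟩)
  · rw [hb.smul_left, hb.smul_right, hq1, Finset.smul_sum, Finset.smul_sum]
    refine Finset.sum_congr rfl fun l _ => ?_
    rw [← Int.cast_smul_eq_zsmul ℚ (s i j l), hs, smul_smul, smul_smul, smul_smul]
    congr 1
    ring
  · have h1 := hs i j l
    rw [h0, mul_zero] at h1
    exact_mod_cast h1

end Pool.Agent.Work.MP_913e71_al.Pos
end

-- merged part: Pool.Agent.Work.MP_913e71_al.Pos.MalEx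
section
/-! Existence of logarithmic coordinates.

PLAN for `mal_of_rep`.  `q` from `exists_bch`, `K₀` from `inv_bch`, `M.N = K * K₀`, `lg a = lam (L a)`.
`L (a * b) = bch cm q (L a) (L b)`, `L a⁻¹ = - L a`, `L (a ^ k) = k • L a` by `exp_inj`; `map_bch`.  For
`comm` use `comm_cong` with `F k = g ⊓ (Fil d k).comap lam` (`filt_Fil`) and the exponents `max i 1`,
`max j 1` (`mem_Fil_one`).  For a subgroup `Λ` the set `L '' Λ` is a `LogGrp`; take the `K`-th power.

PLAN for `malInt_data`.  `x a = L a` for `a : S`, `F = TS cm x`, `exists_adapted` (`F 1` is spanned by the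
finite set `range (ev cm x)`).  `int`: with `K₁` from `exists_bch_den` and `𝓜` the closure of the range
of `ev cm (K₁⁻¹ • x)`, the elements `a` with `L a ∈ K₁ • 𝓜` form a subgroup containing `S`; `𝓜` is generated
by finitely many elements of `F 1 = span ℚ (range e)` (`ev_smul`), take a common denominator.
`full`: `inv_bch_fg` with `X = range L`, `T = image e`.  `gen`: `e i ∈ F (d i)`, clear denominators.

PLAN for `exists_malInt`.  `N = span (range (ρ · - 1))` is closed under products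
(`(a - 1) * (b - 1) = (a * b - 1) - (a - 1) - (b - 1)`) and `NilAlg N M` by multilinearity; `L` from
`exp_surj`; `malInt_data`; `lam` = a linear map with `lam (e i) = Pi.single i 1` (extend the coordinates
`LinearIndependent.repr` by `LinearMap.exists_extend`, then cast to `ℝ`); `g = span ℚ (range e)`;
`s i j l = - s j i l` and so `br s x x = 0`; `mal_of_rep`; `map_ev`. -/

namespace Pool.Agent.Work.MP_913e71_al.Pos

open IsNilpotent

section

variable {G A : Type} [Group G] [Ring A] [Algebra ℚ A] {N : Submodule ℚ A} {c : ℕ}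
  (h : NilAlg N c) (ρ : G →* A) {L : G → A} (hL : ∀ a, L a ∈ N) (hexp : ∀ a, exp (L a) = ρ a)
include h hL hexp

theorem MalEx_inv' (a : G) : exp (-L a) = ρ a⁻¹ := by
  rw [← mul_one (exp _), ← map_one ρ, ← mul_inv_cancel a, map_mul, ← hexp, ← mul_assoc,
    exp_neg_mul_exp_self (h.isNilpotent (hL a)), one_mul]

theorem MalEx_inv (a : G) : L a⁻¹ = -L a :=
  h.exp_inj (hL _) (neg_mem (hL a)) (by rw [hexp, MalEx_inv' h ρ hL hexp])

theorem MalEx_pow (a : G) (k : ℕ) : L (a ^ k) = k • L a :=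
  h.exp_inj (hL _) (nsmul_mem (hL a) k) (by rw [hexp, h.exp_nsmul (hL a), hexp, map_pow])

theorem MalEx_mul {q : FreeMagma Bool →₀ ℚ}
    (hq : ∀ x ∈ N, ∀ y ∈ N, exp x * exp y = exp (bch cm q x y)) (a b : G) :
    L (a * b) = bch cm q (L a) (L b) :=
  h.exp_inj (hL _) (h.bch_mem q (hL a) (hL b)) (by
    rw [← hq _ (hL a) _ (hL b), hexp, hexp, hexp, map_mul])

theorem MalEx_grp (Λ : Subgroup G) : LogGrp N (L '' Λ) where
  sub := by
    rintro _ ⟨a, -, rfl⟩
    exact hL a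
  zero := ⟨1, one_mem _, by rw [← pow_zero 1, MalEx_pow h ρ hL hexp, zero_nsmul]⟩
  neg := by
    rintro _ ⟨a, ha, rfl⟩
    exact ⟨_, inv_mem ha, MalEx_inv h ρ hL hexp a⟩
  mul := by
    rintro _ ⟨a, ha, rfl⟩ _ ⟨b, hb, rfl⟩
    exact ⟨_, ⟨_, mul_mem ha hb, rfl⟩, by rw [hexp, hexp, hexp, map_mul]⟩

end

theorem MalEx_den {V ι : Type} [AddCommGroup V] [Module ℚ V] [Finite ι] {v : ι → V} {T : ι → Set V}
    (h : ∀ i, v i ∈ Submodule.span ℚ (T i)) :
    ∃ D : ℕ, 0 < D ∧ ∀ i, D • v i ∈ AddSubgroup.closure (T i) := by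
  have := Fintype.ofFinite ι
  choose t ht using fun i => multiple_mem_span_of_mem_localization_span (nonZeroDivisors ℤ) ℚ _ _ (h i)
  refine ⟨∏ i, (t i : ℤ).natAbs, Finset.prod_pos fun i _ =>
    Int.natAbs_pos.2 (nonZeroDivisors.coe_ne_zero _), fun i => ?_⟩
  obtain ⟨m, hm⟩ := (Int.natAbs_dvd_natAbs (a := t i) (b := (∏ i, (t i : ℤ).natAbs : ℕ))).1
    (Finset.dvd_prod_of_mem _ (Finset.mem_univ i))
  rw [← natCast_zsmul, hm, mul_comm, mul_smul, ← Submodule.span_int_eq_addSubgroupClosure]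
  exact zsmul_mem (ht i) m

theorem mal_of_rep {G A : Type} [Group G] [Ring A] [Algebra ℚ A] {N : Submodule ℚ A} {c : ℕ}
    (h : NilAlg N c) (ρ : G →* A) (hρ : Function.Injective ρ) (g : Submodule ℚ A) (hgN : g ≤ N)
    (hg : ∀ x ∈ g, ∀ y ∈ g, cm x y ∈ g) (L : G → A) (hL : ∀ a, L a ∈ g)
    (hexp : ∀ a, exp (L a) = ρ a) {n : ℕ} (d : Fin n → ℕ) (s : Fin n → Fin n → Fin n → ℤ)
    (hd : ∀ i, 1 ≤ d i) (hgr : ∀ i j l, s i j l ≠ 0 → d i + d j ≤ d l)
    (halt : ∀ x : Fin n → ℝ, br s x x = 0) (lam : A →ₗ[ℚ] (Fin n → ℝ))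
    (hinj : ∀ x ∈ g, lam x = 0 → x = 0)
    (hbr : ∀ x ∈ g, ∀ y ∈ g, lam (cm x y) = br s (lam x) (lam y)) (K : ℕ) (hK : 0 < K) :
    ∃ M : Mal G n, M.d = d ∧ M.s = s ∧ (∀ a, M.lg a = lam (L a)) ∧ K ∣ M.N := by
  obtain ⟨q, q1, q2⟩ := exists_bch h
  obtain ⟨K₀, k0, hK₀⟩ := inv_bch h
  have hN : ∀ a, L a ∈ N := fun a => hgN (hL a)
  have hF : Filt cm fun k => g ⊓ (Fil d k).comap lam :=
    ⟨fun i j hij x hx => ⟨hx.1, (filt_Fil hgr).anti hij hx.2⟩, fun i j x hx y hy =>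
      ⟨hg x hx.1 y hy.1, Submodule.mem_comap.2
        (hbr x hx.1 y hy.1 ▸ (filt_Fil hgr).br_mem i j _ hx.2 _ hy.2)⟩⟩
  have hm : ∀ i a, lam (L a) ∈ Fil d i → L a ∈ g ⊓ (Fil d (max i 1)).comap lam := fun i a ha =>
    ⟨hL a, fun l hl => ha l (by have := hd l; omega)⟩
  have ib : ∀ (Λ : Subgroup G) (v : A), K₀ • v ∈ L '' Λ → ∃ z ∈ Λ, lam (L z) = (K * K₀) • lam v := by
    rintro Λ v ⟨z, hz, e⟩
    exact ⟨z ^ K, pow_mem hz K, by rw [MalEx_pow h ρ hN hexp, e, smul_smul, map_nsmul]⟩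
  refine ⟨⟨d, s, q, fun a => lam (L a), K * K₀, hd, hgr, halt, q1, fun a b e => hρ ?_, fun a b => ?_,
    fun a k => ?_, fun i j a b ha hb => ?_, Nat.mul_pos hK k0, fun Λ a ha b hb => ?_,
    fun Λ a ha b hb => ?_⟩, rfl, rfl, fun _ => rfl, Nat.dvd_mul_right _ _⟩
  · rw [← hexp, ← hexp, sub_eq_zero.1 (hinj _ (sub_mem (hL a) (hL b))
      ((map_sub _ _ _).trans (sub_eq_zero.2 e)))]
  · rw [MalEx_mul h ρ hN hexp q2]
    exact map_bch lam (P := g) hg hbr q (hL a) (hL b)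
  · obtain ⟨k, rfl | rfl⟩ := k.eq_nat_or_neg
    · rw [zpow_natCast, MalEx_pow h ρ hN hexp, map_nsmul, natCast_zsmul]
    · rw [zpow_neg, zpow_natCast, MalEx_inv h ρ hN hexp, MalEx_pow h ρ hN hexp, map_neg, map_nsmul,
        neg_smul, natCast_zsmul]
  · have := comm_cong h hF (inf_le_left.trans hgN) (le_max_right _ _) (le_max_right _ _) (hm i a ha)
      (hm j b hb) (hN (a * b * a⁻¹ * b⁻¹)) (by
        simp only [hexp, MalEx_inv' h ρ hN hexp, map_mul])
    rw [← hbr _ (hL a) _ (hL b), ← map_sub]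
    exact (filt_Fil hgr).anti (by omega) this.2
  · rw [← map_add]
    exact ib Λ _ (hK₀ _ (MalEx_grp h ρ hN hexp Λ) _ ⟨a, ha, rfl⟩ _ ⟨b, hb, rfl⟩).1
  · rw [← hbr _ (hL a) _ (hL b)]
    exact ib Λ _ (hK₀ _ (MalEx_grp h ρ hN hexp Λ) _ ⟨a, ha, rfl⟩ _ ⟨b, hb, rfl⟩).2

theorem malInt_data {G A : Type} [Group G] [Ring A] [Algebra ℚ A] {N : Submodule ℚ A} {c : ℕ}
    (h : NilAlg N c) (ρ : G →* A) (L : G → A) (hL : ∀ a, L a ∈ N) (hexp : ∀ a, exp (L a) = ρ a)
    (S : Finset G) (hS : Subgroup.closure (S : Set G) = ⊤) :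
    ∃ (n : ℕ) (e : Fin n → A) (d : Fin n → ℕ) (s : Fin n → Fin n → Fin n → ℤ) (K : ℕ),
      LinearIndependent ℚ e ∧ (∀ i, 1 ≤ d i) ∧ (∀ i, e i ∈ N) ∧
      (∀ i j, cm (e i) (e j) = ∑ l, s i j l • e l) ∧
      (∀ i j l, s i j l ≠ 0 → d i + d j ≤ d l) ∧ 0 < K ∧
      (∀ a, ∃ v : Fin n → ℤ, K • L a = ∑ i, v i • e i) ∧
      (∀ v : Fin n → ℤ, ∃ a, L a = K • ∑ i, v i • e i) ∧
      ∀ i, K • e i ∈ AddSubgroup.closure
        {v | ∃ w : FreeMagma S, d i ≤ w.length ∧ ev cm (fun a : S => L a) w = v} := by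
  classical
  have hx : ∀ a : S, L a ∈ N := fun a => hL a
  obtain ⟨n, e, d, s, he, hd, hF, hs, hgr⟩ := exists_adapted bil_cm (filt_TS bil_cm fun a : S => L a)
    (Submodule.fg_span ((finite_range_ev (h.ev_eq_zero hx)).subset fun v ⟨w, _, hw⟩ => ⟨w, hw⟩))
    (TS_eq_bot (h.ev_eq_zero hx))
  have he' : ∀ i, e i ∈ TS cm (fun a : S => L a) (d i) := fun i =>
    hF _ (hd i) ▸ Submodule.subset_span ⟨i, le_refl (d i), rfl⟩
  obtain ⟨q, q1, q2⟩ := exists_bch h
  obtain ⟨K₁, k1, hK₁⟩ := exists_bch_den q q1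
  have hx' : ∀ a : S, (K₁ : ℚ)⁻¹ • L a ∈ N := fun a => N.smul_mem _ (hL a)
  let H : Subgroup G :=
    { carrier := {a | ∃ m ∈ AddSubgroup.closure (Set.range (ev cm fun a : S => (K₁ : ℚ)⁻¹ • L a)),
        L a = K₁ • m}
      mul_mem' := fun ⟨x, hx, ex⟩ ⟨y, hy, ey⟩ => by
        rw [Set.mem_ofPred_eq, MalEx_mul h ρ hL hexp q2, ex, ey]
        exact hK₁ A cm bil_cm _ (closure_ev_closed bil_cm _) x hx y hy
      one_mem' := ⟨0, zero_mem _, by rw [← pow_zero 1, MalEx_pow h ρ hL hexp, zero_nsmul, nsmul_zero]⟩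
      inv_mem' := fun ⟨x, hx, ex⟩ => ⟨-x, neg_mem hx, by rw [MalEx_inv h ρ hL hexp, ex, smul_neg]⟩ }
  have hH : ⊤ ≤ H := hS ▸ (Subgroup.closure_le _).2 fun a ha =>
    ⟨_, AddSubgroup.subset_closure ⟨.of ⟨a, ha⟩, rfl⟩, by
      rw [ev_of, ← Nat.cast_smul_eq_nsmul ℚ, smul_inv_smul₀ (Nat.cast_ne_zero.2 k1.ne')]⟩
  have := (finite_range_ev (h.ev_eq_zero hx')).to_subtype
  obtain ⟨D, d0, hD⟩ := MalEx_den (ι := Set.range (ev cm fun a : S => (K₁ : ℚ)⁻¹ • L a))
    (v := Subtype.val) (T := fun _ => Set.range e) (by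
      rintro ⟨_, w, rfl⟩
      simp only [ev_smul bil_cm]
      exact Submodule.smul_mem _ _ (Submodule.span_mono (Set.image_subset_range _ _)
        (hF 1 le_rfl ▸ ev_mem_TS _ w w.length_pos)))
  obtain ⟨K₂, k2, hK₂⟩ := inv_bch_fg h (MalEx_grp h ρ hL hexp ⊤) (x := fun a : S => L a)
    (fun a => ⟨a, trivial, rfl⟩) (Finset.univ.image e) fun v hv => by
      obtain ⟨i, -, rfl⟩ := Finset.mem_image.1 hv
      exact (filt_TS bil_cm _).anti (hd i) (he' i)
  obtain ⟨K₃, k3, hK₃⟩ := MalEx_den he'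
  refine ⟨n, e, d, s, D * K₂ * K₃, he, hd, fun i => h.TS_le hx _ (he' i), hs, hgr, by positivity,
    fun a => AddSubgroup.mem_closure_range_iff_of_fintype.1 ?_, fun v => ?_, fun i => ?_⟩
  · obtain ⟨m, hm, em⟩ := hH (Subgroup.mem_top a)
    rw [em, smul_comm, mul_assoc, mul_comm, mul_smul]
    refine nsmul_mem (nsmul_mem ?_ _) _
    exact (AddSubgroup.closure_le ((AddSubgroup.closure (Set.range e)).comap
      (nsmulAddMonoidHom (α := A) D))).2 (fun v hv => hD ⟨v, hv⟩) hm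
  · obtain ⟨a, -, ha⟩ := hK₂ ((D * K₃) • ∑ i, v i • e i) (nsmul_mem (sum_mem fun i _ => zsmul_mem
      (AddSubgroup.subset_closure (by simp)) _) _)
    exact ⟨a, by rw [ha, smul_smul, mul_left_comm, mul_assoc]⟩
  · rw [mul_smul]
    exact nsmul_mem (hK₃ i) _

theorem exists_malInt {G : Type} [Group G] (hU : Uni G) (S : Finset G)
    (hS : Subgroup.closure (S : Set G) = ⊤) : ∃ (n : ℕ) (M : Mal G n), M.Int S := by
  obtain ⟨A, _, _, ρ, M, hρ, hM⟩ := hU
  have key : ∀ l : List A, (∀ x ∈ l, x ∈ Submodule.span ℚ (Set.range fun a => ρ a - 1)) →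
      ∀ l' : List G, l'.length + l.length = M → (l'.map fun a => ρ a - 1).prod * l.prod = 0 := by
    intro l
    induction l with
    | nil => exact fun _ l' e => by rw [hM l' e, zero_mul]
    | cons a t ih =>
      intro hl l' e
      rw [List.forall_mem_cons] at hl
      rw [List.length_cons] at e
      rw [List.prod_cons]
      obtain ⟨ha, ht⟩ := hl
      induction ha using Submodule.span_induction with
      | mem x hx =>
        obtain ⟨b, rfl⟩ := hx
        simpa [mul_assoc] using ih ht (l' ++ [b]) (by rw [List.length_append, ← e]; simp; omega)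
      | zero => rw [zero_mul, mul_zero]
      | add x y _ _ hx hy => rw [add_mul, mul_add, hx, hy, add_zero]
      | smul r x _ hx => rw [smul_mul_assoc, mul_smul_comm, hx, smul_zero]
  have hN : ∀ a, ρ a - 1 ∈ Submodule.span ℚ (Set.range fun a => ρ a - 1) := fun a =>
    Submodule.subset_span ⟨a, rfl⟩
  have h : NilAlg (Submodule.span ℚ (Set.range fun a => ρ a - 1)) M := by
    refine ⟨fun x hx y hy => SetLike.le_def.1 ?_ (Submodule.mul_mem_mul hx hy), fun l e hl => ?_⟩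
    · rw [Submodule.span_mul_span, Submodule.span_le]
      rintro _ ⟨_, ⟨a, rfl⟩, _, ⟨b, rfl⟩, rfl⟩
      have : (ρ a - 1) * (ρ b - 1) = ρ (a * b) - 1 - (ρ a - 1) - (ρ b - 1) := by
        rw [map_mul]
        noncomm_ring
      exact Set.mem_of_eq_of_mem this (sub_mem (sub_mem (hN _) (hN a)) (hN b))
    · obtain ⟨a, t, rfl⟩ := List.exists_cons_of_length_eq_add_one e
      have := key t (fun x hx => hl x (List.mem_cons_of_mem _ hx)) [] (by simpa using e)
      rw [List.map_nil, List.prod_nil, one_mul] at this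
      rw [List.prod_cons, this, mul_zero]
  choose L hL hexp using fun a => h.exp_surj (hN a)
  simp only [add_sub_cancel] at hexp
  obtain ⟨n, e, d, s, K, he, hd, heN, hs, hgr, hK, h1, h2, h3⟩ := malInt_data h ρ L hL hexp S hS
  obtain ⟨p, hp⟩ := (Finsupp.linearCombination ℚ e).exists_leftInverse_of_injective
    (LinearMap.ker_eq_bot.2 he)
  obtain ⟨lam, hl⟩ : ∃ lam : A →ₗ[ℚ] (Fin n → ℝ), ∀ i, lam (e i) = Pi.single i 1 :=
    ⟨Finsupp.linearCombination ℚ (fun i => Pi.single i 1) ∘ₗ p, fun i => by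
      have := LinearMap.congr_fun hp (Finsupp.single i 1)
      simp only [LinearMap.comp_apply, Finsupp.linearCombination_single, one_smul,
        LinearMap.id_apply] at this ⊢
      rw [this, Finsupp.linearCombination_single, one_smul]⟩
  have lz : ∀ v : Fin n → ℤ, lam (∑ i, v i • e i) = fun i => (v i : ℝ) := fun v => by
    simp only [map_sum, map_zsmul, hl]
    funext l
    simp [Pi.single_apply]
  have hb : ∀ x ∈ Submodule.span ℚ (Set.range e), ∀ y ∈ Submodule.span ℚ (Set.range e),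
      cm x y ∈ Submodule.span ℚ (Set.range e) ∧ lam (cm x y) = br s (lam x) (lam y) := by
    intro x hx y hy
    induction hx, hy using Submodule.span_induction₂ with
    | mem_mem x y hx hy =>
      obtain ⟨⟨i, rfl⟩, j, rfl⟩ := And.intro hx hy
      refine ⟨hs i j ▸ sum_mem fun l _ => zsmul_mem (Submodule.subset_span (Set.mem_range_self l)) _, ?_⟩
      rw [hs, lz, hl, hl]
      funext l
      simp [br, Pi.single_apply]
    | zero_left y => simp only [bil_cm.zero_left, (bil_br s).zero_left, map_zero, zero_mem, and_self]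
    | zero_right y =>
      simp only [bil_cm.zero_right, (bil_br s).zero_right, map_zero, zero_mem, and_self]
    | add_left x y z _ _ _ k k' =>
      simp only [bil_cm.add_left, (bil_br s).add_left, map_add, add_mem k.1 k'.1, k.2, k'.2, and_self]
    | add_right x y z _ _ _ k k' =>
      simp only [bil_cm.add_right, (bil_br s).add_right, map_add, add_mem k.1 k'.1, k.2, k'.2,
        and_self]
    | smul_left r x y _ _ k =>
      simp only [bil_cm.smul_left, (bil_br s).smul_left, map_smul, Submodule.smul_mem _ r k.1, k.2,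
        and_self]
    | smul_right r x y _ _ k =>
      simp only [bil_cm.smul_right, (bil_br s).smul_right, map_smul, Submodule.smul_mem _ r k.1, k.2,
        and_self]
  have hg : ∀ a, L a ∈ Submodule.span ℚ (Set.range e) := fun a => by
    obtain ⟨v, hv⟩ := h1 a
    rw [← Submodule.smul_mem_iff _ (Nat.cast_ne_zero.2 hK.ne' : (K : ℚ) ≠ 0), Nat.cast_smul_eq_nsmul, hv]
    exact sum_mem fun l _ => zsmul_mem (Submodule.subset_span (Set.mem_range_self l)) _
  obtain ⟨Q, e1, e2, e3, K', e4⟩ := mal_of_rep h ρ hρ (Submodule.span ℚ (Set.range e))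
    (Submodule.span_le.2 (Set.range_subset_iff.2 heN)) (fun x hx y hy => (hb x hx y hy).1) L hg hexp d s
    hd hgr (fun x => funext fun l => by
      have as : ∀ i j, (s i j l : ℝ) = -s j i l := fun i j => by
        rw [← congrFun (lz (s i j)) l, ← congrFun (lz (s j i)) l, ← hs, ← hs, ← Pi.neg_apply,
          ← map_neg, cm, cm, neg_sub]
      have : br s x x l = -br s x x l := by
        rw [br, Finset.sum_comm, ← Finset.sum_neg_distrib]
        refine Finset.sum_comm.trans (Finset.sum_congr rfl fun i _ => ?_)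
        rw [← Finset.sum_neg_distrib]
        exact Finset.sum_congr rfl fun j _ => by rw [as i j]; ring
      exact eq_zero_of_neg_eq this.symm) lam
    (fun x hx h0 => by
      obtain ⟨v, rfl⟩ := (Submodule.mem_span_range_iff_exists_fun ℚ).1 hx
      refine Finset.sum_eq_zero fun i _ => ?_
      have : v i = 0 := by simpa [hl, Pi.single_apply] using congrFun h0 i
      rw [this, zero_smul])
    (fun x hx y hy => (hb x hx y hy).2) K hK
  refine ⟨n, Q, fun a => ?_, fun v => ?_, fun i => ?_⟩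
  · obtain ⟨v, hv⟩ := h1 a
    refine ⟨fun i => K' * v i, ?_⟩
    rw [e3, e4, mul_comm, mul_smul, ← map_nsmul, hv, lz]
    funext i
    simp
  · obtain ⟨a, ha⟩ := h2 fun i => K' * v i
    refine ⟨a, ?_⟩
    rw [e3, e4, ha, map_nsmul, lz, mul_smul]
    funext i
    simp
  · rw [e4, mul_comm, mul_smul, ← hl, ← map_nsmul, e1, e2]
    refine nsmul_mem (AddSubgroup.mem_comap.1 ((AddSubgroup.closure_le
      (AddSubgroup.comap lam.toAddMonoidHom _)).2 ?_ (h3 i))) _
    rintro _ ⟨w, hw, rfl⟩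
    refine AddSubgroup.subset_closure ⟨w, hw, ?_⟩
    simp only [e3]
    exact (map_ev lam (P := Submodule.span ℚ (Set.range e)) (fun x hx y hy => (hb x hx y hy).1)
      (fun x hx y hy => (hb x hx y hy).2) (fun a : S => hg a) w).symm

end Pool.Agent.Work.MP_913e71_al.Pos
end
end
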