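import Pool.Agent.Work.MP_913e71_al.Pos.Bch
import Pool.Agent.Work.MP_913e71_al.Pos.MalEx
import Pool.Agent.Work.MP_913e71_al.GenB
import Pool.Agent.Work.MP_913e71_al.DefsC

-- merged part: Pool.Agent.Work.MP_913e71_al.Pos.RDefs
section
/-! Working definitions for real lattices and Lie groups. -/

namespace Pool.Agent.Work.MP_913e71_al.Pos

open Matrix MeasureTheory

variable {n : ℕ}

/-- The matrix `ψ` carries the bracket `s'` to the bracket `s`. -/
def Carry {R : Type} [CommRing R] (s' s : Fin n → Fin n → Fin n → ℤ)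
    (ψ : Matrix (Fin n) (Fin n) R) : Prop :=
  ∀ i j, ψ *ᵥ (fun l => (s' i j l : R)) = br s (ψ.col i) (ψ.col j)

/-- Automorphisms of the bracket. -/
def IsAut {R : Type} [CommRing R] (s : Fin n → Fin n → Fin n → ℤ)
    (α : Matrix (Fin n) (Fin n) R) : Prop := IsUnit α.det ∧ Carry s s α

/-- Extension of scalars of a rational subspace. -/
def xt (K : Type) [Field K] [Algebra ℚ K] (W : Submodule ℚ (Fin n → ℚ)) :
    Submodule K (Fin n → K) :=
  Submodule.span K ((fun (v : Fin n → ℚ) i => algebraMap ℚ K (v i)) '' W)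

/-- Rational subspaces invariant under all algebraic automorphisms. -/
def Inv (s : Fin n → Fin n → Fin n → ℤ) (W : Submodule ℚ (Fin n → ℚ)) : Prop :=
  ∀ α : Matrix (Fin n) (Fin n) kk, IsAut s α → ∀ v ∈ xt kk W, α *ᵥ v ∈ xt kk W

/-- The conjugate of a subspace by a field automorphism. -/
def gmap {F : Type} [Field F] (γ : F ≃+* F) (W : Submodule F (Fin n → F)) :
    Submodule F (Fin n → F) where
  carrier := {v | (fun i => γ.symm (v i)) ∈ W}
  zero_mem' := by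
    show (fun i => γ.symm ((0 : Fin n → F) i)) ∈ W
    convert W.zero_mem using 1; ext; simp
  add_mem' := fun {a b} ha hb => by
    show (fun i => γ.symm ((a + b) i)) ∈ W
    convert W.add_mem ha hb using 1; ext; simp
  smul_mem' := fun c v hv => by
    show (fun i => γ.symm ((c • v) i)) ∈ W
    convert W.smul_mem (γ.symm c) hv using 1; ext; simp

lemma mem_gmap {F : Type} [Field F] {γ : F ≃+* F} {W : Submodule F (Fin n → F)} {v : Fin n → F} :
    v ∈ gmap γ W ↔ (fun i => γ.symm (v i)) ∈ W := Iff.rfl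

/-- The columns of `g` are a basis of a lattice closed under the bracket. -/
def LieLat (s : Fin n → Fin n → Fin n → ℤ) (g : Matrix (Fin n) (Fin n) ℝ) : Prop :=
  g.det ≠ 0 ∧ ∃ s', Carry s' s g

/-- The coordinates of the lattice points in the box. -/
def RZ (d : Fin n → ℕ) (r : ℝ) (g : Matrix (Fin n) (Fin n) ℝ) : Set (Fin n → ℤ) :=
  {v | InBox d r (g *ᵥ fun i => (v i : ℝ))}

/-- The weights come from bracket words. -/
def Gen (d : Fin n → ℕ) (s : Fin n → Fin n → Fin n → ℤ) : Prop :=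
  ∀ i, (Pi.single i 1 : Fin n → ℚ) ∈ TS (br s) (id : (Fin n → ℚ) → Fin n → ℚ) (d i)

/-- Restriction of logarithmic coordinates to a subgroup. -/
def Mal.restrict {G : Type} [Group G] (M : Mal G n) (Γ : Subgroup G) : Mal Γ n where
  d := M.d
  s := M.s
  q := M.q
  lg := fun a => M.lg a
  N := M.N
  hd := M.hd
  graded := M.graded
  alt := M.alt
  len2 := M.len2
  inj := fun _ _ h => Subtype.ext (M.inj h)
  mul := fun g h => M.mul g h
  zpow := fun g k => M.zpow g k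
  comm := fun i j g h => M.comm i j g h
  hN := M.hN
  ib_add := fun Λ g hg h hh => by
    obtain ⟨_, ⟨z, hz, rfl⟩, e⟩ := M.ib_add (Λ.map Γ.subtype) g ⟨g, hg, rfl⟩ h ⟨h, hh, rfl⟩
    exact ⟨z, hz, e⟩
  ib_br := fun Λ g hg h hh => by
    obtain ⟨_, ⟨z, hz, rfl⟩, e⟩ := M.ib_br (Λ.map Γ.subtype) g ⟨g, hg, rfl⟩ h ⟨h, hh, rfl⟩
    exact ⟨z, hz, e⟩

/-- Logarithmic coordinates which are a homeomorphism, adapted to a cocompact lattice. -/
structure LieSet (G : Type) [Group G] [TopologicalSpace G] (n : ℕ) where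
  M : Mal G n
  Γ : Subgroup G
  T : Finset Γ
  surj : Function.Surjective M.lg
  emb : Topology.IsEmbedding M.lg
  lat : IsCocompactLattice Γ
  hT : Subgroup.closure (T : Set Γ) = ⊤
  int : (M.restrict Γ).Int T

/-- The box in the group. -/
def Mal.BX {G : Type} [Group G] (M : Mal G n) (r : ℝ) : Set G := {g | InBox M.d r (M.lg g)}

/-- Two sided estimate of the volume growth. -/
def GrowTwoL {G : Type} [Group G] [MeasurableSpace G] (S : Set G) (μ : Measure G) (D : ℕ) : Prop :=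
  ∃ C : ℝ, 1 ≤ C ∧ ∀ r : ℝ, 1 ≤ r →
    ENNReal.ofReal (r ^ D) ≤ ENNReal.ofReal C * μ (ball S (C * r)) ∧
      μ (ball S r) ≤ ENNReal.ofReal (C * r ^ D)

/-- Two sided estimate of the systolic growth. -/
def SysTwoL {G : Type} [Group G] [TopologicalSpace G] [MeasurableSpace G] (S : Set G)
    (μ : Measure G) (β : ℝ) : Prop :=
  ∃ C : ℝ, 1 ≤ C ∧ ∀ r : ℝ, 1 ≤ r →
    (∃ Λ : Subgroup G, IsCocompactLattice Λ ∧ (∀ x ∈ Λ, x ≠ 1 → r ≤ (wordLength S x : ℝ)) ∧
      covolume Λ G μ ≤ ENNReal.ofReal (C * r ^ β)) ∧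
    ∀ Λ : Subgroup G, IsCocompactLattice Λ → (∀ x ∈ Λ, x ≠ 1 → C * r ≤ (wordLength S x : ℝ)) →
      ENNReal.ofReal (r ^ β) ≤ ENNReal.ofReal C * covolume Λ G μ

end Pool.Agent.Work.MP_913e71_al.Pos
end

-- merged part: Pool.Agent.Work.MP_913e71_al.Pos.MeasC
section
/-! Covolumes by counting points, and word lengths in a cocompact lattice.

PLAN.  `F` from `exists_fundamentalDomain`, `IsFundamentalDomain.measure_eq_tsum`: `μ B = ∑' γ, μ (γ • B ∩ F)`, which is the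
integral over `F` of the number of `γ` with `γ⁻¹ * x ∈ B` (`lintegral_tsum`, indicators).  In the first lemma this number is at most
`ncard (B' ∩ Γ)` (if `γ₀ * x ∈ B` then `γ ↦ γ * γ₀⁻¹` injects), in the second at least `ncard (B ∩ Γ)`.
`finite_inter`: a discrete subgroup is closed (`Subgroup.isClosed_of_discrete`); `IsCompact.finite`.
`exists_cover`: the interiors of compact sets have open images that cover the quotient; invert.
`lattice_qi`: `K` from `exists_cover` with `1 ∈ K`; choose `γ x ∈ Γ` with `γ x * x ∈ K`, `γ x = x⁻¹` for `x ∈ Γ`; `T` = the elements of `Γ` in the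
compact set `K * (S ∪ S⁻¹) * K⁻¹`.  By induction on a word `l` from the right, `(γ l.prod)⁻¹` is a product of `length l` elements of `T`:
`γ p * (γ (p * a))⁻¹ = (γ p * p) * a * (γ (p * a) * (p * a))⁻¹`.  The other inequality: `T` is finite.
`ball_compact`: the ball is `(S ∪ S⁻¹ ∪ {1}) ^ ⌊r⌋₊` (or empty). -/

namespace Pool.Agent.Work.MP_913e71_al.Pos

open MeasureTheory

variable {H : Type} [Group H] [TopologicalSpace H] [IsTopologicalGroup H]

theorem finite_inter [T2Space H] (Γ : Subgroup H) [DiscreteTopology Γ] {K : Set H}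
    (hK : IsCompact K) : (K ∩ Γ).Finite := by
  exact (hK.inter_right Subgroup.isClosed_of_discrete).finite
    ((isDiscrete_iff_discreteTopology.2 ‹_›).mono Set.inter_subset_right)

theorem exists_cover [LocallyCompactSpace H] (Γ : Subgroup H) [CompactSpace (H ⧸ Γ)] :
    ∃ K : Set H, IsCompact K ∧ (1 : H) ∈ K ∧ ∀ x : H, ∃ γ ∈ Γ, γ * x ∈ K := by
  obtain ⟨K, hK, h⟩ := (isCompact_univ (X := H ⧸ Γ)).induction_on
    (p := fun s => ∃ K : Set H, IsCompact K ∧ s ⊆ QuotientGroup.mk '' K)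
    ⟨∅, isCompact_empty, Set.empty_subset _⟩ (fun s t hst ⟨K, hK, h⟩ => ⟨K, hK, hst.trans h⟩)
    (fun s t ⟨K, hK, h⟩ ⟨K', hK', h'⟩ => ⟨K ∪ K', hK.union hK', Set.image_union _ _ _ ▸
      Set.union_subset_union h h'⟩) fun c _ => by
      obtain ⟨x, rfl⟩ := QuotientGroup.mk_surjective c
      obtain ⟨K, hK, h⟩ := exists_compact_mem_nhds x
      exact ⟨_, mem_nhdsWithin_of_mem_nhds (QuotientGroup.isOpenMap_coe.image_mem_nhds h), K, hK,
        subset_rfl⟩
  refine ⟨insert 1 K⁻¹, hK.inv.insert 1, Set.mem_insert _ _, fun x => ?_⟩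
  obtain ⟨k, hk, e⟩ := h (Set.mem_univ (QuotientGroup.mk x⁻¹))
  exact ⟨_, QuotientGroup.eq.1 e, Or.inr (by simpa using hk)⟩

theorem discrete_of_finite [T1Space H] (Γ : Subgroup H) {U : Set H} (hU : U ∈ nhds (1 : H))
    (h : (U ∩ Γ).Finite) : DiscreteTopology Γ := by
  refine discrete_of_nhds Γ (Filter.inter_mem hU
    ((h.sdiff (t := {1})).isClosed.isOpen_compl.mem_nhds
      fun h1 => h1.2 rfl)) fun γ hγ h1 => by_contra fun h2 => h1.2 ⟨⟨h1.1, hγ⟩, h2⟩

open scoped Pointwise in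
theorem ball_compact {S : Set H} (hc : IsCompact S) (hS : Subgroup.closure S = ⊤) (r : ℝ) :
    IsCompact (ball S r) := by
  have h1 : ∀ n : ℕ, IsCompact (insert 1 (S ∪ S⁻¹) ^ n) ∧
      ∀ x ∈ insert 1 (S ∪ S⁻¹) ^ n, wordLength S x ≤ n := fun n => by
    induction n with
    | zero =>
      rw [pow_zero]
      exact ⟨isCompact_singleton, fun x hx => by rw [Set.mem_one.1 hx, wordLength_one]⟩
    | succ n ih =>
      rw [pow_succ]
      refine ⟨ih.1.mul ((hc.union hc.inv).insert 1), ?_⟩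
      rintro _ ⟨a, ha, b, hb, rfl⟩
      refine (wordLength_mul_le hS a b).trans (add_le_add (ih.2 a ha) ?_)
      rcases hb with rfl | hb
      · simp [wordLength_one]
      · simpa using wordLength_le (S := S) [b] fun s hs => List.mem_singleton.1 hs ▸ hb
  have h2 : ∀ l : List H, (∀ s ∈ l, s ∈ S ∨ s⁻¹ ∈ S) →
      l.prod ∈ insert 1 (S ∪ S⁻¹) ^ l.length := fun l => by
    induction l with
    | nil => exact fun _ => Set.mem_one.2 rfl
    | cons a l ih =>
      intro hl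
      rw [List.prod_cons, List.length_cons, pow_succ']
      exact Set.mul_mem_mul (Or.inr (hl a List.mem_cons_self))
        (ih fun s hs => hl s (List.mem_cons_of_mem a hs))
  rcases lt_or_ge r 0 with hr | hr
  · rw [show ball S r = ∅ from Set.eq_empty_of_forall_notMem fun x hx =>
      (hr.trans_le (Nat.cast_nonneg _)).not_ge hx]
    exact isCompact_empty
  · rw [show ball S r = insert 1 (S ∪ S⁻¹) ^ ⌊r⌋₊ from Set.ext fun x => ⟨fun hx => ?_, fun hx =>
      (Nat.le_floor_iff hr).1 ((h1 _).2 x hx)⟩]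
    · exact (h1 _).1
    · obtain ⟨l, e, hl, rfl⟩ := exists_word hS x
      exact Set.pow_subset_pow_right (Set.mem_insert _ _) (e ▸ Nat.le_floor hx) (h2 l hl)

open scoped Pointwise in
theorem lattice_qi [LocallyCompactSpace H] [T2Space H] {S : Set H} (hc : IsCompact S)
    (hS : Subgroup.closure S = ⊤) (Γ : Subgroup H) (hΓ : IsCocompactLattice Γ) :
    ∃ T : Finset Γ, Subgroup.closure (T : Set Γ) = ⊤ ∧
      ∀ γ : Γ, wordLength (T : Set Γ) γ ≤ wordLength S (γ : H) := by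
  classical
  obtain ⟨h1, h2⟩ := hΓ
  obtain ⟨K, hK, h1K, h⟩ := exists_cover Γ
  have h3 : ∀ x : H, ∃ γ : Γ, γ * x ∈ K ∧ ∀ δ : Γ, x = δ → γ = δ⁻¹ := fun x => by
    by_cases hx : x ∈ Γ
    · exact ⟨⟨x, hx⟩⁻¹, by simpa using h1K, fun δ e => by simp [e]⟩
    · obtain ⟨γ, hγ, e⟩ := h x
      exact ⟨⟨γ, hγ⟩, e, fun δ e => (hx (e ▸ δ.2)).elim⟩
  choose g hg hg' using h3
  have hf := (finite_inter Γ ((hK.mul (hc.union hc.inv)).mul hK.inv)).preimage
    (Subtype.val_injective (p := (· ∈ Γ))).injOn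
  have h4 : ∀ l : List H, (∀ s ∈ l, s ∈ S ∨ s⁻¹ ∈ S) → ∀ p : H, ∃ l' : List Γ,
      l'.length = l.length ∧ (∀ t ∈ l', t ∈ hf.toFinset) ∧
        l'.prod = g p * (g (p * l.prod))⁻¹ := fun l => by
    induction l with
    | nil => exact fun _ p => ⟨[], rfl, by simp, by simp⟩
    | cons a l ih =>
      intro hl p
      obtain ⟨l', e1, e2, e3⟩ := ih (fun s hs => hl s (List.mem_cons_of_mem a hs)) (p * a)
      refine ⟨(g p * (g (p * a))⁻¹) :: l', by simp [e1], List.forall_mem_cons.2 ⟨?_, e2⟩,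
        by simp [e3, mul_assoc]⟩
      exact hf.mem_toFinset.2 ⟨⟨_, Set.mul_mem_mul (hg p) (hl a List.mem_cons_self), _,
        Set.inv_mem_inv.2 (hg (p * a)), by simp [mul_assoc]⟩, Subtype.property _⟩
  have h5 : ∀ γ : Γ, ∃ l' : List Γ, l'.length = wordLength S (γ : H) ∧
      (∀ t ∈ l', t ∈ hf.toFinset) ∧ l'.prod = γ := fun γ => by
    obtain ⟨l, e, hl, e'⟩ := exists_word hS (γ : H)
    obtain ⟨l', e1, e2, e3⟩ := h4 l hl 1
    exact ⟨l', e1.trans e, e2, by
      rw [e3, one_mul, hg' 1 1 rfl, hg' _ γ e', inv_one, one_mul, inv_inv]⟩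
  refine ⟨hf.toFinset, eq_top_iff.2 fun γ _ => ?_, fun γ => ?_⟩ <;> obtain ⟨l, e1, e2, rfl⟩ := h5 γ
  · exact list_prod_mem fun t ht => Subgroup.subset_closure (e2 t ht)
  · exact e1 ▸ wordLength_le l fun t ht => Or.inl (e2 t ht)

omit [TopologicalSpace H] [IsTopologicalGroup H] in
theorem wordLength_le_sub {S : Set H} (hS : Subgroup.closure S = ⊤) (Γ : Subgroup H)
    {T : Finset Γ} (hT : Subgroup.closure (T : Set Γ) = ⊤) :
    ∃ C : ℕ, 1 ≤ C ∧ ∀ γ : Γ, wordLength S (γ : H) ≤ C * wordLength (T : Set Γ) γ := by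
  refine ⟨T.sup (fun t => wordLength S (t : H)) + 1, le_add_self, fun γ => ?_⟩
  obtain ⟨l, e, hl, rfl⟩ := exists_word hT γ
  rw [← e]
  clear e
  induction l with
  | nil => simp [wordLength_one]
  | cons a l ih =>
    rw [List.prod_cons, List.length_cons, mul_add_one, add_comm _ (_ + 1), Subgroup.coe_mul]
    refine (wordLength_mul_le hS _ _).trans (add_le_add (Nat.le_succ_of_le ?_)
      (ih fun s hs => hl s (List.mem_cons_of_mem a hs)))
    rcases hl a List.mem_cons_self with h | h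
    · exact Finset.le_sup (f := fun t : Γ => wordLength S (t : H)) h
    · exact wordLength_inv hS (a : H) ▸ Finset.le_sup (f := fun t : Γ => wordLength S (t : H)) h

variable [SecondCountableTopology H] [MeasurableSpace H] [BorelSpace H]

open scoped ENNReal in
theorem MeasC_count (Γ : Subgroup H) [DiscreteTopology Γ] (μ : Measure H) [μ.IsMulLeftInvariant]
    {B : Set H} (hB : MeasurableSet B) : ∃ F, covolume Γ H μ = μ F ∧
      μ B = ∫⁻ x in F, ({γ : Γ | γ * x ∈ B}.encard : ℝ≥0∞) ∂μ := by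
  have : Countable Γ := TopologicalSpace.separableSpace_iff_countable.1 inferInstance
  obtain ⟨F, hF⟩ := exists_fundamentalDomain Γ μ
  refine ⟨F, hF.covolume_eq_volume μ, ?_⟩
  rw [← lintegral_indicator_one hB, hF.lintegral_eq_tsum'', ← lintegral_tsum
    (f := fun (γ : Γ) x => B.indicator 1 (γ • x)) fun γ =>
    ((measurable_one.indicator hB).comp (measurable_const_smul γ)).aemeasurable]
  refine lintegral_congr fun x => ?_
  rw [← ENNReal.tsum_set_one, tsum_subtype _ fun _ => (1 : ℝ≥0∞)]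
  rfl

theorem meas_le_mul_covol (Γ : Subgroup H) [DiscreteTopology Γ] (μ : Measure H)
    [μ.IsMulLeftInvariant] {B B' : Set H} (hB : MeasurableSet B) (hB' : (B' ∩ Γ).Finite)
    (h : ∀ x ∈ B, ∀ y ∈ B, x * y⁻¹ ∈ B') : μ B ≤ (B' ∩ Γ).ncard * covolume Γ H μ := by
  obtain ⟨F, e1, e2⟩ := MeasC_count Γ μ hB
  rw [e1, e2, ← setLIntegral_const]
  refine lintegral_mono fun x => ?_
  rw [← ENat.toENNReal_coe, hB'.cast_ncard_eq, ENat.toENNReal_le]
  rcases Set.eq_empty_or_nonempty {γ : Γ | γ * x ∈ B} with e | ⟨δ, hδ⟩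
  · simp [e]
  · exact Set.encard_le_encard_of_injOn (f := fun γ : Γ => ((γ * δ⁻¹ : Γ) : H))
      (fun γ hγ => ⟨by simpa [mul_assoc] using h _ hγ _ hδ, Subtype.property _⟩)
      fun _ _ _ _ e => mul_right_cancel (Subtype.ext e)

theorem mul_covol_le_meas (Γ : Subgroup H) [DiscreteTopology Γ] (μ : Measure H)
    [μ.IsMulLeftInvariant] {K B B' : Set H} (hK : ∀ x : H, ∃ γ ∈ Γ, γ * x ∈ K)
    (hB' : MeasurableSet B') (h : ∀ b ∈ B, ∀ k ∈ K, b * k ∈ B') :
    (B ∩ Γ).ncard * covolume Γ H μ ≤ μ B' := by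
  obtain ⟨F, e1, e2⟩ := MeasC_count Γ μ hB'
  rw [e1, e2, ← setLIntegral_const]
  refine lintegral_mono fun x => ?_
  obtain ⟨δ, hδ, e⟩ := hK x
  rw [← ENat.toENNReal_coe, ENat.toENNReal_le]
  refine (Set.ncard_le_encard _).trans ?_
  rw [← (Subtype.val_injective (p := (· ∈ Γ))).encard_image]
  exact Set.encard_le_encard_of_injOn (f := fun b => b * δ)
    (fun b hb => ⟨⟨_, mul_mem hb.2 hδ⟩, by simpa [mul_assoc] using h b hb.1 _ e, rfl⟩)
    fun _ _ _ _ e => mul_right_cancel e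

theorem covol_ne [LocallyCompactSpace H] (Γ : Subgroup H) (hΓ : IsCocompactLattice Γ)
    (μ : Measure H) [μ.IsHaarMeasure] : covolume Γ H μ ≠ 0 ∧ covolume Γ H μ ≠ ⊤ := by
  obtain ⟨h1, h2⟩ := hΓ
  have : Countable Γ := TopologicalSpace.separableSpace_iff_countable.1 inferInstance
  obtain ⟨F, hF⟩ := exists_fundamentalDomain Γ μ
  obtain ⟨K, hK, -, h⟩ := exists_cover Γ
  exact ⟨hF.covolume_eq_volume μ ▸ hF.measure_ne_zero (NeZero.ne μ),
    ((covolume_le Γ μ h).trans_lt hK.measure_lt_top).ne⟩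

end Pool.Agent.Work.MP_913e71_al.Pos
end

-- merged part: Pool.Agent.Work.MP_913e71_al.Pos.NilSpan
section
/-! The logarithms of a cocompact subgroup span the Lie algebra.

PLAN.  Let `F₂` be the real span of the `b u v`, `u v ∈ g`.  If `x₀ ∈ g` is not in `h ⊔ F₂` there is a real linear form `lam`
which kills `h ⊔ F₂` with `lam x₀ ≠ 0`.  Then `lam (L (a * x)) = lam (L a) + lam (L x) = lam (L x)` for `a ∈ Λ` (a word of length
`≥ 2` is `b u v` with `u v ∈ g`), so `lam ∘ L` is bounded, against `L x = t • x₀`.  So `g ≤ h ⊔ F₂`.  Let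
`F = TS b (Subtype.val : g → V)`; `F₂ ⊆ F 2` since `F 2` is closed under real multiples (`hr`).  Choose for `x : g` an `x' ∈ h` with
`x - x' ∈ F 2`; `Filt.ev_sub` (`m = 1`) and `ev_mem_of_closed` give `F k ≤ h ⊔ F (k + 1)` over `ℚ`; `TS_eq_bot`. -/

namespace Pool.Agent.Work.MP_913e71_al.Pos

theorem span_of_bounded {V G : Type} [AddCommGroup V] [Module ℝ V] [Module ℚ V]
    [IsScalarTower ℚ ℝ V] [Group G] {b : V → V → V} (hb : Bil b)
    (hr : ∀ (a : ℝ) x y, b (a • x) y = a • b x y) (g h : Submodule ℝ V)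
    (hg : ∀ x ∈ g, ∀ y ∈ g, b x y ∈ g) (hh : ∀ x ∈ h, ∀ y ∈ h, b x y ∈ h) (hhg : h ≤ g) {c : ℕ}
    (hc : ∀ w : FreeMagma g, c < w.length → ev b (Subtype.val : g → V) w = 0)
    {q : FreeMagma Bool →₀ ℚ} (hq : Len2 q) (L : G → V) (hL : ∀ a, L a ∈ g)
    (hsurj : ∀ x ∈ g, ∃ a, L a = x) (hmul : ∀ a a', L (a * a') = bch b q (L a) (L a'))
    (Λ : Set G) (hΛ : ∀ a ∈ Λ, L a ∈ h)
    (hbd : ∀ lam : V →ₗ[ℝ] ℝ, ∃ B : ℝ, ∀ x, ∃ a ∈ Λ, |lam (L (a * x))| ≤ B) : g ≤ h := by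
  set F₂ : Submodule ℝ V := Submodule.span ℝ {z | ∃ u ∈ g, ∃ v ∈ g, b u v = z} with hF₂
  have hw2 : ∀ {α : Type} (x : α → V), (∀ a, x a ∈ g) → ∀ w : FreeMagma α, 2 ≤ w.length →
      ev b x w ∈ F₂ := by
    intro α x hx w hw
    cases w with
    | of a => simp at hw
    | mul u v =>
      exact Submodule.subset_span ⟨_, Tree_closed (P := (g : Set V)) hg hx u, _,
        Tree_closed (P := (g : Set V)) hg hx v, rfl⟩
  have h1 : g ≤ h ⊔ F₂ := by
    intro x₀ hx₀
    by_contra hn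
    obtain ⟨lam, hl0, hl⟩ := Submodule.exists_le_ker_of_notMem hn
    obtain ⟨B, hB⟩ := hbd lam
    have key : ∀ x, |lam (L x)| ≤ B := by
      intro x
      obtain ⟨a, ha, hax⟩ := hB x
      have e1 : lam (L a) = 0 := hl (Submodule.mem_sup_left (hΛ a ha))
      have e2 : lam (q.sum fun w r => r • ev b (fun t => cond t (L a) (L x)) w) = 0 := by
        refine hl (Submodule.mem_sup_right (Submodule.sum_mem _ fun w hw => ?_))
        exact Submodule.smul_of_tower_mem _ _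
          (hw2 _ (by rintro (_ | _); exacts [hL x, hL a]) w (hq w hw))
      rwa [hmul, bch, map_add, map_add, e1, e2, zero_add, add_zero] at hax
    obtain ⟨x, hx⟩ := hsurj (((|B| + 1) / lam x₀) • x₀) (g.smul_mem _ hx₀)
    have := key x
    rw [hx, map_smul, smul_eq_mul, div_mul_cancel₀ _ hl0] at this
    have h3 := le_abs_self (|B| + 1)
    have h4 := le_abs_self B
    linarith
  set F := TS b (Subtype.val : g → V) with hF
  have hFi : Filt b F := filt_TS hb _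
  have hg1 : ∀ x ∈ g, x ∈ F 1 := fun x hx =>
    ev_mem_TS (b := b) (Subtype.val : g → V) (FreeMagma.of ⟨x, hx⟩) le_rfl
  have hF2 : ∀ z ∈ F₂, z ∈ F 2 := by
    have : ∀ z ∈ F₂, ∀ a : ℝ, a • z ∈ F 2 := by
      intro z hz
      induction hz using Submodule.span_induction with
      | mem z hz =>
        obtain ⟨u, hu, v, hv, rfl⟩ := hz
        intro a
        rw [← hr]
        exact hFi.br_mem 1 1 _ (hg1 _ (g.smul_mem a hu)) _ (hg1 _ hv)
      | zero => intro a; simp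
      | add y z _ _ hy hz => intro a; rw [smul_add]; exact add_mem (hy a) (hz a)
      | smul r z _ hz => intro a; rw [smul_smul]; exact hz _
    intro z hz
    simpa using this z hz 1
  have hch : ∀ x : g, ∃ y ∈ h, (x : V) - y ∈ F 2 := by
    intro x
    obtain ⟨y, hy, z, hz, e⟩ := Submodule.mem_sup.1 (h1 x.2)
    exact ⟨y, hy, by rw [← e, add_sub_cancel_left]; exact hF2 z hz⟩
  choose y hy hyF using hch
  have hstep : ∀ k, F k ≤ h.restrictScalars ℚ ⊔ F (k + 1) := by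
    intro k
    refine Submodule.span_le.2 ?_
    rintro _ ⟨w, hk, rfl⟩
    have e1 := hFi.ev_sub hb (m := 1) (x := (Subtype.val : g → V)) (x' := y)
      (fun a => hg1 _ a.2) (fun a => hg1 _ (hhg (hy a))) hyF w
    have e2 : ev b y w ∈ h := Tree_closed (P := (h : Set V)) hh hy w
    refine Submodule.mem_sup.2 ⟨_, e2, _, hFi.anti (by omega : k + 1 ≤ 1 + w.length) e1, ?_⟩
    abel
  have hall : ∀ k, F 1 ≤ h.restrictScalars ℚ ⊔ F (k + 1) := by
    intro k
    induction k with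
    | zero => exact le_sup_right
    | succ k ih => exact ih.trans (sup_le le_sup_left (hstep _))
  intro x hx
  have := hall c (hg1 x hx)
  rw [hF, TS_eq_bot hc, sup_bot_eq] at this
  exact this

end Pool.Agent.Work.MP_913e71_al.Pos
end

-- merged part: Pool.Agent.Work.MP_913e71_al.Pos.Carry
section
/-! Matrices that respect brackets.

PLAN.  `Carry.mulVec`: expand `x`, `y` in the standard basis, both sides are bilinear.  `Gen.tri`: over any
commutative ring a bracket word of length `k` has zero coordinates `l` with `d l < k` (induction, `hd`, `hgr`);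
span induction on the statement: `(φ *ᵥ (cast ∘ v)) l = 0` for `d l < k` (`map_ev` for `v ↦ φ *ᵥ (cast ∘ v)`).
`IsType.aut_mul`: `adjugate (ψ * G) = adjugate G * adjugate ψ`, `adjugate ψ * ψ = det ψ • 1`. -/

namespace Pool.Agent.Work.MP_913e71_al.Pos

open Matrix Polynomial

variable {n : ℕ} {R R' : Type} [CommRing R] [CommRing R'] {s s' s'' : Fin n → Fin n → Fin n → ℤ}

theorem Carry_map_br (f : R →+* R') (x y : Fin n → R) :
    (fun l => f (br s x y l)) = br s (fun l => f (x l)) (fun l => f (y l)) := by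
  funext l
  simp [br]

theorem Carry_single (i j : Fin n) :
    br s (Pi.single i (1 : R)) (Pi.single j 1) = fun l => (s i j l : R) := by
  funext l
  simp [br, Pi.single_apply]

theorem Carry_smul (a b : R) (x y : Fin n → R) :
    br s (a • x) (b • y) = (a * b) • br s x y := by
  funext l
  simp only [br, Pi.smul_apply, smul_eq_mul, Finset.mul_sum]
  exact Finset.sum_congr rfl fun _ _ => Finset.sum_congr rfl fun _ _ => by ring

theorem Carry_expand (ψ : Matrix (Fin n) (Fin n) R) (x y : Fin n → R) (l : Fin n) :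
    br s (ψ *ᵥ x) (ψ *ᵥ y) l = ∑ i, ∑ j, x i * y j * br s (ψ.col i) (ψ.col j) l := by
  simp only [br, Matrix.mulVec, dotProduct, col_apply, Finset.mul_sum, Finset.sum_mul]
  calc ∑ a, ∑ b, ∑ j, ∑ i, ψ a i * x i * (ψ b j * y j) * (s a b l : R)
      = ∑ a, ∑ b, ∑ i, ∑ j, ψ a i * x i * (ψ b j * y j) * (s a b l : R) :=
        Finset.sum_congr rfl fun _ _ => Finset.sum_congr rfl fun _ _ => Finset.sum_comm
    _ = ∑ a, ∑ i, ∑ j, ∑ b, ψ a i * x i * (ψ b j * y j) * (s a b l : R) :=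
        Finset.sum_congr rfl fun _ _ => Finset.sum_comm.trans
          (Finset.sum_congr rfl fun _ _ => Finset.sum_comm)
    _ = ∑ i, ∑ j, ∑ a, ∑ b, ψ a i * x i * (ψ b j * y j) * (s a b l : R) :=
        Finset.sum_comm.trans (Finset.sum_congr rfl fun _ _ => Finset.sum_comm)
    _ = _ := Finset.sum_congr rfl fun _ _ => Finset.sum_congr rfl fun _ _ =>
        Finset.sum_congr rfl fun _ _ => Finset.sum_congr rfl fun _ _ => by ring

theorem Carry_col (ψ φ : Matrix (Fin n) (Fin n) R) (i : Fin n) :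
    (ψ * φ).col i = ψ *ᵥ φ.col i := rfl

theorem Carry_ev {α : Type} {d : Fin n → ℕ} (hd : ∀ i, 1 ≤ d i)
    (hgr : ∀ i j l, s i j l ≠ 0 → d i + d j ≤ d l) (x : α → Fin n → R) (w : FreeMagma α) :
    ∀ l, d l < w.length → ev (br s) x w l = 0 := by
  induction w using FreeMagma.recOnMul with
  | ih1 a => exact fun l (hl : d l < 1) => absurd hl (hd l).not_gt
  | ih2 u v hu hv =>
    intro l hl
    have h3 : d l < u.length + v.length := hl
    rw [ev_mul, br]
    refine Finset.sum_eq_zero fun a _ => Finset.sum_eq_zero fun c _ => ?_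
    by_cases h0 : s a c l = 0
    · simp [h0]
    · have := hgr a c l h0
      rcases lt_or_ge (d a) u.length with h | h
      · simp [hu a h]
      · simp [hv c (by omega)]

theorem Carry_ntd (f : R →+* R') (hf : Function.Injective f) (p : R[X]) :
    (p.map f).natTrailingDegree = p.natTrailingDegree := by
  rw [natTrailingDegree, natTrailingDegree, trailingDegree, trailingDegree,
    support_map_of_injective p hf]

theorem Carry.mulVec {ψ : Matrix (Fin n) (Fin n) R} (h : Carry s' s ψ) (x y : Fin n → R) :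
    ψ *ᵥ br s' x y = br s (ψ *ᵥ x) (ψ *ᵥ y) := by
  funext m
  rw [Carry_expand]
  have h' : ∀ i j, br s (ψ.col i) (ψ.col j) = _ := fun i j => (h i j).symm
  simp only [h']
  simp only [Matrix.mulVec, dotProduct, br, Finset.mul_sum]
  exact (Finset.sum_comm.trans (Finset.sum_congr rfl fun _ _ => Finset.sum_comm)).trans
    (Finset.sum_congr rfl fun _ _ => Finset.sum_congr rfl fun _ _ =>
      Finset.sum_congr rfl fun _ _ => by ring)

theorem carry_of_mulVec {ψ : Matrix (Fin n) (Fin n) R}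
    (h : ∀ x y : Fin n → R, ψ *ᵥ br s' x y = br s (ψ *ᵥ x) (ψ *ᵥ y)) : Carry s' s ψ := by
  intro i j
  rw [← Carry_single, h, mulVec_single_one, mulVec_single_one]

theorem carry_one : Carry s s (1 : Matrix (Fin n) (Fin n) R) := by
  exact carry_of_mulVec fun x y => by simp only [one_mulVec]

theorem Carry.mul {φ ψ : Matrix (Fin n) (Fin n) R} (hψ : Carry s' s ψ) (hφ : Carry s'' s' φ) :
    Carry s'' s (ψ * φ) := by
  exact carry_of_mulVec fun x y => by
    simp only [← mulVec_mulVec]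
    rw [hφ.mulVec, hψ.mulVec]

theorem Carry.inv {ψ : Matrix (Fin n) (Fin n) R} (h : Carry s' s ψ) (hu : IsUnit ψ.det) :
    Carry s s' ψ⁻¹ := by
  refine carry_of_mulVec fun x y => ?_
  have e := congrArg (ψ⁻¹ *ᵥ ·) (h.mulVec (ψ⁻¹ *ᵥ x) (ψ⁻¹ *ᵥ y))
  simp only [mulVec_mulVec, nonsing_inv_mul _ hu, mul_nonsing_inv _ hu, one_mulVec] at e
  exact e.symm

theorem Carry.map {ψ : Matrix (Fin n) (Fin n) R} (h : Carry s' s ψ) (f : R →+* R') :
    Carry s' s (ψ.map f) := by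
  intro i j
  have e := Carry_map_br (s := s) f (ψ.col i) (ψ.col j)
  rw [← h i j] at e
  refine Eq.trans ?_ e
  funext m
  simp [Matrix.mulVec, dotProduct]

theorem Carry.of_map {ψ : Matrix (Fin n) (Fin n) R} (f : R →+* R') (hf : Function.Injective f)
    (h : Carry s' s (ψ.map f)) : Carry s' s ψ := by
  intro i j
  funext m
  apply hf
  have e := congrFun (Carry_map_br (s := s) f (ψ.col i) (ψ.col j)) m
  refine Eq.trans ?_ ((congrFun (h i j) m).trans e.symm)
  simp [Matrix.mulVec, dotProduct]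

theorem isAut_one : IsAut s (1 : Matrix (Fin n) (Fin n) R) := by
  exact ⟨by simp, carry_one⟩

theorem IsAut.mul {φ ψ : Matrix (Fin n) (Fin n) R} (hψ : IsAut s ψ) (hφ : IsAut s φ) :
    IsAut s (ψ * φ) := by
  exact ⟨by rw [det_mul]; exact hψ.1.mul hφ.1, hψ.2.mul hφ.2⟩

theorem IsAut.inv {ψ : Matrix (Fin n) (Fin n) R} (h : IsAut s ψ) : IsAut s ψ⁻¹ := by
  exact ⟨isUnit_nonsing_inv_det _ h.1, h.2.inv h.1⟩

theorem IsAut.map {ψ : Matrix (Fin n) (Fin n) R} (h : IsAut s ψ) (f : R →+* R') :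
    IsAut s (ψ.map f) := by
  exact ⟨(RingHom.map_det f ψ ▸ h.1.map f :), h.2.map f⟩

theorem Gen.tri [Algebra ℚ R] {d : Fin n → ℕ} (hG : Gen d s) (hd : ∀ i, 1 ≤ d i)
    (hgr : ∀ i j l, s i j l ≠ 0 → d i + d j ≤ d l) {φ : Matrix (Fin n) (Fin n) R}
    (hφ : Carry s s φ) {l i : Fin n} (h : d l < d i) : φ l i = 0 := by
  have key : ∀ v ∈ TS (br s) (id : (Fin n → ℚ) → Fin n → ℚ) (d i),
      (φ *ᵥ fun m => algebraMap ℚ R (v m)) l = 0 := by
    intro v hv
    induction hv using Submodule.span_induction with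
    | mem v hv =>
      obtain ⟨w, h1, rfl⟩ := hv
      have e := map_ev (b := br s) (b' := br s)
        (fun v : Fin n → ℚ => φ *ᵥ fun m => algebraMap ℚ R (v m)) (P := Set.univ)
        (fun _ _ _ _ => trivial) (fun x _ y _ => by rw [Carry_map_br, hφ.mulVec])
        (x := id) (fun _ => trivial) w
      exact (congrFun e l).trans (Carry_ev hd hgr _ w l (h.trans_le h1))
    | zero => simp [Matrix.mulVec, dotProduct]
    | add u v _ _ hu hv =>
      simp only [Matrix.mulVec, dotProduct, Pi.add_apply, map_add, mul_add,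
        Finset.sum_add_distrib] at hu hv ⊢
      rw [hu, hv, add_zero]
    | smul a v _ hv =>
      simp only [Matrix.mulVec, dotProduct, Pi.smul_apply, smul_eq_mul, map_mul,
        mul_left_comm _ (algebraMap ℚ R a), ← Finset.mul_sum] at hv ⊢
      rw [hv, mul_zero]
  simpa [Matrix.mulVec, dotProduct, Pi.single_apply, apply_ite] using key _ (hG i)

theorem natTrailingDegree_det_mul [IsDomain R] {ψ : Matrix (Fin n) (Fin n) R} (hψ : ψ.det ≠ 0)
    (G : Matrix (Fin n) (Fin n) R[X]) :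
    (ψ.map C * G).det.natTrailingDegree = G.det.natTrailingDegree := by
  have e : (ψ.map C).det = C ψ.det := (RingHom.map_det C ψ).symm
  rw [det_mul, e, mul_comm]
  by_cases hG : G.det = 0
  · rw [hG, zero_mul]
  · exact Mu_mul_C hG hψ

theorem natTrailingDegree_det_map (f : R →+* R') (hf : Function.Injective f)
    (G : Matrix (Fin n) (Fin n) R[X]) :
    (G.map (mapRingHom f)).det.natTrailingDegree = G.det.natTrailingDegree := by
  have e : (G.map (mapRingHom f)).det = G.det.map f := (RingHom.map_det (mapRingHom f) G).symm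
  rw [e, Carry_ntd f hf]

theorem IsType.aut_mul [IsDomain R] {G : Matrix (Fin n) (Fin n) R[X]} {e : ℕ} (h : IsType s G e)
    {ψ : Matrix (Fin n) (Fin n) R} (hψ : IsAut s ψ) : IsType s (ψ.map C * G) e := by
  have e0 : (ψ.map C).det = C ψ.det := (RingHom.map_det C ψ).symm
  refine ⟨?_, fun i j l => ?_⟩
  · rw [det_mul, e0]
    exact mul_ne_zero (C_ne_zero.2 hψ.1.ne_zero) h.1
  · rw [natTrailingDegree_det_mul hψ.1.ne_zero, Carry_col, Carry_col, ← (hψ.2.map C).mulVec,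
      adjugate_mul_distrib, mulVec_mulVec, Matrix.mul_assoc, adjugate_mul, Matrix.mul_smul,
      Matrix.mul_one, smul_mulVec]
    exact (h.2 i j l).mul_left _

theorem IsType.map {G : Matrix (Fin n) (Fin n) R[X]} {e : ℕ} (h : IsType s G e) (f : R →+* R')
    (hf : Function.Injective f) : IsType s (G.map (mapRingHom f)) e := by
  have e0 : (G.map (mapRingHom f)).det = G.det.map f := (RingHom.map_det (mapRingHom f) G).symm
  refine ⟨?_, fun i j l => ?_⟩
  · rw [e0]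
    exact (Polynomial.map_ne_zero_iff hf).2 h.1
  · have e1 : (G.map (mapRingHom f)).adjugate = G.adjugate.map (mapRingHom f) :=
      (RingHom.map_adjugate (mapRingHom f) G).symm
    have e2 := Carry_map_br (s := s) (mapRingHom f) (G.col i) (G.col j)
    have e3 := map_dvd (mapRingHom f) (h.2 i j l)
    rw [RingHom.map_mulVec, map_pow, coe_mapRingHom, map_X] at e3
    rw [natTrailingDegree_det_map f hf, e1]
    exact e2 ▸ e3

theorem LieLat.nsmul {g : Matrix (Fin n) (Fin n) ℝ} (h : LieLat s g) {K : ℕ} (hK : 0 < K) :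
    LieLat s (K • g) := by
  obtain ⟨h0, s', h1⟩ := h
  have hK' : (K : ℝ) ≠ 0 := Nat.cast_ne_zero.2 hK.ne'
  rw [← Nat.cast_smul_eq_nsmul ℝ]
  refine ⟨by rw [det_smul]; exact mul_ne_zero (pow_ne_zero _ hK') h0,
    fun i j l => K * s' i j l, fun i j => ?_⟩
  have e : (fun l => ((K * s' i j l : ℤ) : ℝ)) = (K : ℝ) • fun l => (s' i j l : ℝ) := by
    funext l
    simp
  rw [e, smul_mulVec, mulVec_smul, smul_smul, h1 i j, ← Carry_smul]
  rfl

theorem lieLat_of_mem {g : Matrix (Fin n) (Fin n) ℝ} (h0 : g.det ≠ 0)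
    (h : ∀ i j, ∃ v : Fin n → ℤ, (g *ᵥ fun l => (v l : ℝ)) = br s (g.col i) (g.col j)) :
    LieLat s g := by
  choose v hv using h
  exact ⟨h0, v, hv⟩

theorem LieLat.br_mem {g : Matrix (Fin n) (Fin n) ℝ} (h : LieLat s g) (x y : Fin n → ℤ) :
    ∃ v : Fin n → ℤ, (g *ᵥ fun l => (v l : ℝ)) =
      br s (g *ᵥ fun l => (x l : ℝ)) (g *ᵥ fun l => (y l : ℝ)) := by
  obtain ⟨-, s', h1⟩ := h
  exact ⟨br s' x y, by rw [← h1.mulVec, br_intCast]⟩

end Pool.Agent.Work.MP_913e71_al.Pos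
end

-- merged part: Pool.Agent.Work.MP_913e71_al.Pos.LieBox
section
/-! Balls, boxes and volumes in a group with continuous logarithmic coordinates.  `D = ∑ i, d i`.

PLAN.  `lg` is a homeomorphism onto `ℝ ^ n` (`surj`, `emb`), so `BX r` is compact and a neighbourhood of `1` for `r > 0`.
`gen`: `X.int.gen i`, `X.int.int`: each `lg a`, `a ∈ T`, is the cast of a rational vector; closure induction, `map_ev` for the cast
`ℚ ^ n → ℝ ^ n` (injective); to pass from words in `T` to words in `ℚ ^ n` use `FreeMagma.map` (same length).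
`box_ball`: `exists_cover`: `γ * x = k ∈ K`, `γ⁻¹ = x * k⁻¹` is in a box of radius `r + C` (`box_step`); `box_ball` for
`M.restrict Γ`, `wordLength_le_sub`, `wordLength_bdd`.
`meas_box`: the points of `Γ` in `BX r` are between `c r ^ D` and `C r ^ D` in number (`N • ZB ⊆ lg Γ ⊆ N⁻¹ • ZB`, `ZB_count`);
`meas_le_mul_covol` (`box_mul`), `mul_covol_le_meas` (`box_step`), `covol_ne`; for small `r` use `μ (BX 1) > 0`.
`span_lg`: `span_of_bounded` with `g = ⊤`; `br (lg a) (lg a') = N⁻¹ • lg z`; words of length `> sup d` vanish (`Filt.ev_mem`).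
`span_Fil`: by `gen`, `Pi.single i 1` is a combination of words of length `≥ d i` in real vectors; a word in real vectors is in the real span
of the words of the same length in the columns of `g` (induction), which are lattice points (`LieLat.br_mem`) in `Fil d k`.
`cover`: descending induction on `k` from `sup d + 1`: for `lg x ∈ Fil k` write `lg x = ∑ t j • m j` with a fixed finite family of lattice
points `m j ∈ Fil k`; let `lg a = - ∑ ⌊t j⌋ • m j`, `lg y = ∑ fract (t j) • m j`; `a * x * y⁻¹ ∈ Fil (k + 1)` (`mul_sub`); `box_mul`. -/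

namespace Pool.Agent.Work.MP_913e71_al.Pos

open MeasureTheory Matrix

variable {G : Type} [Group G] [TopologicalSpace G] {n : ℕ} (X : LieSet G n)

theorem LieBox_closed : Topology.IsClosedEmbedding X.M.lg :=
  ⟨X.emb, by rw [X.surj.range_eq]; exact isClosed_univ⟩

theorem LieBox_bdd {K : Set G} (hK : IsCompact K) : ∃ B : ℝ, ∀ a ∈ K, ∀ i, |X.M.lg a i| ≤ B := by
  obtain ⟨B, hB⟩ := hK.exists_bound_of_continuousOn X.emb.continuous.continuousOn
  exact ⟨B, fun a ha i => (norm_le_pi_norm (X.M.lg a) i).trans (hB a ha)⟩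

include X in
theorem LieSet.top : LocallyCompactSpace G ∧ T2Space G ∧ SecondCountableTopology G := by
  exact ⟨(LieBox_closed X).locallyCompactSpace, X.emb.t2Space, X.emb.secondCountableTopology⟩

theorem LieSet.BX_compact (r : ℝ) : IsCompact (X.M.BX r) := by
  have h := (LieBox_closed X).isCompact_preimage
    (isCompact_univ_pi fun i => isCompact_Icc (a := -r ^ X.M.d i) (b := r ^ X.M.d i))
  convert h using 1
  ext g
  simp only [Mal.BX, InBox, abs_le, Set.mem_ofPred_eq, Set.mem_preimage, Set.mem_univ_pi,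
    Set.mem_Icc]

theorem LieSet.BX_nhds {r : ℝ} (hr : 0 < r) : X.M.BX r ∈ nhds (1 : G) := by
  refine Filter.eventually_all.2 fun i => ?_
  have h : Continuous fun g => |X.M.lg g i| := ((continuous_apply i).comp X.emb.continuous).abs
  refine (h.continuousAt.eventually_lt continuousAt_const ?_).mono fun g hg => hg.le
  rw [X.M.lg_one, Pi.zero_apply, abs_zero]
  positivity

/-- The inclusion of the rational points. -/
noncomputable def LieBox_c (n : ℕ) : (Fin n → ℚ) →ₗ[ℚ] (Fin n → ℝ) :=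
  (Algebra.linearMap ℚ ℝ).compLeft (Fin n)

theorem LieBox_single (i : Fin n) : LieBox_c n (Pi.single i 1) = Pi.single i 1 := by
  funext l
  show (((Pi.single i 1 : Fin n → ℚ) l : ℚ) : ℝ) = _
  by_cases h : l = i
  · subst h; simp
  · simp [h]

theorem LieBox_ev {α : Type} (s : Fin n → Fin n → Fin n → ℤ) (x : α → Fin n → ℚ)
    (w : FreeMagma α) : LieBox_c n (ev (br s) x w) = ev (br s) (fun a => LieBox_c n (x a)) w :=
  map_ev (LieBox_c n) (P := Set.univ) (fun _ _ _ _ => trivial)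
    (fun x _ y _ => Carry_map_br (Rat.castHom ℝ) x y) (fun _ => trivial) w

theorem LieBox_map {α V : Type} (b : V → V → V) (x : α → V) (w : FreeMagma α) :
    (FreeMagma.map x w).length = w.length ∧ ev b id (FreeMagma.map x w) = ev b x w := by
  induction w using FreeMagma.recOnMul with
  | ih1 a => exact ⟨rfl, rfl⟩
  | ih2 u v hu hv =>
    rw [map_mul, ev_mul, ev_mul, hu.2, hv.2]
    exact ⟨congrArg₂ (· + ·) hu.1 hv.1, rfl⟩

theorem LieSet.gen : Gen X.M.d X.M.s := by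
  intro i
  choose v hv using X.int.int
  have hN : (X.M.N : ℝ) ≠ 0 := Nat.cast_ne_zero.2 X.M.hN.ne'
  have hN' : (X.M.N : ℚ) ≠ 0 := Nat.cast_ne_zero.2 X.M.hN.ne'
  have key : ∀ y ∈ AddSubgroup.closure {y | ∃ w : FreeMagma X.T, X.M.d i ≤ w.length ∧
      ev (br X.M.s) (fun a : X.T => X.M.lg (a : X.Γ)) w = y},
      ∃ z ∈ TS (br X.M.s) (id : (Fin n → ℚ) → Fin n → ℚ) (X.M.d i), LieBox_c n z = y := by
    intro y hy
    induction hy using AddSubgroup.closure_induction with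
    | mem y hy =>
      obtain ⟨w, h1, rfl⟩ := hy
      refine ⟨ev (br X.M.s) (fun (a : X.T) l => (v a l : ℚ) / X.M.N) w, ?_, ?_⟩
      · obtain ⟨h2, h3⟩ := LieBox_map (br X.M.s) (fun (a : X.T) l => (v a l : ℚ) / X.M.N) w
        rw [← h3]
        exact ev_mem_TS _ _ (h2.symm ▸ h1)
      · rw [LieBox_ev]
        congr 1
        funext a l
        have h2 : X.M.N • X.M.lg (a : X.Γ) l = v a l := congrFun (hv a) l
        rw [nsmul_eq_mul] at h2
        show ((v a l / X.M.N : ℚ) : ℝ) = _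
        rw [Rat.cast_div, Rat.cast_intCast, Rat.cast_natCast, ← h2, mul_div_cancel_left₀ _ hN]
    | zero => exact ⟨0, zero_mem _, map_zero _⟩
    | add y y' _ _ h h' =>
      obtain ⟨z, h1, rfl⟩ := h
      obtain ⟨z', h2, rfl⟩ := h'
      exact ⟨z + z', add_mem h1 h2, map_add _ _ _⟩
    | neg y _ h =>
      obtain ⟨z, h1, rfl⟩ := h
      exact ⟨-z, neg_mem h1, map_neg _ _⟩
  obtain ⟨z, h1, h2⟩ := key _ (X.int.gen i)
  convert Submodule.smul_mem _ (X.M.N : ℚ)⁻¹ h1 using 1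
  funext l
  have h3 : ((z l : ℚ) : ℝ) = X.M.N • (Pi.single i 1 : Fin n → ℝ) l := congrFun h2 l
  rw [← LieBox_single, nsmul_eq_mul] at h3
  have h4 : z l = X.M.N * (Pi.single i 1 : Fin n → ℚ) l := Rat.cast_injective (α := ℝ) (by
    rw [h3, Rat.cast_mul, Rat.cast_natCast]; rfl)
  rw [Pi.smul_apply, h4, smul_eq_mul, inv_mul_cancel_left₀ hN']

theorem LieBox_span {s : Fin n → Fin n → Fin n → ℤ} {A B : Set (Fin n → ℝ)}
    {W : Submodule ℝ (Fin n → ℝ)} (h : ∀ x ∈ A, ∀ y ∈ B, br s x y ∈ W) :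
    ∀ x ∈ Submodule.span ℝ A, ∀ y ∈ Submodule.span ℝ B, br s x y ∈ W := by
  intro x hx y hy
  have hb := bil_br s
  induction hx using Submodule.span_induction with
  | mem x hx =>
    induction hy using Submodule.span_induction with
    | mem y hy => exact h x hx y hy
    | zero => rw [hb.zero_right]; exact zero_mem _
    | add y z _ _ hy hz => rw [hb.add_right]; exact add_mem hy hz
    | smul a y _ hy => rw [← one_smul ℝ x, Carry_smul]; exact W.smul_mem _ hy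
  | zero => rw [hb.zero_left]; exact zero_mem _
  | add x z _ _ hx hz => rw [hb.add_left]; exact add_mem hx hz
  | smul a x _ hx => rw [← one_smul ℝ y, Carry_smul]; exact W.smul_mem _ hx

theorem LieBox_word {α : Type} {g : Matrix (Fin n) (Fin n) ℝ} (hg : LieLat X.M.s g)
    (x : α → Fin n → ℝ) (w : FreeMagma α) : ev (br X.M.s) x w ∈ Submodule.span ℝ
      {y | y ∈ Fil X.M.d w.length ∧ ∃ v : Fin n → ℤ, (g *ᵥ fun i => (v i : ℝ)) = y} := by
  induction w using FreeMagma.recOnMul with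
  | ih1 a =>
    have e : x a = g *ᵥ (g⁻¹ *ᵥ x a) := by
      rw [mulVec_mulVec, mul_nonsing_inv _ (isUnit_iff_ne_zero.2 hg.1), one_mulVec]
    rw [ev_of, e, pi_eq_sum_univ' (g⁻¹ *ᵥ x a), mulVec_sum]
    refine sum_mem fun i _ => ?_
    rw [mulVec_smul]
    refine Submodule.smul_mem _ _ (Submodule.subset_span
      ⟨mem_Fil_one X.M.hd _, Pi.single i 1, congrArg _ (funext fun l => ?_)⟩)
    by_cases h : l = i
    · subst h; simp
    · simp [h]
  | ih2 u v hu hv =>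
    refine LieBox_span ?_ _ hu _ hv
    rintro _ ⟨h1, a, rfl⟩ _ ⟨h2, b, rfl⟩
    exact Submodule.subset_span ⟨(filt_Fil X.M.graded).br_mem _ _ _ h1 _ h2, hg.br_mem a b⟩

theorem LieSet.span_Fil {g : Matrix (Fin n) (Fin n) ℝ} (hg : LieLat X.M.s g) (k : ℕ) :
    ∀ x ∈ Fil X.M.d k, x ∈ Submodule.span ℝ
      {y | y ∈ Fil X.M.d k ∧ ∃ v : Fin n → ℤ, (g *ᵥ fun i => (v i : ℝ)) = y} := by
  intro x hx
  rw [pi_eq_sum_univ' x]
  refine sum_mem fun i _ => ?_
  rcases lt_or_ge (X.M.d i) k with h | h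
  · rw [hx i h, zero_smul]
    exact zero_mem _
  refine Submodule.smul_mem _ _ ?_
  rw [← LieBox_single]
  have h1 := X.gen i
  generalize (Pi.single i 1 : Fin n → ℚ) = z at h1
  induction h1 using Submodule.span_induction with
  | mem z hz =>
    obtain ⟨w, h1, rfl⟩ := hz
    rw [LieBox_ev]
    refine Submodule.span_mono (fun y hy => ?_) (LieBox_word X hg _ w)
    exact ⟨(filt_Fil X.M.graded).anti (h.trans h1) hy.1, hy.2⟩
  | zero => rw [map_zero]; exact zero_mem _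
  | add y z _ _ hy hz => rw [map_add]; exact add_mem hy hz
  | smul a y _ hy => rw [map_smul]; exact Submodule.smul_of_tower_mem _ a hy

theorem LieBox_line (A : AddSubgroup (Fin n → ℝ)) :
    ∀ v ∈ Submodule.span ℝ (A : Set (Fin n → ℝ)), ∃ B : ℝ, ∀ t : ℝ, ∃ m ∈ A, ‖t • v - m‖ ≤ B := by
  intro v hv
  induction hv using Submodule.span_induction with
  | mem v hv =>
    refine ⟨‖v‖, fun t => ⟨⌊t⌋ • v, zsmul_mem hv _, ?_⟩⟩
    rw [← Int.cast_smul_eq_zsmul ℝ, ← sub_smul, norm_smul, Int.self_sub_floor, Real.norm_eq_abs,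
      Int.abs_fract]
    exact mul_le_of_le_one_left (norm_nonneg _) (Int.fract_lt_one t).le
  | zero => exact ⟨0, fun t => ⟨0, zero_mem _, by simp⟩⟩
  | add v w _ _ hv hw =>
    obtain ⟨B, hB⟩ := hv
    obtain ⟨B', hB'⟩ := hw
    refine ⟨B + B', fun t => ?_⟩
    obtain ⟨m, h1, h2⟩ := hB t
    obtain ⟨m', h3, h4⟩ := hB' t
    refine ⟨m + m', add_mem h1 h3, ?_⟩
    rw [smul_add, add_sub_add_comm]
    exact norm_add_le_of_le h2 h4
  | smul a v _ hv => exact hv.imp fun B hB t => by rw [smul_smul]; exact hB _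

theorem LieBox_near (A : AddSubgroup (Fin n → ℝ)) (p : Fin n → Prop)
    (h : ∀ i, p i → Pi.single i 1 ∈ Submodule.span ℝ (A : Set (Fin n → ℝ))) :
    ∃ B : ℝ, ∀ x : Fin n → ℝ, (∀ i, ¬ p i → x i = 0) → ∃ m ∈ A, ‖x - m‖ ≤ B := by
  have h1 : ∀ i, ∃ B : ℝ, ∀ t : ℝ, (¬ p i → t = 0) →
      ∃ m ∈ A, ‖t • (Pi.single i 1 : Fin n → ℝ) - m‖ ≤ B := by
    intro i
    by_cases hi : p i
    · exact (LieBox_line A _ (h i hi)).imp fun B hB t _ => hB t
    · exact ⟨0, fun t ht => ⟨0, zero_mem _, by simp [ht hi]⟩⟩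
  choose B hB using h1
  refine ⟨∑ i, B i, fun x hx => ?_⟩
  choose m h2 h3 using fun i => hB i (x i) (hx i)
  refine ⟨∑ i, m i, sum_mem fun i _ => h2 i, ?_⟩
  rw [pi_eq_sum_univ' x, ← Finset.sum_sub_distrib]
  exact norm_sum_le_of_le _ fun i _ => h3 i

theorem LieSet.cover {g : Matrix (Fin n) (Fin n) ℝ} (hg : LieLat X.M.s g) (Λ : Subgroup G)
    (hΛ : ∀ a : G, a ∈ Λ ↔ ∃ v : Fin n → ℤ, (g *ᵥ fun i => (v i : ℝ)) = X.M.lg a) :
    ∃ R : ℝ, ∀ x : G, ∃ a ∈ Λ, a * x ∈ X.M.BX R := by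
  have key : ∀ k, k ≤ Finset.univ.sup X.M.d + 1 → 1 ≤ k → ∃ R : ℝ, 1 ≤ R ∧ ∀ x : G,
      X.M.lg x ∈ Fil X.M.d k → ∃ a ∈ Λ, a * x ∈ X.M.BX R := by
    intro k hk
    induction hk using Nat.decreasingInduction with
    | self =>
      refine fun _ => ⟨1, le_rfl, fun x hx => ⟨1, one_mem _, fun i => ?_⟩⟩
      rw [one_mul, hx i (Nat.lt_succ_of_le (Finset.le_sup (Finset.mem_univ i))), abs_zero]
      positivity
    | of_succ k _ ih =>
      intro hk
      obtain ⟨R, h1, h2⟩ := ih (Nat.le_succ_of_le hk)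
      let A : AddSubgroup (Fin n → ℝ) := (Fil X.M.d k).toAddSubgroup ⊓
        (g.mulVecLin.toAddMonoidHom.comp (MalSys_c n)).range
      obtain ⟨B, h3⟩ := LieBox_near A (fun i => k ≤ X.M.d i) fun i hi =>
        X.span_Fil hg k _ fun l hl => Pi.single_eq_of_ne (by rintro rfl; omega) _
      obtain ⟨K, h4, h5⟩ := X.M.box_step B
      refine ⟨R + K, by linarith, fun x hx => ?_⟩
      obtain ⟨m, hm, h6⟩ := h3 (X.M.lg x) fun i hi => hx i (not_le.1 hi)
      obtain ⟨a, ha⟩ := X.surj (-m)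
      obtain ⟨y, hy⟩ := X.surj (X.M.lg x - m)
      have ap : ∀ z : G, X.M.lg z ∈ Fil X.M.d k → X.M.BoxBall_Ap k z (X.M.lg z) := fun z hz =>
        ⟨hz, by rw [sub_self]; exact zero_mem _⟩
      have h7 := (((ap a (ha ▸ (neg_mem hm).1)).mul hk (ap x hx)).mul hk
        (ap y (hy ▸ sub_mem hx hm.1)).inv).2
      rw [ha, hy, neg_add_eq_sub, add_neg_cancel, sub_zero] at h7
      obtain ⟨a', h8, h9⟩ := h2 _ h7
      refine ⟨a' * a, mul_mem h8 ((hΛ a).2 (ha ▸ (neg_mem hm).2)), ?_⟩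
      have h10 := h5 R h1 _ y h9 fun i => (norm_le_pi_norm _ i).trans (hy ▸ h6)
      rwa [mul_assoc, inv_mul_cancel_right, ← mul_assoc] at h10
  obtain ⟨R, -, h⟩ := key 1 (Nat.le_add_left _ _) le_rfl
  exact ⟨R, fun x => h x (mem_Fil_one X.M.hd _)⟩

variable [IsTopologicalGroup G] {S : Set G}

theorem LieSet.ball_box (hc : IsCompact S) (hS : Subgroup.closure S = ⊤) :
    ∃ C : ℝ, 1 ≤ C ∧ ∀ r : ℝ, 1 ≤ r → ball S r ⊆ X.M.BX (C * r) := by
  obtain ⟨B, hB⟩ := LieBox_bdd X hc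
  obtain ⟨C, h1, h2⟩ := X.M.ball_box hS B hB
  exact ⟨C, h1, fun r hr g hg => h2 g r hr hg⟩

theorem LieSet.box_ball (hc : IsCompact S) (hS : Subgroup.closure S = ⊤) :
    ∃ C : ℝ, 1 ≤ C ∧ ∀ r : ℝ, 1 ≤ r → X.M.BX r ⊆ ball S (C * r) := by
  obtain ⟨_, _, _⟩ := X.top
  obtain ⟨_, _⟩ := X.lat
  obtain ⟨K, hK, -, h1⟩ := exists_cover X.Γ
  obtain ⟨B, hB⟩ := LieBox_bdd X hK
  obtain ⟨K1, h2, h3⟩ := X.M.box_step B
  obtain ⟨C2, h4, h5⟩ := (X.M.restrict X.Γ).box_ball X.hT X.int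
  obtain ⟨C3, h6, h7⟩ := wordLength_le_sub hS X.Γ X.hT
  obtain ⟨N0, h8⟩ := wordLength_bdd hc hS hK
  have h9 : (1 : ℝ) ≤ C3 := Nat.one_le_cast.2 h6
  refine ⟨C3 * (C2 * (1 + K1)) + N0, le_add_of_le_of_nonneg (one_le_mul_of_one_le_of_one_le h9
    (one_le_mul_of_one_le_of_one_le h4 (by linarith))) (Nat.cast_nonneg _), fun r hr x hx => ?_⟩
  obtain ⟨γ, hγ, h10⟩ := h1 x
  have h11 := h3 r hr x (γ * x)⁻¹ hx fun i => by
    rw [X.M.lg_inv, Pi.neg_apply, abs_neg]; exact hB _ h10 i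
  rw [_root_.mul_inv_rev, mul_inv_cancel_left] at h11
  have h12 := h5 ⟨γ⁻¹, inv_mem hγ⟩ ((1 + K1) * r) (one_le_mul_of_one_le_of_one_le (by linarith) hr)
    (h11.mono (by linarith) (by nlinarith))
  have h13 : (wordLength S γ⁻¹ : ℝ) ≤ C3 * wordLength (X.T : Set X.Γ) ⟨γ⁻¹, inv_mem hγ⟩ := by
    exact_mod_cast h7 ⟨γ⁻¹, inv_mem hγ⟩
  have h14 : (wordLength S x : ℝ) ≤ wordLength S γ⁻¹ + N0 := by
    have := (wordLength_mul_le hS γ⁻¹ (γ * x)).trans (Nat.add_le_add_left (h8 _ h10) _)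
    rw [inv_mul_cancel_left] at this
    exact_mod_cast this
  refine h14.trans ?_
  rw [add_mul, mul_assoc, mul_assoc]
  exact add_le_add (h13.trans (mul_le_mul_of_nonneg_left h12 (Nat.cast_nonneg _)))
    (le_mul_of_one_le_right (Nat.cast_nonneg _) hr)

theorem LieBox_fin (r : ℝ) : (X.M.BX r ∩ X.Γ).Finite := by
  obtain ⟨_, _, _⟩ := X.top
  obtain ⟨_, _⟩ := X.lat
  exact finite_inter X.Γ (X.BX_compact r)

theorem LieBox_count {r : ℝ} (hr : 1 ≤ r) :
    r ^ (∑ i, X.M.d i) ≤ (X.M.BX (X.M.N * r) ∩ X.Γ).ncard ∧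
      ((X.M.BX r ∩ X.Γ).ncard : ℝ) ≤ 3 ^ n * (X.M.N * r) ^ (∑ i, X.M.d i) := by
  have hN := X.M.hN
  constructor
  · choose f hf using X.int.full
    refine (ZB_count X.M.d hr).1.trans (Nat.cast_le.2 (Set.ncard_le_ncard_of_injOn
      (fun v => (f v : G)) (fun v hv => ⟨?_, (f v).2⟩) (fun v _ v' _ e => MalSys_inj ?_)
      (LieBox_fin X _)))
    · exact (congrArg (InBox X.M.d _) (hf v)).mpr (InBox.nsmul X.M.hd (by positivity) hv hN)
    · exact nsmul_right_injective hN.ne' ((hf v).symm.trans (Subtype.ext e ▸ hf v'))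
  · have h : ∀ g ∈ X.Γ, ∃ v : Fin n → ℤ, X.M.N • X.M.lg g = MalSys_c n v := fun g hg =>
      X.int.int ⟨g, hg⟩
    choose! f hf using h
    refine le_trans (Nat.cast_le.2 (Set.ncard_le_ncard_of_injOn f (fun g hg => ?_)
      (fun g hg g' hg' e => X.M.inj ?_) (ZB_finite _ _)))
      (ZB_count X.M.d (one_le_mul_of_one_le_of_one_le (Nat.one_le_cast.2 hN) hr)).2
    · have := InBox.nsmul X.M.hd (by positivity) hg.1 hN
      rwa [hf g hg.2] at this
    · exact nsmul_right_injective hN.ne' ((hf g hg.2).trans (e ▸ (hf g' hg'.2).symm))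

theorem LieSet.span_lg (Λ : Subgroup G) (hΛ : IsCocompactLattice Λ) :
    Submodule.span ℝ (X.M.lg '' Λ) = ⊤ := by
  obtain ⟨_, _, _⟩ := X.top
  obtain ⟨_, _⟩ := hΛ
  obtain ⟨K, hK, -, h1⟩ := exists_cover Λ
  refine top_le_iff.1 (span_of_bounded (bil_br X.M.s) (fun a x y => ?_) ⊤ _
    (fun _ _ _ _ => trivial) (LieBox_span ?_) le_top (c := Finset.univ.sup X.M.d) (fun w hw => ?_)
    X.M.len2 X.M.lg (fun _ => trivial) (fun x _ => X.surj x) X.M.mul Λ
    (fun a ha => Submodule.subset_span ⟨a, ha, rfl⟩) fun lam => ?_)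
  · conv_lhs => rw [← one_smul ℝ y, Carry_smul, mul_one]
  · rintro _ ⟨a, ha, rfl⟩ _ ⟨b, hb, rfl⟩
    obtain ⟨z, hz, e⟩ := X.M.ib_br Λ a ha b hb
    refine (Submodule.smul_mem_iff _ (Nat.cast_ne_zero.2 X.M.hN.ne' : (X.M.N : ℝ) ≠ 0)).1 ?_
    rw [Nat.cast_smul_eq_nsmul, ← e]
    exact Submodule.subset_span ⟨z, hz, rfl⟩
  · exact funext fun l => Carry_ev X.M.hd X.M.graded _ w l
      ((Finset.le_sup (Finset.mem_univ l)).trans_lt hw)
  · obtain ⟨B, hB⟩ := hK.exists_bound_of_continuousOn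
      (lam.continuous_of_finiteDimensional.comp X.emb.continuous).continuousOn
    exact ⟨B, fun x => (h1 x).imp fun a ha => ⟨ha.1, hB _ ha.2⟩⟩

variable [MeasurableSpace G] [BorelSpace G] (μ : Measure G) [μ.IsHaarMeasure]

theorem LieSet.meas_box : ∃ C : ℝ, 1 ≤ C ∧ ∀ r : ℝ, 1 ≤ r →
    ENNReal.ofReal (r ^ (∑ i, X.M.d i)) ≤ ENNReal.ofReal C * μ (X.M.BX r) ∧
      μ (X.M.BX r) ≤ ENNReal.ofReal (C * r ^ (∑ i, X.M.d i)) := by
  obtain ⟨_, _, _⟩ := X.top
  obtain ⟨c0, c1⟩ := covol_ne X.Γ X.lat μ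
  obtain ⟨_, _⟩ := X.lat
  obtain ⟨K, hK, -, h1⟩ := exists_cover X.Γ
  obtain ⟨B, hB⟩ := LieBox_bdd X hK
  obtain ⟨K1, h2, h3⟩ := X.M.box_step B
  obtain ⟨K2, h4, h5⟩ := X.M.box_mul
  have hN : (1 : ℝ) ≤ X.M.N := Nat.one_le_cast.2 X.M.hN
  have hm : ∀ r, MeasurableSet (X.M.BX r) := fun r => (X.BX_compact r).measurableSet
  have hf : ∀ r, μ (X.M.BX r) ≠ ⊤ := fun r => (X.BX_compact r).measure_ne_top
  have hc := ENNReal.toReal_pos c0 c1
  have h6 := ENNReal.toReal_pos (μ.measure_pos_of_mem_nhds (X.BX_nhds one_pos)).ne' (hf 1)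
  have h7 : ∀ r r', 1 ≤ r → r ≤ r' → (μ (X.M.BX r)).toReal ≤ (μ (X.M.BX r')).toReal :=
    fun r r' hr h => ENNReal.toReal_mono (hf _)
      (measure_mono fun g hg => InBox.mono (by linarith) h hg)
  have hcount := fun r => LieBox_count X (r := r)
  generalize ∑ i, X.M.d i = D at hcount
  set c := (covolume X.Γ G μ).toReal
  set e := min c (μ (X.M.BX 1)).toReal
  have he : 0 < e := lt_min hc h6
  set L := X.M.N + K1 with hL
  have hL1 : 1 ≤ L := by linarith
  have low : ∀ r, 1 ≤ r → r ^ D * e ≤ L ^ D * (μ (X.M.BX r)).toReal := by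
    intro r hr
    rcases le_total r L with h | h
    · exact mul_le_mul (pow_le_pow_left₀ (by linarith) h D)
        ((min_le_right _ _).trans (h7 _ _ le_rfl hr)) he.le (by positivity)
    · have h8 : 1 ≤ r / L := (one_le_div (by linarith)).2 h
      have e1 : L * (r / L) = r := mul_div_cancel₀ _ (by linarith)
      have h9 := ENNReal.toReal_mono (hf _) (mul_covol_le_meas X.Γ μ h1 (hm _) fun b hb k hk =>
        h3 _ (one_le_mul_of_one_le_of_one_le hN h8) b k hb (hB k hk))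
      rw [ENNReal.toReal_mul, ENNReal.toReal_natCast] at h9
      conv_lhs => rw [← e1, mul_pow, mul_assoc]
      refine mul_le_mul_of_nonneg_left ((mul_le_mul (hcount _ h8).1 (min_le_left _ _) he.le
        (Nat.cast_nonneg _)).trans (h9.trans (h7 _ _ ?_ ?_))) (by positivity)
      · nlinarith
      · nlinarith
  have h10 : 0 ≤ L ^ D / e := by positivity
  have h11 : 0 ≤ 3 ^ n * (X.M.N * K2) ^ D * c := by positivity
  refine ⟨1 + L ^ D / e + 3 ^ n * (X.M.N * K2) ^ D * c, by linarith, fun r hr => ⟨?_, ?_⟩⟩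
  · rw [← ENNReal.ofReal_toReal (hf r), ← ENNReal.ofReal_mul (by linarith)]
    refine ENNReal.ofReal_le_ofReal (le_trans ?_ (mul_le_mul_of_nonneg_right
      (show L ^ D / e ≤ _ by linarith) ENNReal.toReal_nonneg))
    rw [div_mul_eq_mul_div, le_div_iff₀ he]
    exact low r hr
  · refine (meas_le_mul_covol X.Γ μ (hm r) (LieBox_fin X (K2 * r)) fun x hx y hy =>
      h5 r hr x y⁻¹ hx (X.M.lg_inv y ▸ InBox.neg hy)).trans ?_
    rw [← ENNReal.ofReal_toReal c1, ← ENNReal.ofReal_natCast,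
      ← ENNReal.ofReal_mul (Nat.cast_nonneg _)]
    refine ENNReal.ofReal_le_ofReal ((mul_le_mul_of_nonneg_right
      (hcount _ (one_le_mul_of_one_le_of_one_le h4 hr)).2 hc.le).trans ?_)
    rw [← mul_assoc, mul_pow _ r, ← mul_assoc, mul_right_comm]
    exact mul_le_mul_of_nonneg_right (by linarith) (by positivity)

theorem LieSet.grow (hc : IsCompact S) (hS : Subgroup.closure S = ⊤) :
    GrowTwoL S μ (∑ i, X.M.d i) := by
  obtain ⟨C1, h1, h2⟩ := X.ball_box hc hS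
  obtain ⟨C2, h3, h4⟩ := X.box_ball hc hS
  obtain ⟨C3, h5, h6⟩ := X.meas_box μ
  generalize ∑ i, X.M.d i = D at h6
  have h7 : C3 ≤ C3 * C1 ^ D := le_mul_of_one_le_right (by linarith) (one_le_pow₀ h1)
  refine ⟨C2 + C3 * C1 ^ D, by linarith, fun r hr => ⟨(h6 r hr).1.trans (mul_le_mul'
    (ENNReal.ofReal_le_ofReal (by linarith)) (measure_mono fun g hg => ?_)),
      (measure_mono (h2 r hr)).trans ((h6 _ (one_le_mul_of_one_le_of_one_le h1 hr)).2.trans
        (ENNReal.ofReal_le_ofReal ?_))⟩⟩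
  · exact le_trans (b := C2 * r) (h4 r hr hg)
      (mul_le_mul_of_nonneg_right (by linarith) (by linarith))
  · rw [mul_pow, ← mul_assoc]
    exact mul_le_mul_of_nonneg_right (by linarith) (by positivity)

end Pool.Agent.Work.MP_913e71_al.Pos
end

-- merged part: Pool.Agent.Work.MP_913e71_al.Pos.RLat
section
/-! Real lattices.

PLAN for `real_lat_count`.  Let `F` be the image by `g` of the unit cube `[0, 1) ^ n`, of volume `|det g|`
(`MeasureTheory.Measure.addHaar_image_linearMap`, or `ZSpan.volume_fundamentalDomain`); the translates `g v + F` are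
disjoint and cover.  For `r ≥ R₀`, `F ∪ -F` is in the box of radius `r / 2`.  The translates with `v ∈ RZ d r g` lie in the box
of radius `2 r` and cover the box of radius `r / 2` (`InBox.add`); the box of radius `ρ` has volume `2 ^ n * ρ ^ D`.
PLAN for `min_det_real`.  Take a basis `Y₀` of `ℝ ^ n` inside `X`.  For a list of `k` elements of `X`, `N ^ k • sum ∈ X`.  For `x = Y₀ a ∈ X`
and `k : ℕ` the vector `N ^ (n + 1) • (k • x - Y₀ ⌊k a⌋)` is in `X` and in a fixed bounded set, so it takes at most `P` values;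
two `k ≤ P` give the same value, so `P! • a` is integral.  Apply `min_det` to `X' = {v : ℤ ^ n | (P!)⁻¹ • Y₀ v ∈ X}`, let `Y` be a basis
of its span (`exists_square_basis`), `g = (P!)⁻¹ • Y₀ * Y`. -/

namespace Pool.Agent.Work.MP_913e71_al.Pos

open Matrix

variable {n : ℕ} {d : Fin n → ℕ}

/-- A bound of the image of the unit cube. -/
theorem RLat_cube (g : Matrix (Fin n) (Fin n) ℝ) {y : Fin n → ℝ} {B : ℝ} (hy : ∀ j, |y j| ≤ B)
    (hB : 0 ≤ B) (i : Fin n) : |(g *ᵥ y) i| ≤ (∑ i, ∑ j, |g i j|) * B := by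
  have h1 : |(g *ᵥ y) i| ≤ ∑ j, |g i j| * B := by
    show |∑ j, g i j * y j| ≤ _
    refine (Finset.abs_sum_le_sum_abs _ _).trans (Finset.sum_le_sum fun j _ => ?_)
    rw [abs_mul]
    exact mul_le_mul_of_nonneg_left (hy j) (abs_nonneg _)
  rw [← Finset.sum_mul] at h1
  refine h1.trans (mul_le_mul_of_nonneg_right ?_ hB)
  exact Finset.single_le_sum (f := fun i => ∑ j, |g i j|)
    (fun i _ => Finset.sum_nonneg fun j _ => abs_nonneg _) (Finset.mem_univ i)

theorem RLat_floor (x : ℝ) : |x - (⌊x⌋ : ℝ)| ≤ 1 := by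
  rw [abs_le]
  constructor <;> linarith [Int.floor_le x, Int.lt_floor_add_one x]

theorem RLat_volbox (d : Fin n → ℕ) {ρ : ℝ} (hρ : 0 ≤ ρ) {g : Matrix (Fin n) (Fin n) ℝ}
    (hg : g.det ≠ 0) : MeasureTheory.volume {x : Fin n → ℝ | InBox d ρ (g *ᵥ x)} =
      ENNReal.ofReal (|g.det|⁻¹ * (2 ^ n * ρ ^ (∑ i, d i))) := by
  have h1 : {x : Fin n → ℝ | InBox d ρ (g *ᵥ x)} =
      Matrix.toLin' g ⁻¹' Set.Icc (fun i => -ρ ^ d i) (fun i => ρ ^ d i) := by
    ext x
    simp only [InBox, Set.mem_ofPred_eq, Set.mem_preimage, Matrix.toLin'_apply, Set.mem_Icc, Pi.le_def,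
      abs_le, forall_and]
  rw [h1, MeasureTheory.Measure.addHaar_preimage_linearMap _ (by rwa [LinearMap.det_toLin']),
    LinearMap.det_toLin', Real.volume_Icc_pi, abs_inv, ENNReal.ofReal_mul (by positivity),
    ← ENNReal.ofReal_prod_of_nonneg fun i _ => by have := pow_nonneg hρ (d i); linarith]
  refine congrArg (fun t => ENNReal.ofReal |g.det|⁻¹ * ENNReal.ofReal t) ?_
  have h2 : ∀ i, ρ ^ d i - -ρ ^ d i = 2 * ρ ^ d i := fun i => by ring
  simp only [h2]
  rw [Finset.prod_mul_distrib, Finset.prod_const, Finset.card_univ, Fintype.card_fin,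
    Finset.prod_pow_eq_pow_sum]

theorem RLat_volfl {S : Set (Fin n → ℤ)} (hS : S.Finite) :
    MeasureTheory.volume ((fun (x : Fin n → ℝ) i => ⌊x i⌋) ⁻¹' S) = ENNReal.ofReal S.ncard := by
  have h1 : ∀ v : Fin n → ℤ, (fun (x : Fin n → ℝ) i => ⌊x i⌋) ⁻¹' {v} =
      Set.pi Set.univ fun i => Set.Ico (v i : ℝ) (v i + 1) := fun v => by
    ext x
    simp only [Set.mem_preimage, Set.mem_singleton_iff, funext_iff, Int.floor_eq_iff, Set.mem_pi,
      Set.mem_univ, true_imp_iff, Set.mem_Ico]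
  lift S to Finset (Fin n → ℤ) using hS
  rw [← MeasureTheory.sum_measure_preimage_singleton S fun v _ => by
    rw [h1]
    exact MeasurableSet.univ_pi fun i => measurableSet_Ico]
  simp only [h1, Real.volume_pi_Ico, add_sub_cancel_left, ENNReal.ofReal_one, Finset.prod_const_one,
    Finset.sum_const, nsmul_eq_mul, mul_one, Set.ncard_coe_finset, ENNReal.ofReal_natCast]

theorem RZ_finite (d : Fin n → ℕ) (r : ℝ) {g : Matrix (Fin n) (Fin n) ℝ} (hg : g.det ≠ 0) :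
    (RZ d r g).Finite := by
  obtain ⟨B, hB0, hB⟩ : ∃ B : ℝ, 0 ≤ B ∧ ∀ i, r ^ d i ≤ B :=
    ⟨∑ i, |r ^ d i|, Finset.sum_nonneg fun i _ => abs_nonneg _, fun i => (le_abs_self _).trans
      (Finset.single_le_sum (f := fun i => |r ^ d i|) (fun i _ => abs_nonneg _) (Finset.mem_univ i))⟩
  obtain ⟨M, hM⟩ := exists_nat_ge ((∑ i, ∑ j, |g⁻¹ i j|) * B)
  refine (Fintype.piFinset fun _ : Fin n => Finset.Icc (-(M : ℤ)) M).finite_toSet.subset fun v hv => ?_
  rw [Finset.mem_coe, Fintype.mem_piFinset]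
  intro i
  have h := RLat_cube g⁻¹ (fun j => (hv j).trans (hB j)) hB0 i
  rw [mulVec_mulVec, nonsing_inv_mul _ (isUnit_iff_ne_zero.2 hg), one_mulVec] at h
  have h2 : |(v i : ℝ)| ≤ M := h.trans hM
  rw [Finset.mem_Icc, ← abs_le]
  exact_mod_cast h2

theorem real_lat_count (hd : ∀ i, 1 ≤ d i) : ∃ C : ℝ, 1 ≤ C ∧
    ∀ g : Matrix (Fin n) (Fin n) ℝ, g.det ≠ 0 → ∃ R₀ : ℝ, ∀ r : ℝ, R₀ ≤ r →
      r ^ (∑ i, d i) ≤ C * |g.det| * (RZ d r g).ncard ∧
      |g.det| * (RZ d r g).ncard ≤ C * r ^ (∑ i, d i) := by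
  have h2 : (1 : ℝ) ≤ 2 ^ n := one_le_pow₀ one_le_two
  have h3 : (1 : ℝ) ≤ 2 ^ (∑ i, d i) := one_le_pow₀ one_le_two
  refine ⟨2 ^ n * 2 ^ (∑ i, d i), one_le_mul_of_one_le_of_one_le h2 h3, fun g hg =>
    ⟨2 * ((∑ i, ∑ j, |g i j|) + 1), fun r hr => ?_⟩⟩
  have hM : 0 ≤ ∑ i, ∑ j, |g i j| :=
    Finset.sum_nonneg fun i _ => Finset.sum_nonneg fun j _ => abs_nonneg _
  have hr1 : 1 ≤ r / 2 := by linarith
  have hfr : ∀ x : Fin n → ℝ, InBox d (r / 2) (g *ᵥ (x - fun i => (⌊x i⌋ : ℝ))) := fun x i => by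
    have h := RLat_cube g (y := x - fun i => (⌊x i⌋ : ℝ)) (fun j => RLat_floor (x j)) zero_le_one i
    have h' := le_self_pow₀ hr1 (Nat.one_le_iff_ne_zero.1 (hd i))
    linarith
  have hv := RLat_volfl (RZ_finite d r hg)
  have s1 : {x : Fin n → ℝ | InBox d (r / 2) (g *ᵥ x)} ⊆
      (fun (x : Fin n → ℝ) i => ⌊x i⌋) ⁻¹' RZ d r g := fun x hx => by
    have h := InBox.add hd (by linarith) (by linarith) hx (hfr x).neg
    rw [add_halves, mulVec_sub, neg_sub, add_sub_cancel] at h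
    exact h
  have s2 : (fun (x : Fin n → ℝ) i => ⌊x i⌋) ⁻¹' RZ d r g ⊆
      {x : Fin n → ℝ | InBox d (2 * r) (g *ᵥ x)} := fun x hx => by
    have h := InBox.add hd (by linarith) (by linarith) hx (hfr x)
    rw [mulVec_sub, add_sub_cancel] at h
    exact h.mono (by linarith) (by linarith)
  have m1 := MeasureTheory.measure_mono (μ := MeasureTheory.volume) s1
  have m2 := MeasureTheory.measure_mono (μ := MeasureTheory.volume) s2
  have hdet : 0 < |g.det| := abs_pos.2 hg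
  have hr0 : 0 < r := by linarith
  rw [hv, RLat_volbox d (by linarith) hg, ENNReal.ofReal_le_ofReal_iff (Nat.cast_nonneg _),
    inv_mul_le_iff₀ hdet, div_pow] at m1
  rw [hv, RLat_volbox d (by linarith) hg, ENNReal.ofReal_le_ofReal_iff (by positivity),
    le_inv_mul_iff₀ hdet, mul_pow] at m2
  refine ⟨?_, by rw [mul_assoc]; exact m2⟩
  have hp : (0 : ℝ) < r ^ (∑ i, d i) := by positivity
  have h4 : r ^ (∑ i, d i) / 2 ^ (∑ i, d i) ≤ |g.det| * (RZ d r g).ncard :=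
    (le_mul_of_one_le_left (by positivity) h2).trans m1
  rw [div_le_iff₀ (by positivity)] at h4
  have h5 : (0 : ℝ) ≤ |g.det| * (RZ d r g).ncard * 2 ^ (∑ i, d i) := by positivity
  calc r ^ (∑ i, d i) ≤ 2 ^ n * (|g.det| * (RZ d r g).ncard * 2 ^ (∑ i, d i)) :=
        h4.trans (le_mul_of_one_le_left h5 h2)
    _ = _ := by ring

theorem RLat_sum {N : ℕ} {X : Set (Fin n → ℝ)} (h0 : (0 : Fin n → ℝ) ∈ X)
    (h1 : ∀ x ∈ X, ∀ k : ℤ, k • x ∈ X) (h2 : ∀ x ∈ X, ∀ y ∈ X, N • (x + y) ∈ X)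
    (f : Fin n → Fin n → ℝ) (hf : ∀ i, f i ∈ X) (s : Finset (Fin n)) :
    N ^ s.card • ∑ i ∈ s, f i ∈ X := by
  induction s using Finset.induction_on with
  | empty => simpa using h0
  | insert a s ha ih =>
    have h3 := h1 _ (hf a) (N ^ s.card : ℕ)
    rw [natCast_zsmul] at h3
    rw [Finset.card_insert_of_notMem ha, Finset.sum_insert ha, pow_succ', mul_smul, smul_add]
    exact h2 _ h3 _ ih

theorem RLat_ex {X : Set (Fin n → ℝ)} (hX : Submodule.span ℝ X = ⊤)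
    (s : Finset (Fin n)) : ∃ Y : Matrix (Fin n) (Fin n) ℝ, Y.det ≠ 0 ∧ ∀ i ∈ s, Y.col i ∈ X := by
  induction s using Finset.induction_on with
  | empty => exact ⟨1, by simp, by simp⟩
  | insert a s ha ih =>
    obtain ⟨Y, h1, h2⟩ := ih
    have h3 : ∃ x ∈ X, cramer Y x a ≠ 0 := by
      by_contra! k
      have h4 : ∀ v ∈ Submodule.span ℝ X, cramer Y v a = 0 := fun v hv => by
        induction hv using Submodule.span_induction with
        | mem x hx => exact k x hx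
        | zero => simp
        | add x y _ _ a b => rw [map_add, Pi.add_apply, a, b, add_zero]
        | smul c x _ a => rw [map_smul, Pi.smul_apply, a, smul_zero]
      have h5 := h4 (Y.col a) (hX ▸ Submodule.mem_top)
      rw [cramer_apply] at h5
      exact h1 ((congrArg det (updateCol_eq_self Y a)).symm.trans h5)
    obtain ⟨x, hx, h4⟩ := h3
    refine ⟨Y.updateCol a x, h4, fun j hj => ?_⟩
    rcases eq_or_ne j a with rfl | e
    · have : (Y.updateCol j x).col j = x := funext fun l => updateCol_self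
      rwa [this]
    · have : (Y.updateCol a x).col j = Y.col j := funext fun l => updateCol_ne e
      rw [this]
      exact h2 j ((Finset.mem_insert.1 hj).resolve_left e)

/-- The map from integer coordinates to the lattice. -/
def RLat_phi (h : Matrix (Fin n) (Fin n) ℝ) : (Fin n → ℤ) →ₗ[ℤ] (Fin n → ℝ) where
  toFun v := h *ᵥ fun i => (v i : ℝ)
  map_add' v w := by
    rw [← mulVec_add]
    exact congrArg (h *ᵥ ·) (funext fun i => Int.cast_add _ _)
  map_smul' c v := by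
    rw [RingHom.id_apply, ← Int.cast_smul_eq_zsmul ℝ c (h *ᵥ _), ← mulVec_smul]
    exact congrArg (h *ᵥ ·) (funext fun i => Int.cast_mul _ _)

theorem RLat_phi_apply (h : Matrix (Fin n) (Fin n) ℝ) (v : Fin n → ℤ) :
    RLat_phi h v = h *ᵥ fun i => (v i : ℝ) := rfl

theorem RLat_phi_sum (h : Matrix (Fin n) (Fin n) ℝ) (v : Fin n → ℤ) :
    RLat_phi h v = ∑ i, v i • h.col i := by
  ext l
  rw [RLat_phi_apply, Finset.sum_apply]
  show ∑ j, h l j * (v j : ℝ) = _
  refine Finset.sum_congr rfl fun j _ => ?_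
  rw [Pi.smul_apply, zsmul_eq_mul, mul_comm]
  rfl

theorem RLat_den {N : ℕ} (hN : 0 < N) {X : Set (Fin n → ℝ)} (h0 : (0 : Fin n → ℝ) ∈ X)
    (h1 : ∀ x ∈ X, ∀ k : ℤ, k • x ∈ X) (h2 : ∀ x ∈ X, ∀ y ∈ X, N • (x + y) ∈ X)
    (hfin : ∀ R : ℝ, {x | x ∈ X ∧ ∀ i, |x i| ≤ R}.Finite) {Y : Matrix (Fin n) (Fin n) ℝ}
    (hY : Y.det ≠ 0) (hc : ∀ i, Y.col i ∈ X) :
    ∃ P : ℕ, 0 < P ∧ ∀ x ∈ X, ∃ v : Fin n → ℤ, RLat_phi Y v = (P : ℤ) • x := by
  have hS := hfin ((N : ℝ) ^ (n + 1) * ((∑ i, ∑ j, |Y i j|) * 1))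
  refine ⟨hS.toFinset.card.factorial, Nat.factorial_pos _, fun x hx => ?_⟩
  obtain ⟨a, rfl⟩ : ∃ a, Y *ᵥ a = x :=
    ⟨Y⁻¹ *ᵥ x, by rw [mulVec_mulVec, mul_nonsing_inv _ (isUnit_iff_ne_zero.2 hY), one_mulVec]⟩
  obtain ⟨u, hu⟩ : ∃ u : ℕ → Fin n → ℤ, ∀ k i, u k i = ⌊(k : ℝ) * a i⌋ := ⟨_, fun _ _ => rfl⟩
  have hmem : ∀ k ∈ Finset.range (hS.toFinset.card + 1),
      N ^ (n + 1) • ((k : ℤ) • (Y *ᵥ a) - RLat_phi Y (u k)) ∈ hS.toFinset := fun k _ => by
    rw [Set.Finite.mem_toFinset]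
    constructor
    · have e1 := RLat_sum h0 h1 h2 (fun i => (-u k) i • Y.col i) (fun i => h1 _ (hc i) _) Finset.univ
      rw [← RLat_phi_sum, Finset.card_univ, Fintype.card_fin, map_neg] at e1
      have e2 := h1 _ (h1 _ hx k) (N ^ n : ℕ)
      rw [natCast_zsmul] at e2
      rw [pow_succ', mul_smul, sub_eq_add_neg, smul_add]
      exact h2 _ e2 _ e1
    · intro i
      have e1 : (k : ℤ) • (Y *ᵥ a) - RLat_phi Y (u k) =
          Y *ᵥ fun j => (k : ℝ) * a j - (⌊(k : ℝ) * a j⌋ : ℝ) := by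
        rw [RLat_phi_apply, ← Int.cast_smul_eq_zsmul ℝ, ← mulVec_smul, ← mulVec_sub]
        exact congrArg (Y *ᵥ ·) (funext fun j => by simp [hu])
      rw [e1, Pi.smul_apply, nsmul_eq_mul, abs_mul, Nat.abs_cast, Nat.cast_pow]
      exact mul_le_mul_of_nonneg_left (RLat_cube Y (fun j => RLat_floor _) zero_le_one i) (by positivity)
  obtain ⟨k, hk, l, hl, hkl, e⟩ := Finset.exists_ne_map_eq_of_card_lt_of_maps_to
    (by rw [Finset.card_range]; exact Nat.lt_succ_self _) hmem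
  have e1 := smul_right_injective (Fin n → ℝ) (pow_pos hN (n + 1)).ne' e
  have e2 : RLat_phi Y (u k - u l) = ((k : ℤ) - l) • (Y *ᵥ a) := by
    rw [map_sub, sub_smul]
    rw [sub_eq_sub_iff_sub_eq_sub] at e1
    exact e1.symm
  rw [Finset.mem_range] at hk hl
  have hdv : ((k : ℤ) - l) ∣ (hS.toFinset.card.factorial : ℤ) := by
    rw [← Int.natAbs_dvd, Int.natCast_dvd_natCast]
    exact Nat.dvd_factorial (by omega) (by omega)
  obtain ⟨c, hc'⟩ := hdv
  exact ⟨c • (u k - u l), by rw [map_smul, e2, smul_smul, hc', mul_comm]⟩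

theorem min_det_real (n N : ℕ) (hN : 0 < N) : ∃ N' : ℕ, 0 < N' ∧ ∀ X : Set (Fin n → ℝ),
    (0 : Fin n → ℝ) ∈ X → (∀ x ∈ X, ∀ k : ℤ, k • x ∈ X) → (∀ x ∈ X, ∀ y ∈ X, N • (x + y) ∈ X) →
    Submodule.span ℝ X = ⊤ → (∀ R : ℝ, {x | x ∈ X ∧ ∀ i, |x i| ≤ R}.Finite) →
    ∃ g : Matrix (Fin n) (Fin n) ℝ, g.det ≠ 0 ∧
      (∀ x ∈ Submodule.span ℤ X, ∃ v : Fin n → ℤ, (g *ᵥ fun i => (v i : ℝ)) = x) ∧
      (∀ j, g.col j ∈ Submodule.span ℤ X) ∧
      ∀ v : Fin n → ℤ, N' • (g *ᵥ fun i => (v i : ℝ)) ∈ X := by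
  obtain ⟨N', hN', H⟩ := min_det n N hN
  refine ⟨N', hN', fun X h0 h1 h2 hsp hfin => ?_⟩
  obtain ⟨Y₀, hY₀, hc⟩ := RLat_ex hsp Finset.univ
  obtain ⟨P, hP, hden⟩ := RLat_den hN h0 h1 h2 hfin hY₀ fun i => hc i (Finset.mem_univ i)
  have hP' : (P : ℝ) ≠ 0 := by exact_mod_cast hP.ne'
  obtain ⟨h, hh⟩ : ∃ h : Matrix (Fin n) (Fin n) ℝ, h = (P : ℝ)⁻¹ • Y₀ := ⟨_, rfl⟩
  have hdet : h.det ≠ 0 := by
    rw [hh, det_smul]
    exact mul_ne_zero (pow_ne_zero _ (inv_ne_zero hP')) hY₀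
  have hφ : ∀ v, RLat_phi h v = (P : ℝ)⁻¹ • RLat_phi Y₀ v := fun v => by
    rw [RLat_phi_apply, RLat_phi_apply, hh, smul_mulVec]
  have himg : RLat_phi h '' (RLat_phi h ⁻¹' X) = X := by
    refine Set.image_preimage_eq_of_subset fun x hx => ?_
    obtain ⟨v, hv⟩ := hden x hx
    exact ⟨v, by rw [hφ, hv, ← Int.cast_smul_eq_zsmul ℝ, Int.cast_natCast, inv_smul_smul₀ hP']⟩
  have hmap : Submodule.span ℤ X = (Submodule.span ℤ (RLat_phi h ⁻¹' X)).map (RLat_phi h) := by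
    rw [Submodule.map_span, himg]
  have hfull : Full (Submodule.span ℤ (RLat_phi h ⁻¹' X)) := by
    refine ⟨P, hP, fun v => ?_⟩
    have e : (P : ℤ) • v = ∑ i, v i • ((P : ℤ) • Pi.single i (1 : ℤ)) := by
      ext l
      simp [Finset.sum_apply, Pi.single_apply, mul_comm]
    rw [e]
    refine Submodule.sum_mem _ fun i _ => Submodule.smul_mem _ _ (Submodule.subset_span ?_)
    have e2 : RLat_phi Y₀ (Pi.single i 1) = Y₀.col i := by
      rw [RLat_phi_sum, Finset.sum_eq_single i (fun j _ hj => by rw [Pi.single_eq_of_ne hj, zero_smul])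
        (fun hi => absurd (Finset.mem_univ i) hi), Pi.single_eq_same, one_smul]
    rw [Set.mem_preimage, hφ, map_smul, e2, ← Int.cast_smul_eq_zsmul ℝ, Int.cast_natCast,
      inv_smul_smul₀ hP']
    exact hc i (Finset.mem_univ i)
  have HX := H (RLat_phi h ⁻¹' X) (by rw [Set.mem_preimage, map_zero]; exact h0)
    (fun x hx k => by rw [Set.mem_preimage, map_smul]; exact h1 _ hx k)
    (fun x hx y hy => by rw [Set.mem_preimage, map_nsmul, map_add]; exact h2 _ hx _ hy) hfull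
  obtain ⟨Y, hY, hb⟩ := exists_square_basis hfull
  have hg : ∀ v : Fin n → ℤ, ((h * Y.map (Int.cast : ℤ → ℝ)) *ᵥ fun i => (v i : ℝ)) =
      RLat_phi h (Y *ᵥ v) := fun v => by
    rw [RLat_phi_apply, ← mulVec_mulVec]
    refine congrArg (h *ᵥ ·) (funext fun i => ?_)
    simp [mulVec, dotProduct]
  refine ⟨h * Y.map (Int.cast : ℤ → ℝ), ?_, fun x hx => ?_, fun j => ?_, fun v => ?_⟩
  · rw [det_mul]
    refine mul_ne_zero hdet ?_
    have e := (Int.castRingHom ℝ).map_det Y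
    rw [RingHom.mapMatrix_apply, Int.coe_castRingHom] at e
    rw [← e]
    exact Int.cast_ne_zero.2 hY
  · rw [hmap] at hx
    obtain ⟨u, hu, rfl⟩ := hx
    rw [SetLike.mem_coe, ← hb.2, Cov_mem] at hu
    obtain ⟨v, rfl⟩ := hu
    exact ⟨v, hg v⟩
  · rw [hmap]
    refine ⟨Y.col j, Cov_col hb j, ?_⟩
    ext l
    simp [RLat_phi_apply, mulVec, dotProduct, mul_apply]
  · rw [hg, ← map_nsmul]
    refine HX _ ?_
    rw [← hb.2, Cov_mem]
    exact ⟨v, rfl⟩

end Pool.Agent.Work.MP_913e71_al.Pos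
end

-- merged part: Pool.Agent.Work.MP_913e71_al.Pos.DtT
section
/-! Transport of the degrees of subspaces.

PLAN.  Everything reduces to `Mu_eq` (any basis computes `muW`), `mu_adj_mul`, `mu_map`.
`mu_adj_mul`: `adj (Ψ G) * b * Y = det Ψ • (adj G * b')`, so
`mnr (adj (Ψ G) * b) I * C (det Y) = C (det Ψ) ^ m * mnr (adj G * b') I`; the two sets in `mu` agree.
`Dt_inv`: `det Y ≠ 0` because `adj Ψ * (b * Y) = det Ψ • b` has a nonzero minor (`mnr_mul_right`,
`exists_mnr_ne_zero`).  `dinf_le_map`: `dinf_exists` for the basis `φ * b`, `mnr_mul_left`, a nonzero term,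
`dinf_le`.  `exists_spec`: by `mnr_mul_left` each coefficient of `mnr (H a * b) J` is a rational combination of the
finitely many elements `coeff (∏ i, H a (J i) (I i)) k` (`m ≤ n`, `I J : Fin m → Fin n`, `k` at most the degree);
`exists_point_inj`; so a coefficient vanishes iff its image does. -/

namespace Pool.Agent.Work.MP_913e71_al.Pos

open Matrix Polynomial Module

variable {n : ℕ} {F R R' ι : Type} [Field F] [CommRing R] [IsDomain R] [CommRing R'] [IsDomain R']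
  [Fintype ι] [DecidableEq ι]

omit [IsDomain R] [IsDomain R'] in
lemma DtT_mu {H : Matrix (Fin n) (Fin n) R[X]} {H' : Matrix (Fin n) (Fin n) R'[X]}
    {b : Matrix (Fin n) ι R} {b' : Matrix (Fin n) ι R'} (h : ∀ I k,
      (mnr (H * b.map C) I).coeff k = 0 ↔ (mnr (H' * b'.map C) I).coeff k = 0) :
    mu H b = mu H' b' := by
  have e : ∀ I, (mnr (H * b.map C) I).support = (mnr (H' * b'.map C) I).support := fun I =>
    Finset.ext fun k => by simp only [Polynomial.mem_support_iff, Ne, h]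
  simp only [mu, natTrailingDegree, trailingDegree, Ne, ← Polynomial.support_eq_empty, e]

omit [IsDomain R] [IsDomain R'] in
lemma DtT_cm (f : R →+* R') (H : Matrix (Fin n) (Fin n) R[X]) (b : Matrix (Fin n) ι R)
    (I : ι → Fin n) (k : ℕ) : (mnr (H.map (mapRingHom f) * (b.map f).map C) I).coeff k =
      f ((mnr (H * b.map C) I).coeff k) := by
  have e : (b.map f).map C = (b.map C).map (mapRingHom f) := Matrix.ext fun i j => by simp
  rw [e, ← Matrix.map_mul, mnr_map, coe_mapRingHom, coeff_map]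

lemma DtT_bas {K : Type} [Field K] (f : K →+* F) {W : Submodule K (Fin n → K)}
    {b : Matrix (Fin n) ι K} (hb : IsBas W b) :
    IsBas (Submodule.span F ((fun (v : Fin n → K) i => f (v i)) '' W)) (b.map f) := by
  refine ⟨?_, le_antisymm (Submodule.span_mono ?_) (Submodule.span_le.2 ?_)⟩
  · obtain ⟨I, hI⟩ := exists_mnr_ne_zero b hb.1
    exact .of_comp (LinearMap.funLeft F F I) (linearIndependent_cols_of_det_ne_zero
      (A := (b.map f).submatrix I id) (((mnr_map f b I).trans_ne ((_root_.map_ne_zero f).2 hI)) :))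
  · rintro _ ⟨j, rfl⟩
    exact ⟨b.col j, hb.2 ▸ Submodule.subset_span ⟨j, rfl⟩, rfl⟩
  · rintro _ ⟨v, hv, rfl⟩
    obtain ⟨c, rfl⟩ := (Submodule.mem_span_range_iff_exists_fun K).1 (hb.2.ge hv)
    exact (Submodule.mem_span_range_iff_exists_fun F).2 ⟨fun j => f (c j), funext fun i => by simp⟩

lemma DtT_dinf {K : Type} [Field K] (f : K →+* F) (d : Fin n → ℕ) {W : Submodule K (Fin n → K)}
    {W' : Submodule F (Fin n → F)} {b : Matrix (Fin n) ι K} (hb : IsBas W b)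
    (hb' : IsBas W' (b.map f)) : dinf d W' = dinf d W := by
  obtain ⟨I, hI, e⟩ := dinf_exists d hb
  obtain ⟨J, hJ, e'⟩ := dinf_exists d hb'
  rw [mnr_map, _root_.map_ne_zero] at hJ
  exact le_antisymm (e ▸ dinf_le d hb' ((mnr_map f b I).trans_ne ((_root_.map_ne_zero f).2 hI)))
    (e' ▸ dinf_le d hb hJ)

theorem mu_adj_mul {Ψ : Matrix (Fin n) (Fin n) R} (hΨ : Ψ.det ≠ 0) {b b' : Matrix (Fin n) ι R}
    {Y : Matrix ι ι R} (hY : Y.det ≠ 0) (h : Ψ * b' = b * Y) (G : Matrix (Fin n) (Fin n) R[X]) :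
    mu (Ψ.map C * G).adjugate b = mu G.adjugate b' := by
  refine DtT_mu fun I k => ?_
  have e : (Ψ.map C * G).adjugate * b.map C * Y.map C =
      (C Ψ.det : R[X]) • (G.adjugate * b'.map C) := by
    rw [adjugate_mul_distrib, Matrix.mul_assoc, ← Matrix.map_mul, ← h, Matrix.map_mul,
      Matrix.mul_assoc, ← Matrix.mul_assoc _ (Ψ.map C), adjugate_mul, Matrix.smul_mul,
      Matrix.one_mul, Matrix.mul_smul, RingHom.map_det, RingHom.mapMatrix_apply]
  have e' := congrArg (fun M => (mnr M I).coeff k) e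
  simp only [mnr_mul_right, Mu_smul, ← RingHom.mapMatrix_apply C Y, ← RingHom.map_det, ← C_pow,
    coeff_mul_C, coeff_C_mul] at e'
  rw [← mul_eq_zero_iff_right hY, e', mul_eq_zero_iff_left (pow_ne_zero _ hΨ)]

omit [IsDomain R] [IsDomain R'] in
theorem mu_map (f : R →+* R') (hf : Function.Injective f) (H : Matrix (Fin n) (Fin n) R[X])
    (b : Matrix (Fin n) ι R) : mu (H.map (mapRingHom f)) (b.map f) = mu H b :=
  DtT_mu fun I k => by rw [DtT_cm, map_eq_zero_iff f hf]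

theorem IsBas.xt [Algebra ℚ F] {W : Submodule ℚ (Fin n → ℚ)} {b : Matrix (Fin n) ι ℚ}
    (hb : IsBas W b) : IsBas (xt F W) (b.map (algebraMap ℚ F)) :=
  DtT_bas (algebraMap ℚ F) hb

theorem IsBas.gmap (γ : F ≃+* F) {W : Submodule F (Fin n → F)} {b : Matrix (Fin n) ι F}
    (hb : IsBas W b) : IsBas (gmap γ W) (b.map γ) := by
  have e : (fun (v : Fin n → F) i => (γ : F →+* F) (v i)) '' W = Pos.gmap γ W :=
    Set.ext fun v => ⟨fun ⟨u, hu, e⟩ => mem_gmap.2 (by simpa [← e] using hu),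
      fun h => ⟨_, mem_gmap.1 h, funext fun i => by simp⟩⟩
  have := DtT_bas (γ : F →+* F) hb
  rwa [e, Submodule.span_eq] at this

theorem IsBas.mul_left {φ : Matrix (Fin n) (Fin n) F} (hφ : φ.det ≠ 0)
    {W : Submodule F (Fin n → F)} {b : Matrix (Fin n) ι F} (hb : IsBas W b) :
    IsBas (W.map φ.mulVecLin) (φ * b) := by
  have e : (φ * b).col = φ.mulVecLin ∘ b.col := rfl
  refine ⟨e ▸ hb.1.map' _ (LinearMap.ker_eq_bot.2 (mulVec_injective_of_det_ne_zero hφ)), ?_⟩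
  rw [e, Set.range_comp, ← Submodule.map_span, hb.2]

theorem finrank_xt [Algebra ℚ F] (W : Submodule ℚ (Fin n → ℚ)) :
    finrank F (xt F W) = finrank ℚ W := by
  rw [← (isBas_basMat W).xt.card_eq, Fintype.card_fin]

theorem finrank_gmap (γ : F ≃+* F) (W : Submodule F (Fin n → F)) :
    finrank F (gmap γ W) = finrank F W := by
  rw [← ((isBas_basMat W).gmap γ).card_eq, Fintype.card_fin]

theorem finrank_map_mulVec {φ : Matrix (Fin n) (Fin n) F} (hφ : φ.det ≠ 0)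
    (W : Submodule F (Fin n → F)) : finrank F (W.map φ.mulVecLin) = finrank F W := by
  rw [← ((isBas_basMat W).mul_left hφ).card_eq, Fintype.card_fin]

theorem Dt_xt [Algebra ℚ F] [Algebra F R] [Algebra ℚ R] [IsScalarTower ℚ F R]
    (G : Matrix (Fin n) (Fin n) R[X]) (e : ℕ) (W : Submodule ℚ (Fin n → ℚ)) :
    Dt G e (xt F W) = Dt G e W := by
  rw [Dt, Dt, finrank_xt, Mu_eq _ (isBas_basMat W).xt, muW, Matrix.map_map,
    ← RingHom.coe_comp, ← IsScalarTower.algebraMap_eq]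

theorem dinf_xt [Algebra ℚ F] (d : Fin n → ℕ) (W : Submodule ℚ (Fin n → ℚ)) :
    dinf d (xt F W) = dinf d W :=
  DtT_dinf _ d (isBas_basMat W) (isBas_basMat W).xt

theorem Dt_gmap [Algebra F R] [Algebra F R'] (γ : F ≃+* F) (f : R →+* R')
    (hf : Function.Injective f) (hc : ∀ a, f (algebraMap F R a) = algebraMap F R' (γ a))
    (G : Matrix (Fin n) (Fin n) R[X]) (e : ℕ) (W : Submodule F (Fin n → F)) :
    Dt (G.map (mapRingHom f)) e (gmap γ W) = Dt G e W := by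
  have e : ((basMat W).map γ).map (algebraMap F R') = ((basMat W).map (algebraMap F R)).map f :=
    Matrix.ext fun i j => (hc _).symm
  have e' : (G.map (mapRingHom f)).adjugate = G.adjugate.map (mapRingHom f) :=
    ((mapRingHom f).map_adjugate G).symm
  rw [Dt, Dt, finrank_gmap, natTrailingDegree_det_map f hf, Mu_eq _ ((isBas_basMat W).gmap γ), e,
    e', mu_map f hf, muW]

theorem Dt_map [Algebra F R] [Algebra F R'] (f : R →+* R') (hf : Function.Injective f)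
    (hc : ∀ a, f (algebraMap F R a) = algebraMap F R' a)
    (G : Matrix (Fin n) (Fin n) R[X]) (e : ℕ) (W : Submodule F (Fin n → F)) :
    Dt (G.map (mapRingHom f)) e W = Dt G e W :=
  Dt_gmap (RingEquiv.refl F) f hf hc G e W

theorem dinf_gmap (γ : F ≃+* F) (d : Fin n → ℕ) (W : Submodule F (Fin n → F)) :
    dinf d (gmap γ W) = dinf d W :=
  DtT_dinf (γ : F →+* F) d (isBas_basMat W) ((isBas_basMat W).gmap γ)

theorem Dt_mul_left [Algebra F R] {φ : Matrix (Fin n) (Fin n) F} (hφ : φ.det ≠ 0)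
    (G : Matrix (Fin n) (Fin n) R[X]) (e : ℕ) (W : Submodule F (Fin n → F)) :
    Dt ((φ.map (algebraMap F R)).map C * G) e (W.map φ.mulVecLin) = Dt G e W := by
  have h : (φ.map (algebraMap F R)).det ≠ 0 := ((algebraMap F R).map_det φ).symm.trans_ne (Mu_ne hφ)
  rw [Dt, Dt, finrank_map_mulVec hφ, natTrailingDegree_det_mul h,
    Mu_eq _ ((isBas_basMat W).mul_left hφ), muW, mu_adj_mul h (Y := 1) (by simp)
      (by rw [Matrix.mul_one, Matrix.map_mul])]

theorem Dt_inv [Algebra F R] {Ψ : Matrix (Fin n) (Fin n) R} (hΨ : Ψ.det ≠ 0)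
    {W : Submodule F (Fin n → F)} {b : Matrix (Fin n) ι F} (hb : IsBas W b) {Y : Matrix ι ι R}
    (h : Ψ * b.map (algebraMap F R) = b.map (algebraMap F R) * Y)
    (G : Matrix (Fin n) (Fin n) R[X]) (e : ℕ) : Dt (Ψ.map C * G) e W = Dt G e W := by
  obtain ⟨I, hI⟩ := exists_mnr_ne_zero b hb.1
  have hY : Y.det ≠ 0 := fun h0 => by
    have e := mnr_mul_right (Ψ.adjugate * b.map (algebraMap F R)) Y I
    rw [Matrix.mul_assoc, ← h, ← Matrix.mul_assoc, adjugate_mul, Matrix.smul_mul, Matrix.one_mul,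
      Mu_smul, h0, mul_zero, mnr_map] at e
    exact mul_ne_zero (pow_ne_zero _ hΨ) (Mu_ne hI) e
  rw [Dt, Dt, natTrailingDegree_det_mul hΨ, Mu_eq _ hb, Mu_eq _ hb, mu_adj_mul hΨ hY h]

theorem dinf_le_map (d : Fin n → ℕ) {φ : Matrix (Fin n) (Fin n) F} (hφ : φ.det ≠ 0)
    (htri : ∀ l i, d l < d i → φ l i = 0) (W : Submodule F (Fin n → F)) :
    dinf d W ≤ dinf d (W.map φ.mulVecLin) := by
  obtain ⟨J, hJ, e⟩ := dinf_exists d ((isBas_basMat W).mul_left hφ)
  rw [mnr_mul_left] at hJ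
  obtain ⟨I, -, hI⟩ := Finset.exists_ne_zero_of_sum_ne_zero hJ
  refine (dinf_le d (isBas_basMat W) (right_ne_zero_of_mul hI)).trans
    (e ▸ Finset.sum_le_sum fun i hi => not_lt.1 fun h => ?_)
  exact Finset.prod_ne_zero_iff.1 (left_ne_zero_of_mul hI) i hi (htri _ _ h)

lemma DtT_pt {D : Type} [CommRing D] [IsDomain D] [Algebra kk D] [Algebra.FiniteType kk D]
    [Algebra ℚ D] [IsScalarTower ℚ kk D] {T : Set D} (hT : T.Finite) :
    ∃ φ : D →ₐ[kk] kk, ∀ x ∈ Submodule.span ℚ T, φ x = 0 → x = 0 := by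
  have := hT.fintype
  obtain ⟨φ, h⟩ := exists_point_inj (Subtype.val : T → D)
  refine ⟨φ, fun x hx => ?_⟩
  rw [← Subtype.range_coe (s := T)] at hx
  obtain ⟨q, rfl⟩ := (Submodule.mem_span_range_iff_exists_fun ℚ).1 hx
  simpa only [Rat.cast_smul_eq_qsmul, ne_eq, not_imp_not] using h q

theorem exists_spec {D κ : Type} [CommRing D] [IsDomain D] [Algebra kk D] [Algebra.FiniteType kk D]
    [Algebra ℚ D] [IsScalarTower ℚ kk D] [Fintype κ] (H : κ → Matrix (Fin n) (Fin n) D[X]) :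
    ∃ φ : D →ₐ[kk] kk, ∀ (a : κ) (W : Submodule ℚ (Fin n → ℚ)),
      muW ((H a).map (mapRingHom (φ : D →+* kk))) W = muW (H a) W := by
  obtain ⟨φ, h⟩ := DtT_pt (Set.finite_iUnion fun
    x : κ × Σ m : Fin (n + 1), (Fin m → Fin n) × (Fin m → Fin n) =>
      finite_range_coeff (∏ i, H x.1 (x.2.2.1 i) (x.2.2.2 i)))
  refine ⟨φ, fun a W => ?_⟩
  have e : (basMat W).map (algebraMap ℚ kk) =
      ((basMat W).map (algebraMap ℚ D)).map (φ : D →+* kk) := by
    rw [Matrix.map_map, ← RingHom.coe_comp,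
      Subsingleton.elim ((φ : D →+* kk).comp (algebraMap ℚ D)) (algebraMap ℚ kk)]
  rw [muW, muW, e]
  refine DtT_mu fun J k => ?_
  rw [DtT_cm]
  refine ⟨h _ ?_, fun h0 => by rw [h0, map_zero]⟩
  rw [mnr_mul_left, finsetSum_coeff]
  refine Submodule.sum_mem _ fun I _ => ?_
  rw [Mu_map, coeff_mul_C, mul_comm, ← Algebra.smul_def]
  exact Submodule.smul_mem _ _ (Submodule.subset_span (Set.mem_iUnion.2
    ⟨(a, ⟨⟨_, Nat.lt_succ_of_le (Mu_rk W)⟩, J, I⟩), k, rfl⟩))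

end Pool.Agent.Work.MP_913e71_al.Pos
end

-- merged part: Pool.Agent.Work.MP_913e71_al.Pos.Gal
section
/-! Galois conjugates.

PLAN.  `exists_gal_family`: let `E` be a finite normal intermediate field containing `A` (`normalClosure` of
the adjoin, or adjoin all roots of the product of the minimal polynomials), `J = E ≃ₐ[ℚ] E`,
`γ j = AlgEquiv.liftNormal j kk`, `π = Equiv.mulLeft (γ₀.restrictNormal E)`.  Alternative without fields: `J` =
the (finite) range of the map `γ ↦ (fun a : A => γ a)`, `γ j` a chosen preimage.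
`fixed_rat`: `IsGalois ℚ kk`, `IsGalois.mem_bot_iff_fixed` or `InfiniteGalois.mem_bot_iff_fixed`; or: two roots of the
separable minimal polynomial are conjugate (`Normal.minpoly_eq_iff_mem_orbit`).
`gal_descent`: `W₀` = the rational vectors whose image is in `W`.  Induction on the size of the support of
`v ∈ W`: if `v ≠ 0` take `u ∈ W` nonzero with support contained in that of `v` and minimal, scaled so that
`u i = 1` for some `i`; `γ u - u ∈ W` has smaller support so is zero; `u` is rational; `v - v i • u` has smaller support.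
`prod_formula`: `∏ j, γ j a` is fixed, so equal to a rational `q = z / w ≠ 0`; `P` contains the primes dividing some
`z * w`; `sum_log_norm_eq`. -/

namespace Pool.Agent.Work.MP_913e71_al.Pos

theorem Gal_finite (A : Finset kk) :
    (Set.range fun (γ : kk ≃ₐ[ℚ] kk) (a : A) => γ a).Finite := by
  refine (Set.Finite.pi' (t := fun a : A => (minpoly ℚ (a : kk)).rootSet kk)
    fun a => Polynomial.rootSet_finite _ _).subset ?_
  rintro _ ⟨γ, rfl⟩ a
  refine Polynomial.mem_rootSet.2 ⟨minpoly.ne_zero (Kron_int _), ?_⟩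
  show Polynomial.aeval (γ a) (minpoly ℚ (a : kk)) = 0
  rw [Polynomial.aeval_algHom_apply, minpoly.aeval, map_zero]

/-- The action of an automorphism on the conjugates of a finite family. -/
noncomputable def Gal_act (A : Finset kk) (γ₀ : kk ≃ₐ[ℚ] kk)
    (f : Set.range fun (γ : kk ≃ₐ[ℚ] kk) (a : A) => γ a) :
    Set.range fun (γ : kk ≃ₐ[ℚ] kk) (a : A) => γ a :=
  ⟨fun a => γ₀ (f.1 a), by
    obtain ⟨_, γ, rfl⟩ := f
    exact ⟨γ.trans γ₀, rfl⟩⟩


theorem exists_gal_family (A : Finset kk) : ∃ (J : Type) (_ : Fintype J) (_ : Nonempty J)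
    (γ : J → (kk ≃ₐ[ℚ] kk)), ∀ γ₀ : kk ≃ₐ[ℚ] kk, ∃ π : Equiv.Perm J, ∀ j, ∀ a ∈ A,
      γ₀ (γ j a) = γ (π j) a := by
  have hf := Gal_finite A
  have := hf.to_subtype
  refine ⟨Set.range fun (γ : kk ≃ₐ[ℚ] kk) (a : A) => γ a, Fintype.ofFinite _,
    ⟨⟨_, AlgEquiv.refl, rfl⟩⟩, fun f => f.2.choose, fun γ₀ => ?_⟩
  refine ⟨⟨Gal_act A γ₀, Gal_act A γ₀.symm, fun f => ?_, fun f => ?_⟩, fun f a ha => ?_⟩
  · exact Subtype.ext (funext fun a => γ₀.symm_apply_apply _)
  · exact Subtype.ext (funext fun a => γ₀.apply_symm_apply _)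
  · have h1 := congrFun f.2.choose_spec ⟨a, ha⟩
    have h2 := congrFun (Gal_act A γ₀ f).2.choose_spec ⟨a, ha⟩
    exact (congrArg γ₀ h1).trans h2.symm

theorem fixed_rat {a : kk} (h : ∀ γ : kk ≃ₐ[ℚ] kk, γ a = a) : ∃ q : ℚ, a = algebraMap ℚ kk q := by
  have h1 : IsAlgClosure ℚ kk := AlgebraicClosure.instIsAlgClosure ℚ
  have : IsGalois ℚ kk := IsAlgClosure.isGalois ℚ kk
  obtain ⟨q, hq⟩ := IntermediateField.mem_bot.1 ((InfiniteGalois.mem_bot_iff_fixed a).2 h)
  exact ⟨q, hq.symm⟩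

open Classical in
theorem Gal_step {n : ℕ} (W : Submodule kk (Fin n → kk))
    (h : ∀ γ : kk ≃ₐ[ℚ] kk, ∀ v ∈ W, (fun i => γ (v i)) ∈ W) (X : Submodule kk (Fin n → kk))
    (hX : ∀ w : Fin n → ℚ, (fun i => algebraMap ℚ kk (w i)) ∈ W →
      (fun i => algebraMap ℚ kk (w i)) ∈ X) (m : ℕ) :
    ∀ v ∈ W, (Finset.univ.filter fun i => v i ≠ 0).card ≤ m → v ∈ X := by
  induction m with
  | zero =>
    intro v _ hv
    have : v = 0 := funext fun i => by
      by_contra hi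
      have : i ∈ Finset.univ.filter fun i => v i ≠ 0 := by simpa using hi
      rw [Finset.card_eq_zero.1 (Nat.le_zero.1 hv)] at this
      simp at this
    rw [this]
    exact X.zero_mem
  | succ m ih =>
    intro v hvW hv
    by_cases h0 : v = 0
    · rw [h0]; exact X.zero_mem
    have hex : ∃ k, ∃ u ∈ W, u ≠ 0 ∧ (∀ i, v i = 0 → u i = 0) ∧
        (Finset.univ.filter fun i => u i ≠ 0).card = k := ⟨_, v, hvW, h0, fun _ h => h, rfl⟩
    obtain ⟨u, huW, hu0, huv, hk⟩ := Nat.find_spec hex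
    obtain ⟨i, hi⟩ := Function.ne_iff.1 hu0
    have hi : u i ≠ 0 := hi
    set u' := (u i)⁻¹ • u with hu'
    have hu'W : u' ∈ W := W.smul_mem _ huW
    have hu'i : u' i = 1 := by simp [hu', hi]
    have hz : ∀ j, u j = 0 → u' j = 0 := fun j hj => by simp [hu', hj]
    have hfix : ∀ (γ : kk ≃ₐ[ℚ] kk) j, γ (u' j) = u' j := by
      intro γ
      by_contra hne
      have hne' : ((fun j => γ (u' j)) - u') ≠ 0 := fun e =>
        hne fun j => sub_eq_zero.1 (congrFun e j)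
      have hlt : (Finset.univ.filter fun j => ((fun j => γ (u' j)) - u') j ≠ 0).card <
          Nat.find hex := by
        rw [← hk]
        refine Finset.card_lt_card ⟨fun j hj => ?_, fun hs => ?_⟩
        · simp only [Finset.mem_filter, Finset.mem_univ, true_and] at hj ⊢
          intro e
          exact hj (by simp [hz j e])
        · have := hs (Finset.mem_filter.2 ⟨Finset.mem_univ i, hi⟩)
          simp [hu'i] at this
      exact Nat.find_min hex hlt ⟨_, W.sub_mem (h γ _ hu'W) hu'W, hne',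
        fun j hj => by simp [hz j (huv j hj)], rfl⟩
    choose w hw using fun j => fixed_rat fun γ => hfix γ j
    have hw' : u' = fun j => algebraMap ℚ kk (w j) := funext hw
    have hu'X : u' ∈ X := hw' ▸ hX w (hw' ▸ hu'W)
    have hvi : v i ≠ 0 := fun e => hi (huv i e)
    have h1 : v - v i • u' ∈ X := by
      refine ih _ (W.sub_mem hvW (W.smul_mem _ hu'W)) (Nat.lt_succ_iff.1 (lt_of_lt_of_le ?_ hv))
      refine Finset.card_lt_card ⟨fun j hj => ?_, fun hs => ?_⟩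
      · simp only [Finset.mem_filter, Finset.mem_univ, true_and] at hj ⊢
        intro e
        exact hj (by simp [e, hz j (huv j e)])
      · have := hs (Finset.mem_filter.2 ⟨Finset.mem_univ i, hvi⟩)
        simp [hu'i] at this
    simpa using X.add_mem h1 (X.smul_mem (v i) hu'X)


theorem gal_descent {n : ℕ} (W : Submodule kk (Fin n → kk))
    (h : ∀ γ : kk ≃ₐ[ℚ] kk, ∀ v ∈ W, (fun i => γ (v i)) ∈ W) :
    ∃ W₀ : Submodule ℚ (Fin n → ℚ), xt kk W₀ = W := by
  let W₀ : Submodule ℚ (Fin n → ℚ) :=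
    { carrier := {w | (fun i => algebraMap ℚ kk (w i)) ∈ W}
      zero_mem' := by
        have : (fun i => algebraMap ℚ kk ((0 : Fin n → ℚ) i)) = 0 := funext fun i => by simp
        show _ ∈ W
        rw [this]
        exact W.zero_mem
      add_mem' := fun {a b} ha hb => by
        have : (fun i => algebraMap ℚ kk ((a + b) i)) =
            (fun i => algebraMap ℚ kk (a i)) + fun i => algebraMap ℚ kk (b i) :=
          funext fun i => by simp
        show _ ∈ W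
        rw [this]
        exact W.add_mem ha hb
      smul_mem' := fun c a ha => by
        have : (fun i => algebraMap ℚ kk ((c • a) i)) =
            algebraMap ℚ kk c • fun i => algebraMap ℚ kk (a i) :=
          funext fun i => by simp
        show _ ∈ W
        rw [this]
        exact W.smul_mem _ ha }
  refine ⟨W₀, le_antisymm (Submodule.span_le.2 ?_) fun v hv => ?_⟩
  · rintro _ ⟨w, hw, rfl⟩
    exact hw
  · exact Gal_step W h (xt kk W₀) (fun w hw => Submodule.subset_span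
      (Set.mem_image_of_mem (fun (v : Fin n → ℚ) i => algebraMap ℚ kk (v i)) hw)) _ v hv le_rfl

theorem xt_conj {n : ℕ} (W : Submodule ℚ (Fin n → ℚ)) (γ : kk ≃ₐ[ℚ] kk) :
    ∀ v ∈ xt kk W, (fun i => γ (v i)) ∈ xt kk W := by
  intro v hv
  induction hv using Submodule.span_induction with
  | mem x hx =>
    obtain ⟨w, hw, rfl⟩ := hx
    exact Submodule.subset_span ⟨w, hw, funext fun i => (γ.commutes (w i)).symm⟩
  | zero =>
    have : (fun i => γ ((0 : Fin n → kk) i)) = 0 := funext fun i => by simp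
    rw [this]
    exact Submodule.zero_mem _
  | add x y _ _ hx hy =>
    have : (fun i => γ ((x + y) i)) = (fun i => γ (x i)) + fun i => γ (y i) :=
      funext fun i => by simp
    rw [this]
    exact Submodule.add_mem _ hx hy
  | smul c x _ hx =>
    have : (fun i => γ ((c • x) i)) = γ c • fun i => γ (x i) := funext fun i => by simp
    rw [this]
    exact Submodule.smul_mem _ _ hx

theorem exists_embedding : Nonempty (kk →+* ℂ) := by
  have : Algebra.IsAlgebraic ℚ kk := AlgebraicClosure.isAlgebraic ℚ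
  exact ⟨(IsAlgClosed.lift (R := ℚ) (S := kk) (M := ℂ)).toRingHom⟩

theorem Gal_rat (ι : kk →+* ℂ) (v : Nat.Primes → AbsoluteValue kk ℝ)
    (hv : ∀ (p : Nat.Primes) (z : ℤ), v p (z : kk) = ‖(z : ℤ_[p])‖) (P : Finset Nat.Primes)
    (z : ℤ) (hz : z ≠ 0) (hP : ∀ p : Nat.Primes, ((p : ℕ) : ℤ) ∣ z → p ∈ P) :
    Real.log ‖ι (z : kk)‖ + ∑ p ∈ P, Real.log (v p (z : kk)) = 0 := by
  have h := sum_log_norm_eq z hz P hP
  rw [Finset.sum_neg_distrib] at h
  simp only [hv, map_intCast, Complex.norm_intCast]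
  linarith

theorem Gal_primes (z : ℤ) (hz : z ≠ 0) :
    ∃ P : Finset Nat.Primes, ∀ p : Nat.Primes, ((p : ℕ) : ℤ) ∣ z → p ∈ P := by
  have : {p : Nat.Primes | ((p : ℕ) : ℤ) ∣ z}.Finite := by
    refine Set.Finite.of_finite_image (f := fun p : Nat.Primes => (p : ℕ))
      ((Set.finite_le_nat z.natAbs).subset ?_) Nat.Primes.coe_nat_injective.injOn
    rintro _ ⟨p, hp, rfl⟩
    exact Nat.le_of_dvd (Int.natAbs_pos.2 hz) (Int.natCast_dvd.1 hp)
  exact ⟨this.toFinset, fun p hp => this.mem_toFinset.2 hp⟩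


theorem prod_formula (ι : kk →+* ℂ) (v : Nat.Primes → AbsoluteValue kk ℝ)
    (hv : ∀ (p : Nat.Primes) (z : ℤ), v p (z : kk) = ‖(z : ℤ_[p])‖) (A : Finset kk)
    (h0 : ∀ a ∈ A, a ≠ 0) : ∃ (J : Type) (_ : Fintype J) (_ : Nonempty J)
      (γ : J → (kk ≃ₐ[ℚ] kk)) (P : Finset Nat.Primes), ∀ a ∈ A,
        ∑ j, (Real.log ‖ι (γ j a)‖ + ∑ p ∈ P, Real.log (v p (γ j a))) = 0 := by
  classical
  obtain ⟨J, hJ, hne, γ, hγ⟩ := exists_gal_family A
  have hq : ∀ a : A, ∃ q : ℚ, ∏ j, γ j a = algebraMap ℚ kk q := fun a => fixed_rat fun γ₀ => by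
    obtain ⟨π, hπ⟩ := hγ γ₀
    rw [map_prod, Finset.prod_congr rfl fun j _ => hπ j a a.2]
    exact Equiv.prod_comp π fun j => γ j a
  choose q hq using hq
  have hne0 : ∀ (a : A) j, γ j a ≠ 0 := fun a j => (map_ne_zero _).2 (h0 a a.2)
  have hq0 : ∀ a, q a ≠ 0 := fun a e => by
    have := hq a
    rw [e, map_zero] at this
    exact Finset.prod_ne_zero_iff.2 (fun j _ => hne0 a j) this
  have hn : ∀ a, (q a).num ≠ 0 := fun a => Rat.num_ne_zero.2 (hq0 a)
  have hd : ∀ a, ((q a).den : ℤ) ≠ 0 := fun a => Int.natCast_ne_zero.2 (q a).den_nz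
  obtain ⟨P, hP⟩ := Gal_primes (∏ a : A, (q a).num * (q a).den)
    (Finset.prod_ne_zero_iff.2 fun a _ => mul_ne_zero (hn a) (hd a))
  refine ⟨J, hJ, hne, γ, P, fun a ha => ?_⟩
  have hdv := Finset.dvd_prod_of_mem (fun a : A => (q a).num * ((q a).den : ℤ))
    (Finset.mem_univ ⟨a, ha⟩)
  have h1 := Gal_rat ι v hv P _ (hn ⟨a, ha⟩) fun p hp =>
    hP p ((hp.mul_right _).trans hdv)
  have h2 := Gal_rat ι v hv P _ (hd ⟨a, ha⟩) fun p hp =>
    hP p ((hp.mul_left _).trans hdv)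
  have hd' : ((((q ⟨a, ha⟩).den : ℤ)) : kk) ≠ 0 := Int.cast_ne_zero.2 (hd _)
  have e : ((q ⟨a, ha⟩).num : kk) = (∏ j, γ j a) * ((((q ⟨a, ha⟩).den : ℤ)) : kk) := by
    rw [hq ⟨a, ha⟩, eq_ratCast, Rat.cast_def, Int.cast_natCast, div_mul_cancel₀]
    simpa using hd'
  have l1 : Real.log ‖ι ((q ⟨a, ha⟩).num : kk)‖ =
      ∑ j, Real.log ‖ι (γ j a)‖ + Real.log ‖ι ((((q ⟨a, ha⟩).den : ℤ)) : kk)‖ := by
    have hj : ∀ j ∈ Finset.univ, ‖ι (γ j a)‖ ≠ 0 := fun j _ =>
      norm_ne_zero_iff.2 ((map_ne_zero ι).2 (hne0 ⟨a, ha⟩ j))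
    rw [e, map_mul, map_prod, norm_mul, norm_prod, Real.log_mul (Finset.prod_ne_zero_iff.2 hj)
      (norm_ne_zero_iff.2 ((map_ne_zero ι).2 hd')), Real.log_prod hj]
  have l2 : ∀ p, Real.log (v p ((q ⟨a, ha⟩).num : kk)) =
      ∑ j, Real.log (v p (γ j a)) + Real.log (v p ((((q ⟨a, ha⟩).den : ℤ)) : kk)) := by
    intro p
    have hj : ∀ j ∈ Finset.univ, v p (γ j a) ≠ 0 := fun j _ =>
      (v p).ne_zero (hne0 ⟨a, ha⟩ j)
    rw [e, map_mul, map_prod, Real.log_mul (Finset.prod_ne_zero_iff.2 hj) ((v p).ne_zero hd'),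
      Real.log_prod hj]
  rw [l1, Finset.sum_congr rfl fun p _ => l2 p, Finset.sum_add_distrib] at h1
  rw [Finset.sum_add_distrib, Finset.sum_comm]
  linarith

end Pool.Agent.Work.MP_913e71_al.Pos
end

-- merged part: Pool.Agent.Work.MP_913e71_al.Pos.InvS
section
/-! Invariant subspaces.

PLAN.  `inv_dom`: a rational left inverse `a * b = 1`; `Y = a * α * b`.  If an entry `x` of
`α * b - b * a * α * b` is not zero, `exists_point_inj` gives `φ` with `φ x ≠ 0`; but `α.map φ` is an automorphism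
over `kk`, so `α.map φ * b = b * Y'` (`IsBas.xt`) and `φ x = 0`.
`inv_field`, `exists_carry_kk`: let `D` be `Algebra.adjoin kk` of the entries and of the inverse of the determinant, a
finitely generated domain; the matrix comes from `D` (`Carry.of_map`).
`rat_change`: `W' = (xt kk W).map ψ⁻¹` is stable under conjugation, as `ψ * (ψ.map γ)⁻¹` is an automorphism; `gal_descent`
gives `W₁`; `b'` a basis of `LW ⊤ W₁` indexed like `b` (the ranks agree: `finrank_xt`, `finrank_map_mulVec`,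
`IsBas.rat` with `full_top`, `Cov_idx` in `Cov.lean`); `ψ * b'` and `b` are bases of `xt kk W`.  With an
embedding `ι` the complex matrix `g * (ψ.map ι)⁻¹` is an automorphism; `inv_field` gives `g * b' = b * Z` over `ℂ`, and
`Z = a * g * b'` is real.  Primitivity: `local_index` with `L = ⊤`, `G = 1`, `Y = 1`. -/

namespace Pool.Agent.Work.MP_913e71_al.Pos

open Matrix Module

variable {n : ℕ} {s s' : Fin n → Fin n → Fin n → ℤ} {ι : Type} [Fintype ι] [DecidableEq ι]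

lemma InvS_left {b : Matrix (Fin n) ι ℚ} (hb : LinearIndependent ℚ b.col) :
    ∃ a : Matrix ι (Fin n) ℚ, a * b = 1 := by
  obtain ⟨I, hI⟩ := exists_mnr_ne_zero b hb
  refine ⟨(b.submatrix I id)⁻¹ * (1 : Matrix (Fin n) (Fin n) ℚ).submatrix I id, ?_⟩
  have e : (1 : Matrix (Fin n) (Fin n) ℚ).submatrix I id * b = b.submatrix I id := by
    ext i j
    simp [Matrix.mul_apply, Matrix.one_apply]
  rw [Matrix.mul_assoc, e, Matrix.nonsing_inv_mul _ (isUnit_iff_ne_zero.2 hI)]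

lemma InvS_left_map {R : Type} [CommRing R] (f : ℚ →+* R) {a : Matrix ι (Fin n) ℚ}
    {b : Matrix (Fin n) ι ℚ} (h : a * b = 1) : a.map f * b.map f = 1 := by
  rw [← Matrix.map_mul, h, Matrix.map_one _ (map_zero _) (map_one _)]

lemma InvS_rat {R R' α β : Type} [CommRing R] [CommRing R'] [Algebra ℚ R] [Algebra ℚ R']
    (f : R →+* R') (b : Matrix α β ℚ) :
    (b.map (algebraMap ℚ R)).map f = b.map (algebraMap ℚ R') :=
  Matrix.ext fun i j => f.map_rat_algebraMap (b i j)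

lemma InvS_int {R R' α β : Type} [CommRing R] [CommRing R'] (f : R →+* R') (b : Matrix α β ℤ) :
    (b.map (Int.cast : ℤ → R)).map f = b.map (Int.cast : ℤ → R') :=
  Matrix.ext fun i j => map_intCast f (b i j)

lemma InvS_desc (j : kk →+* ℂ) (α : Matrix (Fin n) (Fin n) ℂ) (h : α.det ≠ 0) :
    ∃ (D : Type) (_ : CommRing D) (_ : IsDomain D) (_ : Algebra kk D)
      (_ : Algebra.FiniteType kk D) (f : D →+* ℂ) (β : Matrix (Fin n) (Fin n) D),
      Function.Injective f ∧ IsUnit β.det ∧ β.map f = α := by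
  classical
  let _ : Algebra kk ℂ := j.toAlgebra
  let T : Finset ℂ := insert α.det⁻¹ (Finset.univ.image fun x : Fin n × Fin n => α x.1 x.2)
  let D : Subalgebra kk ℂ := Algebra.adjoin kk (T : Set ℂ)
  have hT : ∀ x ∈ T, x ∈ D := fun x hx => Algebra.subset_adjoin hx
  let β : Matrix (Fin n) (Fin n) D := Matrix.of fun i l =>
    ⟨α i l, hT _ (Finset.mem_insert_of_mem (Finset.mem_image.2 ⟨(i, l), Finset.mem_univ _, rfl⟩))⟩
  have e : β.map (D.val : D →+* ℂ) = α := rfl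
  have hinj : Function.Injective (D.val : D →+* ℂ) := Subtype.val_injective
  refine ⟨D, inferInstance, inferInstance, inferInstance,
    (Subalgebra.fg_iff_finiteType D).1 (Subalgebra.fg_adjoin_finset T), D.val, β, hinj, ?_, e⟩
  refine IsUnit.of_mul_eq_one ⟨α.det⁻¹, hT _ (Finset.mem_insert_self _ _)⟩ (hinj ?_)
  rw [map_mul, map_one, RingHom.map_det]
  exact mul_inv_cancel₀ h

lemma InvS_det {F : Type} [Field F] [CharZero F] {g : Matrix (Fin n) (Fin n) F} (h0 : g.det ≠ 0)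
    {b' : Matrix (Fin n) ι ℤ} (hb : LinearIndependent ℤ b'.col) {c : Matrix (Fin n) ι F}
    {Z : Matrix ι ι F} (h : g * b'.map (Int.cast : ℤ → F) = c * Z) : Z.det ≠ 0 := by
  obtain ⟨I, hI⟩ := exists_mnr_ne_zero b' hb
  have e : b'.map (Int.cast : ℤ → F) = g⁻¹ * c * Z := by
    rw [Matrix.mul_assoc, ← h, ← Matrix.mul_assoc,
      Matrix.nonsing_inv_mul _ (isUnit_iff_ne_zero.2 h0), Matrix.one_mul]
  have h1 : mnr (b'.map (Int.cast : ℤ → F)) I ≠ 0 := by
    rw [Cov_cast]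
    exact_mod_cast hI
  rw [e, mnr_mul_right] at h1
  exact right_ne_zero_of_mul h1

theorem inv_top (s : Fin n → Fin n → Fin n → ℤ) : Inv s ⊤ := by
  have e : xt kk (⊤ : Submodule ℚ (Fin n → ℚ)) = ⊤ :=
    Submodule.eq_top_of_finrank_eq (by rw [finrank_xt]; simp)
  intro α _ v _
  rw [e]
  trivial

theorem inv_dom {D : Type} [CommRing D] [IsDomain D] [Algebra kk D] [Algebra.FiniteType kk D]
    [Algebra ℚ D] [IsScalarTower ℚ kk D] {W : Submodule ℚ (Fin n → ℚ)} (hW : Inv s W)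
    {b : Matrix (Fin n) ι ℚ} (hb : IsBas W b) {α : Matrix (Fin n) (Fin n) D} (hα : IsAut s α) :
    ∃ Y : Matrix ι ι D, α * b.map (algebraMap ℚ D) = b.map (algebraMap ℚ D) * Y := by
  obtain ⟨a, ha⟩ := InvS_left hb.1
  refine ⟨a.map (algebraMap ℚ D) * (α * b.map (algebraMap ℚ D)), ?_⟩
  refine sub_eq_zero.1 (Matrix.ext fun i l => ?_)
  by_contra hx
  obtain ⟨φ, hφ⟩ := exists_point_inj (D := D) (ι := Unit) fun _ =>
    (α * b.map (algebraMap ℚ D) -
      b.map (algebraMap ℚ D) * (a.map (algebraMap ℚ D) * (α * b.map (algebraMap ℚ D)))) i l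
  have h1 := hφ (fun _ => 1)
  simp only [Rat.cast_one, one_smul, Finset.univ_unique, Finset.sum_const, Finset.card_singleton]
    at h1
  refine h1 hx ?_
  have hk := hb.xt (F := kk)
  obtain ⟨Y, hY⟩ := Cov_fac hk (α.map (φ : D →+* kk) * b.map (algebraMap ℚ kk)) fun j =>
    hW _ (hα.map (φ : D →+* kk)) _ (Cov_col hk j)
  have h2 : (α * b.map (algebraMap ℚ D) -
      b.map (algebraMap ℚ D) * (a.map (algebraMap ℚ D) * (α * b.map (algebraMap ℚ D)))).map
      (φ : D →+* kk) = 0 := by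
    rw [Matrix.map_sub _ (map_sub _), Matrix.map_mul, Matrix.map_mul, Matrix.map_mul,
      Matrix.map_mul, InvS_rat, InvS_rat, hY, ← Matrix.mul_assoc (a.map _), InvS_left_map _ ha,
      Matrix.one_mul, sub_self]
  exact congrFun (congrFun h2 i) l

theorem inv_field (j : kk →+* ℂ) {W : Submodule ℚ (Fin n → ℚ)} (hW : Inv s W)
    {b : Matrix (Fin n) ι ℚ} (hb : IsBas W b) {α : Matrix (Fin n) (Fin n) ℂ} (hα : IsAut s α) :
    ∃ Y : Matrix ι ι ℂ, α * b.map (algebraMap ℚ ℂ) = b.map (algebraMap ℚ ℂ) * Y := by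
  obtain ⟨D, _, _, _, _, f, β, hf, hu, rfl⟩ := InvS_desc j α hα.1.ne_zero
  let _ : Algebra ℚ D := ((algebraMap kk D).comp (algebraMap ℚ kk)).toAlgebra
  have : IsScalarTower ℚ kk D := IsScalarTower.of_algebraMap_eq fun _ => rfl
  obtain ⟨Y, hY⟩ := inv_dom hW hb (α := β) ⟨hu, hα.2.of_map f hf⟩
  refine ⟨Y.map f, ?_⟩
  rw [← InvS_rat f b, ← Matrix.map_mul, hY, Matrix.map_mul]

theorem exists_carry_kk {g : Matrix (Fin n) (Fin n) ℝ} (h0 : g.det ≠ 0) (h : Carry s' s g) :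
    ∃ ψ : Matrix (Fin n) (Fin n) kk, ψ.det ≠ 0 ∧ Carry s' s ψ := by
  obtain ⟨j⟩ := exists_embedding
  have h1 : (g.map Complex.ofRealHom).det ≠ 0 := by
    rw [← RingHom.mapMatrix_apply, ← RingHom.map_det]
    exact (map_ne_zero _).2 h0
  obtain ⟨D, _, _, _, _, f, β, hf, hu, e⟩ := InvS_desc j _ h1
  obtain ⟨φ, -⟩ := exists_point_inj (D := D) (ι := Empty) Empty.elim
  have h2 : Carry s' s β := Carry.of_map f hf (e ▸ h.map Complex.ofRealHom)
  refine ⟨β.map (φ : D →+* kk), ?_, h2.map _⟩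
  rw [← RingHom.mapMatrix_apply, ← RingHom.map_det]
  exact (hu.map _).ne_zero

theorem exists_prim_mnr {W : Submodule ℚ (Fin n → ℚ)} {b : Matrix (Fin n) ι ℤ}
    (hb : IsBas (LW ⊤ W) b) (p : Nat.Primes) : ∃ I, ‖((mnr b I : ℤ) : ℤ_[p])‖ = 1 := by
  have h := local_index (p : ℕ) (L := ⊤) (1 : Matrix (Fin n) (Fin n) ℤ_[p]) (by simp)
    (fun v _ => ⟨_, Matrix.one_mulVec _⟩) (fun _ _ _ => trivial) (W := W) b 1
    (by rwa [Matrix.mul_one])
  simp only [det_one, Int.cast_one, norm_one, adjugate_one, Matrix.one_mul, one_mul, one_pow,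
    Cov_cast] at h
  obtain ⟨I₀, -⟩ := exists_mnr_ne_zero b hb.1
  have : Nonempty (ι → Fin n) := ⟨I₀⟩
  obtain ⟨I, hI⟩ := exists_eq_ciSup_of_finite (f := fun I : ι → Fin n => ‖((mnr b I : ℤ) : ℤ_[p])‖)
  exact ⟨I, hI.trans h⟩

theorem rat_change {g : Matrix (Fin n) (Fin n) ℝ} (h0 : g.det ≠ 0) (h : Carry s' s g)
    {ψ : Matrix (Fin n) (Fin n) kk} (hψ0 : ψ.det ≠ 0) (hψ : Carry s' s ψ)
    {W : Submodule ℚ (Fin n → ℚ)} (hW : Inv s W) {b : Matrix (Fin n) ι ℤ}
    (hb : IsBas (LW ⊤ W) b) : ∃ (b' : Matrix (Fin n) ι ℤ) (Y : Matrix ι ι kk) (Z : Matrix ι ι ℝ),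
      Y.det ≠ 0 ∧ Z.det ≠ 0 ∧
      ψ * b'.map (Int.cast : ℤ → kk) = b.map (Int.cast : ℤ → kk) * Y ∧
      g * b'.map (Int.cast : ℤ → ℝ) = b.map (Int.cast : ℤ → ℝ) * Z ∧
      ∀ p : Nat.Primes, ∃ I, ‖((mnr b' I : ℤ) : ℤ_[p])‖ = 1 := by
  have hu : IsUnit ψ.det := isUnit_iff_ne_zero.2 hψ0
  have hi0 : ψ⁻¹.det ≠ 0 := (Matrix.isUnit_nonsing_inv_det _ hu).ne_zero
  have hi : Carry s s' ψ⁻¹ := hψ.inv hu
  obtain ⟨W₁, hW₁⟩ := gal_descent ((xt kk W).map ψ⁻¹.mulVecLin) (by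
    rintro γ _ ⟨w, hw, rfl⟩
    have hγ : IsAut s (ψ * ψ⁻¹.map (γ : kk →+* kk)) := by
      refine ⟨isUnit_iff_ne_zero.2 ?_, hψ.mul (hi.map _)⟩
      rw [det_mul, ← RingHom.mapMatrix_apply, ← RingHom.map_det]
      exact mul_ne_zero hψ0 ((map_ne_zero _).2 hi0)
    refine ⟨_, hW _ hγ _ (xt_conj W γ w hw), ?_⟩
    rw [mulVecLin_apply, mulVec_mulVec, ← Matrix.mul_assoc, Matrix.nonsing_inv_mul _ hu,
      Matrix.one_mul]
    funext i
    exact (RingHom.map_mulVec (γ : kk →+* kk) ψ⁻¹ w i).symm)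
  have hbq := hb.rat full_top
  have hc : Fintype.card ι = finrank ℚ W₁ := by
    rw [← finrank_xt (F := kk) W₁, hW₁, finrank_map_mulVec hi0, finrank_xt, hbq.card_eq]
  obtain ⟨b', hb'⟩ := Cov_idx (ι := ι) full_top hc
  have hbk := hbq.xt (F := kk)
  have hbk' := (hb'.rat full_top).xt (F := kk)
  rw [InvS_int] at hbk hbk'
  obtain ⟨Y, hY⟩ := Cov_fac hbk (ψ * b'.map (Int.cast : ℤ → kk)) fun l => by
    obtain ⟨w, hw, e⟩ := hW₁.le (Cov_col hbk' l)
    have e1 : (ψ * b'.map (Int.cast : ℤ → kk)).col l = ψ *ᵥ (b'.map (Int.cast : ℤ → kk)).col l :=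
      rfl
    rw [e1, ← e, mulVecLin_apply, mulVec_mulVec, Matrix.mul_nonsing_inv _ hu, one_mulVec]
    exact hw
  obtain ⟨j⟩ := exists_embedding
  have hα : IsAut s (g.map Complex.ofRealHom * ψ⁻¹.map j) := by
    refine ⟨isUnit_iff_ne_zero.2 ?_, (h.map _).mul (hi.map _)⟩
    rw [det_mul, ← RingHom.mapMatrix_apply, ← RingHom.mapMatrix_apply, ← RingHom.map_det,
      ← RingHom.map_det]
    exact mul_ne_zero ((map_ne_zero _).2 h0) ((map_ne_zero _).2 hi0)
  obtain ⟨Yc, hYc⟩ := inv_field j hW hbq hα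
  rw [InvS_int] at hYc
  have hg : g.map Complex.ofRealHom * b'.map (Int.cast : ℤ → ℂ) =
      b.map (Int.cast : ℤ → ℂ) * (Yc * Y.map j) := by
    rw [← Matrix.mul_assoc, ← hYc, Matrix.mul_assoc, Matrix.mul_assoc, ← InvS_int j b,
      ← Matrix.map_mul, ← Matrix.map_mul, ← hY, ← Matrix.mul_assoc,
      Matrix.nonsing_inv_mul _ hu, Matrix.one_mul, InvS_int]
  obtain ⟨a, ha⟩ := InvS_left hbq.1
  have ha' := InvS_left_map (algebraMap ℚ ℂ) ha
  rw [InvS_int] at ha'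
  have hZ : g * b'.map (Int.cast : ℤ → ℝ) = b.map (Int.cast : ℤ → ℝ) *
      (a.map (algebraMap ℚ ℝ) * (g * b'.map (Int.cast : ℤ → ℝ))) := by
    refine Matrix.map_injective (f := Complex.ofRealHom) Complex.ofRealHom.injective ?_
    show (g * b'.map (Int.cast : ℤ → ℝ)).map Complex.ofRealHom = (b.map (Int.cast : ℤ → ℝ) *
      (a.map (algebraMap ℚ ℝ) * (g * b'.map (Int.cast : ℤ → ℝ)))).map Complex.ofRealHom
    rw [Matrix.map_mul, Matrix.map_mul, Matrix.map_mul, Matrix.map_mul, InvS_int, InvS_int,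
      InvS_rat, hg, ← Matrix.mul_assoc (a.map _), ha', Matrix.one_mul]
  exact ⟨b', Y, _, InvS_det hψ0 hb'.1 hY, InvS_det h0 hb'.1 hZ, hY, hZ, exists_prim_mnr hb'⟩

end Pool.Agent.Work.MP_913e71_al.Pos
end

-- merged part: Pool.Agent.Work.MP_913e71_al.Pos.Sym
section
/-! Symmetrisation: a point feasible for the invariant subspaces gives one feasible for all.

PLAN for `least_min`.  The minimisers are closed under `⊓` (submodularity); take one of least `finrank`.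
PLAN for `Dt_comap`.  `Dt_gmap` for the injective map `Ideal.quotientMap p θ le_rfl`.
PLAN for `exists_generic`.  `P = MvPolynomial (Option (Fin n × Fin n)) kk`, `Y i j = X (some (i, j))`, `I` = the ideal of the `f` with
`eval (pt α) f = 0` for all automorphisms `α` over `kk`, `pt α none = (det α)⁻¹`, `pt α (some (i, j)) = α i j`.  `I ≠ ⊤`
(`isAut_one`), `PP = I.minimalPrimes` is finite and nonempty, `D p = P ⧸ p`, `Ψ p = Y.map (mk p)`; `X none * det Y - 1` and the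
relations of `Carry` are in `I`.  For an automorphism `φ` the substitution `θ : Y ↦ φ⁻¹ * Y`, `X none ↦ det φ * X none` is an
algebra automorphism (inverse: the same for `φ⁻¹`) with `eval (pt α) (θ f) = eval (pt (φ⁻¹ * α)) f`, so `comap θ I = I` and
`comap θ` permutes `PP` (`Ideal.comap_minimalPrimes_eq_of_surjective`); the induced map `D (comap θ p) → D p` sends `Ψ` to
`φ⁻¹ * Ψ`; `Dt_mul_left`, `Dt_comap` with `γ = refl`.  For `γ` take `θ = MvPolynomial.mapEquiv _ γ`,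
`eval (pt (α.map γ)) (θ f) = γ (eval (pt α) f)`.
PLAN for `symmetrize`.  `A` = all coefficients of all `G t`, `exists_gal_family A`, `G' j t = (G t).map (mapRingHom (γ j))`.  On
subspaces of `kk ^ n` let `f W = ∑ t j p, c t * Dt ((Ψ p).map C * (G' j t).map ..) (e t) W - card J * card PP * dinf d W`: submodular
(`Dt_submod`, `dinf_supermod`), finite range (`abs_Dt_le`, `dinf_le_sum`).  `f (W.map φ) ≤ f W` (`dinf_le_map`, `Gen.tri`),
`f (gmap γ₀ W) = f W` (`(G' j t).map γ₀ = G' (π j) t`).  The least minimiser `W₀` has `W₀ ≤ W₀.map φ`, equal by rank, likewise for `gmap`;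
`gal_descent`: `W₀ = xt kk W₁`, `Inv s W₁`; `Dt_xt`, `inv_dom`, `Dt_inv`, `Dt_map` give `f W₀ = card * (∑ c Dt - dinf) ≥ 0`.  So
`0 ≤ f (xt kk W)` for all rational `W`.  For each `p` specialise by `exists_spec` (family of the adjugates): `T' = T × J × PP`,
`G'' = ((Ψ p).map φ).map C * G' j t`, `c' = c t / (card J * card PP)`. -/

namespace Pool.Agent.Work.MP_913e71_al.Pos

open Matrix Polynomial Module

variable {n : ℕ}

theorem least_min {F : Type} [Field F] (f : Submodule F (Fin n → F) → ℝ)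
    (hf : ∀ A B, f (A ⊓ B) + f (A ⊔ B) ≤ f A + f B) (hfin : (Set.range f).Finite) :
    ∃ W₀, (∀ W, f W₀ ≤ f W) ∧ ∀ W, f W ≤ f W₀ → W₀ ≤ W := by
  obtain ⟨_, ⟨W₁, rfl⟩, h1⟩ := Set.exists_min_image (Set.range f) id hfin (Set.range_nonempty f)
  obtain ⟨W₀, h0, hm⟩ := (wellFounded_lt (α := Submodule F (Fin n → F))).has_min
    {W | ∀ W', f W ≤ f W'} ⟨W₁, fun W => h1 _ ⟨W, rfl⟩⟩
  refine ⟨W₀, h0, fun W hW => ?_⟩
  by_contra hn
  refine hm (W₀ ⊓ W) (fun W' => ?_) (lt_of_le_of_ne inf_le_left fun h => hn (inf_eq_left.1 h))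
  linarith [hf W₀ W, h0 (W₀ ⊔ W), h0 W']

theorem Dt_comap {P : Type} [CommRing P] [Algebra kk P] (θ : P ≃+* P) (γ : kk ≃+* kk)
    (hθ : ∀ a, θ (algebraMap kk P a) = algebraMap kk P (γ a)) (p : Ideal P) [p.IsPrime]
    (H : Matrix (Fin n) (Fin n) P[X]) (e : ℕ) (W : Submodule kk (Fin n → kk)) :
    Dt ((H.map (mapRingHom (θ : P →+* P))).map (mapRingHom (Ideal.Quotient.mk p))) e (gmap γ W) =
      Dt (H.map (mapRingHom (Ideal.Quotient.mk (p.comap (θ : P →+* P))))) e W := by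
  have h : (H.map (mapRingHom (θ : P →+* P))).map (mapRingHom (Ideal.Quotient.mk p)) =
      (H.map (mapRingHom (Ideal.Quotient.mk (p.comap (θ : P →+* P))))).map
        (mapRingHom (Ideal.quotientMap p (θ : P →+* P) le_rfl)) := by
    refine Matrix.ext fun i j => ?_
    simp only [map_apply, coe_mapRingHom, Polynomial.map_map, Ideal.quotientMap_comp_mk]
  have hc : ∀ a, Ideal.quotientMap p (θ : P →+* P) le_rfl
      (algebraMap kk (P ⧸ p.comap (θ : P →+* P)) a) = algebraMap kk (P ⧸ p) (γ a) := fun a =>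
    Ideal.quotientMap_mk.trans (congrArg (Ideal.Quotient.mk p) (hθ a))
  rw [h]
  exact Dt_gmap γ _ Ideal.quotientMap_injective hc _ e W

/-- The matrix read off from a point. -/
def Sym_M {B : Type} (x : Option (Fin n × Fin n) → B) : Matrix (Fin n) (Fin n) B :=
  Matrix.of fun i j => x (some (i, j))

/-- The point of a matrix. -/
def Sym_pt {B : Type} (c : B) (α : Matrix (Fin n) (Fin n) B) : Option (Fin n × Fin n) → B
  | none => c
  | some x => α x.1 x.2

/-- The coordinate ring. -/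
abbrev Sym_P (n : ℕ) : Type := MvPolynomial (Option (Fin n × Fin n)) kk

/-- The matrix of variables. -/
noncomputable def Sym_Y (n : ℕ) : Matrix (Fin n) (Fin n) (Sym_P n) := Sym_M MvPolynomial.X

/-- Evaluation at a matrix. -/
noncomputable def Sym_ev (α : Matrix (Fin n) (Fin n) kk) : Sym_P n →+* kk :=
  MvPolynomial.eval (Sym_pt α.det⁻¹ α)

/-- The ideal of the automorphism group. -/
noncomputable def Sym_I (s : Fin n → Fin n → Fin n → ℤ) : Ideal (Sym_P n) :=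
  ⨅ α : {α : Matrix (Fin n) (Fin n) kk // IsAut s α}, RingHom.ker (Sym_ev α.1)

/-- Left translation. -/
noncomputable def Sym_tr (A : Matrix (Fin n) (Fin n) kk) : Sym_P n →+* Sym_P n :=
  MvPolynomial.eval₂Hom MvPolynomial.C
    (Sym_pt (MvPolynomial.C A.det⁻¹ * MvPolynomial.X none) (A.map MvPolynomial.C * Sym_Y n))

lemma Sym_mem {s : Fin n → Fin n → Fin n → ℤ} {f : Sym_P n} :
    f ∈ Sym_I s ↔ ∀ α, IsAut s α → Sym_ev α f = 0 := by
  simp only [Sym_I, Ideal.mem_iInf, RingHom.mem_ker, Subtype.forall]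

lemma Sym_ev_Y (α : Matrix (Fin n) (Fin n) kk) : (Sym_Y n).map (Sym_ev α) = α :=
  Matrix.ext fun _ _ => MvPolynomial.eval_X _

lemma Sym_tr_Y (A : Matrix (Fin n) (Fin n) kk) :
    (Sym_Y n).map (Sym_tr A) = A.map MvPolynomial.C * Sym_Y n :=
  Matrix.ext fun _ _ => MvPolynomial.eval₂Hom_X' _ _ _

lemma Sym_tr_C (A : Matrix (Fin n) (Fin n) kk) (a : kk) :
    Sym_tr A (MvPolynomial.C a) = MvPolynomial.C a := MvPolynomial.eval₂Hom_C _ _ _

lemma Sym_tr_none (A : Matrix (Fin n) (Fin n) kk) :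
    Sym_tr A (MvPolynomial.X none) = MvPolynomial.C A.det⁻¹ * MvPolynomial.X none :=
  MvPolynomial.eval₂Hom_X' _ _ _

lemma Sym_ext {B : Type} [CommRing B] {f g : Sym_P n →+* B}
    (hC : ∀ a, f (MvPolynomial.C a) = g (MvPolynomial.C a))
    (h0 : f (MvPolynomial.X none) = g (MvPolynomial.X none))
    (hY : (Sym_Y n).map f = (Sym_Y n).map g) : f = g := by
  refine MvPolynomial.ringHom_ext hC fun o => ?_
  rcases o with _ | ⟨i, j⟩
  · exact h0
  · exact congrFun (congrFun hY i) j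

lemma Sym_mapC {B : Type} [CommRing B] (f : Sym_P n →+* B) (g : kk →+* B)
    (h : ∀ a, f (MvPolynomial.C a) = g a) (A : Matrix (Fin n) (Fin n) kk) :
    (A.map MvPolynomial.C).map f = A.map g := Matrix.ext fun _ _ => h _

lemma Sym_ev_tr (A α : Matrix (Fin n) (Fin n) kk) :
    (Sym_ev α).comp (Sym_tr A) = (RingHom.id kk).comp (Sym_ev (A * α)) := by
  refine Sym_ext (fun a => ?_) ?_ ?_
  · simp [Sym_tr_C, Sym_ev]
  · simp [Sym_tr_none, Sym_ev, Sym_pt, mul_comm]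
  · rw [RingHom.id_comp, Sym_ev_Y, RingHom.coe_comp, ← Matrix.map_map, Sym_tr_Y, Matrix.map_mul,
      Sym_ev_Y, Sym_mapC (Sym_ev α) (RingHom.id kk) fun _ => MvPolynomial.eval_C _]
    rfl

lemma Sym_tr_tr {A B : Matrix (Fin n) (Fin n) kk} (h : B * A = 1) :
    (Sym_tr A).comp (Sym_tr B) = RingHom.id _ := by
  have hd : B.det⁻¹ * A.det⁻¹ = 1 := by rw [← mul_inv, ← det_mul, h, det_one, inv_one]
  refine Sym_ext (fun a => ?_) ?_ ?_
  · simp [Sym_tr_C]
  · rw [RingHom.comp_apply, Sym_tr_none, map_mul, Sym_tr_C, Sym_tr_none, ← mul_assoc, ← map_mul, hd,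
      map_one, one_mul, RingHom.id_apply]
  · rw [RingHom.coe_comp, ← Matrix.map_map, Sym_tr_Y, Matrix.map_mul, Sym_tr_Y,
      Sym_mapC _ _ (Sym_tr_C A), ← Matrix.mul_assoc, ← Matrix.map_mul, h,
      Matrix.map_one _ (map_zero _) (map_one _), Matrix.one_mul]
    rfl

lemma Sym_ev_map (γ : kk →+* kk) (α : Matrix (Fin n) (Fin n) kk) :
    (Sym_ev (α.map γ)).comp (MvPolynomial.map γ) = γ.comp (Sym_ev α) := by
  have e : (α.map γ).det = γ α.det := (RingHom.map_det γ α).symm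
  refine MvPolynomial.ringHom_ext (fun a => ?_) fun o => ?_
  · simp [Sym_ev]
  · rcases o with _ | ⟨i, j⟩ <;> simp [Sym_ev, Sym_pt, e]

lemma Sym_aut {s : Fin n → Fin n → Fin n → ℤ} {B : Type} [CommRing B] (g : Sym_P n →+* B)
    (hg : ∀ f ∈ Sym_I s, g f = 0) : IsAut s ((Sym_Y n).map g) := by
  have h1 : ∀ {B : Type} [CommRing B] (g : Sym_P n →+* B),
      g ((Sym_Y n).det * MvPolynomial.X none - 1) =
        ((Sym_Y n).map g).det * g (MvPolynomial.X none) - 1 := fun g => by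
    rw [map_sub, map_mul, map_one, RingHom.map_det]
    rfl
  have h2 : ∀ {B : Type} [CommRing B] (g : Sym_P n →+* B) (i j l : Fin n),
      g ((Sym_Y n *ᵥ fun l => (s i j l : Sym_P n)) l -
        br s ((Sym_Y n).col i) ((Sym_Y n).col j) l) =
      ((Sym_Y n).map g *ᵥ fun l => (s i j l : B)) l -
        br s (((Sym_Y n).map g).col i) (((Sym_Y n).map g).col j) l := fun g i j l => by
    simp [br, Matrix.mulVec, dotProduct]
  refine ⟨IsUnit.of_mul_eq_one (g (MvPolynomial.X none)) (sub_eq_zero.1 ?_), fun i j => ?_⟩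
  · rw [← h1]
    refine hg _ (Sym_mem.2 fun α hα => ?_)
    rw [h1, Sym_ev_Y, Sym_ev, MvPolynomial.eval_X]
    exact sub_eq_zero.2 (mul_inv_cancel₀ hα.1.ne_zero)
  · funext l
    rw [← sub_eq_zero, ← h2]
    refine hg _ (Sym_mem.2 fun α hα => ?_)
    rw [h2, Sym_ev_Y, hα.2 i j, sub_self]

lemma Sym_perm {s : Fin n → Fin n → Fin n → ℤ} (θ : Sym_P n →+* Sym_P n)
    (hθ : Function.Surjective θ) (g : kk →+* kk)
    (τ : Matrix (Fin n) (Fin n) kk → Matrix (Fin n) (Fin n) kk → Prop)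
    (h : ∀ α β, τ α β → (Sym_ev α).comp θ = g.comp (Sym_ev β))
    (h1 : ∀ α, IsAut s α → ∃ β, IsAut s β ∧ τ α β) (h2 : ∀ β, IsAut s β → ∃ α, IsAut s α ∧ τ α β) :
    ∃ π : Equiv.Perm (Sym_I s).minimalPrimes, ∀ p, ∃ f : Sym_P n ⧸ (π p).1 →+* Sym_P n ⧸ p.1,
      Function.Injective f ∧ ∀ x, f (Ideal.Quotient.mk _ x) = Ideal.Quotient.mk _ (θ x) := by
  have e : (Sym_I s).comap θ = Sym_I s := by
    ext f
    rw [Ideal.mem_comap, Sym_mem, Sym_mem]
    refine ⟨fun H β hβ => ?_, fun H α hα => ?_⟩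
    · obtain ⟨α, hα, t⟩ := h2 β hβ
      exact (map_eq_zero g).1 ((RingHom.congr_fun (h α β t) f).symm.trans (H α hα))
    · obtain ⟨β, hβ, t⟩ := h1 α hα
      refine (RingHom.congr_fun (h α β t) f).trans ?_
      rw [RingHom.comp_apply, H β hβ, map_zero]
  have hm : ∀ p : (Sym_I s).minimalPrimes, p.1.comap θ ∈ (Sym_I s).minimalPrimes := fun p => by
    have h3 := Ideal.comap_minimalPrimes_eq_of_surjective hθ (Sym_I s)
    rw [e] at h3
    exact h3.ge (Set.mem_image_of_mem _ p.2)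
  have := (Ideal.finite_minimalPrimes_of_isNoetherianRing _ (Sym_I s)).to_subtype
  refine ⟨Equiv.ofBijective (fun p => ⟨_, hm p⟩) (Finite.injective_iff_bijective.1 fun p q hpq =>
    Subtype.ext (Ideal.comap_injective_of_surjective θ hθ (congrArg Subtype.val hpq))), fun p => ?_⟩
  exact ⟨Ideal.quotientMap p.1 θ le_rfl, Ideal.quotientMap_injective, fun _ => rfl⟩

lemma Sym_push {R R' : Type} [CommRing R] [CommRing R'] [Algebra kk R] [Algebra kk R']
    (f : R →+* R') (γ : kk →+* kk) (hc : ∀ a, f (algebraMap kk R a) = algebraMap kk R' (γ a))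
    (Ψ : Matrix (Fin n) (Fin n) R) (G : Matrix (Fin n) (Fin n) kk[X]) :
    (Ψ.map C * G.map (mapRingHom (algebraMap kk R))).map (mapRingHom f) =
      (Ψ.map f).map C * (G.map (mapRingHom γ)).map (mapRingHom (algebraMap kk R')) := by
  have e : f.comp (algebraMap kk R) = (algebraMap kk R').comp γ := RingHom.ext hc
  rw [Matrix.map_mul]
  refine congrArg₂ _ (Matrix.ext fun i j => ?_) (Matrix.ext fun i j => ?_)
  · exact map_C f
  · simp only [map_apply, coe_mapRingHom, Polynomial.map_map, e]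

lemma Sym_id (G : Matrix (Fin n) (Fin n) kk[X]) : G.map (mapRingHom (RingHom.id kk)) = G :=
  Matrix.ext fun _ _ => Polynomial.map_id

/-- Generic points of the components of the automorphism group. -/
theorem exists_generic (s : Fin n → Fin n → Fin n → ℤ) :
    ∃ (PP : Type) (_ : Fintype PP) (_ : Nonempty PP) (D : PP → Type) (_ : ∀ p, CommRing (D p))
      (_ : ∀ p, IsDomain (D p)) (_ : ∀ p, Algebra kk (D p))
      (_ : ∀ p, Algebra.FiniteType kk (D p)) (Ψ : ∀ p, Matrix (Fin n) (Fin n) (D p)),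
      (∀ p, IsAut s (Ψ p)) ∧
      (∀ φ : Matrix (Fin n) (Fin n) kk, IsAut s φ → ∃ π : Equiv.Perm PP,
        ∀ (p : PP) (G : Matrix (Fin n) (Fin n) kk[X]) (e : ℕ) (W : Submodule kk (Fin n → kk)),
          Dt ((Ψ p).map C * G.map (mapRingHom (algebraMap kk (D p)))) e (W.map φ.mulVecLin) =
            Dt ((Ψ (π p)).map C * G.map (mapRingHom (algebraMap kk (D (π p))))) e W) ∧
      ∀ γ : kk ≃ₐ[ℚ] kk, ∃ π : Equiv.Perm PP,
        ∀ (p : PP) (G : Matrix (Fin n) (Fin n) kk[X]) (e : ℕ) (W : Submodule kk (Fin n → kk)),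
          Dt ((Ψ p).map C * (G.map (mapRingHom (γ : kk →+* kk))).map
              (mapRingHom (algebraMap kk (D p)))) e (gmap γ.toRingEquiv W) =
            Dt ((Ψ (π p)).map C * G.map (mapRingHom (algebraMap kk (D (π p))))) e W := by
  have hI : Sym_I s ≠ ⊤ := fun h => one_ne_zero
    ((map_one _).symm.trans (Sym_mem.1 (h ▸ Submodule.mem_top : 1 ∈ Sym_I s) 1 isAut_one))
  have hd : ∀ p : (Sym_I s).minimalPrimes, IsDomain (Sym_P n ⧸ p.1) := fun p =>
    (Ideal.Quotient.isDomain_iff_prime _).2 p.2.1.1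
  refine ⟨(Sym_I s).minimalPrimes,
    (Ideal.finite_minimalPrimes_of_isNoetherianRing _ (Sym_I s)).fintype,
    Ideal.nonempty_minimalPrimes hI, fun p => Sym_P n ⧸ p.1, fun _ => inferInstance, hd,
    fun _ => inferInstance, fun _ => inferInstance,
    fun p => (Sym_Y n).map (Ideal.Quotient.mk p.1),
    fun p => Sym_aut _ fun f hf => Ideal.Quotient.eq_zero_iff_mem.2 (p.2.1.2 hf),
    fun φ hφ => ?_, fun γ => ?_⟩
  · have e1 := mul_nonsing_inv φ hφ.1
    obtain ⟨π, hπ⟩ := Sym_perm (s := s) (Sym_tr φ⁻¹)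
      (fun x => ⟨_, RingHom.congr_fun (Sym_tr_tr e1) x⟩) (RingHom.id kk) (fun α β => φ⁻¹ * α = β)
      (fun α _ h => h ▸ Sym_ev_tr _ α) (fun α hα => ⟨_, hφ.inv.mul hα, rfl⟩)
      (fun β hβ => ⟨_, hφ.mul hβ, nonsing_inv_mul_cancel_left _ _ hφ.1⟩)
    refine ⟨π, fun p G e W => ?_⟩
    obtain ⟨f, hf, hx⟩ := hπ p
    have hc : ∀ a, f (algebraMap kk _ a) = algebraMap kk _ a := fun a =>
      (hx _).trans (congrArg _ (Sym_tr_C _ a))
    have e2 : ((Sym_Y n).map (Ideal.Quotient.mk (π p).1)).map f =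
        φ⁻¹.map (algebraMap kk _) * (Sym_Y n).map (Ideal.Quotient.mk p.1) := by
      rw [← Sym_mapC (Ideal.Quotient.mk p.1) (algebraMap kk _) (fun _ => rfl), ← Matrix.map_mul,
        ← Sym_tr_Y]
      exact Matrix.ext fun _ _ => hx _
    rw [← Dt_map f hf hc, Sym_push f (RingHom.id kk) hc, Sym_id, e2,
      ← Dt_mul_left hφ.1.ne_zero _ e W, ← Matrix.mul_assoc, ← Matrix.map_mul, ← Matrix.mul_assoc,
      ← Matrix.map_mul, e1, Matrix.map_one _ (map_zero _) (map_one _), Matrix.one_mul]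
  · obtain ⟨π, hπ⟩ := Sym_perm (s := s) (MvPolynomial.map (γ : kk →+* kk))
      (MvPolynomial.map_surjective _ γ.surjective) (γ : kk →+* kk)
      (fun α β => β.map (γ : kk →+* kk) = α) (fun _ β h => h ▸ Sym_ev_map _ β)
      (fun α hα => ⟨_, hα.map (γ.symm : kk →+* kk), Matrix.ext fun _ _ => γ.apply_symm_apply _⟩)
      (fun β hβ => ⟨_, hβ.map _, rfl⟩)
    refine ⟨π, fun p G e W => ?_⟩
    obtain ⟨f, hf, hx⟩ := hπ p
    have hc : ∀ a, f (algebraMap kk _ a) = algebraMap kk _ (γ a) := fun a =>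
      (hx _).trans (congrArg _ (MvPolynomial.map_C _ a))
    have e2 : ((Sym_Y n).map (Ideal.Quotient.mk (π p).1)).map f =
        (Sym_Y n).map (Ideal.Quotient.mk p.1) :=
      Matrix.ext fun _ _ => (hx _).trans (congrArg _ (MvPolynomial.map_X _ _))
    rw [← Dt_gmap γ.toRingEquiv f hf hc, Sym_push f (γ : kk →+* kk) hc, e2]

lemma Sym_fin {α K : Type} [Finite K] (u : K → α → ℤ) (B : K → ℤ) (hu : ∀ k a, |u k a| ≤ B k)
    (v : α → ℕ) (b : ℕ) (hv : ∀ a, v a ≤ b) (g : (K → ℤ) → ℕ → ℝ) :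
    (Set.range fun a => g (fun k => u k a) (v a)).Finite := by
  refine (((Set.Finite.pi' fun k => Set.finite_Icc (-B k) (B k)).prod (Set.finite_Iic b)).image
    fun x => g x.1 x.2).subset ?_
  rintro _ ⟨a, rfl⟩
  exact ⟨(fun k => u k a, v a), ⟨fun k => abs_le.1 (hu k a), hv a⟩, rfl⟩

lemma Sym_gal {T : Type} [Fintype T] (G : T → Matrix (Fin n) (Fin n) kk[X]) :
    ∃ (J : Type) (_ : Fintype J) (_ : Nonempty J) (γ : J → (kk ≃ₐ[ℚ] kk)), ∀ γ₀ : kk ≃ₐ[ℚ] kk,
      ∃ π : Equiv.Perm J, ∀ j t, ((G t).map (mapRingHom (γ j : kk →+* kk))).map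
        (mapRingHom (γ₀ : kk →+* kk)) = (G t).map (mapRingHom (γ (π j) : kk →+* kk)) := by
  classical
  obtain ⟨J, _, _, γ, h⟩ := exists_gal_family
    (Finset.univ.biUnion fun x : T × Fin n × Fin n => (G x.1 x.2.1 x.2.2).coeffs)
  refine ⟨J, inferInstance, inferInstance, γ, fun γ₀ => (h γ₀).imp fun π hπ j t => ?_⟩
  refine Matrix.ext fun a b => Polynomial.ext fun k => ?_
  simp only [map_apply, coe_mapRingHom, coeff_map, RingHom.coe_coe]
  by_cases h0 : (G t a b).coeff k = 0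
  · simp [h0]
  · exact hπ j _ (Finset.mem_biUnion.2 ⟨(t, a, b), Finset.mem_univ _, coeff_mem_coeffs h0⟩)

theorem symmetrize {d : Fin n → ℕ} (hd : ∀ i, 1 ≤ d i) {s : Fin n → Fin n → Fin n → ℤ}
    (hgr : ∀ i j l, s i j l ≠ 0 → d i + d j ≤ d l) (hG : Gen d s) {T : Type} [Fintype T]
    (G : T → Matrix (Fin n) (Fin n) kk[X]) (e : T → ℕ) (hT : ∀ t, IsType s (G t) (e t))
    (c : T → ℝ) (hc : ∀ t, 0 ≤ c t)
    (hfeas : ∀ W : Submodule ℚ (Fin n → ℚ), Inv s W →
      (dinf d W : ℝ) ≤ ∑ t, c t * Dt (G t) (e t) W) :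
    ∃ (T' : Type) (_ : Fintype T') (G' : T' → Matrix (Fin n) (Fin n) kk[X]) (e' : T' → ℕ)
      (c' : T' → ℝ), (∀ t, IsType s (G' t) (e' t)) ∧ (∀ t, 0 ≤ c' t) ∧
      (∀ W : Submodule ℚ (Fin n → ℚ), (dinf d W : ℝ) ≤ ∑ t, c' t * Dt (G' t) (e' t) W) ∧
      ∑ t, c' t * cost (G' t) (e' t) = ∑ t, c t * cost (G t) (e t) := by
  obtain ⟨PP, _, _, D, _, _, _, _, Ψ, hΨ, h1, h2⟩ := exists_generic s
  obtain ⟨J, _, _, γ, hγ⟩ := Sym_gal G
  let _ : ∀ p, Algebra ℚ (D p) := fun p =>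
    ((algebraMap kk (D p)).comp (algebraMap ℚ kk)).toAlgebra
  have : ∀ p, IsScalarTower ℚ kk (D p) := fun p => IsScalarTower.of_algebraMap_eq fun _ => rfl
  have : ∀ p, CharZero (D p) := fun p =>
    charZero_of_injective_algebraMap (algebraMap kk (D p)).injective
  obtain ⟨G', hG'⟩ : ∃ G' : J → T → Matrix (Fin n) (Fin n) kk[X],
      ∀ j t, G' j t = (G t).map (mapRingHom (γ j : kk →+* kk)) := ⟨_, fun _ _ => rfl⟩
  obtain ⟨H, hH⟩ : ∃ H : ∀ p, J → T → Matrix (Fin n) (Fin n) (D p)[X], ∀ p j t,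
      H p j t = (Ψ p).map C * (G' j t).map (mapRingHom (algebraMap kk (D p))) :=
    ⟨_, fun _ _ _ => rfl⟩
  have tG : ∀ j t, IsType s (G' j t) (e t) := fun j t => by
    rw [hG']
    exact (hT t).map _ (γ j).injective
  have tH : ∀ p j t, IsType s (H p j t) (e t) := fun p j t => by
    rw [hH]
    exact ((tG j t).map _ (algebraMap kk (D p)).injective).aut_mul (hΨ p)
  have nG : ∀ j t, (G' j t).det.natTrailingDegree = (G t).det.natTrailingDegree := fun j t => by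
    rw [hG']
    exact natTrailingDegree_det_map _ (γ j).injective _
  obtain ⟨N, hN⟩ : ∃ N : ℝ, N = Fintype.card PP * Fintype.card J := ⟨_, rfl⟩
  have N0 : 0 < N := by
    rw [hN]
    exact mul_pos (Nat.cast_pos.2 Fintype.card_pos) (Nat.cast_pos.2 Fintype.card_pos)
  have hsum : ∀ x : ℝ, ∑ _ : PP, ∑ _ : J, x = N * x := fun x => by
    simp only [hN, Finset.sum_const, Finset.card_univ, nsmul_eq_mul, mul_assoc]
  obtain ⟨f, hf⟩ : ∃ f : Submodule kk (Fin n → kk) → ℝ, f = fun W =>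
      ∑ p, ∑ j, ∑ t, c t * Dt (H p j t) (e t) W - N * dinf d W := ⟨_, rfl⟩
  obtain ⟨W₀, hmin, hle⟩ := least_min f (fun A B => by
    have a1 : (dinf d A : ℝ) + dinf d B ≤ dinf d (A ⊓ B) + dinf d (A ⊔ B) := by
      exact_mod_cast dinf_supermod d A B
    have a2 : ∑ p, ∑ j, ∑ t, c t * Dt (H p j t) (e t) (A ⊓ B) +
        ∑ p, ∑ j, ∑ t, c t * Dt (H p j t) (e t) (A ⊔ B) ≤
        ∑ p, ∑ j, ∑ t, c t * Dt (H p j t) (e t) A + ∑ p, ∑ j, ∑ t, c t * Dt (H p j t) (e t) B := by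
      simp only [← Finset.sum_add_distrib, ← mul_add]
      refine Finset.sum_le_sum fun p _ => Finset.sum_le_sum fun j _ =>
        Finset.sum_le_sum fun t _ => mul_le_mul_of_nonneg_left ?_ (hc t)
      exact_mod_cast Dt_submod (tH p j t).1 (e t) A B
    simp only [hf]
    linarith [mul_le_mul_of_nonneg_left a1 N0.le]) (by
    rw [hf]
    exact Sym_fin (fun (k : PP × J × T) W => Dt (H k.1 k.2.1 k.2.2) (e k.2.2) W) _
      (fun k W => abs_Dt_le (tH k.1 k.2.1 k.2.2).1 _ W) (dinf d) _ (dinf_le_sum d)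
      fun u v => ∑ p, ∑ j, ∑ t, c t * u (p, j, t) - N * v)
  have i1 : ∀ φ, IsAut s φ → W₀ ≤ W₀.map φ.mulVecLin := fun φ hφ => hle _ (by
    obtain ⟨π, hπ⟩ := h1 φ hφ
    have a1 : (dinf d W₀ : ℝ) ≤ dinf d (W₀.map φ.mulVecLin) := by
      exact_mod_cast dinf_le_map d hφ.1.ne_zero (fun l i h => hG.tri hd hgr hφ.2 h) W₀
    have a2 := Equiv.sum_comp π fun p => ∑ j, ∑ t, c t * Dt (H p j t) (e t) W₀
    simp only [hf, hH, hπ] at a2 ⊢
    linarith [mul_le_mul_of_nonneg_left a1 N0.le])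
  have i2 : ∀ γ₀ : kk ≃ₐ[ℚ] kk, W₀ ≤ gmap γ₀.toRingEquiv W₀ := fun γ₀ => hle _ (by
    obtain ⟨π, hπ⟩ := h2 γ₀
    obtain ⟨π', hπ'⟩ := hγ γ₀
    have a1 : ∀ p j t, Dt (H p (π' j) t) (e t) (gmap γ₀.toRingEquiv W₀) =
        Dt (H (π p) j t) (e t) W₀ := fun p j t => by
      simp only [hH, hG', ← hπ', hπ]
    have a2 := Equiv.sum_comp π fun p => ∑ j, ∑ t, c t * Dt (H p j t) (e t) W₀
    have a3 := fun p => Equiv.sum_comp π' fun j =>
      ∑ t, c t * Dt (H p j t) (e t) (gmap γ₀.toRingEquiv W₀)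
    simp only [hf, ← a3, a1, a2, dinf_gmap, le_refl])
  obtain ⟨W₁, rfl⟩ := gal_descent W₀ fun γ₀ v hv => i2 γ₀.symm hv
  have hinv : Inv s W₁ := fun α hα v hv => by
    obtain ⟨w, hw, rfl⟩ := i1 _ hα.inv hv
    rwa [mulVecLin_apply, mulVec_mulVec, mul_nonsing_inv _ hα.1, one_mulVec]
  have f0 : 0 ≤ f (xt kk W₁) := by
    have a1 : ∀ p j t, Dt (H p j t) (e t) (xt kk W₁) = Dt (G t) (e t) W₁ := fun p j t => by
      obtain ⟨Y, hY⟩ := inv_dom hinv (isBas_basMat W₁) (hΨ p)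
      rw [Dt_xt, hH, Dt_inv (hΨ p).1.ne_zero (isBas_basMat W₁) hY,
        Dt_map (F := ℚ) _ (algebraMap kk (D p)).injective (fun _ => rfl), hG',
        Dt_map (γ j : kk →+* kk) (γ j).injective (γ j).commutes]
    simp only [hf, a1, hsum, dinf_xt, ← mul_sub]
    exact mul_nonneg N0.le (sub_nonneg.2 (hfeas W₁ hinv))
  choose φ hφ using fun p => exists_spec fun a : J × T => (H p a.1 a.2).adjugate
  have eH : ∀ p j t, (H p j t).map (mapRingHom (φ p : D p →+* kk)) =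
      ((Ψ p).map (φ p : D p →+* kk)).map C * G' j t := fun p j t => by
    rw [hH, Sym_push (φ p : D p →+* kk) (RingHom.id kk) (φ p).commutes, Sym_id]
    exact congrArg _ (Sym_id _)
  have nH : ∀ p j t, ((H p j t).map (mapRingHom (φ p : D p →+* kk))).det.natTrailingDegree =
      (G t).det.natTrailingDegree := fun p j t => by
    rw [eH, natTrailingDegree_det_mul ((hΨ p).map _).1.ne_zero, nG]
  have dH : ∀ p j t (W : Submodule ℚ (Fin n → ℚ)),
      Dt ((H p j t).map (mapRingHom (φ p : D p →+* kk))) (e t) W = Dt (H p j t) (e t) W :=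
    fun p j t W => by
      have a1 : (H p j t).det.natTrailingDegree = (G t).det.natTrailingDegree := by
        rw [hH, natTrailingDegree_det_mul (hΨ p).1.ne_zero,
          natTrailingDegree_det_map _ (algebraMap kk (D p)).injective, nG]
      have a2 : ((H p j t).map (mapRingHom (φ p : D p →+* kk))).adjugate =
          (H p j t).adjugate.map (mapRingHom (φ p : D p →+* kk)) :=
        (RingHom.map_adjugate _ _).symm
      rw [Dt, Dt, nH, a1, a2, hφ p (j, t)]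
  refine ⟨PP × J × T, inferInstance,
    fun k => (H k.1 k.2.1 k.2.2).map (mapRingHom (φ k.1 : D k.1 →+* kk)), fun k => e k.2.2,
    fun k => N⁻¹ * c k.2.2, fun k => ?_, fun k => mul_nonneg (inv_nonneg.2 N0.le) (hc _),
    fun W => ?_, ?_⟩
  · simp only [eH]
    exact (tG _ _).aut_mul ((hΨ _).map _)
  · have a1 := f0.trans (hmin (xt kk W))
    simp only [hf, Dt_xt, dinf_xt, sub_nonneg] at a1
    simp only [Fintype.sum_prod_type, dH, mul_assoc, ← Finset.mul_sum]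
    exact (le_inv_mul_iff₀ N0).2 a1
  · simp only [Fintype.sum_prod_type, cost, nH, mul_assoc, ← Finset.mul_sum, hsum]
    exact inv_mul_cancel_left₀ N0.ne' _

end Pool.Agent.Work.MP_913e71_al.Pos
end

-- merged part: Pool.Agent.Work.MP_913e71_al.Pos.LowR
section
/-! The two sided estimate for real lattices closed under the bracket.

PLAN for `type_fd'`.  For each `o` choose `z ≠ 0` with `v z ≤ 1` and `v (z * ψ i j) ≤ 1` (the inverse of an entry of largest absolute value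
if that is `> 1`, else `1`), `G = z • ψ`; `adj G = det G • G⁻¹`, `G⁻¹ = z⁻¹ • ψ⁻¹`; `mnr (c • B) I = c ^ m * mnr B I` (`Mu_smul`).
PLAN for `padic_types`, `arch_types`.  `type_fd'` with `exists_padic_abs`, `ε = peps p`, `m₀ = 0` (`ψ⁻¹ *ᵥ br .. = s' i j` is integral);
and with `L = ℂ` (algebra through `ι`), `v` the norm, `ε o j = j`, `m₀` larger than `1` and all `|s i j l|`.
PLAN for `lr_types_real`.  `T = T₁ ⊕ T₂`.  Given `g`: `exists_carry_kk`, `rat_change` for each `W ∈ S` with `b = zbas (LW ⊤ W)`,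
`prod_formula` for `A = {det ψ} ∪ {det (Y W)}`.  For `j : J` let `ψ j = ψ.map (γ j)`; `(ψ j)⁻¹ * b = b' * ((Y.map (γ j)))⁻¹`, so for the
`I` with a `p`-adic unit minor of `b'`: `- log (v p (γ j (det Y))) ≤ ∑ c Dt + peps p _`.  `α j = (ψ j).map ι * g⁻¹` is a complex
automorphism with `(α j)⁻¹ * b = b * Z * (Y.map (ι ∘ γ j))⁻¹`; for an `I` with `mnr b I ≠ 0` (an integer, so of norm `≥ 1`):
`log |det Z| - log ‖ι (γ j (det Y))‖ ≤ ∑ c Dt + C`.  Take `c = (card J)⁻¹ • (∑ j, ∑ p ∈ P, c (p, j), ∑ j, c j)`; `sum_peps_le`.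
PLAN for `lr_real`.  As `lr_main` in `LowerLR.lean`, with `𝒲 = {W // Inv s W}` (`inv_top`), index type `Option T`.  Upper bound:
`symmetrize`, `upper_lr`, `exists_square_basis`, `g = Q⁻¹ • Y`, `index_eq_det`, `lieLat_of_mem`.  Lower bound: `minkowski` for
`X = g * b' = b * Z`, `sz_mul`, `cov_top_le`. -/

namespace Pool.Agent.Work.MP_913e71_al.Pos

open Matrix Polynomial Module

variable {n : ℕ}

lemma LowR_z {L κ : Type} [Field L] [Fintype κ] (v : AbsoluteValue L ℝ) (a : κ → L) :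
    ∃ z : L, z ≠ 0 ∧ v z ≤ 1 ∧ ∀ i, v (z * a i) ≤ 1 := by
  obtain ⟨k, hk⟩ := Finite.exists_max fun k : Option κ => v (k.elim 1 a)
  have h1 : 1 ≤ v (k.elim 1 a) := by simpa using hk none
  have h0 : 0 < v (k.elim 1 a) := one_pos.trans_le h1
  refine ⟨(k.elim 1 a)⁻¹, inv_ne_zero ((v.pos_iff).1 h0), ?_, fun i => ?_⟩
  · rw [map_inv₀]
    exact inv_le_one_of_one_le₀ h1
  · rw [map_mul, map_inv₀, inv_mul_le_iff₀ h0, mul_one]
    exact hk (some i)

lemma LowR_adj {L : Type} [Field L] {ψ : Matrix (Fin n) (Fin n) L} (h : ψ.det ≠ 0) {z : L}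
    (hz : z ≠ 0) : (z • ψ).adjugate = ((z • ψ).det * z⁻¹) • ψ⁻¹ := by
  have e : (z • ψ) * (z⁻¹ • ψ⁻¹) = 1 := by
    rw [smul_mul_smul_comm, mul_inv_cancel₀ hz, one_smul, mul_nonsing_inv _ (Ne.isUnit h)]
  rw [← Matrix.mul_one (z • ψ).adjugate, ← e, ← Matrix.mul_assoc, adjugate_mul, smul_mul_assoc,
    Matrix.one_mul, smul_smul]

lemma LowR_carry {L : Type} [Field L] {s s' : Fin n → Fin n → Fin n → ℤ}
    {ψ : Matrix (Fin n) (Fin n) L} (h0 : ψ.det ≠ 0) (h : Carry s' s ψ) (i j l : Fin n) :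
    (ψ⁻¹ *ᵥ br s (ψ.col i) (ψ.col j)) l = (s' i j l : L) := by
  rw [← h i j, mulVec_mulVec, nonsing_inv_mul _ (Ne.isUnit h0), one_mulVec]

lemma LowR_avg {J : Type} [Fintype J] [Nonempty J] {x y : J → ℝ} {B : ℝ} (h0 : ∑ j, x j = 0)
    (h : ∀ j, y j ≤ -x j + B) : (Fintype.card J : ℝ)⁻¹ * ∑ j, y j ≤ B := by
  have h1 : ∑ j, y j ≤ ∑ j, (-x j + B) := Finset.sum_le_sum fun j _ => h j
  rw [Finset.sum_add_distrib, Finset.sum_neg_distrib, h0, Finset.sum_const, Finset.card_univ,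
    nsmul_eq_mul, neg_zero, zero_add] at h1
  rwa [inv_mul_le_iff₀ (Nat.cast_pos.2 Fintype.card_pos)]

lemma LowR_sum {J T₁ T₂ : Type} [Fintype J] [Fintype T₁] [Fintype T₂] (P : Finset Nat.Primes)
    (a : ℝ) (c₁ : Nat.Primes → J → T₁ → ℝ) (c₂ : J → T₂ → ℝ) (k : T₁ ⊕ T₂ → ℝ) :
    ∑ t, (a * ∑ j, Sum.elim (fun t => ∑ p ∈ P, c₁ p j t) (c₂ j) t) * k t =
      a * ∑ j, (∑ p ∈ P, ∑ t, c₁ p j t * k (.inl t) + ∑ t, c₂ j t * k (.inr t)) := by
  simp only [mul_assoc, ← Finset.mul_sum, Finset.sum_mul]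
  rw [Finset.sum_comm]
  refine congrArg (a * ·) (Finset.sum_congr rfl fun j _ => ?_)
  rw [Fintype.sum_sum_type]
  simp only [Sum.elim_inl, Sum.elim_inr, Finset.sum_mul]
  rw [Finset.sum_comm]

lemma LowR_move {L ι : Type} [Field L] [Fintype ι] [DecidableEq ι] {ψ : Matrix (Fin n) (Fin n) L}
    (h0 : ψ.det ≠ 0) {b b' : Matrix (Fin n) ι L} {Y : Matrix ι ι L} (hY : Y.det ≠ 0)
    (h : ψ * b' = b * Y) : ψ⁻¹ * b = b' * Y⁻¹ := by
  rw [← Matrix.mul_nonsing_inv_cancel_right Y b (Ne.isUnit hY), ← h, Matrix.mul_assoc,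
    Matrix.nonsing_inv_mul_cancel_left _ _ (Ne.isUnit h0)]

lemma LowR_dinv {L ι : Type} [Field L] [Fintype ι] [DecidableEq ι] (Y : Matrix ι ι L) :
    Y⁻¹.det = Y.det⁻¹ := by
  rw [det_nonsing_inv, Ring.inverse_eq_inv']

lemma LowR_conj {R R' ι : Type} [CommRing R] [CommRing R'] [Fintype ι] (f : R →+* R')
    {ψ : Matrix (Fin n) (Fin n) R} {b b' : Matrix (Fin n) ι ℤ} {Y : Matrix ι ι R}
    (h : ψ * b'.map (Int.cast : ℤ → R) = b.map (Int.cast : ℤ → R) * Y) :
    ψ.map f * b'.map (Int.cast : ℤ → R') = b.map (Int.cast : ℤ → R') * Y.map f := by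
  rw [← InvS_int f b, ← InvS_int f b', ← Matrix.map_mul, ← Matrix.map_mul, h]

lemma LowR_rat {R ι : Type} [Field R] [Algebra ℚ R] (b : Matrix (Fin n) ι ℤ) :
    (b.map (Int.cast : ℤ → ℚ)).map (algebraMap ℚ R) = b.map (Int.cast : ℤ → R) :=
  Matrix.ext fun i j => by simp

theorem type_fd' (s : Fin n → Fin n → Fin n → ℤ) {L Ω : Type} [Field L] [Algebra kk L]
    (v : Ω → AbsoluteValue L ℝ) (ε : Ω → ℕ → ℝ) (hε0 : ∀ o j, 0 ≤ ε o j)
    (hεm : ∀ o, Monotone (ε o)) (hεa : ∀ a b, ∃ c, ∀ o, ε o a + ε o b ≤ ε o c) (m₀ : ℕ)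
    (hadd : ∀ o x y, v o (x + y) ≤ Real.exp (ε o m₀) * max (v o x) (v o y))
    (hC : ∀ a : kk, ∃ m, ∀ o, v o (algebraMap kk L a) ≤ Real.exp (ε o m))
    (ψ : Ω → Matrix (Fin n) (Fin n) L) (hdet : ∀ o, (ψ o).det ≠ 0)
    (hLie : ∀ o i j l, v o (((ψ o)⁻¹ *ᵥ br s ((ψ o).col i) ((ψ o).col j)) l) ≤
      Real.exp (ε o m₀)) :
    ∃ (T : Type) (_ : Fintype T) (Gt : T → Matrix (Fin n) (Fin n) kk[X]) (e : T → ℕ),
      (∀ t, IsType s (Gt t) (e t)) ∧
      ∃ (m₁ : ℕ) (mb : (m : ℕ) → Matrix (Fin n) (Fin m) ℚ → ℕ), ∀ o, ∃ c : T → ℝ,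
        (∀ t, 0 ≤ c t) ∧
        ∑ t, c t * cost (Gt t) (e t) ≤ -Real.log (v o (ψ o).det) + ε o m₁ ∧
        ∀ (m : ℕ) (b : Matrix (Fin n) (Fin m) ℚ) (W : Submodule ℚ (Fin n → ℚ)), IsBas W b →
          ∀ I, mnr ((ψ o)⁻¹ * b.map (fun q => algebraMap kk L (q : kk))) I ≠ 0 →
            Real.log (v o (mnr ((ψ o)⁻¹ * b.map (fun q => algebraMap kk L (q : kk))) I)) ≤
              ∑ t, c t * Dt (Gt t) (e t) W + ε o (mb m b) := by
  choose z z0 z1 z2 using fun o => LowR_z (v o) fun p : Fin n × Fin n => ψ o p.1 p.2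
  have hd : ∀ o, (z o • ψ o).det = z o ^ n * (ψ o).det := fun o => by
    rw [det_smul, Fintype.card_fin]
  have hd0 : ∀ o, (z o • ψ o).det ≠ 0 := fun o => by
    rw [hd]
    exact mul_ne_zero (pow_ne_zero _ (z0 o)) (hdet o)
  obtain ⟨T, _, Gt, e, h1, -, m₁, mb, h3⟩ := type_fd s v ε hε0 hεm hεa m₀ hadd hC
    (fun o => z o • ψ o) z (fun o i j => z2 o (i, j)) z1 z0 hd0 (fun o i j l => by
      have e : ∀ i, (z o • ψ o).col i = z o • (ψ o).col i := fun i => rfl
      rw [LowR_adj (hdet o) (z0 o), e, e, Carry_smul, smul_mulVec, mulVec_smul, smul_smul,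
        Pi.smul_apply, smul_eq_mul, mul_assoc _ (z o)⁻¹, inv_mul_cancel_left₀ (z0 o), map_mul,
        mul_comm]
      exact mul_le_mul_of_nonneg_right (hLie o i j l) ((v o).nonneg _))
  refine ⟨T, inferInstance, Gt, e, h1, m₁, mb, fun o => ?_⟩
  obtain ⟨c, c0, c1, c2⟩ := h3 o
  have v0 : ∀ {x : L}, x ≠ 0 → v o x ≠ 0 := fun h => (v o).ne_zero h
  refine ⟨c, c0, ?_, fun m b W hb I hI => ?_⟩
  · rw [hd, map_mul, map_pow, Real.log_mul (pow_ne_zero _ (v0 (z0 o))) (v0 (hdet o)),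
      Real.log_pow] at c1
    linarith
  · have h := c2 m b W hb I
    have h0 := mul_ne_zero (hd0 o) (inv_ne_zero (z0 o))
    rw [LowR_adj (hdet o) (z0 o), Matrix.smul_mul, Mu_smul, Fintype.card_fin] at h
    have h := h (mul_ne_zero (pow_ne_zero _ h0) hI)
    rw [map_mul, map_pow, Real.log_mul (pow_ne_zero _ (v0 h0)) (v0 hI), Real.log_pow, map_mul,
      Real.log_mul (v0 (hd0 o)) (v0 (inv_ne_zero (z0 o))), map_inv₀, Real.log_inv] at h
    linarith

theorem padic_types (s : Fin n → Fin n → Fin n → ℤ) :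
    ∃ v : Nat.Primes → AbsoluteValue kk ℝ,
      (∀ (p : Nat.Primes) (z : ℤ), v p (z : kk) = ‖(z : ℤ_[p])‖) ∧
      ∃ (T : Type) (_ : Fintype T) (Gt : T → Matrix (Fin n) (Fin n) kk[X]) (e : T → ℕ),
        (∀ t, IsType s (Gt t) (e t)) ∧
        ∃ (m₁ : ℕ) (mb : (m : ℕ) → Matrix (Fin n) (Fin m) ℚ → ℕ),
          ∀ (p : Nat.Primes) (ψ : Matrix (Fin n) (Fin n) kk), ψ.det ≠ 0 → (∃ s', Carry s' s ψ) →
            ∃ c : T → ℝ, (∀ t, 0 ≤ c t) ∧
              ∑ t, c t * cost (Gt t) (e t) ≤ -Real.log (v p ψ.det) + peps p m₁ ∧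
              ∀ (m : ℕ) (b : Matrix (Fin n) (Fin m) ℚ) (W : Submodule ℚ (Fin n → ℚ)), IsBas W b →
                ∀ I, mnr (ψ⁻¹ * b.map (algebraMap ℚ kk)) I ≠ 0 →
                  Real.log (v p (mnr (ψ⁻¹ * b.map (algebraMap ℚ kk)) I)) ≤
                    ∑ t, c t * Dt (Gt t) (e t) W + peps p (mb m b) := by
  obtain ⟨v, v1, v2, v3⟩ := exists_padic_abs
  have k : ∀ (p : Nat.Primes) (x : ℝ), 0 ≤ x → x ≤ Real.exp (peps p 0) * x := fun p x hx =>
    le_mul_of_one_le_left hx (Real.one_le_exp (peps_nonneg p 0))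
  have v4 : ∀ p (z : ℤ), v p (z : kk) ≤ 1 := fun p z => (v2 p z).trans_le (PadicInt.norm_le_one _)
  obtain ⟨T, _, Gt, e, h1, m₁, mb, h3⟩ := type_fd' s (L := kk)
    (Ω := Nat.Primes × {ψ : Matrix (Fin n) (Fin n) kk // ψ.det ≠ 0 ∧ ∃ s', Carry s' s ψ})
    (fun o => v o.1) (fun o => peps o.1) (fun o => peps_nonneg o.1) (fun o => peps_mono o.1)
    (fun a b => ⟨a + b, fun o => peps_add o.1 a b⟩) 0
    (fun o x y => (v1 o.1 x y).trans (k _ _ (le_max_of_le_left ((v o.1).nonneg x))))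
    (fun a => (v3 a).imp fun m h o => h o.1) (fun o => o.2.1) (fun o => o.2.2.1)
    (fun o i j l => by
      obtain ⟨s', hs⟩ := o.2.2.2
      rw [LowR_carry o.2.2.1 hs]
      exact (v4 _ _).trans (Real.one_le_exp (peps_nonneg _ 0)))
  refine ⟨v, v2, T, inferInstance, Gt, e, h1, m₁, mb, fun p ψ h0 hψ => ?_⟩
  obtain ⟨c, c0, c1, c2⟩ := h3 (p, ⟨ψ, h0, hψ⟩)
  refine ⟨c, c0, c1, fun m b W hb I => ?_⟩
  rw [show b.map (algebraMap ℚ kk) = b.map (fun q => algebraMap kk kk (q : kk)) from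
    Matrix.ext fun i j => by simp]
  exact c2 m b W hb I

theorem arch_types (s : Fin n → Fin n → Fin n → ℤ) :
    ∃ (T : Type) (_ : Fintype T) (Gt : T → Matrix (Fin n) (Fin n) kk[X]) (e : T → ℕ),
      (∀ t, IsType s (Gt t) (e t)) ∧
      ∃ (C₁ : ℝ) (Cb : (m : ℕ) → Matrix (Fin n) (Fin m) ℚ → ℝ),
        ∀ α : Matrix (Fin n) (Fin n) ℂ, IsAut s α →
          ∃ c : T → ℝ, (∀ t, 0 ≤ c t) ∧
            ∑ t, c t * cost (Gt t) (e t) ≤ -Real.log ‖α.det‖ + C₁ ∧
            ∀ (m : ℕ) (b : Matrix (Fin n) (Fin m) ℚ) (W : Submodule ℚ (Fin n → ℚ)), IsBas W b →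
              ∀ I, mnr (α⁻¹ * b.map (algebraMap ℚ ℂ)) I ≠ 0 →
                Real.log ‖mnr (α⁻¹ * b.map (algebraMap ℚ ℂ)) I‖ ≤
                  ∑ t, c t * Dt (Gt t) (e t) W + Cb m b := by
  obtain ⟨ι⟩ := exists_embedding
  let _ : Algebra kk ℂ := ι.toAlgebra
  have ex : ∀ (x : ℝ) (m : ℕ), x ≤ m + 1 → x ≤ Real.exp m := fun x m h =>
    h.trans (Real.add_one_le_exp _)
  obtain ⟨T, _, Gt, e, h1, m₁, mb, h3⟩ := type_fd' s (L := ℂ)
    (Ω := {α : Matrix (Fin n) (Fin n) ℂ // IsAut s α})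
    (fun _ => NormedField.toAbsoluteValue ℂ) (fun _ j => j) (fun _ j => j.cast_nonneg)
    (fun _ => Nat.mono_cast) (fun a b => ⟨a + b, fun _ => (Nat.cast_add a b).ge⟩)
    (1 + ∑ q : Fin n × Fin n × Fin n, (s q.1 q.2.1 q.2.2).natAbs)
    (fun o x y => by
      change ‖x + y‖ ≤ _ * max ‖x‖ ‖y‖
      refine ((norm_add_le x y).trans ?_).trans (mul_le_mul_of_nonneg_right (ex 2 _ ?_)
        (le_max_of_le_left (norm_nonneg x)))
      · linarith [le_max_left ‖x‖ ‖y‖, le_max_right ‖x‖ ‖y‖]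
      · rw [Nat.cast_add, Nat.cast_one]
        linarith [Nat.cast_nonneg (α := ℝ)
          (∑ q : Fin n × Fin n × Fin n, (s q.1 q.2.1 q.2.2).natAbs)])
    (fun a => ⟨⌈‖ι a‖⌉₊, fun _ => ex _ _ ((Nat.le_ceil _).trans (le_add_of_nonneg_right zero_le_one))⟩)
    (fun o => o.1) (fun o => o.2.1.ne_zero)
    (fun o i j l => by
      rw [LowR_carry o.2.1.ne_zero o.2.2]
      change ‖((s i j l : ℤ) : ℂ)‖ ≤ _
      refine ex _ _ ?_
      have h : (s i j l).natAbs ≤ ∑ q : Fin n × Fin n × Fin n, (s q.1 q.2.1 q.2.2).natAbs :=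
        Finset.single_le_sum (f := fun q : Fin n × Fin n × Fin n => (s q.1 q.2.1 q.2.2).natAbs)
          (fun _ _ => Nat.zero_le _) (Finset.mem_univ (i, j, l))
      rw [Complex.norm_intCast, ← Int.cast_abs, ← Nat.cast_natAbs]
      exact_mod_cast h.trans (by omega))
  refine ⟨T, inferInstance, Gt, e, h1, m₁, fun m b => mb m b, fun α hα => ?_⟩
  obtain ⟨c, c0, c1, c2⟩ := h3 ⟨α, hα⟩
  refine ⟨c, c0, c1, fun m b W hb I => ?_⟩
  rw [show b.map (algebraMap ℚ ℂ) = b.map (fun q => algebraMap kk ℂ (q : kk)) from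
    Matrix.ext fun i j => by simp]
  exact c2 m b W hb I

theorem lr_types_real (s : Fin n → Fin n → Fin n → ℤ) :
    ∃ (T : Type) (_ : Fintype T) (Gt : T → Matrix (Fin n) (Fin n) kk[X]) (e : T → ℕ),
      (∀ t, IsType s (Gt t) (e t)) ∧
      ∀ S : Finset (Submodule ℚ (Fin n → ℚ)), (∀ W ∈ S, Inv s W) → ∃ C₀ : ℝ,
        ∀ g : Matrix (Fin n) (Fin n) ℝ, LieLat s g → ∃ c : T → ℝ, (∀ t, 0 ≤ c t) ∧
          ∑ t, c t * cost (Gt t) (e t) ≤ Real.log |g.det| + C₀ ∧
          ∀ W ∈ S, ∃ (b' : Matrix (Fin n) (Fin (finrank ℤ (LW ⊤ W))) ℤ)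
            (Z : Matrix (Fin (finrank ℤ (LW ⊤ W))) (Fin (finrank ℤ (LW ⊤ W))) ℝ), Z.det ≠ 0 ∧
            g * b'.map (Int.cast : ℤ → ℝ) = (zbas (LW ⊤ W)).map (Int.cast : ℤ → ℝ) * Z ∧
            Real.log |Z.det| ≤ ∑ t, c t * Dt (Gt t) (e t) W + C₀ := by
  classical
  obtain ⟨v, hv, T₁, _, G₁, e₁, t₁, m₁, mb, H₁⟩ := padic_types s
  obtain ⟨T₂, _, G₂, e₂, t₂, C₁, Cb, H₂⟩ := arch_types s
  obtain ⟨ι⟩ := exists_embedding
  obtain ⟨μ, hμ⟩ : ∃ μ : Submodule ℚ (Fin n → ℚ) → ℝ,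
    ∀ W, μ W = Real.log (mb _ ((zbas (LW ⊤ W)).map Int.cast)).factorial +
      |Cb _ ((zbas (LW ⊤ W)).map Int.cast)| := ⟨_, fun _ => rfl⟩
  have μ0 : ∀ W, 0 ≤ μ W := fun W =>
    hμ W ▸ add_nonneg (Real.log_natCast_nonneg _) (abs_nonneg _)
  refine ⟨T₁ ⊕ T₂, inferInstance, Sum.elim G₁ G₂, Sum.elim e₁ e₂, fun t => t.rec t₁ t₂,
    fun S hS => ⟨Real.log m₁.factorial + |C₁| + ∑ W ∈ S, μ W, fun g ⟨g0, s', hg⟩ => ?_⟩⟩
  obtain ⟨ψ, ψ0, hψ⟩ := exists_carry_kk g0 hg
  choose b' Y Z y0 z0 a1 a2 a3 using fun W : S =>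
    rat_change g0 hg ψ0 hψ (hS W.1 W.2) (isBas_zbas (LW ⊤ W.1))
  obtain ⟨J, _, _, γ, P, hP⟩ := prod_formula ι v hv
    (insert ψ.det (Finset.univ.image fun W : S => (Y W).det)) (fun a ha => by
      rcases Finset.mem_insert.1 ha with rfl | ha
      · exact ψ0
      · obtain ⟨W, -, rfl⟩ := Finset.mem_image.1 ha
        exact y0 W)
  let f : J → kk →+* kk := fun j => (γ j : kk →+* kk)
  have fd : ∀ j {m : ℕ} (A : Matrix (Fin m) (Fin m) kk), (A.map (f j)).det = γ j A.det :=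
    fun j _ A => ((f j).map_det A).symm
  have fi : ∀ j {m : ℕ} (A : Matrix (Fin m) (Fin m) kk), ((A.map (f j)).map ι).det = ι (γ j A.det) :=
    fun j _ A => (ι.map_det _).symm.trans (congrArg ι (fd j A))
  have f0 : ∀ j {a : kk}, a ≠ 0 → γ j a ≠ 0 := fun j _ h => (map_ne_zero (γ j)).2 h
  have i0 : ∀ j {a : kk}, a ≠ 0 → ι (γ j a) ≠ 0 := fun j _ h => (map_ne_zero ι).2 (f0 j h)
  have rd : ∀ {m : ℕ} (A : Matrix (Fin m) (Fin m) ℝ), (A.map Complex.ofRealHom).det = (A.det : ℝ) :=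
    fun A => (Complex.ofRealHom.map_det A).symm
  have gu : IsUnit (g.map Complex.ofRealHom).det :=
    Ne.isUnit (by rw [rd]; exact Complex.ofReal_ne_zero.2 g0)
  have ad : ∀ j, ((ψ.map (f j)).map ι * (g.map Complex.ofRealHom)⁻¹).det =
      ι (γ j ψ.det) * ((g.det : ℝ) : ℂ)⁻¹ := fun j => by rw [det_mul, fi, LowR_dinv, rd]
  choose c₁ p0 p1 p2 using fun p j => H₁ p (ψ.map (f j)) (by rw [fd]; exact f0 j ψ0)
    ⟨s', hψ.map _⟩
  choose c₂ q0 q1 q2 using fun j => H₂ ((ψ.map (f j)).map ι * (g.map Complex.ofRealHom)⁻¹)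
    ⟨Ne.isUnit (by
      rw [ad]
      exact mul_ne_zero (i0 j ψ0) (inv_ne_zero (Complex.ofReal_ne_zero.2 g0))),
      ((hψ.map _).map ι).mul ((hg.map _).inv gu)⟩
  refine ⟨fun t => (Fintype.card J : ℝ)⁻¹ * ∑ j, Sum.elim (fun t => ∑ p ∈ P, c₁ p j t) (c₂ j) t,
    fun t => mul_nonneg (inv_nonneg.2 (Nat.cast_nonneg _)) (Finset.sum_nonneg fun j _ =>
      t.rec (fun t => Finset.sum_nonneg fun p _ => p0 p j t) (q0 j)), ?_, fun W hW => ?_⟩
  · rw [LowR_sum]
    refine LowR_avg (hP _ (Finset.mem_insert_self _ _)) fun j => ?_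
    have h1 := Finset.sum_le_sum fun p (_ : p ∈ P) => p1 p j
    have h2 := q1 j
    rw [ad, norm_mul, norm_inv, Complex.norm_real, Real.norm_eq_abs,
      Real.log_mul (norm_ne_zero_iff.2 (i0 j ψ0)) (inv_ne_zero (abs_ne_zero.2 g0)),
      Real.log_inv] at h2
    rw [Finset.sum_add_distrib, Finset.sum_neg_distrib, fd] at h1
    simp only [Sum.elim_inl, Sum.elim_inr]
    linarith [sum_peps_le P m₁, Finset.sum_nonneg fun W (_ : W ∈ S) => μ0 W, le_abs_self C₁]
  · obtain ⟨W, rfl⟩ : ∃ W' : S, W'.1 = W := ⟨⟨W, hW⟩, rfl⟩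
    refine ⟨b' W, Z W, z0 W, a2 W, ?_⟩
    have hb := (isBas_zbas (LW ⊤ W.1)).rat full_top
    have h0 := hP _ (Finset.mem_insert_of_mem (Finset.mem_image_of_mem _ (Finset.mem_univ W)))
    rw [LowR_sum, ← sub_le_iff_le_add, ← neg_le_neg_iff, ← mul_neg, ← Finset.sum_neg_distrib]
    refine LowR_avg (x := fun j => -(Real.log ‖ι (γ j (Y W).det)‖ +
      ∑ p ∈ P, Real.log (v p (γ j (Y W).det)))) (by rw [Finset.sum_neg_distrib, h0, neg_zero])
      fun j => ?_
    have k1 := LowR_move (by rw [fd]; exact f0 j ψ0) (by rw [fd]; exact f0 j (y0 W))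
      (LowR_conj (f j) (a1 W))
    have k2 := LowR_move (by rw [fi]; exact i0 j ψ0) (by rw [fi]; exact i0 j (y0 W))
      (LowR_conj ι (LowR_conj (f j) (a1 W)))
    have h1 := Finset.sum_le_sum (s := P) (f := fun p => -Real.log (v p (γ j (Y W).det)))
      (g := fun p => ∑ t, c₁ p j t * Dt (G₁ t) (e₁ t) W.1 +
        peps p (mb _ ((zbas (LW ⊤ W.1)).map Int.cast))) fun p _ => by
      obtain ⟨I, hI⟩ := a3 W p
      have h := p2 p j _ _ W.1 hb I
      have hI0 : mnr (b' W) I ≠ 0 := fun e => by simp [e] at hI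
      rw [LowR_rat, k1, mnr_mul_right, CovB_mnr, LowR_dinv, fd] at h
      have h := h (mul_ne_zero (Int.cast_ne_zero.2 hI0) (inv_ne_zero (f0 j (y0 W))))
      rwa [map_mul, hv, hI, one_mul, map_inv₀, Real.log_inv] at h
    obtain ⟨I, hI⟩ := exists_mnr_ne_zero _ (isBas_zbas (LW ⊤ W.1)).1
    have h2 := q2 j _ _ W.1 hb I
    have z1 : (((Z W).det : ℝ) : ℂ) ≠ 0 := Complex.ofReal_ne_zero.2 (z0 W)
    rw [LowR_rat, Matrix.mul_inv_rev, nonsing_inv_nonsing_inv _ gu, Matrix.mul_assoc, k2,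
      ← Matrix.mul_assoc, LowR_conj Complex.ofRealHom (a2 W), mnr_mul_right, mnr_mul_right,
      CovB_mnr, LowR_dinv, fi, rd] at h2
    have h2 := h2 (mul_ne_zero (mul_ne_zero (Int.cast_ne_zero.2 hI) z1)
      (inv_ne_zero (i0 j (y0 W))))
    have m1 := CovB_one_le hI
    rw [norm_mul, norm_mul, norm_inv, Complex.norm_real, Real.norm_eq_abs, Complex.norm_intCast,
      Real.log_mul (mul_ne_zero (one_pos.trans_le m1).ne' (abs_ne_zero.2 (z0 W)))
        (inv_ne_zero (norm_ne_zero_iff.2 (i0 j (y0 W)))),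
      Real.log_mul (one_pos.trans_le m1).ne' (abs_ne_zero.2 (z0 W)), Real.log_inv] at h2
    rw [Finset.sum_add_distrib, Finset.sum_neg_distrib] at h1
    simp only [Sum.elim_inl, Sum.elim_inr]
    linarith [sum_peps_le P (mb _ ((zbas (LW ⊤ W.1)).map Int.cast)), hμ W.1, Real.log_nonneg m1,
      Finset.single_le_sum (fun W _ => μ0 W) hW, abs_nonneg C₁,
      Real.log_natCast_nonneg m₁.factorial,
      le_abs_self (Cb _ ((zbas (LW ⊤ W.1)).map Int.cast))]

theorem lr_real {d : Fin n → ℕ} (hd : ∀ i, 1 ≤ d i) {s : Fin n → Fin n → Fin n → ℤ}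
    (hgr : ∀ i j l, s i j l ≠ 0 → d i + d j ≤ d l) (hG : Gen d s) :
    ∃ (β : ℚ) (C : ℝ), 1 ≤ C ∧ ∀ r : ℝ, 1 ≤ r →
      (∃ g : Matrix (Fin n) (Fin n) ℝ, LieLat s g ∧ (∀ v ∈ RZ d (r / C) g, v = 0) ∧
        |g.det| ≤ C * r ^ (β : ℝ)) ∧
      ∀ g : Matrix (Fin n) (Fin n) ℝ, LieLat s g → (∀ v ∈ RZ d r g, v = 0) →
        r ^ (β : ℝ) ≤ C * |g.det| := by
  classical
  obtain ⟨T, _, Gt, et, h1, h2⟩ := lr_types_real s
  obtain ⟨G, g0, g1⟩ : ∃ G : Option T → Matrix (Fin n) (Fin n) kk[X],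
    G none = (X : kk[X]) • 1 ∧ ∀ t, G (some t) = Gt t := ⟨fun o => o.elim _ Gt, rfl, fun _ => rfl⟩
  obtain ⟨e, e0, e1⟩ : ∃ e : Option T → ℕ, e none = 0 ∧ ∀ t, e (some t) = et t :=
    ⟨fun o => o.elim 0 et, rfl, fun _ => rfl⟩
  have hT : ∀ t, IsType s (G t) (e t) := by
    rintro (_ | t)
    · rw [g0, e0]
      exact isType_X s
    · rw [g1, e1]
      exact h1 t
  obtain ⟨β, c, S, c0, c1, c2, c3⟩ := lp_min
    (fun (W : {W : Submodule ℚ (Fin n → ℚ) // Inv s W}) t => Dt (G t) (e t) W.1)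
    (fun W => dinf d W.1) (fun t => cost (G t) (e t))
    (∑ t, n * ((G t).det.natTrailingDegree + e t) + ∑ i, d i)
    (fun W t => (abs_Dt_le (hT t).1 (e t) W.1).trans (by
      exact_mod_cast (Finset.single_le_sum (f := fun t => n * ((G t).det.natTrailingDegree + e t))
        (fun _ _ => Nat.zero_le _) (Finset.mem_univ t)).trans (Nat.le_add_right _ _)))
    (fun W => (dinf_le_sum d W.1).trans (Nat.le_add_left _ _)) none
    (fun W => (ne_or_eq W.1 ⊥).imp (fun h => by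
      rw [g0, e0, Dt_X]
      exact_mod_cast Submodule.one_le_finrank_iff.2 h)
      fun h : W.1 = ⊥ => h ▸ ⟨dinf_bot d, fun t => Dt_bot _ _⟩)
    fun c _ h => by simpa only [Dt_top (hT _).1] using h ⟨⊤, inv_top s⟩
  obtain ⟨T', _, G', e', c', s1, s2, s3, s4⟩ :=
    symmetrize hd hgr hG G e hT c c0 fun W hW => c1 ⟨W, hW⟩
  obtain ⟨C, C1, hU⟩ := upper_lr d hd s G' e' s1 c' s2 s3
  obtain ⟨C₀, h3⟩ := h2 (S.image Subtype.val) fun W hW => by
    obtain ⟨W, -, rfl⟩ := Finset.mem_image.1 hW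
    exact W.2
  obtain ⟨C₁, h4⟩ := c3 (C₀ + ∑ W ∈ S, Real.log (Ht W.1) + n * Real.log (n + 1))
  refine ⟨β, max C (Real.exp (C₁ + C₀)), le_max_of_le_left C1, fun r hr => ⟨?_, fun g hg hb => ?_⟩⟩
  · obtain ⟨L, Q, l1, Q0, -, l3, l4, l5⟩ := hU r hr
    obtain ⟨Y, y0, y1⟩ := exists_square_basis l1
    have Q1 : (0 : ℝ) < Q := Nat.cast_pos.2 Q0
    have hv : ∀ v : Fin n → ℤ, (((Q : ℝ)⁻¹ • Y.map (Int.cast : ℤ → ℝ)) *ᵥ fun i => (v i : ℝ)) =
        fun i => (((Y *ᵥ v) i : ℤ) : ℝ) / Q := fun v => by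
      rw [smul_mulVec, CovB_cast]
      funext i
      rw [Pi.smul_apply, smul_eq_mul, div_eq_inv_mul]
    have hdet : ((Q : ℝ)⁻¹ • Y.map (Int.cast : ℤ → ℝ)).det = (Q : ℝ)⁻¹ ^ n * (Y.det : ℤ) := by
      rw [det_smul, Fintype.card_fin, LowerLR_det]
    refine ⟨(Q : ℝ)⁻¹ • Y.map (Int.cast : ℤ → ℝ), lieLat_of_mem ?_ fun i j => ?_,
      fun v hb => ?_, ?_⟩
    · rw [hdet]
      exact mul_ne_zero (pow_ne_zero _ (inv_ne_zero Q1.ne')) (Int.cast_ne_zero.2 y0)
    · obtain ⟨z, z1, z2⟩ := l3 _ (Cov_col y1 i) _ (Cov_col y1 j)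
      obtain ⟨w, rfl⟩ := CovB_mem.1 (y1.2.ge z1)
      refine ⟨w, ?_⟩
      have k : ∀ i, ((Q : ℝ)⁻¹ • Y.map (Int.cast : ℤ → ℝ)).col i =
          (Q : ℝ)⁻¹ • fun l => ((Y.col i l : ℤ) : ℝ) := fun i => rfl
      rw [hv, k, k, Carry_smul, ← Lat_cast, z2]
      funext l
      simp only [Pi.smul_apply, smul_eq_mul, Int.cast_mul, Int.cast_natCast]
      field_simp
    · refine Matrix.eq_zero_of_mulVec_eq_zero y0 (l4 _ (y1.2.le (CovB_mem.2 ⟨v, rfl⟩)) fun i => ?_)
      have h := hb i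
      rw [hv] at h
      exact h.trans (pow_le_pow_left₀ (by positivity)
        (div_le_div_of_nonneg_left (by positivity) (by positivity) (le_max_left _ _)) _)
    · rw [s4, c2, index_eq_det y1, Nat.cast_natAbs, Int.cast_abs] at l5
      rw [hdet, abs_mul, abs_of_pos (by positivity), inv_pow, inv_mul_le_iff₀ (by positivity)]
      refine l5.trans ?_
      rw [mul_comm C, mul_assoc]
      exact mul_le_mul_of_nonneg_left
        (mul_le_mul_of_nonneg_right (le_max_left _ _) (by positivity)) (by positivity)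
  · have r0 : 0 < r := one_pos.trans_le hr
    obtain ⟨c', a0, a1, a2⟩ := h3 g hg
    have h5 := h4 _ (Real.log_nonneg hr) (fun o => o.elim 0 c') (fun o => o.rec le_rfl a0)
      fun W hW => by
      obtain ⟨b', Z, z0, z1, z2⟩ := a2 W.1 (Finset.mem_image_of_mem _ hW)
      obtain ⟨I, hI⟩ := exists_mnr_ne_zero _ (isBas_zbas (LW ⊤ W.1)).1
      have hX : LinearIndependent ℝ ((zbas (LW ⊤ W.1)).map (Int.cast : ℤ → ℝ) * Z).col :=
        Cov_indep (I := I) (by
          rw [mnr_mul_right, CovB_mnr]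
          exact mul_ne_zero (Int.cast_ne_zero.2 hI) z0)
      have k0 := minkowski d r0 _ hX fun y hy => by
        rw [← z1, ← mulVec_mulVec, CovB_cast] at hy
        have h0 : (fun j => (y j : ℝ)) = 0 := Matrix.mulVec_injective_iff.2 hX (by
          rw [← z1, ← mulVec_mulVec, CovB_cast, hb _ hy, mulVec_zero]
          exact (congrArg (g *ᵥ ·) (funext fun i => Int.cast_zero)).trans (mulVec_zero g))
        exact funext fun j => Int.cast_eq_zero.1 (congrFun h0 j)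
      rw [sz_mul, ← cov_eq d r (isBas_zbas _)] at k0
      have k1 := Real.log_le_log (by positivity) k0
      have k2 := Real.log_le_log (cov_pos d r0 _) (cov_top_le d hr W.1)
      rw [Real.log_div (one_pos.trans_le (one_le_Ht W.1)).ne' (by positivity), Real.log_pow] at k2
      rw [one_div, Real.log_inv, Real.log_pow,
        Real.log_mul (cov_pos d r0 _).ne' (abs_ne_zero.2 z0)] at k1
      simp only [Fintype.sum_option, Option.elim, zero_mul, zero_add, g1, e1]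
      linarith [Finset.single_le_sum (f := fun W : {W : Submodule ℚ (Fin n → ℚ) // Inv s W} =>
        Real.log (Ht W.1)) (fun W _ => Real.log_nonneg (one_le_Ht W.1)) hW]
    simp only [Fintype.sum_option, Option.elim, zero_mul, zero_add, g1, e1] at h5
    have i0 : (0 : ℝ) < |g.det| := abs_pos.2 hg.1
    refine le_trans ?_ (mul_le_mul_of_nonneg_right (le_max_right _ _) i0.le)
    rw [Real.rpow_def_of_pos r0, ← Real.exp_log i0, ← Real.exp_add]
    exact Real.exp_le_exp.2 (by linarith)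

end Pool.Agent.Work.MP_913e71_al.Pos
end

-- merged part: Pool.Agent.Work.MP_913e71_al.Pos.LieSys
section
/-! Lattices of the group and Lie rings.  `D = ∑ i, d i`.

PLAN.  `up`: `K` from `exists_bch_den`, `Λ = {a | lg a ∈ (K • g) ℤ ^ n}` is a subgroup; discrete (`discrete_of_finite`, `RZ_finite`,
`BX_nhds`), cocompact (`cover` for `K • g`, `compactSpace_quotient`).  For large `R`:
`ncard (RZ R (K • g)) * covol = ncard (BX R ∩ Λ) * covol ≤ μ (BX (C R)) ≤ C' R ^ D` (`mul_covol_le_meas`, `box_mul`, `meas_box`) and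
`real_lat_count`.
`low`: `min_det_real` for `lg '' Λ` (`span_lg`, `finite_inter`), giving `g₀`; `g = (N * N') • g₀` is a `LieLat` (`ib_br`: `N • br` maps the integer span
into itself, `lieLat_of_mem`), its points are in `lg '' Λ`, and `(N * N') • lg a` is a point of it for `a ∈ Λ`.  For large `R`:
`c R ^ D ≤ μ (BX R) ≤ ncard (BX (C R) ∩ Λ) * covol ≤ ncard (RZ (N N' C R) g) * covol`, `real_lat_count`.
`sysTwo`: `lr_real` with `gen`, as `Mal.sysTwo`.  `le_of_twoL`: `le_covolume` with `B = ball S (C r)` and systole `≥ 2 C r + 1`.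
`dom_growL`, `dom_sysL`: as in `FinInd.lean`. -/

namespace Pool.Agent.Work.MP_913e71_al.Pos

open MeasureTheory Matrix

variable {G : Type} [Group G] [TopologicalSpace G] [IsTopologicalGroup G] [MeasurableSpace G]
  [BorelSpace G] {n : ℕ} {S : Set G} (μ : Measure G) [μ.IsHaarMeasure]

/-- The lattice point with coordinates `v`. -/
noncomputable def LieSys_m (g : Matrix (Fin n) (Fin n) ℝ) : (Fin n → ℤ) →+ (Fin n → ℝ) :=
  g.mulVecLin.toAddMonoidHom.comp (MalSys_c n)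

theorem LieSys_eq (g : Matrix (Fin n) (Fin n) ℝ) (v : Fin n → ℤ) :
    (g *ᵥ fun i => (v i : ℝ)) = LieSys_m g v := rfl

theorem LieSys_inj {g : Matrix (Fin n) (Fin n) ℝ} (hg : g.det ≠ 0) :
    Function.Injective (LieSys_m g) :=
  (injective_iff_map_eq_zero _).2 fun _ h =>
    MalSys_inj ((Matrix.eq_zero_of_mulVec_eq_zero hg h).trans (map_zero _).symm)

theorem LieSys_smul (K : ℕ) (g : Matrix (Fin n) (Fin n) ℝ) (v : Fin n → ℤ) :
    LieSys_m (K • g) v = K • LieSys_m g v := Matrix.smul_mulVec K g _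

theorem LieSys_det (K : ℕ) (g : Matrix (Fin n) (Fin n) ℝ) : |(K • g).det| = K ^ n * |g.det| := by
  rw [← Nat.cast_smul_eq_nsmul ℝ, det_smul, Fintype.card_fin, abs_mul, abs_of_nonneg (by positivity)]

omit [IsTopologicalGroup G] [MeasurableSpace G] [BorelSpace G] in
theorem LieSys_top (X : LieSet G n) :
    LocallyCompactSpace G ∧ T2Space G ∧ SecondCountableTopology G :=
  ⟨(X.emb.toHomeomorphOfSurjective X.surj).isClosedEmbedding.locallyCompactSpace, X.emb.t2Space,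
    X.emb.secondCountableTopology⟩

omit [TopologicalSpace G] [IsTopologicalGroup G] [MeasurableSpace G] [BorelSpace G] in
theorem LieSys_A (M : Mal G n) {g : Matrix (Fin n) (Fin n) ℝ} (hg : g.det ≠ 0) {K : ℕ} (hK : 0 < K)
    {Λ : Set G} (h : ∀ a ∈ Λ, ∃ v, LieSys_m g v = K • M.lg a) {r : ℝ} (hr : 0 ≤ r) :
    (M.BX r ∩ Λ).Finite ∧ (M.BX r ∩ Λ).ncard ≤ (RZ M.d (K * r) g).ncard := by
  choose! f h1 using h
  have h2 : ∀ a ∈ M.BX r ∩ Λ, f a ∈ RZ M.d (K * r) g := fun a ha => by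
    have := InBox.nsmul M.hd hr ha.1 hK
    rwa [← h1 a ha.2] at this
  have h3 : Set.InjOn f (M.BX r ∩ Λ) := fun a ha b hb e =>
    M.inj (nsmul_right_injective hK.ne' ((h1 a ha.2).symm.trans (e ▸ h1 b hb.2)))
  exact ⟨(RZ_finite _ _ hg).of_injOn h2 h3,
    Set.ncard_le_ncard_of_injOn f h2 h3 (RZ_finite _ _ hg)⟩

omit [TopologicalSpace G] [IsTopologicalGroup G] [MeasurableSpace G] [BorelSpace G] in
theorem LieSys_B (M : Mal G n) {g : Matrix (Fin n) (Fin n) ℝ} (hg : g.det ≠ 0)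
    {Λ : Set G} (h : ∀ v, ∃ a ∈ Λ, M.lg a = LieSys_m g v) {r : ℝ} (hf : (M.BX r ∩ Λ).Finite) :
    (RZ M.d r g).ncard ≤ (M.BX r ∩ Λ).ncard := by
  choose f h1 h2 using h
  refine Set.ncard_le_ncard_of_injOn f (fun v hv => ⟨?_, h1 v⟩)
    (fun v _ w _ e => LieSys_inj hg ((h2 v).symm.trans (e ▸ h2 w))) hf
  show InBox M.d r (M.lg (f v))
  rw [h2]
  exact hv

theorem LieSet.up (X : LieSet G n) (hc : IsCompact S) (hS : Subgroup.closure S = ⊤) :
    ∃ C : ℝ, 1 ≤ C ∧ ∀ g : Matrix (Fin n) (Fin n) ℝ, LieLat X.M.s g →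
      ∃ Λ : Subgroup G, IsCocompactLattice Λ ∧ covolume Λ G μ ≤ ENNReal.ofReal (C * |g.det|) ∧
        ∀ r : ℝ, 1 ≤ r → (∀ v ∈ RZ X.M.d (C * r) g, v = 0) →
          ∀ x ∈ Λ, x ≠ 1 → r ≤ (wordLength S x : ℝ) := by
  obtain ⟨_, _, _⟩ := LieSys_top X
  obtain ⟨C1, h1, h2⟩ := X.ball_box hc hS
  obtain ⟨Km, h3, h4⟩ := X.M.box_mul
  obtain ⟨Cm, h5, h6⟩ := X.meas_box μ
  obtain ⟨Cl, h7, h8⟩ := real_lat_count X.M.hd
  obtain ⟨K, hK, h9⟩ := exists_bch_den X.M.q X.M.len2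
  generalize ∑ i, X.M.d i = D at h6 h8
  refine ⟨C1 + Cl * Cm * Km ^ D * K ^ n, le_add_of_le_of_nonneg h1 (by positivity), fun g hg => ?_⟩
  have hg' := hg.nsmul hK
  let Λ : Subgroup G :=
    { carrier := {a | ∃ v, LieSys_m (K • g) v = X.M.lg a}
      one_mem' := ⟨0, by rw [X.M.lg_one, map_zero]⟩
      inv_mem' := fun ⟨v, e⟩ => ⟨-v, by rw [X.M.lg_inv, map_neg, e]⟩
      mul_mem' := fun ⟨v, e⟩ ⟨v', e'⟩ => by
        obtain ⟨_, ⟨z, rfl⟩, e2⟩ := h9 _ _ (bil_br X.M.s) (LieSys_m g).range (by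
          rintro _ ⟨x, rfl⟩ _ ⟨y, rfl⟩
          exact hg.br_mem x y) _ ⟨v, rfl⟩ _ ⟨v', rfl⟩
        exact ⟨z, by rw [X.M.mul, ← e, ← e', LieSys_smul, LieSys_smul, LieSys_smul, e2]⟩ }
  have hA := fun r hr => LieSys_A X.M hg'.1 one_pos (Λ := Λ)
    (fun a ⟨v, e⟩ => ⟨v, e.trans (one_smul _ _).symm⟩) (r := r) hr
  have hd := discrete_of_finite Λ (X.BX_nhds one_pos) (hA 1 zero_le_one).1
  obtain ⟨R0, a1⟩ := X.cover hg' Λ fun _ => Iff.rfl
  have hΛ : IsCocompactLattice Λ := ⟨hd, compactSpace_quotient Λ (X.BX_compact R0) a1⟩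
  refine ⟨Λ, hΛ, ?_, fun r hr h x ⟨v, e⟩ hx => le_of_not_ge fun hl => hx (X.M.inj ?_)⟩
  · obtain ⟨R1, a2⟩ := h8 _ hg'.1
    obtain ⟨ρ, r0, r1, r2⟩ : ∃ ρ : ℝ, |R0| ≤ ρ ∧ R1 ≤ ρ ∧ 1 ≤ ρ :=
      ⟨max |R0| (max R1 1), by simp, by simp, by simp⟩
    have a3 := (mul_covol_le_meas Λ μ (K := X.M.BX ρ) (B := X.M.BX ρ)
      (fun x => (a1 x).imp fun a ha => ⟨ha.1, fun i => (ha.2 i).trans ((le_abs_self _).trans
        ((abs_pow _ _).trans_le (pow_le_pow_left₀ (abs_nonneg _) r0 _)))⟩)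
      (X.BX_compact (Km * ρ)).measurableSet fun b hb k hk => h4 ρ r2 b k hb hk).trans
      (h6 _ (one_le_mul_of_one_le_of_one_le h3 r2)).2
    have a4 := (Nat.cast_le (α := ℝ)).2 (LieSys_B X.M hg'.1 (Λ := Λ) (fun v =>
      (X.surj (LieSys_m (K • g) v)).imp fun a ha => ⟨⟨v, ha.symm⟩, ha⟩) (hA ρ (by linarith)).1)
    rw [← ENNReal.ofReal_toReal (covol_ne Λ hΛ μ).2] at a3 ⊢
    rw [← ENNReal.ofReal_natCast, ← ENNReal.ofReal_mul (Nat.cast_nonneg _),
      ENNReal.ofReal_le_ofReal_iff (by positivity)] at a3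
    refine ENNReal.ofReal_le_ofReal (le_trans ?_ (mul_le_mul_of_nonneg_right
      (le_add_of_nonneg_left (by positivity)) (abs_nonneg _)))
    refine le_of_mul_le_mul_left ?_ (by positivity : 0 < ρ ^ D)
    have a5 := (a2 ρ r1).1.trans (mul_le_mul_of_nonneg_left a4 (by positivity))
    refine (mul_le_mul_of_nonneg_right a5 ENNReal.toReal_nonneg).trans ?_
    rw [mul_assoc]
    refine (mul_le_mul_of_nonneg_left a3 (by positivity)).trans_eq ?_
    rw [LieSys_det, mul_pow]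
    ring
  · have b1 : InBox X.M.d (C1 * r) (X.M.lg x) := h2 r hr hl
    rw [← e, LieSys_smul] at b1
    have b2 := h v ((b1.of_nsmul hK).mono (by positivity)
      (mul_le_mul_of_nonneg_right (le_add_of_nonneg_right (by positivity)) (by positivity)))
    rw [← e, b2, X.M.lg_one, map_zero]

theorem LieSet.low (X : LieSet G n) (hc : IsCompact S) (hS : Subgroup.closure S = ⊤) :
    ∃ C : ℝ, 1 ≤ C ∧ ∀ Λ : Subgroup G, IsCocompactLattice Λ →
      ∃ g : Matrix (Fin n) (Fin n) ℝ, LieLat X.M.s g ∧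
        ENNReal.ofReal |g.det| ≤ ENNReal.ofReal C * covolume Λ G μ ∧
        ∀ r : ℝ, 1 ≤ r → (∀ x ∈ Λ, x ≠ 1 → C * r ≤ (wordLength S x : ℝ)) →
          ∀ v ∈ RZ X.M.d r g, v = 0 := by
  obtain ⟨_, _, _⟩ := LieSys_top X
  obtain ⟨C2, h1, h2⟩ := X.box_ball hc hS
  obtain ⟨Km, h3, h4⟩ := X.M.box_mul
  obtain ⟨Cm, h5, h6⟩ := X.meas_box μ
  obtain ⟨Cl, h7, h8⟩ := real_lat_count X.M.hd
  obtain ⟨N', hN', h9⟩ := min_det_real n X.M.N X.M.hN
  have hb := bil_br X.M.s
  obtain ⟨K, hKe⟩ : ∃ K, K = N' * (N' * X.M.N) := ⟨_, rfl⟩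
  have hK : 0 < K := hKe ▸ Nat.mul_pos hN' (Nat.mul_pos hN' X.M.hN)
  have hK1 : (1 : ℝ) ≤ K := Nat.one_le_cast.2 hK
  generalize ∑ i, X.M.d i = D at h6 h8
  refine ⟨C2 + Cl * Cm * (K * Km) ^ D, le_add_of_le_of_nonneg h1 (by positivity), fun Λ hΛ => ?_⟩
  have hd := hΛ.1
  obtain ⟨g, a0, a1, -, a2⟩ := h9 (X.M.lg '' Λ) ⟨1, Λ.one_mem, X.M.lg_one⟩
    (by rintro _ ⟨a, ha, rfl⟩ k; exact ⟨_, Λ.zpow_mem ha k, X.M.zpow a k⟩)
    (by rintro _ ⟨a, ha, rfl⟩ _ ⟨b, hb, rfl⟩; exact X.M.ib_add Λ a ha b hb) (X.span_lg Λ hΛ)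
    fun R => ((finite_inter Λ (X.BX_compact (max R 1))).image X.M.lg).subset (by
      rintro _ ⟨⟨a, ha, rfl⟩, h⟩
      exact ⟨a, ⟨fun i => (h i).trans ((le_max_left _ _).trans
        (le_self_pow₀ (le_max_right _ _) (Nat.ne_of_gt (X.M.hd i)))), ha⟩, rfl⟩)
  simp only [LieSys_eq] at a1 a2
  have b0 : (K • g).det ≠ 0 := fun h => by
    have := LieSys_det K g
    rw [h, abs_zero] at this
    exact (mul_pos (by positivity) (abs_pos.2 a0)).ne this
  have b1 : ∀ i, g.col i = LieSys_m g (Pi.single i 1) := fun i => by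
    rw [← LieSys_eq, ← Matrix.mulVec_single_one]
    congr 1
    ext j
    simp [Pi.single_apply]
  refine ⟨K • g, lieLat_of_mem b0 fun i j => ?_, ?_, fun r hr h v hv => ?_⟩
  · obtain ⟨a, ha, e⟩ := a2 (Pi.single i 1)
    obtain ⟨b, hb', e'⟩ := a2 (Pi.single j 1)
    obtain ⟨z, hz, e2⟩ := X.M.ib_br Λ a ha b hb'
    obtain ⟨v, hv⟩ := a1 _ (Submodule.subset_span ⟨z, hz, rfl⟩)
    refine ⟨v, ?_⟩
    rw [LieSys_eq, LieSys_smul, hv, e2, e, e', ← b1, ← b1, show (K • g).col i = K • g.col i from rfl,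
      show (K • g).col j = K • g.col j from rfl]
    simp only [hb.nsmul_left, hb.nsmul_right, smul_smul]
    rw [hKe]
    congr 1
    ring
  · obtain ⟨R1, c2⟩ := h8 _ b0
    obtain ⟨ρ, r1, r2⟩ : ∃ ρ : ℝ, R1 ≤ ρ ∧ 1 ≤ ρ := ⟨max R1 1, by simp, by simp⟩
    obtain ⟨c3, c4⟩ := LieSys_A X.M b0 hK (Λ := Λ) (fun a ha =>
      (a1 _ (Submodule.subset_span ⟨a, ha, rfl⟩)).imp fun v hv => by rw [LieSys_smul, hv])
      (r := Km * ρ) (by positivity)
    have c5 := (h6 ρ r2).1.trans (mul_le_mul_right (meas_le_mul_covol Λ μ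
      (X.BX_compact ρ).measurableSet c3 fun x hx y hy => h4 ρ r2 x y⁻¹ hx
        (X.M.lg_inv y ▸ InBox.neg hy)) _)
    have c6 : ρ ≤ K * (Km * ρ) := by
      rw [← mul_assoc]
      exact le_mul_of_one_le_left (by positivity) (one_le_mul_of_one_le_of_one_le hK1 h3)
    have c7 := (mul_le_mul_of_nonneg_left ((Nat.cast_le (α := ℝ)).2 c4) (abs_nonneg _)).trans
      (c2 _ (r1.trans c6)).2
    rw [← ENNReal.ofReal_toReal (covol_ne Λ hΛ μ).2] at c5 ⊢
    rw [← ENNReal.ofReal_natCast, ← ENNReal.ofReal_mul (Nat.cast_nonneg _),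
      ← ENNReal.ofReal_mul (by positivity), ENNReal.ofReal_le_ofReal_iff (by positivity)] at c5
    rw [← ENNReal.ofReal_mul (by positivity)]
    refine ENNReal.ofReal_le_ofReal (le_trans ?_ (mul_le_mul_of_nonneg_right
      (le_add_of_nonneg_left (by positivity)) ENNReal.toReal_nonneg))
    refine le_of_mul_le_mul_right ?_ (by positivity : 0 < ρ ^ D)
    refine (mul_le_mul_of_nonneg_left c5 (abs_nonneg _)).trans ?_
    rw [mul_left_comm, ← mul_assoc |_|]
    refine (mul_le_mul_of_nonneg_left (mul_le_mul_of_nonneg_right c7 ENNReal.toReal_nonneg)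
      (by positivity)).trans_eq ?_
    rw [← mul_assoc (K : ℝ), mul_pow _ ρ]
    ring
  · obtain ⟨a, ha, e⟩ := a2 ((N' * X.M.N) • v)
    rw [map_nsmul, smul_smul, ← hKe, ← LieSys_smul] at e
    have c1 : (wordLength S a : ℝ) ≤ C2 * r := h2 r hr (show InBox X.M.d r (X.M.lg a) from e ▸ hv)
    have c2 : a = 1 := by
      by_contra h0
      have c3 := (h a ha h0).trans c1
      have c4 : 0 < Cl * Cm * (K * Km) ^ D * r := by positivity
      linarith
    rw [c2, X.M.lg_one] at e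
    exact LieSys_inj b0 (e.symm.trans (map_zero _).symm)

theorem LieSet.sysTwo (X : LieSet G n) (hc : IsCompact S) (hS : Subgroup.closure S = ⊤) :
    ∃ β : ℚ, SysTwoL S μ (β : ℝ) := by
  obtain ⟨β, C0, h0, h1⟩ := lr_real X.M.hd X.M.graded X.gen
  obtain ⟨Cu, h2, h3⟩ := X.up μ hc hS
  obtain ⟨Cw, h4, h5⟩ := X.low μ hc hS
  have h6 : Cw ≤ C0 * Cw := le_mul_of_one_le_left (by positivity) h0
  have h7 : C0 * Cw ≤ Cu * C0 * (C0 * Cu) ^ (β : ℝ) + C0 * Cw := le_add_of_nonneg_left (by positivity)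
  refine ⟨β, _, h4.trans (h6.trans h7), fun r hr => ⟨?_, fun Λ hΛ h => ?_⟩⟩
  · obtain ⟨g, a1, a3, a4⟩ := (h1 (C0 * (Cu * r)) (one_le_mul_of_one_le_of_one_le h0
      (one_le_mul_of_one_le_of_one_le h2 hr))).1
    obtain ⟨Λ, b1, b2, b3⟩ := h3 g a1
    rw [mul_div_cancel_left₀ _ (by positivity)] at a3
    refine ⟨Λ, b1, b3 r hr a3, b2.trans (ENNReal.ofReal_le_ofReal
      ((mul_le_mul_of_nonneg_left a4 (by positivity)).trans ?_))⟩
    rw [← mul_assoc C0 Cu, Real.mul_rpow (by positivity) (by positivity), ← mul_assoc, ← mul_assoc]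
    exact mul_le_mul_of_nonneg_right (le_add_of_nonneg_right (by positivity)) (by positivity)
  · obtain ⟨g, a1, a3, a4⟩ := h5 Λ hΛ
    refine (ENNReal.ofReal_le_ofReal ((h1 r hr).2 g a1 (a4 r hr fun x hx e => le_trans
      (mul_le_mul_of_nonneg_right (h6.trans h7) (by positivity)) (h x hx e)))).trans ?_
    rw [ENNReal.ofReal_mul (by positivity)]
    refine (mul_le_mul_right a3 _).trans ?_
    rw [← mul_assoc, ← ENNReal.ofReal_mul (by positivity)]
    exact mul_le_mul_left (ENNReal.ofReal_le_ofReal h7) _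

theorem le_of_twoL [T2Space G] [SecondCountableTopology G] (hc : IsCompact S)
    (hS : Subgroup.closure S = ⊤) {D : ℕ} {β : ℝ} (hD : GrowTwoL S μ D) (hβ : SysTwoL S μ β) :
    (D : ℝ) ≤ β := by
  obtain ⟨C1, hC1, h1⟩ := hD
  obtain ⟨C2, hC2, h2⟩ := hβ
  by_contra hb
  refine Gen_aux tendsto_natCast_atTop_atTop (p := D) (q := β) (a := 1)
    (K := C1 * (C2 * (3 * C1) ^ β)) (not_le.1 hb) one_pos fun k hk => ?_
  have h3 := one_le_mul_of_one_le_of_one_le hC1 hk
  obtain ⟨Λ, ⟨_, -⟩, hs, hi⟩ := (h2 (3 * C1 * k) (by linarith)).1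
  have a := le_covolume Λ μ (ball_compact hc hS (C1 * k)).measurableSet fun γ hγ b hb hb' => by
    by_contra h0
    have e1 := hs γ hγ h0
    have e2 := (Nat.cast_le (α := ℝ)).2 (wordLength_mul_le hS (γ * b) b⁻¹)
    rw [mul_inv_cancel_right, wordLength_inv hS, Nat.cast_add] at e2
    have e3 : (wordLength S b : ℝ) ≤ C1 * k := hb
    have e4 : (wordLength S (γ * b) : ℝ) ≤ C1 * k := hb'
    linarith
  have b := (h1 k hk).1.trans (mul_le_mul_right (a.trans hi) _)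
  rw [← ENNReal.ofReal_mul (by positivity), ENNReal.ofReal_le_ofReal_iff (by positivity),
    Real.mul_rpow (by positivity) (by positivity)] at b
  rw [one_mul, Real.rpow_natCast]
  exact b.trans_eq (by ring)

omit [TopologicalSpace G] [IsTopologicalGroup G] [BorelSpace G] [μ.IsHaarMeasure] in
theorem dom_growL {D : ℕ} (hD : GrowTwoL S μ D) :
    Dom (ballVol S μ) (fun r => ENNReal.ofReal (r ^ D)) ∧
      Dom (fun r => ENNReal.ofReal (r ^ D)) (ballVol S μ) := by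
  obtain ⟨C, hC, h⟩ := hD
  refine ⟨⟨C, 1, C, by linarith, one_pos, by linarith, fun r hr => ?_⟩,
    ⟨C, C, 1, by linarith, by linarith, one_pos, fun r hr => ?_⟩⟩
  · rw [one_mul, ← ENNReal.ofReal_mul (by linarith)]
    rcases le_total 1 r with k | k
    · exact (h r k).2.trans le_self_add
    · have a := (h 1 le_rfl).2
      rw [one_pow, mul_one] at a
      exact ((measure_mono fun x hx => le_trans hx k).trans a).trans le_add_self
  · rcases le_total 1 r with k | k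
    · exact (h r k).1.trans le_self_add
    · exact (ENNReal.ofReal_le_ofReal (pow_le_one₀ hr.le k)).trans le_add_self

omit [IsTopologicalGroup G] [BorelSpace G] [μ.IsHaarMeasure] in
theorem dom_sysL {β : ℝ} (h0 : 0 ≤ β) (hβ : SysTwoL S μ β) :
    Dom (sysGrowth S μ) (fun r => ENNReal.ofReal (r ^ β)) ∧
      Dom (fun r => ENNReal.ofReal (r ^ β)) (sysGrowth S μ) := by
  obtain ⟨C, hC, h⟩ := hβ
  have e : ∀ (r : ℝ) (Λ : Subgroup G), IsCocompactLattice Λ →
      (∀ x ∈ Λ, x ≠ 1 → r ≤ (wordLength S x : ℝ)) → sysGrowth S μ r ≤ covolume Λ G μ :=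
    fun r Λ h1 h2 => iInf_le_of_le Λ (iInf_le_of_le h1 (iInf_le _ h2))
  refine ⟨⟨C, 1, C, by linarith, one_pos, by linarith, fun r hr => ?_⟩,
    ⟨C, C, 1, by linarith, by linarith, one_pos, fun r hr => ?_⟩⟩
  · rw [one_mul, ← ENNReal.ofReal_mul (by linarith)]
    rcases le_total 1 r with k | k
    · obtain ⟨Λ, h1, h2, h3⟩ := (h r k).1
      exact ((e r Λ h1 h2).trans h3).trans le_self_add
    · obtain ⟨Λ, h1, h2, h3⟩ := (h 1 le_rfl).1
      rw [Real.one_rpow, mul_one] at h3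
      exact ((e r Λ h1 fun x hx h1 => k.trans (h2 x hx h1)).trans h3).trans le_add_self
  · rcases le_total 1 r with k | k
    · refine le_trans ((ENNReal.div_le_iff' (ENNReal.ofReal_pos.2 (by linarith)).ne'
        ENNReal.ofReal_ne_top).1 ?_) le_self_add
      exact le_iInf fun Λ => le_iInf fun h1 => le_iInf fun h2 =>
        ENNReal.div_le_of_le_mul' ((h r k).2 Λ h1 h2)
    · exact (ENNReal.ofReal_le_ofReal (Real.rpow_le_one hr.le k h0)).trans le_add_self

end Pool.Agent.Work.MP_913e71_al.Pos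
end

-- merged part: Pool.Agent.Work.MP_913e71_al.Pos.LieMal
section
/-! Logarithmic coordinates on a unipotent matrix group.

PLAN.  `nilAlg_upp`: a product of `k` such matrices has zero entries for `j < i + k`.
`exists_log_poly`: in `B = ℚ[X] ⧸ span {X ^ (c + 1)}` the ideal of the class `a` of `X` is a `NilAlg`; `exp_surj` gives a polynomial `P`
without constant term with `exp (P a) = 1 + a`, which is an identity of polynomials modulo `X ^ (c + 1)`
(`exp_eq_sum`); substitute `exp x - 1` (`Polynomial.aeval`) and use `exp_inj`.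
`lie_log`: `L a = aeval (φ a - 1) P`; `φ a = ∑ k < m + 1, k!⁻¹ • L a ^ k`, so `L` is inducing; its range `g` is closed.
`exists_lieSet`: `malInt_data` for `Γ` gives `e d s K`.  `e i ∈ g` as `K • e i` is a logarithm.  The `ℤ`-span of the `K • e i` lies in the discrete set
`L '' Γ`, so `e` is linearly independent over `ℝ` (`Real.finrank_eq_int_finrank_of_discrete`; matrices as a normed space through
`Matrix.normedAddCommGroup` locally, or through the functions `Fin m → Fin m → ℝ`).  `span_of_bounded` with `h = span ℝ (range e)`, `exists_cover`,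
`exists_bch`: `g = h`.  `lam` = a real linear map with `lam (e i) = Pi.single i 1`, restricted to `ℚ`; `mal_of_rep` for `H` with
`g.restrictScalars ℚ`; on `g` the inverse of `lam` is `v ↦ ∑ v i • e i`, so `lam ∘ L` is an embedding onto.  `Int` as in
`exists_malInt` of `MalEx.lean`. -/

namespace Pool.Agent.Work.MP_913e71_al.Pos

/-- Strictly upper triangular matrices. -/
def upp (m : ℕ) : Submodule ℚ (Matrix (Fin m) (Fin m) ℝ) where
  carrier := {x | ∀ i j, j ≤ i → x i j = 0}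
  zero_mem' := fun _ _ _ => rfl
  add_mem' := fun {a b} ha hb i j h => by simp [ha i j h, hb i j h]
  smul_mem' := fun c x hx i j h => by simp [hx i j h]

theorem LieMal_prod {m : ℕ} (l : List (Matrix (Fin m) (Fin m) ℝ)) (hl : ∀ x ∈ l, x ∈ upp m)
    (i j : Fin m) (h : (j : ℕ) < i + l.length) : l.prod i j = 0 := by
  induction l generalizing i with
  | nil =>
    rw [List.prod_nil, Matrix.one_apply_ne]
    rintro rfl
    simp at h
  | cons a t ih =>
    rw [List.prod_cons, Matrix.mul_apply]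
    refine Finset.sum_eq_zero fun k _ => ?_
    by_cases hk : k ≤ i
    · rw [hl a List.mem_cons_self i k hk, zero_mul]
    · rw [ih (fun x hx => hl x (List.mem_cons_of_mem _ hx)) k (by
        rw [List.length_cons] at h
        have := Fin.lt_def.1 (not_le.1 hk)
        omega), mul_zero]

theorem nilAlg_upp (m : ℕ) : NilAlg (upp m) m := by
  refine ⟨fun x hx y hy i j h => ?_, fun l e hl => ?_⟩
  · rw [Matrix.mul_apply]
    refine Finset.sum_eq_zero fun k _ => ?_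
    by_cases hk : k ≤ i
    · rw [hx i k hk, zero_mul]
    · rw [hy k j (h.trans (not_le.1 hk).le), mul_zero]
  · ext i j
    exact LieMal_prod l hl i j (by have := j.2; omega)

theorem exp_eq_nil {m : ℕ} {x : Matrix (Fin m) (Fin m) ℝ} (hx : IsNilpotent x) :
    NormedSpace.exp x = IsNilpotent.exp x := by
  obtain ⟨k, hk⟩ := hx
  rw [IsNilpotent.exp_eq_sum hk, NormedSpace.exp_eq_tsum_rat]
  refine tsum_eq_sum fun n hn => ?_
  rw [pow_eq_zero_of_le (by simpa using hn) hk, smul_zero]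

theorem LieMal_rev (u : Polynomial ℚ) (hu : u.eval 0 = 1) (n : ℕ) :
    ∃ P : Polynomial ℚ, Polynomial.X ^ (n + 1) ∣ P.comp (Polynomial.X * u) - Polynomial.X := by
  induction n with
  | zero => exact ⟨0, by simp⟩
  | succ n ih =>
    obtain ⟨P, R, hR⟩ := ih
    refine ⟨P - Polynomial.C (R.eval 0) * Polynomial.X ^ (n + 1), ?_⟩
    have h1 : Polynomial.X ∣ R - Polynomial.C (R.eval 0) * u ^ (n + 1) := by
      rw [Polynomial.X_dvd_iff, Polynomial.coeff_zero_eq_eval_zero]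
      simp [hu]
    have h2 : (P - Polynomial.C (R.eval 0) * Polynomial.X ^ (n + 1)).comp (Polynomial.X * u) -
        Polynomial.X = Polynomial.X ^ (n + 1) * (R - Polynomial.C (R.eval 0) * u ^ (n + 1)) := by
      rw [Polynomial.sub_comp, Polynomial.mul_comp, Polynomial.C_comp, Polynomial.pow_comp,
        Polynomial.X_comp, mul_sub, ← hR]
      ring
    rw [h2, pow_succ]
    exact mul_dvd_mul_left _ h1

theorem exists_log_poly (c : ℕ) : ∃ P : Polynomial ℚ, ∀ (A : Type) [Ring A] [Algebra ℚ A]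
    (N : Submodule ℚ A), NilAlg N c → ∀ x ∈ N, Polynomial.aeval (IsNilpotent.exp x - 1) P = x := by
  obtain ⟨P, R, hR⟩ := LieMal_rev (∑ k ∈ Finset.range (c + 1),
    (((k + 1).factorial : ℚ)⁻¹) • Polynomial.X ^ k) (by
      rw [Finset.sum_range_succ', Polynomial.eval_add, Polynomial.eval_finsetSum]
      simp) c
  refine ⟨P, fun A _ _ N h x hx => ?_⟩
  have h0 := h.pow_eq hx
  have h1 : IsNilpotent.exp x - 1 = Polynomial.aeval x (Polynomial.X *
      ∑ k ∈ Finset.range (c + 1), (((k + 1).factorial : ℚ)⁻¹) • (Polynomial.X : Polynomial ℚ) ^ k) := by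
    rw [IsNilpotent.exp_eq_sum (k := c + 1 + 1) (by rw [pow_succ, h0, zero_mul]),
      Finset.sum_range_succ', map_mul, map_sum, Finset.mul_sum]
    simp only [Nat.factorial_zero, Nat.cast_one, inv_one, pow_zero, one_smul, add_sub_cancel_right,
      map_smul, map_pow, Polynomial.aeval_X, mul_smul_comm, pow_succ']
  rw [h1, ← Polynomial.aeval_comp, sub_eq_iff_eq_add.1 hR, map_add, map_mul, map_pow,
    Polynomial.aeval_X, h0, zero_mul, zero_add]

variable {m : ℕ} {g : Submodule ℝ (Matrix (Fin m) (Fin m) ℝ)} {H : Type} [Group H]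
  [TopologicalSpace H] {φ : H →* Matrix (Fin m) (Fin m) ℝ}

theorem lie_log (hup : ∀ x ∈ g, ∀ i j, j ≤ i → x i j = 0) (hφ : Topology.IsEmbedding φ)
    (hr : Set.range φ = NormedSpace.exp '' (g : Set (Matrix (Fin m) (Fin m) ℝ))) :
    ∃ L : H → Matrix (Fin m) (Fin m) ℝ, Topology.IsClosedEmbedding L ∧ Set.range L = g ∧
      ∀ a, IsNilpotent.exp (L a) = φ a := by
  obtain ⟨P, hP⟩ := exists_log_poly m
  have h := nilAlg_upp m
  have key : ∀ x ∈ g, ∀ a, φ a = NormedSpace.exp x →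
      Polynomial.aeval (φ a - 1) P = x ∧ IsNilpotent.exp x = φ a := fun x hx a e => by
    have hx' : x ∈ upp m := hup x hx
    rw [e, exp_eq_nil (h.isNilpotent hx')]
    exact ⟨hP _ _ h x hx', rfl⟩
  have hL : ∀ a, Polynomial.aeval (φ a - 1) P ∈ g ∧
      IsNilpotent.exp (Polynomial.aeval (φ a - 1) P) = φ a := fun a => by
    obtain ⟨x, hx, e⟩ : φ a ∈ NormedSpace.exp '' (g : Set (Matrix (Fin m) (Fin m) ℝ)) :=
      hr ▸ Set.mem_range_self a
    obtain ⟨k1, k2⟩ := key x hx a e.symm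
    rw [k1]
    exact ⟨hx, k2⟩
  have hrange : Set.range (fun a => Polynomial.aeval (φ a - 1) P) = g := by
    refine Set.Subset.antisymm (Set.range_subset_iff.2 fun a => (hL a).1) fun x hx => ?_
    obtain ⟨a, e⟩ : NormedSpace.exp x ∈ Set.range φ := hr ▸ Set.mem_image_of_mem _ hx
    exact ⟨a, (key x hx a e).1⟩
  refine ⟨fun a => Polynomial.aeval (φ a - 1) P, ⟨?_, ?_⟩, hrange, fun a => (hL a).2⟩
  · refine Topology.IsEmbedding.of_comp
      (g := fun y : Matrix (Fin m) (Fin m) ℝ =>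
        ∑ k ∈ Finset.range (m + 1), ((k.factorial : ℚ)⁻¹) • y ^ k)
      (P.continuous_aeval.comp (hφ.continuous.sub continuous_const))
      (continuous_finsetSum _ fun k _ => (continuous_pow k).fun_const_smul _) ?_
    have e : ((fun y : Matrix (Fin m) (Fin m) ℝ =>
        ∑ k ∈ Finset.range (m + 1), ((k.factorial : ℚ)⁻¹) • y ^ k) ∘
          fun a => Polynomial.aeval (φ a - 1) P) = φ := by
      funext a
      exact (IsNilpotent.exp_eq_sum (h.pow_eq (hup _ (hL a).1))).symm.trans (hL a).2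
    rw [e]
    exact hφ
  · rw [hrange]
    exact g.closed_of_finiteDimensional

theorem lie_basic (hup : ∀ x ∈ g, ∀ i j, j ≤ i → x i j = 0) (hφ : Topology.IsEmbedding φ)
    (hr : Set.range φ = NormedSpace.exp '' (g : Set (Matrix (Fin m) (Fin m) ℝ))) :
    LocallyCompactSpace H ∧ T2Space H ∧ SecondCountableTopology H := by
  obtain ⟨L, hL, -, -⟩ := lie_log hup hφ hr
  have : LocallyCompactSpace (Matrix (Fin m) (Fin m) ℝ) :=
    inferInstanceAs (LocallyCompactSpace (Fin m → Fin m → ℝ))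
  have : SecondCountableTopology (Matrix (Fin m) (Fin m) ℝ) :=
    inferInstanceAs (SecondCountableTopology (Fin m → Fin m → ℝ))
  exact ⟨hL.locallyCompactSpace, hL.isEmbedding.t2Space, hL.isEmbedding.secondCountableTopology⟩

theorem LieMal_li {E : Type} [NormedAddCommGroup E] [NormedSpace ℝ E] [FiniteDimensional ℝ E]
    {n : ℕ} (e : Fin n → E) (he : LinearIndependent ℤ e)
    (hd : DiscreteTopology (Submodule.span ℤ (Set.range e))) : LinearIndependent ℝ e := by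
  rw [linearIndependent_iff_card_eq_finrank_span] at he ⊢
  rw [Real.finrank_eq_int_finrank_of_discrete hd, he]

theorem LieMal_disc {X Y : Type} [TopologicalSpace X] [TopologicalSpace Y] [DiscreteTopology X]
    {f : X → Y} (hf : Topology.IsInducing f) (S : Set Y) (hS : ∀ v ∈ S, ∃ a, f a = v) :
    DiscreteTopology S := by
  choose k hk using fun v : S => hS v v.2
  refine DiscreteTopology.of_continuous_injective (f := k) (hf.continuous_iff.2 ?_)
    fun v w e => Subtype.ext (by rw [← hk, ← hk, e])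
  rw [show f ∘ k = Subtype.val from funext hk]
  exact continuous_subtype_val

theorem LieMal_brl {n : ℕ} (s : Fin n → Fin n → Fin n → ℤ) (r : ℝ) (x y : Fin n → ℝ) :
    br s (r • x) y = r • br s x y := by
  funext l
  simp only [br, Pi.smul_apply, smul_eq_mul, Finset.mul_sum, mul_assoc]

theorem LieMal_brr {n : ℕ} (s : Fin n → Fin n → Fin n → ℤ) (r : ℝ) (x y : Fin n → ℝ) :
    br s x (r • y) = r • br s x y := by
  funext l
  simp only [br, Pi.smul_apply, smul_eq_mul, Finset.mul_sum, mul_assoc, mul_left_comm]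

theorem LieMal_cml (r : ℝ) (x y : Matrix (Fin m) (Fin m) ℝ) : cm (r • x) y = r • cm x y := by
  simp only [cm, smul_mul_assoc, mul_smul_comm, smul_sub]

theorem LieMal_cmr (r : ℝ) (x y : Matrix (Fin m) (Fin m) ℝ) : cm x (r • y) = r • cm x y := by
  simp only [cm, smul_mul_assoc, mul_smul_comm, smul_sub]

theorem exists_lieSet [IsTopologicalGroup H] (hup : ∀ x ∈ g, ∀ i j, j ≤ i → x i j = 0)
    (hg : ∀ x ∈ g, ∀ y ∈ g, x * y - y * x ∈ g) (hφ : Topology.IsEmbedding φ)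
    (hr : Set.range φ = NormedSpace.exp '' (g : Set (Matrix (Fin m) (Fin m) ℝ)))
    (Γ : Subgroup H) (hΓ : IsCocompactLattice Γ) (T : Finset Γ)
    (hT : Subgroup.closure (T : Set Γ) = ⊤) : ∃ n : ℕ, Nonempty (LieSet H n) := by
  obtain ⟨L, hLe, hLr, hexp⟩ := lie_log hup hφ hr
  obtain ⟨_, _, -⟩ := lie_basic hup hφ hr
  obtain ⟨hΓ1, hΓ2⟩ := id hΓ
  have h := nilAlg_upp m
  have hL : ∀ a, L a ∈ g := fun a => by
    rw [← SetLike.mem_coe, ← hLr]
    exact Set.mem_range_self a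
  have hN : ∀ a, L a ∈ upp m := fun a => hup _ (hL a)
  have hsurj : ∀ x ∈ g, ∃ a, L a = x := fun x hx => by
    rw [← SetLike.mem_coe, ← hLr] at hx
    exact hx
  obtain ⟨n, e, d, s, K, he, hd, heN, hs, hgr, hK, h1, h2, h3⟩ :=
    malInt_data h (φ.comp Γ.subtype) (fun a : Γ => L a) (fun a => hN a) (fun a => hexp a) T hT
  have hK0 : (K : ℝ) ≠ 0 := Nat.cast_ne_zero.2 hK.ne'
  have heg : ∀ i, e i ∈ g := fun i => by
    obtain ⟨a, ha⟩ := h2 (Pi.single i 1)
    have h4 := hL a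
    rw [ha, Finset.sum_eq_single i (fun j _ hj => by simp [hj]) (by simp), Pi.single_eq_same,
      one_smul, ← Nat.cast_smul_eq_nsmul ℝ] at h4
    exact (Submodule.smul_mem_iff _ hK0).1 h4
  have heR : LinearIndependent ℝ e := by
    have k1 : LinearIndependent ℤ fun i => K • e i := by
      rw [Fintype.linearIndependent_iff]
      intro v hv i
      have k2 : ∑ j, ((v j * K : ℤ) : ℚ) • e j = 0 := by
        rw [← hv]
        refine Finset.sum_congr rfl fun j _ => ?_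
        rw [Int.cast_smul_eq_zsmul, mul_smul, natCast_zsmul]
      have k3 := Fintype.linearIndependent_iff.1 he _ k2 i
      rw [Int.cast_eq_zero, mul_eq_zero] at k3
      exact k3.resolve_right (by exact_mod_cast hK.ne')
    have k2 : DiscreteTopology (Submodule.span ℤ (Set.range fun i => K • e i)) := by
      refine LieMal_disc (f := fun a : Γ => L a)
        (hLe.isEmbedding.isInducing.comp Topology.IsInducing.subtypeVal) _ fun v hv => ?_
      obtain ⟨c, rfl⟩ := (Submodule.mem_span_range_iff_exists_fun ℤ).1 hv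
      obtain ⟨a, ha⟩ := h2 c
      refine ⟨a, ha.trans ?_⟩
      rw [Finset.smul_sum]
      exact Finset.sum_congr rfl fun j _ => smul_comm _ _ _
    have k3 : LinearIndependent ℝ fun i => K • e i :=
      LieMal_li (E := Fin m → Fin m → ℝ) _ k1 k2
    have k4 := k3.units_smul fun _ => (Units.mk0 _ hK0)⁻¹
    have k5 : ((fun _ => (Units.mk0 _ hK0)⁻¹ : Fin n → ℝˣ) • fun i => K • e i) = e := by
      funext i
      rw [Pi.smul_apply', ← Nat.cast_smul_eq_nsmul ℝ]
      exact inv_smul_smul (Units.mk0 _ hK0) (e i)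
    exact k5 ▸ k4
  obtain ⟨p, hp⟩ := (Finsupp.linearCombination ℝ e).exists_leftInverse_of_injective
    (LinearMap.ker_eq_bot.2 heR)
  obtain ⟨lam, hl⟩ : ∃ lam : Matrix (Fin m) (Fin m) ℝ →ₗ[ℝ] (Fin n → ℝ),
      ∀ i, lam (e i) = Pi.single i 1 :=
    ⟨Finsupp.linearCombination ℝ (fun i => Pi.single i 1) ∘ₗ p, fun i => by
      have := LinearMap.congr_fun hp (Finsupp.single i 1)
      simp only [LinearMap.comp_apply, Finsupp.linearCombination_single, one_smul,
        LinearMap.id_apply] at this ⊢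
      rw [this, Finsupp.linearCombination_single, one_smul]⟩
  have lz : ∀ v : Fin n → ℤ, lam (∑ i, v i • e i) = fun i => (v i : ℝ) := fun v => by
    simp only [map_sum, map_zsmul, hl]
    funext l
    simp [Pi.single_apply]
  have lr : ∀ v : Fin n → ℝ, lam (∑ i, v i • e i) = v := fun v => by
    simp only [map_sum, map_smul, hl]
    funext l
    simp [Pi.single_apply]
  have hb : ∀ x ∈ Submodule.span ℝ (Set.range e), ∀ y ∈ Submodule.span ℝ (Set.range e),
      cm x y ∈ Submodule.span ℝ (Set.range e) ∧ lam (cm x y) = br s (lam x) (lam y) := by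
    intro x hx y hy
    induction hx, hy using Submodule.span_induction₂ with
    | mem_mem x y hx hy =>
      obtain ⟨⟨i, rfl⟩, j, rfl⟩ := And.intro hx hy
      refine ⟨hs i j ▸ sum_mem fun l _ => zsmul_mem (Submodule.subset_span (Set.mem_range_self l)) _, ?_⟩
      rw [hs, lz, hl, hl]
      funext l
      simp [br, Pi.single_apply]
    | zero_left y => simp only [bil_cm.zero_left, (bil_br s).zero_left, map_zero, zero_mem, and_self]
    | zero_right y =>
      simp only [bil_cm.zero_right, (bil_br s).zero_right, map_zero, zero_mem, and_self]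
    | add_left x y z _ _ _ k k' =>
      simp only [bil_cm.add_left, (bil_br s).add_left, map_add, add_mem k.1 k'.1, k.2, k'.2, and_self]
    | add_right x y z _ _ _ k k' =>
      simp only [bil_cm.add_right, (bil_br s).add_right, map_add, add_mem k.1 k'.1, k.2, k'.2,
        and_self]
    | smul_left r x y _ _ k =>
      simp only [LieMal_cml, LieMal_brl, map_smul, Submodule.smul_mem _ r k.1, k.2, and_self]
    | smul_right r x y _ _ k =>
      simp only [LieMal_cmr, LieMal_brr, map_smul, Submodule.smul_mem _ r k.1, k.2, and_self]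
  obtain ⟨q, q1, q2⟩ := exists_bch h
  have hgs : g ≤ Submodule.span ℝ (Set.range e) := by
    obtain ⟨C, hC, -, hcov⟩ := exists_cover Γ
    refine span_of_bounded bil_cm LieMal_cml g _ hg (fun x hx y hy => (hb x hx y hy).1)
      (Submodule.span_le.2 (Set.range_subset_iff.2 heg)) (c := m)
      (h.ev_eq_zero fun a : g => hup _ a.2) q1 L hL hsurj (MalEx_mul h φ hN hexp q2) (Γ : Set H)
      (fun a ha => ?_) fun μ => ?_
    · obtain ⟨v, hv⟩ := h1 ⟨a, ha⟩
      rw [← Submodule.smul_mem_iff _ hK0, Nat.cast_smul_eq_nsmul, hv]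
      exact sum_mem fun l _ => zsmul_mem (Submodule.subset_span (Set.mem_range_self l)) _
    · obtain ⟨B, hB⟩ := hC.exists_bound_of_continuousOn
        (μ.continuous_of_finiteDimensional.comp hLe.continuous).continuousOn
      refine ⟨B, fun x => ?_⟩
      obtain ⟨γ, k1, k2⟩ := hcov x
      exact ⟨γ, k1, hB _ k2⟩
  have hinv : ∀ x ∈ g, ∑ i, lam x i • e i = x := fun x hx => by
    obtain ⟨v, rfl⟩ := (Submodule.mem_span_range_iff_exists_fun ℝ).1 (hgs hx)
    rw [lr]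
  obtain ⟨Q, e1, e2, e3, K', e4⟩ := mal_of_rep h φ hφ.injective (g.restrictScalars ℚ)
    (fun x hx => hup x hx) hg L hL hexp d s hd hgr (fun x => funext fun l => by
      have as : ∀ i j, (s i j l : ℝ) = -s j i l := fun i j => by
        rw [← congrFun (lz (s i j)) l, ← congrFun (lz (s j i)) l, ← hs, ← hs, ← Pi.neg_apply,
          ← map_neg, cm, cm, neg_sub]
      have : br s x x l = -br s x x l := by
        rw [br, Finset.sum_comm, ← Finset.sum_neg_distrib]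
        refine Finset.sum_comm.trans (Finset.sum_congr rfl fun i _ => ?_)
        rw [← Finset.sum_neg_distrib]
        exact Finset.sum_congr rfl fun j _ => by rw [as i j]; ring
      exact eq_zero_of_neg_eq this.symm) (lam.restrictScalars ℚ)
    (fun x hx h0 => by
      have k : lam x = 0 := h0
      rw [← hinv x hx, k]
      simp)
    (fun x hx y hy => (hb x (hgs hx) y (hgs hy)).2) K hK
  have e3' : ∀ a, Q.lg a = lam (L a) := e3
  refine ⟨n, ⟨⟨Q, Γ, T, fun v => ?_, ?_, hΓ, hT, fun a => ?_, fun v => ?_, fun i => ?_⟩⟩⟩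
  · obtain ⟨a, ha⟩ := hsurj (∑ i, v i • e i) (sum_mem fun i _ => g.smul_mem _ (heg i))
    exact ⟨a, by rw [e3', ha, lr]⟩
  · refine Topology.IsEmbedding.of_comp (g := fun v : Fin n → ℝ => ∑ i, v i • e i) ?_
      (continuous_finsetSum _ fun i _ => (continuous_apply i).smul continuous_const) ?_
    · rw [show Q.lg = lam ∘ L from funext e3']
      exact lam.continuous_of_finiteDimensional.comp hLe.continuous
    · rw [show (fun v : Fin n → ℝ => ∑ i, v i • e i) ∘ Q.lg = L from funext fun a => by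
        rw [Function.comp_apply, e3', hinv _ (hL a)]]
      exact hLe.isEmbedding
  · obtain ⟨v, hv⟩ := h1 a
    refine ⟨fun i => K' * v i, ?_⟩
    show Q.N • Q.lg a = _
    rw [e3', e4, mul_comm, mul_smul, ← map_nsmul, hv, lz]
    funext i
    simp
  · obtain ⟨a, ha⟩ := h2 fun i => K' * v i
    refine ⟨a, ?_⟩
    show Q.lg a = Q.N • _
    rw [e3', e4, ha, map_nsmul, lz, mul_smul]
    funext i
    simp
  · show Q.N • (Pi.single i 1 : Fin n → ℝ) ∈ AddSubgroup.closure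
      {v | ∃ w : FreeMagma T, Q.d i ≤ w.length ∧ ev (br Q.s) (fun a : T => Q.lg (a : Γ)) w = v}
    rw [e4, mul_comm, mul_smul, ← hl, ← map_nsmul, e1, e2]
    refine nsmul_mem (AddSubgroup.mem_comap.1 ((AddSubgroup.closure_le
      (AddSubgroup.comap lam.toAddMonoidHom _)).2 ?_ (h3 i))) _
    rintro _ ⟨w, hw, rfl⟩
    refine AddSubgroup.subset_closure ⟨w, hw, ?_⟩
    simp only [e3']
    exact (map_ev lam (P := g) hg (fun x hx y hy => (hb x (hgs hx) y (hgs hy)).2)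
      (fun a : T => hL (a : Γ)) w).symm

end Pool.Agent.Work.MP_913e71_al.Pos
end

-- merged part: Pool.Agent.Work.MP_913e71_al.Pos.MainL
section
/-! The case of simply connected nilpotent Lie groups. -/

namespace Pool.Agent.Work.MP_913e71_al.Pos

open MeasureTheory

theorem main_lie (m : ℕ) (g : Submodule ℝ (Matrix (Fin m) (Fin m) ℝ))
    (hup : ∀ x ∈ g, ∀ i j, j ≤ i → x i j = 0) (hg : ∀ x ∈ g, ∀ y ∈ g, x * y - y * x ∈ g)
    (H : Type) [Group H] [TopologicalSpace H] [IsTopologicalGroup H] [MeasurableSpace H]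
    [BorelSpace H] (φ : H →* Matrix (Fin m) (Fin m) ℝ) (hφ : Topology.IsEmbedding φ)
    (hr : Set.range φ = NormedSpace.exp '' (g : Set (Matrix (Fin m) (Fin m) ℝ)))
    (hΓ : ∃ Γ : Subgroup H, IsCocompactLattice Γ) (S : Set H) (hc : IsCompact S)
    (hS : Subgroup.closure S = ⊤) (μ : Measure H) [μ.IsHaarMeasure] :
    (∀ Γ : Subgroup H, DiscreteTopology Γ → HasFundamentalDomain Γ H μ) ∧
    ∃ (D : ℕ) (h : ℚ), 0 ≤ h ∧
      (Dom (ballVol S μ) (fun r => ENNReal.ofReal (r ^ D)) ∧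
        Dom (fun r => ENNReal.ofReal (r ^ D)) (ballVol S μ)) ∧
      (Dom (sysGrowth S μ) (fun r => ENNReal.ofReal (r ^ ((D : ℝ) + h))) ∧
        Dom (fun r => ENNReal.ofReal (r ^ ((D : ℝ) + h))) (sysGrowth S μ)) := by
  obtain ⟨Γ, hΓ⟩ := hΓ
  obtain ⟨h1, h2, h3⟩ := lie_basic hup hφ hr
  refine ⟨fun Γ _ => ⟨exists_fundamentalDomain Γ μ⟩, ?_⟩
  obtain ⟨T, hT, -⟩ := lattice_qi hc hS Γ hΓ
  obtain ⟨n, ⟨X⟩⟩ := exists_lieSet hup hg hφ hr Γ hΓ T hT
  obtain ⟨β, hβ⟩ := X.sysTwo μ hc hS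
  have h4 := X.grow μ hc hS
  have h5 := le_of_twoL μ hc hS h4 hβ
  refine ⟨∑ i, X.M.d i, β - (∑ i, X.M.d i : ℕ), ?_, dom_growL μ h4, ?_⟩
  · have : ((∑ i, X.M.d i : ℕ) : ℚ) ≤ β := by exact_mod_cast h5
    linarith
  · have e : (((∑ i, X.M.d i : ℕ) : ℝ) + ((β - (∑ i, X.M.d i : ℕ) : ℚ) : ℝ)) = β := by
      push_cast; ring
    rw [e]
    exact dom_sysL μ (le_trans (Nat.cast_nonneg _) h5) hβ

end Pool.Agent.Work.MP_913e71_al.Pos
end
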